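import Pool.Agent.Lib.MP_cc859a_an.TR.Defs

open Finset Real
open scoped BigOperators ComplexConjugate

namespace Pool.Agent.TR

variable {q j j' : ℕ}

theorem LL_pos (hq : 1 ≤ q) : 0 < LL q j := by
  exact Nat.mul_pos hq (Nat.two_pow_pos _)

theorem LL_le_NN : LL q j ≤ NN q j := by
  rw [LL, NN, mul_comm]
  exact Nat.mul_le_mul_left _ (Nat.le_add_right _ _)

theorem NN_le (hq : 1 ≤ q) : NN q j ≤ 2 * LL q j := by
  have := Nat.mod_lt j hq
  rw [LL, NN, ← mul_assoc, mul_comm (2 * q)]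
  exact Nat.mul_le_mul_left _ (by omega)

theorem LL_dvd (h : j ≤ j') : LL q j ∣ LL q j' := by
  exact Nat.mul_dvd_mul_left _ (pow_dvd_pow 2 (Nat.div_le_div_right h))

theorem scale_step (hq : 1 ≤ q) : NN q (j + 1) = NN q j + 2 ^ (j / q) := by
  have h1 := Nat.mod_lt j hq
  have h2 := Nat.mod_add_div j q
  rcases Nat.lt_or_ge (j % q + 1) q with h | h
  · obtain ⟨e1, e2⟩ := (Nat.div_mod_unique (a := j + 1) (d := j / q) (c := j % q + 1) hq).mpr
      ⟨by omega, h⟩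
    rw [NN, NN, e1, e2]
    ring
  · obtain ⟨e1, e2⟩ := (Nat.div_mod_unique (a := j + 1) (d := j / q + 1) (c := 0) hq).mpr
      ⟨by rw [mul_add]; omega, hq⟩
    rw [NN, NN, e1, e2, ← Nat.mul_succ, show (q + j % q).succ = 2 * q by omega]
    ring

theorem NN_lt_succ (hq : 1 ≤ q) : NN q j < NN q (j + 1) := by
  rw [scale_step hq]
  exact Nat.lt_add_of_pos_right (Nat.two_pow_pos _)

theorem NN_mono (hq : 1 ≤ q) (h : j ≤ j') : NN q j ≤ NN q j' := by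
  exact (strictMono_nat_of_lt_succ (f := NN q) fun _ => NN_lt_succ hq).monotone h

theorem NN_succ_le (hq : 1 ≤ q) : q * NN q (j + 1) ≤ (q + 1) * NN q j := by
  have : LL q j ≤ NN q j := LL_le_NN
  rw [scale_step hq, mul_add, add_mul, one_mul]
  exact Nat.add_le_add_left this _

theorem NN_succ_le_two (hq : 1 ≤ q) : NN q (j + 1) ≤ 2 * NN q j := by
  have h1 : LL q j ≤ NN q j := LL_le_NN
  have h2 : 2 ^ (j / q) ≤ LL q j := Nat.le_mul_of_pos_left _ hq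
  rw [scale_step hq]
  omega

theorem NN_add_mul (hq : 1 ≤ q) (w : ℕ) : NN q (j + q * w) = 2 ^ w * NN q j := by
  rw [NN, NN, Nat.add_mul_div_left _ _ hq, Nat.add_mul_mod_self_left, pow_add]
  ring

theorem two_pow_le_NN (hq : 1 ≤ q) {w : ℕ} (h : q * w ≤ j) : 2 ^ w ≤ NN q j := by
  have h1 := NN_add_mul (j := 0) hq w
  have h2 := NN_mono hq h
  have h3 := (LL_pos (j := 0) hq).trans_le LL_le_NN
  rw [zero_add] at h1
  exact (Nat.le_mul_of_pos_right _ h3).trans (h1 ▸ h2)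

theorem mem_node {L : ℕ} (hL : 0 < L) {i x : ℤ} : x ∈ node L i ↔ x / L = i := by
  have h : (0 : ℤ) < L := by exact_mod_cast hL
  rw [node, mem_Ico, ← Int.le_ediv_iff_mul_le h, ← Int.ediv_lt_iff_lt_mul h]
  omega

theorem card_node (L : ℕ) (i : ℤ) : (node L i).card = L := by
  rw [node, Int.card_Ico, show (i + 1) * L - i * L = L by ring, Int.toNat_natCast]

theorem card_star (L : ℕ) (i : ℤ) : (star L i).card = 7 * L := by
  rw [star, Int.card_Ico, show (i + 7) * L - i * L = (7 * L : ℕ) by push_cast; ring,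
    Int.toNat_natCast]

/-- The points `x + m n` stay in the enlarged interval. -/
theorem mem_star {L N : ℕ} (hN : N ≤ 2 * L) {i x n m : ℤ} (hx : x ∈ node L i)
    (hn : n ∈ Icc (1 : ℤ) N) (hm : 0 ≤ m) (hm3 : m ≤ 3) : x + m * n ∈ star L i := by
  rw [node, mem_Ico] at hx
  rw [mem_Icc] at hn
  have h1 : (N : ℤ) ≤ 2 * L := by exact_mod_cast hN
  have h2 : 0 ≤ m * n := mul_nonneg hm (by omega)
  have h3 : m * n ≤ 3 * n := mul_le_mul_of_nonneg_right hm3 (by omega)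
  rw [star, mem_Ico]
  constructor <;> linarith [hx.1, hx.2, hn.2]

theorem star_subset (hq : 1 ≤ q) (h : j ≤ j') (x : ℤ) :
    star (LL q j) (x / LL q j) ⊆ star (LL q j') (x / LL q j') := by
  obtain ⟨k, hk⟩ := LL_dvd (q := q) h
  have h0 : (0 : ℤ) < LL q j := by exact_mod_cast LL_pos hq
  have h1 : (0 : ℤ) < LL q j' := by exact_mod_cast LL_pos hq
  have h2 : LL q j ≤ LL q j' := Nat.le_of_dvd (LL_pos hq) ⟨k, hk⟩
  have h3 : (LL q j' : ℤ) = k * LL q j := by rw [hk]; push_cast; ring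
  have h4 : x / LL q j' * k ≤ x / LL q j := by
    rw [Int.le_ediv_iff_mul_le h0, mul_assoc, ← h3]
    exact Int.ediv_mul_le x h1.ne'
  have h5 : x / LL q j + 1 ≤ (x / LL q j' + 1) * k := by
    rw [Int.add_one_le_iff, Int.ediv_lt_iff_lt_mul h0, mul_assoc, ← h3]
    exact Int.lt_ediv_add_one_mul_self x h1
  have h6 := mul_le_mul_of_nonneg_right h4 h0.le
  have h7 := mul_le_mul_of_nonneg_right h5 h0.le
  rw [mul_assoc, ← h3] at h6 h7
  have h8 : (LL q j : ℤ) ≤ LL q j' := by exact_mod_cast h2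
  exact Ico_subset_Ico h6 (by linarith)

theorem div_eq_of_div_eq (hq : 1 ≤ q) (h : j ≤ j') {x y : ℤ} (hxy : x / LL q j = y / LL q j) :
    x / LL q j' = y / LL q j' := by
  obtain ⟨k, hk⟩ := LL_dvd (q := q) h
  have h0 : (0 : ℤ) < LL q j := by exact_mod_cast LL_pos hq
  rw [hk, Nat.cast_mul, ← Int.ediv_ediv_of_nonneg h0.le, ← Int.ediv_ediv_of_nonneg h0.le, hxy]

theorem scale_expect {s : Finset ℤ} {f : ℤ → ℂ} {c : ℝ} (hc : 0 ≤ c) (h : ∀ n ∈ s, ‖f n‖ ≤ c) :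
    ‖𝔼 n ∈ s, f n‖ ≤ c := by
  rcases s.eq_empty_or_nonempty with rfl | hs
  · simpa using hc
  · exact (RCLike.norm_expect_le (K := ℂ)).trans (expect_le hs h)

theorem scale_three {a b d a' b' d' : ℂ} {c : ℝ} (hb : ‖b‖ ≤ 1) (hd : ‖d‖ ≤ 1) (ha' : ‖a'‖ ≤ 1)
    (hb' : ‖b'‖ ≤ 1) (h1 : ‖a - a'‖ ≤ c) (h2 : ‖b - b'‖ ≤ c) (h3 : ‖d - d'‖ ≤ c) :
    ‖a * b * d - a' * b' * d'‖ ≤ 3 * c := by
  have k : ∀ {x y z : ℂ}, ‖x‖ ≤ 1 → ‖y‖ ≤ 1 → ‖z‖ ≤ c → ‖x * y * z‖ ≤ c := fun hx hy hz => by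
    rw [norm_mul, norm_mul]
    exact (mul_le_of_le_one_left (norm_nonneg _) (mul_le_one₀ hx (norm_nonneg _) hy)).trans hz
  rw [show a * b * d - a' * b' * d' = b * d * (a - a') + a' * d * (b - b') + a' * b' * (d - d') by
    ring]
  linarith [norm_add₃_le (a := b * d * (a - a')) (b := a' * d * (b - b')) (c := a' * b' * (d - d')),
    k hb hd h1, k ha' hd h2, k ha' hb' h3]

theorem norm_Av_le (N : ℕ) {u : Fin 3 → ℤ → ℂ} (hu : ∀ σ y, ‖u σ y‖ ≤ 1) (x : ℤ) :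
    ‖Av N u x‖ ≤ 1 := by
  refine scale_expect zero_le_one fun n _ => ?_
  rw [norm_mul, norm_mul]
  exact mul_le_one₀ (mul_le_one₀ (hu _ _) (norm_nonneg _) (hu _ _)) (norm_nonneg _) (hu _ _)

/-- Changing the functions by `c` on the enlarged interval changes the average by `3 c`. -/
theorem Av_sub_le {L N : ℕ} (hN : N ≤ 2 * L) {i x : ℤ} (hx : x ∈ node L i)
    {u u' : Fin 3 → ℤ → ℂ} (hu : ∀ σ y, ‖u σ y‖ ≤ 1) (hu' : ∀ σ y, ‖u' σ y‖ ≤ 1) {c : ℝ}
    (hc : 0 ≤ c) (h : ∀ σ, ∀ y ∈ star L i, ‖u σ y - u' σ y‖ ≤ c) :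
    ‖Av N u x - Av N u' x‖ ≤ 3 * c := by
  rw [Av, Av, ← expect_sub_distrib]
  refine scale_expect (by linarith) fun n hn => ?_
  have h1 := h 0 _ (mem_star hN hx hn (m := 1) (by norm_num) (by norm_num))
  rw [one_mul] at h1
  exact scale_three (hu _ _) (hu _ _) (hu' _ _) (hu' _ _) h1
    (h 1 _ (mem_star hN hx hn (by norm_num) (by norm_num)))
    (h 2 _ (mem_star hN hx hn (by norm_num) (by norm_num)))

end Pool.Agent.TR
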