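import Pool.Agent.Lib.MP_cc859a_an.TR.BohrL
import Pool.Agent.Lib.MP_cc859a_an.TR.Scale

open Finset Real
open scoped BigOperators ComplexConjugate

namespace Pool.Agent.TR

variable {D D' : Data} {k k' : ℕ} {η η' P P' : ℝ} {a b : Atom} {G G' : ℤ → ℂ}

theorem IsAtom.mono (h : IsAtom D k η a) (hF : D.F ⊆ D'.F) (hB : D'.B ⊆ D.B)
    (hBad : D.Bad ⊆ D'.Bad) (hk : k ≤ k') (hη : η ≤ η') : IsAtom D' k' η' a := by
  exact ⟨h.norm_le, fun y => Sp_mono hF hk (h.mem y),
    fun y hy u hu => h.lab y (fun g => hy (hBad g)) u (hB hu),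
    fun y hy u hu => h.lin y (fun g => hy (hBad g)) u (hB hu),
    fun y hy u hu => (h.val y (fun g => hy (hBad g)) u (hB hu)).trans hη⟩

theorem isAtom_const {c : ℂ} (hc : ‖c‖ ≤ 1) (hη : 0 ≤ η) :
    IsAtom D k η ⟨fun _ => c, 0, 0⟩ := by
  exact ⟨fun _ => hc, fun _ => Sp_zero_mem, fun _ _ _ _ => rfl, fun _ _ _ _ => by simp,
    fun _ _ _ _ => by simpa [e_zero] using hη⟩

theorem IsAtom.mul (h : IsAtom D k η a) (h' : IsAtom D k' η' b) :
    IsAtom D (k + k') (η + η') ⟨fun y => a.γ y * b.γ y, a.Λ + b.Λ, a.t + b.t⟩ := by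
  refine ⟨fun y => ?_, fun y => Sp_add (h.mem y) (h'.mem y), fun y hy u hu => ?_,
    fun y hy u hu => ?_, fun y hy u hu => ?_⟩
  · rw [norm_mul]
    exact mul_le_one₀ (h.norm_le y) (norm_nonneg _) (h'.norm_le y)
  · simp only [Pi.add_apply, h.lab y hy u hu, h'.lab y hy u hu]
  · simp only [Pi.add_apply, h.lin y hy u hu, h'.lin y hy u hu, smul_add]
    abel
  · have h1 : a.γ (y + u) * b.γ (y + u) -
        a.γ y * b.γ y * e (u • (a.t + b.t) y + u • (a.Λ + b.Λ) y u) =
        (a.γ (y + u) - a.γ y * e (u • a.t y + u • a.Λ y u)) * b.γ (y + u) +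
          a.γ y * e (u • a.t y + u • a.Λ y u) *
            (b.γ (y + u) - b.γ y * e (u • b.t y + u • b.Λ y u)) := by
      simp only [Pi.add_apply, smul_add, e_add]
      ring
    refine h1 ▸ norm_add_le_of_le ?_ ?_
    · rw [norm_mul]
      exact (mul_le_of_le_one_right (norm_nonneg _) (h'.norm_le _)).trans (h.val y hy u hu)
    · rw [norm_mul, norm_mul, norm_e, mul_one]
      exact (mul_le_of_le_one_left (norm_nonneg _) (h.norm_le _)).trans (h'.val y hy u hu)

theorem IsAtom.cj (h : IsAtom D k η a) : IsAtom D k η ⟨fun y => conj (a.γ y), -a.Λ, -a.t⟩ := by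
  refine ⟨fun y => by simpa using h.norm_le y, fun y => Sp_neg (h.mem y), fun y hy u hu => ?_,
    fun y hy u hu => ?_, fun y hy u hu => ?_⟩
  · simp only [Pi.neg_apply, h.lab y hy u hu]
  · simp only [Pi.neg_apply, h.lin y hy u hu, smul_neg, neg_add]
  · simp only [Pi.neg_apply, smul_neg, ← neg_add, e_neg, ← map_mul, ← map_sub, RCLike.norm_conj]
    exact h.val y hy u hu

theorem IsAtom.smul (h : IsAtom D k η a) {c : ℂ} (hc : ‖c‖ ≤ 1) :
    IsAtom D k η ⟨fun y => c * a.γ y, a.Λ, a.t⟩ := by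
  refine ⟨fun y => ?_, h.mem, h.lab, h.lin, fun y hy u hu => ?_⟩
  · rw [norm_mul]
    exact mul_le_one₀ hc (norm_nonneg _) (h.norm_le y)
  · rw [mul_assoc, ← mul_sub, norm_mul]
    exact (mul_le_of_le_one_left (norm_nonneg _) hc).trans (h.val y hy u hu)

theorem IsAtom.isSum (h : IsAtom D k η a) : IsSum D k η 1 a.γ := by
  exact ⟨Unit, inferInstance, fun _ => a, by simp, fun _ => h, fun y => by simp⟩

theorem IsSum.mono (h : IsSum D k η P G) (hk : k ≤ k') (hη : η ≤ η') (hP : P ≤ P') :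
    IsSum D k' η' P' G := by
  obtain ⟨ι, _, a, h1, h2, h3⟩ := h
  exact ⟨ι, inferInstance, a, h1.trans hP,
    fun i => (h2 i).mono Subset.rfl Subset.rfl Subset.rfl hk hη, h3⟩

theorem isSum_zero : IsSum D k η 0 fun _ => 0 := by
  exact ⟨Empty, inferInstance, Empty.elim, by simp, fun i => i.elim, fun y => by simp⟩

theorem IsSum.add (h : IsSum D k η P G) (h' : IsSum D k η P' G') :
    IsSum D k η (P + P') fun y => G y + G' y := by
  obtain ⟨ι, _, a, h1, h2, h3⟩ := h
  obtain ⟨κ, _, b, g1, g2, g3⟩ := h'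
  refine ⟨ι ⊕ κ, inferInstance, Sum.elim a b, ?_, fun i => ?_, fun y => by simp [h3, g3]⟩
  · rw [Fintype.card_sum, Nat.cast_add]
    exact add_le_add h1 g1
  · rcases i with i | i
    exacts [h2 i, g2 i]

theorem IsSum.mul (h : IsSum D k η P G) (h' : IsSum D k' η' P' G') :
    IsSum D (k + k') (η + η') (P * P') fun y => G y * G' y := by
  obtain ⟨ι, _, a, h1, h2, h3⟩ := h
  obtain ⟨κ, _, b, g1, g2, g3⟩ := h'
  refine ⟨ι × κ, inferInstance, _, ?_, fun i => (h2 i.1).mul (g2 i.2), fun y => ?_⟩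
  · rw [Fintype.card_prod, Nat.cast_mul]
    exact mul_le_mul h1 g1 (Nat.cast_nonneg _) ((Nat.cast_nonneg _).trans h1)
  · simp only [h3, g3, Fintype.sum_prod_type, sum_mul_sum]

theorem IsSum.smul (h : IsSum D k η P G) {c : ℂ} (hc : ‖c‖ ≤ 1) :
    IsSum D k η P fun y => c * G y := by
  obtain ⟨ι, _, a, h1, h2, h3⟩ := h
  exact ⟨ι, inferInstance, _, h1, fun i => (h2 i).smul hc, fun y => by simp only [h3, mul_sum]⟩

theorem IsSum.pow (h : IsSum D k η P G) (n : ℕ) :
    IsSum D (n * k) (n * η) (P ^ n) fun y => G y ^ n := by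
  induction n with
  | zero => simpa using (isAtom_const (D := D) (k := 0) (c := 1) (by simp) le_rfl).isSum
  | succ n ih => simpa only [pow_succ, add_mul, one_mul, Nat.cast_succ] using ih.mul h

theorem IsSum.nsmul (h : IsSum D k η P G) (n : ℕ) : IsSum D k η (n * P) fun y => n * G y := by
  induction n with
  | zero => simpa using isSum_zero
  | succ n ih => simpa only [add_mul, one_mul, Nat.cast_succ] using ih.add h

theorem isSum_sum {ι : Type*} (s : Finset ι) {Q : ι → ℝ} {H : ι → ℤ → ℂ}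
    (h : ∀ i ∈ s, IsSum D k η (Q i) (H i)) : IsSum D k η (∑ i ∈ s, Q i) fun y => ∑ i ∈ s, H i y := by
  classical
  induction s using Finset.induction_on with
  | empty => simpa using isSum_zero
  | insert i s hi ih =>
    simpa only [sum_insert hi] using (h i (mem_insert_self _ _)).add
      (ih fun j hj => h j (mem_insert_of_mem hj))

/-- Multilinearity of `Av`; the index type is the product of the three index types. -/
theorem isTri_of_sum {u : Fin 3 → ℤ → ℂ} (h : ∀ σ, IsSum D k η P (u σ)) (q : ℕ) :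
    IsTri D k η (P ^ 3) q fun j x => Av (NN q j) u x := by
  obtain ⟨ι, _, a, h1, h2, h3⟩ := h 0
  obtain ⟨κ, _, b, g1, g2, g3⟩ := h 1
  obtain ⟨ν, _, c, f1, f2, f3⟩ := h 2
  have hP : 0 ≤ P := (Nat.cast_nonneg _).trans h1
  refine ⟨(ι × κ) × ν, inferInstance, fun i => ![a i.1.1, b i.1.2, c i.2], ?_, fun i σ => ?_,
    fun j x => ?_⟩
  · rw [Fintype.card_prod, Fintype.card_prod, Nat.cast_mul, Nat.cast_mul, pow_three']
    gcongr
  · fin_cases σ
    exacts [h2 _, g2 _, f2 _]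
  · simp only [Av]
    rw [← expect_sum_comm]
    refine expect_congr rfl fun n _ => ?_
    rw [h3, g3, f3, sum_mul_sum, ← Fintype.sum_prod_type', sum_mul_sum, ← Fintype.sum_prod_type']
    rfl

theorem IsTri.mono {q : ℕ} {Δ : ℕ → ℤ → ℂ} (h : IsTri D k η P q Δ) (hk : k ≤ k') (hη : η ≤ η')
    (hP : P ≤ P') : IsTri D k' η' P' q Δ := by
  obtain ⟨ι, _, a, h1, h2, h3⟩ := h
  exact ⟨ι, inferInstance, a, h1.trans hP,
    fun i σ => (h2 i σ).mono Subset.rfl Subset.rfl Subset.rfl hk hη, h3⟩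

/-- Put the sign in the first atom (`IsAtom.smul` with `c = -1`). -/
theorem IsTri.sub {q : ℕ} {Δ Δ' : ℕ → ℤ → ℂ} (h : IsTri D k η P q Δ) (h' : IsTri D k η P' q Δ') :
    IsTri D k η (P + P') q fun j x => Δ j x - Δ' j x := by
  obtain ⟨ι, _, a, h1, h2, h3⟩ := h
  obtain ⟨κ, _, b, g1, g2, g3⟩ := h'
  refine ⟨ι ⊕ κ, inferInstance, Sum.elim a fun i =>
    ![⟨fun y => -1 * (b i 0).γ y, (b i 0).Λ, (b i 0).t⟩, b i 1, b i 2], ?_, fun i σ => ?_,
    fun j x => ?_⟩
  · rw [Fintype.card_sum, Nat.cast_add]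
    exact add_le_add h1 g1
  · rcases i with i | i
    · exact h2 i σ
    · fin_cases σ
      exacts [(g2 i 0).smul (by simp), g2 i 1, g2 i 2]
  · simp only [h3, g3, Fintype.sum_sum_type, Sum.elim_inl, Sum.elim_inr, sub_eq_add_neg,
      ← sum_neg_distrib, add_right_inj]
    refine sum_congr rfl fun i _ => ?_
    simp [Av, expect_neg_distrib]

end Pool.Agent.TR
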