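import Pool.Agent.Lib.MP_cc859a_an.TR.Num

open Finset Real
open scoped BigOperators ComplexConjugate

namespace Pool.Agent.TR

theorem levn_small {u ρ c a : ℝ} (hu : 400 ≤ u) (h0 : 0 ≤ ρ) (hρ : ρ * u ^ 200 ≤ 1)
    (hc : c ≤ 160000) {k : ℕ} (hk : k ≤ 198) (ha : a ≤ c * u ^ k) : a * ρ ≤ 1 := by
  have h1 : c ≤ u ^ 2 := by nlinarith
  have h2 : a ≤ u ^ 200 :=
    calc a ≤ c * u ^ k := ha
      _ ≤ u ^ 2 * u ^ k := mul_le_mul_of_nonneg_right h1 (by positivity)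
      _ = u ^ (2 + k) := (pow_add _ _ _).symm
      _ ≤ u ^ 200 := pow_le_pow_right₀ (by linarith) (by omega)
  exact (mul_le_mul_of_nonneg_right h2 h0).trans (by rwa [mul_comm])

theorem levn_abs {u ρ Z W P Q : ℝ} (hu : 400 ≤ u) (h0 : 0 ≤ ρ) (hρ : ρ * u ^ 200 ≤ 1) (hZ0 : 0 < Z)
    (hZ : Z ≤ u) (hW0 : 0 ≤ W) (hW : W ≤ u) (hP0 : 0 ≤ P) (hP : P ≤ u) (hQ : Q ≤ u) :
    Z ≤ u ^ 4 ∧ 2 * u ^ 3 ≤ u ^ 4 ∧ 1200 * (u ^ 4) ^ 2 * (2 * W * ρ) ≤ 1 ∧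
    1200 * (u ^ 4) ^ 2 * (14 * Q * ρ) ≤ 1 ∧ 6 * ρ * (u ^ 4) ^ 30 * P ≤ 1 ∧
    ((2 * W + 1) * (2 * P + 1) + 1) * (6 * ρ + 1 / u ^ 4 + 21600 * (u ^ 4) ^ 2 * (ρ * (2 * W))) ≤
      1 / Z := by
  have hu0 : 0 < u := by linarith
  have key : ∀ {c x : ℝ} (k : ℕ), 0 ≤ c → c ≤ 160000 → k ≤ 197 → x ≤ u → c * u ^ k * x * ρ ≤ 1 :=
    fun {c x} k h1 h2 h3 h4 => levn_small hu h0 hρ h2 (k := k + 1) (by omega) (by
      rw [pow_succ, ← mul_assoc]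
      exact mul_le_mul_of_nonneg_left h4 (by positivity))
  refine ⟨hZ.trans (le_self_pow₀ (by linarith) (by norm_num)), ?_, ?_, ?_, ?_, ?_⟩
  · rw [pow_succ' u 3]
    exact mul_le_mul_of_nonneg_right (by linarith) (by positivity)
  · exact le_of_eq_of_le (by ring) (key (c := 2400) 8 (by norm_num) (by norm_num) (by omega) hW)
  · exact le_of_eq_of_le (by ring) (key (c := 16800) 8 (by norm_num) (by norm_num) (by omega) hQ)
  · exact le_of_eq_of_le (by ring) (key (c := 6) 120 (by norm_num) (by norm_num) (by omega) hP)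
  have h1 : 6 * ρ ≤ 1 / u ^ 4 := by
    rw [le_div_iff₀ (by positivity)]
    exact le_of_eq_of_le (by ring) (key (c := 6) 3 (by norm_num) (by norm_num) (by omega) le_rfl)
  have h2 : 21600 * (u ^ 4) ^ 2 * (ρ * (2 * W)) ≤ 1 / u ^ 4 := by
    rw [le_div_iff₀ (by positivity)]
    exact le_of_eq_of_le (by ring) (key (c := 43200) 12 (by norm_num) (by norm_num) (by omega) hW)
  have h3 : (2 * W + 1) * (2 * P + 1) ≤ (3 * u) * (3 * u) :=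
    mul_le_mul (by linarith) (by linarith) (by positivity) (by positivity)
  have h4 : (2 * W + 1) * (2 * P + 1) + 1 ≤ 10 * u ^ 2 := by nlinarith
  calc _ ≤ 10 * u ^ 2 * (3 * (1 / u ^ 4)) :=
        mul_le_mul h4 (by linarith) (by positivity) (by positivity)
    _ = 30 / u ^ 2 := by field_simp; norm_num
    _ ≤ 1 / Z := by
        rw [div_le_div_iff₀ (by positivity) hZ0]
        nlinarith

/-- Numerical facts for two consecutive levels. `W = (2 Z) ^ B`, `X = Z ^ (B + 1)`,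
`Y = ((2 Z) ^ (B + 1)) ^ C`, `Kk = exp (4 W)`; take `X₁ = Z ^ n` with `n` large. Every inequality is
of the form `Z ^ c exp (c' Z ^ B) ≤ exp (Z ^ (B + 1))` or `Z ^ c ≤ exp (8 Z)`
(`num_eventually`, `num_pow_le_exp`). -/
theorem lev_num (B C C₁ q : ℕ) (hB : 1 ≤ B) : ∃ Z₀ : ℝ, 2 ≤ Z₀ ∧ ∀ Z : ℝ, Z₀ ≤ Z → ∃ X₁ : ℝ,
    2 ≤ X₁ ∧ (q : ℝ) ≤ X₁ ∧ ((2 * Z) ^ (B + 1)) ^ C ≤ X₁ ∧
    2 * (2 * Z) ^ B * ((2 * Z) ^ (B + 1)) ^ C ≤ X₁ ∧
    Z ≤ exp (4 * (2 * Z) ^ B) ∧ 2 * exp ((2 * Z) ^ B) ^ 3 ≤ exp (4 * (2 * Z) ^ B) ∧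
    1200 * exp (4 * (2 * Z) ^ B) ^ 2 ≤ exp X₁ ∧
    1200 * exp (4 * (2 * Z) ^ B) ^ 2 * (2 * (2 * Z) ^ B * exp (-Z ^ (B + 1))) ≤ 1 ∧
    1200 * exp (4 * (2 * Z) ^ B) ^ 2 * (14 * X₁ ^ 2 * exp (-Z ^ (B + 1))) ≤ 1 ∧
    6 * exp (-Z ^ (B + 1)) * exp (4 * (2 * Z) ^ B) ^ 30 * X₁ ^ C₁ ≤ 1 ∧
    ((2 * (2 * Z) ^ B + 1) * (2 * X₁ ^ C₁ + 1) + 1) *
      (6 * exp (-Z ^ (B + 1)) + 1 / exp (4 * (2 * Z) ^ B) + 21600 * exp (4 * (2 * Z) ^ B) ^ 2 *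
        (exp (-Z ^ (B + 1)) * (2 * (2 * Z) ^ B))) ≤ 1 / Z := by
  obtain ⟨a, ha⟩ := num_const q
  obtain ⟨n, hn⟩ : ∃ n, n = 2 * (B + 1) * (C + 1) + 3 + a := ⟨_, rfl⟩
  obtain ⟨E, hE⟩ := num_eventually (n * (C₁ + 2)) one_pos
  have hb : (2 : ℝ) ≤ 2 ^ B := num_le_pow le_rfl hB
  refine ⟨max E (200 * 2 ^ B), le_max_of_le_right (by linarith), fun Z hZ => ?_⟩
  have h1 := hE Z (le_of_max_le_left hZ)
  have h2 := le_of_max_le_right hZ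
  have hZ2 : 2 ≤ Z := by linarith
  have hW : 2 * Z ≤ (2 * Z) ^ B := num_le_pow (by linarith) hB
  have h3 : (2 * Z) ^ (B + 1) ≤ Z ^ (2 * (B + 1)) := by
    rw [pow_mul]
    exact pow_le_pow_left₀ (by linarith) (by nlinarith) _
  have h4 : 2 * (2 * Z) ^ B ≤ Z ^ (2 * (B + 1)) := by
    refine le_trans ?_ h3
    rw [pow_succ']
    exact mul_le_mul_of_nonneg_right (by linarith) (by positivity)
  have h5 : ((2 * Z) ^ (B + 1)) ^ C ≤ Z ^ (2 * (B + 1) * C) := by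
    rw [pow_mul Z]
    exact pow_le_pow_left₀ (by positivity) h3 _
  have h6 : 2 * (B + 1) * (C + 1) = 2 * (B + 1) + 2 * (B + 1) * C := by ring
  have h7 : 200 * (2 * Z) ^ B ≤ Z ^ (B + 1) := by
    rw [mul_pow, ← mul_assoc, pow_succ']
    exact mul_le_mul_of_nonneg_right h2 (by positivity)
  have h8 : 10 * (2 * Z) ^ B ≤ Z ^ n := by
    have h9 := num_mul hZ2 (num_two_pow hZ2 3) h4 (by positivity)
    have h10 := num_mono hZ2 (show 3 + 2 * (B + 1) ≤ n by omega)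
    norm_num at h9
    linarith
  generalize (2 * Z) ^ B = W at *
  have hu : W + 1 ≤ exp W := add_one_le_exp W
  have hX : ∀ k, k ≤ C₁ + 2 → (Z ^ n) ^ k ≤ exp W := fun k hk => by
    rw [← pow_mul]
    exact (num_mono hZ2 (Nat.mul_le_mul_left n hk)).trans (h1.trans (exp_le_exp.2 (by linarith)))
  have e : exp (4 * W) = exp W ^ 4 := by rw [← exp_nat_mul]; norm_num
  obtain ⟨k1, k2, k3, k4, k5, k6⟩ := levn_abs (u := exp W) (ρ := exp (-Z ^ (B + 1))) (Z := Z)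
    (W := W) (by linarith) (exp_pos _).le (by
      rw [← exp_nat_mul, ← exp_add, exp_le_one_iff]
      push_cast
      linarith) (by linarith) (by linarith) (by linarith) (by linarith) (by positivity)
    (hX C₁ (by omega)) (hX 2 (by omega))
  rw [e]
  refine ⟨Z ^ n, num_two_le hZ2 (by omega), (ha Z hZ2).trans (num_mono hZ2 (by omega)),
    h5.trans (num_mono hZ2 (by omega)),
    (num_mul hZ2 h4 h5 (by positivity)).trans (num_mono hZ2 (by omega)), k1, k2, ?_, k3, k4, k5, k6⟩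
  calc _ ≤ exp W ^ 2 * (exp W ^ 4) ^ 2 :=
        mul_le_mul_of_nonneg_right (by nlinarith) (by positivity)
    _ = exp (10 * W) := by rw [← pow_mul, ← pow_add, ← exp_nat_mul]; norm_num
    _ ≤ _ := exp_le_exp.2 h8

end Pool.Agent.TR
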