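import Pool.Agent.Lib.MP_cc859a_an.TR.Defs3
import Pool.Agent.Lib.MP_cc859a_an.TR.Scale

open Finset Real
open scoped BigOperators ComplexConjugate

namespace Pool.Agent.TR

variable {ι : Type} {K m : ℕ} {l : ℕ → Finset ι} {J : Finset ι → Finset ℕ}

theorem marks_eq (hl : ∀ j j', j ≤ j' → l j' ⊆ l j) {j j' : ℕ} (h : (l j).card = (l j').card) :
    l j = l j' := by
  rcases le_total j j' with h1 | h1
  · exact (eq_of_subset_of_card_le (hl _ _ h1) h.le).symm
  · exact eq_of_subset_of_card_le (hl _ _ h1) h.ge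

open Classical in
theorem marks_one (hl : ∀ j j', j ≤ j' → l j' ⊆ l j) {R : ℝ}
    (hJ : ∀ S : Finset ι, S.card ≤ m → ((J S).card : ℝ) ≤ R) {c : ℕ} (hc : c ≤ m) :
    (((range (K + 1)).filter fun j => (l j).card = c ∧
      (l (j + 1) ≠ l j ∨ j ∈ J (l j) ∨ j + 1 ∈ J (l j))).card : ℝ) ≤ 2 * R + 1 := by
  have hR : 0 ≤ R := le_trans (Nat.cast_nonneg _) (hJ ∅ (by simp))
  set S := (range (K + 1)).filter fun j => (l j).card = c ∧
      (l (j + 1) ≠ l j ∨ j ∈ J (l j) ∨ j + 1 ∈ J (l j)) with hS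
  rcases S.eq_empty_or_nonempty with h0 | ⟨j0, hj0⟩
  · rw [h0]
    simp only [card_empty, Nat.cast_zero]
    linarith
  have e0 : (l j0).card = c := (mem_filter.1 hj0).2.1
  have hT := hJ (l j0) (by omega)
  set A := (range (K + 1)).filter fun j => l j = l j0 ∧ l (j + 1) ≠ l j with hA
  have key : ∀ a ∈ A, ∀ b ∈ A, ¬ a < b := by
    intro a ha b hb hab
    obtain ⟨a1, a2⟩ := (mem_filter.1 ha).2
    obtain ⟨b1, -⟩ := (mem_filter.1 hb).2
    apply a2
    refine Subset.antisymm (hl _ _ (Nat.le_succ _)) ?_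
    rw [a1, ← b1]
    exact hl _ _ hab
  have hA1 : A.card ≤ 1 := by
    refine card_le_one.2 fun a ha b hb => ?_
    have h1 := key a ha b hb
    have h2 := key b hb a ha
    omega
  have hsub : S ⊆ A ∪ (J (l j0) ∪ (J (l j0)).image fun j => j - 1) := by
    intro j hj
    obtain ⟨h1, h2, h3⟩ := mem_filter.1 hj
    have e : l j = l j0 := marks_eq hl (h2.trans e0.symm)
    rcases h3 with h3 | h3 | h3
    · exact mem_union_left _ (mem_filter.2 ⟨h1, e, h3⟩)
    · exact mem_union_right _ (mem_union_left _ (e ▸ h3))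
    · exact mem_union_right _ (mem_union_right _ (mem_image.2 ⟨j + 1, e ▸ h3, by omega⟩))
  have h1 := card_le_card hsub
  have h2 := card_union_le A (J (l j0) ∪ (J (l j0)).image fun j => j - 1)
  have h3 := card_union_le (J (l j0)) ((J (l j0)).image fun j => j - 1)
  have h4 : ((J (l j0)).image fun j => j - 1).card ≤ (J (l j0)).card := card_image_le
  have h5 : S.card ≤ 2 * (J (l j0)).card + 1 := by omega
  have h6 : (S.card : ℝ) ≤ 2 * (J (l j0)).card + 1 := by exact_mod_cast h5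
  linarith

/-- A union of grid intervals is partitioned by them. -/
theorem marks_fib {L : ℕ} (hL : 0 < L) {s : Finset ℤ}
    (hs : ∀ x ∈ s, ∀ y, y / (L : ℤ) = x / L → y ∈ s) (f : ℤ → ℝ) :
    ∑ i ∈ s.image (fun x => x / (L : ℤ)), ∑ x ∈ node L i, f x = ∑ x ∈ s, f x := by
  rw [← sum_fiberwise_of_maps_to (g := fun x => x / (L : ℤ))
    (fun x hx => mem_image_of_mem _ hx) f]
  refine sum_congr rfl fun i hi => sum_congr ?_ fun _ _ => rfl
  obtain ⟨x, hx, rfl⟩ := mem_image.1 hi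
  ext y
  rw [mem_node hL, mem_filter]
  exact ⟨fun h => ⟨hs x hx y h, h⟩, fun h => h.2⟩

open Classical in
theorem marks_w (s : Finset ℤ) (Z₀ : ℤ → Prop) (α β : ℝ) :
    ∑ x ∈ s, (α + β * if Z₀ x then 1 else 0) = α * s.card + β * (s.filter Z₀).card := by
  rw [sum_add_distrib, ← mul_sum, sum_const, nsmul_eq_mul, sum_boole, mul_comm]

open Classical in
/-- Group the scales by the size `c ≤ m` of `l j`; equal sizes give equal sets; for each `c` at most
one `j` has `l (j + 1) ≠ l j`. -/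
theorem card_marked (hl : ∀ j j', j ≤ j' → l j' ⊆ l j) {R : ℝ}
    (hJ : ∀ S : Finset ι, S.card ≤ m → ((J S).card : ℝ) ≤ R) :
    (((range (K + 1)).filter fun j => (l j).card ≤ m ∧ Marked K l J j).card : ℝ) ≤
      (m + 1) * (2 * R + 1) + 1 := by
  have hsub : ((range (K + 1)).filter fun j => (l j).card ≤ m ∧ Marked K l J j) ⊆
      insert K ((range (m + 1)).biUnion fun c => (range (K + 1)).filter fun j => (l j).card = c ∧
        (l (j + 1) ≠ l j ∨ j ∈ J (l j) ∨ j + 1 ∈ J (l j))) := by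
    intro j hj
    obtain ⟨h1, h2, h3⟩ := mem_filter.1 hj
    rcases h3 with h3 | h3
    · exact mem_insert.2 (Or.inl h3)
    · exact mem_insert_of_mem (mem_biUnion.2 ⟨_, mem_range.2 (Nat.lt_succ_of_le h2),
        mem_filter.2 ⟨h1, rfl, h3⟩⟩)
  have h1 := ((card_le_card hsub).trans (card_insert_le _ _)).trans
    (Nat.add_le_add_right card_biUnion_le 1)
  have h2 : ∑ c ∈ range (m + 1), (((range (K + 1)).filter fun j => (l j).card = c ∧
      (l (j + 1) ≠ l j ∨ j ∈ J (l j) ∨ j + 1 ∈ J (l j))).card : ℝ) ≤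
      ∑ _c ∈ range (m + 1), (2 * R + 1) :=
    sum_le_sum fun c hc => marks_one hl hJ (Nat.lt_succ_iff.1 (mem_range.1 hc))
  rw [sum_const, card_range, nsmul_eq_mul] at h2
  have h3 := (Nat.cast_le (α := ℝ)).2 h1
  push_cast at h2 h3
  linarith

/-- The least marked scale above `k`. -/
theorem exists_top {k : ℕ} (hk : k ≤ K) : ∃ b, k ≤ b ∧ b ≤ K ∧ Marked K l J b ∧
    (∀ j, k ≤ j → j < b → ¬ Marked K l J j) ∧ (∀ j, k ≤ j → j ≤ b → l j = l b) ∧
    (k < b → ∀ j ∈ J (l b), j < k ∨ b < j) := by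
  classical
  have hex : ∃ b, k ≤ b ∧ Marked K l J b := ⟨K, hk, Or.inl rfl⟩
  obtain ⟨h1, h2⟩ := Nat.find_spec hex
  have h3 : Nat.find hex ≤ K := Nat.find_min' hex ⟨hk, Or.inl rfl⟩
  have h4 : ∀ j, k ≤ j → j < Nat.find hex → ¬ Marked K l J j := fun j a b c =>
    Nat.find_min hex b ⟨a, c⟩
  generalize Nat.find hex = b at h1 h2 h3 h4
  have h5 : ∀ n j, k ≤ j → j + n ≤ b → l j = l (j + n) := by
    intro n
    induction n with
    | zero => intro j _ _; rfl
    | succ n ih =>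
      intro j a c
      rw [ih j a (by omega)]
      by_contra hne
      exact h4 (j + n) (by omega) (by omega) (Or.inr (Or.inl fun e => hne e.symm))
  have h6 : ∀ j, k ≤ j → j ≤ b → l j = l b := by
    intro j a c
    have := h5 (b - j) j a (by omega)
    rwa [Nat.add_sub_cancel' c] at this
  refine ⟨b, h1, h3, h2, h4, h6, fun hkb j hj => ?_⟩
  by_contra hn
  have a : k ≤ j := by omega
  have c : j ≤ b := by omega
  rcases c.lt_or_eq with c' | c'
  · exact h4 j a c' (Or.inr (Or.inr (Or.inl (by rw [h6 j a c]; exact hj))))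
  · refine h4 (b - 1) (by omega) (by omega) (Or.inr (Or.inr (Or.inr ?_)))
    rw [h6 (b - 1) (by omega) (by omega), Nat.sub_add_cancel (by omega)]
    rwa [c'] at hj

/-- The least `a` such that `[a, b]` avoids `J₀`. -/
theorem exists_bottom (J₀ : Finset ℕ) (b : ℕ) : ∃ a ≤ b, (b ∉ J₀ → ∀ j ∈ J₀, j < a ∨ b < j) ∧
    ∀ k ≤ b, (∀ j ∈ J₀, j < k ∨ b < j) → a ≤ k := by
  classical
  by_cases hb : b ∈ J₀
  · refine ⟨b, le_rfl, fun h => absurd hb h, fun k hk h => ?_⟩
    have := h b hb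
    omega
  · have hw : b ≤ b ∧ ∀ j ∈ J₀, j < b ∨ b < j := by
      refine ⟨le_rfl, fun j hj => ?_⟩
      have : j ≠ b := fun e => hb (e ▸ hj)
      omega
    have hex : ∃ a, a ≤ b ∧ ∀ j ∈ J₀, j < a ∨ b < j := ⟨b, hw⟩
    obtain ⟨h1, h2⟩ := Nat.find_spec hex
    exact ⟨Nat.find hex, h1, fun _ => h2, fun k hk h => Nat.find_min' hex ⟨hk, h⟩⟩

open Classical in
/-- Sum over marked nodes. For fixed `j` the nodes of scale `j` partition the top node
(`LL_dvd`), so `∑` over marked nodes of `α L_j + β |node ∩ Z₀|` is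
`∑ x, [Mk j x] (α + β [x ∈ Z₀])`; then sum over `j` first. -/
theorem sum_marked {q : ℕ} (hq : 1 ≤ q) (Mk : ℕ → ℤ → Prop)
    (hMk : ∀ j x y, x / LL q j = y / LL q j → Mk j x → Mk j y) {n α β : ℝ} (hα : 0 ≤ α)
    (hβ : 0 ≤ β) (hn : ∀ x ∈ node (LL q K) 0,
      (((range (K + 1)).filter fun j => Mk j x).card : ℝ) ≤ n) (Z₀ : ℤ → Prop)
    (Exc : ℕ → ℤ → Finset ℤ) (hE : ∀ j ≤ K, ∀ x ∈ node (LL q K) 0, Mk j x →
      ((Exc j (x / LL q j)).card : ℝ) ≤
        α * LL q j + β * ((node (LL q j) (x / LL q j)).filter Z₀).card)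
    {Z : Finset ℤ} (hZ : Z ⊆ node (LL q K) 0)
    (h : ∀ x ∈ Z, ∃ j ≤ K, Mk j x ∧ x ∈ Exc j (x / LL q j)) :
    (Z.card : ℝ) ≤ n * (α * LL q K + β * ((node (LL q K) 0).filter Z₀).card) := by
  set T := node (LL q K) 0 with hT
  set w : ℤ → ℝ := fun x => α + β * if Z₀ x then 1 else 0 with hw
  have hw0 : ∀ x, 0 ≤ w x := fun x => by
    have : (0 : ℝ) ≤ if Z₀ x then 1 else 0 := by split_ifs <;> norm_num
    exact add_nonneg hα (mul_nonneg hβ this)
  have hsub : Z ⊆ (range (K + 1)).biUnion fun j =>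
      ((T.filter (Mk j)).image fun x => x / (LL q j : ℤ)).biUnion fun i => Exc j i := by
    intro x hx
    obtain ⟨j, hj, h1, h2⟩ := h x hx
    exact mem_biUnion.2 ⟨j, mem_range.2 (Nat.lt_succ_of_le hj), mem_biUnion.2
      ⟨_, mem_image_of_mem _ (mem_filter.2 ⟨hZ hx, h1⟩), h2⟩⟩
  have h1 := ((card_le_card hsub).trans card_biUnion_le).trans
    (sum_le_sum fun j _ => card_biUnion_le)
  have h2 := (Nat.cast_le (α := ℝ)).2 h1
  push_cast at h2
  have h3 : ∀ j ∈ range (K + 1), ∑ i ∈ (T.filter (Mk j)).image (fun x => x / (LL q j : ℤ)),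
      ((Exc j i).card : ℝ) ≤ ∑ x ∈ T, if Mk j x then w x else 0 := by
    intro j hj
    have hj' : j ≤ K := Nat.lt_succ_iff.1 (mem_range.1 hj)
    rw [← sum_filter, ← marks_fib (LL_pos (j := j) hq) (s := T.filter (Mk j)) ?_ w]
    · refine sum_le_sum fun i hi => ?_
      obtain ⟨x, hx, rfl⟩ := mem_image.1 hi
      obtain ⟨a, b⟩ := mem_filter.1 hx
      rw [hw, marks_w, card_node]
      exact hE j hj' x a b
    · intro x hx y hy
      obtain ⟨a, b⟩ := mem_filter.1 hx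
      have a' : y ∈ T := by
        rw [hT, mem_node (LL_pos hq)] at a ⊢
        rw [div_eq_of_div_eq hq hj' hy, a]
      have n0 : ∀ z ∈ T, 0 ≤ z := fun z hz => by
        rw [hT, node, mem_Ico, zero_mul] at hz
        exact hz.1
      refine mem_filter.2 ⟨a', ?_⟩
      lift x to ℕ using n0 x a
      lift y to ℕ using n0 y a'
      exact hMk j x y (by exact_mod_cast hy.symm) b
  have h4 := h2.trans (sum_le_sum h3)
  rw [sum_comm] at h4
  refine h4.trans ?_
  have h5 : α * (LL q K : ℝ) + β * (T.filter Z₀).card = ∑ x ∈ T, w x := by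
    rw [hw, marks_w, hT, card_node]
  rw [h5, mul_sum]
  refine sum_le_sum fun x hx => ?_
  rw [← sum_filter, sum_const, nsmul_eq_mul]
  exact mul_le_mul_of_nonneg_right (hn x hx) (hw0 x)

/-- A subset of a node that is sparse in every smaller node it meets is sparse. -/
theorem card_le_of_nodes {q j b : ℕ} (hq : 1 ≤ q) (hj : j ≤ b) {i : ℤ} {B : Finset ℤ}
    (hB : B ⊆ node (LL q b) i) {ρ : ℝ} (hρ : 0 ≤ ρ)
    (h : ∀ x ∈ B, ((B ∩ node (LL q j) (x / LL q j)).card : ℝ) ≤ ρ * LL q j) :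
    (B.card : ℝ) ≤ ρ * LL q b := by
  have hc : ∀ x ∈ node (LL q b) i, ∀ y, y / (LL q j : ℤ) = x / LL q j → y ∈ node (LL q b) i := by
    intro x hx y hy
    rw [mem_node (LL_pos hq)] at hx ⊢
    rw [div_eq_of_div_eq hq hj hy, hx]
  have h1 := marks_fib (LL_pos (j := j) hq) hc fun _ => ρ
  simp only [sum_const, card_node, nsmul_eq_mul] at h1
  have hsub : B ⊆ ((node (LL q b) i).image fun x => x / (LL q j : ℤ)).biUnion
      fun i' => B ∩ node (LL q j) i' := fun x hx =>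
    mem_biUnion.2 ⟨_, mem_image_of_mem _ (hB hx),
      mem_inter.2 ⟨hx, (mem_node (LL_pos hq)).2 rfl⟩⟩
  have h2 := (Nat.cast_le (α := ℝ)).2 ((card_le_card hsub).trans card_biUnion_le)
  push_cast at h2
  have h3 : ∀ i' ∈ (node (LL q b) i).image fun x => x / (LL q j : ℤ),
      ((B ∩ node (LL q j) i').card : ℝ) ≤ ρ * LL q j := by
    intro i' _
    rcases (B ∩ node (LL q j) i').eq_empty_or_nonempty with e | ⟨x, hx⟩
    · rw [e, card_empty, Nat.cast_zero]
      positivity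
    · obtain ⟨a, c⟩ := mem_inter.1 hx
      rw [← (mem_node (LL_pos hq)).1 c]
      exact h x a
  have h4 := h2.trans (sum_le_sum h3)
  rw [sum_const, nsmul_eq_mul] at h4
  linarith

end Pool.Agent.TR
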