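import Pool.Agent.Lib.MP_cc859a_an.TR.TreeS
import Pool.Agent.Lib.MP_cc859a_an.TR.Marks

open Finset Real
open scoped BigOperators ComplexConjugate

namespace Pool.Agent.TR

theorem treeb_mono {f : ℕ → ℕ} {N : ℕ} (hm : ∀ i < N, f i ≤ f (i + 1)) {a b : ℕ} (h : a ≤ b)
    (hb : b ≤ N) : f a ≤ f b := by
  induction b, h using Nat.le_induction with
  | base => exact le_rfl
  | succ b _ ih => exact (ih (Nat.le_of_succ_le hb)).trans (hm b hb)

/-- If a monotone map `top` on `0, ..., N` takes at most `c` values and `c n < N + 1`, then it is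
constant on `n + 1` consecutive indices. -/
theorem treeb_block (top : ℕ → ℕ) (N n : ℕ) (hm : ∀ i < N, top i ≤ top (i + 1)) (V : Finset ℕ)
    (hV : ∀ i ≤ N, top i ∈ V) (h : V.card * n < N + 1) :
    ∃ i₀, i₀ + n ≤ N ∧ ∀ i ≤ n, top (i₀ + i) = top i₀ := by
  have h1 : ∀ k ∈ range (V.card + 1), k * n ≤ N := fun k hk =>
    (Nat.mul_le_mul_right n (Nat.le_of_lt_succ (mem_range.1 hk))).trans (Nat.le_of_lt_succ h)
  have key : ∀ x y, y * n ≤ N → x < y → top (x * n) = top (y * n) →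
      ∃ i₀, i₀ + n ≤ N ∧ ∀ i ≤ n, top (i₀ + i) = top i₀ := fun x y hy hxy e => by
    have h2 : x * n + n ≤ y * n := (Nat.succ_mul x n).symm.trans_le (Nat.mul_le_mul_right n hxy)
    exact ⟨x * n, h2.trans hy, fun i hi => le_antisymm
      ((treeb_mono hm (by omega) hy).trans_eq e.symm) (treeb_mono hm (by omega) (by omega))⟩
  obtain ⟨x, hx, y, hy, h2, e⟩ := exists_ne_map_eq_of_card_lt_of_maps_to
    (s := range (V.card + 1)) (t := V) (by simp) (f := fun k => top (k * n))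
    fun k hk => hV _ (h1 k hk)
  rcases h2.lt_or_gt with h3 | h3
  · exact key x y (h1 y hy) h3 e
  · exact key y x (h1 x hx) h3 e.symm

open Classical in
/-- Many jumps along a chain of lists give many jumps below one marked scale. -/
theorem treeb_jump {ι : Type} {K m n N : ℕ} {l : ℕ → Finset ι} {J : Finset ι → Finset ℕ} {R h : ℝ}
    (hl : ∀ j j', j ≤ j' → l j' ⊆ l j) (hJ : ∀ S : Finset ι, S.card ≤ m → ((J S).card : ℝ) ≤ R)
    (h0 : (l 0).card ≤ m) (hn1 : 1 ≤ n) (hN : ((m + 1) * (2 * R + 1) + 1) * n ≤ N)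
    {Δ : Finset ι → ℕ → ℂ} (hj : JumpsIn (fun j => Δ (l j) j) 0 K N h) :
    ∃ b ≤ K, ((l b).card ≤ m ∧ Marked K l J b) ∧ ∃ k < b, (∀ j ∈ J (l b), j < k ∨ b < j) ∧
      JumpsIn (Δ (l b)) k b n h := by
  obtain ⟨j, -, h1, h2⟩ := hj
  have h3 : ∀ i ≤ N, j i ≤ K := fun i hi => (treeb_mono (fun i hi => (h2 i hi).1.le) hi le_rfl).trans h1
  choose! top t1 t2 t3 t4 t5 t6 using fun (k : ℕ) (hk : k ≤ K) => exists_top (l := l) (J := J) hk
  have h4 : ∀ b, (l b).card ≤ m := fun b => (card_le_card (hl 0 b b.zero_le)).trans h0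
  obtain ⟨i₀, h5, h6⟩ := treeb_block (fun i => top (j i)) N n
    (fun i hi => not_lt.1 fun h => t4 _ (h3 i hi.le) _ ((h2 i hi).1.le.trans (t1 _ (h3 _ hi))) h
      (t3 _ (h3 _ hi)))
    ((range (K + 1)).filter fun j => (l j).card ≤ m ∧ Marked K l J j)
    (fun i hi => mem_filter.2 ⟨mem_range.2 (Nat.lt_succ_of_le (t2 _ (h3 i hi))), h4 _,
      t3 _ (h3 i hi)⟩)
    (Nat.lt_succ_of_le (by
      exact_mod_cast (mul_le_mul_of_nonneg_right (card_marked hl hJ) n.cast_nonneg).trans hN))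
  have h7 : ∀ i ≤ n, j (i₀ + i) ≤ K := fun i hi => h3 _ (by omega)
  have h8 : ∀ i ≤ n, j (i₀ + i) ≤ top (j i₀) := fun i hi => (t1 _ (h7 i hi)).trans_eq (h6 i hi)
  have h9 : ∀ i ≤ n, l (j (i₀ + i)) = l (top (j i₀)) := fun i hi =>
    (t5 _ (h7 i hi) _ le_rfl (t1 _ (h7 i hi))).trans (congrArg l (h6 i hi))
  have hk : j i₀ ≤ K := h7 0 n.zero_le
  have hb : j i₀ < top (j i₀) := (h2 i₀ (by omega)).1.trans_le (h8 1 hn1)
  refine ⟨_, t2 _ hk, ⟨h4 _, t3 _ hk⟩, _, hb, t6 _ hk hb, fun i => j (i₀ + i), le_rfl, h8 n le_rfl,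
    fun i hi => ?_⟩
  have e := h2 (i₀ + i) (by omega)
  beta_reduce at e ⊢
  rwa [h9 i hi.le, add_assoc, h9 _ hi] at e

open Classical in
/-- Remove the points without `NZ` (`card_not_NZ`). For the others apply `treeb_block` to the
least marked scale above `j i` (`exists_top`); a block with top `b` gives `n` jumps of
`Δ (Lst b x) · x` between `a` (`exists_bottom`) and `b`. `sum_marked` with `β = 0` and
`Exc` the set of `JumpP` (empty if `b ∈ J S`). -/
theorem treeB {ι : Type} [Fintype ι] {q K m n N : ℕ} {p : ι → Pc} {R Kk h : ℝ}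
    {Δ : Finset ι → ℕ → ℤ → ℂ} {J : Finset ι → Finset ℕ} (hq : 1 ≤ q) (hK : 2 ≤ Kk)
    (hJ : GoodJ q K p m R Kk Δ J) (hh : 1 / Kk ≤ h) (hn1 : 1 ≤ n) (hn : Kk ^ 2 * R ≤ n)
    (hN : ((m + 1) * (2 * R + 1) + 1) * n ≤ N) :
    (((node (LL q K) 0).filter fun x => (Lst q p 0 x).card ≤ m ∧
      JumpsIn (fun j => Δ (Lst q p j x) j x) 0 K N h).card : ℝ) ≤
      ((m + 1) * (2 * R + 1) + 1) * (LL q K / Kk) + 7200 * Kk ^ 2 * (allBad p).card := by
  have h0 : 0 < Kk := two_pos.trans_le hK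
  choose bot b1 b2 b3 using exists_bottom
  refine le_trans ?_ (add_le_add ((sum_marked (K := K) (α := 1 / Kk) (β := 0) hq
    (fun b (x : ℤ) => (Lst q p b x).card ≤ m ∧ Marked K (fun j => Lst q p j x) J b)
    (fun j x y e h => ?_) (by positivity) le_rfl
    (fun x _ => le_trans (Nat.cast_le.2 (card_le_card fun j hj => by
      simpa only [mem_filter] using hj))
      (card_marked (l := fun j => Lst q p j x) (fun _ _ => Lst_anti) fun S hS => (hJ S hS).1))
    (fun _ => True)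
    (fun b i => (node (LL q b) i).filter fun x => b ∉ J (Lst q p b x) ∧
      NZ (allBad p) (1 / (1200 * Kk ^ 2)) x ∧
      JumpsIn (fun j => Δ (Lst q p b x) j x) (bot (J (Lst q p b x)) b) b n h)
    (fun b hb x _ hM => ?_)
    (Z := ((node (LL q K) 0).filter fun x => (Lst q p 0 x).card ≤ m ∧
      JumpsIn (fun j => Δ (Lst q p j x) j x) 0 K N h).filter
        (NZ (allBad p) (1 / (1200 * Kk ^ 2))))
    ((filter_subset _ _).trans (filter_subset _ _)) fun x hx => ?_).trans_eq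
      (by rw [zero_mul, add_zero, one_div_mul_eq_div])) (card_not_NZ (allBad p)
        ((node (LL q K) 0).filter fun x => (Lst q p 0 x).card ≤ m ∧
          JumpsIn (fun j => Δ (Lst q p j x) j x) 0 K N h) h0))
  · rw [← Nat.cast_add, card_filter_add_card_filter_not]
  · have e0 : (x : ℤ) / LL q j = (y : ℤ) / LL q j := by exact_mod_cast e
    have e1 : Lst q p j x = Lst q p j y := Lst_congr hq e0
    have e2 : Lst q p (j + 1) x = Lst q p (j + 1) y :=
      Lst_congr hq (div_eq_of_div_eq hq j.le_succ e0)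
    simp only [Marked] at h ⊢
    rwa [← e1, ← e2]
  · have e : ∀ y ∈ node (LL q b) (x / LL q b), Lst q p b y = Lst q p b x := fun y hy =>
      Lst_congr hq ((mem_node (LL_pos hq)).1 hy)
    rw [zero_mul, add_zero, one_div_mul_eq_div]
    by_cases hb' : b ∈ J (Lst q p b x)
    · rw [filter_false_of_mem fun y hy h => h.1 (e y hy ▸ hb'), card_empty, Nat.cast_zero]
      positivity
    · refine ((hJ _ hM.1).2 _ b (b1 _ b) hb (fun r hr => (mem_Lst.1 hr).1) (b2 _ b hb') h hh).2 n hn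
        _ _ (filter_subset _ _) fun y hy => ?_
      obtain ⟨h1, -, h2⟩ := mem_filter.1 hy
      rwa [e y h1] at h2
  · obtain ⟨h1, h2⟩ := mem_filter.1 hx
    obtain ⟨-, h3, h4⟩ := mem_filter.1 h1
    obtain ⟨b, hb, hM, k, hk, h5, j, h6, h7⟩ := treeb_jump (l := fun j => Lst q p j x)
      (fun _ _ => Lst_anti) (fun S hS => (hJ S hS).1) h3 hn1 hN (Δ := fun S j => Δ S j x) h4
    exact ⟨b, hb, hM, mem_filter.2 ⟨(mem_node (LL_pos hq)).2 rfl,
      fun h => (h5 b h).elim (fun h => hk.not_gt h) (lt_irrefl b), h2, j,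
      (b3 _ b k hk.le h5).trans h6, h7⟩⟩

end Pool.Agent.TR
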