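import Pool.Agent.Lib.MP_cc859a_an.TR.TreeA
import Pool.Agent.Lib.MP_cc859a_an.TR.TreeB
import Pool.Agent.Lib.MP_cc859a_an.TR.LevN

open Finset Real
open scoped BigOperators ComplexConjugate

namespace Pool.Agent.TR

open Classical in
/-- `treeB` with `Δ A j x = Av (S.G A) x`, `h = 1 / Z`, `Kk = exp (4 (2 Z) ^ B)`,
`n = ⌈Kk ^ 2 X₁ ^ C₁⌉ + 1`, `N = ⌈((Z ^ B + 1) (2 X₁ ^ C₁ + 1) + 1) n⌉`; `lev_num`. -/
theorem base (B C q : ℕ) (hB : 1 ≤ B) (hq : 1 ≤ q) : ∃ Z₀ : ℝ, 2 ≤ Z₀ ∧ ∀ Z : ℝ, Z₀ ≤ Z →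
    ∃ N : ℕ, ∀ (K : ℕ) (f : Fin 3 → ℤ → ℝ)
      (S : Sys q K f Z (Z ^ (B + 1)) ((Z ^ (B + 1)) ^ C) (Z ^ B)),
      (((node (LL q K) 0).filter fun x => (Lst q S.p 0 x).card ≤ S.m ∧
        JumpsIn (fun j => S.av j x) 0 K N (1 / Z)).card : ℝ) ≤ LL q K / Z := by
  obtain ⟨C₁, hT⟩ := tree_setup
  obtain ⟨Z₀, hZ₀, hL⟩ := lev_num B C C₁ q hB
  refine ⟨Z₀, hZ₀, fun Z hZ => ?_⟩
  obtain ⟨X₁, h1, h2, h3, h4, h5, h6, h7, h8, h9, -, h11⟩ := hL Z hZ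
  have hZ2 : 2 ≤ Z := hZ₀.trans hZ
  have hZ0 : 0 < Z := by linarith
  have hW : Z ^ B ≤ (2 * Z) ^ B := pow_le_pow_left₀ hZ0.le (by linarith) B
  have hY : (Z ^ (B + 1)) ^ C ≤ ((2 * Z) ^ (B + 1)) ^ C :=
    pow_le_pow_left₀ (by positivity) (pow_le_pow_left₀ hZ0.le (by linarith) _) C
  have hE : exp (Z ^ B) ^ 3 ≤ exp ((2 * Z) ^ B) ^ 3 :=
    pow_le_pow_left₀ (exp_pos _).le (exp_le_exp.2 hW) 3
  have hE0 : 0 ≤ exp ((2 * Z) ^ B) ^ 3 := by positivity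
  have hW0 : 0 ≤ Z ^ B := by positivity
  have hY0 : 0 ≤ (Z ^ (B + 1)) ^ C := by positivity
  have hR0 : 0 ≤ X₁ ^ C₁ := by positivity
  have he0 : 0 < exp (-Z ^ (B + 1)) := exp_pos _
  generalize exp (4 * (2 * Z) ^ B) = Kk at *
  generalize exp ((2 * Z) ^ B) ^ 3 = E at *
  generalize ((2 * Z) ^ (B + 1)) ^ C = Y' at *
  generalize (2 * Z) ^ B = W at *
  have hK : 2 ≤ Kk := hZ2.trans h5
  have hK0 : 0 < Kk := by linarith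
  have hW2 : Z ^ B ≤ 2 * W := by linarith
  have hmul : ∀ a : ℝ, a ≤ Z ^ B → a * (Z ^ (B + 1)) ^ C ≤ X₁ := fun a ha =>
    (mul_le_mul (ha.trans hW2) hY hY0 (by linarith)).trans h4
  refine ⟨⌈((Z ^ B + 1) * (2 * X₁ ^ C₁ + 1) + 1) * ((⌈Kk ^ 2 * X₁ ^ C₁⌉₊ + 1 : ℕ) : ℝ)⌉₊,
    fun K f S => ?_⟩
  obtain ⟨J, hJ⟩ := hT X₁ h1 S.ι q K S.m S.d S.p _ _ Kk (fun A j x => Av (NN q j) (S.G A) x) hq h2
    hY0 S.ok (hY.trans h3) (hmul _ S.m_le) (hmul _ S.d_le) hK h7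
    (le_trans (mul_le_mul_of_nonneg_left
      (mul_le_mul_of_nonneg_right (S.d_le.trans hW2) he0.le) (by positivity)) h8) h9
    fun A hA D k η hη hr => (isTri_of_sum (S.isSum A hA D k η hη hr) q).mono le_rfl le_rfl
      (by linarith)
  have hm := S.m_le
  have hM : ((S.m : ℝ) + 1) * (2 * X₁ ^ C₁ + 1) + 1 ≤ (Z ^ B + 1) * (2 * X₁ ^ C₁ + 1) + 1 := by
    gcongr
  have hM' : ((S.m : ℝ) + 1) * (2 * X₁ ^ C₁ + 1) + 1 ≤ (2 * W + 1) * (2 * X₁ ^ C₁ + 1) + 1 := by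
    have := hm.trans hW2
    gcongr
  have hM1 : (1 : ℝ) ≤ (2 * W + 1) * (2 * X₁ ^ C₁ + 1) + 1 := by
    have : 0 ≤ (2 * W + 1) * (2 * X₁ ^ C₁ + 1) := mul_nonneg (by linarith) (by linarith)
    linarith
  have key := treeB (n := ⌈Kk ^ 2 * X₁ ^ C₁⌉₊ + 1)
    (N := ⌈((Z ^ B + 1) * (2 * X₁ ^ C₁ + 1) + 1) * ((⌈Kk ^ 2 * X₁ ^ C₁⌉₊ + 1 : ℕ) : ℝ)⌉₊)
    (h := 1 / Z) hq hK hJ (one_div_le_one_div_of_le hZ0 h5) (Nat.le_add_left _ _)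
    ((Nat.le_ceil _).trans (Nat.cast_le.2 (Nat.le_succ _)))
    ((mul_le_mul_of_nonneg_right hM (Nat.cast_nonneg _)).trans (Nat.le_ceil _))
  refine le_trans key ?_
  have hL0 : (0 : ℝ) ≤ LL q K := Nat.cast_nonneg _
  have hS0 : (0 : ℝ) ≤ ∑ r, (LL q (S.p r).j : ℝ) := sum_nonneg fun _ _ => Nat.cast_nonneg _
  have hS : ∑ r, (LL q (S.p r).j : ℝ) ≤ 2 * W * LL q K := by
    have a1 := S.sum_le
    have a2 := mul_le_mul_of_nonneg_right (hm.trans hW2) hL0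
    nlinarith
  have hb : ((allBad S.p).card : ℝ) ≤ exp (-Z ^ (B + 1)) * (2 * W * LL q K) :=
    (card_allBad_le S.ok).trans (mul_le_mul_of_nonneg_left hS he0.le)
  generalize exp (-Z ^ (B + 1)) = e₀ at *
  generalize (2 * W + 1) * (2 * X₁ ^ C₁ + 1) + 1 = M at *
  have hW1 : 0 ≤ W := by linarith
  have b1 : (((S.m : ℝ) + 1) * (2 * X₁ ^ C₁ + 1) + 1) * (LL q K / Kk) ≤ M * (LL q K / Kk) :=
    mul_le_mul_of_nonneg_right hM' (by positivity)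
  have b2 : 7200 * Kk ^ 2 * ((allBad S.p).card : ℝ) ≤
      M * (21600 * Kk ^ 2 * (e₀ * (2 * W))) * LL q K := by
    have c0 : 0 ≤ Kk ^ 2 * (e₀ * (2 * W * LL q K)) := by positivity
    have c1 := mul_le_mul_of_nonneg_left hb (show 0 ≤ 7200 * Kk ^ 2 by positivity)
    have c2 := mul_le_mul_of_nonneg_right hM1 c0
    linarith
  have b3 := mul_le_mul_of_nonneg_right h11 hL0
  have b4 : 0 ≤ M * (6 * e₀) * LL q K := by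
    have : 0 ≤ M := by linarith
    positivity
  have b5 : M * (6 * e₀ + 1 / Kk + 21600 * Kk ^ 2 * (e₀ * (2 * W))) * LL q K =
      M * (6 * e₀) * LL q K + M * (LL q K / Kk) +
        M * (21600 * Kk ^ 2 * (e₀ * (2 * W))) * LL q K := by ring
  have b6 : 1 / Z * (LL q K : ℝ) = LL q K / Z := by ring
  linarith

end Pool.Agent.TR
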