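import Pool.Agent.Lib.MP_cc859a_an.TR.Defs2

open Finset Real
open scoped BigOperators ComplexConjugate

namespace Pool.Agent.TR

/-- A piece: slot, scale, position, data, degree and atom. -/
structure Pc where
  σ : Fin 3
  j : ℕ
  i : ℤ
  D : Data
  k : ℕ
  a : Atom

/-- Precision `exp (-X)`, complexity `Y`. -/
structure PcOK (q K : ℕ) (X Y : ℝ) (p : Pc) : Prop where
  j_le : p.j ≤ K
  ok : p.D.OK
  Θ_le : (p.D.Θ.card : ℝ) ≤ Y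
  F_le : (p.D.F.card : ℝ) ≤ Y
  k_le : (p.k : ℝ) ≤ Y
  δ_ge : exp (-Y) ≤ p.D.δ
  N_ge : exp (-Y) * NN q p.j ≤ p.D.N
  ε_le : p.D.ε ≤ exp (-X)
  bad_le : (p.D.Bad.card : ℝ) ≤ exp (-X) * LL q p.j
  atom : IsAtom p.D p.k (exp (-X)) p.a
  supp : ∀ y ∉ star (LL q p.j) p.i, p.a.γ y = 0

/-- The pieces of scale at least `j` that lie near `x`. -/
def Lst {ι : Type} [Fintype ι] (q : ℕ) (p : ι → Pc) (j : ℕ) (x : ℤ) : Finset ι :=
  univ.filter fun r => j ≤ (p r).j ∧ |(p r).i - x / LL q (p r).j| ≤ 6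

/-- All exceptional points. -/
def allBad {ι : Type} [Fintype ι] (p : ι → Pc) : Finset ℤ := univ.biUnion fun r => (p r).D.Bad

/-- The sum of the pieces of `S` in the slot `σ`. -/
noncomputable def sfun {ι : Type} (c : ℝ) (p : ι → Pc) (S : Finset ι) (σ : Fin 3) (y : ℤ) : ℝ :=
  c * ∑ r ∈ S.filter fun r => (p r).σ = σ, ((p r).a.γ y).re

/-- Projection on `[-1, 1]`. -/
def clip (s : ℝ) : ℝ := max (-1) (min 1 s)

/-- A primitive of `clip`. -/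
noncomputable def hub (s : ℝ) : ℝ := if |s| ≤ 1 then s ^ 2 / 2 else |s| - 1 / 2

/-- The potential. -/
noncomputable def Pot (L : ℕ) (f s : Fin 3 → ℤ → ℝ) : ℝ :=
  ∑ σ, ∑ y ∈ star L 0, (hub (s σ y) - f σ y * s σ y)

/-- Bernstein's polynomial of `clip` on `[-m, m]`. -/
noncomputable def bern (m d : ℕ) (s : ℝ) : ℝ :=
  ∑ i ∈ range (d + 1), (d.choose i : ℝ) * (1 / 2 + s / (2 * m)) ^ i *
    (1 / 2 - s / (2 * m)) ^ (d - i) * clip (m * (2 * i / d - 1))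

/-- Real functions as complex functions. -/
def cx (f : Fin 3 → ℤ → ℝ) (σ : Fin 3) (y : ℤ) : ℂ := f σ y

open Classical in
/-- An approximation system: height `1 / Z`, density `exp (-X)`, complexity `Y`, size `W`. -/
structure Sys (q K : ℕ) (f : Fin 3 → ℤ → ℝ) (Z X Y W : ℝ) where
  ι : Type
  [fin : Fintype ι]
  p : ι → Pc
  m : ℕ
  d : ℕ
  G : Finset ι → Fin 3 → ℤ → ℂ
  ok : ∀ r, PcOK q K X Y (p r)
  sum_le : 13 * Z * ∑ r, (LL q (p r).j : ℝ) ≤ m * LL q K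
  m_pos : 1 ≤ m
  m_le : (m : ℝ) ≤ W
  d_le : (d : ℝ) ≤ W
  approx : ∀ j ≤ K, ∀ x₀ ∈ node (LL q K) 0, (Lst q p j x₀).card ≤ m →
    (((node (LL q j) (x₀ / LL q j)).filter fun x =>
      6 / Z < ‖Av (NN q j) (cx f) x - Av (NN q j) (G (Lst q p j x₀)) x‖).card : ℝ) ≤
      3 * exp (-X) * LL q j
  isSum : ∀ S : Finset ι, S.card ≤ m → ∀ (D : Data) (k : ℕ) (η : ℝ), 0 ≤ η →
    (∀ r ∈ S, IsAtom D k η (p r).a) → ∀ σ, IsSum D (d * k) (d * η) (exp W) (G S σ)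

attribute [instance] Sys.fin

/-- The structured average at scale `j`. -/
noncomputable def Sys.av {q K : ℕ} {f : Fin 3 → ℤ → ℝ} {Z X Y W : ℝ} (S : Sys q K f Z X Y W)
    (j : ℕ) (x : ℤ) : ℂ := Av (NN q j) (S.G (Lst q S.p j x)) x

/-- Marked scales along a chain of lists. -/
def Marked {ι : Type} (K : ℕ) (l : ℕ → Finset ι) (J : Finset ι → Finset ℕ) (j : ℕ) : Prop :=
  j = K ∨ l (j + 1) ≠ l j ∨ j ∈ J (l j) ∨ j + 1 ∈ J (l j)

/-- The conclusion of `ranges` for every small list. -/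
def GoodJ {ι : Type} [Fintype ι] (q K : ℕ) (p : ι → Pc) (m : ℕ) (R Kk : ℝ)
    (Δ : Finset ι → ℕ → ℤ → ℂ) (J : Finset ι → Finset ℕ) : Prop :=
  ∀ S : Finset ι, S.card ≤ m → ((J S).card : ℝ) ≤ R ∧ ∀ a b : ℕ, a ≤ b → b ≤ K →
    (∀ r ∈ S, b ≤ (p r).j) → (∀ j ∈ J S, j < a ∨ b < j) → ∀ h : ℝ, 1 / Kk ≤ h →
      (∀ ρ : ℝ, ρ * Kk ^ 30 * R ≤ 1 → RangeP (allBad p) q a b Kk h ρ (Δ S)) ∧
      ∀ n : ℕ, Kk ^ 2 * R ≤ n → JumpP (allBad p) q a b n Kk h (Δ S)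

end Pool.Agent.TR
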