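import Pool.Agent.Lib.MP_cc859a_an.TR.AtomL
import Pool.Agent.Lib.MP_cc859a_an.TR.Defs3

open Finset Real
open scoped BigOperators ComplexConjugate

namespace Pool.Agent.TR

theorem abs_clip_le (s : ℝ) : |clip s| ≤ 1 :=
  abs_le.2 ⟨le_max_left _ _, max_le (by norm_num) (min_le_left _ _)⟩

theorem clip_lip (s t : ℝ) : |clip s - clip t| ≤ |s - t| := by
  unfold clip
  refine (abs_max_sub_max_le_max _ _ _ _).trans (max_le (by simp) ?_)
  exact (abs_min_sub_min_le_max _ _ _ _).trans (max_le (by simp) le_rfl)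

theorem bern_one (x : ℝ) (d : ℕ) :
    ∑ i ∈ range (d + 1), (d.choose i : ℝ) * x ^ i * (1 - x) ^ (d - i) = 1 := by
  have h := add_pow x (1 - x) d
  rw [add_sub_cancel, one_pow] at h
  exact (sum_congr rfl fun i _ => by ring).trans h.symm

theorem bern_var (x : ℝ) (d : ℕ) :
    ∑ i ∈ range (d + 1), (d * x - i) ^ 2 * ((d.choose i : ℝ) * x ^ i * (1 - x) ^ (d - i)) =
      d * x * (1 - x) := by
  have h := congrArg (Polynomial.eval x) (bernsteinPolynomial.variance ℝ d)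
  simpa [Polynomial.eval_finsetSum, bernsteinPolynomial] using h

theorem bern_eq (m d : ℕ) (s : ℝ) : bern m d s = ∑ i ∈ range (d + 1),
    (d.choose i : ℝ) * (1 / 2 + s / (2 * m)) ^ i * (1 - (1 / 2 + s / (2 * m))) ^ (d - i) *
      clip (m * (2 * i / d - 1)) := by
  rw [bern, show 1 - (1 / 2 + s / (2 * m)) = 1 / 2 - s / (2 * m) by ring]

theorem bern_x {m : ℕ} (hm : 1 ≤ m) {s : ℝ} (hs : |s| ≤ m) :
    0 ≤ 1 / 2 + s / (2 * m) ∧ 0 ≤ 1 - (1 / 2 + s / (2 * m)) := by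
  have h0 : (0 : ℝ) < m := by exact_mod_cast hm
  obtain ⟨h1, h2⟩ := abs_le.1 hs
  have h3 : s / (2 * m) ≤ 1 / 2 := by
    rw [div_le_iff₀ (by positivity)]
    linarith
  have h4 : -(1 / 2) ≤ s / (2 * m) := by
    rw [le_div_iff₀ (by positivity)]
    linarith
  constructor <;> linarith

/-- The weights are nonnegative with sum one (`add_pow`). -/
theorem abs_bern_le {m d : ℕ} (hm : 1 ≤ m) {s : ℝ} (hs : |s| ≤ m) : |bern m d s| ≤ 1 := by
  obtain ⟨h1, h2⟩ := bern_x hm hs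
  rw [bern_eq]
  refine (abs_sum_le_sum_abs _ _).trans
    ((sum_le_sum fun i _ => ?_).trans (bern_one (1 / 2 + s / (2 * m)) d).le)
  rw [abs_mul, abs_of_nonneg (by positivity)]
  exact mul_le_of_le_one_right (by positivity) (abs_clip_le _)

/-- With `x = 1/2 + s/(2m)`: `|m (2 i/d - 1) - s| = 2 m |i/d - x|`, and the weighted mean of
`(i/d - x) ^ 2` is `x (1 - x) / d ≤ 1 / (4 d)` (`bernstein.variance`, or
`bernsteinPolynomial.variance`); Cauchy-Schwarz. -/
theorem bern_approx {m d : ℕ} (hm : 1 ≤ m) (hd : 1 ≤ d) {s : ℝ} (hs : |s| ≤ m) :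
    |bern m d s - clip s| ≤ m / √d := by
  obtain ⟨h1, h2⟩ := bern_x hm hs
  have hm0 : (0 : ℝ) < m := by exact_mod_cast hm
  have hd0 : (0 : ℝ) < d := by exact_mod_cast hd
  have ha : 0 < √(d : ℝ) := sqrt_pos.2 hd0
  have ha2 : √(d : ℝ) ^ 2 = d := sq_sqrt hd0.le
  rw [bern_eq]
  have e : ∀ i : ℕ, (m : ℝ) * (2 * i / d - 1) - s =
      -(2 * m / d) * (d * (1 / 2 + s / (2 * m)) - i) := fun i => by
    field_simp
    ring
  generalize 1 / 2 + s / (2 * (m : ℝ)) = x at *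
  have e1 := bern_one x d
  have e2 := bern_var x d
  have e3 : clip s = ∑ i ∈ range (d + 1),
      (d.choose i : ℝ) * x ^ i * (1 - x) ^ (d - i) * clip s := by
    rw [← sum_mul, e1, one_mul]
  rw [e3, ← sum_sub_distrib]
  refine (abs_sum_le_sum_abs _ _).trans ?_
  have k : ∀ i ∈ range (d + 1),
      |(d.choose i : ℝ) * x ^ i * (1 - x) ^ (d - i) * clip (m * (2 * i / d - 1)) -
        (d.choose i : ℝ) * x ^ i * (1 - x) ^ (d - i) * clip s| ≤
      2 * m / d / √d * ((d * x - i) ^ 2 * ((d.choose i : ℝ) * x ^ i * (1 - x) ^ (d - i)) +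
        d / 4 * ((d.choose i : ℝ) * x ^ i * (1 - x) ^ (d - i))) := fun i _ => by
    have hw : 0 ≤ (d.choose i : ℝ) * x ^ i * (1 - x) ^ (d - i) := by positivity
    rw [← mul_sub, abs_mul, abs_of_nonneg hw, ← add_mul, ← mul_assoc, mul_comm]
    refine mul_le_mul_of_nonneg_right ((clip_lip _ _).trans ?_) hw
    rw [e, abs_mul, abs_neg, abs_of_nonneg (show (0 : ℝ) ≤ 2 * m / d by positivity),
      div_mul_eq_mul_div _ (√d), mul_div_assoc (2 * m / d : ℝ)]
    refine mul_le_mul_of_nonneg_left ?_ (by positivity)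
    rw [le_div_iff₀ ha, ← sq_abs (d * x - i)]
    nlinarith [sq_nonneg (|d * x - i| - √d / 2)]
  refine (sum_le_sum k).trans ?_
  rw [← mul_sum, sum_add_distrib, ← mul_sum, e1, e2, div_mul_eq_mul_div _ (√d)]
  refine div_le_div_of_nonneg_right ?_ ha.le
  rw [div_mul_eq_mul_div, div_le_iff₀ hd0]
  nlinarith [mul_nonneg (mul_pos hm0 hd0).le (sq_nonneg (x - 1 / 2))]

theorem abs_sfun_le {ι : Type} {c : ℝ} (hc : 0 ≤ c) (hc1 : c ≤ 1) {p : ι → Pc} {S : Finset ι}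
    (h : ∀ r ∈ S, ∀ y, ‖(p r).a.γ y‖ ≤ 1) (σ : Fin 3) (y : ℤ) : |sfun c p S σ y| ≤ S.card := by
  rw [sfun, abs_mul, abs_of_nonneg hc]
  refine (mul_le_of_le_one_left (abs_nonneg _) hc1).trans ((abs_sum_le_sum_abs _ _).trans ?_)
  refine (sum_le_card_nsmul _ _ 1 fun r hr =>
    (Complex.abs_re_le_norm _).trans (h r (mem_filter.1 hr).1 y)).trans ?_
  rw [nsmul_eq_mul, mul_one]
  exact_mod_cast card_filter_le _ _

theorem bern_lin {ι : Type} {c : ℝ} (hc : 0 ≤ c) (hc1 : c ≤ 1) {p : ι → Pc} {S : Finset ι}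
    {m : ℕ} (hm : 1 ≤ m) (hS : S.card ≤ m) {D : Data} {k : ℕ} {η : ℝ} (hη : 0 ≤ η)
    (h : ∀ r ∈ S, IsAtom D k η (p r).a) (σ : Fin 3) {ε : ℝ} (hε : |ε| ≤ 1) :
    IsSum D k η (2 * m + 1) fun y => ((1 / 2 + ε * (sfun c p S σ y / (2 * m)) : ℝ) : ℂ) := by
  have hm0 : (1 : ℝ) ≤ m := by exact_mod_cast hm
  have hn : ‖((ε * c / (4 * m) : ℝ) : ℂ)‖ ≤ 1 := by
    rw [Complex.norm_real, Real.norm_eq_abs, abs_div, abs_mul, abs_of_nonneg hc,
      abs_of_nonneg (show (0 : ℝ) ≤ 4 * m by positivity), div_le_one (by positivity)]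
    nlinarith [abs_nonneg ε]
  have h0 := (isAtom_const (D := D) (k := k) (c := 1 / 2) (by norm_num) hη).isSum
  have h1 := isSum_sum (S.filter fun r => (p r).σ = σ) fun r hr =>
    ((h r (mem_filter.1 hr).1).smul hn).isSum.add ((h r (mem_filter.1 hr).1).cj.smul hn).isSum
  have h2 := (h0.add h1).mono le_rfl le_rfl (P' := 2 * m + 1) (by
    rw [sum_const, nsmul_eq_mul]
    have : ((S.filter fun r => (p r).σ = σ).card : ℝ) ≤ m := by
      exact_mod_cast (card_filter_le _ _).trans hS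
    linarith)
  refine (congrArg _ (funext fun y => ?_)).mp h2
  simp only [sfun]
  push_cast
  rw [mul_sum, sum_div, mul_sum]
  refine congrArg _ (sum_congr rfl fun r _ => ?_)
  rw [Complex.re_eq_add_conj]
  ring

/-- `1/2 ± s/(2m)` is the constant `1/2` plus the atoms `± c/(4m) γ` and `± c/(4m) conj γ`: at most
`2 m + 1` atoms; `IsSum.pow`, `IsSum.mul`, `IsSum.smul`, `IsSum.nsmul`, `isSum_sum`,
`Nat.sum_range_choose`. -/
theorem bern_isSum {ι : Type} {c : ℝ} (hc : 0 ≤ c) (hc1 : c ≤ 1) {p : ι → Pc} {S : Finset ι}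
    {m : ℕ} (hm : 1 ≤ m) (hS : S.card ≤ m) (d : ℕ) {D : Data} {k : ℕ} {η : ℝ} (hη : 0 ≤ η)
    (h : ∀ r ∈ S, IsAtom D k η (p r).a) (σ : Fin 3) :
    IsSum D (d * k) (d * η) ((4 * m + 2) ^ d) fun y => (bern m d (sfun c p S σ y) : ℂ) := by
  have h1 := bern_lin hc hc1 hm hS hη h σ (ε := 1) (by simp)
  have h2 := bern_lin hc hc1 hm hS hη h σ (ε := -1) (by simp)
  have h3 := isSum_sum (range (d + 1)) fun i hi =>
    (((((h1.pow i).mul (h2.pow (d - i))).smul (c := (clip (m * (2 * i / d - 1)) : ℝ)) (by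
      rw [Complex.norm_real]
      exact abs_clip_le _)).mono (k' := d * k) (η' := d * η) (P' := (2 * m + 1) ^ d)
      (by rw [← add_mul, Nat.add_sub_cancel' (Nat.lt_succ_iff.1 (mem_range.1 hi))])
      (by rw [← add_mul, ← Nat.cast_add, Nat.add_sub_cancel' (Nat.lt_succ_iff.1 (mem_range.1 hi))])
      (by rw [← pow_add, Nat.add_sub_cancel' (Nat.lt_succ_iff.1 (mem_range.1 hi))])).nsmul
      (d.choose i))
  have h4 := h3.mono le_rfl le_rfl (P' := (4 * m + 2) ^ d) (by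
    rw [← sum_mul, ← Nat.cast_sum, Nat.sum_range_choose, Nat.cast_pow, ← mul_pow]
    refine le_of_eq (congrArg (· ^ d) ?_)
    push_cast
    ring)
  refine (congrArg _ (funext fun y => ?_)).mp h4
  rw [bern, Complex.ofReal_sum]
  refine sum_congr rfl fun i _ => ?_
  rw [one_mul, neg_one_mul, ← sub_eq_add_neg, Complex.ofReal_mul, Complex.ofReal_mul,
    Complex.ofReal_mul, Complex.ofReal_pow, Complex.ofReal_pow, Complex.ofReal_natCast]
  ring

end Pool.Agent.TR
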