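import Pool.Agent.Lib.MP_cc859a_an.TR.Defs

open Finset Real
open scoped BigOperators ComplexConjugate

namespace Pool.Agent.TR

variable {A : Type*} [AddCommGroup A] {F F' : Finset A} {k k' : ℕ} {x y : A}

theorem mem_Sp : x ∈ Sp F k ↔ ∃ c : A → ℤ, (∀ a, |c a| ≤ k) ∧ x = ∑ a ∈ F, c a • a := by
  classical
  simp only [Sp, mem_image, Fintype.mem_piFinset, mem_Icc]
  constructor
  · rintro ⟨c, hc, rfl⟩
    refine ⟨fun a => if h : a ∈ F then c ⟨a, h⟩ else 0, fun a => ?_, ?_⟩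
    · beta_reduce
      split_ifs with h
      · exact abs_le.2 (hc _)
      · simp
    · rw [← sum_coe_sort F]
      exact sum_congr rfl fun a _ => by simp [a.2]
  · rintro ⟨c, hc, rfl⟩
    exact ⟨fun a => c a, fun a => abs_le.1 (hc a), sum_coe_sort F fun a => c a • a⟩

theorem Sp_zero_mem : (0 : A) ∈ Sp F k :=
  mem_Sp.2 ⟨0, by simp, by simp⟩

theorem Sp_self (hx : x ∈ F) : x ∈ Sp F 1 := by
  classical
  refine mem_Sp.2 ⟨fun a => if a = x then 1 else 0, fun a => ?_, by simp [hx]⟩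
  beta_reduce
  split_ifs <;> simp

theorem Sp_add (hx : x ∈ Sp F k) (hy : y ∈ Sp F k') : x + y ∈ Sp F (k + k') := by
  obtain ⟨c, hc, rfl⟩ := mem_Sp.1 hx
  obtain ⟨d, hd, rfl⟩ := mem_Sp.1 hy
  refine mem_Sp.2 ⟨c + d, fun a => ?_, by simp [add_smul, sum_add_distrib]⟩
  push_cast
  exact (abs_add_le _ _).trans (add_le_add (hc a) (hd a))

theorem Sp_neg (hx : x ∈ Sp F k) : -x ∈ Sp F k := by
  obtain ⟨c, hc, rfl⟩ := mem_Sp.1 hx
  exact mem_Sp.2 ⟨-c, fun a => by simpa using hc a, by simp⟩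

theorem Sp_sub (hx : x ∈ Sp F k) (hy : y ∈ Sp F k') : x - y ∈ Sp F (k + k') := by
  rw [sub_eq_add_neg]
  exact Sp_add hx (Sp_neg hy)

theorem Sp_zsmul (hx : x ∈ Sp F k) (n : ℤ) : n • x ∈ Sp F (n.natAbs * k) := by
  obtain ⟨c, hc, rfl⟩ := mem_Sp.1 hx
  refine mem_Sp.2 ⟨fun a => n * c a, fun a => ?_, by simp [smul_sum, mul_smul]⟩
  rw [abs_mul, Nat.cast_mul, Int.natCast_natAbs]
  exact mul_le_mul_of_nonneg_left (hc a) (abs_nonneg n)

theorem Sp_mono (hF : F ⊆ F') (hk : k ≤ k') : Sp F k ⊆ Sp F' k' := by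
  classical
  intro x hx
  obtain ⟨c, hc, rfl⟩ := mem_Sp.1 hx
  refine mem_Sp.2 ⟨fun a => if a ∈ F then c a else 0, fun a => ?_, ?_⟩
  · beta_reduce
    split_ifs
    · exact (hc a).trans (by exact_mod_cast hk)
    · simp
  · rw [← sum_subset hF fun a _ ha => by simp [ha]]
    exact sum_congr rfl fun a ha => by simp [ha]

theorem Sp_sum {ι : Type*} (s : Finset ι) (f : ι → A) (h : ∀ i ∈ s, f i ∈ Sp F k) :
    ∑ i ∈ s, f i ∈ Sp F (s.card * k) := by
  classical
  induction s using Finset.induction_on with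
  | empty => simpa using Sp_zero_mem
  | insert i s hi ih =>
    rw [sum_insert hi, card_insert_of_notMem hi, add_mul, one_mul, add_comm (s.card * k)]
    exact Sp_add (h i (mem_insert_self _ _)) (ih fun j hj => h j (mem_insert_of_mem hj))

theorem card_Sp_le : (Sp F k).card ≤ (2 * k + 1) ^ F.card := by
  classical
  unfold Sp
  refine card_image_le.trans (le_of_eq ?_)
  rw [Fintype.card_piFinset, prod_const, card_univ, Fintype.card_coe, Int.card_Icc]
  congr 1
  omega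

/-- A homomorphism to a normed group that is small on `F` is small on `Sp F k`. -/
theorem Sp_norm_le {E : Type*} [SeminormedAddCommGroup E] (φ : A →+ E) {r : ℝ}
    (h : ∀ a ∈ F, ‖φ a‖ ≤ r) (hx : x ∈ Sp F k) : ‖φ x‖ ≤ k * F.card * r := by
  obtain ⟨c, hc, rfl⟩ := mem_Sp.1 hx
  rw [map_sum, mul_comm (k : ℝ), mul_assoc, ← nsmul_eq_mul]
  refine (norm_sum_le _ _).trans (sum_le_card_nsmul _ _ _ fun a ha => ?_)
  rw [map_zsmul]
  refine (norm_zsmul_le _ _).trans (mul_le_mul ?_ (h a ha) (norm_nonneg _) (Nat.cast_nonneg k))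
  rw [Int.norm_eq_abs]
  exact_mod_cast hc a

/-- The kernel of a homomorphism that kills `F` contains `Sp F k`. -/
theorem Sp_map_zero {E : Type*} [AddCommGroup E] (φ : A →+ E) (h : ∀ a ∈ F, φ a = 0)
    (hx : x ∈ Sp F k) : φ x = 0 := by
  obtain ⟨c, -, rfl⟩ := mem_Sp.1 hx
  rw [map_sum]
  exact sum_eq_zero fun a ha => by rw [map_zsmul, h a ha, smul_zero]

/-- The `2 ^ d` subset sums lie in `Sp F (d k)`, so `2 ^ d ≤ (2 d k + 1) ^ S ≤ (d (2 k + 1)) ^ S`
for `d ≥ 1`; `log₂ d ≤ 2 √d` gives `d ≤ a + 2 S √d`, `a = S log₂ (2 k + 1)`, so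
`√d ≤ 2 S + √a`, `d ≤ 8 S ^ 2 + 2 a`, and `2 / log 2 ≤ 3`. -/
theorem card_dissoc_le {D : Finset A} (hD : AddDissociated (D : Set A)) (h : D ⊆ Sp F k) :
    (D.card : ℝ) ≤ 8 * (F.card : ℝ) ^ 2 + 3 * F.card * log (2 * k + 1) := by
  have hl : 0 ≤ log (2 * (k : ℝ) + 1) := log_nonneg (by linarith [Nat.cast_nonneg (α := ℝ) k])
  rcases Nat.eq_zero_or_pos D.card with h0 | h0
  · rw [h0, Nat.cast_zero]; positivity
  have h1 : 2 ^ D.card ≤ (D.card * (2 * k + 1)) ^ F.card := by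
    rw [← card_powerset]
    refine (card_le_card_of_injOn (t := Sp F (D.card * k)) (fun t => ∑ x ∈ t, x)
      (fun t ht => ?_) fun t ht u hu e => ?_).trans
      (card_Sp_le.trans (Nat.pow_le_pow_left (by nlinarith) _))
    · have ht' := mem_powerset.1 ht
      exact Sp_mono Subset.rfl (Nat.mul_le_mul_right k (card_le_card ht'))
        (Sp_sum t id fun i hi => h (ht' hi))
    · exact hD (coe_subset.2 (mem_powerset.1 ht)) (coe_subset.2 (mem_powerset.1 hu)) e
  have hd : (0 : ℝ) < D.card := by exact_mod_cast h0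
  have h2 : (D.card : ℝ) * log 2 ≤ F.card * (log D.card + log (2 * k + 1)) := by
    rw [← log_mul hd.ne' (by positivity), ← log_pow, ← log_pow]
    exact log_le_log (by positivity) (by exact_mod_cast h1)
  have h3 : log (D.card : ℝ) ≤ √(D.card : ℝ) := by
    have a := log_le_sub_one_of_pos (sqrt_pos.2 (sqrt_pos.2 hd))
    rw [log_sqrt (sqrt_nonneg _), log_sqrt hd.le] at a
    nlinarith [sq_nonneg (√√(D.card : ℝ) - 2), sq_sqrt (sqrt_nonneg (D.card : ℝ))]
  have h4 := log_two_gt_d9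
  have h5 := mul_le_mul_of_nonneg_left h3 (Nat.cast_nonneg (α := ℝ) F.card)
  have h6 := mul_nonneg (Nat.cast_nonneg (α := ℝ) F.card) hl
  nlinarith [sq_nonneg (√(D.card : ℝ) - 4 * F.card), sq_sqrt hd.le, sq_nonneg (F.card : ℝ)]

theorem spl_sub [DecidableEq A] {D t u : Finset A} (ht : t ⊆ D) (hu : u ⊆ D) :
    ∑ a ∈ u, a - ∑ a ∈ t, a ∈ Sp D 1 := by
  refine mem_Sp.2 ⟨fun a => (if a ∈ u then 1 else 0) - if a ∈ t then 1 else 0, fun a => ?_, ?_⟩
  · beta_reduce
    split_ifs <;> simp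
  · simp [sub_smul, sum_sub_distrib, inter_eq_right.2 ht, inter_eq_right.2 hu]

/-- If two subsets of `insert x D` have the same sum, exactly one contains `x`. -/
theorem dissoc_insert [DecidableEq A] {D : Finset A} (hD : AddDissociated (D : Set A))
    (hx : x ∉ Sp D 1) : AddDissociated ((insert x D : Finset A) : Set A) ∧ x ∉ D := by
  refine ⟨fun t ht u hu e => ?_, fun h => hx (Sp_self h)⟩
  have s : ∀ t : Finset A, (t : Set A) ⊆ (insert x D : Finset A) → t.erase x ⊆ D := fun t ht =>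
    subset_insert_iff.1 (coe_subset.1 ht)
  have one : ∀ t u : Finset A, (t : Set A) ⊆ (insert x D : Finset A) →
      (u : Set A) ⊆ (insert x D : Finset A) → ∑ a ∈ t, a = ∑ a ∈ u, a → x ∈ t → x ∈ u := by
    intro t u ht hu e h
    by_contra h'
    refine hx ?_
    have := spl_sub (s t ht) (s u hu)
    rwa [erase_eq_of_notMem h', ← e, ← add_sum_erase t _ h, add_sub_cancel_right] at this
  by_cases h : x ∈ t
  · have h' := one t u ht hu e h
    have e' : ∑ a ∈ t, a = ∑ a ∈ u, a := e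
    rw [← add_sum_erase t _ h, ← add_sum_erase u _ h', add_right_inj] at e'
    rw [← insert_erase h, ← insert_erase h',
      hD (coe_subset.2 (s t ht)) (coe_subset.2 (s u hu)) e']
  · have h' : x ∉ u := fun r => h (one u t hu ht e.symm r)
    have a := s t ht
    have b := s u hu
    rw [erase_eq_of_notMem h] at a
    rw [erase_eq_of_notMem h'] at b
    exact hD (coe_subset.2 a) (coe_subset.2 b) e

/-- Take a dissociated subset of largest size. -/
theorem exists_basis (S : Finset A) :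
    ∃ D ⊆ S, AddDissociated (D : Set A) ∧ S ⊆ Sp D 1 := by
  classical
  obtain ⟨D, hD, hmax⟩ := exists_max_image
    (S.powerset.filter fun D : Finset A => AddDissociated (D : Set A)) card ⟨∅, by simp⟩
  rw [mem_filter, mem_powerset] at hD
  refine ⟨D, hD.1, hD.2, fun x hx => ?_⟩
  by_contra h
  obtain ⟨h1, h2⟩ := dissoc_insert hD.2 h
  have := hmax _ (mem_filter.2 ⟨mem_powerset.2 (insert_subset hx hD.1), h1⟩)
  rw [card_insert_of_notMem h2] at this
  omega

end Pool.Agent.TR
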