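import Pool.Agent.Lib.MP_cc859a_an.TR.Four
import Pool.Agent.Lib.MP_cc859a_an.TR.SpL

open Finset Real
open scoped BigOperators ComplexConjugate

namespace Pool.Agent.TR

variable {M : ℕ} [NeZero M]

theorem chang_ch_sum (u : Finset (ZMod M)) (x : ZMod M) :
    ch ((∑ l ∈ u, l) * x) = ∑ l ∈ u, ch (l * x) := by
  classical
  induction u using Finset.induction_on with
  | empty => simp [ch_zero]
  | insert a u ha ih => rw [sum_insert ha, sum_insert ha, add_mul, ch_add, ih]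

theorem chang_term (u v : Finset (ZMod M)) (d : ZMod M → ℂ) (x : ZMod M) :
    (∏ l ∈ u, d l * e (-ch (l * x)) / 2) * ∏ l ∈ v, conj (d l * e (-ch (l * x))) / 2 =
      ((∏ l ∈ u, d l / 2) * ∏ l ∈ v, conj (d l) / 2) *
        e (ch ((∑ l ∈ v, l - ∑ l ∈ u, l) * x)) := by
  rw [sub_mul, ch_sub, chang_ch_sum, chang_ch_sum, sub_eq_add_neg, add_comm, ← sum_neg_distrib,
    e_add, e_sum, e_sum, mul_mul_mul_comm, ← prod_mul_distrib, ← prod_mul_distrib]
  congr 1
  · exact prod_congr rfl fun l _ => by ring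
  · refine prod_congr rfl fun l _ => ?_
    rw [map_mul, e_neg, Complex.conj_conj]
    ring

theorem chang_rand {Λ : Finset (ZMod M)} (hΛ : AddDissociated (Λ : Set (ZMod M))) (a : ℝ)
    (d : ZMod M → ℂ) : 𝔼 x, ∏ l ∈ Λ, ((d l * e (-ch (l * x))).re + a) = a ^ Λ.card := by
  classical
  refine Complex.ofReal_injective ?_
  rw [Complex.ofReal_expect]
  simp only [Complex.ofReal_prod, Complex.ofReal_add, Complex.ofReal_pow, Complex.re_eq_add_conj]
  simp only [prod_add (fun l => (d l * e (-ch (l * _)) + conj (d l * e (-ch (l * _)))) / 2)]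
  rw [expect_sum_comm, sum_eq_single ∅]
  · simp
  · intro t ht ht0
    rw [← expect_mul]
    refine mul_eq_zero_of_left ?_ _
    simp only [add_div, prod_add, chang_term]
    rw [expect_sum_comm]
    refine sum_eq_zero fun u hu => ?_
    rw [← mul_expect, orth, if_neg, mul_zero]
    intro h
    have h1 : u ⊆ Λ := (mem_powerset.1 hu).trans (mem_powerset.1 ht)
    have h2 : t \ u ⊆ Λ := sdiff_subset.trans (mem_powerset.1 ht)
    have h3 : t \ u = u := hΛ (coe_subset.2 h2) (coe_subset.2 h1) (sub_eq_zero.1 h)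
    exact (sdiff_ne_right.2 (Or.inl ht0)) h3
  · simp

theorem chang_conv (t : ℝ) {y : ℝ} (hy : |y| ≤ 1) : exp (t * y) ≤ sinh t * y + cosh t := by
  obtain ⟨h1, h2⟩ := abs_le.1 hy
  have h := convexOn_exp.2 (Set.mem_univ t) (Set.mem_univ (-t))
    (show 0 ≤ (1 + y) / 2 by linarith) (show 0 ≤ (1 - y) / 2 by linarith) (by ring)
  simp only [smul_eq_mul] at h
  rw [show (1 + y) / 2 * t + (1 - y) / 2 * -t = t * y by ring] at h
  rw [sinh_eq, cosh_eq]
  linarith

/-- Rudin's inequality in exponential form. For `|z| ≤ 1`, convexity gives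
`exp (t Re z) ≤ cosh t + sinh t Re z`; expand the product over `Λ`: a term has nonzero mean only if
a signed sum of distinct members of `Λ` vanishes (`orth`), so only the constant term is left
(compare `AddDissociated.randomisation`); `cosh t ≤ exp (t ^ 2 / 2)`. -/
theorem chang_exp {Λ : Finset (ZMod M)} (hΛ : AddDissociated (Λ : Set (ZMod M)))
    (c : ZMod M → ℂ) (hc : ∀ l, ‖c l‖ ≤ 1) {t : ℝ} (ht : 0 ≤ t) :
    𝔼 x, exp (t * (∑ l ∈ Λ, c l * e (-ch (l * x))).re) ≤ exp (t ^ 2 * Λ.card / 2) := by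
  calc _ ≤ 𝔼 x, ∏ l ∈ Λ, ((((sinh t : ℝ) : ℂ) * c l * e (-ch (l * x))).re + cosh t) := by
        refine expect_le_expect fun x _ => ?_
        rw [Complex.re_sum, mul_sum, exp_sum]
        refine prod_le_prod (fun l _ => (exp_pos _).le) fun l _ => ?_
        rw [mul_assoc, Complex.re_ofReal_mul]
        refine chang_conv t ((Complex.abs_re_le_norm _).trans ?_)
        rw [norm_mul, norm_e, mul_one]
        exact hc l
    _ = cosh t ^ Λ.card := chang_rand hΛ _ _
    _ ≤ exp (t ^ 2 / 2) ^ Λ.card := pow_le_pow_left₀ (cosh_pos t).le (cosh_le_exp_half_sq t) _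
    _ = _ := by
        rw [← exp_nat_mul]
        congr 1
        ring

theorem chang_four (z : ℂ) {t : ℝ} (ht : 0 ≤ t) :
    exp (t * ‖z‖) ≤ exp (√2 * t * (1 * z).re) + exp (√2 * t * (-1 * z).re) +
      exp (√2 * t * (Complex.I * z).re) + exp (√2 * t * (-Complex.I * z).re) := by
  have h := mul_le_mul_of_nonneg_left (Complex.norm_le_sqrt_two_mul_max z) ht
  have e1 : (1 * z).re = z.re := by simp
  have e2 : (-1 * z).re = -z.re := by simp
  have e3 : (Complex.I * z).re = -z.im := by simp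
  have e4 : (-Complex.I * z).re = z.im := by simp
  rw [e1, e2, e3, e4]
  refine (exp_le_exp.2 h).trans ?_
  have p1 := exp_pos (√2 * t * z.re)
  have p2 := exp_pos (√2 * t * -z.re)
  have p3 := exp_pos (√2 * t * -z.im)
  have p4 := exp_pos (√2 * t * z.im)
  have k : ∀ y, exp (t * (√2 * y)) = exp (√2 * t * y) := fun y => by
    congr 1
    ring
  rw [k]
  rcases max_choice |z.re| |z.im| with m | m <;> rw [m]
  · rcases abs_choice z.re with a | a <;> rw [a] <;> linarith
  · rcases abs_choice z.im with a | a <;> rw [a] <;> linarith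

theorem chang_norm {Λ : Finset (ZMod M)} (hΛ : AddDissociated (Λ : Set (ZMod M)))
    (c : ZMod M → ℂ) (hc : ∀ l, ‖c l‖ ≤ 1) {t : ℝ} (ht : 0 ≤ t) :
    𝔼 x, exp (t * ‖∑ l ∈ Λ, c l * e (-ch (l * x))‖) ≤ 4 * exp (t ^ 2 * Λ.card) := by
  have k : ∀ w : ℂ, ‖w‖ = 1 →
      𝔼 x, exp (√2 * t * (w * ∑ l ∈ Λ, c l * e (-ch (l * x))).re) ≤ exp (t ^ 2 * Λ.card) := by
    intro w hw
    have h := chang_exp hΛ (fun l => w * c l) (fun l => by rw [norm_mul, hw, one_mul]; exact hc l)
      (t := √2 * t) (by positivity)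
    rw [mul_pow, sq_sqrt zero_le_two, show 2 * t ^ 2 * (Λ.card : ℝ) / 2 = t ^ 2 * Λ.card by ring]
      at h
    simpa only [mul_sum, mul_assoc] using h
  refine (expect_le_expect fun x _ => chang_four _ ht).trans ?_
  rw [expect_add_distrib, expect_add_distrib, expect_add_distrib]
  have k1 := k 1 (by simp)
  have k2 := k (-1) (by simp)
  have k3 := k Complex.I (by simp)
  have k4 := k (-Complex.I) (by simp)
  linarith

/-- Chang's lemma. Take `Λ` from `exists_basis` for the set of large coefficients. With unimodular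
`c l`, `P x = ∑ c l e (-l x)`: `η σ |Λ| ≤ ∑ |ft f l| = 𝔼 f P ≤ σ 𝔼_{E} |P|`, `σ = |E| / M`.
`|P| ≤ √2 max Re (w P)` over `w = 1, -1, i, -i`, so `𝔼 exp (t |P|) ≤ 4 exp (t ^ 2 |Λ|)`; Jensen
(`x + 1 ≤ exp x` suffices) on `E` gives `t η |Λ| ≤ log (4 / σ) + t ^ 2 |Λ|`; `t = η / 2`. -/
theorem chang (E : Finset (ZMod M)) (hE : E.Nonempty) (f : ZMod M → ℂ) (hf : ∀ x, ‖f x‖ ≤ 1)
    (hf0 : ∀ x ∉ E, f x = 0) {η : ℝ} (hη : 0 < η) :
    ∃ Λ : Finset (ZMod M), (Λ.card : ℝ) ≤ 4 / η ^ 2 * log (4 * M / E.card) ∧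
      ∀ ξ, η * (E.card / M) ≤ ‖ft f ξ‖ → ξ ∈ Sp Λ 1 := by
  classical
  obtain ⟨Λ, hS, hΛ, hsp⟩ :=
    exists_basis (univ.filter fun ξ : ZMod M => η * (E.card / M) ≤ ‖ft f ξ‖)
  refine ⟨Λ, ?_, fun ξ h => hsp (mem_filter.2 ⟨mem_univ _, h⟩)⟩
  choose c hc1 hc2 using fun l => Complex.exists_norm_eq_mul_self (ft f l)
  have hM : (0 : ℝ) < M := by exact_mod_cast NeZero.pos M
  have hEc : (0 : ℝ) < E.card := by exact_mod_cast hE.card_pos
  set P : ZMod M → ℂ := fun x => ∑ l ∈ Λ, c l * e (-ch (l * x)) with hP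
  have h1 : ((∑ l ∈ Λ, ‖ft f l‖ : ℝ) : ℂ) = 𝔼 x, f x * P x := by
    simp only [Complex.ofReal_sum, hc2, hP, mul_sum]
    rw [expect_sum_comm]
    refine sum_congr rfl fun l _ => ?_
    rw [ft, mul_expect]
    exact expect_congr rfl fun x _ => by ring
  have h2 : ∑ l ∈ Λ, ‖ft f l‖ ≤ (∑ x ∈ E, ‖P x‖) / M := by
    refine (le_abs_self _).trans ?_
    rw [← Real.norm_eq_abs, ← Complex.norm_real, h1, Fintype.expect_eq_sum_div_card, ZMod.card,
      norm_div, Complex.norm_natCast]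
    refine div_le_div_of_nonneg_right ?_ hM.le
    rw [← sum_subset (subset_univ E) fun x _ hx => by rw [hf0 x hx, zero_mul]]
    refine (norm_sum_le _ _).trans (sum_le_sum fun x _ => ?_)
    rw [norm_mul]
    exact mul_le_of_le_one_left (norm_nonneg _) (hf x)
  have h3 : (Λ.card : ℝ) * (η * (E.card / M)) ≤ ∑ l ∈ Λ, ‖ft f l‖ := by
    rw [← nsmul_eq_mul]
    exact card_nsmul_le_sum _ _ _ fun l hl => (mem_filter.1 (hS hl)).2
  have h4 : (Λ.card : ℝ) * η * E.card ≤ ∑ x ∈ E, ‖P x‖ := by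
    have h := h3.trans h2
    rw [← mul_div_assoc, ← mul_div_assoc, div_le_div_iff_of_pos_right hM] at h
    linarith
  have h5 := chang_norm hΛ c (fun l => (hc1 l).le) (t := η / 2) (by positivity)
  rw [Fintype.expect_eq_sum_div_card, ZMod.card, div_le_iff₀ hM] at h5
  set m : ℝ := η / 2 * (Λ.card * η) with hm
  have h6 : exp m * E.card ≤ ∑ x, exp (η / 2 * ‖P x‖) := by
    refine le_trans ?_ (sum_le_sum_of_subset_of_nonneg (subset_univ E)
      fun x _ _ => (exp_pos _).le)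
    have h7 : ∀ x ∈ E, exp m * (η / 2 * ‖P x‖ - m + 1) ≤ exp (η / 2 * ‖P x‖) := fun x _ => by
      refine (mul_le_mul_of_nonneg_left (add_one_le_exp _) (exp_pos m).le).trans_eq ?_
      rw [← exp_add]
      congr 1
      ring
    refine le_trans ?_ (sum_le_sum h7)
    rw [← mul_sum, sum_add_distrib, sum_sub_distrib, ← mul_sum, sum_const, sum_const, nsmul_eq_mul,
      nsmul_eq_mul, mul_one]
    refine mul_le_mul_of_nonneg_left ?_ (exp_pos m).le
    have h8 := mul_le_mul_of_nonneg_left h4 (show 0 ≤ η / 2 by positivity)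
    rw [hm]
    linarith
  have h9 : exp (η ^ 2 / 4 * Λ.card) ≤ 4 * M / E.card := by
    have h10 : exp m = exp (η ^ 2 / 4 * Λ.card) * exp ((η / 2) ^ 2 * Λ.card) := by
      rw [← exp_add, hm]
      congr 1
      ring
    have h11 := h6.trans h5
    rw [h10] at h11
    rw [le_div_iff₀ hEc]
    refine le_of_mul_le_mul_right ?_ (exp_pos ((η / 2) ^ 2 * Λ.card))
    linarith
  have h12 := (le_log_iff_exp_le (by positivity)).2 h9
  rw [div_mul_eq_mul_div, le_div_iff₀ (by positivity)]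
  linarith

end Pool.Agent.TR
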