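import Pool.Agent.Lib.MP_cc859a_an.TR.Defs

open Finset Real
open scoped BigOperators ComplexConjugate

namespace Pool.Agent.TR

variable {X : ℝ}

theorem num_one_le (hX : 2 ≤ X) (n : ℕ) : 1 ≤ X ^ n := one_le_pow₀ (by linarith)

theorem num_mono (hX : 2 ≤ X) {a b : ℕ} (h : a ≤ b) : X ^ a ≤ X ^ b :=
  pow_le_pow_right₀ (by linarith) h

theorem num_two_le (hX : 2 ≤ X) {n : ℕ} (hn : 1 ≤ n) : 2 ≤ X ^ n :=
  hX.trans (by simpa using num_mono hX hn)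

theorem num_le_pow (hX : 2 ≤ X) {n : ℕ} (hn : 1 ≤ n) : X ≤ X ^ n := by
  simpa using num_mono hX hn

theorem num_two_pow (hX : 2 ≤ X) (n : ℕ) : (2 : ℝ) ^ n ≤ X ^ n :=
  pow_le_pow_left₀ (by norm_num) hX n

theorem num_add (hX : 2 ≤ X) {a b : ℝ} {n : ℕ} (ha : a ≤ X ^ n) (hb : b ≤ X ^ n) :
    a + b ≤ X ^ (n + 1) := by
  have := num_one_le hX n
  rw [pow_succ]
  nlinarith

theorem num_mul (hX : 2 ≤ X) {a b : ℝ} {m n : ℕ} (ha : a ≤ X ^ m) (hb : b ≤ X ^ n)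
    (hb0 : 0 ≤ b) : a * b ≤ X ^ (m + n) := by
  rw [pow_add]
  exact mul_le_mul ha hb hb0 (by positivity)

/-- Every constant is at most a power of `X`. -/
theorem num_const (c : ℝ) : ∃ n : ℕ, ∀ X : ℝ, 2 ≤ X → c ≤ X ^ n := by
  obtain ⟨n, hn⟩ := pow_unbounded_of_one_lt c (one_lt_two (α := ℝ))
  exact ⟨n, fun X hX => hn.le.trans (num_two_pow hX n)⟩

theorem num_pow_le_exp (hX : 0 ≤ X) (n : ℕ) : X ^ n ≤ exp (n * X) := by
  rw [exp_nat_mul]
  exact pow_le_pow_left₀ hX (by linarith [add_one_le_exp X]) n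

theorem num_log_le (hX : 0 ≤ X) : log X ≤ X := log_le_self hX

/-- A power is eventually below the exponential. -/
theorem num_eventually (n : ℕ) {c : ℝ} (hc : 0 < c) :
    ∃ E₀ : ℝ, ∀ E : ℝ, E₀ ≤ E → E ^ n ≤ exp (c * E) := by
  have h := (isLittleO_pow_exp_pos_mul_atTop n hc).bound one_pos
  obtain ⟨a, ha⟩ := Filter.eventually_atTop.1 h
  refine ⟨a, fun E hE => ?_⟩
  have h2 := ha E hE
  rw [one_mul, Real.norm_eq_abs, Real.norm_eq_abs, abs_of_pos (exp_pos _)] at h2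
  exact (le_abs_self _).trans h2

end Pool.Agent.TR
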