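import Pool.Agent.Lib.MP_cc859a_an.TR.Croot
import Pool.Agent.Lib.MP_cc859a_an.TR.Chang
import Pool.Agent.Lib.MP_cc859a_an.TR.Num

open Finset Real
open scoped BigOperators ComplexConjugate

namespace Pool.Agent.TR

variable {M : ℕ} [NeZero M]

/-- The double average over differences. -/
noncomputable def bogo_P (S : Finset (ZMod M)) (G : ZMod M → ℂ) (v : ZMod M) : ℂ :=
  𝔼 t' ∈ S, 𝔼 t ∈ S, G (v + t - t')

theorem bogo_shift (G : ZMod M → ℂ) (s ξ : ZMod M) :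
    𝔼 x, G (x + s) * e (-ch (ξ * x)) = ft G ξ * e (ch (ξ * s)) := by
  rw [ft, expect_mul]
  refine Fintype.expect_equiv (Equiv.addRight s) _ _ fun x => ?_
  rw [Equiv.coe_addRight, mul_assoc, ← e_add, mul_add, ch_add, neg_add, neg_add_cancel_right]

theorem bogo_ft (S : Finset (ZMod M)) (G : ZMod M → ℂ) (ξ : ZMod M) :
    ft (bogo_P S G) ξ = ft G ξ * (‖𝔼 t ∈ S, e (-ch (ξ * t))‖ ^ 2 : ℝ) := by
  rw [norm_expect_sq, ft]
  simp only [bogo_P, expect_mul, mul_expect]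
  rw [expect_comm]
  refine expect_congr rfl fun t' _ => ?_
  rw [expect_comm]
  refine expect_congr rfl fun t _ => ?_
  simp only [add_sub_assoc]
  rw [bogo_shift, ← e_neg, neg_neg, ← e_add, mul_sub, ch_sub, neg_add_eq_sub]

theorem bogo_mu_le (S : Finset (ZMod M)) (ξ : ZMod M) : ‖𝔼 t ∈ S, e (-ch (ξ * t))‖ ≤ 1 :=
  norm_expect_le' _ _ zero_le_one fun _ _ => (norm_e _).le

theorem bogo_ind (S : Finset (ZMod M)) (hS : S.Nonempty) (ξ : ZMod M) :
    ‖ft (fun x => if x ∈ S then 1 else 0) ξ‖ = S.card / M * ‖𝔼 t ∈ S, e (-ch (ξ * t))‖ := by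
  have h : (S.card : ℝ) ≠ 0 := Nat.cast_ne_zero.2 hS.card_ne_zero
  simp only [ft, expect_eq_sum_div_card, ite_mul, one_mul, zero_mul, sum_ite_mem, univ_inter,
    card_univ, ZMod.card, norm_div, Complex.norm_natCast]
  field_simp

theorem bogo_pars (S : Finset (ZMod M)) (hS : S.Nonempty) :
    ∑ ξ, ‖𝔼 t ∈ S, e (-ch (ξ * t))‖ ^ 2 = M / S.card := by
  have h : (S.card : ℝ) ≠ 0 := Nat.cast_ne_zero.2 hS.card_ne_zero
  have hM : (M : ℝ) ≠ 0 := Nat.cast_ne_zero.2 (NeZero.ne M)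
  have h1 := parseval (fun x => if x ∈ S then 1 else 0 : ZMod M → ℂ)
  simp only [bogo_ind S hS, mul_pow, ← mul_sum, apply_ite norm, norm_one, norm_zero, ite_pow,
    one_pow, zero_pow two_ne_zero] at h1
  rw [expect_eq_sum_div_card, sum_ite_mem, univ_inter, card_univ, ZMod.card, sum_const,
    nsmul_one] at h1
  field_simp at h1 ⊢
  linarith

/-- Smoothing. `P F v = 𝔼 t t' ∈ T', F (v + t - t')` multiplies `ft F ξ` by `|μ ξ| ^ 2`,
`μ ξ = 𝔼 t ∈ T', e (ξ t)`, and `|P^[k] F v - F v| ≤ k r` for all `v`. Then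
`|P^[k] F v - P^[k] F 0| ≤ ∑ |ft F ξ| |μ ξ| ^ (2k) |e (ξ v) - 1|`. -/
theorem bogo_smooth (F : ZMod M → ℂ) (T' : Finset (ZMod M)) (hT : T'.Nonempty) {r B d : ℝ} (k : ℕ)
    (hF : ∀ t ∈ T', ∀ t' ∈ T', ∀ z, ‖F (z + t - t') - F z‖ ≤ r) (hB : ∑ ξ, ‖ft F ξ‖ ≤ B)
    (hd : 0 ≤ d) {v : ZMod M}
    (hv : ∀ ξ, 1 / 2 ≤ ‖𝔼 t ∈ T', e (-ch (ξ * t))‖ → ‖ch (ξ * v)‖ ≤ d) :
    ‖F v - F 0‖ ≤ 2 * k * r + B * (7 * d + 2 / 4 ^ k) := by
  obtain ⟨t₀, ht₀⟩ := id hT
  have hr : 0 ≤ r := (norm_nonneg _).trans (hF t₀ ht₀ t₀ ht₀ 0)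
  have h1 : ∀ j : ℕ, ∀ z, ‖(bogo_P T')^[j] F z - F z‖ ≤ j * r := fun j => by
    induction j with
    | zero => simp
    | succ j ih =>
      intro z
      have h2 : (bogo_P T')^[j + 1] F z - F z =
          𝔼 t' ∈ T', 𝔼 t ∈ T', ((bogo_P T')^[j] F (z + t - t') - F z) := by
        simp only [expect_sub_distrib, expect_const hT, Function.iterate_succ_apply']
        rfl
      rw [h2]
      refine norm_expect_le' _ _ (by positivity) fun t' ht' =>
        norm_expect_le' _ _ (by positivity) fun t ht => ?_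
      rw [Nat.cast_succ, add_one_mul]
      exact (norm_sub_le_norm_sub_add_norm_sub _ _ _).trans (add_le_add (ih _) (hF t ht t' ht' z))
  have h2 : ∀ j : ℕ, ∀ ξ, ‖ft ((bogo_P T')^[j] F) ξ‖ =
      ‖ft F ξ‖ * (‖𝔼 t ∈ T', e (-ch (ξ * t))‖ ^ 2) ^ j := fun j ξ => by
    induction j with
    | zero => simp
    | succ j ih =>
      rw [Function.iterate_succ_apply', bogo_ft, norm_mul, ih, Complex.norm_real,
        Real.norm_of_nonneg (sq_nonneg _), mul_assoc, ← pow_succ]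
  have h3 : ‖(bogo_P T')^[k] F v - (bogo_P T')^[k] F 0‖ ≤ B * (7 * d + 2 / 4 ^ k) := by
    rw [inversion ((bogo_P T')^[k] F) v, inversion ((bogo_P T')^[k] F) 0, ← sum_sub_distrib]
    refine (norm_sum_le _ _).trans (le_trans ?_ (mul_le_mul_of_nonneg_right hB (by positivity)))
    rw [sum_mul]
    refine sum_le_sum fun ξ _ => ?_
    rw [mul_zero, ch_zero, e_zero, ← mul_sub, norm_mul, h2, mul_assoc]
    refine mul_le_mul_of_nonneg_left ?_ (norm_nonneg _)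
    rcases le_or_gt (1 / 2) ‖𝔼 t ∈ T', e (-ch (ξ * t))‖ with h | h
    · refine (mul_le_of_le_one_left (norm_nonneg _) (pow_le_one₀ (sq_nonneg _)
        (pow_le_one₀ (norm_nonneg _) (bogo_mu_le T' ξ)))).trans ((norm_e_sub_one_le _).trans ?_)
      have h4 : (0 : ℝ) ≤ 2 / 4 ^ k := by positivity
      linarith [hv ξ h]
    · have h4 : ‖e (ch (ξ * v)) - 1‖ ≤ 2 := (norm_sub_le _ _).trans (by
        rw [norm_e, norm_one, one_add_one_eq_two])
      have h5 : (‖𝔼 t ∈ T', e (-ch (ξ * t))‖ ^ 2) ^ k ≤ (1 / 4) ^ k :=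
        pow_le_pow_left₀ (sq_nonneg _)
          ((pow_le_pow_left₀ (norm_nonneg _) h.le 2).trans (by norm_num)) k
      refine (mul_le_mul h5 h4 (norm_nonneg _) (by positivity)).trans ?_
      rw [one_div_pow, one_div_mul_eq_div]
      linarith
  have h4 := norm_sub_le_norm_sub_add_norm_sub (F v) ((bogo_P T')^[k] F v) (F 0)
  have h5 := norm_sub_le_norm_sub_add_norm_sub ((bogo_P T')^[k] F v) ((bogo_P T')^[k] F 0) (F 0)
  rw [norm_sub_rev (F v) ((bogo_P T')^[k] F v)] at h4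
  linarith [h1 k v, h1 k 0]

theorem bogo_log {c N a Y : ℝ} (n : ℕ) (hc : 0 < c) (hN : 0 < N) (ha : 0 < a) (hn : c ≤ 2 ^ n)
    (h : exp (-Y) * N ≤ a) : log (c * N / a) ≤ Y + n := by
  have h1 : (2 : ℝ) ^ n ≤ exp n := by
    rw [← exp_one_pow]
    exact pow_le_pow_left₀ zero_le_two (by linarith [add_one_le_exp 1]) n
  rw [log_le_iff_le_exp (by positivity), div_le_iff₀ ha, exp_add, mul_comm (exp Y), mul_assoc]
  rw [exp_neg, inv_mul_le_iff₀ (exp_pos Y)] at h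
  exact mul_le_mul (hn.trans h1) h hN.le (exp_pos _).le

theorem bogo_size {X : ℝ} (hX : 2 ≤ X) :
    16 * ((⌈(64 * (⌈X⌉₊ + 5 : ℕ) : ℝ) ^ 2 * (X + 2)⌉₊ : ℝ) * X + 3) ≤ X ^ 27 := by
  have h1 : ((⌈X⌉₊ + 5 : ℕ) : ℝ) ≤ 4 * X := by
    have := Nat.ceil_lt_add_one (by linarith : 0 ≤ X)
    push_cast
    linarith
  have h2 : (64 * (⌈X⌉₊ + 5 : ℕ) : ℝ) ^ 2 * (X + 2) ≤ (64 * (4 * X)) ^ 2 * (2 * X) := by
    gcongr
    linarith
  have h3 := Nat.ceil_lt_add_one (by positivity : 0 ≤ (64 * (⌈X⌉₊ + 5 : ℕ) : ℝ) ^ 2 * (X + 2))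
  have h4 := mul_le_mul_of_nonneg_right (h3.le.trans (add_le_add_left h2 1)) (by linarith : 0 ≤ X)
  have h5 := mul_le_mul_of_nonneg_right (num_two_pow hX 23) (by positivity : 0 ≤ X ^ 4)
  have h6 := num_le_pow hX (n := 4) (by norm_num)
  rw [← pow_add] at h5
  norm_num at h5
  nlinarith

theorem bogo_err {X : ℝ} (hX : 2 ≤ X) :
    exp X * (7 * (X ^ 27 * exp (-X ^ 28)) + 2 / 4 ^ (⌈X⌉₊ + 5)) ≤ 3 / 4 := by
  have h1 : exp X ≤ 4 ^ ⌈X⌉₊ := by
    refine (exp_le_exp.2 (Nat.le_ceil X)).trans ?_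
    rw [← exp_one_pow]
    exact pow_le_pow_left₀ (exp_pos 1).le (by linarith [exp_one_lt_d9]) _
  have h2 : exp X * (2 / 4 ^ (⌈X⌉₊ + 5)) ≤ 1 / 4 := by
    rw [← mul_div_assoc, div_le_iff₀ (by positivity), pow_add]
    linarith [exp_pos X]
  have h3 := mul_le_mul_of_nonneg_right (num_two_pow hX 4) (by positivity : 0 ≤ X ^ 27)
  have h4 := num_pow_le_exp (by linarith : 0 ≤ X) 31
  have h5 := mul_le_mul_of_nonneg_right (num_two_pow hX 5) (by linarith : 0 ≤ X)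
  have h6 := num_mono hX (a := 6) (b := 28) (by norm_num)
  rw [← pow_add] at h3
  rw [← pow_succ] at h5
  have h7 : exp X * (16 * X ^ 27) ≤ exp (X ^ 28) := by
    refine (mul_le_mul_of_nonneg_left (le_trans (by norm_num) (h3.trans h4)) (exp_pos X).le).trans ?_
    rw [← exp_add, exp_le_exp]
    norm_num at h5 ⊢
    linarith
  have h8 := mul_le_mul_of_nonneg_right h7 (exp_pos (-X ^ 28)).le
  rw [← exp_add, add_neg_cancel, exp_zero] at h8
  linarith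

/-- Sanders' form of Bogolyubov's lemma, dense case. `ψ` is the indicator of `A - A`,
`F t = 𝔼 a' a ∈ A, ψ (a + (t - a'))`; `F 0 = 1`, and `F t ≠ 0` puts `t` in `2A - 2A`;
`|ft F ξ| ≤ |ft μ_A ξ| ^ 2`, whose sum is `M / |A| ≤ exp X`. `k = ⌈X⌉ + 5`,
`m = ⌈(64 k) ^ 2 (X + 2)⌉`, so `r ≤ 1 / (16 k)`; `chang` with `η = 1/2` for the indicator of `T'`;
`d = |Λ| δ` by `Sp_norm_le`. -/
theorem bogo : ∃ C : ℕ, ∀ X : ℝ, 2 ≤ X → ∀ (M : ℕ) [NeZero M] (A : Finset (ZMod M)),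
    exp (-X) * M ≤ A.card → ∃ Λ : Finset (ZMod M), (Λ.card : ℝ) ≤ X ^ C ∧
      ∀ v ∈ ZB Λ (exp (-X ^ C)), ∃ a₁ ∈ A, ∃ a₂ ∈ A, ∃ a₃ ∈ A, ∃ a₄ ∈ A,
        v = a₁ + a₂ - a₃ - a₄ := by
  classical
  refine ⟨28, fun X hX M _ A hA => ?_⟩
  have hM : (0 : ℝ) < M := Nat.cast_pos.2 (NeZero.pos M)
  have ha : (0 : ℝ) < A.card := (mul_pos (exp_pos _) hM).trans_le hA
  have hA0 : A.Nonempty := card_pos.1 (Nat.cast_pos.1 ha)
  have b1 := bogo_size hX
  have b2 := bogo_err hX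
  have hk : (0 : ℝ) < (⌈X⌉₊ + 5 : ℕ) := by positivity
  generalize ⌈X⌉₊ + 5 = k at b1 b2 hk
  have b3 := Nat.le_ceil ((64 * k : ℝ) ^ 2 * (X + 2))
  have b4 : 0 < ⌈(64 * k : ℝ) ^ 2 * (X + 2)⌉₊ := Nat.ceil_pos.2 (by positivity)
  generalize ⌈(64 * k : ℝ) ^ 2 * (X + 2)⌉₊ = m at b1 b3 b4
  obtain ⟨ψ, hψ⟩ : ∃ ψ : ZMod M → ℝ, ∀ x, ψ x = if ∃ a ∈ A, ∃ b ∈ A, x = a - b then 1 else 0 :=
    ⟨_, fun _ => rfl⟩
  have hψ1 : ∀ x, 0 ≤ ψ x ∧ ψ x ≤ 1 := fun x => by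
    rw [hψ]
    split_ifs <;> simp
  obtain ⟨T', c1, c2⟩ := croot A hA0 ψ hψ1 b4
  have c3 : exp (-(m * X)) * (M / 2) ≤ T'.card := by
    refine le_trans ?_ c1
    rw [← mul_neg, exp_nat_mul, div_mul_eq_mul_div, mul_div_assoc]
    exact mul_le_mul_of_nonneg_right
      (pow_le_pow_left₀ (exp_pos _).le ((le_div_iff₀ hM).2 hA) m) (by positivity)
  have hτ : (0 : ℝ) < T'.card := (mul_pos (exp_pos _) (half_pos hM)).trans_le c3
  have hT : T'.Nonempty := card_pos.1 (Nat.cast_pos.1 hτ)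
  obtain ⟨Λ, d1, d2⟩ := chang T' hT (fun x => if x ∈ T' then 1 else 0)
    (fun x => by split_ifs <;> simp) (fun x hx => if_neg hx) one_half_pos
  have d3 : (Λ.card : ℝ) ≤ X ^ 27 := by
    have d4 := bogo_log 3 (c := 8) (by norm_num) (half_pos hM) hτ (by norm_num) c3
    rw [show 8 * ((M : ℝ) / 2) = 4 * M by ring] at d4
    norm_num at d1 d4
    linarith
  refine ⟨Λ, d3.trans (num_mono hX (by norm_num)), fun v hv => ?_⟩
  have e1 : ∀ z, bogo_P A (fun x => (ψ x : ℂ)) z = (𝔼 a' ∈ A, 𝔼 a ∈ A, ψ (a + (z - a')) : ℝ) :=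
    fun z => by
      simp only [bogo_P, Complex.ofReal_expect, add_sub_assoc, add_sub_left_comm]
  have e2 : 4 * √(log (4 * M / A.card) / m) ≤ 1 / (16 * k) := by
    have e3 := bogo_log 2 (c := 4) (by norm_num) hM ha (by norm_num) hA
    have e4 : √(log (4 * M / A.card) / m) ≤ 1 / (64 * k) := by
      refine sqrt_le_iff.2 ⟨by positivity, ?_⟩
      rw [div_le_iff₀ (Nat.cast_pos.2 b4), one_div_pow, one_div_mul_eq_div,
        le_div_iff₀ (by positivity), mul_comm]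
      exact (mul_le_mul_of_nonneg_left e3 (by positivity)).trans b3
    refine (mul_le_mul_of_nonneg_left e4 (by norm_num)).trans_eq ?_
    field_simp
    norm_num
  have e3 := bogo_smooth (bogo_P A fun x => (ψ x : ℂ)) T' hT (r := 1 / (16 * k)) (B := exp X)
    (d := X ^ 27 * exp (-X ^ 28)) (v := v) k (fun t ht t' ht' z => by
      rw [e1, e1, ← Complex.ofReal_sub, Complex.norm_real, Real.norm_eq_abs, ← expect_sub_distrib]
      refine (abs_expect_le _ _).trans (le_trans (le_of_eq ?_) ((c2 t ht t' ht' z).trans e2))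
      refine expect_congr rfl fun a' _ => ?_
      rw [show z + t - t' - a' = z - a' + t - t' by ring])
    (by
      refine le_trans (sum_le_sum fun ξ _ => ?_) ((bogo_pars A hA0).le.trans ?_)
      · rw [bogo_ft, norm_mul, Complex.norm_real, Real.norm_of_nonneg (sq_nonneg _)]
        refine mul_le_of_le_one_left (sq_nonneg _) (norm_expect_le' _ _ zero_le_one fun x _ => ?_)
        rw [norm_mul, norm_e, mul_one, Complex.norm_real, Real.norm_of_nonneg (hψ1 x).1]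
        exact (hψ1 x).2
      · rwa [div_le_iff₀ ha, ← inv_mul_le_iff₀ (exp_pos X), ← exp_neg])
    (by positivity) fun ξ hξ => by
      have e4 := Sp_norm_le (AddMonoidHom.mk' (fun l => ch (l * v)) fun a b => by
        rw [add_mul, ch_add]) (mem_ZB.1 hv) (d2 ξ (by
          rw [bogo_ind T' hT, mul_comm]
          exact mul_le_mul_of_nonneg_left hξ (by positivity)))
      rw [Nat.cast_one, one_mul] at e4
      exact e4.trans (mul_le_mul_of_nonneg_right d3 (exp_pos _).le)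
  have e4 : bogo_P A (fun x => (ψ x : ℂ)) 0 = 1 := by
    rw [e1, expect_congr rfl fun a' ha' => expect_congr rfl fun a ha =>
      (hψ _).trans (if_pos ⟨a, ha, a', ha', by ring⟩), expect_const hA0, expect_const hA0,
      Complex.ofReal_one]
  have e5 : bogo_P A (fun x => (ψ x : ℂ)) v ≠ 0 := fun h0 => by
    rw [h0, e4, zero_sub, norm_neg, norm_one,
      show 2 * k * (1 / (16 * k) : ℝ) = 1 / 8 by field_simp; norm_num] at e3
    linarith
  obtain ⟨a', f1, f2⟩ := exists_ne_zero_of_expect_ne_zero e5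
  obtain ⟨a, f3, f4⟩ := exists_ne_zero_of_expect_ne_zero f2
  obtain ⟨b, f5, b', f6, f7⟩ : ∃ b ∈ A, ∃ b' ∈ A, v + a - a' = b - b' := by
    by_contra h0
    exact f4 (Complex.ofReal_eq_zero.2 ((hψ _).trans (if_neg h0)))
  exact ⟨b, f5, a', f1, b', f6, a, f3, by linear_combination f7⟩

end Pool.Agent.TR
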