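import Pool.Agent.Lib.MP_cc859a_an.TR.EBas
import Pool.Agent.Lib.MP_cc859a_an.TR.SpL

open Finset Real
open scoped BigOperators ComplexConjugate

namespace Pool.Agent.TR

variable {Θ Θ' : Finset T} {δ δ' N N' ε : ℝ} {v w : ℤ}

theorem mem_Bohr : w ∈ Bohr Θ δ N ↔ |(w : ℝ)| ≤ N ∧ ∀ θ ∈ Θ, ‖w • θ‖ ≤ δ := by
  rw [Bohr, mem_filter, mem_Icc, neg_le, Int.le_floor, Int.le_floor, abs_le, Int.cast_neg, neg_le]

theorem Bohr_zero_mem (hδ : 0 ≤ δ) (hN : 0 ≤ N) : (0 : ℤ) ∈ Bohr Θ δ N := by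
  exact mem_Bohr.2 ⟨by simpa using hN, fun θ _ => by simpa using hδ⟩

theorem Bohr_add (hv : v ∈ Bohr Θ δ N) (hw : w ∈ Bohr Θ δ' N') :
    v + w ∈ Bohr Θ (δ + δ') (N + N') := by
  rw [mem_Bohr] at hv hw ⊢
  refine ⟨?_, fun θ hθ => ?_⟩
  · rw [Int.cast_add]
    exact (abs_add_le _ _).trans (add_le_add hv.1 hw.1)
  · rw [add_smul]
    exact (norm_add_le _ _).trans (add_le_add (hv.2 θ hθ) (hw.2 θ hθ))

theorem Bohr_neg (hv : v ∈ Bohr Θ δ N) : -v ∈ Bohr Θ δ N := by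
  rw [mem_Bohr] at hv ⊢
  refine ⟨by rw [Int.cast_neg, abs_neg]; exact hv.1, fun θ hθ => ?_⟩
  rw [neg_smul, norm_neg]
  exact hv.2 θ hθ

theorem Bohr_sub (hv : v ∈ Bohr Θ δ N) (hw : w ∈ Bohr Θ δ' N') :
    v - w ∈ Bohr Θ (δ + δ') (N + N') := by
  rw [sub_eq_add_neg]
  exact Bohr_add hv (Bohr_neg hw)

theorem Bohr_mono (hΘ : Θ' ⊆ Θ) (hδ : δ ≤ δ') (hN : N ≤ N') : Bohr Θ δ N ⊆ Bohr Θ' δ' N' := by
  intro w hw
  rw [mem_Bohr] at hw ⊢
  exact ⟨hw.1.trans hN, fun θ hθ => (hw.2 θ (hΘ hθ)).trans hδ⟩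

theorem Bohr_nsmul (hv : v ∈ Bohr Θ δ N) (n : ℕ) : (n : ℤ) * v ∈ Bohr Θ (n * δ) (n * N) := by
  rw [mem_Bohr] at hv ⊢
  refine ⟨?_, fun θ hθ => ?_⟩
  · rw [Int.cast_mul, Int.cast_natCast, abs_mul, Nat.abs_cast]
    exact mul_le_mul_of_nonneg_left hv.1 (Nat.cast_nonneg n)
  · rw [mul_smul]
    refine (norm_zsmul_le' _ _).trans ?_
    rw [Int.cast_natCast, Nat.abs_cast]
    exact mul_le_mul_of_nonneg_left (hv.2 θ hθ) (Nat.cast_nonneg n)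

theorem card_Bohr_le (hN : 0 ≤ N) : ((Bohr Θ δ N).card : ℝ) ≤ 2 * N + 1 := by
  have h0 : 0 ≤ ⌊N⌋ := Int.floor_nonneg.2 hN
  have h1 : (Bohr Θ δ N).card ≤ (Icc (-⌊N⌋) ⌊N⌋).card := card_le_card (filter_subset _ _)
  have h2 : ((Icc (-⌊N⌋) ⌊N⌋).card : ℤ) = ⌊N⌋ + 1 - -⌊N⌋ := Int.card_Icc_of_le _ _ (by omega)
  have h3 : ((Bohr Θ δ N).card : ℤ) ≤ 2 * ⌊N⌋ + 1 := by omega
  have h4 : ((Bohr Θ δ N).card : ℝ) ≤ 2 * (⌊N⌋ : ℝ) + 1 := by exact_mod_cast h3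
  linarith [Int.floor_le N]

theorem bohrl_step {α : Type*} (S : Finset α) (ψ : α → T) (hδ : 0 < δ) (hδ1 : δ ≤ 1) :
    ∃ S' ⊆ S, δ / 2 * S.card ≤ S'.card ∧ ∀ x ∈ S', ∀ y ∈ S', ‖ψ x - ψ y‖ ≤ δ := by
  choose r hr hr' using fun x => AddCircle.eq_coe_Ico (ψ x)
  obtain ⟨m, hm⟩ : ∃ m : ℕ, m = ⌈1 / δ⌉₊ := ⟨_, rfl⟩
  have h1 : 1 ≤ m * δ := by
    rw [← div_le_iff₀ hδ, hm]
    exact Nat.le_ceil _
  have h2 : m * δ ≤ 2 := by
    have h3 : (m : ℝ) < 1 / δ + 1 := hm ▸ Nat.ceil_lt_add_one (by positivity)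
    have h4 := mul_lt_mul_of_pos_right h3 hδ
    rw [add_mul, one_div, inv_mul_cancel₀ hδ.ne'] at h4
    linarith
  have hm0 : (0 : ℝ) < m := by
    by_contra h
    nlinarith
  obtain ⟨c, -, hc⟩ := exists_le_card_fiber_of_nsmul_le_card_of_maps_to (s := S) (t := range m)
    (f := fun x => ⌊r x * m⌋₊) (b := δ / 2 * (S.card : ℝ))
    (fun x _ => mem_range.2 ((Nat.floor_lt (mul_nonneg (hr x).1 hm0.le)).2
      (mul_lt_of_lt_one_left hm0 (hr x).2)))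
    (nonempty_range_iff.2 (Nat.cast_pos.1 hm0).ne') (by
      rw [card_range, nsmul_eq_mul]
      have h5 : (0 : ℝ) ≤ S.card := Nat.cast_nonneg _
      nlinarith)
  refine ⟨_, filter_subset _ _, hc, fun x hx y hy => ?_⟩
  have hx1 := (Nat.floor_eq_iff (mul_nonneg (hr x).1 hm0.le)).1 (mem_filter.1 hx).2
  have hy1 := (Nat.floor_eq_iff (mul_nonneg (hr y).1 hm0.le)).1 (mem_filter.1 hy).2
  rw [← hr' x, ← hr' y, ← AddCircle.coe_sub]
  refine QuotientAddGroup.norm_mk_le_norm.trans ?_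
  rw [Real.norm_eq_abs, abs_le]
  constructor
  · by_contra h
    nlinarith [hx1.1, hy1.2]
  · by_contra h
    nlinarith [hx1.2, hy1.1]

/-- Pigeonhole: cut the circle into `⌈1 / δ⌉ ≤ 2 / δ` arcs of length at most `δ`; induction on `I`
(with the stronger claim: a subset of the right size whose points are pairwise close). -/
theorem pigeon {α ι : Type*} (S : Finset α) (I : Finset ι) (φ : ι → α → T) (hδ : 0 < δ)
    (hδ1 : δ ≤ 1) : ∃ S' ⊆ S, (δ / 2) ^ I.card * S.card ≤ S'.card ∧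
      ∀ x ∈ S', ∀ y ∈ S', ∀ i ∈ I, ‖φ i x - φ i y‖ ≤ δ := by
  classical
  induction I using Finset.induction_on with
  | empty => exact ⟨S, Subset.rfl, by simp, fun x _ y _ i hi => absurd hi (notMem_empty i)⟩
  | insert a I ha ih =>
    obtain ⟨S₁, h1, h2, h3⟩ := ih
    obtain ⟨S₂, h4, h5, h6⟩ := bohrl_step S₁ (φ a) hδ hδ1
    refine ⟨S₂, h4.trans h1, le_trans ?_ h5, fun x hx y hy i hi => ?_⟩
    · rw [card_insert_of_notMem ha, pow_succ', mul_assoc]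
      exact mul_le_mul_of_nonneg_left h2 (by positivity)
    · rcases mem_insert.1 hi with rfl | hi
      · exact h6 x hx y hy
      · exact h3 x (h4 hx) y (h4 hy) i hi

/-- `pigeon` on `Icc 0 ⌊N⌋`, then differences with a fixed point. -/
theorem card_Bohr_ge (hδ : 0 < δ) (hδ1 : δ ≤ 1) (hN : 0 ≤ N) :
    (δ / 2) ^ Θ.card * N ≤ (Bohr Θ δ N).card := by
  have h0 : 0 ≤ ⌊N⌋ := Int.floor_nonneg.2 hN
  obtain ⟨S', h1, h2, h3⟩ := pigeon (Icc 0 ⌊N⌋) Θ (fun θ (x : ℤ) => x • θ) hδ hδ1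
  have h4 : ((Icc 0 ⌊N⌋).card : ℤ) = ⌊N⌋ + 1 - 0 := Int.card_Icc_of_le _ _ (by omega)
  have h5 : ((Icc 0 ⌊N⌋).card : ℝ) = ⌊N⌋ + 1 := by
    rw [sub_zero] at h4
    exact_mod_cast h4
  refine le_trans (mul_le_mul_of_nonneg_left ?_ (by positivity)) (h2.trans ?_)
  · rw [h5]
    exact (Int.lt_floor_add_one N).le
  · rcases S'.eq_empty_or_nonempty with rfl | ⟨y, hy⟩
    · simp
    · refine Nat.cast_le.2 (card_le_card_of_injOn (fun x => x - y) (fun x hx => ?_)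
        fun a _ b _ h => sub_left_injective h)
      have hx1 := mem_Icc.1 (h1 hx)
      have hy1 := mem_Icc.1 (h1 hy)
      refine mem_coe.2 (mem_Bohr.2 ⟨?_, fun θ hθ => ?_⟩)
      · have h6 : |x - y| ≤ ⌊N⌋ := abs_le.2 ⟨by omega, by omega⟩
        rw [← Int.cast_abs]
        exact Int.le_floor.1 h6
      · rw [sub_smul]
        exact h3 x hx y hy θ hθ

/-- `Θ'` consists of `1 / 2` and one half of each member of `Θ`. -/
theorem exists_halving (Θ : Finset T) : ∃ Θ' : Finset T, Θ'.card ≤ Θ.card + 1 ∧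
    ∀ δ N : ℝ, δ < 1 / 2 → ∀ w ∈ Bohr Θ' δ N, ∃ w₁ ∈ Bohr Θ δ (N / 2), w = 2 * w₁ := by
  classical
  choose h hh using exists_half
  refine ⟨insert ((1 / 2 : ℝ) : T) (Θ.image h),
    (card_insert_le _ _).trans (Nat.add_le_add_right card_image_le 1), fun δ N hδ w hw => ?_⟩
  rw [mem_Bohr] at hw
  rcases Int.even_or_odd' w with ⟨k, rfl | rfl⟩
  · refine ⟨k, mem_Bohr.2 ⟨?_, fun θ hθ => ?_⟩, rfl⟩
    · have h1 := hw.1
      rw [Int.cast_mul, abs_mul, Int.cast_ofNat, abs_two] at h1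
      linarith
    · have h1 := hw.2 (h θ) (mem_insert_of_mem (mem_image_of_mem h hθ))
      rwa [mul_comm, mul_smul, hh] at h1
  · have h1 := hw.2 _ (mem_insert_self _ _)
    have h2 : (2 : ℤ) • ((1 / 2 : ℝ) : T) = 0 := by
      rw [← AddCircle.coe_zsmul, zsmul_eq_mul, Int.cast_ofNat, mul_one_div_cancel two_ne_zero,
        AddCircle.coe_period]
    rw [add_smul, mul_comm, mul_smul, h2, smul_zero, zero_add, one_smul,
      AddCircle.norm_half_period_eq, abs_one] at h1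
    exact absurd h1 hδ.not_ge

section Forms

variable {A : Type*} [AddCommGroup A] {B B' : Finset ℤ}

theorem LAdd.mono {l : ℤ → A} (h : LAdd l B) (hB : B' ⊆ B) : LAdd l B' := by
  exact fun v hv w hw => h v (hB hv) w (hB hw)

theorem LAdd.zero {l : ℤ → A} (h : LAdd l B) (h0 : (0 : ℤ) ∈ B) : l 0 = 0 := by
  have h1 := h 0 h0 0 h0
  rw [add_zero] at h1
  exact left_eq_add.1 h1

theorem LAdd.neg {l : ℤ → A} (h : LAdd l (Bohr Θ δ N)) (hv : v ∈ Bohr Θ δ N) :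
    l (-v) = -l v := by
  have h0 : (0 : ℤ) ∈ Bohr Θ δ N := by
    have h1 := mem_Bohr.1 hv
    refine mem_Bohr.2 ⟨?_, fun θ hθ => ?_⟩
    · rw [Int.cast_zero, abs_zero]
      exact (abs_nonneg _).trans h1.1
    · rw [zero_smul, norm_zero]
      exact (norm_nonneg _).trans (h1.2 θ hθ)
  have h2 := h v hv (-v) (Bohr_neg hv)
  rw [add_neg_cancel, h.zero h0] at h2
  exact (neg_eq_of_add_eq_zero_right h2.symm).symm

theorem LAdd.sub {l : ℤ → A} (h : LAdd l (Bohr Θ δ N)) (hv : v ∈ Bohr Θ δ N)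
    (hw : w ∈ Bohr Θ δ N) : l (v - w) = l v - l w := by
  rw [sub_eq_add_neg, h v hv _ (Bohr_neg hw), h.neg hw, sub_eq_add_neg]

theorem LAdd.sp {F : Finset (ℤ → A)} {k : ℕ} {l : ℤ → A} (h : ∀ a ∈ F, LAdd a B)
    (hl : l ∈ Sp F k) : LAdd l B := by
  intro v hv w hw
  have h1 := Sp_map_zero (Pi.evalAddMonoidHom (fun _ : ℤ => A) (v + w) -
    (Pi.evalAddMonoidHom (fun _ : ℤ => A) v + Pi.evalAddMonoidHom (fun _ : ℤ => A) w))
    (fun a ha => sub_eq_zero.2 (h a ha v hv w hw)) hl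
  exact sub_eq_zero.1 h1

theorem Loc.mono {l : ℤ → T} {ε' : ℝ} (h : Loc l B ε) (hB : B' ⊆ B) (hε : ε ≤ ε') :
    Loc l B' ε' := by
  exact ⟨h.add.mono hB, fun v hv w hw => (h.symm v (hB hv) w (hB hw)).trans hε⟩

theorem Loc.sp {F : Finset (ℤ → T)} {k : ℕ} {l : ℤ → T} (h : ∀ a ∈ F, Loc a B ε)
    (hl : l ∈ Sp F k) : Loc l B (k * F.card * ε) := by
  refine ⟨LAdd.sp (fun a ha => (h a ha).add) hl, fun v hv w hw => ?_⟩
  exact Sp_norm_le (w • Pi.evalAddMonoidHom (fun _ : ℤ => T) v -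
    v • Pi.evalAddMonoidHom (fun _ : ℤ => T) w) (fun a ha => (h a ha).symm v hv w hw) hl

/-- Expansion of the quadratic function `v ↦ v • l v`. -/
theorem Loc.quad {l : ℤ → T} (h : Loc l B ε) (hv : v ∈ B) (hw : w ∈ B) :
    ‖(v + w) • l (v + w) - (v • l v + w • l w + w • (2 : ℤ) • l v)‖ ≤ ε := by
  have h1 : (v + w) • l (v + w) - (v • l v + w • l w + w • (2 : ℤ) • l v) =
      v • l w - w • l v := by
    rw [h.add v hv w hw]
    module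
  rw [h1]
  exact h.symm w hw v hv

end Forms

end Pool.Agent.TR
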