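import Pool.Agent.Lib.MP_cc859a_an.TR.Scale

open Finset Filter Topology
open scoped BigOperators

namespace Pool.Agent.TR

/-- If no `j₀` works, build the jumps one after the other (induction on `N`). -/
theorem cauchy_of_jumps (a : ℕ → ℂ) {ε : ℝ} {N : ℕ} (h : ∀ K, ¬ JumpsIn a 0 K N ε) :
    ∃ j₀, ∀ j, j₀ < j → ‖a j - a j₀‖ < ε := by
  by_contra hn
  push Not at hn
  choose g h1 h2 using hn
  refine h (g^[N] 0) ⟨fun i => g^[i] 0, le_rfl, le_rfl, fun i _ => ?_⟩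
  simp only [Function.iterate_succ_apply']
  exact ⟨h1 _, h2 _⟩

theorem cauchy_norm_sum {z : ℕ → ℂ} (hz : ∀ n, ‖z n‖ ≤ 1) (s : Finset ℕ) :
    ‖∑ n ∈ s, z n‖ ≤ s.card := by
  refine (norm_sum_le _ _).trans ((sum_le_card_nsmul s _ 1 fun n _ => hz n).trans_eq ?_)
  rw [nsmul_eq_mul, mul_one]

theorem cauchy_diff {z : ℕ → ℂ} (hz : ∀ n, ‖z n‖ ≤ 1) {M N q : ℕ} (hM : 0 < M) (hq : 1 ≤ q)
    (h1 : M ≤ N) (h2 : q * N ≤ (q + 1) * M) :
    ‖(1 / (N : ℂ)) * ∑ n ∈ Icc 1 N, z n - (1 / (M : ℂ)) * ∑ n ∈ Icc 1 M, z n‖ ≤ 2 / q := by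
  obtain ⟨d, rfl⟩ := Nat.exists_eq_add_of_le h1
  have e : ∑ n ∈ Icc 1 (M + d), z n = ∑ n ∈ Icc 1 M, z n + ∑ n ∈ Ioc M (M + d), z n := by
    rw [show Icc 1 (M + d) = Ioc 0 (M + d) from rfl, show Icc 1 M = Ioc 0 M from rfl,
      sum_Ioc_consecutive _ (Nat.zero_le M) h1]
  have a1 := cauchy_norm_sum hz (Icc 1 M)
  have a2 := cauchy_norm_sum hz (Ioc M (M + d))
  rw [Nat.card_Icc, Nat.add_sub_cancel] at a1
  rw [Nat.card_Ioc, Nat.add_sub_cancel_left] at a2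
  rw [e]
  generalize ∑ n ∈ Icc 1 M, z n = S at a1
  generalize ∑ n ∈ Ioc M (M + d), z n = R at a2
  have hM' : (0 : ℝ) < M := by exact_mod_cast hM
  have hq' : (0 : ℝ) < q := by exact_mod_cast hq
  have hd : (0 : ℝ) ≤ d := Nat.cast_nonneg d
  have h3 : (q : ℝ) * (M + d) ≤ (q + 1) * M := by exact_mod_cast h2
  have b1 : (M : ℂ) ≠ 0 := by exact_mod_cast hM.ne'
  have b2 : ((M + d : ℕ) : ℂ) ≠ 0 := by exact_mod_cast (Nat.add_pos_left hM d).ne'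
  have e2 : 1 / ((M + d : ℕ) : ℂ) * (S + R) - 1 / (M : ℂ) * S =
      (M * R - d * S) / (M * ((M + d : ℕ) : ℂ)) := by
    field_simp
    push_cast
    ring
  have a3 : ‖(M : ℂ) * R - d * S‖ ≤ M * d + d * M := by
    refine (norm_sub_le _ _).trans ?_
    rw [norm_mul, norm_mul, Complex.norm_natCast, Complex.norm_natCast]
    exact add_le_add (mul_le_mul_of_nonneg_left a2 hM'.le) (mul_le_mul_of_nonneg_left a1 hd)
  rw [e2, norm_div, norm_mul, Complex.norm_natCast, Complex.norm_natCast, Nat.cast_add,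
    div_le_div_iff₀ (by positivity) hq']
  refine (mul_le_mul_of_nonneg_right a3 hq'.le).trans ?_
  nlinarith [mul_le_mul_of_nonneg_left h3 hM'.le, mul_nonneg hM'.le hd]

theorem cauchy_find {q : ℕ} (hq : 1 ≤ q) (j₀ n : ℕ) (hn : NN q j₀ ≤ n) :
    ∃ j, j₀ ≤ j ∧ NN q j ≤ n ∧ n < NN q (j + 1) := by
  induction n, hn using Nat.le_induction with
  | base => exact ⟨j₀, le_rfl, le_rfl, NN_lt_succ hq⟩
  | succ n _ ih =>
    obtain ⟨j, a, b, c⟩ := ih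
    by_cases h : n + 1 < NN q (j + 1)
    · exact ⟨j, a, by omega, h⟩
    · have := NN_lt_succ (j := j + 1) hq
      exact ⟨j + 1, by omega, by omega, by omega⟩

/-- For `NN q j ≤ N < NN q (j + 1)` the averages at `N` and at `NN q j` differ by at most `2 / q`
(`NN_succ_le`); every large `N` lies in such an interval with `j > j₀` (`NN_lt_succ`); the sequence
is Cauchy. -/
theorem tendsto_of_jumps (z : ℕ → ℂ) (hz : ∀ n, ‖z n‖ ≤ 1)
    (h : ∀ q : ℕ, 1 ≤ q → ∃ N : ℕ, ∀ K : ℕ, ¬ JumpsIn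
      (fun j => (1 / (NN q j : ℂ)) * ∑ n ∈ Icc 1 (NN q j), z n) 0 K N (1 / q)) :
    ∃ l : ℂ, Tendsto (fun N : ℕ => (1 / (N : ℂ)) * ∑ n ∈ Icc 1 N, z n) atTop (𝓝 l) := by
  refine cauchySeq_tendsto_of_complete (Metric.cauchySeq_iff'.2 fun ε hε => ?_)
  obtain ⟨m, hm⟩ := exists_nat_one_div_lt (show 0 < ε / 3 by positivity)
  have hq : 1 ≤ m + 1 := Nat.le_add_left 1 m
  obtain ⟨N, hN⟩ := h (m + 1) hq
  obtain ⟨j₀, hj⟩ := cauchy_of_jumps _ hN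
  refine ⟨NN (m + 1) j₀, fun n hn => ?_⟩
  obtain ⟨j, a, b, c⟩ := cauchy_find hq j₀ n hn
  have h1 := cauchy_diff hz ((LL_pos hq).trans_le LL_le_NN) hq b
    ((Nat.mul_le_mul_left _ c.le).trans (NN_succ_le hq))
  have h2 : ‖(1 / (NN (m + 1) j : ℂ)) * ∑ n ∈ Icc 1 (NN (m + 1) j), z n -
      (1 / (NN (m + 1) j₀ : ℂ)) * ∑ n ∈ Icc 1 (NN (m + 1) j₀), z n‖ ≤ 1 / ((m + 1 : ℕ) : ℝ) := by
    rcases a.eq_or_lt with rfl | a
    · rw [sub_self, norm_zero]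
      positivity
    · exact (hj j a).le
  rw [dist_eq_norm]
  refine (norm_sub_le_norm_sub_add_norm_sub _ _ _).trans_lt ((add_le_add h1 h2).trans_lt ?_)
  rw [Nat.cast_add, Nat.cast_one, show (2 : ℝ) / (m + 1) = 2 * (1 / (m + 1)) by ring]
  linarith

end Pool.Agent.TR
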