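import Pool.Agent.Lib.MP_cc859a_an.TR.Defs

open Finset Real
open scoped BigOperators ComplexConjugate

namespace Pool.Agent.TR

variable {M : ℕ} [NeZero M]

theorem croot_mgf {G : Type} [DecidableEq G] (A : Finset G) (f : G → ℝ) (hf : ∀ a, |f a| ≤ 1)
    (h0 : ∑ a ∈ A, f a = 0) (m : ℕ) (s : ℝ) :
    ∑ a ∈ Fintype.piFinset (fun _ : Fin m => A), exp (s * ∑ i, f (a i)) ≤
      (A.card : ℝ) ^ m * exp (m * (s ^ 2 / 2)) := by
  have h1 : ∑ a ∈ A, exp (f a * s) ≤ A.card * exp (s ^ 2 / 2) := by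
    refine (sum_le_sum fun a _ => exp_mul_le_cosh_add_mul_sinh (hf a) s).trans ?_
    rw [sum_add_distrib, ← sum_mul, h0, zero_mul, add_zero, sum_const, nsmul_eq_mul]
    exact mul_le_mul_of_nonneg_left (cosh_le_exp_half_sq s) (Nat.cast_nonneg _)
  have h2 := prod_univ_sum (fun _ : Fin m => A) fun _ a => exp (f a * s)
  rw [prod_const, card_univ, Fintype.card_fin] at h2
  have h3 : ∀ a : Fin m → G, exp (s * ∑ i, f (a i)) = ∏ i, exp (f (a i) * s) := fun a => by
    rw [← exp_sum, ← sum_mul, mul_comm]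
  simp only [h3]
  rw [← h2, exp_nat_mul, ← mul_pow]
  exact pow_le_pow_left₀ (sum_nonneg fun a _ => (exp_pos _).le) h1 m

theorem croot_markov {G : Type} (S : Finset G) (F : G → ℝ) (hF : ∀ a, 0 ≤ F a) {c : ℝ} (hc : 0 < c)
    (h : ∑ a ∈ S, F a ≤ S.card * c) : (S.card : ℝ) / 2 ≤ (S.filter fun a => F a ≤ 2 * c).card := by
  have h1 : ((S.filter fun a => ¬ F a ≤ 2 * c).card : ℝ) * (2 * c) ≤ S.card * c := by
    refine le_trans ?_ ((sum_le_sum_of_subset_of_nonneg
      (filter_subset (fun a => ¬ F a ≤ 2 * c) S) fun a _ _ => hF a).trans h)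
    rw [← nsmul_eq_mul]
    exact card_nsmul_le_sum _ _ _ fun a ha => (not_le.1 (mem_filter.1 ha).2).le
  have h2 : ((S.filter fun a => F a ≤ 2 * c).card : ℝ) + (S.filter fun a => ¬ F a ≤ 2 * c).card =
      S.card := by exact_mod_cast card_filter_add_card_filter_not _
  nlinarith

theorem croot_jensen {G : Type} (A : Finset G) (x : G → ℝ) (c : ℝ)
    (h : ∑ a ∈ A, exp (x a) ≤ A.card * exp c) : ∑ a ∈ A, x a ≤ A.card * c := by
  have h1 : ∑ a ∈ A, (x a - c + 1) ≤ ∑ a ∈ A, exp (x a) / exp c :=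
    sum_le_sum fun a _ => by
      rw [← exp_sub]
      exact add_one_le_exp _
  rw [← sum_div, sum_add_distrib, sum_sub_distrib, sum_const, sum_const, nsmul_eq_mul,
    nsmul_eq_mul] at h1
  have h2 := (div_le_iff₀ (exp_pos c)).2 h
  linarith

theorem croot_avg {m : ℕ} (S : Finset (Fin m → ZMod M)) :
    ∃ b : Fin m → ZMod M, (S.card : ℝ) / (M : ℝ) ^ m * M ≤
      (univ.filter fun t : ZMod M => (fun i => b i + t) ∈ S).card := by
  have hM : (0 : ℝ) < M := by exact_mod_cast NeZero.pos M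
  refine (exists_le_of_sum_le (s := univ) univ_nonempty
    (f := fun _ => (S.card : ℝ) / (M : ℝ) ^ m * M)
    (g := fun b : Fin m → ZMod M =>
      ((univ.filter fun t : ZMod M => (fun i => b i + t) ∈ S).card : ℝ)) (le_of_eq ?_)).imp
    fun b hb => hb.2
  have h1 : ∀ t : ZMod M, ∑ b : Fin m → ZMod M,
      (if (fun i => b i + t) ∈ S then (1 : ℝ) else 0) = S.card := fun t => by
    refine (Equiv.sum_comp (Equiv.addRight fun _ : Fin m => t)
      fun b => if b ∈ S then (1 : ℝ) else 0).trans ?_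
    simp
  simp only [card_filter, Nat.cast_sum, Nat.cast_ite, Nat.cast_one, Nat.cast_zero]
  rw [sum_comm]
  simp only [h1, sum_const, card_univ, Fintype.card_fun, Fintype.card_fin, ZMod.card, nsmul_eq_mul,
    Nat.cast_pow]
  field_simp

/-- Croot-Sisask, dense case; `φ y = 𝔼 a ∈ A, ψ (a + y)`, `α = |A| / M`. For `a : Fin m → A` let
`Z a y = (1/m) ∑ ψ (a i + y) - φ y`. The terms have mean zero and lie in `[-1, 1]`, so
`𝔼 a, exp (t Z) ≤ cosh (t/m) ^ m ≤ exp (t^2 / (2m))` (`Finset.prod_univ_sum`), and at least half of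
the tuples are good: `𝔼 y, exp (t |Z a y|) ≤ 4 exp (t^2 / (2m))`. For a good tuple Jensen gives a
mean of `|Z a ·|` over any translate of `-A` of at most `(log (4/α) + t^2/(2m)) / t`, take
`t = √(2 m log (4/α))`. Averaging over all `b : Fin m → ZMod M` gives `b` for which
`T' = {t | b + t good}` is large. For `t, t' ∈ T'`:
`φ y + Z (b+t) y = φ (y+t-t') + Z (b+t') (y+t-t')`. -/
theorem croot (A : Finset (ZMod M)) (hA : A.Nonempty) (ψ : ZMod M → ℝ)
    (hψ : ∀ x, 0 ≤ ψ x ∧ ψ x ≤ 1) {m : ℕ} (hm : 1 ≤ m) :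
    ∃ T' : Finset (ZMod M), ((A.card : ℝ) / M) ^ m / 2 * M ≤ T'.card ∧
      ∀ t ∈ T', ∀ t' ∈ T', ∀ z : ZMod M,
        𝔼 a' ∈ A, |(𝔼 a ∈ A, ψ (a + (z - a' + t - t'))) - 𝔼 a ∈ A, ψ (a + (z - a'))| ≤
          4 * √(log (4 * M / A.card) / m) := by
  have hM : (0 : ℝ) < M := by exact_mod_cast NeZero.pos M
  have hn : (0 : ℝ) < A.card := by exact_mod_cast hA.card_pos
  have hm' : (0 : ℝ) < m := by exact_mod_cast hm
  have hnM : (A.card : ℝ) ≤ M := by
    have h := card_le_univ A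
    rw [ZMod.card] at h
    exact_mod_cast h
  have hL : 0 < log (4 * M / A.card) := log_pos (by rw [lt_div_iff₀ hn]; linarith)
  have heL : exp (log (4 * M / A.card)) = 4 * M / A.card := exp_log (by positivity)
  have hr : 0 < √(log (4 * M / A.card) / m) := sqrt_pos.2 (by positivity)
  have hr2 : m * √(log (4 * M / A.card) / m) ^ 2 = log (4 * M / A.card) := by
    rw [sq_sqrt (by positivity)]
    field_simp
  generalize √(log (4 * M / A.card) / m) = r at hr hr2
  rw [← hr2] at heL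
  obtain ⟨φ, hφ⟩ : ∃ φ : ZMod M → ℝ, ∀ y, 𝔼 a ∈ A, ψ (a + y) = φ y := ⟨_, fun _ => rfl⟩
  simp only [hφ]
  have hφ1 : ∀ y, ∑ a ∈ A, ψ (a + y) = A.card * φ y := fun y => by
    rw [← hφ, expect_eq_sum_div_card]
    field_simp
  have hφ2 : ∀ y, 0 ≤ φ y ∧ φ y ≤ 1 := fun y => by
    rw [← hφ]
    exact ⟨expect_nonneg fun a _ => (hψ _).1, expect_le hA fun a _ => (hψ _).2⟩
  obtain ⟨Z, hZ⟩ : ∃ Z : (Fin m → ZMod M) → ZMod M → ℝ,
      ∀ a y, Z a y = ∑ i, (ψ (a i + y) - φ y) := ⟨_, fun _ _ => rfl⟩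
  have h1 : ∀ y s, ∑ a ∈ Fintype.piFinset (fun _ : Fin m => A), exp (s * Z a y) ≤
      (A.card : ℝ) ^ m * exp (m * (s ^ 2 / 2)) := fun y s => by
    simp only [hZ]
    refine croot_mgf A (fun a => ψ (a + y) - φ y) (fun a => abs_le.2 ⟨?_, ?_⟩) ?_ m s
    · linarith [(hψ (a + y)).1, (hφ2 y).2]
    · linarith [(hψ (a + y)).2, (hφ2 y).1]
    · rw [sum_sub_distrib, hφ1, sum_const, nsmul_eq_mul, sub_self]
  have h2 : ∑ a ∈ Fintype.piFinset (fun _ : Fin m => A), ∑ y, exp (r * |Z a y|) ≤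
      (Fintype.piFinset fun _ : Fin m => A).card * (2 * M * exp (m * (r ^ 2 / 2))) := by
    rw [sum_comm]
    refine (sum_le_card_nsmul _ _ (2 * ((A.card : ℝ) ^ m * exp (m * (r ^ 2 / 2))))
      fun y _ => ?_).trans (le_of_eq ?_)
    · have h3 := h1 y r
      have h4 := h1 y (-r)
      rw [neg_sq] at h4
      refine le_trans (sum_le_sum fun a _ => ?_) (((sum_add_distrib ..).le.trans
        (add_le_add h3 h4)).trans (two_mul _).ge)
      rcases abs_cases (Z a y) with h | h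
      · rw [h.1]
        exact le_add_of_nonneg_right (exp_pos _).le
      · rw [h.1, mul_neg, neg_mul]
        exact le_add_of_nonneg_left (exp_pos _).le
    · rw [card_univ, ZMod.card, Fintype.card_piFinset_const, nsmul_eq_mul, Nat.cast_pow]
      ring
  have h3 := croot_markov _ _ (fun a => sum_nonneg fun y _ => (exp_pos _).le) (by positivity) h2
  rw [Fintype.card_piFinset_const, Nat.cast_pow] at h3
  generalize hS : (Fintype.piFinset fun _ : Fin m => A).filter (fun a =>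
    ∑ y, exp (r * |Z a y|) ≤ 2 * (2 * M * exp (m * (r ^ 2 / 2)))) = S at h3
  have h4 : ∀ a ∈ S, ∀ w, ∑ a' ∈ A, |Z a (w - a')| ≤ 2 * A.card * m * r := fun a ha w => by
    rw [← hS] at ha
    have h5 : ∑ a' ∈ A, exp (r * |Z a (w - a')|) ≤
        A.card * exp (m * r ^ 2 + m * (r ^ 2 / 2)) := by
      refine (sum_le_sum_of_subset_of_nonneg (subset_univ A) fun y _ _ => (exp_pos _).le).trans ?_
      rw [exp_add, heL]
      refine ((Equiv.sum_comp (Equiv.subLeft w) fun y => exp (r * |Z a y|)).le.trans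
        (mem_filter.1 ha).2).trans (le_of_eq ?_)
      field_simp
      norm_num
    have h6 := croot_jensen _ _ _ h5
    rw [← mul_sum] at h6
    refine le_of_mul_le_mul_left (h6.trans ?_) hr
    have : 0 ≤ A.card * (m * r ^ 2) := by positivity
    nlinarith
  obtain ⟨b, hb⟩ := croot_avg S
  refine ⟨_, le_trans ?_ hb, fun t ht t' ht' z => ?_⟩
  · rw [div_pow, div_right_comm]
    gcongr
  · have h5 := add_le_add (h4 _ (mem_filter.1 ht).2 z) (h4 _ (mem_filter.1 ht').2 (z + t - t'))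
    rw [← sum_add_distrib] at h5
    rw [expect_eq_sum_div_card, div_le_iff₀ hn]
    refine le_of_mul_le_mul_left ?_ hm'
    rw [mul_sum]
    refine (sum_le_sum fun a' _ => ?_).trans (h5.trans (le_of_eq (by ring)))
    refine le_trans (le_of_eq ?_) (abs_sub _ _)
    rw [hZ, hZ, ← sum_sub_distrib]
    have h6 : ∀ i, ψ (b i + t + (z - a')) - φ (z - a') -
        (ψ (b i + t' + (z + t - t' - a')) - φ (z + t - t' - a')) =
          φ (z - a' + t - t') - φ (z - a') := fun i => by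
      rw [show b i + t' + (z + t - t' - a') = b i + t + (z - a') by ring,
        show z + t - t' - a' = z - a' + t - t' by ring]
      ring
    simp only [h6, sum_const, card_univ, Fintype.card_fin, nsmul_eq_mul, abs_mul, Nat.abs_cast]

end Pool.Agent.TR
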