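import Mathlib

/-! Triple averages: definitions. -/

open Finset Real
open scoped BigOperators ComplexConjugate

namespace Pool.Agent.TR

/-- The circle `R / Z`. -/
abbrev T := UnitAddCircle

/-- `exp (2 pi i t)`. -/
noncomputable def e (t : T) : ℂ := (AddCircle.toCircle t : ℂ)

/-- Fourier transform of the uniform measure on `V`. -/
noncomputable def mu (V : Finset ℤ) (θ : T) : ℂ := 𝔼 v ∈ V, e (v • θ)

open Classical in
/-- Integer combinations of the members of `F` with coefficients at most `k`. -/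
noncomputable def Sp {A : Type*} [AddCommGroup A] (F : Finset A) (k : ℕ) : Finset A :=
  (Fintype.piFinset fun _ : F => Icc (-(k : ℤ)) k).image fun c => ∑ a : F, c a • (a : A)

open Classical in
/-- Bohr sets in the integers. -/
noncomputable def Bohr (Θ : Finset T) (δ N : ℝ) : Finset ℤ :=
  (Icc (-⌊N⌋) ⌊N⌋).filter fun w => ∀ θ ∈ Θ, ‖w • θ‖ ≤ δ

/-- `V` is almost invariant under shifts from `U`. -/
def Reg (V U : Finset ℤ) (ζ : ℝ) : Prop :=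
  V.Nonempty ∧ ∃ V₀ V₁ : Finset ℤ, V₀ ⊆ V ∧ V ⊆ V₁ ∧ (∀ v ∈ V₀, ∀ u ∈ U, v + u ∈ V) ∧
    (∀ v ∈ V, ∀ u ∈ U, v + u ∈ V₁) ∧ (V₁.card : ℝ) ≤ (1 + ζ) * V₀.card

/-- Additive on `B`. -/
def LAdd {A : Type*} [Add A] (l : ℤ → A) (B : Finset ℤ) : Prop :=
  ∀ v ∈ B, ∀ w ∈ B, l (v + w) = l v + l w

/-- Additive and almost symmetric on `B`. -/
structure Loc (l : ℤ → T) (B : Finset ℤ) (ε : ℝ) : Prop where
  add : LAdd l B
  symm : ∀ v ∈ B, ∀ w ∈ B, ‖w • l v - v • l w‖ ≤ ε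

/-- The bias of the form `(v, w) ↦ 2 w l(v)` on `V`. -/
noncomputable def bias (V : Finset ℤ) (l : ℤ → T) : ℝ :=
  𝔼 v ∈ V, 𝔼 v' ∈ V, ‖mu V ((2 : ℤ) • l v - (2 : ℤ) • l v')‖ ^ 2

/-- A Bohr set, local forms on it and an exceptional set. -/
structure Data where
  Θ : Finset T
  F : Finset (ℤ → T)
  δ : ℝ
  N : ℝ
  ε : ℝ
  Bad : Finset ℤ

/-- The Bohr set of the data. -/
noncomputable def Data.B (D : Data) : Finset ℤ := Bohr D.Θ D.δ D.N

/-- The Bohr set of the data, shrunk by the factor 10. -/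
noncomputable def Data.Sm (D : Data) : Finset ℤ := Bohr D.Θ (D.δ / 10) (D.N / 10)

/-- The forms are additive and almost symmetric. -/
def Data.OK (D : Data) : Prop := 0 ≤ D.δ ∧ 0 ≤ D.N ∧ 0 ≤ D.ε ∧ ∀ l ∈ D.F, Loc l D.B D.ε

/-- A function with a quadratic label and a linear label. -/
structure Atom where
  γ : ℤ → ℂ
  Λ : ℤ → ℤ → T
  t : ℤ → T

/-- Locally the function is the phase given by its labels. -/
structure IsAtom (D : Data) (k : ℕ) (η : ℝ) (a : Atom) : Prop where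
  norm_le : ∀ y, ‖a.γ y‖ ≤ 1
  mem : ∀ y, a.Λ y ∈ Sp D.F k
  lab : ∀ y ∉ D.Bad, ∀ u ∈ D.B, a.Λ (y + u) = a.Λ y
  lin : ∀ y ∉ D.Bad, ∀ u ∈ D.B, a.t (y + u) = a.t y + (2 : ℤ) • a.Λ y u
  val : ∀ y ∉ D.Bad, ∀ u ∈ D.B, ‖a.γ (y + u) - a.γ y * e (u • a.t y + u • a.Λ y u)‖ ≤ η

/-- A sum of at most `P` atoms. -/
def IsSum (D : Data) (k : ℕ) (η : ℝ) (P : ℝ) (G : ℤ → ℂ) : Prop :=
  ∃ (ι : Type) (_ : Fintype ι) (a : ι → Atom), (Fintype.card ι : ℝ) ≤ P ∧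
    (∀ i, IsAtom D k η (a i)) ∧ ∀ y, G y = ∑ i, (a i).γ y

/-- The triple average. -/
noncomputable def Av (N : ℕ) (u : Fin 3 → ℤ → ℂ) (x : ℤ) : ℂ :=
  𝔼 n ∈ Icc (1 : ℤ) N, u 0 (x + n) * u 1 (x + 2 * n) * u 2 (x + 3 * n)

/-- Grid lengths. -/
def LL (q j : ℕ) : ℕ := q * 2 ^ (j / q)

/-- Averaging lengths. -/
def NN (q j : ℕ) : ℕ := 2 ^ (j / q) * (q + j % q)

/-- Grid intervals. -/
noncomputable def node (L : ℕ) (i : ℤ) : Finset ℤ := Ico (i * L) ((i + 1) * L)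

/-- Enlarged grid intervals. -/
noncomputable def star (L : ℕ) (i : ℤ) : Finset ℤ := Ico (i * L) ((i + 7) * L)

/-- `J` jumps of size `h` between the indices `a` and `b`. -/
def JumpsIn (f : ℕ → ℂ) (a b J : ℕ) (h : ℝ) : Prop :=
  ∃ j : ℕ → ℕ, a ≤ j 0 ∧ j J ≤ b ∧ ∀ i < J, j i < j (i + 1) ∧ h ≤ ‖f (j (i + 1)) - f (j i)‖

/-- A sum of at most `P` triple averages of atoms. -/
def IsTri (D : Data) (k : ℕ) (η : ℝ) (P : ℝ) (q : ℕ) (Δ : ℕ → ℤ → ℂ) : Prop :=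
  ∃ (ι : Type) (_ : Fintype ι) (τ : ι → Fin 3 → Atom), (Fintype.card ι : ℝ) ≤ P ∧
    (∀ i σ, IsAtom D k η (τ i σ)) ∧ ∀ j x, Δ j x = ∑ i, Av (NN q j) (fun σ => (τ i σ).γ) x

section Cyclic

variable {M : ℕ} [NeZero M]

/-- The standard embedding of `Z / M` in the circle. -/
noncomputable def ch (x : ZMod M) : T := ZMod.toAddCircle x

/-- Fourier coefficients on `Z / M`. -/
noncomputable def ft (f : ZMod M → ℂ) (ξ : ZMod M) : ℂ := 𝔼 x, f x * e (-ch (ξ * x))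

/-- Multiplicative derivative. -/
noncomputable def dd (h : ZMod M) (g : ZMod M → ℂ) (x : ZMod M) : ℂ := g (x + h) * conj (g x)

open Classical in
/-- Bohr sets in `Z / M`. -/
noncomputable def ZB (Λ : Finset (ZMod M)) (δ : ℝ) : Finset (ZMod M) :=
  univ.filter fun v => ∀ l ∈ Λ, ‖ch (l * v)‖ ≤ δ

/-- Number of additive quadruples in the graph of `ξ` over `S`. -/
def nquad (S : Finset (ZMod M)) (ξ : ZMod M → ZMod M) : ℕ :=
  (((S ×ˢ S) ×ˢ (S ×ˢ S)).filter fun z =>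
    z.1.1 - z.1.2 = z.2.1 - z.2.2 ∧ ξ z.1.1 - ξ z.1.2 = ξ z.2.1 - ξ z.2.2).card

/-- A function on a finite set of integers, moved to `Z / M`. -/
noncomputable def push (P : Finset ℤ) (a : ℤ → ℂ) (r : ZMod M) : ℂ :=
  ∑ p ∈ P.filter fun p : ℤ => (p : ZMod M) = r, a p

end Cyclic

end Pool.Agent.TR
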