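import Pool.Agent.Lib.MP_cc859a_an.TR.Defs

open Finset Real
open scoped BigOperators ComplexConjugate

namespace Pool.Agent.TR

/-- The exceptional set has density at most `s / 6` in every interval that starts at `x`. -/
def NZ (Bad : Finset ℤ) (s : ℝ) (x : ℤ) : Prop :=
  ∀ n : ℕ, (((Ioc x (x + n)).filter (· ∈ Bad)).card : ℝ) ≤ s / 6 * n

open Classical in
/-- No bumps at isolated scales between `a` and `b`. -/
def RangeP (Bad : Finset ℤ) (q a b : ℕ) (K h ρ : ℝ) (Δ : ℕ → ℤ → ℂ) : Prop :=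
  ∀ (i : ℤ) (B : ℕ → Finset ℤ), (∀ j, ((B j).card : ℝ) ≤ ρ * LL q b) →
    ∀ Z ⊆ node (LL q b) i,
      (∀ x ∈ Z, ∃ k k', a ≤ k ∧ k < k' ∧ k' ≤ b ∧ 2 * h ≤ ‖Δ k x - Δ k' x‖ ∧
        ∀ j, k ≤ j → j < k' → x ∈ B j) →
      (Z.card : ℝ) ≤ LL q b / K +
        3 * ((node (LL q b) i).filter fun x => ¬ NZ Bad (1 / (1200 * K ^ 2)) x).card

/-- Few jumps between `a` and `b`. -/
def JumpP (Bad : Finset ℤ) (q a b n : ℕ) (K h : ℝ) (Δ : ℕ → ℤ → ℂ) : Prop :=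
  ∀ (i : ℤ), ∀ Z ⊆ node (LL q b) i,
    (∀ x ∈ Z, NZ Bad (1 / (1200 * K ^ 2)) x ∧ JumpsIn (fun j => Δ j x) a b n h) →
    (Z.card : ℝ) ≤ LL q b / K

end Pool.Agent.TR
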