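import Pool.Agent.Lib.MP_cc859a_an.TR.Defs

open Finset Real
open scoped BigOperators ComplexConjugate

namespace Pool.Agent.TR

/-- The Bohr set of radius `δ` and length `δ M`. -/
noncomputable abbrev BM (M : ℕ) (Θ : Finset T) (δ : ℝ) : Finset ℤ := Bohr Θ δ (δ * M)

/-- An affine map on a translate of a Bohr set of `Z / M`. -/
structure Pz (M : ℕ) where
  Λ : Finset (ZMod M)
  δ : ℝ
  l : ZMod M → ZMod M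
  a : ZMod M
  c : ZMod M

/-- Local forms that describe the large spectra of the derivatives. -/
structure Qd (M : ℕ) where
  F : Finset (ℤ → T)
  Cs : Finset T
  t : ℕ
  Θ : Finset T
  δ : ℝ
  h : ZMod M
  S : Finset ℤ
  Ω : Finset ℤ

/-- A window on which the forms are almost orthogonal. -/
structure Win (M : ℕ) where
  V₁ : Finset ℤ
  V : Finset ℤ
  S : Finset ℤ
  Θ : Finset T
  δ : ℝ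
  h : ZMod M
  L : Finset (ℤ → T)

variable {M : ℕ} [NeZero M]

/-- Spectral mass of the derivative. -/
noncomputable def muh (g : ZMod M → ℂ) (h ξ : ZMod M) : ℝ := ‖ft (dd h g) ξ‖ ^ 2

/-- `g` near `y`, divided by the quadratic phase of `l`. -/
noncomputable def Gq (g : ZMod M → ℂ) (l : ℤ → T) (y : ZMod M) (z : ℤ) : ℂ :=
  g (y + z) * e (-(z • l z))

/-- Many derivatives have mass `κ` on a set of small dimension. -/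
def H1 (g : ZMod M → ℂ) (κ X : ℝ) : Prop :=
  ∃ S : Finset (ZMod M), exp (-X) * M ≤ S.card ∧
    ∀ h ∈ S, ∃ Λ : Finset (ZMod M), (Λ.card : ℝ) ≤ X ∧ κ ≤ ∑ ξ ∈ Sp Λ 1, muh g h ξ

/-- The value of the affine map. -/
def Pz.val (p : Pz M) (h : ZMod M) : ZMod M := p.c + p.l (h - p.a)

/-- The domain of the affine map. -/
def Pz.dom (p : Pz M) (h : ZMod M) : Prop := h - p.a ∈ ZB p.Λ (p.δ / 2)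

/-- Bounds for a piece. -/
def Pz.OK (p : Pz M) (X : ℝ) : Prop :=
  (p.Λ.card : ℝ) ≤ X ∧ exp (-X) ≤ p.δ ∧
    ∀ v ∈ ZB p.Λ p.δ, ∀ w ∈ ZB p.Λ p.δ, p.l (v + w) = p.l v + p.l w

/-- The large spectra are covered by few pieces. -/
def Cov (g : ZMod M → ℂ) (κ X : ℝ) : Prop :=
  ∃ (P : Finset (Pz M)) (S : Finset (ZMod M)), (P.card : ℝ) ≤ exp X ∧ (∀ p ∈ P, p.OK X) ∧
    exp (-X) * M ≤ S.card ∧ ∀ h ∈ S, ∃ Λ W : Finset (ZMod M), (Λ.card : ℝ) ≤ X ∧ W ⊆ Sp Λ 1 ∧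
      κ / 2 ≤ ∑ ξ ∈ W, muh g h ξ ∧
      ∀ ξ ∈ W, exp (-X) ≤ muh g h ξ ∧ ∃ p ∈ P, p.dom h ∧ p.val h = ξ

/-- The large spectra are spanned by the values of the same pieces. -/
def Pick (g : ZMod M → ℂ) (κ X : ℝ) : Prop :=
  ∃ (s : ℕ) (f : Fin s → Pz M) (S : Finset (ZMod M)), (s : ℝ) ≤ X ∧ (∀ j, (f j).OK X) ∧
    exp (-X) * M ≤ S.card ∧ ∀ h ∈ S, (∀ j, (f j).dom h ∧ exp (-X) ≤ muh g h ((f j).val h)) ∧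
      ∃ W : Finset (ZMod M), κ / 2 ≤ ∑ ξ ∈ W, muh g h ξ ∧
        ∀ ξ ∈ W, ∃ a : Fin s → ℤ, (∀ j, |a j| ≤ 1) ∧ ξ = ∑ j, a j • (f j).val h

/-- The same on one Bohr set of integers. -/
def H2 (g : ZMod M → ℂ) (κ X : ℝ) : Prop :=
  ∃ (s : ℕ) (Θ : Finset T) (δ : ℝ) (h₀ : ZMod M) (c : Fin s → ZMod M) (l : Fin s → ℤ → ZMod M)
    (S : Finset ℤ), (s : ℝ) ≤ X ∧ (Θ.card : ℝ) ≤ X ∧ exp (-X) ≤ δ ∧ δ ≤ 1 ∧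
    (∀ j, LAdd (l j) (BM M Θ δ)) ∧ S ⊆ BM M Θ (δ / 4) ∧ exp (-X) * M ≤ S.card ∧
    ∀ v ∈ S, (∀ j, exp (-X) ≤ muh g (h₀ + v) (c j + l j v)) ∧
      ∃ W : Finset (ZMod M), κ / 2 ≤ ∑ ξ ∈ W, muh g (h₀ + v) ξ ∧
        ∀ ξ ∈ W, ∃ a : Fin s → ℤ, (∀ j, |a j| ≤ 1) ∧ ξ = ∑ j, a j • (c j + l j v)

/-- After symmetrisation: outer level `X`, inner level `R`, precision `ε`. -/
structure Qd.OK (Q : Qd M) (g : ZMod M → ℂ) (κ X R ε : ℝ) : Prop where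
  card_F : (Q.F.card : ℝ) ≤ X
  card_Cs : (Q.Cs.card : ℝ) ≤ X
  t_le : (Q.t : ℝ) ≤ X
  card_Θ : (Q.Θ.card : ℝ) ≤ R
  δ_ge : exp (-R) ≤ Q.δ
  δ_le : Q.δ ≤ 1 / 100
  loc : ∀ l ∈ Q.F, Loc l (BM M Q.Θ (4 * Q.δ)) ε
  add : ∀ l ∈ Q.F, ∀ x ∈ Q.Ω, ∀ v ∈ BM M Q.Θ Q.δ, l (x + v) = l x + l v
  sub : ∀ x ∈ Q.S, ∀ v ∈ BM M Q.Θ Q.δ, x - v ∈ Q.Ω
  card_Ω : (Q.Ω.card : ℝ) ≤ 2 * M
  card_S : exp (-X) * M ≤ Q.S.card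
  cover : ∀ v ∈ Q.S, ∃ W : Finset (ZMod M), κ / 2 ≤ ∑ ξ ∈ W, muh g (Q.h + v) ξ ∧
    ∀ ξ ∈ W, ∃ c ∈ Sp Q.Cs Q.t, ∃ l ∈ Sp Q.F Q.t, ch ξ = c + (2 : ℤ) • l v

/-- The state of the chain: the members of `D` are trivial on a Bohr set. -/
def StL (Q : Qd M) (E R : ℝ) (D : Finset (ℤ → T)) : Prop :=
  ∃ (Θ : Finset T) (δ : ℝ), (Θ.card : ℝ) ≤ R + 17 * E * D.card ∧
    exp (-(R + 72 * E * D.card)) ≤ δ ∧ δ ≤ Q.δ ∧ BM M Θ δ ⊆ BM M Q.Θ Q.δ ∧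
    ∀ m ∈ D, ∀ v ∈ BM M Θ δ, ∀ w ∈ BM M Θ δ, ‖w • (2 : ℤ) • m v‖ ≤ exp (-E)

/-- The end of the chain. -/
structure Win.OK (W : Win M) (g : ZMod M → ℂ) (Ls : Finset (ℤ → T)) (B₀ : Finset ℤ)
    (κ η γ ζ R : ℝ) : Prop where
  V₁_sub : W.V₁ ⊆ B₀
  V_sub : W.V ⊆ B₀
  V₂_sub : BM M W.Θ W.δ ⊆ W.V
  S_sub : W.S ⊆ W.V₁
  dens : η * W.V₁.card ≤ W.S.card
  reg₁ : Reg W.V₁ W.V ζ
  reg : Reg W.V (BM M W.Θ (2 * W.δ)) ζ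
  card_Θ : (W.Θ.card : ℝ) ≤ R
  δ_ge : exp (-R) ≤ W.δ
  δ_le : W.δ ≤ 1
  L_sub : W.L ⊆ Ls
  gauss : ∀ l ∈ W.L, ∀ l' ∈ W.L, l ≠ l' → ∀ ξ : T,
    ‖𝔼 v ∈ W.V, e (v • (l - l') v + v • ξ)‖ ≤ γ
  mass : ∀ h' ∈ W.S, κ / 4 ≤ ∑ l ∈ W.L, 𝔼 y : ZMod M,
    ‖𝔼 v ∈ W.V, dd (W.h + ((h' : ℤ) : ZMod M)) g (y + ((v : ℤ) : ZMod M)) *
      e (-(v • (2 : ℤ) • l h'))‖ ^ 2

/-- Local correlation with quadratic phases. -/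
def H4 (g : ZMod M → ℂ) (Ls : Finset (ℤ → T)) (V : Finset ℤ) (c : ℝ) : Prop :=
  ∃ (lab : ZMod M → ℤ → T) (ξ : ZMod M → T), (∀ Y, lab Y ∈ Ls) ∧
    c ≤ 𝔼 Y : ZMod M,
      ‖𝔼 w ∈ V, g (Y + ((w : ℤ) : ZMod M)) * e (-(w • lab Y w + w • ξ Y))‖

/-- The conclusion on `Z / M`: correlation `c`, precision `exp (-X)`, complexity `R`. -/
def Out (g : ZMod M → ℂ) (c X R : ℝ) : Prop :=
  ∃ (Θ : Finset T) (F : Finset (ℤ → T)) (t : ℕ) (δ ε : ℝ) (V B : Finset ℤ),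
    (Θ.card : ℝ) ≤ R ∧ (F.card : ℝ) ≤ R ∧ (t : ℝ) ≤ R ∧ exp (-R) ≤ δ ∧ δ ≤ 1 ∧ 0 ≤ ε ∧
    ε ≤ exp (-X) ∧ 7 * (t * F.card * ε) ≤ exp (-X) ∧ Reg V (BM M Θ δ) (exp (-X)) ∧ V ⊆ B ∧
    BM M Θ δ ⊆ B ∧ (∀ l ∈ F, Loc l B ε) ∧ (∀ w ∈ V, 10 * |w| ≤ M) ∧ H4 g (Sp F t) V c

end Pool.Agent.TR
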