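import Pool.Agent.Lib.MP_cc859a_an.TR.Dich
import Pool.Agent.Lib.MP_cc859a_an.TR.Scale
import Pool.Agent.Lib.MP_cc859a_an.TR.Num
import Pool.Agent.Lib.MP_cc859a_an.TR.Defs2

open Finset Real
open scoped BigOperators ComplexConjugate

namespace Pool.Agent.TR

/-- A kernel, a test set and a class of trivial forms that are regular from the length `Na` to the
length `Nb`, with precision `s` and gap `2 ^ g`. -/
structure Rng (D : Data) (k : ℕ) (s : ℝ) (g Na Nb : ℕ) where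
  n : ℕ
  φ : Fin n → T
  χ : ℤ → ℝ
  U : Set ℤ
  V : Finset ℤ
  Triv : (ℤ → T) → Prop
  p₀ : ℝ
  n_pos : 0 < n
  s_pos : 0 < s
  s_le : s ≤ 1 / 200
  ab : Na ≤ Nb
  χ_eq : ∀ w, (χ w : ℂ) = 𝔼 i, e (w • φ i)
  χ_nonneg : ∀ w, 0 ≤ χ w
  χ_off : ∀ w ∉ U, χ w ≤ s * p₀
  p₀_le : p₀ * n ≤ {i | φ i = 0}.ncard
  gap : 100 ≤ 2 ^ g * s * p₀
  big : ((2 : ℝ) ^ g) ^ 3 ≤ Na
  zero_mem : 0 ∈ U
  r1 : ∀ i j : Fin 4 → Fin n, ‖∑ a, φ (i a) - ∑ a, φ (j a)‖ * Nb * (2 ^ g) ^ 2 ≤ 1 ∨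
    (2 ^ g) ^ 3 ≤ ‖∑ a, φ (i a) - ∑ a, φ (j a)‖ * Na
  r2 : ∀ w ∈ U, |w| ≤ Nb → w ∈ D.Sm
  triv : ∀ l, Triv l → ∀ v ∈ U, ∀ w ∈ U, |v| ≤ Nb → |w| ≤ Nb →
    ‖w • (2 : ℤ) • l v‖ ≤ s ∧ ‖w • l w‖ ≤ s
  r3 : ∀ l ∈ Sp D.F (14 * k), Triv l ∨ bias V l ≤ s ^ 4
  V_ne : V.Nonempty
  V_sm : ∀ u ∈ V, u ∈ D.Sm ∧ 100 * 2 ^ g * |(u : ℝ)| ≤ Na ∧ ∀ i, ‖u • φ i‖ ≤ 1 / 100

/-- The quadratic label in the direction `n`. -/
def bb (τ : Fin 3 → Atom) (x n : ℤ) : ℤ → T :=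
  (τ 0).Λ (x + n) + (4 : ℤ) • (τ 1).Λ (x + 2 * n) + (9 : ℤ) • (τ 2).Λ (x + 3 * n)

/-- The mixed label. -/
def bm (τ : Fin 3 → Atom) (x n : ℤ) : ℤ → T :=
  (τ 0).Λ (x + n) + (2 : ℤ) • (τ 1).Λ (x + 2 * n) + (3 : ℤ) • (τ 2).Λ (x + 3 * n)

/-- The linear label. -/
def Xi (τ : Fin 3 → Atom) (x n : ℤ) : T :=
  (τ 0).t (x + n) + (2 : ℤ) • (τ 1).t (x + 2 * n) + (3 : ℤ) • (τ 2).t (x + 3 * n)

/-- The product of the three values. -/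
def Pr (τ : Fin 3 → Atom) (x n : ℤ) : ℂ :=
  (τ 0).γ (x + n) * (τ 1).γ (x + 2 * n) * (τ 2).γ (x + 3 * n)

/-- The average of a triple of atoms. -/
noncomputable def At (N : ℕ) (τ : Fin 3 → Atom) (x : ℤ) : ℂ := Av N (fun σ => (τ σ).γ) x

/-- The three points are off the exceptional set. -/
def Good (D : Data) (x n : ℤ) : Prop := x + n ∉ D.Bad ∧ x + 2 * n ∉ D.Bad ∧ x + 3 * n ∉ D.Bad

open Classical in
/-- The `n` that are not good for `x`. -/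
noncomputable def badN (D : Data) (x : ℤ) (N : ℕ) : Finset ℤ :=
  (Icc (1 : ℤ) N).filter fun n => ¬ Good D x n

theorem mem_badN {D : Data} {x n : ℤ} {N : ℕ} :
    n ∈ badN D x N ↔ n ∈ Icc (1 : ℤ) N ∧ ¬ Good D x n := by
  simp only [badN, mem_filter]

/-- Admissible triples of atoms. -/
structure Adm (D : Data) (k : ℕ) (s : ℝ) (τ : Fin 3 → Atom) : Prop where
  ok : D.OK
  eps : 14 * k * D.F.card * D.ε ≤ s
  atom : ∀ σ, IsAtom D k s (τ σ)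

namespace Rng

variable {D : Data} {k : ℕ} {s : ℝ} {g Na Nb : ℕ} (R : Rng D k s g Na Nb)

/-- The probability of a tiny frequency. -/
noncomputable def sg : ℝ := ({i | ‖R.φ i‖ * Nb * (2 ^ g) ^ 2 ≤ 1}.ncard : ℝ) / R.n

/-- The weight at the length `N`. -/
noncomputable def W (N : ℕ) (w : ℤ) : ℝ := R.χ w / (R.sg * N)

/-- Its Fourier transform. -/
noncomputable def Wh (N : ℕ) (ξ : T) : ℂ := ∑ w ∈ Icc (1 : ℤ) N, (R.W N w : ℂ) * e (w • ξ)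

/-- The distance to the frequencies of the kernel. -/
noncomputable def ep (ξ : T) : ℝ := ⨅ i, ‖ξ + R.φ i‖

/-- The frequency `ξ` is critical at the length `N`. -/
def Crit (N : ℕ) (ξ : T) : Prop := 1 ≤ 2 ^ g * (N * R.ep ξ) ∧ N * R.ep ξ ≤ 2 ^ g

/-- The short length. -/
noncomputable def N1 (_ : Rng D k s g Na Nb) : ℕ := ⌊s * Na⌋₊

/-- The long length. -/
noncomputable def N2 (_ : Rng D k s g Na Nb) : ℕ := ⌊s * Nb⌋₊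

open Classical in
/-- The part of the product with a trivial quadratic label. -/
noncomputable def Pt (τ : Fin 3 → Atom) (x n : ℤ) : ℂ :=
  if R.Triv (bb τ x n) then Pr τ x n else 0

open Classical in
/-- The far `n` over `x`. -/
noncomputable def far (τ : Fin 3 → Atom) (x : ℤ) : Finset ℤ :=
  (Icc (1 : ℤ) R.N1).filter fun n =>
    Good D x n ∧ ¬ R.Triv (bm τ x n) ∧ 1 / 2 ≤ ‖mu R.V (Xi τ x n)‖

theorem mem_far {τ : Fin 3 → Atom} {x n : ℤ} : n ∈ R.far τ x ↔ n ∈ Icc (1 : ℤ) R.N1 ∧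
    Good D x n ∧ ¬ R.Triv (bm τ x n) ∧ 1 / 2 ≤ ‖mu R.V (Xi τ x n)‖ := by
  simp only [far, mem_filter]

open Classical in
/-- The `n` whose frequency is critical at some scale from `j` to `j'`. -/
noncomputable def hit (q : ℕ) (τ : Fin 3 → Atom) (x : ℤ) (j j' : ℕ) : Finset ℤ :=
  (Icc (1 : ℤ) R.N1).filter fun n => ∃ m, j ≤ m ∧ m ≤ j' ∧ R.Crit (NN q m) (Xi τ x n)

theorem mem_hit {q : ℕ} {τ : Fin 3 → Atom} {x n : ℤ} {j j' : ℕ} : n ∈ R.hit q τ x j j' ↔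
    n ∈ Icc (1 : ℤ) R.N1 ∧ ∃ m, j ≤ m ∧ m ≤ j' ∧ R.Crit (NN q m) (Xi τ x n) := by
  simp only [hit, mem_filter]

open Classical in
/-- The weight, for the long length, of the `v` with a given property. -/
noncomputable def wt (P : ℤ → Prop) : ℝ := ∑ v ∈ (Icc (1 : ℤ) R.N2).filter P, R.W R.N2 v

/-- The weight of the `v` such that `x + v` is exceptional near a critical scale of `(x, n)`. -/
noncomputable def Y (q a b : ℕ) (B : ℕ → Finset ℤ) (τ : Fin 3 → Atom) (x n : ℤ) : ℝ :=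
  R.wt fun v => ∃ m, a ≤ m ∧ m ≤ b ∧ R.Crit (NN q m) (Xi τ x n) ∧
    (x + v ∈ B m ∨ x + v ∈ B (m - 1))

end Rng

/-- A vertex of a cube with directions `(1, -1)`, `(2, -1)`, `(3, -1)`. -/
def vert (z : ℤ × ℤ) (h : Fin 3 × Bool → ℤ) (ω : Fin 3 → Bool) : ℤ × ℤ :=
  (z.1 + ∑ i : Fin 3, (((i : ℕ) : ℤ) + 1) * h (i, ω i), z.2 - ∑ i : Fin 3, h (i, ω i))

/-- The side lengths. -/
noncomputable def sides (H : ℕ) : Finset (Fin 3 × Bool → ℤ) :=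
  Fintype.piFinset fun _ => Icc (1 : ℤ) H

/-- The cubes with base point in `Z` and all vertices in `Ω`. -/
noncomputable def cubes (Z Ω : Finset (ℤ × ℤ)) (H : ℕ) : Finset ((ℤ × ℤ) × (Fin 3 × Bool → ℤ)) :=
  (Z ×ˢ sides H).filter fun c => ∀ ω, vert c.1 c.2 ω ∈ Ω

/-- The even vertices. -/
def ev : Fin 4 → Fin 3 → Bool :=
  ![![false, false, false], ![false, true, true], ![true, false, true], ![true, true, false]]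

/-- The odd vertices. -/
def od : Fin 4 → Fin 3 → Bool :=
  ![![true, true, true], ![true, false, false], ![false, true, false], ![false, false, true]]

/-- The parameters of the chain. -/
structure Pm where
  X : ℝ
  E : ℝ
  T₀ : ℝ
  T₁ : ℝ
  r : ℝ
  Ld : ℝ
  P : ℝ
  p : ℕ
  g : ℕ
  w : ℕ

/-- The inequalities between the parameters. -/
structure Pm.OK (c : Pm) : Prop where
  hX : 2 ≤ c.X
  hE : 10 ≤ c.E
  hXE : 4 * c.X ≤ c.E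
  hp : 1 ≤ c.p
  hT₀ : 8 * c.X ^ 2 + 3 * c.X * log (28 * c.X + 1) ≤ c.T₀
  hr : c.X + 3 * c.E * c.T₀ ≤ c.r
  hLd : c.X + 3 + 13 * c.E * c.T₀ ≤ c.Ld
  h1 : 200 * c.r * c.p ≤ exp c.E
  h2 : c.Ld + c.E ≤ exp c.E
  h3 : c.T₀ ≤ exp (c.E - c.X)
  hT₁ : 8 * c.r ^ 2 + 3 * c.r * (c.Ld + log (32 * c.p + 1)) ≤ c.T₁
  hP : c.r * (c.Ld + log (2 * c.p + 1)) ≤ c.P
  hpP : c.X + c.P ≤ c.p
  hg : 100 * exp (c.X + c.P) ≤ 2 ^ c.g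
  hw₁ : 100 * 2 ^ c.g * exp (12 * c.E) ≤ 2 ^ c.w
  hw₂ : (2 ^ c.g) ^ 5 * c.T₁ ≤ 2 ^ c.w

/-- The data fit the parameters. -/
structure Fit (c : Pm) (D : Data) (k : ℕ) : Prop where
  ok : D.OK
  hΘ : (D.Θ.card : ℝ) ≤ c.X
  hF : (D.F.card : ℝ) ≤ c.X
  hk : (k : ℝ) ≤ c.X
  hδ : exp (-c.X) ≤ D.δ
  hδ1 : D.δ ≤ 1

/-- A state of the chain. -/
structure St where
  Θ : Finset T
  δ : ℝ
  Dl : Finset (ℤ → T)
  DΘ : Finset T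

/-- The size of the coefficients of the kernel. -/
noncomputable def St.M (σ : St) (c : Pm) : ℕ := ⌈1 / σ.δ⌉₊ * c.p

/-- The rank of a state. -/
noncomputable def St.rank (σ : St) (c : Pm) : ℕ := σ.Dl.card * (⌊c.T₁⌋₊ + 1) + σ.DΘ.card

/-- The state is valid up to the length `N`. -/
structure Valid (c : Pm) (D : Data) (k : ℕ) (σ : St) (N : ℕ) : Prop where
  δ_le : σ.δ ≤ 1
  δ_ge : exp (-(c.X + 3 + 13 * c.E * σ.Dl.card)) ≤ σ.δ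
  card_Θ : (σ.Θ.card : ℝ) ≤ c.X + 3 * c.E * σ.Dl.card
  sub : Bohr σ.Θ σ.δ N ⊆ D.Sm
  Dl_sub : σ.Dl ⊆ Sp D.F (14 * k)
  Dl_dis : AddDissociated (σ.Dl : Set (ℤ → T))
  Dl_triv : ∀ l ∈ σ.Dl, ∀ v ∈ Bohr σ.Θ σ.δ N, ∀ w ∈ Bohr σ.Θ σ.δ N,
    ‖w • (2 : ℤ) • l v‖ ≤ exp (-c.E) ∧ ‖w • l w‖ ≤ exp (-c.E)
  DΘ_sub : σ.DΘ ⊆ Sp σ.Θ (8 * σ.M c)
  DΘ_dis : AddDissociated (σ.DΘ : Set T)
  DΘ_tiny : ∀ ψ ∈ σ.DΘ, ‖ψ‖ * N * (2 ^ c.g) ^ 2 * c.T₁ ≤ 1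

/-- Nothing new is seen at the length `N`. -/
def Full (c : Pm) (D : Data) (k : ℕ) (σ : St) (N : ℕ) : Prop :=
  (∀ ψ ∈ Sp σ.Θ (8 * σ.M c), ψ ∉ Sp σ.DΘ 1 → (2 ^ c.g) ^ 3 ≤ ‖ψ‖ * N) ∧
    ∃ V ⊆ Bohr σ.Θ (exp (-c.E) * σ.δ) (N / (100 * 2 ^ c.g)), V.Nonempty ∧
      ∀ l ∈ Sp D.F (14 * k), l ∉ Sp σ.Dl 1 → bias V l ≤ exp (-c.E)

end Pool.Agent.TR
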