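import Pool.Agent.Lib.MP_cc859a_an.TR.RegL

open Finset Real
open scoped BigOperators ComplexConjugate

namespace Pool.Agent.TR

theorem dich_set {V W : Finset ℤ} {l : ℤ → T} {ζ γ : ℝ} (hR : Reg V W ζ) (hγ : 0 < γ)
    (hb : γ < bias V l) : ∃ A ⊆ V, γ / 2 * V.card ≤ A.card ∧ ∀ a ∈ A, ∀ a' ∈ A, ∀ w ∈ W,
      ‖w • ((2 : ℤ) • l a - (2 : ℤ) • l a')‖ ≤ 2 * (ζ / γ) := by
  classical
  rw [bias, expect_comm] at hb
  obtain ⟨v', -, h⟩ := exists_lt_of_lt_expect hR.1 hb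
  have hc : (0 : ℝ) < V.card := Nat.cast_pos.2 hR.1.card_pos
  have h1 : ∀ θ, ‖mu V θ‖ ^ 2 ≤ ‖mu V θ‖ := fun θ =>
    pow_le_of_le_one (norm_nonneg _) (norm_mu_le V θ) two_ne_zero
  have h2 : ∀ θ, γ / 2 ≤ ‖mu V θ‖ ^ 2 → ∀ w ∈ W, ‖w • θ‖ ≤ ζ / γ := fun θ hθ w hw => by
    have h3 : ‖mu V θ‖ * ‖w • θ‖ ≤ ζ / 2 := hR.small hw (fun x => e (x • θ))
      (fun x => (norm_e _).le) fun v _ => by rw [add_zsmul, e_add]
    have h4 := mul_le_mul_of_nonneg_right (hθ.trans (h1 θ)) (norm_nonneg (w • θ))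
    rw [le_div_iff₀ hγ]
    linarith
  refine ⟨V.filter fun v => γ / 2 ≤ ‖mu V ((2 : ℤ) • l v - (2 : ℤ) • l v')‖ ^ 2, filter_subset _ _,
    ?_, fun a ha a' ha' w hw => ?_⟩
  · rw [expect_eq_sum_div_card, lt_div_iff₀ hc] at h
    have h3 : ∑ v ∈ V, ‖mu V ((2 : ℤ) • l v - (2 : ℤ) • l v')‖ ^ 2 ≤
        ∑ v ∈ V, (γ / 2 + if γ / 2 ≤ ‖mu V ((2 : ℤ) • l v - (2 : ℤ) • l v')‖ ^ 2 then 1 else 0) :=
      sum_le_sum fun v _ => by
        split_ifs with h4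
        · linarith [(h1 _).trans (norm_mu_le V ((2 : ℤ) • l v - (2 : ℤ) • l v'))]
        · linarith
    rw [sum_add_distrib, sum_const, sum_boole, nsmul_eq_mul] at h3
    linarith
  · have h3 := h2 _ (mem_filter.1 ha).2 w hw
    have h4 := h2 _ (mem_filter.1 ha').2 w hw
    rw [← sub_sub_sub_cancel_right _ _ ((2 : ℤ) • l v'), smul_sub]
    linarith [norm_sub_le (w • ((2 : ℤ) • l a - (2 : ℤ) • l v'))
      (w • ((2 : ℤ) • l a' - (2 : ℤ) • l v'))]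

theorem dich_sum {U B : Finset ℤ} {l : ℤ → T} {n : ℕ} (hl : LAdd l B)
    (hU : ∀ S ⊆ U, S.card ≤ n → ∑ x ∈ S, x ∈ B) (S : Finset ℤ) (hS : S ⊆ U) (hn : S.card ≤ n) :
    l (∑ x ∈ S, x) = ∑ x ∈ S, l x := by
  induction S using Finset.induction_on with
  | empty => exact hl.zero (by simpa using hU ∅ (empty_subset _) n.zero_le)
  | insert x S hx ih =>
    rw [card_insert_of_notMem hx] at hn
    have h1 := (subset_insert x S).trans hS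
    have h2 := hU {x} (singleton_subset_iff.2 (hS (mem_insert_self x S)))
      (by rw [card_singleton]; omega)
    rw [sum_singleton] at h2
    rw [sum_insert hx, sum_insert hx, hl _ h2 _ (hU S h1 (by omega)), ih h1 (by omega)]

theorem dich_diff (g : ℤ → T) {S P Q : Finset ℤ} (hP : P ⊆ S) (hQ : Q ⊆ S) {r : ℝ} (hr : 0 ≤ r)
    (h : ∀ x ∈ S, ‖g x‖ ≤ r) : ‖∑ x ∈ P, g x - ∑ x ∈ Q, g x‖ ≤ S.card * r := by
  have h1 : ∀ R ⊆ S, ‖∑ x ∈ R, g x‖ ≤ R.card * r := fun R hR => by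
    simpa using norm_sum_le_of_le R fun x hx => h x (hR hx)
  have h2 : (P \ Q).card + (Q \ P).card ≤ S.card := by
    rw [← card_union_of_disjoint disjoint_sdiff_sdiff]
    exact card_le_card (union_subset (sdiff_subset.trans hP) (sdiff_subset.trans hQ))
  rw [← sum_sdiff_sub_sum_sdiff]
  refine (norm_sub_le _ _).trans ((add_le_add (h1 _ (sdiff_subset.trans hP))
    (h1 _ (sdiff_subset.trans hQ))).trans ?_)
  rw [← add_mul]
  exact mul_le_mul_of_nonneg_right (by exact_mod_cast h2) hr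

theorem dich_comb {U W : Finset ℤ} {L : ℤ → T} {c : ℝ} {s : ℕ} (hc : 0 ≤ c)
    (h : ∀ S ⊆ U, S.card = s + 1 → ∃ P ⊆ S, ∃ Q ⊆ S, P ≠ Q ∧
      ∀ w ∈ W, ‖∑ x ∈ P, w • L x - ∑ x ∈ Q, w • L x‖ ≤ c) :
    ∃ S ⊆ U, S.card ≤ s ∧ ∀ r : ℝ, 0 ≤ r → ∀ v ∈ U, ∀ w ∈ W,
      (∀ x ∈ S, ‖w • L x‖ ≤ r) → ‖w • L v‖ ≤ c + s * r := by
  classical
  obtain ⟨S, hS, hm⟩ := exists_max_image (U.powerset.filter fun S => S.card ≤ s + 1 ∧
    ¬ ∃ P ⊆ S, ∃ Q ⊆ S, P ≠ Q ∧ ∀ w ∈ W, ‖∑ x ∈ P, w • L x - ∑ x ∈ Q, w • L x‖ ≤ c) card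
    ⟨∅, by simp⟩
  obtain ⟨h1, h2, h3⟩ := mem_filter.1 hS
  rw [mem_powerset] at h1
  have h4 : S.card ≤ s := by
    by_contra h4
    exact h3 (h S h1 (by omega))
  refine ⟨S, h1, h4, fun r hr v hv w hw h5 => ?_⟩
  have h6 : (S.card : ℝ) * r ≤ s * r := mul_le_mul_of_nonneg_right (Nat.cast_le.2 h4) hr
  by_cases h7 : v ∈ S
  · have h8 := dich_diff (fun x => w • L x) (singleton_subset_iff.2 h7) (empty_subset S) hr h5
    rw [sum_singleton, sum_empty, sub_zero] at h8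
    linarith
  obtain ⟨P, hP, Q, hQ, h8, h9⟩ : ∃ P ⊆ insert v S, ∃ Q ⊆ insert v S, P ≠ Q ∧
      ∀ w ∈ W, ‖∑ x ∈ P, w • L x - ∑ x ∈ Q, w • L x‖ ≤ c := by
    by_contra h8
    have h9 := hm (insert v S) (mem_filter.2 ⟨mem_powerset.2 (insert_subset hv h1),
      by rw [card_insert_of_notMem h7]; omega, h8⟩)
    rw [card_insert_of_notMem h7] at h9
    omega
  have key : ∀ P ⊆ insert v S, ∀ Q ⊆ insert v S, v ∈ P → v ∉ Q →
      ‖∑ x ∈ P, w • L x - ∑ x ∈ Q, w • L x‖ ≤ c → ‖w • L v‖ ≤ c + s * r := by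
    intro P hP Q hQ hvP hvQ h10
    have h11 := dich_diff (fun x => w • L x) (subset_insert_iff.1 hP)
      ((subset_insert_iff_of_notMem hvQ).1 hQ) hr h5
    rw [← add_sum_erase _ _ hvP, add_sub_assoc] at h10
    linarith [norm_le_add_norm_add (w • L v) (∑ x ∈ P.erase v, w • L x - ∑ x ∈ Q, w • L x)]
  by_cases hvP : v ∈ P <;> by_cases hvQ : v ∈ Q
  · refine absurd ⟨P.erase v, subset_insert_iff.1 hP, Q.erase v, subset_insert_iff.1 hQ,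
      fun h10 => h8 ?_, fun w hw => ?_⟩ h3
    · rw [← insert_erase hvP, h10, insert_erase hvQ]
    · have h10 := h9 w hw
      rwa [← add_sum_erase _ _ hvP, ← add_sum_erase _ _ hvQ, add_sub_add_left_eq_sub] at h10
  · exact key P hP Q hQ hvP hvQ (h9 w hw)
  · exact key Q hQ P hP hvQ hvP ((norm_sub_rev _ _).trans_le (h9 w hw))
  · exact absurd ⟨P, (subset_insert_iff_of_notMem hvP).1 hP, Q,
      (subset_insert_iff_of_notMem hvQ).1 hQ, h8, h9⟩ h3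

/-- Paper D5. `γ = exp (-E)`. -/
theorem dich {V W U B : Finset ℤ} {l : ℤ → T} {ζ γ : ℝ} {s : ℕ} (hl : LAdd l B) (hV : V ⊆ B)
    (hW : W ⊆ B) (hR : Reg V W ζ) (hζ : ζ ≤ 1) (hγ : 0 < γ) (hγ1 : γ ≤ 1) (hb : γ < bias V l)
    (hs : 4 / γ < 2 ^ (s + 1)) (hU : ∀ S ⊆ U, S.card ≤ s + 1 → ∑ x ∈ S, x ∈ W) :
    ∃ S ⊆ U, S.card ≤ s ∧ ∀ r : ℝ, 0 ≤ r → ∀ v ∈ U, ∀ w ∈ W,
      (∀ x ∈ S, ‖w • (2 : ℤ) • l x‖ ≤ r) → ‖w • (2 : ℤ) • l v‖ ≤ 2 * (ζ / γ) + s * r := by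
  obtain ⟨A, hA, h1, h2⟩ := dich_set hR hγ hb
  obtain ⟨hne, V₀, V₁, h3, h4, -, h5, h6⟩ := hR
  have hc : (0 : ℝ) < V.card := Nat.cast_pos.2 hne.card_pos
  have h7 : (V₀.card : ℝ) ≤ V.card := Nat.cast_le.2 (card_le_card h3)
  have h8 : (V.card : ℝ) ≤ V₁.card := Nat.cast_le.2 (card_le_card h4)
  have h9 : (0 : ℝ) ≤ V₀.card := Nat.cast_nonneg _
  have hζ0 : 0 ≤ ζ := by
    rcases h9.eq_or_lt with h | h
    · rw [← h] at h6
      linarith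
    · exact nonneg_of_mul_nonneg_left (by linarith) h
  refine dich_comb (L := fun x => (2 : ℤ) • l x) (by positivity) fun S hS hn => ?_
  have h10 : ∀ P ⊆ S, ∑ x ∈ P, x ∈ W := fun P hP =>
    hU P (hP.trans hS) ((card_le_card hP).trans hn.le)
  have h11 : V₁.card < (S.powerset ×ˢ A).card := by
    rw [card_product, card_powerset, hn, ← Nat.cast_lt (α := ℝ)]
    push_cast
    rw [div_lt_iff₀ hγ] at hs
    have h12 := mul_le_mul_of_nonneg_left h1 (by positivity : (0 : ℝ) ≤ 2 ^ (s + 1))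
    nlinarith
  obtain ⟨⟨P, a⟩, hx, ⟨Q, a'⟩, hy, h12, h13⟩ := exists_ne_map_eq_of_card_lt_of_maps_to h11
    (f := fun z => z.2 + ∑ x ∈ z.1, x) fun z hz =>
      h5 _ (hA (mem_product.1 hz).2) _ (h10 _ (mem_powerset.1 (mem_product.1 hz).1))
  obtain ⟨hP, ha⟩ := mem_product.1 hx
  obtain ⟨hQ, ha'⟩ := mem_product.1 hy
  rw [mem_powerset] at hP hQ
  have h14 : ∀ P ⊆ S, ∀ a ∈ A, l (a + ∑ x ∈ P, x) = l a + ∑ x ∈ P, l x := fun P hP a ha => by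
    rw [hl _ (hV (hA ha)) _ (hW (h10 P hP)), dich_sum hl (fun S h h' => hW (hU S h h')) P
      (hP.trans hS) ((card_le_card hP).trans hn.le)]
  refine ⟨P, hP, Q, hQ, ?_, fun w hw => ?_⟩
  · rintro rfl
    exact h12 (Prod.ext rfl (add_right_cancel h13))
  · have h15 := congrArg l h13
    rw [h14 P hP a ha, h14 Q hQ a' ha', ← eq_sub_iff_add_eq'] at h15
    have h16 := h2 a' ha' a ha w hw
    rw [← smul_sum, ← smul_sum, ← smul_sum, ← smul_sum, h15, ← smul_sub, ← smul_sub,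
      sub_right_comm, add_sub_cancel_right]
    rwa [← smul_sub] at h16

theorem dich_bsum {Θ : Finset T} {δ N : ℝ} (S : Finset ℤ) (h : S ⊆ Bohr Θ δ N) :
    ∑ x ∈ S, x ∈ Bohr Θ (S.card * δ) (S.card * N) := by
  induction S using Finset.induction_on with
  | empty => simpa using Bohr_zero_mem le_rfl le_rfl
  | insert x S hx ih =>
    rw [sum_insert hx, card_insert_of_notMem hx, Nat.cast_succ, add_one_mul, add_one_mul,
      add_comm x]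
    exact Bohr_add (ih ((subset_insert x S).trans h)) (h (mem_insert_self x S))

theorem dich_exp (E : ℝ) (n : ℕ) : exp (-n * E) = exp (-E) ^ n := by
  rw [← exp_nat_mul, neg_mul, mul_neg]

theorem dich_y {E : ℝ} (hE : 10 ≤ E) : exp (-E) ≤ 1 / 36 ∧ (E + 1) * exp (-E) ≤ 1 := by
  have h1 : exp E * exp (-E) = 1 := by rw [← exp_add, add_neg_cancel, exp_zero]
  have h2 : exp E = exp (E / 2) * exp (E / 2) := by rw [← exp_add, add_halves]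
  have h3 := add_one_le_exp (E / 2)
  have h4 := add_one_le_exp E
  have h5 := exp_pos (-E)
  have h6 : 36 ≤ exp E := by nlinarith
  constructor <;> nlinarith

theorem dich_two {E : ℝ} (hE : 10 ≤ E) : 4 / exp (-E) < 2 ^ (⌊2 * E⌋₊ + 1) := by
  have h1 : (2 : ℝ) ^ (⌊2 * E⌋₊ + 1) = exp ((⌊2 * E⌋₊ + 1 : ℕ) * log 2) := by
    rw [exp_nat_mul, exp_log two_pos]
  have h2 : (4 : ℝ) = exp (2 * log 2) := by
    rw [show (2 : ℝ) * log 2 = (2 : ℕ) * log 2 by norm_num, exp_nat_mul, exp_log two_pos]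
    norm_num
  have h3 := Nat.lt_floor_add_one (2 * E)
  have h4 := log_two_gt_d9
  have h5 := log_two_lt_d9
  rw [h1, h2, ← exp_sub, exp_lt_exp]
  push_cast
  nlinarith

/-- `exists_reg'` gives `V` and `W = Bohr Θ (exp (-5 E) δ) (exp (-5 E) N)`, `ζ = exp (-2 E)`;
apply it with `2 E` in place of `E` so that `ζ / γ ≤ exp (-3 E)`; `s ≤ 2 E`, `U` is `W` shrunk by
`s + 1`; add the frequencies `2 l x`, `x ∈ S`, then `exists_halving`; `w • l w = w • 2 • l w₁`. -/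
theorem dich_bohr (Θ : Finset T) {δ N E : ℝ} (hE : 10 ≤ E) (hΘ : (Θ.card : ℝ) ≤ exp E)
    (hδ : exp (-exp E) ≤ δ) (hδ1 : δ ≤ 1) (hN : 1 ≤ N) :
    ∃ V ⊆ Bohr Θ δ N, V.Nonempty ∧ ∀ l : ℤ → T, LAdd l (Bohr Θ δ N) → exp (-E) < bias V l →
      ∃ Θ' : Finset T, (Θ'.card : ℝ) ≤ Θ.card + 3 * E ∧
        Bohr Θ' (exp (-12 * E) * δ) (exp (-12 * E) * N) ⊆ Bohr Θ δ N ∧
        ∀ v ∈ Bohr Θ' (exp (-12 * E) * δ) (exp (-12 * E) * N),
          ∀ w ∈ Bohr Θ' (exp (-12 * E) * δ) (exp (-12 * E) * N),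
            ‖w • (2 : ℤ) • l v‖ ≤ exp (-E) ∧ ‖w • l w‖ ≤ exp (-E) := by
  classical
  obtain ⟨hy1, hy2⟩ := dich_y hE
  have hy0 := exp_pos (-E)
  have hδ0 : 0 < δ := (exp_pos _).trans_le hδ
  have hN0 : 0 < N := one_pos.trans_le hN
  have hEE : exp E ≤ exp (2 * E) := exp_le_exp.2 (by linarith)
  obtain ⟨t, -, ht, hR⟩ := exists_reg' Θ (E := 2 * E) (by linarith) (hΘ.trans hEE)
    ((exp_le_exp.2 (neg_le_neg hEE)).trans hδ) hδ1 hN
  have e1 : exp (-5 * (2 * E)) = exp (-E) ^ 10 := by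
    rw [← dich_exp]
    congr 1
    push_cast
    ring
  have e2 : exp (-2 * (2 * E)) = exp (-E) ^ 4 := by
    rw [← dich_exp]
    congr 1
    push_cast
    ring
  have e3 : exp (-12 * E) = exp (-E) ^ 12 := by simpa using dich_exp E 12
  have h2s := dich_two hE
  have hs : (⌊2 * E⌋₊ : ℝ) ≤ 2 * E := Nat.floor_le (by linarith)
  rw [e1, e2] at hR
  rw [e3]
  generalize ⌊2 * E⌋₊ = s at h2s hs
  generalize exp (-E) = y at *
  have hy3 : y ≤ 1 := by linarith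
  have hp : ∀ n : ℕ, y ^ n ≤ 1 := fun n => pow_le_one₀ hy0.le hy3
  have hV : Bohr Θ (t * δ) (t * N) ⊆ Bohr Θ δ N := Bohr_mono subset_rfl
    (mul_le_of_le_one_left hδ0.le ht) (mul_le_of_le_one_left hN0.le ht)
  have hW : Bohr Θ (y ^ 10 * δ) (y ^ 10 * N) ⊆ Bohr Θ δ N := Bohr_mono subset_rfl
    (mul_le_of_le_one_left hδ0.le (hp 10)) (mul_le_of_le_one_left hN0.le (hp 10))
  have hk : ((s : ℝ) + 1) * (2 * y ^ 12) ≤ y ^ 10 := by
    have h1 : ((s : ℝ) + 1) * y ≤ 2 := by nlinarith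
    have h2 : ((s : ℝ) + 1) * y * (2 * y) ≤ 1 := by nlinarith
    calc ((s : ℝ) + 1) * (2 * y ^ 12) = ((s : ℝ) + 1) * y * (2 * y) * y ^ 10 := by ring
      _ ≤ y ^ 10 := mul_le_of_le_one_left (by positivity) h2
  have hU : ∀ S ⊆ Bohr Θ (2 * y ^ 12 * δ) (2 * y ^ 12 * N), S.card ≤ s + 1 →
      ∑ x ∈ S, x ∈ Bohr Θ (y ^ 10 * δ) (y ^ 10 * N) := fun S hS hn => by
    have h1 : (S.card : ℝ) * (2 * y ^ 12) ≤ y ^ 10 :=
      (mul_le_mul_of_nonneg_right (by exact_mod_cast hn) (by positivity)).trans hk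
    refine Bohr_mono subset_rfl ?_ ?_ (dich_bsum S hS) <;> rw [← mul_assoc]
    · exact mul_le_mul_of_nonneg_right h1 hδ0.le
    · exact mul_le_mul_of_nonneg_right h1 hN0.le
  have hUW : Bohr Θ (2 * y ^ 12 * δ) (2 * y ^ 12 * N) ⊆ Bohr Θ (y ^ 10 * δ) (y ^ 10 * N) :=
    fun x hx => by simpa using hU {x} (singleton_subset_iff.2 hx) (by simp)
  refine ⟨_, hV, hR.1, fun l hl hb => ?_⟩
  obtain ⟨S, -, hS, h1⟩ := dich hl hV hW hR (hp 4) hy0 hy3 hb h2s hU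
  obtain ⟨Θ', h2, h3⟩ := exists_halving (Θ ∪ S.image fun x => (2 : ℤ) • l x)
  have hyδ : 0 ≤ y ^ 12 * δ := by positivity
  have hyN : 0 ≤ y ^ 12 * N := by positivity
  have h4 : y ^ 12 * δ ≤ y ^ 12 := mul_le_of_le_one_right (by positivity) hδ1
  have h5 : y ^ 12 ≤ y := pow_le_of_le_one hy0.le hy3 (by norm_num)
  have h6 : ∀ w ∈ Bohr Θ' (y ^ 12 * δ) (y ^ 12 * N),
      w ∈ Bohr (Θ ∪ S.image fun x => (2 : ℤ) • l x) (2 * y ^ 12 * δ) (2 * y ^ 12 * N) ∧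
      ∃ w₁ ∈ Bohr (Θ ∪ S.image fun x => (2 : ℤ) • l x) (2 * y ^ 12 * δ) (2 * y ^ 12 * N),
        w = w₁ + w₁ := fun w hw => by
    obtain ⟨w₁, h6, h7⟩ := h3 _ _ (by linarith) w hw
    rw [two_mul] at h7
    exact ⟨h7 ▸ Bohr_mono subset_rfl (by linarith) (by linarith) (Bohr_add h6 h6), w₁,
      Bohr_mono subset_rfl (by linarith) (by linarith) h6, h7⟩
  have h7 : Bohr (Θ ∪ S.image fun x => (2 : ℤ) • l x) (2 * y ^ 12 * δ) (2 * y ^ 12 * N) ⊆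
      Bohr Θ (2 * y ^ 12 * δ) (2 * y ^ 12 * N) := Bohr_mono subset_union_left le_rfl le_rfl
  have h8 : ∀ v ∈ Bohr (Θ ∪ S.image fun x => (2 : ℤ) • l x) (2 * y ^ 12 * δ) (2 * y ^ 12 * N),
      ∀ w ∈ Bohr (Θ ∪ S.image fun x => (2 : ℤ) • l x) (2 * y ^ 12 * δ) (2 * y ^ 12 * N),
        ‖w • (2 : ℤ) • l v‖ ≤ y := fun v hv w hw => by
    refine (h1 (2 * y ^ 12) (by positivity) v (h7 hv) w (hUW (h7 hw)) fun x hx =>
      ((mem_Bohr.1 hw).2 _ (mem_union_right _ (mem_image_of_mem _ hx))).trans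
        (by linarith)).trans ?_
    have h8 : y ^ 4 / y = y ^ 3 := by field_simp
    have h9 : y ^ 10 ≤ y ^ 3 := pow_le_pow_of_le_one hy0.le hy3 (by norm_num)
    have h10 : y ^ 3 ≤ y ^ 2 := pow_le_pow_of_le_one hy0.le hy3 (by norm_num)
    have h11 : 0 ≤ y ^ 12 := by positivity
    rw [h8]
    nlinarith
  refine ⟨Θ', ?_, fun w hw => hW (hUW (h7 (h6 w hw).1)), fun v hv w hw =>
    ⟨h8 v (h6 v hv).1 w (h6 w hw).1, ?_⟩⟩
  · have h9 : Θ'.card ≤ Θ.card + s + 1 := h2.trans (Nat.succ_le_succ ((card_union_le _ _).trans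
      (Nat.add_le_add_left (card_image_le.trans hS) _)))
    have h10 : (Θ'.card : ℝ) ≤ Θ.card + s + 1 := by exact_mod_cast h9
    linarith
  · obtain ⟨h9, w₁, h10, h11⟩ := h6 w hw
    have h12 := hW (hUW (h7 h10))
    have h13 : l w = (2 : ℤ) • l w₁ := by rw [h11, hl _ h12 _ h12, two_zsmul]
    rw [h13]
    exact h8 w₁ h10 w h9

theorem dich_near {V : Finset ℤ} {a b : ℤ → ℤ → ℂ} {c : ℝ} (hc : 0 ≤ c)
    (h : ∀ u ∈ V, ∀ u' ∈ V, ‖a u u' - b u u'‖ ≤ c) :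
    ‖𝔼 u ∈ V, 𝔼 u' ∈ V, a u u'‖ ≤ ‖𝔼 u ∈ V, 𝔼 u' ∈ V, b u u'‖ + c := by
  have h1 : ‖(𝔼 u ∈ V, 𝔼 u' ∈ V, a u u') - 𝔼 u ∈ V, 𝔼 u' ∈ V, b u u'‖ ≤ c := by
    rw [← expect_sub_distrib]
    refine norm_expect_le' _ _ hc fun u hu => ?_
    rw [← expect_sub_distrib]
    exact norm_expect_le' _ _ hc (h u hu)
  linarith [norm_le_norm_add_norm_sub' (𝔼 u ∈ V, 𝔼 u' ∈ V, a u u') (𝔼 u ∈ V, 𝔼 u' ∈ V, b u u')]

theorem dich_gauss {V W V' B : Finset ℤ} {l : ℤ → T} {ξ : T} {ε b : ℝ} (hε : 0 ≤ ε) (hb : 0 ≤ b)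
    (hR : Reg V W ε) (hl : Loc l B ε) (h0 : V'.Nonempty) (h1 : V ⊆ B) (h2 : V' ⊆ B)
    (h3 : ∀ v ∈ V, ∀ u ∈ V', v + u ∈ B) (h4 : ∀ u ∈ V', ∀ u' ∈ V', u' + u ∈ W)
    (h5 : bias V' l ≤ b ^ 4) : ‖𝔼 v ∈ V, e (v • l v + v • ξ)‖ ≤ b + 9 * ε := by
  obtain ⟨F, hF⟩ : ∃ F : ℤ → ℂ, ∀ v, F v = e (v • l v + v • ξ) := ⟨_, fun _ => rfl⟩
  simp only [← hF]
  have h6 : ∀ v ∈ V, ‖𝔼 u ∈ V', 𝔼 u' ∈ V', F (v + (u' + u))‖ ≤ b + 7 * ε := fun v hv => by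
    have h6 := (bias_b1 V' l (fun u => e (u • l u + u • (2 : ℤ) • l v + u • ξ))
      (fun u' => F (v + u')) (fun _ => (norm_e _).le)
      fun _ => by rw [hF]; exact (norm_e _).le).trans h5
    refine (dich_near (by positivity) fun u hu u' hu' => ?_).trans
      (add_le_add_left (le_of_pow_le_pow_left₀ (by norm_num) hb h6) _)
    have h7 := hl.quad (h3 v hv u' hu') (h2 hu)
    rw [hF, hF, ← e_add, ← e_add, ← add_assoc v]
    refine (norm_e_sub_e _ _).trans (mul_le_mul_of_nonneg_left (le_of_eq_of_le ?_ h7) (by norm_num))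
    congr 1
    rw [hl.add v (h1 hv) u' (h2 hu'), add_zsmul ξ, smul_add (2 : ℤ), smul_add u]
    abel
  have h7 := norm_expect_le' V _ (by positivity) h6
  rw [expect_comm] at h7
  simp only [expect_comm V] at h7
  have h8 := dich_near (V := V') (a := fun _ _ => 𝔼 v ∈ V, F v)
    (b := fun u u' => 𝔼 v ∈ V, F (v + (u' + u))) (by positivity : 0 ≤ 2 * ε) fun u hu u' hu' =>
      (norm_sub_rev _ _).trans_le (hR.shift (h4 u hu u' hu') F fun _ => by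
        rw [hF]; exact (norm_e _).le)
  simp only [expect_const h0] at h8
  linarith

/-- The version for Gauss sums. Shift `v` by `u + u'` with `u, u'` in the set `V'` that `dich_bohr`
gives for `(Θ, exp (-5 E) δ / 2, exp (-5 E) N / 2)` and `5 E`; `Loc.quad` twice and `bias_b1` give
`bias V' l ≥ (exp (-E) / 2) ^ 4 > exp (-5 E)`. -/
theorem gauss_bohr (Θ : Finset T) {δ N E t : ℝ} (hE : 10 ≤ E) (hΘ : (Θ.card : ℝ) ≤ exp E)
    (hδ : exp (-exp E) ≤ δ) (hδ1 : δ ≤ 1) (hN : 2 * exp (5 * E) ≤ N) (ht : t ≤ 1)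
    (hR : Reg (Bohr Θ (t * δ) (t * N)) (Bohr Θ (exp (-5 * E) * δ) (exp (-5 * E) * N))
      (exp (-2 * E))) {l : ℤ → T} (hl : Loc l (Bohr Θ (2 * δ) (2 * N)) (exp (-2 * E))) {ξ : T}
    (h : exp (-E) < ‖𝔼 v ∈ Bohr Θ (t * δ) (t * N), e (v • l v + v • ξ)‖) :
    ∃ Θ' : Finset T, (Θ'.card : ℝ) ≤ Θ.card + 15 * E ∧
      Bohr Θ' (exp (-66 * E) * δ) (exp (-66 * E) * N) ⊆ Bohr Θ δ N ∧
      ∀ v ∈ Bohr Θ' (exp (-66 * E) * δ) (exp (-66 * E) * N),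
        ∀ w ∈ Bohr Θ' (exp (-66 * E) * δ) (exp (-66 * E) * N),
          ‖w • (2 : ℤ) • l v‖ ≤ exp (-E) := by
  obtain ⟨hy1, hy2⟩ := dich_y hE
  have hy0 := exp_pos (-E)
  have hδ0 : 0 < δ := (exp_pos _).trans_le hδ
  have hN0 : 0 < N := by linarith [exp_pos (5 * E)]
  have e1 : exp (-5 * E) = exp (-E) ^ 5 := by simpa using dich_exp E 5
  have e2 : exp (-2 * E) = exp (-E) ^ 2 := by simpa using dich_exp E 2
  have e3 : exp (-66 * E) = exp (-E) ^ 66 := by simpa using dich_exp E 66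
  have e4 : exp (-12 * (5 * E)) = exp (-E) ^ 60 := by
    rw [← dich_exp]
    congr 1
    push_cast
    ring
  have e5 : exp (-(5 * E)) = exp (-E) ^ 5 := by rw [← e1, neg_mul]
  have h1 : exp (-exp (5 * E)) ≤ exp (-5 * E) * δ / 2 := by
    have h1 : exp (5 * E) = exp (4 * E) * exp E := by
      rw [← exp_add]
      congr 1
      ring
    have h2 := add_one_le_exp (4 * E)
    have h3 := add_one_le_exp E
    have h4 : exp (-exp (5 * E)) ≤ exp (-5 * E) * exp (-exp E) * exp (-E) := by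
      rw [← exp_add, ← exp_add, exp_le_exp, h1]
      nlinarith
    refine h4.trans ?_
    rw [div_eq_mul_one_div]
    gcongr
    linarith
  have h2 : 1 ≤ exp (-5 * E) * N / 2 := by
    have h2 : exp (-5 * E) * exp (5 * E) = 1 := by rw [← exp_add, neg_mul, neg_add_cancel, exp_zero]
    nlinarith [exp_pos (-5 * E)]
  have hy3 : exp (-E) ^ 5 ≤ 1 := pow_le_one₀ hy0.le (by linarith)
  have h3 : exp (-E) ^ 5 * δ ≤ δ := mul_le_of_le_one_left hδ0.le hy3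
  have h4 : exp (-E) ^ 5 * N ≤ N := mul_le_of_le_one_left hN0.le hy3
  obtain ⟨V', hV, h0, h5⟩ := dich_bohr Θ (E := 5 * E) (by linarith)
    (hΘ.trans (exp_le_exp.2 (by linarith))) h1 (by rw [e1]; linarith) h2
  rw [e1, e4, e5] at h5
  rw [e1] at hV
  rw [e1, e2] at hR
  rw [e2] at hl
  rw [e3]
  generalize exp (-E) = y at *
  have h6 : t * δ ≤ δ := mul_le_of_le_one_left hδ0.le ht
  have h7 : t * N ≤ N := mul_le_of_le_one_left hN0.le ht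
  have h8 : Bohr Θ (y ^ 5 * δ / 2) (y ^ 5 * N / 2) ⊆ Bohr Θ δ N :=
    Bohr_mono subset_rfl (by linarith) (by linarith)
  have h9 : Bohr Θ δ N ⊆ Bohr Θ (2 * δ) (2 * N) := Bohr_mono subset_rfl (by linarith) (by linarith)
  obtain ⟨Θ', h10, h11, h12⟩ := h5 l (hl.add.mono (h8.trans h9)) (by
    by_contra hb
    have h10 := dich_gauss (ξ := ξ) (b := y / 2) (by positivity) (by positivity) hR hl h0
      ((Bohr_mono subset_rfl h6 h7).trans h9) (hV.trans (h8.trans h9))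
      (fun v hv u hu => Bohr_mono subset_rfl (by linarith) (by linarith) (Bohr_add hv (h8 (hV hu))))
      (fun u hu u' hu' => by simpa using Bohr_add (hV hu') (hV hu))
      ((not_lt.1 hb).trans (by nlinarith [pow_pos hy0 4]))
    nlinarith)
  have h13 : y ^ 66 ≤ y ^ 60 * y ^ 5 / 2 := by nlinarith [pow_pos hy0 65]
  have h14 : Bohr Θ' (y ^ 66 * δ) (y ^ 66 * N) ⊆
      Bohr Θ' (y ^ 60 * (y ^ 5 * δ / 2)) (y ^ 60 * (y ^ 5 * N / 2)) :=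
    Bohr_mono subset_rfl (by nlinarith) (by nlinarith)
  exact ⟨Θ', by linarith, h14.trans (h11.trans h8), fun v hv w hw =>
    (h12 v (h14 hv) w (h14 hw)).1.trans (pow_le_of_le_one hy0.le (by linarith) (by norm_num))⟩

end Pool.Agent.TR
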