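import Pool.Agent.Lib.MP_cc859a_an.TR.Defs

open Finset Real
open scoped BigOperators ComplexConjugate

namespace Pool.Agent.TR

theorem e_add (a b : T) : e (a + b) = e a * e b := by
  rw [e, AddCircle.toCircle_add, Circle.coe_mul, e, e]

theorem e_zero : e 0 = 1 := by
  rw [e, AddCircle.toCircle_zero, Circle.coe_one]

theorem e_neg (a : T) : e (-a) = conj (e a) := by
  rw [e, AddCircle.toCircle_neg, Circle.coe_inv_eq_conj, e]

theorem norm_e (a : T) : ‖e a‖ = 1 := by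
  exact Circle.norm_coe _

theorem e_coe (x : ℝ) : e (x : T) = Complex.exp (2 * π * x * Complex.I) := by
  rw [e, AddCircle.toCircle_apply_mk, Circle.coe_exp, div_one]
  push_cast
  rfl

theorem e_sum {ι : Type*} (s : Finset ι) (f : ι → T) : e (∑ i ∈ s, f i) = ∏ i ∈ s, e (f i) := by
  classical
  induction s using Finset.induction_on with
  | empty => simpa using e_zero
  | insert a s ha ih => rw [sum_insert ha, prod_insert ha, e_add, ih]

theorem e_nsmul (n : ℕ) (a : T) : e (n • a) = e a ^ n := by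
  rw [e, AddCircle.toCircle_nsmul, Circle.coe_pow, e]

theorem ebas_rep (a : T) : ∃ x : ℝ, a = (x : T) ∧ ‖a‖ = |x| ∧ |x| ≤ 1 / 2 := by
  induction a using QuotientAddGroup.induction_on with
  | H y =>
    refine ⟨y - round y, ?_, UnitAddCircle.norm_eq, abs_sub_round y⟩
    have h : ((round y : ℝ) : T) = 0 := (AddCircle.coe_eq_zero_iff 1).2 ⟨round y, by simp⟩
    rw [AddCircle.coe_sub, h, sub_zero]

theorem ebas_norm (x : ℝ) : ‖e (x : T) - 1‖ = 2 * |sin (π * x)| := by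
  have h := Complex.norm_exp_I_mul_ofReal_sub_one (2 * π * x)
  rw [show 2 * π * x / 2 = π * x by ring, norm_mul, Real.norm_eq_abs, Real.norm_eq_abs,
    abs_two, mul_comm] at h
  rw [e_coe, ← h]
  push_cast
  rfl

/-- `|e t - 1| = 2 |sin (pi t)|`; take the representative `x - round x`
(`UnitAddCircle.norm_eq`). -/
theorem norm_e_sub_one_le (a : T) : ‖e a - 1‖ ≤ 7 * ‖a‖ := by
  obtain ⟨x, rfl, h, -⟩ := ebas_rep a
  have h1 : |sin (π * x)| ≤ π * |x| := by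
    simpa only [abs_mul, abs_of_pos pi_pos] using abs_sin_le_abs (x := π * x)
  rw [ebas_norm, h]
  nlinarith [pi_lt_d2, abs_nonneg x]

/-- Jordan's inequality (`Real.mul_le_sin`). -/
theorem le_norm_e_sub_one (a : T) : 4 * ‖a‖ ≤ ‖e a - 1‖ := by
  obtain ⟨x, rfl, h, h2⟩ := ebas_rep a
  have h0 : |π * x| = π * |x| := by rw [abs_mul, abs_of_pos pi_pos]
  have h1 := mul_abs_le_abs_sin (x := π * x) (by rw [h0]; nlinarith [pi_pos])
  rw [h0, ← mul_assoc, div_mul_cancel₀ _ pi_ne_zero] at h1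
  rw [ebas_norm, h]
  linarith

theorem norm_e_sub_e (a b : T) : ‖e a - e b‖ ≤ 7 * ‖a - b‖ := by
  have h : e a - e b = (e (a - b) - 1) * e b := by
    rw [sub_mul, ← e_add, sub_add_cancel, one_mul]
  rw [h, norm_mul, norm_e, mul_one]
  exact norm_e_sub_one_le _

/-- The real part is `cos (2 pi ‖a‖)`. -/
theorem re_e (a : T) : (e a).re = cos (2 * π * ‖a‖) := by
  obtain ⟨x, rfl, h, -⟩ := ebas_rep a
  have h1 : cos (2 * π * |x|) = cos (2 * π * x) := by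
    rw [← cos_abs (2 * π * x), abs_mul, abs_of_pos two_pi_pos]
  rw [h, h1, e_coe, ← Complex.exp_ofReal_mul_I_re]
  push_cast
  rfl

theorem norm_zsmul_le' (w : ℤ) (a : T) : ‖w • a‖ ≤ |(w : ℝ)| * ‖a‖ := by
  exact norm_zsmul_le w a

theorem exists_half (a : T) : ∃ b : T, (2 : ℤ) • b = a := by
  obtain ⟨x, rfl, -, -⟩ := ebas_rep a
  refine ⟨((x / 2 : ℝ) : T), ?_⟩
  rw [← AddCircle.coe_zsmul, zsmul_eq_mul, Int.cast_ofNat, mul_div_cancel₀ _ two_ne_zero]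

theorem ebas_expect {α : Type*} (V : Finset α) (f : α → ℂ) {c : ℝ} (hc : 0 ≤ c)
    (h : ∀ v ∈ V, ‖f v‖ ≤ c) : ‖𝔼 v ∈ V, f v‖ ≤ c := by
  rcases V.eq_empty_or_nonempty with rfl | hV
  · simpa using hc
  · exact (RCLike.norm_expect_le (K := ℂ)).trans (expect_le hV h)

theorem norm_mu_le (V : Finset ℤ) (θ : T) : ‖mu V θ‖ ≤ 1 := by
  exact ebas_expect V _ zero_le_one fun v _ => (norm_e _).le

theorem mu_neg (V : Finset ℤ) (θ : T) : mu V (-θ) = conj (mu V θ) := by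
  rw [mu, mu, map_expect]
  exact expect_congr rfl fun v _ => by rw [smul_neg, e_neg]

theorem norm_mu_sub_one {V : Finset ℤ} (hV : V.Nonempty) {θ : T} {r : ℝ}
    (h : ∀ v ∈ V, ‖v • θ‖ ≤ r) : ‖mu V θ - 1‖ ≤ 7 * r := by
  rw [mu, ← expect_const hV (1 : ℂ), ← expect_sub_distrib]
  refine (RCLike.norm_expect_le (K := ℂ)).trans (expect_le hV fun v hv => ?_)
  exact (norm_e_sub_one_le _).trans (mul_le_mul_of_nonneg_left (h v hv) (by norm_num))

theorem ebas_geom (N : ℕ) (θ : T) :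
    (e θ - 1) * ∑ v ∈ Icc (1 : ℤ) N, e (v • θ) = e (((N : ℤ) + 1) • θ) - e θ := by
  induction N with
  | zero => simp
  | succ n ih =>
    have h : Icc (1 : ℤ) ((n + 1 : ℕ) : ℤ) = insert ((n : ℤ) + 1) (Icc (1 : ℤ) n) := by
      ext v
      simp only [mem_Icc, mem_insert]
      omega
    rw [h, sum_insert (by simp), mul_add, ih, Nat.cast_succ, add_smul ((n : ℤ) + 1), one_smul,
      e_add]
    ring

/-- Geometric sum: `(e θ - 1) ∑ = e ((N+1) θ) - e θ`. -/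
theorem norm_mu_Icc (N : ℕ) (θ : T) : (N : ℝ) * ‖θ‖ * ‖mu (Icc (1 : ℤ) N) θ‖ ≤ 1 / 2 := by
  have h1 : (N : ℝ) * ‖mu (Icc (1 : ℤ) N) θ‖ = ‖∑ v ∈ Icc (1 : ℤ) N, e (v • θ)‖ := by
    rw [← card_mul_expect, norm_mul, mu]
    simp
  have h2 : ‖e θ - 1‖ * ‖∑ v ∈ Icc (1 : ℤ) N, e (v • θ)‖ ≤ 2 := by
    rw [← norm_mul, ebas_geom]
    refine (norm_sub_le _ _).trans ?_
    rw [norm_e, norm_e, one_add_one_eq_two]
  have h3 := mul_le_mul_of_nonneg_right (le_norm_e_sub_one θ)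
    (norm_nonneg (∑ v ∈ Icc (1 : ℤ) N, e (v • θ)))
  rw [mul_right_comm, h1]
  linarith

/-- The norm of an average is at most the bound. -/
theorem norm_expect_le' {α : Type*} (V : Finset α) (f : α → ℂ) {c : ℝ} (hc : 0 ≤ c)
    (h : ∀ v ∈ V, ‖f v‖ ≤ c) : ‖𝔼 v ∈ V, f v‖ ≤ c := by
  exact ebas_expect V f hc h

theorem norm_expect_le_expect {α : Type*} (V : Finset α) (f : α → ℂ) :
    ‖𝔼 v ∈ V, f v‖ ≤ 𝔼 v ∈ V, ‖f v‖ := by
  exact RCLike.norm_expect_le (K := ℂ)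

/-- Cauchy-Schwarz for averages. -/
theorem expect_cs {α : Type*} (V : Finset α) (f g : α → ℂ) :
    ‖𝔼 v ∈ V, f v * g v‖ ^ 2 ≤ (𝔼 v ∈ V, ‖f v‖ ^ 2) * 𝔼 v ∈ V, ‖g v‖ ^ 2 := by
  refine (pow_le_pow_left₀ (norm_nonneg _) (norm_expect_le_expect V _) 2).trans ?_
  simp only [norm_mul]
  exact expect_mul_sq_le_sq_mul_sq V _ _

theorem expect_sq_le {α : Type*} (V : Finset α) (f : α → ℝ) :
    (𝔼 v ∈ V, f v) ^ 2 ≤ 𝔼 v ∈ V, f v ^ 2 := by
  rcases V.eq_empty_or_nonempty with rfl | hV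
  · simp
  · simpa [expect_const hV] using expect_mul_sq_le_sq_mul_sq V f fun _ => 1

/-- The square of the norm of an average as a double average. -/
theorem norm_expect_sq {α : Type*} (V : Finset α) (f : α → ℂ) :
    ((‖𝔼 v ∈ V, f v‖ ^ 2 : ℝ) : ℂ) = 𝔼 v ∈ V, 𝔼 w ∈ V, f v * conj (f w) := by
  rw [← expect_mul_expect, ← map_expect, Complex.mul_conj, Complex.normSq_eq_norm_sq]

end Pool.Agent.TR
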