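import Pool.Agent.Lib.MP_cc859a_an.TR.TreeA
import Pool.Agent.Lib.MP_cc859a_an.TR.TreeB
import Pool.Agent.Lib.MP_cc859a_an.TR.LevN

open Finset Real
open scoped BigOperators ComplexConjugate

namespace Pool.Agent.TR

/-- The empty sum of triples. -/
theorem level_zero (D : Data) (k : ℕ) (η : ℝ) {P : ℝ} (hP : 0 ≤ P) (q : ℕ) :
    IsTri D k η P q fun _ _ => 0 :=
  ⟨Fin 0, inferInstance, fun i => i.elim0, by simpa using hP, fun i => i.elim0, fun _ _ => by simp⟩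

/-- The structured averages of a system are sums of triples. -/
theorem level_tri {q K : ℕ} {f : Fin 3 → ℤ → ℝ} {Z X Y W W' : ℝ} (S : Sys q K f Z X Y W)
    (hW : W ≤ W') {d : ℕ} (hd : S.d ≤ d) (A : Finset S.ι) (hA : A.card ≤ S.m) (D : Data) (k : ℕ)
    {η : ℝ} (hη : 0 ≤ η) (h : ∀ r ∈ A, IsAtom D k η (S.p r).a) :
    IsTri D (d * k) (d * η) (exp W' ^ 3) q fun j x => Av (NN q j) (S.G A) x :=
  isTri_of_sum (fun σ => (S.isSum A hA D k η hη h σ).mono (Nat.mul_le_mul_right k hd)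
    (mul_le_mul_of_nonneg_right (Nat.cast_le.2 hd) hη) (exp_le_exp.2 hW)) q

/-- The total length of the pieces of a system. -/
theorem level_sum {q K : ℕ} {f : Fin 3 → ℤ → ℝ} {Z X Y W : ℝ} (S : Sys q K f Z X Y W)
    (hZ : 1 ≤ Z) : ∑ r, (LL q (S.p r).j : ℝ) ≤ W * LL q K := by
  have h1 := S.sum_le
  have h2 : (0 : ℝ) ≤ ∑ r, (LL q (S.p r).j : ℝ) := sum_nonneg fun _ _ => Nat.cast_nonneg _
  have h3 : (S.m : ℝ) * LL q K ≤ W * LL q K :=
    mul_le_mul_of_nonneg_right S.m_le (Nat.cast_nonneg _)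
  nlinarith

open Classical in
/-- `treeA` for `p = Sum.elim S.p S'.p`, `m = S.m + S'.m`... but a joint list of size `≤ m` need not
have small halves, so let `Δ A j x` be `Av (S'.G A.toRight) x - Av (S.G A.toLeft) x` if
`A.toLeft.card ≤ S.m ∧ A.toRight.card ≤ S'.m` and `0` otherwise (the empty sum of triples).
`d = S.d + S'.d`, `h = 9 / Z`, `ρ = 6 exp (-X)`, `Kk = exp (4 W)`; `isTri_of_sum`, `IsTri.sub`,
`IsTri.mono`, `PcOK.mono`, `card_allBad_le`, `lev_num`. -/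
theorem level (B C q : ℕ) (hB : 1 ≤ B) (hq : 1 ≤ q) : ∃ Z₀ : ℝ, 2 ≤ Z₀ ∧ ∀ Z : ℝ, Z₀ ≤ Z →
    ∀ (K : ℕ) (f : Fin 3 → ℤ → ℝ) (S : Sys q K f Z (Z ^ (B + 1)) ((Z ^ (B + 1)) ^ C) (Z ^ B))
      (S' : Sys q K f (2 * Z) ((2 * Z) ^ (B + 1)) (((2 * Z) ^ (B + 1)) ^ C) ((2 * Z) ^ B)),
      (((node (LL q K) 0).filter fun x => (Lst q S.p 0 x).card ≤ S.m ∧
        (Lst q S'.p 0 x).card ≤ S'.m ∧ ∃ j ≤ K, 27 / Z ≤ ‖S'.av j x - S.av j x‖).card : ℝ) ≤
        LL q K / Z := by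
  obtain ⟨C₁, hC₁⟩ := tree_setup
  obtain ⟨Z₀, hZ₀, hnum⟩ := lev_num B C C₁ q hB
  refine ⟨Z₀, hZ₀, fun Z hZ K f S S' => ?_⟩
  obtain ⟨X₁, n1, n2, n3, n4, n5, n6, n7, n8, n9, n10, n11⟩ := hnum Z hZ
  have hZ2 : 2 ≤ Z := hZ₀.trans hZ
  have hZ0 : 0 < Z := by linarith
  have hW : Z ^ B ≤ (2 * Z) ^ B := pow_le_pow_left₀ hZ0.le (by linarith) B
  have hX : Z ^ (B + 1) ≤ (2 * Z) ^ (B + 1) := pow_le_pow_left₀ hZ0.le (by linarith) _
  have hY : (Z ^ (B + 1)) ^ C ≤ ((2 * Z) ^ (B + 1)) ^ C := pow_le_pow_left₀ (by positivity) hX C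
  have hY0 : (0 : ℝ) ≤ ((2 * Z) ^ (B + 1)) ^ C := by positivity
  have hm : ((S.m + S'.m : ℕ) : ℝ) ≤ 2 * (2 * Z) ^ B := by
    have := S.m_le
    have := S'.m_le
    push_cast
    linarith
  have hd : ((S.d + S'.d : ℕ) : ℝ) ≤ 2 * (2 * Z) ^ B := by
    have := S.d_le
    have := S'.d_le
    push_cast
    linarith
  have hK2 : 2 ≤ exp (4 * (2 * Z) ^ B) := hZ2.trans n5
  have hp : ∀ r, PcOK q K (Z ^ (B + 1)) (((2 * Z) ^ (B + 1)) ^ C) (Sum.elim S.p S'.p r) := by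
    rintro (r | r)
    · exact (S.ok r).mono le_rfl hY
    · exact (S'.ok r).mono hX le_rfl
  have hs1 := level_sum S (by linarith)
  have hs2 := level_sum S' (by linarith)
  have he : exp (-(2 * Z) ^ (B + 1)) ≤ exp (-Z ^ (B + 1)) := exp_le_exp.2 (neg_le_neg hX)
  obtain ⟨Δ, hΔ1, hΔ2⟩ : ∃ Δ : Finset (S.ι ⊕ S'.ι) → ℕ → ℤ → ℂ,
      (∀ A, A.toLeft.card ≤ S.m → A.toRight.card ≤ S'.m → Δ A = fun j x =>
        Av (NN q j) (S'.G A.toRight) x - Av (NN q j) (S.G A.toLeft) x) ∧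
      ∀ A, ¬ (A.toLeft.card ≤ S.m ∧ A.toRight.card ≤ S'.m) → Δ A = fun _ _ => 0 :=
    ⟨fun A => if A.toLeft.card ≤ S.m ∧ A.toRight.card ≤ S'.m then fun j x =>
      Av (NN q j) (S'.G A.toRight) x - Av (NN q j) (S.G A.toLeft) x else fun _ _ => 0,
      fun A h1 h2 => if_pos ⟨h1, h2⟩, fun A h => if_neg h⟩
  obtain ⟨J, hJ⟩ := hC₁ X₁ n1 (S.ι ⊕ S'.ι) q K (S.m + S'.m) (S.d + S'.d) (Sum.elim S.p S'.p)
    (Z ^ (B + 1)) (((2 * Z) ^ (B + 1)) ^ C) (exp (4 * (2 * Z) ^ B)) Δ hq n2 hY0 hp n3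
    ((mul_le_mul_of_nonneg_right hm hY0).trans n4) ((mul_le_mul_of_nonneg_right hd hY0).trans n4)
    hK2 n7 (le_trans (by gcongr) n8) n9 (fun A _ D k η hη hA => by
      by_cases h : A.toLeft.card ≤ S.m ∧ A.toRight.card ≤ S'.m
      · rw [hΔ1 A h.1 h.2]
        exact ((level_tri S' le_rfl (Nat.le_add_left _ _) A.toRight h.2 D k hη
          fun r hr => hA (Sum.inr r) (mem_toRight.1 hr)).sub
          (level_tri S hW (Nat.le_add_right _ _) A.toLeft h.1 D k hη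
          fun r hr => hA (Sum.inl r) (mem_toLeft.1 hr))).mono le_rfl le_rfl (by linarith)
      · rw [hΔ2 A h]
        exact level_zero D _ _ (exp_pos _).le q)
  have hh : 1 / exp (4 * (2 * Z) ^ B) ≤ 9 / Z :=
    div_le_div₀ (by norm_num) (by norm_num) hZ0 n5
  have hA := treeA (h := 9 / Z) (ρ := 6 * exp (-Z ^ (B + 1))) hq hK2 hJ hh (by positivity) n10
    (fun j hj x₀ hx₀ _ => by
      by_cases h : (Lst q (Sum.elim S.p S'.p) j x₀).toLeft.card ≤ S.m ∧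
        (Lst q (Sum.elim S.p S'.p) j x₀).toRight.card ≤ S'.m
      · rw [hΔ1 _ h.1 h.2]
        rw [Lst_toLeft, Lst_toRight] at h ⊢
        have a1 := S.approx j hj x₀ hx₀ h.1
        have a2 := S'.approx j hj x₀ hx₀ h.2
        refine le_trans (Nat.cast_le.2 ((card_le_card fun x hx => ?_).trans
          (card_union_le _ _))) (le_trans (Nat.cast_add _ _).le ((add_le_add a1 a2).trans ?_))
        · rw [mem_filter] at hx
          rw [mem_union, mem_filter, mem_filter]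
          by_contra hc
          rw [not_or, not_and, not_and, not_lt, not_lt] at hc
          have b1 := hc.1 hx.1
          have b2 := hc.2 hx.1
          have b3 := norm_sub_le_norm_sub_add_norm_sub
            (Av (NN q j) (S'.G (Lst q S'.p j x₀)) x) (Av (NN q j) (cx f) x)
            (Av (NN q j) (S.G (Lst q S.p j x₀)) x)
          rw [norm_sub_rev _ (Av (NN q j) (cx f) x)] at b3
          have b4 : 6 / Z + 6 / (2 * Z) = 9 / Z := by
            field_simp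
            norm_num
          have b5 := hx.2
          linarith
        · have : (0 : ℝ) ≤ LL q j := Nat.cast_nonneg _
          nlinarith
      · rw [hΔ2 _ h, filter_false_of_mem fun x _ => by
          rw [norm_zero, not_lt]
          positivity]
        rw [card_empty, Nat.cast_zero]
        positivity)
  have hbad := card_allBad_le hp
  rw [Fintype.sum_sum_type] at hbad
  simp only [Sum.elim_inl, Sum.elim_inr] at hbad
  have hL : (0 : ℝ) ≤ LL q K := Nat.cast_nonneg _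
  have hbad2 : ((allBad (Sum.elim S.p S'.p)).card : ℝ) ≤
      exp (-Z ^ (B + 1)) * (2 * (2 * Z) ^ B) * LL q K := by
    refine hbad.trans ?_
    rw [mul_assoc]
    refine mul_le_mul_of_nonneg_left ?_ (exp_pos _).le
    nlinarith [mul_le_mul_of_nonneg_right hW hL]
  refine le_trans (Nat.cast_le.2 (card_le_card fun x hx => ?_)) (hA.trans ?_)
  · rw [mem_filter] at hx ⊢
    obtain ⟨hx, h1, h2, j, hj, h3⟩ := hx
    refine ⟨hx, ?_, j, hj, ?_⟩
    · rw [← card_toLeft_add_card_toRight, Lst_toLeft, Lst_toRight]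
      exact add_le_add h1 h2
    · rw [hΔ1 _ (by rw [Lst_toLeft]; exact (card_le_card (Lst_anti j.zero_le)).trans h1)
        (by rw [Lst_toRight]; exact (card_le_card (Lst_anti j.zero_le)).trans h2),
        Lst_toLeft, Lst_toRight]
      refine le_trans (le_of_eq ?_) h3
      ring
  · have hX₁ : 0 ≤ X₁ ^ C₁ := by positivity
    calc _ ≤ ((2 * (2 * Z) ^ B + 1) * (2 * X₁ ^ C₁ + 1) + 1) *
          ((6 * exp (-Z ^ (B + 1)) + 1 / exp (4 * (2 * Z) ^ B)) * LL q K +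
            21600 * exp (4 * (2 * Z) ^ B) ^ 2 *
              (exp (-Z ^ (B + 1)) * (2 * (2 * Z) ^ B) * LL q K)) := by gcongr
      _ = ((2 * (2 * Z) ^ B + 1) * (2 * X₁ ^ C₁ + 1) + 1) *
          (6 * exp (-Z ^ (B + 1)) + 1 / exp (4 * (2 * Z) ^ B) +
            21600 * exp (4 * (2 * Z) ^ B) ^ 2 *
              (exp (-Z ^ (B + 1)) * (2 * (2 * Z) ^ B))) * LL q K := by ring
      _ ≤ 1 / Z * LL q K := mul_le_mul_of_nonneg_right n11 hL
      _ = LL q K / Z := by ring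

end Pool.Agent.TR
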