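import Pool.Agent.Lib.MP_cc859a_an.TR.SysE
import Pool.Agent.Lib.MP_cc859a_an.TR.Level
import Pool.Agent.Lib.MP_cc859a_an.TR.Base

open Finset Real
open scoped BigOperators ComplexConjugate

namespace Pool.Agent.TR

theorem ft_exact {q K : ℕ} (hq : 1 ≤ q) {f : Fin 3 → ℤ → ℝ} {Z X Y W : ℝ}
    (S : Sys q K f Z X Y W) (h : 3 * exp (-X) * LL q K < 1) {x : ℤ} (hx : x ∈ node (LL q K) 0)
    (hm : (Lst q S.p 0 x).card ≤ S.m) {j : ℕ} (hj : j ≤ K) :
    ‖Av (NN q j) (cx f) x - S.av j x‖ ≤ 6 / Z := by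
  classical
  have h1 := S.approx j hj x hx ((card_le_card (Lst_anti (Nat.zero_le j))).trans hm)
  have h2 : (LL q j : ℝ) ≤ LL q K := by
    exact_mod_cast Nat.le_of_dvd (LL_pos hq) (LL_dvd hj)
  have h3 : 3 * exp (-X) * LL q j ≤ 3 * exp (-X) * LL q K :=
    mul_le_mul_of_nonneg_left h2 (by positivity)
  by_contra hc
  have h4 : 0 < ((node (LL q j) (x / LL q j)).filter fun y =>
      6 / Z < ‖Av (NN q j) (cx f) y - Av (NN q j) (S.G (Lst q S.p j x)) y‖).card :=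
    card_pos.2 ⟨x, mem_filter.2 ⟨(mem_node (LL_pos hq)).2 rfl, not_le.1 hc⟩⟩
  have h5 : (1 : ℝ) ≤ ((node (LL q j) (x / LL q j)).filter fun y =>
      6 / Z < ‖Av (NN q j) (cx f) y - Av (NN q j) (S.G (Lst q S.p j x)) y‖).card := by
    exact_mod_cast h4
  linarith

open Classical in
theorem ft_ind {B C q K : ℕ} (hq : 1 ≤ q) {f : Fin 3 → ℤ → ℝ} {Z₀ : ℝ} (hZ₀ : 2 ≤ Z₀)
    (hex : ∀ Z : ℝ, 2 ≤ Z → Nonempty (Sys q K f Z (Z ^ (B + 1)) ((Z ^ (B + 1)) ^ C) (Z ^ B)))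
    (hlev : ∀ Z : ℝ, Z₀ ≤ Z → ∀ (S : Sys q K f Z (Z ^ (B + 1)) ((Z ^ (B + 1)) ^ C) (Z ^ B))
      (S' : Sys q K f (2 * Z) ((2 * Z) ^ (B + 1)) (((2 * Z) ^ (B + 1)) ^ C) ((2 * Z) ^ B)),
      (((node (LL q K) 0).filter fun x => (Lst q S.p 0 x).card ≤ S.m ∧
        (Lst q S'.p 0 x).card ≤ S'.m ∧ ∃ j ≤ K, 27 / Z ≤ ‖S'.av j x - S.av j x‖).card : ℝ) ≤
        LL q K / Z) (n : ℕ) :
    ∀ Z : ℝ, Z₀ ≤ Z → 3 * exp (-(2 ^ n * Z) ^ (B + 1)) * LL q K < 1 →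
      ∀ S : Sys q K f Z (Z ^ (B + 1)) ((Z ^ (B + 1)) ^ C) (Z ^ B),
        ∃ E : Finset ℤ, (E.card : ℝ) ≤ 4 * (LL q K / Z) ∧ ∀ x ∈ node (LL q K) 0, x ∉ E →
          (Lst q S.p 0 x).card ≤ S.m ∧ ∀ j ≤ K, ‖Av (NN q j) (cx f) x - S.av j x‖ ≤ 60 / Z := by
  induction n with
  | zero =>
    intro Z hZ h S
    have hZ0 : 0 < Z := by linarith
    have hb := S.card_big hq hZ0
    have hL : (0 : ℝ) ≤ LL q K / Z := by positivity
    refine ⟨_, hb.trans (by linarith), fun x hx hxE => ?_⟩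
    have hm : (Lst q S.p 0 x).card ≤ S.m := by
      by_contra hc
      exact hxE (mem_filter.2 ⟨hx, not_le.1 hc⟩)
    refine ⟨hm, fun j hj => (ft_exact hq S (by simpa using h) hx hm hj).trans ?_⟩
    gcongr
    norm_num
  | succ n ih =>
    intro Z hZ h S
    have hZ0 : 0 < Z := by linarith
    obtain ⟨S'⟩ := hex (2 * Z) (by linarith)
    have e : (2 : ℝ) ^ (n + 1) * Z = 2 ^ n * (2 * Z) := by ring
    rw [e] at h
    obtain ⟨E', hE', hx'⟩ := ih (2 * Z) (by linarith) h S'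
    have hb := S.card_big hq hZ0
    have hl := hlev Z hZ S S'
    refine ⟨E' ∪ (((node (LL q K) 0).filter fun x => S.m < (Lst q S.p 0 x).card) ∪
      ((node (LL q K) 0).filter fun x => (Lst q S.p 0 x).card ≤ S.m ∧
        (Lst q S'.p 0 x).card ≤ S'.m ∧ ∃ j ≤ K, 27 / Z ≤ ‖S'.av j x - S.av j x‖)), ?_, ?_⟩
    · have h1 := (card_union_le E' _).trans (Nat.add_le_add_left (card_union_le
        ((node (LL q K) 0).filter fun x => S.m < (Lst q S.p 0 x).card)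
        ((node (LL q K) 0).filter fun x => (Lst q S.p 0 x).card ≤ S.m ∧
          (Lst q S'.p 0 x).card ≤ S'.m ∧ ∃ j ≤ K, 27 / Z ≤ ‖S'.av j x - S.av j x‖)) _)
      have h2 : (4 : ℝ) * (LL q K / (2 * Z)) = 2 * (LL q K / Z) := by
        field_simp
        ring
      have h3 := (Nat.cast_le (α := ℝ)).2 h1
      push_cast at h3
      linarith
    · intro x hx hxE
      rw [mem_union, mem_union, not_or, not_or] at hxE
      obtain ⟨h1, h2, h3⟩ := hxE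
      obtain ⟨hm', hA⟩ := hx' x hx h1
      have hm : (Lst q S.p 0 x).card ≤ S.m := by
        by_contra hc
        exact h2 (mem_filter.2 ⟨hx, not_le.1 hc⟩)
      refine ⟨hm, fun j hj => ?_⟩
      have h4 : ‖S'.av j x - S.av j x‖ ≤ 27 / Z := by
        by_contra hc
        exact h3 (mem_filter.2 ⟨hx, hm, hm', j, hj, (not_le.1 hc).le⟩)
      have h5 := hA j hj
      have h6 := norm_add_le (Av (NN q j) (cx f) x - S'.av j x) (S'.av j x - S.av j x)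
      rw [sub_add_sub_cancel] at h6
      have h7 : (60 : ℝ) / (2 * Z) + 27 / Z ≤ 60 / Z := by
        have : (60 : ℝ) / (2 * Z) + 27 / Z = 57 / Z := by
          field_simp
          ring
        rw [this]
        gcongr
        norm_num
      linarith

theorem ft_small {Z : ℝ} (hZ : 2 ≤ Z) (B L : ℕ) :
    ∃ n : ℕ, 3 * exp (-(2 ^ n * Z) ^ (B + 1)) * L < 1 := by
  obtain ⟨n, hn⟩ := pow_unbounded_of_one_lt (3 * (L : ℝ)) (one_lt_two (α := ℝ))
  refine ⟨n, ?_⟩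
  have h1 : (1 : ℝ) ≤ 2 ^ n := one_le_pow₀ one_le_two
  have h2 : (2 : ℝ) ≤ 2 ^ n * Z := by nlinarith
  have h3 : 2 ^ n * Z ≤ (2 ^ n * Z) ^ (B + 1) := num_le_pow h2 (by omega)
  have h4 := add_one_le_exp ((2 ^ n * Z) ^ (B + 1))
  have h5 : 3 * (L : ℝ) < exp ((2 ^ n * Z) ^ (B + 1)) := by nlinarith
  rw [exp_neg, mul_right_comm, ← div_eq_mul_inv, div_lt_one (exp_pos _)]
  exact h5

theorem ft_jumps {a b : ℕ → ℂ} {K N : ℕ} {ε c h : ℝ} (hJ : JumpsIn a 0 K N ε)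
    (hab : ∀ j ≤ K, ‖a j - b j‖ ≤ c) (hh : h + 2 * c ≤ ε) : JumpsIn b 0 K N h := by
  obtain ⟨j, h0, hN, hj⟩ := hJ
  have hle : ∀ d i, i + d = N → j i ≤ K := by
    intro d
    induction d with
    | zero =>
      intro i hi
      rw [add_zero] at hi
      rw [hi]
      exact hN
    | succ d ih =>
      intro i hi
      exact ((hj i (by omega)).1.le).trans (ih (i + 1) (by omega))
  refine ⟨j, h0, hN, fun i hi => ⟨(hj i hi).1, ?_⟩⟩
  have h1 := hab _ (hle (N - i) i (by omega))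
  have h2 := hab _ (hle (N - (i + 1)) (i + 1) (by omega))
  have h3 := (hj i hi).2
  have e : a (j (i + 1)) - a (j i) =
      (a (j (i + 1)) - b (j (i + 1))) + (b (j (i + 1)) - b (j i)) - (a (j i) - b (j i)) := by ring
  have h4 := norm_sub_le ((a (j (i + 1)) - b (j (i + 1))) + (b (j (i + 1)) - b (j i)))
    (a (j i) - b (j i))
  have h5 := norm_add_le (a (j (i + 1)) - b (j (i + 1))) (b (j (i + 1)) - b (j i))
  rw [← e] at h4
  linarith

open Classical in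
/-- Take `Z ≥ Z₀` with `121 / Z ≤ ε`, `5 / Z ≤ μ`, and systems `S l` with `Z l = 2 ^ l Z` (define
`Z (l + 1) = 2 * Z l` by recursion so that the types match). Choose `n` with
`3 exp (-(Z n) ^ (B + 1)) L_K < 1`: then `approx` has no exceptional point at level `n`. Outside the
sets of `Sys.card_big` (`l ≤ n`) and of `level` (`l < n`), `‖Av f - (S 0).av‖ ≤ 54 / Z + 6 / Z` at all
scales, so jumps of size `ε` give jumps of size `1 / Z` for `(S 0).av`; `base`. -/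
theorem finite_thm (q : ℕ) (hq : 1 ≤ q) {ε μ : ℝ} (hε : 0 < ε) (hμ : 0 < μ) :
    ∃ N : ℕ, ∀ (K : ℕ) (f : Fin 3 → ℤ → ℝ), (∀ σ y, |f σ y| ≤ 1) →
      (((node (LL q K) 0).filter fun x =>
        JumpsIn (fun j => Av (NN q j) (cx f) x) 0 K N ε).card : ℝ) ≤ μ * LL q K := by
  obtain ⟨B, C, hB, -, hex⟩ := sys_exists
  obtain ⟨Z₁, hZ₁, hlev⟩ := level B C q hB hq
  obtain ⟨Z₂, -, hbase⟩ := base B C q hB hq
  obtain ⟨Z, h1, h2, h3, h4⟩ : ∃ Z : ℝ, Z₁ ≤ Z ∧ Z₂ ≤ Z ∧ 121 / ε ≤ Z ∧ 5 / μ ≤ Z :=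
    ⟨max (max Z₁ Z₂) (max (121 / ε) (5 / μ)), le_max_of_le_left (le_max_left _ _),
      le_max_of_le_left (le_max_right _ _), le_max_of_le_right (le_max_left _ _),
      le_max_of_le_right (le_max_right _ _)⟩
  have hZ : 2 ≤ Z := hZ₁.trans h1
  have hZ0 : 0 < Z := by linarith
  obtain ⟨N, hN⟩ := hbase Z h2
  refine ⟨N, fun K f hf => ?_⟩
  have hex' : ∀ Z : ℝ, 2 ≤ Z →
      Nonempty (Sys q K f Z (Z ^ (B + 1)) ((Z ^ (B + 1)) ^ C) (Z ^ B)) :=
    fun Z hZ => hex Z _ hZ (num_le_pow hZ (by omega)) q K f hq hf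
  obtain ⟨S⟩ := hex' Z hZ
  obtain ⟨n, hn⟩ := ft_small hZ B (LL q K)
  obtain ⟨E, hE, hx⟩ := ft_ind hq hZ₁ hex' (fun Z hZ => hlev Z hZ K f) n Z h1 hn S
  have hb := hN K f S
  have hsub : ((node (LL q K) 0).filter fun x =>
      JumpsIn (fun j => Av (NN q j) (cx f) x) 0 K N ε) ⊆ E ∪
      ((node (LL q K) 0).filter fun x => (Lst q S.p 0 x).card ≤ S.m ∧
        JumpsIn (fun j => S.av j x) 0 K N (1 / Z)) := by
    intro x hx'
    obtain ⟨hx1, hx2⟩ := mem_filter.1 hx'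
    by_cases hxE : x ∈ E
    · exact mem_union_left _ hxE
    · obtain ⟨hm, hA⟩ := hx x hx1 hxE
      refine mem_union_right _ (mem_filter.2 ⟨hx1, hm, ft_jumps hx2 hA ?_⟩)
      have e : 1 / Z + 2 * (60 / Z) = 121 / Z := by ring
      rw [e, div_le_iff₀ hZ0]
      rw [div_le_iff₀ hε] at h3
      linarith
  have h5 := (Nat.cast_le (α := ℝ)).2 ((card_le_card hsub).trans (card_union_le _ _))
  push_cast at h5
  have h6 : 5 * ((LL q K : ℝ) / Z) ≤ μ * LL q K := by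
    rw [div_le_iff₀ hμ] at h4
    have e : 5 * ((LL q K : ℝ) / Z) = 5 / Z * LL q K := by ring
    rw [e]
    refine mul_le_mul_of_nonneg_right ?_ (Nat.cast_nonneg _)
    rw [div_le_iff₀ hZ0]
    linarith
  linarith

end Pool.Agent.TR
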