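import Pool.Agent.Lib.MP_cc859a_an.TR.EBas

open Finset Real
open scoped BigOperators ComplexConjugate

namespace Pool.Agent.TR

variable {M : ℕ} [NeZero M]

theorem ch_add (x y : ZMod M) : ch (x + y) = ch x + ch y := by
  exact map_add ZMod.toAddCircle x y

theorem ch_zero : ch (0 : ZMod M) = 0 := by
  exact map_zero ZMod.toAddCircle

theorem ch_neg (x : ZMod M) : ch (-x) = -ch x := by
  exact map_neg ZMod.toAddCircle x

theorem ch_sub (x y : ZMod M) : ch (x - y) = ch x - ch y := by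
  exact map_sub ZMod.toAddCircle x y

theorem ch_int_mul (w : ℤ) (ξ : ZMod M) : ch ((w : ZMod M) * ξ) = w • ch ξ := by
  rw [← zsmul_eq_mul]
  exact map_zsmul ZMod.toAddCircle w ξ

theorem ch_zsmul (w : ℤ) (ξ : ZMod M) : ch (w • ξ) = w • ch ξ := by
  exact map_zsmul ZMod.toAddCircle w ξ

theorem ch_inj {x y : ZMod M} (h : ch x = ch y) : x = y := by
  exact ZMod.toAddCircle_injective M h

theorem M_smul_ch (ξ : ZMod M) : (M : ℤ) • ch ξ = 0 := by
  rw [← ch_int_mul]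
  simp [ch_zero]

theorem norm_ch_int (w : ℤ) (hw : 2 * |w| ≤ M) : ‖ch (w : ZMod M)‖ = |(w : ℝ)| / M := by
  have hM : (0 : ℝ) < M := Nat.cast_pos.mpr (NeZero.pos M)
  have h1 : |(w : ℝ) / M| = |(w : ℝ)| / M := by rw [abs_div, abs_of_pos hM]
  have h2 : 2 * |(w : ℝ)| ≤ M := by exact_mod_cast hw
  rw [ch, ZMod.toAddCircle_intCast, ← h1, AddCircle.norm_coe_eq_abs_iff _ one_ne_zero, h1, abs_one,
    div_le_div_iff₀ hM two_pos]
  linarith

/-- `ZMod.valMinAbs`. -/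
theorem exists_lift (x : ZMod M) : ∃ w : ℤ, (w : ZMod M) = x ∧ |(w : ℝ)| = M * ‖ch x‖ := by
  have hM : (0 : ℝ) < M := Nat.cast_pos.mpr (NeZero.pos M)
  refine ⟨x.valMinAbs, x.coe_valMinAbs, ?_⟩
  have h1 := x.natAbs_valMinAbs_le
  have h2 := norm_ch_int (M := M) x.valMinAbs (by rw [Int.abs_eq_natAbs]; omega)
  rw [x.coe_valMinAbs] at h2
  rw [h2, mul_div_cancel₀ _ hM.ne']

theorem four_exp (f : ZMod M → ℂ) : 𝔼 x, f x = (∑ x, f x) / M := by
  rw [Fintype.expect_eq_sum_div_card, ZMod.card]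

theorem four_exp' (f : ZMod M → ℝ) : 𝔼 x, f x = (∑ x, f x) / M := by
  rw [Fintype.expect_eq_sum_div_card, ZMod.card]

theorem four_sum (ξ : ZMod M) : ∑ x, e (ch (x * ξ)) = if ξ = 0 then (M : ℂ) else 0 := by
  have h := AddChar.sum_mulShift ξ (ZMod.isPrimitive_stdAddChar M)
  rw [ZMod.card, Nat.cast_ite, Nat.cast_zero] at h
  exact h

theorem four_push (P : Finset ℤ) (a : ℤ → ℂ) (g : ZMod M → ℂ) :
    ∑ x, push P a x * g x = ∑ p ∈ P, a p * g p := by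
  rw [← sum_fiberwise P (fun p : ℤ => (p : ZMod M))]
  refine sum_congr rfl fun x _ => ?_
  rw [push, sum_mul]
  exact sum_congr rfl fun p hp => by rw [(mem_filter.mp hp).2]

theorem orth (ξ : ZMod M) : 𝔼 x, e (ch (ξ * x)) = if ξ = 0 then 1 else 0 := by
  have hM : (M : ℂ) ≠ 0 := Nat.cast_ne_zero.mpr (NeZero.ne M)
  simp only [mul_comm ξ]
  rw [four_exp, four_sum]
  split_ifs <;> simp [hM]

theorem inversion (f : ZMod M → ℂ) (x : ZMod M) : f x = ∑ ξ, ft f ξ * e (ch (ξ * x)) := by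
  have hM : (M : ℂ) ≠ 0 := Nat.cast_ne_zero.mpr (NeZero.ne M)
  have h : ∀ ξ y : ZMod M, f y * e (-ch (ξ * y)) / M * e (ch (ξ * x)) =
      f y / M * e (ch (ξ * (x - y))) := fun ξ y => by
    rw [mul_sub, ch_sub, sub_eq_add_neg, e_add]
    ring
  simp only [ft, four_exp, sum_div, sum_mul, h]
  rw [sum_comm]
  simp only [← mul_sum, four_sum, sub_eq_zero]
  simp [hM]

theorem ft_corr (a b : ZMod M → ℂ) (h : ZMod M) :
    𝔼 z, a (h + z) * conj (b z) = ∑ χ, ft a χ * conj (ft b χ) * e (ch (χ * h)) := by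
  have h1 : ∀ z, a (h + z) * conj (b z) =
      ∑ χ, ft a χ * conj (b z * e (-ch (χ * z))) * e (ch (χ * h)) := fun z => by
    rw [inversion a (h + z), sum_mul]
    refine sum_congr rfl fun χ _ => ?_
    rw [mul_add, ch_add, e_add, map_mul, e_neg, Complex.conj_conj]
    ring
  simp only [h1]
  rw [expect_sum_comm]
  refine sum_congr rfl fun χ _ => ?_
  rw [← expect_mul, ← mul_expect, ft.eq_def b, four_exp, four_exp, map_div₀, map_sum, map_natCast]

theorem parseval (f : ZMod M → ℂ) : 𝔼 x, ‖f x‖ ^ 2 = ∑ ξ, ‖ft f ξ‖ ^ 2 := by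
  have h := ft_corr f f 0
  simp only [zero_add, mul_zero, ch_zero, e_zero, mul_one, Complex.mul_conj', four_exp] at h
  rw [four_exp']
  exact_mod_cast h

/-- The function of `y` has Fourier coefficients `ft f ξ * mu V (ch ξ - θ)`. -/
theorem local_parseval (f : ZMod M → ℂ) (V : Finset ℤ) (θ : T) :
    𝔼 y : ZMod M, ‖𝔼 v ∈ V, f (y + v) * e (-(v • θ))‖ ^ 2 =
      ∑ ξ, ‖ft f ξ‖ ^ 2 * ‖mu V (ch ξ - θ)‖ ^ 2 := by
  rw [parseval]
  refine sum_congr rfl fun ξ _ => ?_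
  rw [← mul_pow, ← norm_mul, ft.eq_def _ ξ, mu, mul_expect]
  simp only [expect_mul]
  rw [expect_comm]
  refine congrArg (fun z : ℂ => ‖z‖ ^ 2) (expect_congr rfl fun v _ => ?_)
  rw [ft, expect_mul]
  refine Fintype.expect_equiv (Equiv.addRight (v : ZMod M)) _ _ fun y => ?_
  rw [Equiv.coe_addRight, mul_assoc, mul_assoc, ← e_add, ← e_add, mul_add, ch_add,
    mul_comm ξ (v : ZMod M), ch_int_mul, smul_sub]
  exact congrArg (fun t => f (y + v) * e t) (by abel)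

theorem ft_push (P : Finset ℤ) (a : ℤ → ℂ) (χ : ZMod M) :
    ft (push P a) χ = (∑ p ∈ P, a p * e (-(p • ch χ))) / M := by
  rw [ft, four_exp, four_push]
  simp only [mul_comm χ, ch_int_mul]

theorem push_apply {P : Finset ℤ} (hP : ∀ p ∈ P, 2 * |p| < M) (a : ℤ → ℂ) {p : ℤ} (hp : p ∈ P) :
    push P a (p : ZMod M) = a p := by
  refine sum_eq_single_of_mem p (mem_filter.mpr ⟨hp, rfl⟩) fun q hq hne => (hne ?_).elim
  obtain ⟨h1, h2⟩ := mem_filter.mp hq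
  have h3 := hP p hp
  have h4 := hP q h1
  have h5 := abs_sub p q
  have h6 := Int.eq_zero_of_abs_lt_dvd ((ZMod.intCast_eq_intCast_iff_dvd_sub q p M).mp h2)
    (by omega)
  omega

theorem push_eq_zero {P : Finset ℤ} (a : ℤ → ℂ) {r : ZMod M}
    (hr : ∀ p ∈ P, (p : ZMod M) ≠ r) : push P a r = 0 := by
  exact sum_eq_zero fun p hp => (hr p (mem_filter.mp hp).1 (mem_filter.mp hp).2).elim

theorem push_sq {P : Finset ℤ} (hP : ∀ p ∈ P, 2 * |p| < M) (a : ℤ → ℂ) :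
    𝔼 r : ZMod M, ‖push P a r‖ ^ 2 = (∑ p ∈ P, ‖a p‖ ^ 2) / M := by
  have h : ∑ r : ZMod M, push P a r * conj (push P a r) = ∑ p ∈ P, a p * conj (a p) :=
    (four_push P a _).trans (sum_congr rfl fun p hp => by rw [push_apply hP a hp])
  simp only [Complex.mul_conj'] at h
  rw [four_exp']
  exact congrArg (· / (M : ℝ)) (by exact_mod_cast h)

theorem expect_mul_push (P : Finset ℤ) (a : ℤ → ℂ) (f : ZMod M → ℂ) :
    𝔼 z, f z * conj (push P a z) = (∑ p ∈ P, f p * conj (a p)) / M := by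
  have h : ∀ z : ZMod M, conj (push P a z) = push P (fun p => conj (a p)) z := fun z =>
    map_sum _ _ _
  simp only [h, mul_comm (f _)]
  rw [four_exp, four_push]

theorem mem_ZB {Λ : Finset (ZMod M)} {δ : ℝ} {v : ZMod M} :
    v ∈ ZB Λ δ ↔ ∀ l ∈ Λ, ‖ch (l * v)‖ ≤ δ := by
  simp [ZB]

theorem ZB_add {Λ : Finset (ZMod M)} {δ δ' : ℝ} {v w : ZMod M} (hv : v ∈ ZB Λ δ)
    (hw : w ∈ ZB Λ δ') : v + w ∈ ZB Λ (δ + δ') := by
  rw [mem_ZB] at *
  intro l hl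
  rw [mul_add, ch_add]
  exact norm_add_le_of_le (hv l hl) (hw l hl)

theorem ZB_neg {Λ : Finset (ZMod M)} {δ : ℝ} {v : ZMod M} (hv : v ∈ ZB Λ δ) : -v ∈ ZB Λ δ := by
  rw [mem_ZB] at *
  intro l hl
  rw [mul_neg, ch_neg, norm_neg]
  exact hv l hl

theorem ZB_mono {Λ Λ' : Finset (ZMod M)} {δ δ' : ℝ} (h : Λ' ⊆ Λ) (hδ : δ ≤ δ') :
    ZB Λ δ ⊆ ZB Λ' δ' := by
  exact fun v hv => mem_ZB.mpr fun l hl => (mem_ZB.mp hv l (h hl)).trans hδ

end Pool.Agent.TR
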