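import Pool.Agent.Lib.MP_cc859a_an.TR.Four
import Pool.Agent.Lib.MP_cc859a_an.TR.BohrL

open Finset Real
open scoped BigOperators ComplexConjugate

namespace Pool.Agent.TR

open scoped Pointwise

variable {M : ℕ} [NeZero M]

theorem frei_sum {y : ZMod M} (hy : y ≠ 0) : ∑ l, (e (ch (l * y))).re = 0 := by
  have h := card_smul_expect univ fun l => e (ch (y * l))
  rw [orth, if_neg hy, smul_zero] at h
  simp only [mul_comm _ y]
  rw [← Complex.re_sum, ← h, Complex.zero_re]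

open Classical in
theorem frei_one (Y : Finset (ZMod M)) : ∃ l : ZMod M,
    ((Y.filter fun y => y ≠ 0 ∧ ‖ch (l * y)‖ < 1 / 6).card : ℝ) ≤ 2 / 3 * Y.card := by
  obtain ⟨l, -, hl⟩ := Finset.exists_le_of_sum_le (s := univ) univ_nonempty
    (f := fun l => ∑ y ∈ Y.erase 0, 2 / 3 * (1 + (e (ch (l * y))).re))
    (g := fun _ => (2 / 3 * Y.card : ℝ)) (by
      rw [sum_comm]
      calc _ = ∑ _y ∈ Y.erase 0, ∑ _l : ZMod M, (2 / 3 : ℝ) := sum_congr rfl fun y hy => by
            rw [← mul_sum, sum_add_distrib, frei_sum (ne_of_mem_erase hy), add_zero, mul_sum]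
            simp only [mul_one]
        _ ≤ ∑ _y ∈ Y, ∑ _l : ZMod M, (2 / 3 : ℝ) :=
            sum_le_sum_of_subset_of_nonneg (erase_subset _ _) fun _ _ _ => by positivity
        _ = _ := by
            rw [sum_comm]
            simp only [sum_const (s := Y), nsmul_eq_mul, mul_comm])
  refine ⟨l, le_trans ?_ hl⟩
  rw [card_eq_sum_ones, Nat.cast_sum]
  refine (sum_le_sum fun y hy => ?_).trans (sum_le_sum_of_subset_of_nonneg
    (fun y hy => mem_erase.2 ⟨(mem_filter.1 hy).2.1, (mem_filter.1 hy).1⟩) fun y _ _ => ?_)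
  · have h1 := (mem_filter.1 hy).2.2
    have h2 := cos_le_cos_of_nonneg_of_le_pi (x := 2 * π * ‖ch (l * y)‖) (y := π / 3)
      (by positivity) (by linarith [pi_pos]) (by nlinarith [pi_pos])
    rw [cos_pi_div_three, ← re_e] at h2
    rw [Nat.cast_one]
    linarith
  · rw [re_e]
    linarith [neg_one_le_cos (2 * π * ‖ch (l * y)‖)]

/-- For `y ≠ 0` the mean of `Re e (l y)` over `l` is `0` (`orth`, `re_e`), so at least a third of the
`l` have `‖ch (l y)‖ ≥ 1/6`. Greedy choice: some `l` works for a third of the remaining `y`. -/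
theorem frei_sep (Y : Finset (ZMod M)) : ∃ Λ : Finset (ZMod M),
    (Λ.card : ℝ) ≤ 3 * log Y.card + 1 ∧ ∀ y ∈ Y, y ≠ 0 → ∃ l ∈ Λ, 1 / 6 ≤ ‖ch (l * y)‖ := by
  induction Y using Finset.strongInduction with
  | H Y ih =>
    rcases Y.eq_empty_or_nonempty with rfl | hY
    · exact ⟨∅, by simp, by simp⟩
    obtain ⟨l, hl⟩ := frei_one Y
    have h0 : (1 : ℝ) ≤ Y.card := Nat.one_le_cast.2 hY.card_pos
    generalize hZ : Y.filter (fun y => y ≠ 0 ∧ ‖ch (l * y)‖ < 1 / 6) = Z at hl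
    have h1 : ∀ y ∈ Y, y ≠ 0 → y ∉ Z → 1 / 6 ≤ ‖ch (l * y)‖ := fun y hy hy0 hz =>
      not_lt.1 fun h => hz (hZ ▸ mem_filter.2 ⟨hy, hy0, h⟩)
    rcases Z.eq_empty_or_nonempty with rfl | hne
    · refine ⟨{l}, ?_, fun y hy hy0 => ⟨l, mem_singleton_self l, h1 y hy hy0 (notMem_empty y)⟩⟩
      have := log_nonneg h0
      rw [card_singleton, Nat.cast_one]
      linarith
    obtain ⟨Λ, h2, h3⟩ := ih Z (Finset.ssubset_iff_subset_ne.2
      ⟨hZ ▸ filter_subset _ _, fun h => by rw [h] at hl; linarith⟩)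
    refine ⟨insert l Λ, ?_, fun y hy hy0 => ?_⟩
    · have h4 : ((insert l Λ).card : ℝ) ≤ Λ.card + 1 := by exact_mod_cast card_insert_le l Λ
      have h5 := log_le_log (Nat.cast_pos.2 hne.card_pos) hl
      rw [log_mul (by norm_num) (by linarith)] at h5
      have h6 := log_le_sub_one_of_pos (x := 2 / 3) (by norm_num)
      linarith
    · by_cases hz : y ∈ Z
      · obtain ⟨m, hm, h⟩ := h3 y hz hy0
        exact ⟨m, mem_insert_of_mem hm, h⟩
      · exact ⟨l, mem_insert_self _ _, h1 y hy hy0 hz⟩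

/-- `Γ` is the graph. `Y = {y | (0, y) ∈ 6 Γ - 6 Γ}`; the map `(γ, y) ↦ γ + (0, y)` from `Γ × Y` to
`7 Γ - 6 Γ` is injective, so `|Y| ≤ K ^ 13`
(`Finset.pluennecke_ruzsa_inequality_nsmul_sub_nsmul_sub`). Take `Λ` from `frei_sep`, `pigeon`
with radius `1/100` for the maps `a ↦ ch (l * ξ a)`: `200 ^ |Λ| ≤ 200 K ^ 300`. If six points and
six points of `A'` have the same sum, `y = ∑ ξ a - ∑ ξ a'` is in `Y` and `‖ch (l y)‖ ≤ 6/100`. -/
theorem frei (A : Finset (ZMod M)) (ξ : ZMod M → ZMod M) {K : ℝ} (hK : 1 ≤ K)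
    (h : ((A.image (fun a => (a, ξ a)) - A.image (fun a => (a, ξ a))).card : ℝ) ≤ K * A.card) :
    ∃ A' ⊆ A, (A.card : ℝ) ≤ 200 * K ^ 300 * A'.card ∧
      ∀ a b : Fin 6 → ZMod M, (∀ i, a i ∈ A') → (∀ i, b i ∈ A') → ∑ i, a i = ∑ i, b i →
        ∑ i, ξ (a i) = ∑ i, ξ (b i) := by
  rcases A.eq_empty_or_nonempty with rfl | hA
  · exact ⟨∅, Subset.rfl, by simp, fun a b ha => absurd (ha 0) (notMem_empty _)⟩
  have hc : (A.image fun a => (a, ξ a)).card = A.card :=
    card_image_of_injective _ fun a b h => congrArg Prod.fst h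
  have hm : ∀ a ∈ A, (a, ξ a) ∈ A.image fun a => (a, ξ a) := fun a ha => mem_image_of_mem _ ha
  have hne := hA.image fun a => (a, ξ a)
  generalize (A.image fun a => (a, ξ a)) = Γ at h hc hm hne
  have h0 : (0 : ℝ) < A.card := Nat.cast_pos.2 hA.card_pos
  obtain ⟨Y, hY⟩ : ∃ Y : Finset (ZMod M), ∀ y, y ∈ Y ↔ (0, y) ∈ 6 • Γ - 6 • Γ :=
    ⟨univ.filter fun y => (0, y) ∈ 6 • Γ - 6 • Γ, fun y => by simp⟩
  have h1 : (Y.card : ℝ) ≤ K ^ 13 := by
    have h2 : (A ×ˢ Y).card ≤ (7 • Γ - 6 • Γ).card :=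
      card_le_card_of_injOn (fun x => (x.1, ξ x.1) + (0, x.2)) (fun x hx => by
        have h3 := add_mem_add (hm _ (mem_product.1 hx).1) ((hY _).1 (mem_product.1 hx).2)
        rwa [← add_sub_assoc, ← succ_nsmul'] at h3) fun x _ y _ hxy => by
        obtain ⟨h3, h4⟩ := Prod.ext_iff.1 hxy
        simp only [Prod.fst_add, Prod.snd_add, add_zero] at h3 h4
        exact Prod.ext h3 (by rwa [h3, add_right_inj] at h4)
    have h3 : ((7 • Γ - 6 • Γ).card : ℝ) ≤ (((Γ - Γ).card : ℝ) / Γ.card) ^ (7 + 6) * Γ.card := by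
      have h4 := NNRat.cast_le (K := ℝ).2
        (pluennecke_ruzsa_inequality_nsmul_sub_nsmul_sub hne Γ 7 6)
      push_cast at h4
      exact h4
    have h4 : (A.card : ℝ) * Y.card ≤ (7 • Γ - 6 • Γ).card := by
      rw [card_product] at h2
      exact_mod_cast h2
    rw [hc] at h3
    refine le_of_mul_le_mul_left (h4.trans (h3.trans ?_)) h0
    rw [mul_comm]
    exact mul_le_mul_of_nonneg_left (pow_le_pow_left₀ (by positivity) ((div_le_iff₀ h0).2 h) _) h0.le
  obtain ⟨Λ, hΛ, hs⟩ := frei_sep Y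
  obtain ⟨A', hA', h2, h3⟩ := pigeon A Λ (fun l a => ch (l * ξ a)) (δ := 1 / 100) (by norm_num)
    (by norm_num)
  refine ⟨A', hA', ?_, fun a b ha hb hab => ?_⟩
  · have hk := log_nonneg hK
    have h4 : log Y.card ≤ 13 * log K := by
      rcases (Nat.cast_nonneg (α := ℝ) Y.card).eq_or_lt with h5 | h5
      · rw [← h5, log_zero]
        positivity
      · simpa using log_le_log h5 h1
    have h5 : log 200 ≤ 6 := by
      rw [log_le_iff_le_exp (by norm_num)]
      have h6 := pow_le_pow_left₀ (by norm_num) exp_one_gt_d9.le 6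
      rw [exp_one_pow] at h6
      exact le_trans (by norm_num) h6
    have h6 : (200 : ℝ) ^ Λ.card ≤ 200 * K ^ 300 := by
      rw [← log_le_log_iff (by positivity) (by positivity), log_mul (by norm_num) (by positivity),
        log_pow, log_pow]
      have h7 : 0 ≤ log 200 := log_nonneg (by norm_num)
      push_cast
      nlinarith [mul_le_mul_of_nonneg_right hΛ h7, mul_le_mul_of_nonneg_right h4 h7,
        mul_le_mul_of_nonneg_right h5 hk]
    rw [show (1 / 100 / 2 : ℝ) = 200⁻¹ by norm_num, inv_pow, inv_mul_le_iff₀ (by positivity)] at h2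
    exact h2.trans (mul_le_mul_of_nonneg_right h6 (Nat.cast_nonneg _))
  · by_contra hn
    have h4 : ∀ c : Fin 6 → ZMod M, (∀ i, c i ∈ A') → (∑ i, c i, ∑ i, ξ (c i)) ∈ 6 • Γ :=
      fun c hc => mem_nsmul.2 ⟨fun i => ⟨_, hm _ (hA' (hc i))⟩, by
        rw [List.sum_ofFn]
        exact Prod.ext Prod.fst_sum Prod.snd_sum⟩
    have h5 := sub_mem_sub (h4 a ha) (h4 b hb)
    rw [Prod.mk_sub_mk, hab, sub_self] at h5
    obtain ⟨l, hl, h6⟩ := hs _ ((hY _).2 h5) (sub_ne_zero.2 hn)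
    have h7 := map_sum (AddMonoidHom.mk' (ch (M := M)) ch_add) (fun i => l * (ξ (a i) - ξ (b i))) univ
    simp only [AddMonoidHom.mk'_apply] at h7
    rw [← sum_sub_distrib, mul_sum, h7] at h6
    have h8 := h6.trans (norm_sum_le_of_le univ (n := fun _ => 1 / 100) fun i _ => by
      rw [mul_sub, ch_sub]
      exact h3 _ (ha i) _ (hb i) l hl)
    norm_num at h8

end Pool.Agent.TR
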