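import Pool.Agent.Lib.MP_cc859a_an.TR.SpL

open Finset Real
open scoped BigOperators ComplexConjugate

namespace Pool.Agent.TR

/-- Greedy covering. Strong induction on `∑ h ∈ S, (W h).card`, for all `W`: if at most half of
the `W h` are nonempty take `P = ∅`; else choose `ξ h ∈ W h` on the set `S'` of these `h`, get a
piece `p`, and remove `val p h` from `W h` for the `h` with `dom p h`. -/
theorem greedy {α β P : Type*} [Nonempty β] (S : Finset α) (W : α → Finset β)
    (dom : P → α → Prop) (val : P → α → β) (ok : P → Prop) {m : ℝ} (hm : 0 < m)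
    (h : ∀ S' ⊆ S, S.card ≤ 2 * S'.card → S'.Nonempty → ∀ ξ : α → β, (∀ x ∈ S', ξ x ∈ W x) →
      ∃ p, ok p ∧ ∃ S'' ⊆ S', m ≤ S''.card ∧ ∀ x ∈ S'', dom p x ∧ val p x = ξ x) :
    ∃ (Ps : Finset P) (S₀ : Finset α), m * Ps.card ≤ ∑ x ∈ S, ((W x).card : ℝ) ∧
      (∀ p ∈ Ps, ok p) ∧ S₀ ⊆ S ∧ S.card ≤ 2 * S₀.card ∧
      ∀ x ∈ S₀, ∀ ξ ∈ W x, ∃ p ∈ Ps, dom p x ∧ val p x = ξ := by
  classical
  induction hn : ∑ x ∈ S, (W x).card using Nat.strong_induction_on generalizing W with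
  | _ n ih =>
  have hsplit := card_filter_add_card_filter_not (s := S) fun x => (W x).Nonempty
  by_cases hc : S.card ≤ 2 * (S.filter fun x => (W x).Nonempty).card ∧
      (S.filter fun x => (W x).Nonempty).Nonempty
  swap
  · refine ⟨∅, S.filter fun x => ¬(W x).Nonempty, ?_, by simp, filter_subset _ _, ?_,
      fun x hx ξ hξ => absurd ⟨ξ, hξ⟩ (mem_filter.1 hx).2⟩
    · rw [card_empty, Nat.cast_zero, mul_zero]
      positivity
    · rw [not_and_or, not_nonempty_iff_eq_empty, ← card_eq_zero] at hc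
      omega
  have hξ : ∀ x, ∃ b : β, (W x).Nonempty → b ∈ W x := fun x => by
    by_cases hx : (W x).Nonempty
    · exact ⟨hx.choose, fun _ => hx.choose_spec⟩
    · exact ⟨Classical.arbitrary β, fun a => absurd a hx⟩
  choose ξ hξ using hξ
  have hξ' : ∀ x ∈ S.filter fun x => (W x).Nonempty, ξ x ∈ W x := fun x hx =>
    hξ x (mem_filter.1 hx).2
  obtain ⟨p, hp, S'', hS'', hcard, hdom⟩ := h _ (filter_subset _ _) hc.1 hc.2 ξ hξ'
  let W' : α → Finset β := fun x => if dom p x then (W x).erase (val p x) else W x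
  have hsub : ∀ x, W' x ⊆ W x := fun x => by
    simp only [W']
    split_ifs
    exacts [erase_subset _ _, Subset.rfl]
  have hS2 : S'' ⊆ S := hS''.trans (filter_subset _ _)
  have hsum : ∑ x ∈ S, (W' x).card + S''.card ≤ ∑ x ∈ S, (W x).card := by
    have e : S''.card = ∑ x ∈ S, if x ∈ S'' then 1 else 0 := by
      rw [sum_ite_mem, inter_eq_right.2 hS2, card_eq_sum_ones]
    rw [e, ← sum_add_distrib]
    refine sum_le_sum fun x _ => ?_
    split_ifs with hx
    · obtain ⟨h1, h2⟩ := hdom x hx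
      simp only [W', if_pos h1]
      exact (card_erase_add_one (h2 ▸ hξ' x (hS'' hx))).le
    · exact card_le_card (hsub x)
  have hpos : 0 < S''.card := by exact_mod_cast hm.trans_le hcard
  obtain ⟨Ps, S₀, a1, a2, a3, a4, a5⟩ := ih _ (by omega) W'
    (fun S' b1 b2 b3 η hη => h S' b1 b2 b3 η fun x hx => hsub x (hη x hx)) rfl
  refine ⟨insert p Ps, S₀, ?_, fun q hq => ?_, a3, a4, fun x hx b hb => ?_⟩
  · have b1 : ((insert p Ps).card : ℝ) ≤ Ps.card + 1 := by exact_mod_cast card_insert_le p Ps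
    have b2 : ∑ x ∈ S, ((W' x).card : ℝ) + S''.card ≤ ∑ x ∈ S, ((W x).card : ℝ) := by
      exact_mod_cast hsum
    have b3 := mul_le_mul_of_nonneg_left b1 hm.le
    linarith
  · rcases mem_insert.1 hq with rfl | hq
    exacts [hp, a2 q hq]
  · by_cases hd : dom p x ∧ val p x = b
    · exact ⟨p, mem_insert_self _ _, hd⟩
    · have hb' : b ∈ W' x := by
        simp only [W']
        split_ifs with h1
        · exact mem_erase.2 ⟨fun e => hd ⟨h1, e.symm⟩, hb⟩
        · exact hb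
      obtain ⟨q, hq, c⟩ := a5 x hx b hb'
      exact ⟨q, mem_insert_of_mem hq, c⟩

variable {A : Type*} [AddCommGroup A]

/-- A chain of dissociated sets stops. If `Q` fails, induction gives for every `n` a dissociated
`D ⊆ Sp F k` of size `n` with `P D` (`dissoc_insert`, `card_dissoc_le`). -/
theorem chain_ind (F : Finset A) (k : ℕ) (P : Finset A → Prop) (Q : Prop) {T₀ : ℝ}
    (hT : 8 * (F.card : ℝ) ^ 2 + 3 * F.card * log (2 * k + 1) ≤ T₀) (h0 : P ∅)
    (hstep : ∀ D : Finset A, (D.card : ℝ) ≤ T₀ → P D →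
      Q ∨ ∃ m ∈ Sp F k, m ∉ Sp D 1 ∧ ∃ hm : m ∉ D, P (cons m D hm)) : Q := by
  classical
  by_contra hQ
  have key : ∀ n : ℕ, ∃ D : Finset A, D.card = n ∧ AddDissociated (D : Set A) ∧ D ⊆ Sp F k ∧
      P D := by
    intro n
    induction n with
    | zero => exact ⟨∅, rfl, by simp, empty_subset _, h0⟩
    | succ n ih =>
      obtain ⟨D, h1, h2, h3, h4⟩ := ih
      rcases hstep D ((card_dissoc_le h2 h3).trans hT) h4 with q | ⟨m, a1, a2, a3, a4⟩
      · exact absurd q hQ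
      · refine ⟨cons m D a3, by rw [card_cons, h1], ?_, cons_subset.2 ⟨a1, h3⟩, a4⟩
        rw [cons_eq_insert]
        exact (dissoc_insert h2 a2).1
  obtain ⟨n, hn⟩ := exists_nat_gt T₀
  obtain ⟨D, h1, h2, h3, -⟩ := key n
  have h5 := (card_dissoc_le h2 h3).trans hT
  rw [h1] at h5
  exact absurd h5 (not_le.2 hn)

/-- A separated subset of largest size (`Sp_neg`, `Sp_zero_mem`). -/
theorem maxsep (Ls D : Finset A) :
    ∃ L ⊆ Ls, (∀ l ∈ L, ∀ l' ∈ L, l ≠ l' → l - l' ∉ Sp D 1) ∧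
      ∀ l ∈ Ls, ∃ l' ∈ L, l - l' ∈ Sp D 1 := by
  classical
  obtain ⟨L, hL, hmax⟩ := exists_max_image
    (Ls.powerset.filter fun L : Finset A => ∀ l ∈ L, ∀ l' ∈ L, l ≠ l' → l - l' ∉ Sp D 1) card
    ⟨∅, by simp⟩
  rw [mem_filter, mem_powerset] at hL
  refine ⟨L, hL.1, hL.2, fun l hl => ?_⟩
  by_contra h
  have h1 : ∀ l' ∈ L, l - l' ∉ Sp D 1 := fun l' hl' e => h ⟨l', hl', e⟩
  have h2 : l ∉ L := fun e => h1 l e (by rw [sub_self]; exact Sp_zero_mem)
  have h3 := hmax (insert l L) (mem_filter.2 ⟨mem_powerset.2 (insert_subset hl hL.1), ?_⟩)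
  · rw [card_insert_of_notMem h2] at h3
    omega
  · intro a ha b hb hab
    rcases mem_insert.1 ha with rfl | ha' <;> rcases mem_insert.1 hb with rfl | hb'
    · exact absurd rfl hab
    · exact h1 b hb'
    · intro e
      exact h1 a ha' (by simpa only [neg_sub] using Sp_neg e)
    · exact hL.2 a ha' b hb' hab

end Pool.Agent.TR
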