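import Pool.Agent.Lib.MP_cc859a_an.TR.LBas
import Pool.Agent.Lib.MP_cc859a_an.TR.SpL
import Pool.Agent.Lib.MP_cc859a_an.TR.Num

open Finset Real
open scoped BigOperators ComplexConjugate

namespace Pool.Agent.TR

/-- One `h`. `exists_basis` gives a dissociated `D ⊆ W` with `W ⊆ Sp D 1`, `|D| ≤ s` by
`card_dissoc_le`. Embed `D` in `Fin s`; `f j` is a piece that covers the member of `D` at `j`, and
for the other `j` a fixed piece that covers some member of `W`, with coefficient `0`. -/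
theorem pick_one {M : ℕ} [NeZero M] (P : Finset (Pz M)) (h : ZMod M) {Λ W : Finset (ZMod M)}
    (hW : W ⊆ Sp Λ 1) (hne : W.Nonempty) (hc : ∀ ξ ∈ W, ∃ p ∈ P, p.dom h ∧ p.val h = ξ) {s : ℕ}
    (hs : 8 * (Λ.card : ℝ) ^ 2 + 3 * Λ.card * log 3 ≤ s) :
    ∃ f : Fin s → Pz M, (∀ j, f j ∈ P ∧ (f j).dom h ∧ (f j).val h ∈ W) ∧
      ∀ ξ ∈ W, ∃ a : Fin s → ℤ, (∀ j, |a j| ≤ 1) ∧ ξ = ∑ j, a j • (f j).val h := by
  obtain ⟨D, hDW, hD, hsp⟩ := exists_basis W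
  obtain ⟨ξ₀, hξ₀⟩ := hne
  have : Nonempty (Pz M) := ⟨(hc ξ₀ hξ₀).choose⟩
  choose! p hp1 hp2 hp3 using hc
  have h1 := card_dissoc_le hD (hDW.trans hW)
  rw [show (2 * ((1 : ℕ) : ℝ) + 1) = 3 by norm_num] at h1
  have h2 : D.card ≤ s := by exact_mod_cast h1.trans hs
  obtain ⟨ι⟩ : Nonempty (D ↪ Fin s) := Function.Embedding.nonempty_of_card_le (by simpa using h2)
  have hv : ∀ j, Function.extend ι (fun x : D => (x : ZMod M)) (fun _ => ξ₀) j ∈ W := by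
    intro j
    by_cases hj : ∃ x, ι x = j
    · obtain ⟨x, rfl⟩ := hj
      rw [ι.injective.extend_apply]
      exact hDW x.2
    · rw [Function.extend_apply' _ _ _ hj]
      exact hξ₀
  refine ⟨fun j => p (Function.extend ι (fun x : D => (x : ZMod M)) (fun _ => ξ₀) j),
    fun j => ⟨hp1 _ (hv j), hp2 _ (hv j), (hp3 _ (hv j)).symm ▸ hv j⟩, fun ξ hξ => ?_⟩
  obtain ⟨c, hc, rfl⟩ := mem_Sp.1 (hsp hξ)
  refine ⟨Function.extend ι (fun x : D => c x) fun _ => 0, fun j => ?_, ?_⟩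
  · by_cases hj : ∃ x, ι x = j
    · obtain ⟨x, rfl⟩ := hj
      rw [ι.injective.extend_apply]
      exact_mod_cast hc x
    · rw [Function.extend_apply' _ _ _ hj]
      simp
  · rw [← sum_coe_sort D]
    refine Fintype.sum_of_injective ι ι.injective _ _ (fun j hj => ?_) fun x => ?_
    · rw [Function.extend_apply' _ _ _ hj, zero_smul]
    · rw [hp3 _ (hv _), ι.injective.extend_apply, ι.injective.extend_apply]

/-- Paper D3, first half. `s = ⌈8 X ^ 2 + 3 X log 3⌉₊`; pigeonhole `h ↦ f` into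
`Fintype.piFinset fun _ => P`, of size `|P| ^ s ≤ exp (s X)`. -/
theorem pick : ∃ C : ℕ, 1 ≤ C ∧ ∀ X κ : ℝ, 2 ≤ X → 0 < κ → ∀ (M : ℕ) [NeZero M]
    (g : ZMod M → ℂ), Cov g κ X → Pick g κ (X ^ C) := by
  classical
  refine ⟨8, by norm_num, fun X κ hX hκ M _ g ⟨P, S, hP, hok, hS, hΛ⟩ => ?_⟩
  have hM : (0 : ℝ) < M := Nat.cast_pos.2 (NeZero.pos M)
  have hX0 : 0 < X := by linarith
  have hl0 : 0 ≤ log 3 := log_nonneg (by norm_num)
  have hl : log 3 ≤ 2 := by linarith [log_le_sub_one_of_pos (x := 3) (by norm_num)]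
  obtain ⟨s, hs1, hs2⟩ : ∃ s : ℕ, 8 * X ^ 2 + 3 * X * log 3 ≤ s ∧ (s : ℝ) ≤ X ^ 6 := by
    refine ⟨⌈8 * X ^ 2 + 3 * X * log 3⌉₊, Nat.le_ceil _, (Nat.ceil_lt_add_one (by positivity)).le.trans ?_⟩
    have h1 := num_two_pow hX 4
    have h2 : 16 * X ^ 2 ≤ X ^ 6 := by
      rw [show X ^ 6 = X ^ 4 * X ^ 2 by ring]
      exact mul_le_mul_of_nonneg_right (by linarith) (by positivity)
    nlinarith
  have hX8 : X ≤ X ^ 8 := num_le_pow hX (by norm_num)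
  have key : ∀ h ∈ S, ∃ f : Fin s → Pz M, (∀ j, f j ∈ P) ∧
      ((∀ j, (f j).dom h ∧ exp (-X ^ 8) ≤ muh g h ((f j).val h)) ∧
      ∃ W : Finset (ZMod M), κ / 2 ≤ ∑ ξ ∈ W, muh g h ξ ∧
        ∀ ξ ∈ W, ∃ a : Fin s → ℤ, (∀ j, |a j| ≤ 1) ∧ ξ = ∑ j, a j • (f j).val h) := by
    intro h hh
    obtain ⟨Λ, W, a1, a2, a3, a4⟩ := hΛ h hh
    have hne : W.Nonempty := by
      rw [nonempty_iff_ne_empty]
      rintro rfl
      rw [sum_empty] at a3
      linarith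
    obtain ⟨f, b1, b2⟩ := pick_one P h a2 hne (fun ξ hξ => (a4 ξ hξ).2) (s := s) (by
      refine le_trans ?_ hs1
      gcongr)
    exact ⟨f, fun j => (b1 j).1, fun j => ⟨(b1 j).2.1,
      (exp_le_exp.2 (neg_le_neg hX8)).trans (a4 _ (b1 j).2.2).1⟩, W, a3, b2⟩
  obtain ⟨h₀, hh₀⟩ : S.Nonempty := by
    rw [← card_pos, ← Nat.cast_pos (α := ℝ)]
    exact lt_of_lt_of_le (by positivity) hS
  have : Nonempty (Fin s → Pz M) := ⟨(key h₀ hh₀).choose⟩
  choose! f hf1 hf2 using key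
  have hmap : ∀ h ∈ S, f h ∈ Fintype.piFinset fun _ : Fin s => P := fun h hh =>
    Fintype.mem_piFinset.2 (hf1 h hh)
  obtain ⟨y, hy, hc⟩ := exists_le_card_fiber_of_nsmul_le_card_of_maps_to (b := exp (-X ^ 8) * M)
    hmap ⟨_, hmap h₀ hh₀⟩ (by
      refine le_trans ?_ hS
      rw [Fintype.card_piFinset, prod_const, card_univ, Fintype.card_fin, nsmul_eq_mul, ← mul_assoc]
      refine mul_le_mul_of_nonneg_right ?_ hM.le
      have h1 : ((P.card ^ s : ℕ) : ℝ) ≤ exp (s * X) := by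
        rw [exp_nat_mul, Nat.cast_pow]
        gcongr
      have h2 : s * X + X ≤ X ^ 8 :=
        num_add hX (num_mul hX hs2 (pow_one X).ge hX0.le) (num_le_pow hX (by norm_num))
      refine (mul_le_mul_of_nonneg_right h1 (exp_pos _).le).trans ?_
      rw [← exp_add]
      exact exp_le_exp.2 (by linarith))
  refine ⟨s, y, _, hs2.trans (num_mono hX (by norm_num)), fun j => ?_, hc, fun h hh => ?_⟩
  · obtain ⟨a1, a2, a3⟩ := hok _ (Fintype.mem_piFinset.1 hy j)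
    exact ⟨a1.trans hX8, (exp_le_exp.2 (neg_le_neg hX8)).trans a2, a3⟩
  · obtain ⟨a1, rfl⟩ := mem_filter.1 hh
    exact hf2 h a1

end Pool.Agent.TR
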