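import Pool.Agent.Lib.MP_cc859a_an.TR.LCover
import Pool.Agent.Lib.MP_cc859a_an.TR.LPick

open Finset Real
open scoped BigOperators ComplexConjugate

namespace Pool.Agent.TR

theorem laff_shift {M : ℕ} [NeZero M] (S : Finset (ZMod M)) (B : Finset ℤ) :
    ∃ h : ZMod M, (B.card : ℝ) * S.card ≤ M * (B.filter fun v : ℤ => h + v ∈ S).card := by
  have h1 : ∀ v : ℤ, (univ.filter fun h : ZMod M => h + v ∈ S).card = S.card := fun v => by
    refine card_bij (fun h _ => h + v) (fun h hh => (mem_filter.1 hh).2)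
      (fun a _ b _ e => add_right_cancel e) fun b hb => ⟨b - v, ?_, sub_add_cancel _ _⟩
    rw [mem_filter, sub_add_cancel]
    exact ⟨mem_univ _, hb⟩
  have h2 : ∑ h : ZMod M, (B.filter fun v : ℤ => h + v ∈ S).card = B.card * S.card := by
    simp only [card_filter]
    rw [sum_comm]
    simp only [← card_filter, h1, sum_const, smul_eq_mul]
  obtain ⟨h, -, hh⟩ := exists_le_of_sum_le (s := univ) (f := fun _ : ZMod M => B.card * S.card)
    (g := fun h : ZMod M => M * (B.filter fun v : ℤ => h + v ∈ S).card) univ_nonempty (by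
      rw [sum_const, ← mul_sum, h2, card_univ, ZMod.card, smul_eq_mul])
  exact ⟨h, by exact_mod_cast hh⟩

/-- Paper D3, second half. `Θ` is the union over `j` of the images of `(f j).Λ` under `ch`,
`δ = exp (-X)`; `v ∈ BM M Θ δ` gives `(v : ZMod M) ∈ ZB (f j).Λ (f j).δ` (`ch_int_mul`). With
`B = BM M Θ (δ / 8)`, `∑ h₀, card {v ∈ B | h₀ + v ∈ S} = |B| |S|`, so some `h₀` has a set `S₁` of at
least `exp (-X) |B|` such `v` (`card_BM_ge`); take `v₀ ∈ S₁`, replace `h₀` by `h₀ + v₀ ∈ S` and `S₁`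
by `S₁ - v₀`. `l j v = (f j).l v`, `c j = (f j).val (h₀ + v₀)`. -/
theorem aff : ∃ C : ℕ, 1 ≤ C ∧ ∀ X κ : ℝ, 2 ≤ X → ∀ (M : ℕ) [NeZero M] (g : ZMod M → ℂ),
    Pick g κ X → H2 g κ (X ^ C) := by
  classical
  refine ⟨9, by norm_num, fun X κ hX M _ g ⟨s, f, S, hs, hf, hS, h⟩ => ?_⟩
  let Θ : Finset T := univ.biUnion fun j => (f j).Λ.image ch
  have hX0 : 0 ≤ X := by linarith
  have hM : (0 : ℝ) < M := Nat.cast_pos.2 (NeZero.pos M)
  have hΘ : (Θ.card : ℝ) ≤ X ^ 2 := by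
    have a1 : Θ.card ≤ ∑ j, (f j).Λ.card :=
      card_biUnion_le.trans (sum_le_sum fun j _ => card_image_le)
    have a2 : ∑ j, ((f j).Λ.card : ℝ) ≤ s * X := by
      refine (sum_le_card_nsmul _ _ X fun j _ => (hf j).1).trans_eq ?_
      rw [card_univ, Fintype.card_fin, nsmul_eq_mul]
    have a3 : (Θ.card : ℝ) ≤ ∑ j, ((f j).Λ.card : ℝ) := by exact_mod_cast a1
    rw [sq]
    exact a3.trans (a2.trans (mul_le_mul_of_nonneg_right hs hX0))
  have hδ0 : 0 < exp (-X) := exp_pos _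
  have hδ1 : exp (-X) ≤ 1 := exp_le_one_iff.2 (by linarith)
  have hZ : ∀ j, ∀ v ∈ BM M Θ (exp (-X)), (v : ZMod M) ∈ ZB (f j).Λ (f j).δ := fun j v hv =>
    mem_ZB.2 fun l hl => by
      rw [mul_comm, ch_int_mul]
      exact ((mem_Bohr.1 hv).2 _ (mem_biUnion.2 ⟨j, mem_univ _, mem_image_of_mem _ hl⟩)).trans
        (hf j).2.1
  have h3 : X + 3 ≤ X ^ 3 := by nlinarith [num_two_pow hX 2]
  have hB : exp (-X ^ 8) * M ≤ (BM M Θ (exp (-X) / 8)).card := by
    have a1 : (8 : ℝ) ≤ exp 3 := by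
      have a2 := pow_le_pow_left₀ (by norm_num) (add_one_le_exp (1 : ℝ)) 3
      rw [← exp_nat_mul] at a2
      norm_num at a2
      exact a2
    have a3 : exp (-X ^ 3) ≤ exp (-X) / 8 := by
      rw [le_div_iff₀ (by norm_num)]
      refine (mul_le_mul_of_nonneg_left a1 (exp_pos _).le).trans ?_
      rw [← exp_add]
      exact exp_le_exp.2 (by linarith)
    refine le_trans (mul_le_mul_of_nonneg_right (exp_le_exp.2 (neg_le_neg ?_)) hM.le)
      (card_BM_ge (hΘ.trans (num_mono hX (by norm_num : 2 ≤ 3))) a3 (by linarith))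
    rw [show X ^ 8 = (X ^ (3 + 1)) ^ 2 by ring]
    exact pow_le_pow_left₀ (by positivity) (num_add hX le_rfl (num_one_le hX 3)) 2
  obtain ⟨h₀, hh⟩ := laff_shift S (BM M Θ (exp (-X) / 8))
  set S₁ := (BM M Θ (exp (-X) / 8)).filter fun v : ℤ => h₀ + v ∈ S with hS₁
  have hc : exp (-X ^ 9) * M ≤ S₁.card := by
    refine le_of_mul_le_mul_left (le_trans ?_ hh) hM
    have a1 : exp (-X ^ 9) ≤ exp (-X ^ 8) * exp (-X) := by
      rw [← exp_add]
      have a2 : X ^ 8 + X ≤ X ^ 9 :=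
        num_add hX (le_refl (X ^ 8)) (num_le_pow hX (by norm_num : 1 ≤ 8))
      exact exp_le_exp.2 (by linarith)
    calc M * (exp (-X ^ 9) * M) ≤ M * (exp (-X ^ 8) * exp (-X) * M) := by gcongr
      _ = exp (-X ^ 8) * M * (exp (-X) * M) := by ring
      _ ≤ _ := mul_le_mul hB hS (by positivity) (Nat.cast_nonneg _)
  obtain ⟨v₀, hv₀⟩ : S₁.Nonempty :=
    card_pos.1 (Nat.cast_pos.1 (lt_of_lt_of_le (by positivity) hc))
  have h9 : X ≤ X ^ 9 := num_le_pow hX (by norm_num)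
  have he : exp (-X ^ 9) ≤ exp (-X) := exp_le_exp.2 (neg_le_neg h9)
  have hsub : S₁.image (fun v => v - v₀) ⊆ BM M Θ (exp (-X) / 4) := fun v hv => by
    obtain ⟨w, hw, rfl⟩ := mem_image.1 hv
    exact BM_mono Subset.rfl (by linarith) (BM_sub (mem_filter.1 hw).1 (mem_filter.1 hv₀).1)
  refine ⟨s, Θ, exp (-X), h₀ + v₀, fun j => (f j).val (h₀ + v₀), fun j v => (f j).l v,
    S₁.image (fun v => v - v₀), hs.trans h9, hΘ.trans (num_mono hX (by norm_num)), he, hδ1,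
    fun j v hv w hw => ?_, hsub, ?_, fun v hv => ?_⟩
  · simp only [Int.cast_add]
    exact (hf j).2.2 _ (hZ j v hv) _ (hZ j w hw)
  · rwa [card_image_of_injective _ (sub_left_injective (b := v₀))]
  · have a1 : h₀ + v₀ + v ∈ S := by
      obtain ⟨w, hw, rfl⟩ := mem_image.1 hv
      rw [Int.cast_sub, add_assoc, add_sub_cancel]
      exact (mem_filter.1 hw).2
    have a2 : ∀ j, (f j).val (h₀ + v₀) + (f j).l v = (f j).val (h₀ + v₀ + v) := fun j => by
      have a3 : 0 < (f j).δ := hδ0.trans_le (hf j).2.1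
      rw [Pz.val, Pz.val, add_sub_right_comm (h₀ + v₀), (hf j).2.2 _
        (ZB_mono Subset.rfl (by linarith) ((h _ (mem_filter.1 hv₀).2).1 j).1) _
        (hZ j v (BM_mono Subset.rfl (by linarith) (hsub hv))), add_assoc]
    simp only [a2]
    exact ⟨fun j => he.trans ((h _ a1).1 j).2, (h _ a1).2⟩

/-- `cover`, `pick`, `aff`; the exponents multiply. -/
theorem h2 : ∃ C : ℕ, 1 ≤ C ∧ ∀ X κ : ℝ, 2 ≤ X → 1 / X ≤ κ → ∀ (M : ℕ) [NeZero M]
    (g : ZMod M → ℂ), (∀ x, ‖g x‖ ≤ 1) → H1 g κ X → H2 g κ (X ^ C) := by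
  obtain ⟨C₁, a1, b1⟩ := cover
  obtain ⟨C₂, a2, b2⟩ := pick
  obtain ⟨C₃, a3, b3⟩ := aff
  refine ⟨C₁ * C₂ * C₃, Nat.mul_pos (Nat.mul_pos a1 a2) a3, fun X κ hX hκ M _ g hg h => ?_⟩
  have h1 := num_two_le hX a1
  rw [pow_mul, pow_mul]
  exact b3 _ κ (num_two_le h1 a2) M g (b2 _ κ h1 (lt_of_lt_of_le (by positivity) hκ) M g
    (b1 X κ hX hκ M g hg h))

end Pool.Agent.TR
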