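import Pool.Agent.Lib.MP_cc859a_an.TR.LBas

open Finset Real
open scoped BigOperators ComplexConjugate

namespace Pool.Agent.TR

/-- Paper D9, rearrangement. `ω' Y` from `exists_phase`; every term
`∑ w ∈ V, (g (Y + w) conj (ω' Y * ψ Y w)).re = |V| ‖𝔼 …‖` is nonnegative, so the sum over
`𝒴 ∪ (J - V)` is at least `c |V|`, and it equals `∑ z ∈ J, ∑ w ∈ V, (g z conj (… (z - w) w)).re`.
For `z ∈ J` the points `w = z - rep z + v`, `v ∈ V₀`, lie in `V` and miss at most `ζ |V₀|` points.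
So `∑ v ∈ V₀, ∑ z ∈ J, (g z conj (… (rep z - v) (z - rep z + v))).re ≥ (c - ζ |J|) |V₀|`; group by
`r = rep z` and take for each `r` the best `v`; `Yc r = r - v`. -/
theorem patch_sum {J V U : Finset ℤ} {ζ c : ℝ} (hR : Reg V U ζ) (g : ℤ → ℂ) (hg : ∀ y, ‖g y‖ ≤ 1)
    (hg0 : ∀ y ∉ J, g y = 0) (rep : ℤ → ℤ) (hrep : ∀ y ∈ J, y - rep y ∈ U) (ψ : ℤ → ℤ → ℂ)
    (hψ : ∀ Y w, ‖ψ Y w‖ ≤ 1) (𝒴 : Finset ℤ) (hc : 0 ≤ c)
    (h : c ≤ ∑ Y ∈ 𝒴, ‖𝔼 w ∈ V, g (Y + w) * conj (ψ Y w)‖) :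
    ∃ (Yc : ℤ → ℤ) (ω : ℤ → ℂ), (∀ r, ‖ω r‖ ≤ 1) ∧ (∀ y ∈ J, y - Yc (rep y) ∈ V) ∧
      c - ζ * J.card ≤
        ∑ y ∈ J, (g y * conj (ω (rep y) * ψ (Yc (rep y)) (y - Yc (rep y)))).re := by
  obtain ⟨hne, V₀, V₁, h0, h1, h2, -, h4⟩ := hR
  choose ω hω hω' using fun Y => exists_phase (𝔼 w ∈ V, g (Y + w) * conj (ψ Y w))
  obtain ⟨G, hG⟩ : ∃ G : ℤ → ℤ → ℝ, ∀ Y z, G Y z = (g z * conj (ω Y * ψ Y (z - Y))).re :=
    ⟨_, fun _ _ => rfl⟩
  have c0 : (V₀.card : ℝ) ≤ V.card := Nat.cast_le.2 (card_le_card h0)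
  have c1 : (V.card : ℝ) ≤ (1 + ζ) * V₀.card := (Nat.cast_le.2 (card_le_card h1)).trans h4
  have c2 : (0 : ℝ) < V₀.card := Nat.cast_pos.2 (Nat.pos_of_ne_zero fun e => by
    simp [e, hne.ne_empty] at c1)
  have a1 : ∀ Y, ∑ w ∈ V, G Y (Y + w) = V.card * ‖𝔼 w ∈ V, g (Y + w) * conj (ψ Y w)‖ := fun Y => by
    have e := congrArg (fun x => ((V.card : ℂ) * x).re) (hω' Y)
    simp only [← mul_assoc, card_mul_expect, sum_mul, Complex.re_sum] at e
    simp only [hG, add_sub_cancel_left, map_mul, mul_comm (conj (ω Y)), ← mul_assoc, e]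
    simp
  have a2 : ∀ w ∈ V, ∑ Y ∈ 𝒴 ∪ (J ×ˢ V).image fun p => p.1 - p.2, G Y (Y + w) =
      ∑ z ∈ J, G (z - w) z := fun w hw => by
    rw [← sum_subset (s₁ := J.image (· - w)) (fun Y hY => ?_) fun Y _ hY => ?_,
      sum_image fun _ _ _ _ e => sub_left_injective e]
    · simp only [sub_add_cancel]
    · obtain ⟨z, hz, rfl⟩ := mem_image.1 hY
      exact mem_union_right _ (mem_image.2 ⟨(z, w), mem_product.2 ⟨hz, hw⟩, rfl⟩)
    · rw [hG, hg0 _ fun e => hY (mem_image.2 ⟨_, e, add_sub_cancel_right _ _⟩), zero_mul,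
        Complex.zero_re]
  have a3 : V.card * c ≤ ∑ z ∈ J, ∑ w ∈ V, G (z - w) z := by
    rw [sum_comm, ← sum_congr rfl a2, sum_comm]
    refine (mul_le_mul_of_nonneg_left h (Nat.cast_nonneg _)).trans ?_
    simp only [a1, mul_sum]
    exact sum_le_sum_of_subset_of_nonneg subset_union_left fun _ _ _ => by positivity
  have a4 : ∀ z ∈ J, ∑ w ∈ V, G (z - w) z ≤ ∑ v ∈ V₀, G (rep z - v) z + ζ * V₀.card := by
    intro z hz
    have b1 : V₀.map (addRightEmbedding (z - rep z)) ⊆ V := fun x hx => by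
      obtain ⟨v, hv, rfl⟩ := mem_map.1 hx
      exact h2 v hv _ (hrep z hz)
    rw [← sum_sdiff b1, sum_map, add_comm]
    refine add_le_add (sum_congr rfl fun v _ => ?_).le ((sum_le_card_nsmul _ _ 1 fun w _ => ?_).trans ?_)
    · rw [addRightEmbedding_apply, show z - (v + (z - rep z)) = rep z - v by ring]
    · rw [hG]
      refine (Complex.re_le_norm _).trans ?_
      rw [norm_mul, RCLike.norm_conj, norm_mul, hω, one_mul]
      exact mul_le_one₀ (hg _) (norm_nonneg _) (hψ _ _)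
    · rw [card_sdiff_of_subset b1, nsmul_one, Nat.cast_sub (card_le_card b1), card_map]
      linarith
  have a5 : ∀ b : ℤ → ℤ, ∑ z ∈ J, G (rep z - b (rep z)) z =
      ∑ r ∈ J.image rep, ∑ z ∈ J with rep z = r, G (r - b r) z := fun b => by
    rw [← sum_fiberwise_of_maps_to fun z hz => mem_image_of_mem rep hz]
    exact sum_congr rfl fun r _ => sum_congr rfl fun z hz => by rw [(mem_filter.1 hz).2]
  choose b hb hb' using fun r => exists_max_image V₀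
    (fun v => ∑ z ∈ J with rep z = r, G (r - v) z) (card_pos.1 (Nat.cast_pos.1 c2))
  have a6 : ∑ z ∈ J, ∑ v ∈ V₀, G (rep z - v) z ≤ V₀.card * ∑ z ∈ J, G (rep z - b (rep z)) z := by
    rw [sum_comm, ← nsmul_eq_mul, a5]
    exact sum_le_card_nsmul _ _ _ fun v hv =>
      (a5 fun _ => v).trans_le (sum_le_sum fun r _ => hb' r v hv)
  refine ⟨fun r => r - b r, fun r => ω (r - b r), fun r => (hω _).le, fun y hy => ?_, ?_⟩
  · rw [show y - (rep y - b (rep y)) = b (rep y) + (y - rep y) by ring]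
    exact h2 _ (hb _) _ (hrep y hy)
  have a7 := a3.trans (sum_le_sum a4)
  rw [sum_add_distrib, sum_const, nsmul_eq_mul] at a7
  simp only [← hG]
  refine le_of_mul_le_mul_left ?_ c2
  nlinarith [mul_le_mul_of_nonneg_right c0 hc]

/-- The patched function is an atom: on `J`, with `Y = Yc (rep y)` and `p = y - Y`, the labels
are `lab Y` and `ξ Y + 2 • lab Y p`; off `J` everything is `0`. `Loc.sp`, `Loc.quad` for `(p, u)`,
`norm_e_sub_e`. -/
theorem patch_atom (D : Data) {k : ℕ} {J V B : Finset ℤ} (hε : 0 ≤ D.ε)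
    (hF : ∀ l ∈ D.F, Loc l B D.ε) (hV : V ⊆ B) (hB : D.B ⊆ B) (rep Yc : ℤ → ℤ) (ω : ℤ → ℂ)
    (hω : ∀ r, ‖ω r‖ ≤ 1) (lab : ℤ → ℤ → T) (ξ : ℤ → T) (hlab : ∀ Y, lab Y ∈ Sp D.F k)
    (hp : ∀ y ∈ J, y - Yc (rep y) ∈ V)
    (hcell : ∀ y ∉ D.Bad, ∀ u ∈ D.B, (y ∈ J ↔ y + u ∈ J) ∧ (y ∈ J → rep (y + u) = rep y)) :
    ∃ a : Atom, IsAtom D k (7 * (k * D.F.card * D.ε)) a ∧ (∀ y ∉ J, a.γ y = 0) ∧
      ∀ y ∈ J, a.γ y = ω (rep y) * e ((y - Yc (rep y)) • lab (Yc (rep y)) (y - Yc (rep y)) +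
        (y - Yc (rep y)) • ξ (Yc (rep y))) := by
  have hL := fun Y => Loc.sp hF (hlab Y)
  refine ⟨⟨fun y => if y ∈ J then ω (rep y) * e ((y - Yc (rep y)) • lab (Yc (rep y))
      (y - Yc (rep y)) + (y - Yc (rep y)) • ξ (Yc (rep y))) else 0,
    fun y => if y ∈ J then lab (Yc (rep y)) else 0,
    fun y => if y ∈ J then ξ (Yc (rep y)) + (2 : ℤ) • lab (Yc (rep y)) (y - Yc (rep y)) else 0⟩,
    ⟨fun y => ?_, fun y => ?_, fun y hy u hu => ?_, fun y hy u hu => ?_, fun y hy u hu => ?_⟩,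
    fun y hy => if_neg hy, fun y hy => if_pos hy⟩
  · dsimp only
    split_ifs
    · rw [norm_mul, norm_e, mul_one]
      exact hω _
    · simp
  · dsimp only
    split_ifs
    exacts [hlab _, Sp_zero_mem]
  all_goals
    obtain ⟨h1, h2⟩ := hcell y hy u hu
    by_cases h : y ∈ J
    swap
    · simp only [← h1, if_neg h]
      try simp
      try positivity
    simp only [← h1, if_pos h, h2 h, add_sub_right_comm y u]
  · rw [(hL _).add _ (hV (hp y h)) _ (hB hu), smul_add, add_assoc]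
  · rw [mul_assoc, ← mul_sub, norm_mul, ← e_add]
    refine (mul_le_of_le_one_left (norm_nonneg _) (hω _)).trans ((norm_e_sub_e _ _).trans ?_)
    refine mul_le_mul_of_nonneg_left (le_of_eq_of_le (congrArg _ ?_)
      ((hL (Yc (rep y))).quad (hV (hp y h)) (hB hu))) (by norm_num)
    module

end Pool.Agent.TR
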