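import Pool.Agent.Lib.MP_cc859a_an.TR.LCell
import Pool.Agent.Lib.MP_cc859a_an.TR.LPatch
import Pool.Agent.Lib.MP_cc859a_an.TR.Num

open Finset Real
open scoped BigOperators ComplexConjugate

namespace Pool.Agent.TR

/-- The numerical choices. -/
theorem latom_num {X R δ s : ℝ} (hX : 2 ≤ X) (hR : X ≤ R) (hs0 : 0 ≤ s) (hs : s ≤ R)
    (hδ : exp (-R) ≤ δ) : ∃ Q R' : ℕ, 0 < Q ∧ 0 < R' ∧ 2 * Q * R' * exp (-R ^ 5) < 1 ∧
      100 / (Q : ℝ) ≤ δ ∧ (s + 1) * 14 / (R' : ℝ) ≤ exp (-X) ∧ 16 * exp (-R ^ 5) ≤ exp (-X) ∧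
      2 * exp (-R ^ 5) ≤ δ := by
  have hδ0 : 0 < δ := (exp_pos _).trans_le hδ
  have hE : R + 1 ≤ exp R := add_one_le_exp R
  have hE3 : 3 ≤ exp R := by linarith
  have hXR : exp X ≤ exp R := exp_le_exp.2 hR
  have hX0 := exp_pos X
  have h1 : exp R ^ 16 ≤ exp (R ^ 5) := by
    rw [← exp_nat_mul, exp_le_exp, pow_succ]
    refine mul_le_mul_of_nonneg_right ?_ (by linarith)
    calc ((16 : ℕ) : ℝ) = 2 ^ 4 := by norm_num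
      _ ≤ _ := pow_le_pow_left₀ (by norm_num) (by linarith) 4
  have h2 : (3030 : ℝ) < exp R ^ 13 :=
    lt_of_lt_of_le (by norm_num) (pow_le_pow_left₀ (by norm_num) hE3 13)
  have h3 : 3030 * exp R ^ 3 < exp (R ^ 5) := by
    refine lt_of_lt_of_le ?_ h1
    rw [show 16 = 13 + 3 from rfl, pow_add]
    exact mul_lt_mul_of_pos_right h2 (by positivity)
  have h4 : 16 * exp R ≤ exp (R ^ 5) := by
    have : exp R ≤ exp R ^ 3 := le_self_pow₀ (by linarith) (by norm_num)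
    linarith
  have h5 : 1 / δ ≤ exp R := by
    rw [exp_neg, inv_le_comm₀ (exp_pos _) hδ0] at hδ
    rwa [one_div]
  have hQ : (⌈100 / δ⌉₊ : ℝ) ≤ 101 * exp R := by
    have := Nat.ceil_lt_add_one (show 0 ≤ 100 / δ by positivity)
    have h6 : 100 / δ = 100 * (1 / δ) := by ring
    linarith
  have hR' : (⌈(s + 1) * 14 * exp X⌉₊ : ℝ) ≤ 15 * exp R ^ 2 := by
    have := Nat.ceil_lt_add_one (show 0 ≤ (s + 1) * 14 * exp X by positivity)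
    have h6 : (s + 1) * exp X ≤ exp R * exp R := mul_le_mul (by linarith) hXR hX0.le (by linarith)
    nlinarith
  have hQ0 : 0 < ⌈100 / δ⌉₊ := Nat.ceil_pos.2 (by positivity)
  have hR0 : 0 < ⌈(s + 1) * 14 * exp X⌉₊ := Nat.ceil_pos.2 (by positivity)
  refine ⟨⌈100 / δ⌉₊, ⌈(s + 1) * 14 * exp X⌉₊, hQ0, hR0, ?_, ?_, ?_, ?_, ?_⟩
  · rw [exp_neg, ← div_eq_mul_inv, div_lt_one (exp_pos _)]
    refine lt_of_le_of_lt ?_ h3
    calc _ ≤ 2 * (101 * exp R) * (15 * exp R ^ 2) := by gcongr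
      _ = _ := by ring
  · rw [div_le_iff₀ (Nat.cast_pos.2 hQ0), mul_comm, ← div_le_iff₀ hδ0]
    exact Nat.le_ceil _
  · rw [div_le_iff₀ (Nat.cast_pos.2 hR0), exp_neg, ← div_eq_inv_mul, le_div_iff₀ hX0]
    exact Nat.le_ceil _
  · rw [exp_neg, exp_neg, ← div_eq_mul_inv, div_le_iff₀ (exp_pos _), ← div_eq_inv_mul,
      le_div_iff₀ hX0]
    linarith
  · refine le_trans ?_ hδ
    rw [exp_neg, exp_neg, ← div_eq_mul_inv, div_le_iff₀ (exp_pos _), ← div_eq_inv_mul,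
      le_div_iff₀ (exp_pos _)]
    linarith

/-- Paper D9. `Q = ⌈100 / δ⌉₊ ≤ 101 exp R`, so `Bohr Θ (1 / Q) (100 L / Q) ⊆ BM M Θ δ`;
`R' = ⌈14 (|Θ| + 1) exp X⌉₊`, `d = exp (-R ^ C)` with `2 Q R' d < 1`, `16 d ≤ exp (-X)`,
`2 d ≤ δ`; `n = d N ≤ 100 L d`. `cells`, `patch_sum` with `ψ Y w = e (w • lab Y w + w • ξ Y)`
(`e_neg`), `patch_atom`. -/
theorem patch : ∃ C : ℕ, 1 ≤ C ∧ ∀ X R : ℝ, 2 ≤ X → X ≤ R → ∀ (L N M : ℕ) (b : ℤ), 0 < L →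
    N ≤ 2 * L → L ≤ M → ∀ g : ℤ → ℂ, (∀ y, ‖g y‖ ≤ 1) → (∀ y ∉ Ico b (b + 7 * L), g y = 0) →
    ∀ (Θ : Finset T) (F : Finset (ℤ → T)) (t : ℕ) (δ ε ζ c : ℝ) (V B 𝒴 : Finset ℤ)
      (lab : ℤ → ℤ → T) (ξ : ℤ → T), (Θ.card : ℝ) ≤ R → exp (-R) ≤ δ → δ ≤ 1 → 0 ≤ ε →
    Reg V (BM M Θ δ) ζ → V ⊆ B → BM M Θ δ ⊆ B → (∀ l ∈ F, Loc l B ε) →
    (∀ Y, lab Y ∈ Sp F t) → 0 ≤ c →
    c ≤ ∑ Y ∈ 𝒴, ‖𝔼 w ∈ V, g (Y + w) * e (-(w • lab Y w + w • ξ Y))‖ →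
    ∃ (Bad : Finset ℤ) (a : Atom), (Bad.card : ℝ) ≤ exp (-X) * L ∧
      Bohr Θ (exp (-R ^ C)) (exp (-R ^ C) * N) ⊆ B ∧
      IsAtom ⟨Θ, F, exp (-R ^ C), exp (-R ^ C) * N, ε, Bad⟩ t (7 * (t * F.card * ε)) a ∧
      (∀ y ∉ Ico b (b + 7 * L), a.γ y = 0) ∧
      c - ζ * (7 * L) ≤ ∑ y ∈ Ico b (b + 7 * L), (g y * conj (a.γ y)).re := by
  refine ⟨5, by norm_num, fun X R hX hR L N M b hL hN hM g hg hg0 Θ F t δ ε ζ c V B 𝒴 lab ξ hΘ hδ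
    _ hε hreg hV hB hF hlab hc h => ?_⟩
  obtain ⟨Q, R', hQ, hR', h1, h2, h3, h4, h5⟩ := latom_num hX hR (Nat.cast_nonneg _) hΘ hδ
  have hd := exp_pos (-R ^ 5)
  have hδ0 : 0 < δ := (exp_pos _).trans_le hδ
  have hL0 : (0 : ℝ) ≤ L := Nat.cast_nonneg _
  have hN' : (N : ℝ) ≤ 2 * L := by exact_mod_cast hN
  have hM' : (L : ℝ) ≤ M := Nat.cast_le.2 hM
  have hn : exp (-R ^ 5) * N ≤ exp (-R ^ 5) * (2 * L) := mul_le_mul_of_nonneg_left hN' hd.le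
  have hδM : δ * L ≤ δ * M := mul_le_mul_of_nonneg_left hM' hδ0.le
  obtain ⟨rep, Bad, c1, c2, c3⟩ := cells hL b Θ hQ hR' (n := exp (-R ^ 5) * N) h1 (by positivity)
    (by nlinarith)
  have hQ0 : (0 : ℝ) < Q := Nat.cast_pos.2 hQ
  have hs1 : Bohr Θ (1 / Q) (100 * L / Q) ⊆ BM M Θ δ := by
    refine Bohr_mono Subset.rfl (le_trans ?_ h2) (le_trans ?_ hδM)
    · exact div_le_div_of_nonneg_right (by norm_num) hQ0.le
    · rw [mul_div_right_comm]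
      exact mul_le_mul_of_nonneg_right h2 hL0
  have hs2 : Bohr Θ (exp (-R ^ 5)) (exp (-R ^ 5) * N) ⊆ B :=
    (Bohr_mono Subset.rfl (by linarith) (by nlinarith)).trans hB
  obtain ⟨Yc, ω, p1, p2, p3⟩ := patch_sum hreg g hg hg0 rep (fun y hy => hs1 (c1 y hy))
    (fun Y w => e (w • lab Y w + w • ξ Y)) (fun _ _ => (norm_e _).le) 𝒴 hc
    (by simpa only [e_neg] using h)
  obtain ⟨a, a1, a2, a3⟩ := patch_atom ⟨Θ, F, exp (-R ^ 5), exp (-R ^ 5) * N, ε, Bad⟩ hε hF hV hs2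
    rep Yc ω p1 lab ξ hlab p2 c3
  refine ⟨Bad, a, c2.trans ?_, hs2, a1, a2, ?_⟩
  · have h6 : ((Θ.card : ℝ) + 1) * (7 * L) / R' = (Θ.card + 1) * 14 / R' * L / 2 := by ring
    rw [h6]
    nlinarith [mul_le_mul_of_nonneg_right h3 hL0, mul_le_mul_of_nonneg_right h4 hL0]
  · have h6 : ((Ico b (b + 7 * L)).card : ℝ) = 7 * L := by
      rw [Int.card_Ico, add_sub_cancel_left, show (7 * L : ℤ) = (7 * L : ℕ) by push_cast; rfl,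
        Int.toNat_natCast]
      push_cast
      rfl
    rw [h6] at p3
    exact p3.trans (sum_congr rfl fun y hy => by rw [a3 y hy]).le

end Pool.Agent.TR
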