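import Pool.Agent.Lib.MP_cc859a_an.TR.BohrL

open Finset Real
open scoped BigOperators ComplexConjugate

namespace Pool.Agent.TR

variable {V U U' : Finset ℤ} {ζ ζ' : ℝ}

theorem Reg.mono (h : Reg V U ζ) (hU : U' ⊆ U) (hζ : ζ ≤ ζ') : Reg V U' ζ' := by
  obtain ⟨hne, V₀, V₁, h0, h1, h2, h3, h4⟩ := h
  exact ⟨hne, V₀, V₁, h0, h1, fun v hv u hu => h2 v hv u (hU hu), fun v hv u hu => h3 v hv u (hU hu),
    h4.trans (by gcongr)⟩

/-- `V + u` and `V` both contain `V₀ + u` and have at most `ζ |V|` other points. -/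
theorem Reg.shift (h : Reg V U ζ) {u : ℤ} (hu : u ∈ U) (f : ℤ → ℂ) (hf : ∀ x, ‖f x‖ ≤ 1) :
    ‖(𝔼 v ∈ V, f (v + u)) - 𝔼 v ∈ V, f v‖ ≤ 2 * ζ := by
  obtain ⟨hne, V₀, V₁, h0, h1, -, h3, h4⟩ := h
  have hV : (0 : ℝ) < V.card := Nat.cast_pos.2 hne.card_pos
  have c0 : (V₀.card : ℝ) ≤ V.card := Nat.cast_le.2 (card_le_card h0)
  have c1 : (V.card : ℝ) ≤ V₁.card := Nat.cast_le.2 (card_le_card h1)
  have c2 : (0 : ℝ) ≤ V₀.card := Nat.cast_nonneg _
  have hζ : 0 ≤ ζ := by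
    by_contra hc
    rcases c2.eq_or_lt with h | h
    · rw [← h] at h4
      linarith
    · linarith [mul_pos h (neg_pos.2 (not_le.1 hc))]
  have hs : ∀ S : Finset ℤ, ‖∑ x ∈ S, f x‖ ≤ S.card := fun S =>
    (norm_sum_le_of_le S fun x _ => hf x).trans (by simp)
  have hW : (V.map (addRightEmbedding u)).card = V.card := card_map _
  have h5 : ((V.map (addRightEmbedding u) \ V).card : ℝ) ≤ ζ * V.card := by
    have h6 : V.map (addRightEmbedding u) \ V ⊆ V₁ \ V := sdiff_subset_sdiff (fun x hx => by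
      obtain ⟨v, hv, rfl⟩ := mem_map.1 hx
      exact h3 v hv u hu) subset_rfl
    have h7 : ((V₁ \ V).card : ℝ) + V.card = V₁.card := by
      exact_mod_cast card_sdiff_add_card_eq_card h1
    have h8 : ((V.map (addRightEmbedding u) \ V).card : ℝ) ≤ (V₁ \ V).card :=
      Nat.cast_le.2 (card_le_card h6)
    nlinarith [mul_le_mul_of_nonneg_left c0 hζ]
  have h9 : ∑ v ∈ V, f (v + u) = ∑ x ∈ V.map (addRightEmbedding u), f x := by
    rw [sum_map]
    rfl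
  rw [expect_eq_sum_div_card, expect_eq_sum_div_card, ← sub_div, norm_div, Complex.norm_natCast,
    div_le_iff₀ hV, h9, ← sum_sdiff_sub_sum_sdiff]
  refine (norm_sub_le_of_le (hs _) (hs _)).trans ?_
  rw [← card_sdiff_comm hW]
  linarith

/-- A large average of a function that is multiplied by `e θ` under the shift forces `θ` to be
small (`Reg.shift` and `le_norm_e_sub_one`; change `f` outside `V ∪ (V + u)` is not needed). -/
theorem Reg.small (h : Reg V U ζ) {u : ℤ} (hu : u ∈ U) (f : ℤ → ℂ) (hf : ∀ x, ‖f x‖ ≤ 1) {θ : T}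
    (hθ : ∀ v ∈ V, f (v + u) = f v * e θ) : ‖𝔼 v ∈ V, f v‖ * ‖θ‖ ≤ ζ / 2 := by
  have h1 := h.shift hu f hf
  rw [expect_congr rfl hθ, ← expect_mul, ← mul_sub_one, norm_mul] at h1
  have h2 := mul_le_mul_of_nonneg_left (le_norm_e_sub_one θ) (norm_nonneg (𝔼 v ∈ V, f v))
  linarith

/-- With `B s = Bohr Θ (s δ) (s N)`: `|B 1| ≤ 3 N`, `|B (1/2)| ≥ (δ/4) ^ R N / 2`, so the ratio is at
most `exp Λ`. Radii `s i = 1/2 + 2 η i`, `i ≤ n = ⌊1 / (4 η)⌋`; if every step grew by more than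
`1 + ζ ≥ exp (ζ / 2)`, the ratio would exceed `exp (ζ n / 2) ≥ exp Λ`. Take `t = s i + η`,
`V₀ = B (s i)`, `V₁ = B (s (i + 1))`. -/
theorem exists_reg (Θ : Finset T) {δ N η Λ : ℝ} (hδ : 0 < δ) (hδ1 : δ ≤ 1) (hN : 1 ≤ N)
    (hζ : 0 < ζ) (hζ1 : ζ ≤ 1) (hΛ : log 6 + Θ.card * log (4 / δ) ≤ Λ) (hη : 0 < η)
    (hη' : 40 * Λ * η ≤ ζ) :
    ∃ t : ℝ, 1 / 2 ≤ t ∧ t ≤ 1 ∧ Reg (Bohr Θ (t * δ) (t * N)) (Bohr Θ (η * δ) (η * N)) ζ := by
  obtain ⟨s, hs⟩ : ∃ s : ℕ → ℝ, ∀ i, s i = 1 / 2 + 2 * η * i := ⟨_, fun _ => rfl⟩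
  obtain ⟨a, ha⟩ : ∃ a : ℕ → ℝ, ∀ i, a i = (Bohr Θ (s i * δ) (s i * N)).card := ⟨_, fun _ => rfl⟩
  have hs0 : ∀ i, 1 / 2 ≤ s i := fun i => by
    rw [hs]
    exact le_add_of_nonneg_right (by positivity)
  have hn1 : (⌊1 / (4 * η)⌋₊ : ℝ) * (4 * η) ≤ 1 :=
    (le_div_iff₀ (by positivity)).1 (Nat.floor_le (by positivity))
  have hn2 : 1 < ((⌊1 / (4 * η)⌋₊ : ℝ) + 1) * (4 * η) :=
    (div_lt_iff₀ (by positivity)).1 (Nat.lt_floor_add_one _)
  generalize ⌊1 / (4 * η)⌋₊ = n at hn1 hn2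
  have hsn : s n ≤ 1 := by
    rw [hs]
    linarith
  obtain ⟨i, hi, hai⟩ : ∃ i < n, a (i + 1) ≤ (1 + ζ) * a i := by
    by_contra hc
    have hc' : ∀ i < n, (1 + ζ) * a i ≤ a (i + 1) := fun i hi =>
      (not_le.1 fun h => hc ⟨i, hi, h⟩).le
    have he : exp (ζ / 2) ≤ 1 + ζ :=
      (exp_bound_div_one_sub_of_interval (by positivity) (by linarith)).trans
        ((div_le_iff₀ (by linarith)).2 (by nlinarith))
    have h1 : ∀ i ≤ n, exp (ζ / 2) ^ i * a 0 ≤ a i := fun i hi => by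
      induction i with
      | zero => simp
      | succ i ih =>
        refine le_trans ?_ (hc' i hi)
        rw [pow_succ', mul_assoc]
        refine mul_le_mul he (ih (Nat.le_of_succ_le hi)) ?_ (by linarith)
        rw [ha]
        positivity
    have h2 : a n ≤ 3 * N := by
      rw [ha]
      refine (card_Bohr_le (mul_nonneg (by linarith [hs0 n]) (by linarith))).trans ?_
      nlinarith
    have h3 : (δ / 4) ^ Θ.card * (N / 2) ≤ a 0 := by
      have := card_Bohr_ge (Θ := Θ) (δ := δ / 2) (N := N / 2) (by positivity) (by linarith)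
        (by linarith)
      rw [ha, hs, Nat.cast_zero, mul_zero, add_zero, one_div_mul_eq_div, one_div_mul_eq_div]
      rwa [div_div, show (2 : ℝ) * 2 = 4 by norm_num] at this
    have h4 : 0 ≤ log (4 / δ) := log_nonneg ((one_le_div hδ).2 (by linarith))
    have h5 : 1 / 2 ≤ Λ := by
      have := one_sub_inv_le_log_of_pos (x := 6) (by norm_num)
      have : 0 ≤ Θ.card * log (4 / δ) := by positivity
      linarith
    have h6 : Λ < n * (ζ / 2) := by
      refine lt_of_mul_lt_mul_right ?_ (show 0 ≤ 8 * η by positivity)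
      nlinarith [mul_lt_mul_of_pos_left hn2 hζ, mul_le_mul_of_nonneg_right h5 hη.le,
        mul_le_mul_of_nonneg_right hζ1 hη.le]
    have h7 : 6 * (4 / δ) ^ Θ.card < exp (ζ / 2) ^ n := by
      rw [← exp_nat_mul]
      refine lt_of_le_of_lt ?_ (exp_lt_exp.2 (hΛ.trans_lt h6))
      rw [exp_add, exp_nat_mul, exp_log (by norm_num), exp_log (by positivity)]
    have h8 : (4 / δ) ^ Θ.card * (δ / 4) ^ Θ.card = 1 := by
      rw [← mul_pow, div_mul_div_cancel₀ hδ.ne', div_self (by norm_num), one_pow]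
    have h9 := mul_lt_mul_of_pos_right h7
      (show 0 < (δ / 4) ^ Θ.card * (N / 2) by positivity)
    have h10 := mul_le_mul_of_nonneg_left h3 (show 0 ≤ exp (ζ / 2) ^ n by positivity)
    rw [mul_assoc, ← mul_assoc ((4 / δ) ^ Θ.card), h8] at h9
    linarith [h1 n le_rfl]
  have e1 : s (i + 1) = s i + η + η := by
    rw [hs, hs]
    push_cast
    ring
  have e2 : s (i + 1) ≤ s n := by
    rw [hs, hs]
    gcongr
    exact hi
  have h0 := hs0 i
  have hm : ∀ {x y : ℝ}, x ≤ y → Bohr Θ (x * δ) (x * N) ⊆ Bohr Θ (y * δ) (y * N) := fun h =>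
    Bohr_mono subset_rfl (by gcongr) (by gcongr)
  refine ⟨s i + η, by linarith, by linarith, ⟨0, Bohr_zero_mem (by positivity) (by positivity)⟩,
    _, _, hm (by linarith : s i ≤ s i + η), hm (by linarith : s i + η ≤ s (i + 1)),
    fun v hv u hu => ?_, fun v hv u hu => ?_, by rwa [ha, ha] at hai⟩
  · rw [add_mul, add_mul]
    exact Bohr_add hv hu
  · rw [e1, add_mul, add_mul _ η N]
    exact Bohr_add hv hu

/-- The form of `exists_reg` used later: `ζ = exp (-2 E)`, `η = exp (-5 E)`, `Λ = 3 exp (2 E)`. -/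
theorem exists_reg' (Θ : Finset T) {δ N E : ℝ} (hE : 10 ≤ E) (hΘ : (Θ.card : ℝ) ≤ exp E)
    (hδ : exp (-exp E) ≤ δ) (hδ1 : δ ≤ 1) (hN : 1 ≤ N) :
    ∃ t : ℝ, 1 / 2 ≤ t ∧ t ≤ 1 ∧
      Reg (Bohr Θ (t * δ) (t * N)) (Bohr Θ (exp (-5 * E) * δ) (exp (-5 * E) * N))
        (exp (-2 * E)) := by
  have h0 : 0 < δ := (exp_pos _).trans_le hδ
  have h1 : 120 ≤ exp E := by
    refine le_trans ?_ (exp_le_exp.2 hE)
    refine le_trans ?_ (pow_div_factorial_le_exp 10 (by norm_num) 3)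
    norm_num [Nat.factorial]
  refine exists_reg Θ (Λ := 3 * exp (2 * E)) h0 hδ1 hN (exp_pos _)
    (exp_le_one_iff.2 (by linarith)) ?_ (exp_pos _) ?_
  · have h2 : -exp E ≤ log δ := (le_log_iff_exp_le h0).2 hδ
    have h3 := log_le_self (x := 6) (by norm_num)
    have h4 := log_le_self (x := 4) (by norm_num)
    have h5 : 0 ≤ log (4 / δ) := log_nonneg ((one_le_div h0).2 (by linarith))
    have h6 : log (4 / δ) ≤ 4 + exp E := by
      rw [log_div (by norm_num) h0.ne']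
      linarith
    have h7 := mul_le_mul hΘ h6 h5 (exp_pos E).le
    rw [two_mul, exp_add]
    nlinarith
  · have h2 : exp (2 * E) * exp (-5 * E) * exp E = exp (-2 * E) := by
      rw [← exp_add, ← exp_add]
      ring_nf
    rw [← h2]
    nlinarith [mul_pos (exp_pos (2 * E)) (exp_pos (-5 * E))]

theorem regl_key (V : Finset ℤ) (l : ℤ → T) (g : ℤ → ℂ) :
    (𝔼 v ∈ V, ‖𝔼 u ∈ V, g u * e (v • (2 : ℤ) • l u)‖ ^ 2) ^ 2 ≤
      (𝔼 u ∈ V, ‖g u‖ ^ 2) ^ 2 * bias V l := by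
  have h1 : ((𝔼 v ∈ V, ‖𝔼 u ∈ V, g u * e (v • (2 : ℤ) • l u)‖ ^ 2 : ℝ) : ℂ) =
      𝔼 p ∈ V ×ˢ V, (g p.1 * conj (g p.2)) * mu V ((2 : ℤ) • l p.1 - (2 : ℤ) • l p.2) := by
    rw [Complex.ofReal_expect, expect_product]
    simp only [norm_expect_sq, mu, mul_expect]
    rw [expect_comm]
    refine expect_congr rfl fun u _ => ?_
    rw [expect_comm]
    refine expect_congr rfl fun u' _ => expect_congr rfl fun v _ => ?_
    rw [smul_sub, sub_eq_add_neg, e_add, e_neg, map_mul]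
    ring
  have h2 := expect_cs (V ×ˢ V) (fun p => g p.1 * conj (g p.2))
    fun p => mu V ((2 : ℤ) • l p.1 - (2 : ℤ) • l p.2)
  rw [← h1, Complex.norm_real, Real.norm_eq_abs, sq_abs, expect_product, expect_product] at h2
  simp only [norm_mul, RCLike.norm_conj, mul_pow, ← expect_mul_expect] at h2
  rw [sq (𝔼 u ∈ V, ‖g u‖ ^ 2)]
  exact h2

theorem regl_one (V : Finset ℤ) {f : ℤ → ℂ} (hf : ∀ x, ‖f x‖ ≤ 1) : 𝔼 u ∈ V, ‖f u‖ ^ 2 ≤ 1 := by
  rcases V.eq_empty_or_nonempty with rfl | hV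
  · simp
  · exact expect_le hV fun x _ => pow_le_one₀ (norm_nonneg _) (hf x)

theorem regl_bias (V : Finset ℤ) (l : ℤ → T) : 0 ≤ bias V l :=
  expect_nonneg fun _ _ => expect_nonneg fun _ _ => sq_nonneg _

theorem regl_four (V : Finset ℤ) (l : ℤ → T) (f g : ℤ → ℂ) (hf : ∀ x, ‖f x‖ ≤ 1) :
    ‖𝔼 u ∈ V, 𝔼 u' ∈ V, f u * g u' * e (u • (2 : ℤ) • l u')‖ ^ 4 ≤
      (𝔼 u ∈ V, ‖g u‖ ^ 2) ^ 2 * bias V l := by
  have h1 := (expect_cs V f fun u => 𝔼 u' ∈ V, g u' * e (u • (2 : ℤ) • l u')).trans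
    (mul_le_of_le_one_left (expect_nonneg fun _ _ => sq_nonneg _) (regl_one V hf))
  refine le_trans ?_ ((pow_le_pow_left₀ (sq_nonneg _) h1 2).trans (regl_key V l g))
  simp only [mul_expect, mul_assoc, ← pow_mul, le_refl]

/-- Cauchy-Schwarz in `u`, then in the pair `(u', u'')`. -/
theorem bias_b1 (V : Finset ℤ) (l : ℤ → T) (f g : ℤ → ℂ) (hf : ∀ x, ‖f x‖ ≤ 1)
    (hg : ∀ x, ‖g x‖ ≤ 1) :
    ‖𝔼 u ∈ V, 𝔼 u' ∈ V, f u * g u' * e (u • (2 : ℤ) • l u')‖ ^ 4 ≤ bias V l := by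
  exact (regl_four V l f g hf).trans (mul_le_of_le_one_left (regl_bias V l)
    (pow_le_one₀ (expect_nonneg fun _ _ => sq_nonneg _) (regl_one V hg)))

/-- Expand the square, exchange the averages, Cauchy-Schwarz in `(v, v')`, expand again. -/
theorem bias_b2 (V : Finset ℤ) (l : ℤ → T) (ξ : T) :
    (𝔼 u ∈ V, ‖mu V (ξ + (2 : ℤ) • l u)‖ ^ 2) ^ 2 ≤ bias V l := by
  have h1 := regl_four V l (fun v => e (v • ξ)) (fun u => conj (mu V (ξ + (2 : ℤ) • l u)))
    fun v => (norm_e _).le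
  have h2 : 𝔼 v ∈ V, 𝔼 u ∈ V, e (v • ξ) * conj (mu V (ξ + (2 : ℤ) • l u)) * e (v • (2 : ℤ) • l u) =
      ((𝔼 u ∈ V, ‖mu V (ξ + (2 : ℤ) • l u)‖ ^ 2 : ℝ) : ℂ) := by
    rw [Complex.ofReal_expect, expect_comm]
    refine expect_congr rfl fun u _ => ?_
    rw [Complex.ofReal_pow, ← Complex.mul_conj']
    nth_rw 2 [mu]
    rw [expect_mul]
    refine expect_congr rfl fun v _ => ?_
    rw [smul_add, e_add]
    ring
  rw [h2, Complex.norm_real, Real.norm_eq_abs, show 4 = 2 * 2 from rfl, pow_mul, sq_abs] at h1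
  simp only [RCLike.norm_conj] at h1
  rcases (sq_nonneg (𝔼 u ∈ V, ‖mu V (ξ + (2 : ℤ) • l u)‖ ^ 2)).eq_or_lt with h0 | h0
  · exact h0 ▸ regl_bias V l
  · rw [sq (_ ^ 2)] at h1
    exact le_of_mul_le_mul_left h1 h0

/-- One sided maximal inequality (rising sun). Induction on the size of `Z`: take the least
`X ∈ Z` with its `n`; `Z ∩ Ico X (X + n)` has at most `n` points, and the rest of `Z` only sees
the points of `Bad` beyond `X + n`. -/
theorem maximal (Bad Z : Finset ℤ) {c : ℝ} (hc : 0 ≤ c)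
    (h : ∀ X ∈ Z, ∃ n : ℕ, 1 ≤ n ∧ c * n ≤ ((Ioc X (X + n)).filter (· ∈ Bad)).card) :
    c * Z.card ≤ Bad.card := by
  induction Z using Finset.strongInduction generalizing Bad with
  | H Z ih =>
    rcases Z.eq_empty_or_nonempty with rfl | hZ
    · simp
    obtain ⟨X, hX, hmin⟩ := Z.exists_min_image id hZ
    obtain ⟨n, hn, h1⟩ := h X hX
    have h2 := ih (Z.filter (X + n ≤ ·)) (filter_ssubset.2 ⟨X, hX, by omega⟩)
      (Bad.filter (X + n < ·)) fun Y hY => by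
        obtain ⟨hY1, hY2⟩ := mem_filter.1 hY
        obtain ⟨m, hm, h3⟩ := h Y hY1
        refine ⟨m, hm, h3.trans (Nat.cast_le.2 (card_le_card fun y hy => ?_))⟩
        obtain ⟨h4, h5⟩ := mem_filter.1 hy
        exact mem_filter.2 ⟨h4, mem_filter.2 ⟨h5, hY2.trans_lt (mem_Ioc.1 h4).1⟩⟩
    have h3 : Z.card ≤ n + (Z.filter (X + n ≤ ·)).card := by
      have h4 : Z ⊆ Ico X (X + n) ∪ Z.filter (X + n ≤ ·) := fun y hy => by
        rcases lt_or_ge y (X + n) with h5 | h5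
        · exact mem_union_left _ (mem_Ico.2 ⟨hmin y hy, h5⟩)
        · exact mem_union_right _ (mem_filter.2 ⟨hy, h5⟩)
      simpa using (card_le_card h4).trans (card_union_le _ _)
    have h4 : ((Ioc X (X + n)).filter (· ∈ Bad)).card + (Bad.filter (X + n < ·)).card ≤
        Bad.card := by
      rw [← card_filter_add_card_filter_not (s := Bad) (X + n < ·), add_comm]
      refine Nat.add_le_add_left (card_le_card fun y hy => ?_) _
      obtain ⟨h5, h6⟩ := mem_filter.1 hy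
      exact mem_filter.2 ⟨h6, (mem_Ioc.1 h5).2.not_gt⟩
    have h5 : (Z.card : ℝ) ≤ n + (Z.filter (X + n ≤ ·)).card := by exact_mod_cast h3
    have h6 : (((Ioc X (X + n)).filter (· ∈ Bad)).card : ℝ) + (Bad.filter (X + n < ·)).card ≤
        Bad.card := by exact_mod_cast h4
    nlinarith [mul_le_mul_of_nonneg_left h5 hc]

end Pool.Agent.TR
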