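import Pool.Agent.Lib.MP_cc859a_an.TR.DefsL
import Pool.Agent.Lib.MP_cc859a_an.TR.RegL
import Pool.Agent.Lib.MP_cc859a_an.TR.Four

open Finset Real
open scoped BigOperators ComplexConjugate

namespace Pool.Agent.TR

/-- Double counting: `∑ h ∈ Ω, card {v ∈ V | h + v ∈ S} ≥ |S| |V|` (the pair `(x, v)` is counted at
`h = x - v`). -/
theorem dens_shift (S V Ω : Finset ℤ) (hΩ : Ω.Nonempty) (h : ∀ x ∈ S, ∀ v ∈ V, x - v ∈ Ω) :
    ∃ h ∈ Ω, (S.card : ℝ) * V.card ≤ Ω.card * (V.filter fun v => h + v ∈ S).card := by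
  have h1 : ∑ _k ∈ Ω, S.card * V.card ≤
      ∑ k ∈ Ω, Ω.card * (V.filter fun v => k + v ∈ S).card := by
    rw [sum_const, smul_eq_mul, ← mul_sum]
    refine Nat.mul_le_mul_left _ ?_
    simp only [card_filter]
    rw [sum_comm, mul_comm, ← smul_eq_mul, ← sum_const]
    refine sum_le_sum fun v hv => ?_
    rw [← card_filter]
    refine card_le_card_of_injOn (fun x => x - v) (fun x hx => ?_) fun x _ y _ e => by simpa using e
    simp only [coe_filter, Set.mem_setOf_eq, sub_add_cancel]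
    exact ⟨h x hx v hv, hx⟩
  obtain ⟨k, hk, h2⟩ := exists_le_of_sum_le hΩ h1
  exact ⟨k, hk, by exact_mod_cast h2⟩

/-- A unimodular number that turns `z` to the positive axis. -/
theorem exists_phase (z : ℂ) : ∃ ω : ℂ, ‖ω‖ = 1 ∧ z * conj ω = (‖z‖ : ℂ) := by
  by_cases hz : z = 0
  · exact ⟨1, norm_one, by simp [hz]⟩
  have h0 : (‖z‖ : ℂ) ≠ 0 := by exact_mod_cast norm_ne_zero_iff.2 hz
  refine ⟨z / ‖z‖, ?_, ?_⟩
  · rw [norm_div, Complex.norm_real, norm_norm, div_self (norm_ne_zero_iff.2 hz)]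
  · rw [map_div₀, Complex.conj_ofReal, ← mul_div_assoc, Complex.mul_conj', sq,
      mul_div_cancel_right₀ _ h0]

/-- A bounded function with mean `m` is at least `m / 2` on many points. -/
theorem popular {α : Type*} (S : Finset α) (f : α → ℝ) {m B : ℝ} (hm : 0 ≤ m) (hB : 0 < B)
    (hf : ∀ x ∈ S, f x ≤ B) (h : m * S.card ≤ ∑ x ∈ S, f x) :
    ∃ S' ⊆ S, m / (2 * B) * S.card ≤ S'.card ∧ ∀ x ∈ S', m / 2 ≤ f x := by
  classical
  refine ⟨S.filter fun x => m / 2 ≤ f x, filter_subset _ _, ?_, fun x hx => (mem_filter.1 hx).2⟩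
  have h1 : ∑ x ∈ S, f x ≤ ∑ x ∈ S, (m / 2 + B * if m / 2 ≤ f x then 1 else 0) := by
    refine sum_le_sum fun x hx => ?_
    have := hf x hx
    split_ifs with c
    · linarith
    · linarith [not_le.1 c]
  rw [sum_add_distrib, ← mul_sum, sum_boole, sum_const, nsmul_eq_mul] at h1
  rw [div_mul_eq_mul_div, div_le_iff₀ (by positivity)]
  linarith

/-- Some value is at least the mean. -/
theorem exists_ge_expect {α : Type*} {S : Finset α} (hS : S.Nonempty) (f : α → ℝ) {m : ℝ}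
    (h : m ≤ 𝔼 x ∈ S, f x) : ∃ x ∈ S, m ≤ f x := by
  exact exists_le_of_le_expect hS h

theorem Reg.nonneg {V U : Finset ℤ} {ζ : ℝ} (h : Reg V U ζ) : 0 ≤ ζ := by
  obtain ⟨hne, V₀, V₁, h0, h1, -, -, h4⟩ := h
  have a : (V₀.card : ℝ) ≤ V.card := by exact_mod_cast card_le_card h0
  have b : (V.card : ℝ) ≤ V₁.card := by exact_mod_cast card_le_card h1
  have c : (0 : ℝ) < V.card := by exact_mod_cast hne.card_pos
  have d : (0 : ℝ) ≤ V₀.card := Nat.cast_nonneg _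
  by_contra hn
  have hz := not_le.1 hn
  rcases d.lt_or_eq with d' | d'
  · nlinarith
  · rw [← d'] at h4
    linarith

/-- The sum set `c + V + U` is small: take the image of `V ×ˢ U`; it lies in `c + V₁`. -/
theorem Reg.sumset {V U : Finset ℤ} {ζ : ℝ} (h : Reg V U ζ) (c : ℤ) :
    ∃ P : Finset ℤ, (∀ p, p ∈ P ↔ ∃ v ∈ V, ∃ u ∈ U, p = c + v + u) ∧
      (P.card : ℝ) ≤ (1 + ζ) * V.card := by
  have hz := h.nonneg
  obtain ⟨-, V₀, V₁, h0, -, -, h3, h4⟩ := h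
  refine ⟨(V ×ˢ U).image fun q => c + q.1 + q.2, fun p => ?_, ?_⟩
  · rw [mem_image]
    constructor
    · rintro ⟨q, hq, rfl⟩
      exact ⟨q.1, (mem_product.1 hq).1, q.2, (mem_product.1 hq).2, rfl⟩
    · rintro ⟨v, hv, u, hu, rfl⟩
      exact ⟨(v, u), mem_product.2 ⟨hv, hu⟩, rfl⟩
  · have h5 : ((V ×ˢ U).image fun q => c + q.1 + q.2) ⊆ V₁.image fun y => c + y := by
      intro p hp
      obtain ⟨q, hq, rfl⟩ := mem_image.1 hp
      exact mem_image.2 ⟨_, h3 _ (mem_product.1 hq).1 _ (mem_product.1 hq).2, by ring⟩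
    have a : (V₀.card : ℝ) ≤ V.card := by exact_mod_cast card_le_card h0
    have b := (Nat.cast_le (α := ℝ)).2 ((card_le_card h5).trans card_image_le)
    exact (b.trans h4).trans (mul_le_mul_of_nonneg_left a (by linarith))

variable {M : ℕ} [NeZero M]

theorem card_BM_le (Θ : Finset T) {δ : ℝ} (h0 : 0 ≤ δ) (h1 : δ ≤ 1 / 2) :
    ((BM M Θ δ).card : ℝ) ≤ 2 * M := by
  have hM : (1 : ℝ) ≤ M := by exact_mod_cast NeZero.pos M
  have := card_Bohr_le (Θ := Θ) (δ := δ) (N := δ * M) (by positivity)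
  nlinarith

theorem BM_mono {Θ Θ' : Finset T} {δ δ' : ℝ} (hΘ : Θ' ⊆ Θ) (hδ : δ ≤ δ') :
    BM M Θ δ ⊆ BM M Θ' δ' := by
  exact Bohr_mono hΘ hδ (mul_le_mul_of_nonneg_right hδ (Nat.cast_nonneg M))

theorem BM_add {Θ : Finset T} {δ δ' : ℝ} {v w : ℤ} (hv : v ∈ BM M Θ δ) (hw : w ∈ BM M Θ δ') :
    v + w ∈ BM M Θ (δ + δ') := by
  have := Bohr_add hv hw
  rwa [← add_mul] at this

theorem BM_sub {Θ : Finset T} {δ δ' : ℝ} {v w : ℤ} (hv : v ∈ BM M Θ δ) (hw : w ∈ BM M Θ δ') :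
    v - w ∈ BM M Θ (δ + δ') := by
  have := Bohr_sub hv hw
  rwa [← add_mul] at this

/-- `card_Bohr_ge` with `δ / 2 ≥ exp (-(R + 1))`. -/
theorem card_BM_ge {Θ : Finset T} {δ R : ℝ} (hΘ : (Θ.card : ℝ) ≤ R) (hδ : exp (-R) ≤ δ)
    (hδ1 : δ ≤ 1) : exp (-(R + 1) ^ 2) * M ≤ (BM M Θ δ).card := by
  have h0 : 0 < δ := (exp_pos _).trans_le hδ
  have hR : 0 ≤ R := (Nat.cast_nonneg _).trans hΘ
  have h1 := card_Bohr_ge (Θ := Θ) (N := δ * M) h0 hδ1 (by positivity)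
  refine le_trans ?_ h1
  have h2 : exp (-(R + 1)) ≤ δ / 2 := by
    have a : 2 ≤ exp 1 := by linarith [add_one_le_exp (1 : ℝ)]
    have b : exp (-(R + 1)) * exp 1 = exp (-R) := by
      rw [← exp_add]
      ring_nf
    nlinarith [exp_pos (-(R + 1))]
  have h3 := pow_le_pow_left₀ (exp_pos _).le h2 Θ.card
  rw [← exp_nat_mul] at h3
  have h4 : exp (-(R + 1) ^ 2) ≤ exp (Θ.card * -(R + 1)) * exp (-R) := by
    rw [← exp_add]
    refine exp_le_exp.2 ?_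
    nlinarith
  rw [← mul_assoc]
  refine mul_le_mul_of_nonneg_right (h4.trans ?_) (Nat.cast_nonneg M)
  exact mul_le_mul h3 hδ (exp_pos _).le (by positivity)

theorem cast_inj {p q : ℤ} (hp : 2 * |p| < M) (hq : 2 * |q| < M)
    (h : (p : ZMod M) = (q : ZMod M)) : p = q := by
  have h5 := abs_sub q p
  have h6 := Int.eq_zero_of_abs_lt_dvd ((ZMod.intCast_eq_intCast_iff_dvd_sub p q M).mp h)
    (by omega)
  omega

theorem card_image_cast {P : Finset ℤ} (hP : ∀ p ∈ P, 2 * |p| < M) :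
    (P.image fun p : ℤ => (p : ZMod M)).card = P.card := by
  exact card_image_of_injOn fun p hp q hq h => cast_inj (hP p hp) (hP q hq) h

theorem sum_cast_le {P : Finset ℤ} (hP : ∀ p ∈ P, 2 * |p| < M) (f : ZMod M → ℝ)
    (hf : ∀ r, 0 ≤ f r) : ∑ p ∈ P, f (p : ZMod M) ≤ ∑ r, f r := by
  rw [← sum_image (s := P) (g := fun p : ℤ => (p : ZMod M)) (f := f)
    fun p hp q hq h => cast_inj (hP p hp) (hP q hq) h]
  exact sum_le_sum_of_subset_of_nonneg (subset_univ _) fun r _ _ => hf r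

theorem norm_push_le {P : Finset ℤ} (hP : ∀ p ∈ P, 2 * |p| < M) {a : ℤ → ℂ}
    (ha : ∀ p ∈ P, ‖a p‖ ≤ 1) (r : ZMod M) : ‖push P a r‖ ≤ 1 := by
  by_cases h : ∃ p ∈ P, (p : ZMod M) = r
  · obtain ⟨p, hp, rfl⟩ := h
    rw [push_apply hP a hp]
    exact ha p hp
  · rw [push_eq_zero a fun p hp e => h ⟨p, hp, e⟩, norm_zero]
    exact zero_le_one

theorem norm_dd_le {g : ZMod M → ℂ} (hg : ∀ x, ‖g x‖ ≤ 1) (h x : ZMod M) : ‖dd h g x‖ ≤ 1 := by
  rw [dd, norm_mul, Complex.norm_conj]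
  exact mul_le_one₀ (hg _) (norm_nonneg _) (hg _)

theorem norm_ft_le {f : ZMod M → ℂ} (hf : ∀ x, ‖f x‖ ≤ 1) (ξ : ZMod M) : ‖ft f ξ‖ ≤ 1 := by
  refine norm_expect_le' _ _ zero_le_one fun x _ => ?_
  rw [norm_mul, norm_e, mul_one]
  exact hf x

theorem norm_Gq_le {g : ZMod M → ℂ} (hg : ∀ x, ‖g x‖ ≤ 1) (l : ℤ → T) (y : ZMod M) (z : ℤ) :
    ‖Gq g l y z‖ ≤ 1 := by
  rw [Gq, norm_mul, norm_e, mul_one]
  exact hg _

/-- Parseval for a trigonometric polynomial (`orth` gives its coefficients). -/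
theorem parseval_poly (c : ZMod M → ℂ) :
    𝔼 r : ZMod M, ‖∑ χ, c χ * e (ch (χ * r))‖ ^ 2 = ∑ χ, ‖c χ‖ ^ 2 := by
  rw [parseval]
  refine sum_congr rfl fun ξ _ => ?_
  have h1 : ∀ x : ZMod M, (∑ χ, c χ * e (ch (χ * x))) * e (-ch (ξ * x)) =
      ∑ χ, c χ * e (ch ((χ - ξ) * x)) := fun x => by
    rw [sum_mul]
    refine sum_congr rfl fun χ _ => ?_
    rw [sub_mul, ch_sub, sub_eq_add_neg, e_add, mul_assoc]
  have h2 : ft (fun r => ∑ χ, c χ * e (ch (χ * r))) ξ = c ξ := by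
    rw [ft]
    simp only [h1]
    rw [expect_sum_comm]
    simp only [← mul_expect, orth, sub_eq_zero]
    simp
  rw [h2]

/-- A local correlation as a trigonometric polynomial (`expect_mul_push`, `ft_corr`). -/
theorem corr_push (A : ZMod M → ℂ) {V : Finset ℤ} (hV : V.Nonempty) (p : ℤ → ℂ) (r : ZMod M) :
    𝔼 v ∈ V, A (r + ((v : ℤ) : ZMod M)) * conj (p v) =
      ∑ χ, ((M : ℂ) / V.card * (ft A χ * conj (ft (push V p) χ))) * e (ch (χ * r)) := by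
  have hM : (M : ℂ) ≠ 0 := Nat.cast_ne_zero.mpr (NeZero.ne M)
  have h1 := expect_mul_push V p fun z => A (r + z)
  rw [ft_corr, eq_div_iff hM] at h1
  rw [expect_eq_sum_div_card, ← h1]
  simp only [mul_assoc ((M : ℂ) / V.card)]
  rw [← mul_sum]
  ring

theorem H1.mono {g : ZMod M → ℂ} {κ X X' : ℝ} (h : H1 g κ X) (hX : X ≤ X') : H1 g κ X' := by
  obtain ⟨S, h1, h2⟩ := h
  refine ⟨S, le_trans (mul_le_mul_of_nonneg_right (exp_le_exp.2 (neg_le_neg hX))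
    (Nat.cast_nonneg M)) h1, fun k hk => ?_⟩
  obtain ⟨Λ, a, b⟩ := h2 k hk
  exact ⟨Λ, a.trans hX, b⟩

theorem Out.mono {g : ZMod M → ℂ} {c X X' R R' : ℝ} (h : Out g c X R) (hX : X' ≤ X)
    (hR : R ≤ R') : Out g c X' R' := by
  obtain ⟨Θ, F, t, δ, ε, V, B, a1, a2, a3, a4, a5, a6, a7, a8, a9, a10⟩ := h
  have b := exp_le_exp.2 (neg_le_neg hX)
  exact ⟨Θ, F, t, δ, ε, V, B, a1.trans hR, a2.trans hR, a3.trans hR,
    (exp_le_exp.2 (neg_le_neg hR)).trans a4, a5, a6, a7.trans b, a8.trans b,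
    a9.mono Subset.rfl b, a10⟩

end Pool.Agent.TR
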