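import Pool.Agent.Lib.MP_cc859a_an.TR.LBas

open Finset Real
open scoped BigOperators ComplexConjugate

namespace Pool.Agent.TR

variable {M : ℕ} [NeZero M]

theorem lbess_sq (z : ℂ) : (z * conj z).re = ‖z‖ ^ 2 := by
  rw [Complex.mul_conj, Complex.ofReal_re, Complex.sq_norm]

theorem lbess_abs {ι : Type*} {V : Finset ℤ} {f : ℤ → ℂ} (hf : ∀ v, ‖f v‖ ≤ 1) (L : Finset ι)
    (Φ : ι → ℤ → ℂ) {c : ℝ} (hc : 0 ≤ c)
    (h1 : ∀ l ∈ L, 𝔼 v ∈ V, ‖f v - Φ l v‖ ^ 2 ≤ 𝔼 v ∈ V, ‖f v‖ ^ 2)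
    (h2 : ∀ l ∈ L, ∀ l' ∈ L, l ≠ l' → ‖𝔼 v ∈ V, Φ l v * conj (Φ l' v)‖ ≤ c)
    (h3 : (L.card : ℝ) ^ 2 * c ≤ 1) : ∑ l ∈ L, 𝔼 v ∈ V, ‖Φ l v‖ ^ 2 ≤ 5 := by
  classical
  have a1 : ∑ l ∈ L, 𝔼 v ∈ V, ‖Φ l v‖ ^ 2 ≤ ∑ l ∈ L, 𝔼 v ∈ V, 2 * (f v * conj (Φ l v)).re :=
    sum_le_sum fun l hl => by
      have h4 := h1 l hl
      simp only [Complex.sq_norm, Complex.normSq_sub, expect_sub_distrib,
        expect_add_distrib] at h4 ⊢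
      linarith
  have a2 : ∑ l ∈ L, 𝔼 v ∈ V, 2 * (f v * conj (Φ l v)).re ≤
      5 / 2 * (𝔼 v ∈ V, ‖f v‖ ^ 2) + 2 / 5 * 𝔼 v ∈ V, ‖∑ l ∈ L, Φ l v‖ ^ 2 := by
    rw [← expect_sum_comm, mul_expect, mul_expect, ← expect_add_distrib]
    refine expect_le_expect fun v _ => ?_
    have h4 := Complex.re_le_norm (f v * conj (∑ l ∈ L, Φ l v))
    rw [norm_mul, Complex.norm_conj] at h4
    rw [← mul_sum, ← Complex.re_sum, ← mul_sum, ← map_sum]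
    nlinarith [sq_nonneg (5 / 2 * ‖f v‖ - ‖∑ l ∈ L, Φ l v‖)]
  have a3 : 𝔼 v ∈ V, ‖∑ l ∈ L, Φ l v‖ ^ 2 ≤
      ∑ l ∈ L, ∑ l' ∈ L, ((if l = l' then 𝔼 v ∈ V, ‖Φ l v‖ ^ 2 else 0) + c) := by
    simp only [← lbess_sq, map_sum, sum_mul_sum, Complex.re_sum, expect_sum_comm]
    refine sum_le_sum fun l hl => sum_le_sum fun l' hl' => ?_
    split_ifs with h
    · rw [h]
      exact le_add_of_nonneg_right hc
    · rw [zero_add, ← Complex.re_expect]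
      exact (Complex.re_le_norm _).trans (h2 l hl l' hl' h)
  simp +contextual only [sum_add_distrib, sum_ite_eq, if_true, sum_const, nsmul_eq_mul] at a3
  nlinarith [regl_one V hf]

/-- Paper D7, Bessel. `b l = 𝔼 ‖P l‖ ^ 2 ≤ 2 Re 𝔼 f e (-q l) conj (P l)` by `hP`. Sum over `l`:
`b = ∑ b l ≤ 2 ‖𝔼 f conj Φ‖ ≤ 2 (𝔼 ‖Φ‖ ^ 2) ^ (1/2)`, `Φ = ∑ l, e (q l) P l`, `q l v = v • l v`.
`𝔼 ‖Φ‖ ^ 2 = b +` cross terms, each at most `γ (∑ ‖a l ·‖) (∑ ‖a l' ·‖) ≤ γ / τ ^ 2`. So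
`b ^ 2 ≤ 4 (b + 1)` and `b ≤ 5`. -/
theorem bessel {V : Finset ℤ} (f : ℤ → ℂ) (hf : ∀ v, ‖f v‖ ≤ 1) (L : Finset (ℤ → T))
    (a : (ℤ → T) → ZMod M → ℂ) {τ γ : ℝ} (hτ : 0 < τ) (hγ : 0 ≤ γ)
    (ha : ∀ l ∈ L, τ * ∑ ξ, ‖a l ξ‖ ≤ 1)
    (hP : ∀ l ∈ L, 𝔼 v ∈ V, ‖f v * e (-(v • l v)) - ∑ ξ, a l ξ * e (v • ch ξ)‖ ^ 2 ≤
      𝔼 v ∈ V, ‖f v * e (-(v • l v))‖ ^ 2)
    (hG : ∀ l ∈ L, ∀ l' ∈ L, l ≠ l' → ∀ ξ : T, ‖𝔼 v ∈ V, e (v • (l - l') v + v • ξ)‖ ≤ γ)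
    (h : (L.card : ℝ) ^ 2 * γ ≤ τ ^ 2) :
    ∑ l ∈ L, 𝔼 v ∈ V, ‖∑ ξ, a l ξ * e (v • ch ξ)‖ ^ 2 ≤ 5 := by
  have h1 : ∀ l ∈ L, ∑ ξ, ‖a l ξ‖ ≤ τ⁻¹ := fun l hl => by
    rw [← mul_one τ⁻¹, le_inv_mul_iff₀ hτ]
    exact ha l hl
  have h2 := lbess_abs (V := V) (c := γ / τ ^ 2) hf L
    (fun l v => e (v • l v) * ∑ ξ, a l ξ * e (v • ch ξ)) (by positivity) (fun l hl => by
      refine le_of_eq_of_le (expect_congr rfl fun v _ => ?_) ((hP l hl).trans_eq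
        (expect_congr rfl fun v _ => by rw [norm_mul, norm_e, mul_one]))
      rw [← ((norm_mul (e (v • l v)) (f v * _ - _)).trans (by rw [norm_e, one_mul]) :), mul_sub,
        mul_left_comm, ← e_add, add_neg_cancel, e_zero, mul_one]) (fun l hl l' hl' hne => by
      have h3 : ∀ v : ℤ, (e (v • l v) * ∑ ξ, a l ξ * e (v • ch ξ)) *
          conj (e (v • l' v) * ∑ ξ, a l' ξ * e (v • ch ξ)) = ∑ ξ, ∑ ξ', a l ξ * conj (a l' ξ') *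
            e (v • (l - l') v + v • (ch ξ - ch ξ')) := fun v => by
        simp only [map_mul, map_sum, mul_sum, sum_mul, sub_eq_add_neg, Pi.add_apply, Pi.neg_apply,
          smul_add, smul_neg, e_add, e_neg]
        rw [sum_comm]
        exact sum_congr rfl fun _ _ => sum_congr rfl fun _ _ => by ring
      simp only [h3, expect_sum_comm, ← mul_expect]
      refine (norm_sum_le_of_le _ fun ξ _ => norm_sum_le_of_le _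
        (n := fun ξ' => ‖a l ξ‖ * ‖a l' ξ'‖ * γ) fun ξ' _ => ?_).trans ?_
      · rw [norm_mul, norm_mul, Complex.norm_conj]
        exact mul_le_mul_of_nonneg_left (hG l hl l' hl' hne _) (by positivity)
      · simp only [← sum_mul, ← mul_sum]
        rw [div_eq_inv_mul, ← inv_pow, sq]
        exact mul_le_mul_of_nonneg_right (mul_le_mul (h1 l hl) (h1 l' hl') (by positivity)
          (by positivity)) hγ) (by rwa [← mul_div_assoc, div_le_one (by positivity)])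
  simpa only [norm_mul, norm_e, one_mul] using h2

end Pool.Agent.TR
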