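import Pool.Agent.Lib.MP_cc859a_an.TR.LBas

open Finset Real
open scoped BigOperators ComplexConjugate

namespace Pool.Agent.TR

theorem lcell_norm_le (x : ℝ) (m : ℤ) : ‖(x : T)‖ ≤ |x - m| := by
  rw [UnitAddCircle.norm_eq]
  exact round_le x m

theorem lcell_int {x y : ℝ} (h : (x : T) = (y : T)) : ∃ m : ℤ, x = y + m := by
  rw [← sub_eq_zero, ← AddCircle.coe_sub, AddCircle.coe_eq_zero_iff] at h
  obtain ⟨m, hm⟩ := h
  exact ⟨m, by rw [zsmul_eq_mul, mul_one] at hm; linarith⟩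

theorem lcell_floor {x t r : ℝ} (ht : |t| ≤ r) (h : ∀ m : ℤ, r < |x - m|) : ⌊x + t⌋ = ⌊x⌋ := by
  have h1 := h ⌊x⌋
  have h2 := h (⌊x⌋ + 1)
  have h3 := Int.floor_le x
  have h4 := Int.lt_floor_add_one x
  rw [abs_of_nonneg (by linarith)] at h1
  rw [Int.cast_add, Int.cast_one, abs_of_nonpos (by linarith)] at h2
  obtain ⟨h5, h6⟩ := abs_le.1 ht
  exact Int.floor_eq_iff.2 ⟨by linarith, by linarith⟩

/-- Cells for one frequency. For the shift `s k = k / (Q R)`, `k < R`, the strip is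
`{y ∈ J | ‖Q • (φ y - s k)‖ ≤ Q d}`; the strips are disjoint because
`‖Q • (s k - s k')‖ = ‖(k - k') / R‖ ≥ 1 / R > 2 Q d`; take the smallest one as `Bad`.
`κ a = ⌊Q x⌋` where `x ∈ [0, 1)` represents `a - s` (`AddCircle.equivIco`). Off the strip `Q x` is
at distance more than `Q d` from the integers, so `x + τ` stays in the same cell. -/
theorem cell_one (J : Finset ℤ) (φ : ℤ → T) {Q R : ℕ} (hQ : 0 < Q) (hR : 0 < R) {d : ℝ}
    (hd : 2 * Q * R * d < 1) :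
    ∃ (κ : T → ℤ) (Bad : Finset ℤ), (∀ a b, κ a = κ b → ‖a - b‖ ≤ 1 / Q) ∧
      (R : ℝ) * Bad.card ≤ J.card ∧
      ∀ y ∈ J, y ∉ Bad → ∀ τ : T, ‖τ‖ ≤ d → κ (φ y + τ) = κ (φ y) := by
  classical
  have hQ' : (0 : ℝ) < Q := Nat.cast_pos.2 hQ
  have hR' : (0 : ℝ) < R := Nat.cast_pos.2 hR
  choose x hx using fun a : T => QuotientAddGroup.mk_surjective a
  set S : ℕ → Finset ℤ := fun k => J.filter fun y => ∃ m : ℤ, |Q * x (φ y) - k / R - m| ≤ Q * d
    with hS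
  have h1 : ∑ k ∈ range R, (S k).card ≤ J.card := by
    rw [← card_biUnion]
    · exact card_le_card (biUnion_subset.2 fun k _ => filter_subset _ _)
    · intro k hk k' hk' hne
      refine disjoint_left.2 fun y hy hy' => hne ?_
      obtain ⟨m, hm⟩ := (mem_filter.1 hy).2
      obtain ⟨m', hm'⟩ := (mem_filter.1 hy').2
      have e : (((k : ℤ) - k' + R * (m - m') : ℤ) : ℝ) =
          R * ((Q * x (φ y) - k' / R - m') - (Q * x (φ y) - k / R - m)) := by
        push_cast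
        field_simp
        ring
      have h2 : |(((k : ℤ) - k' + R * (m - m') : ℤ) : ℝ)| < 1 := by
        rw [e, abs_mul, abs_of_pos hR']
        refine (mul_le_mul_of_nonneg_left ((abs_sub _ _).trans (add_le_add hm' hm)) hR'.le).trans_lt ?_
        linarith
      have h3 : (k : ℤ) - k' + R * (m - m') = 0 := Int.abs_lt_one_iff.1 (by exact_mod_cast h2)
      have h4 := mem_range.1 (mem_coe.1 hk)
      have h5 := mem_range.1 (mem_coe.1 hk')
      have h6 : (k : ℤ) - k' = 0 := Int.eq_zero_of_abs_lt_dvd ⟨m' - m, by linarith⟩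
        (abs_lt.2 ⟨by omega, by omega⟩ : |(k : ℤ) - k'| < R)
      omega
  obtain ⟨k, -, hk⟩ := exists_min_image (range R) (fun k => (S k).card) ⟨0, mem_range.2 hR⟩
  refine ⟨fun a => ⌊Q * x a - k / R⌋ % Q, S k, fun a b h => ?_, ?_, fun y hy hy' τ hτ => ?_⟩
  · obtain ⟨m, hm⟩ := (Int.ModEq.dvd h : (Q : ℤ) ∣ ⌊Q * x b - k / R⌋ - ⌊Q * x a - k / R⌋)
    have hm' : (⌊Q * x b - k / R⌋ : ℝ) - ⌊Q * x a - k / R⌋ = Q * m := by exact_mod_cast hm
    have h2 := Int.floor_le (Q * x a - k / R)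
    have h3 := Int.lt_floor_add_one (Q * x a - k / R)
    have h4 := Int.floor_le (Q * x b - k / R)
    have h5 := Int.lt_floor_add_one (Q * x b - k / R)
    rw [← hx a, ← hx b, ← AddCircle.coe_sub]
    refine (lcell_norm_le _ (-m)).trans ?_
    rw [le_div_iff₀ hQ', ← abs_of_pos hQ', ← abs_mul, Int.cast_neg]
    exact abs_le.2 ⟨by linarith, by linarith⟩
  · have h2 := card_nsmul_le_sum (range R) (fun k => (S k).card) _ hk
    rw [card_range, smul_eq_mul] at h2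
    exact_mod_cast h2.trans h1
  · obtain ⟨m, hm⟩ := lcell_int (x := x (φ y + τ)) (y := x (φ y) + x τ)
      (by rw [AddCircle.coe_add, hx, hx, hx])
    have h2 : |Q * (x τ - round (x τ))| ≤ Q * d := by
      rw [abs_mul, abs_of_pos hQ', ← UnitAddCircle.norm_eq, hx]
      exact mul_le_mul_of_nonneg_left hτ hQ'.le
    have h3 := lcell_floor (x := Q * x (φ y) - k / R) h2 fun m => not_le.1 fun h =>
      hy' (mem_filter.2 ⟨hy, m, h⟩)
    have e : Q * x (φ y + τ) - k / R = Q * x (φ y) - k / R + Q * (x τ - round (x τ)) +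
        ((Q * (m + round (x τ)) : ℤ) : ℝ) := by
      rw [hm]
      push_cast
      ring
    beta_reduce
    rw [e, Int.floor_add_intCast, h3, Int.add_mul_emod_self_left]

/-- Paper D9, cells. Use `cell_one` for each `θ ∈ Θ` and for `θ₀ = 1 / (100 L)`; two points are
equivalent if all their labels agree, `rep y` is a chosen point of `J` in the class of `y`. For
`|x| < 7 L`, `‖x • θ₀‖ = |x| / (100 L)`. `Bad` is the union of the strips and of
`Ico (b - D) (b + D)`, `Ico (b + 7 L - D) (b + 7 L + D)`, `D = ⌊n⌋`. -/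
theorem cells {L : ℕ} (hL : 0 < L) (b : ℤ) (Θ : Finset T) {Q R : ℕ} (hQ : 0 < Q) (hR : 0 < R)
    {d n : ℝ} (hd : 2 * Q * R * d < 1) (hn0 : 0 ≤ n) (hn : n ≤ 100 * L * d) :
    ∃ (rep : ℤ → ℤ) (Bad : Finset ℤ),
      (∀ y ∈ Ico b (b + 7 * L), y - rep y ∈ Bohr Θ (1 / Q) (100 * L / Q)) ∧
      (Bad.card : ℝ) ≤ (Θ.card + 1) * (7 * L) / R + 4 * n ∧
      ∀ y ∉ Bad, ∀ u ∈ Bohr Θ d n, (y ∈ Ico b (b + 7 * L) ↔ y + u ∈ Ico b (b + 7 * L)) ∧
        (y ∈ Ico b (b + 7 * L) → rep (y + u) = rep y) := by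
  classical
  have hQ' : (0 : ℝ) < Q := Nat.cast_pos.2 hQ
  have hR' : (0 : ℝ) < R := Nat.cast_pos.2 hR
  have hL' : (0 : ℝ) < 100 * L := mul_pos (by norm_num) (Nat.cast_pos.2 hL)
  choose κ B h1 h2 h3 using fun θ : T =>
    cell_one (Ico b (b + 7 * L)) (fun y => y • θ) hQ hR hd
  set θ₀ : T := ((1 / (100 * L) : ℝ) : T) with hθ
  have e0 : ∀ w : ℤ, w • θ₀ = ((w / (100 * L) : ℝ) : T) := fun w => by
    rw [hθ, ← AddCircle.coe_zsmul, zsmul_eq_mul, mul_one_div]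
  have hD : 0 ≤ ⌊n⌋ := Int.floor_nonneg.2 hn0
  refine ⟨fun y => Classical.epsilon fun z => z ∈ Ico b (b + 7 * L) ∧
      ∀ θ ∈ insert θ₀ Θ, κ θ (y • θ) = κ θ (z • θ),
    (insert θ₀ Θ).biUnion B ∪ Ico (b - ⌊n⌋) (b + ⌊n⌋) ∪ Ico (b + 7 * L - ⌊n⌋) (b + 7 * L + ⌊n⌋),
    fun y hy => ?_, ?_, fun y hy u hu => ?_⟩
  · obtain ⟨h4, h5⟩ := Classical.epsilon_spec (p := fun z => z ∈ Ico b (b + 7 * L) ∧
      ∀ θ ∈ insert θ₀ Θ, κ θ (y • θ) = κ θ (z • θ)) ⟨y, hy, fun _ _ => rfl⟩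
    beta_reduce
    generalize Classical.epsilon (fun z => z ∈ Ico b (b + 7 * L) ∧
      ∀ θ ∈ insert θ₀ Θ, κ θ (y • θ) = κ θ (z • θ)) = z at h4 h5
    refine mem_Bohr.2 ⟨?_, fun θ hθ => ?_⟩
    · have h6 := h1 _ _ _ (h5 θ₀ (mem_insert_self _ _))
      have h7 : |y - z| ≤ 7 * L := by
        rw [mem_Ico] at hy h4
        exact abs_le.2 ⟨by omega, by omega⟩
      have h8 : |((y - z : ℤ) : ℝ)| ≤ 7 * L := by exact_mod_cast h7
      have h9 : |((y - z : ℤ) : ℝ) / (100 * L)| ≤ |(1 : ℝ)| / 2 := by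
        rw [abs_div, abs_of_pos hL', abs_one, div_le_iff₀ hL']
        linarith
      rw [← sub_smul, e0, (AddCircle.norm_coe_eq_abs_iff 1 one_ne_zero).2 h9, abs_div,
        abs_of_pos hL', div_le_iff₀ hL'] at h6
      exact h6.trans_eq (one_div_mul_eq_div _ _)
    · rw [sub_smul]
      exact h1 _ _ _ (h5 θ (mem_insert_of_mem hθ))
  · have h4 : ((Ico b (b + 7 * L)).card : ℝ) = 7 * L := by
      have : ((Ico b (b + 7 * L)).card : ℤ) = 7 * L := by
        rw [Int.card_Ico_of_le _ _ (by omega)]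
        ring
      exact_mod_cast this
    have h5 : ∀ c : ℤ, ((Ico (c - ⌊n⌋) (c + ⌊n⌋)).card : ℝ) ≤ 2 * n := fun c => by
      have : ((Ico (c - ⌊n⌋) (c + ⌊n⌋)).card : ℤ) = 2 * ⌊n⌋ := by
        rw [Int.card_Ico_of_le _ _ (by omega)]
        ring
      have h6 : ((Ico (c - ⌊n⌋) (c + ⌊n⌋)).card : ℝ) = 2 * (⌊n⌋ : ℝ) := by exact_mod_cast this
      linarith [Int.floor_le n]
    have h6 : (((insert θ₀ Θ).biUnion B).card : ℝ) ≤ (Θ.card + 1) * (7 * L) / R := by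
      refine (Nat.cast_le.2 card_biUnion_le).trans ?_
      rw [Nat.cast_sum, mul_div_assoc]
      refine (sum_le_card_nsmul _ _ (7 * L / R : ℝ) fun θ _ => ?_).trans ?_
      · rw [le_div_iff₀' hR', ← h4]
        exact h2 θ
      · rw [nsmul_eq_mul]
        exact mul_le_mul_of_nonneg_right (by exact_mod_cast card_insert_le θ₀ Θ) (by positivity)
    refine (Nat.cast_le.2 ((card_union_le _ _).trans
      (Nat.add_le_add_right (card_union_le _ _) _))).trans ?_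
    rw [Nat.cast_add, Nat.cast_add]
    linarith [h5 b, h5 (b + 7 * L)]
  · obtain ⟨h4, h5⟩ := mem_Bohr.1 hu
    have h6 : |u| ≤ ⌊n⌋ := Int.le_floor.2 (by exact_mod_cast h4)
    rw [mem_union, mem_union, not_or, not_or, mem_Ico, mem_Ico] at hy
    obtain ⟨⟨h7, h8⟩, h9⟩ := hy
    rw [abs_le] at h6
    refine ⟨by rw [mem_Ico, mem_Ico]; omega, fun hy => congrArg Classical.epsilon ?_⟩
    refine funext fun z => congrArg (_ ∧ ·) (forall_congr fun θ => forall_congr fun hθ => ?_)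
    rw [add_smul, h3 θ y hy (fun h => h7 (mem_biUnion.2 ⟨θ, hθ, h⟩))]
    rcases mem_insert.1 hθ with rfl | hθ
    · rw [e0]
      refine (lcell_norm_le _ 0).trans ?_
      rw [Int.cast_zero, sub_zero, abs_div, abs_of_pos hL', div_le_iff₀' hL']
      exact h4.trans hn
    · exact h5 θ hθ

end Pool.Agent.TR
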