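import Pool.Agent.Lib.MP_cc859a_an.TR.LBas

open Finset Real
open scoped BigOperators ComplexConjugate

namespace Pool.Agent.TR

variable {M : ℕ} [NeZero M]

theorem llocal_spec (A : ZMod M → ℂ) {V' : Finset ℤ} (hV' : V'.Nonempty) (Spec : Finset (ZMod M))
    (hSp : ∀ ξ ∈ Spec, ∀ w ∈ V', ‖w • ch ξ‖ ≤ 1 / 40) (χ : ZMod M) :
    M * (∑ ξ ∈ Spec, ‖ft A (χ + ξ)‖ ^ 2) / 2 ≤
      ∑ r : ZMod M, ‖𝔼 w ∈ V', A (r + w) * e (-(w • ch χ))‖ ^ 2 := by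
  have hM : (0 : ℝ) < M := Nat.cast_pos.2 (NeZero.pos M)
  have h1 := local_parseval A V' (ch χ)
  rw [four_exp', div_eq_iff hM.ne', ← Equiv.sum_comp (Equiv.addLeft χ)
    fun ξ => ‖ft A ξ‖ ^ 2 * ‖mu V' (ch ξ - ch χ)‖ ^ 2] at h1
  rw [h1, mul_div_assoc, mul_comm, sum_div]
  refine mul_le_mul_of_nonneg_right (le_trans (sum_le_sum fun ξ hξ => ?_)
    (sum_le_sum_of_subset_of_nonneg (subset_univ Spec) fun _ _ _ => by positivity)) hM.le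
  rw [Equiv.coe_addLeft, ch_add, add_sub_cancel_left, div_eq_mul_one_div]
  refine mul_le_mul_of_nonneg_left ?_ (sq_nonneg _)
  have h2 := norm_mu_sub_one hV' (hSp ξ hξ)
  have h3 := norm_sub_norm_le (1 : ℂ) (mu V' (ch ξ))
  rw [norm_one, norm_sub_rev] at h3
  nlinarith

/-- Paper D8, localisation. `A = push P a`, `Φ r = ‖𝔼 w ∈ V', A (r + w) e (-(w • ch χ))‖ ^ 2 ≤ 1`.
`local_parseval` and `‖mu V' (ch ξ) - 1‖ ≤ 7 / 40` give `∑ r, Φ r ≥ M / 2 * ∑ ξ ∈ Spec, …`.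
With `V₀ ⊆ V ⊆ V₁` from `hR`: `Φ r = 0` unless `r ≡ h₁ + z` with `z ∈ V₁` (`push_eq_zero`), so
`∑ r, Φ r ≤ ∑ z ∈ V₁, Φ (h₁ + z) ≤ ∑ z ∈ V₀, Φ (h₁ + z) + ζ |V|`, and for `z ∈ V₀`, `w ∈ V'` the
point `h₁ + z + w` is in `P` (`z + w ∈ V`, `0 ∈ V₂`). -/
theorem local_one {V U V₂ V' P : Finset ℤ} {ζ : ℝ} (hR : Reg V U ζ) (h0 : (0 : ℤ) ∈ V₂)
    (hV' : V'.Nonempty) (hU : ∀ u ∈ V₂, ∀ w ∈ V', u - w ∈ U) (hU' : V' ⊆ U) {h₁ : ℤ}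
    (hPm : ∀ p, p ∈ P ↔ ∃ v ∈ V, ∃ u ∈ V₂, p = h₁ + v + u) (hP : ∀ p ∈ P, 2 * |p| < M)
    (a : ℤ → ℂ) (ha : ∀ z, ‖a z‖ ≤ 1) (Spec : Finset (ZMod M))
    (hSp : ∀ ξ ∈ Spec, ∀ w ∈ V', ‖w • ch ξ‖ ≤ 1 / 40) (χ : ZMod M) :
    (M : ℝ) / V.card * (∑ ξ ∈ Spec, ‖ft (push P a) (χ + ξ)‖ ^ 2) / 2 - ζ ≤
      𝔼 z ∈ V, ‖𝔼 w ∈ V', a (h₁ + z + w) * e (-(w • ch χ))‖ ^ 2 := by
  classical
  have hζ := hR.nonneg
  obtain ⟨hV, V₀, V₁, h01, h02, h03, h04, h05⟩ := hR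
  have hc : (0 : ℝ) < V.card := Nat.cast_pos.2 hV.card_pos
  have h1 := llocal_spec (push P a) hV' Spec hSp χ
  set Φ : ZMod M → ℝ := fun r =>
    ‖𝔼 w ∈ V', push P a (r + ((w : ℤ) : ZMod M)) * e (-(w • ch χ))‖ ^ 2 with hΦ
  have hΦ0 : ∀ r, 0 ≤ Φ r := fun r => sq_nonneg _
  have hΦ1 : ∀ r, Φ r ≤ 1 := fun r => pow_le_one₀ (norm_nonneg _)
    (norm_expect_le' _ _ zero_le_one fun w _ => by
      rw [norm_mul, norm_e, mul_one]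
      exact norm_push_le hP (fun p _ => ha p) _)
  have h2 : ∑ r, Φ r ≤ ∑ z ∈ V₁, Φ ((h₁ + z : ℤ) : ZMod M) := by
    refine le_trans (le_of_eq (sum_subset (subset_univ
      (V₁.image fun z : ℤ => ((h₁ + z : ℤ) : ZMod M))) fun r _ hr => ?_).symm)
      (sum_image_le_of_nonneg fun r _ => hΦ0 r)
    have : 𝔼 w ∈ V', push P a (r + ((w : ℤ) : ZMod M)) * e (-(w • ch χ)) = 0 := by
      refine expect_eq_zero fun w hw => ?_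
      rw [push_eq_zero a fun p hp h => hr ?_, zero_mul]
      obtain ⟨v, hv, u, hu, rfl⟩ := (hPm p).1 hp
      refine mem_image.2 ⟨v + (u - w), h04 v hv _ (hU u hu w hw), ?_⟩
      rw [← sub_eq_iff_eq_add] at h
      rw [← h]
      push_cast
      ring
    simp only [hΦ, this, norm_zero]
    norm_num
  have h3 : ∑ z ∈ V₁, Φ ((h₁ + z : ℤ) : ZMod M) ≤
      ζ * V.card + ∑ z ∈ V₀, Φ ((h₁ + z : ℤ) : ZMod M) := by
    rw [← sum_sdiff (h01.trans h02)]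
    have h4 := sum_le_card_nsmul (V₁ \ V₀) (fun z : ℤ => Φ ((h₁ + z : ℤ) : ZMod M)) 1
      fun z _ => hΦ1 _
    rw [nsmul_eq_mul, mul_one, cast_card_sdiff (h01.trans h02)] at h4
    have h5 : (V₀.card : ℝ) ≤ V.card := by exact_mod_cast card_le_card h01
    nlinarith
  have h4 : ∑ z ∈ V₀, Φ ((h₁ + z : ℤ) : ZMod M) ≤
      ∑ z ∈ V, ‖𝔼 w ∈ V', a (h₁ + z + w) * e (-(w • ch χ))‖ ^ 2 := by
    refine le_trans (le_of_eq (sum_congr rfl fun z hz => ?_))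
      (sum_le_sum_of_subset_of_nonneg h01 fun _ _ _ => sq_nonneg _)
    refine congrArg (fun x : ℂ => ‖x‖ ^ 2) (expect_congr rfl fun w hw => ?_)
    rw [← Int.cast_add, push_apply hP a ((hPm _).2 ⟨z + w, h03 z hz w (hU' hw), 0, h0, by ring⟩)]
  rw [expect_eq_sum_div_card, le_div_iff₀ hc, sub_mul, div_mul_eq_mul_div, mul_right_comm,
    div_mul_cancel₀ _ hc.ne']
  linarith

/-- `Loc.quad` for `(z, w)`: the averages differ by the unimodular factor `e (-(z • l z))` up to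
`7 ε`. -/
theorem local_quad {g : ZMod M → ℂ} (hg : ∀ x, ‖g x‖ ≤ 1) {l : ℤ → T} {B V' : Finset ℤ} {ε : ℝ}
    (hε : 0 ≤ ε) (hl : Loc l B ε) (hV : V' ⊆ B) {z : ℤ} (hz : z ∈ B) (y : ZMod M) (θ : T) :
    ‖𝔼 w ∈ V', Gq g l y (z + w) * e (-(w • θ))‖ ≤
      ‖𝔼 w ∈ V', g (y + ((z : ℤ) : ZMod M) + ((w : ℤ) : ZMod M)) *
        e (-(w • l w + w • (θ + (2 : ℤ) • l z)))‖ + 7 * ε := by
  have h1 : ‖𝔼 w ∈ V', (Gq g l y (z + w) * e (-(w • θ)) - e (-(z • l z)) *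
      (g (y + ((z : ℤ) : ZMod M) + ((w : ℤ) : ZMod M)) *
        e (-(w • l w + w • (θ + (2 : ℤ) • l z)))))‖ ≤ 7 * ε := by
    refine norm_expect_le' _ _ (by positivity) fun w hw => ?_
    rw [Gq, Int.cast_add, ← add_assoc, mul_assoc, mul_left_comm (e _), ← mul_sub, ← e_add, ← e_add,
      norm_mul]
    refine (mul_le_of_le_one_left (norm_nonneg _) (hg _)).trans ((norm_e_sub_e _ _).trans ?_)
    refine mul_le_mul_of_nonneg_left ?_ (by norm_num)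
    refine le_trans (le_of_eq ?_) (hl.symm z hz w (hV hw))
    rw [hl.add z hz w (hV hw)]
    congr 1
    simp only [smul_add, add_smul, two_zsmul]
    abel
  rw [expect_sub_distrib, ← mul_expect] at h1
  have h2 := norm_sub_norm_le (𝔼 w ∈ V', Gq g l y (z + w) * e (-(w • θ))) (e (-(z • l z)) *
    𝔼 w ∈ V', g (y + ((z : ℤ) : ZMod M) + ((w : ℤ) : ZMod M)) *
      e (-(w • l w + w • (θ + (2 : ℤ) • l z))))
  rw [norm_mul, norm_e, one_mul] at h2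
  linarith

end Pool.Agent.TR
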