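import Pool.Agent.Lib.MP_cc859a_an.TR.LBas
import Pool.Agent.Lib.MP_cc859a_an.TR.Chang

open Finset Real
open scoped BigOperators ComplexConjugate

namespace Pool.Agent.TR

variable {M : ℕ} [NeZero M]

/-- `inversion` for `B`. -/
theorem one_four (F K B : ZMod M → ℂ) (th : ZMod M) :
    𝔼 x, 𝔼 z, F x * K z * B (z + th * x) = ∑ ξ, ft B (-ξ) * ft F (th * ξ) * ft K ξ := by
  have h : ∀ x z, F x * K z * B (z + th * x) =
      ∑ ξ, ft B (-ξ) * (F x * e (-ch (th * ξ * x))) * (K z * e (-ch (ξ * z))) := fun x z => by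
    rw [inversion B (z + th * x), ← Equiv.sum_comp (Equiv.neg (ZMod M)), mul_sum]
    refine sum_congr rfl fun ξ _ => ?_
    rw [Equiv.neg_apply, show -ξ * (z + th * x) = -(th * ξ * x) + -(ξ * z) by ring, ch_add, e_add,
      ch_neg, ch_neg]
    ring
  simp only [h, expect_sum_comm, ← mul_expect, ← expect_mul]
  rfl

theorem lone_ft_le {F : ZMod M → ℂ} (hF : ∀ x, ‖F x‖ ≤ 1) {E : Finset (ZMod M)}
    (hF0 : ∀ x ∉ E, F x = 0) (ξ : ZMod M) : ‖ft F ξ‖ ≤ E.card / M := by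
  rw [ft, four_exp, norm_div, Complex.norm_natCast, ← sum_subset (subset_univ E) fun x _ hx => by
    rw [hF0 x hx, zero_mul]]
  refine div_le_div_of_nonneg_right ((norm_sum_le _ _).trans ?_) (Nat.cast_nonneg _)
  refine (sum_le_card_nsmul _ _ 1 fun x _ => ?_).trans (by rw [nsmul_eq_mul, mul_one])
  rw [norm_mul, norm_e, mul_one]
  exact hF x

theorem lone_pars {K : ZMod M → ℂ} (hK : ∀ x, ‖K x‖ ≤ 1) : ∑ ξ, ‖ft K ξ‖ ^ 2 ≤ 1 := by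
  rw [← parseval]
  exact expect_le univ_nonempty fun x _ => pow_le_one₀ (norm_nonneg _) (hK x)

theorem lone_Sp {Λ : Finset (ZMod M)} {u th ξ : ZMod M} (hu : u * th = 1) (h : th * ξ ∈ Sp Λ 1) :
    ξ ∈ Sp (Λ.image fun a => u * a) 1 := by
  obtain ⟨c, hc, e1⟩ := mem_Sp.1 h
  have h1 : ∀ a, th * (u * a) = a := fun a => by rw [← mul_assoc, mul_comm th, hu, one_mul]
  refine mem_Sp.2 ⟨fun b => c (th * b), fun b => hc _, ?_⟩
  rw [sum_image fun a _ b _ hab => by rw [← h1 a, ← h1 b]; exact congrArg _ hab]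
  simp only [h1, ← mul_smul_comm]
  rw [← mul_sum, ← e1, ← mul_assoc, hu, one_mul]

/-- Paper D1 for one `h`. `w = |E| / M` bounds `‖ft F ·‖`. The frequencies with
`‖ft F (th ξ)‖ < η w` give at most `η w` (Cauchy-Schwarz and `parseval` for `B` and `K`); the
others have `th ξ ∈ Sp Λ₀ 1` by `chang`, so `ξ ∈ Sp Λ 1` for the image `Λ` of `Λ₀` under the
inverse of `th`, and they give at most `w (∑ ‖ft K ξ‖ ^ 2) ^ (1 / 2)`. -/
theorem one_mass (F K B : ZMod M → ℂ) (hF : ∀ x, ‖F x‖ ≤ 1) (hK : ∀ x, ‖K x‖ ≤ 1)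
    (hB : ∀ x, ‖B x‖ ≤ 1) {E : Finset (ZMod M)} (hE : E.Nonempty) (hF0 : ∀ x ∉ E, F x = 0)
    {th : ZMod M} (hth : IsUnit th) {η : ℝ} (hη : 0 < η)
    (h : 2 * η * (E.card / M) ≤ ‖𝔼 x, 𝔼 z, F x * K z * B (z + th * x)‖) :
    ∃ Λ : Finset (ZMod M), (Λ.card : ℝ) ≤ 4 / η ^ 2 * log (4 * M / E.card) ∧
      η ^ 2 ≤ ∑ ξ ∈ Sp Λ 1, ‖ft K ξ‖ ^ 2 := by
  obtain ⟨Λ, hΛ, hc⟩ := chang E hE F hF hF0 hη
  obtain ⟨u, hu⟩ := hth.exists_left_inv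
  refine ⟨Λ.image fun a => u * a, (Nat.cast_le.2 card_image_le).trans hΛ, ?_⟩
  have hs := fun ξ => lone_Sp (Λ := Λ) (ξ := ξ) hu
  generalize Sp (Λ.image fun a => u * a) 1 = S at hs
  have hw : (0 : ℝ) < E.card / M :=
    div_pos (Nat.cast_pos.2 hE.card_pos) (Nat.cast_pos.2 (NeZero.pos M))
  have hb : ∑ ξ, ‖ft B (-ξ)‖ ^ 2 ≤ 1 :=
    (Equiv.sum_comp (Equiv.neg (ZMod M)) fun ξ => ‖ft B ξ‖ ^ 2).trans_le (lone_pars hB)
  have cs : ∀ U : Finset (ZMod M), (∑ ξ ∈ U, ‖ft B (-ξ)‖ * ‖ft K ξ‖) ^ 2 ≤ ∑ ξ ∈ U, ‖ft K ξ‖ ^ 2 :=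
    fun U => (sum_mul_sq_le_sq_mul_sq U _ _).trans (mul_le_of_le_one_left
      (sum_nonneg fun _ _ => sq_nonneg _) ((sum_le_univ_sum_of_nonneg fun _ => sq_nonneg _).trans hb))
  have h1 : ∑ ξ ∈ Sᶜ, ‖ft B (-ξ)‖ * ‖ft K ξ‖ ≤ 1 := by
    refine (pow_le_one_iff_of_nonneg (sum_nonneg fun _ _ => by positivity) two_ne_zero).1 ?_
    exact (cs _).trans ((sum_le_univ_sum_of_nonneg fun _ => sq_nonneg _).trans (lone_pars hK))
  have h2 : ∑ ξ ∈ S, ‖ft B (-ξ) * ft F (th * ξ) * ft K ξ‖ ≤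
      E.card / M * ∑ ξ ∈ S, ‖ft B (-ξ)‖ * ‖ft K ξ‖ := by
    rw [mul_sum]
    refine sum_le_sum fun ξ _ => ?_
    rw [norm_mul, norm_mul, mul_comm ‖ft B _‖, mul_assoc]
    exact mul_le_mul_of_nonneg_right (lone_ft_le hF hF0 _) (by positivity)
  have h3 : ∑ ξ ∈ Sᶜ, ‖ft B (-ξ) * ft F (th * ξ) * ft K ξ‖ ≤
      η * (E.card / M) * ∑ ξ ∈ Sᶜ, ‖ft B (-ξ)‖ * ‖ft K ξ‖ := by
    rw [mul_sum]
    refine sum_le_sum fun ξ hξ => ?_
    rw [norm_mul, norm_mul, mul_comm ‖ft B _‖, mul_assoc]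
    exact mul_le_mul_of_nonneg_right
      (not_le.1 fun h' => mem_compl.1 hξ (hs ξ (hc _ h'))).le (by positivity)
  rw [one_four] at h
  have h4 := h.trans (norm_sum_le _ _)
  rw [← sum_add_sum_compl S] at h4
  have h5 := mul_le_mul_of_nonneg_left h1 (mul_pos hη hw).le
  have h6 : η ≤ ∑ ξ ∈ S, ‖ft B (-ξ)‖ * ‖ft K ξ‖ :=
    le_of_mul_le_mul_left (by linarith) hw
  exact (pow_le_pow_left₀ hη.le h6 2).trans (cs S)

/-- `chang` for the indicator of the image of `S` (`card_image_cast`, `mu_neg`). -/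
theorem chang_int {S : Finset ℤ} (hS : S.Nonempty) (hP : ∀ p ∈ S, 2 * |p| < M) {η : ℝ}
    (hη : 0 < η) : ∃ Λ : Finset (ZMod M), (Λ.card : ℝ) ≤ 4 / η ^ 2 * log (4 * M / S.card) ∧
      ∀ ξ ∉ Sp Λ 1, ‖mu S (ch ξ)‖ ≤ η := by
  obtain ⟨Λ, hΛ, hc⟩ := chang (S.image fun p : ℤ => (p : ZMod M)) (hS.image _) (push S fun _ => 1)
    (norm_push_le hP fun _ _ => norm_one.le)
    (fun x hx => push_eq_zero _ fun p hp e => hx (mem_image.2 ⟨p, hp, e⟩)) hη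
  rw [card_image_cast hP] at hΛ hc
  refine ⟨Λ, hΛ, fun ξ hξ => ?_⟩
  have h1 := not_le.1 fun h' => hξ (hc ξ h')
  have h2 : ft (push S fun _ => 1) ξ = (S.card : ℂ) * mu S (-ch ξ) / M := by
    rw [ft_push, mu, card_mul_expect]
    simp only [one_mul, smul_neg]
  have hw : (0 : ℝ) < S.card / M :=
    div_pos (Nat.cast_pos.2 hS.card_pos) (Nat.cast_pos.2 (NeZero.pos M))
  rw [h2, mu_neg, norm_div, norm_mul, Complex.norm_natCast, Complex.norm_natCast,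
    Complex.norm_conj, mul_comm, mul_div_assoc] at h1
  exact (lt_of_mul_lt_mul_right h1 hw.le).le

end Pool.Agent.TR
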