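import Pool.Agent.Lib.MP_cc859a_an.TR.LLarge
import Pool.Agent.Lib.MP_cc859a_an.TR.LLocal
import Pool.Agent.Lib.MP_cc859a_an.TR.LOne

open Finset Real
open scoped BigOperators ComplexConjugate

namespace Pool.Agent.TR

variable {M : ℕ} [NeZero M]

theorem lcorr_small {Θ : Finset T} {δ : ℝ} (hδ : δ ≤ 1 / 4) {p : ℤ} (hp : p ∈ BM M Θ δ) :
    2 * |p| < M := by
  have h1 := (mem_Bohr.1 hp).1
  have hM : (0 : ℝ) < M := Nat.cast_pos.2 (Nat.pos_of_ne_zero (NeZero.ne M))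
  have h2 : (2 * |(p : ℝ)|) < M := by nlinarith
  exact_mod_cast h2

theorem lcorr_sp {Λ : Finset (ZMod M)} {w : ℤ} {r : ℝ} (hr : Λ.card * r ≤ 1 / 40)
    (h : ∀ a ∈ Λ, ‖w • ch a‖ ≤ r) {ξ : ZMod M} (hξ : ξ ∈ Sp Λ 1) : ‖w • ch ξ‖ ≤ 1 / 40 := by
  have h1 := Sp_norm_le (AddMonoidHom.mk' (fun x : ZMod M => w • ch x)
    fun a b => by rw [ch_add, smul_add]) h hξ
  rw [Nat.cast_one, one_mul] at h1
  exact h1.trans hr

/-- A dense piece of `S'` inside a translate of the small Bohr set. -/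
theorem lcorr_piece {V₁ V V₂ S S' : Finset ℤ} {ζ κ η : ℝ} (hR : Reg V₁ V ζ) (hζ : ζ ≤ 1)
    (hV : V.Nonempty) (hneg : ∀ v ∈ V₂, -v ∈ V) (hS : S ⊆ V₁) (hS' : S' ⊆ S) (hκ : 0 < κ)
    (hd : η * V₁.card ≤ S.card) (hc : κ / 160 * S.card ≤ S'.card) :
    ∃ v₁ ∈ V₁, ∃ u₁ ∈ V, ∃ S'' ⊆ S', κ * η * V₂.card / 320 ≤ S''.card ∧
      ∀ x ∈ S'', ∃ u ∈ V₂, x = v₁ + u₁ + u := by
  obtain ⟨Ω, hΩ, hΩc⟩ := hR.sumset 0
  have hV₁ : (0 : ℝ) < V₁.card := Nat.cast_pos.2 hR.1.card_pos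
  obtain ⟨u0, hu0⟩ := hV
  obtain ⟨v0, hv0⟩ := hR.1
  obtain ⟨h₁, hh₁, hcount⟩ := dens_shift S' V₂ Ω ⟨_, (hΩ _).2 ⟨v0, hv0, u0, hu0, rfl⟩⟩
    fun x hx v hv => (hΩ _).2 ⟨x, hS (hS' hx), -v, hneg v hv, by ring⟩
  obtain ⟨v₁, hv₁, u₁, hu₁, rfl⟩ := (hΩ _).1 hh₁
  rw [zero_add] at hcount
  refine ⟨v₁, hv₁, u₁, hu₁, (V₂.filter fun v => v₁ + u₁ + v ∈ S').image fun v => v₁ + u₁ + v,
    fun x hx => ?_, ?_, fun x hx => ?_⟩
  · obtain ⟨v, hv, rfl⟩ := mem_image.1 hx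
    exact (mem_filter.1 hv).2
  · rw [card_image_of_injective _ (add_right_injective _)]
    have hn : (0 : ℝ) ≤ (V₂.filter fun v => v₁ + u₁ + v ∈ S').card := Nat.cast_nonneg _
    generalize ((V₂.filter fun v => v₁ + u₁ + v ∈ S').card : ℝ) = n at hcount hn
    have h2 : (0 : ℝ) ≤ V₂.card := Nat.cast_nonneg _
    have h3 : κ / 160 * (η * V₁.card) ≤ S'.card :=
      (mul_le_mul_of_nonneg_left hd (by positivity)).trans hc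
    have h4 : (Ω.card : ℝ) ≤ 2 * V₁.card :=
      hΩc.trans (mul_le_mul_of_nonneg_right (by linarith) hV₁.le)
    have h5 : κ / 160 * (η * V₁.card) * V₂.card ≤ 2 * V₁.card * n :=
      (mul_le_mul_of_nonneg_right h3 h2).trans (hcount.trans (mul_le_mul_of_nonneg_right h4 hn))
    refine le_of_mul_le_mul_left ?_ hV₁
    linarith
  · obtain ⟨v, hv, rfl⟩ := mem_image.1 hx
    exact ⟨v, (mem_filter.1 hv).1, rfl⟩

/-- The substitution `Y = y + c`. -/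
theorem lcorr_end {g : ZMod M → ℂ} {Ls : Finset (ℤ → T)} {V' : Finset ℤ} {m : ℝ}
    (lab : ZMod M → ℤ → T) (ξ : ZMod M → T) (c : ZMod M) (hlab : ∀ y, lab y ∈ Ls)
    (h : m ≤ 𝔼 y : ZMod M,
      ‖𝔼 w ∈ V', g (y + c + ((w : ℤ) : ZMod M)) * e (-(w • lab y w + w • ξ y))‖) :
    H4 g Ls V' m := by
  refine ⟨fun Y => lab (Y - c), fun Y => ξ (Y - c), fun Y => hlab _, h.trans (le_of_eq ?_)⟩
  refine Fintype.expect_equiv (Equiv.addRight c) _ _ fun y => ?_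
  simp only [Equiv.coe_addRight, add_sub_cancel_right]

/-- Paper D8. `V₂ = BM M W.Θ W.δ ⊆ W.V` is symmetric and contains `0`. `dens_shift` for `S'`, `V₂`
and the set `Ω` of `Reg.sumset hW.reg₁ 0` (at most `2 |V₁|` points) gives `h₁` and
`S'' = S' ∩ (h₁ + V₂)` with `|S''| ≥ κ η |V₂| / 320`. `chang_int` for `S''` with `κ / 640` gives
`Λ`; `Spec = Sp Λ 1`. `P` is the set of `Reg.sumset` for `W.V`, `V₂`, `h₁`; its points are sums of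
four points of `BM M Θ₀ δ₀`. `large_all` with `a y l = Gq g l (y + W.h)`, `local_one` for each `y`
(`Sp_norm_le` for the bound `1 / 40`), exchange the averages, take the best `z ∈ W.V`, use
`x ^ 2 ≤ x` for `x ∈ [0, 1]` and `local_quad` at `h₁ + z`, and substitute
`Y = y + W.h + (h₁ + z)`. -/
theorem corr {W : Win M} {g : ZMod M → ℂ} (hg : ∀ x, ‖g x‖ ≤ 1) {Ls : Finset (ℤ → T)}
    {Θ₀ : Finset T} {δ₀ κ η γ ζ R ε : ℝ} (hW : W.OK g Ls (BM M Θ₀ δ₀) κ η γ ζ R)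
    (hδ0 : 0 ≤ δ₀) (hδ : δ₀ ≤ 1 / 100) (hε : 0 ≤ ε) (hloc : ∀ l ∈ Ls, Loc l (BM M Θ₀ (4 * δ₀)) ε)
    (hζ : ζ ≤ 1) (hκ : 0 < κ) (hη : 0 < η) (P : ZMod M → (ℤ → T) → ℤ → ℂ) {S' : Finset ℤ}
    (hS' : S' ⊆ W.S) (hc : κ / 160 * W.S.card ≤ S'.card)
    (hP : ∀ y, ∑ l ∈ W.L, 𝔼 v ∈ W.V, ‖P y l v‖ ^ 2 ≤ 5)
    (h : ∀ h' ∈ S', κ / 32 ≤ 𝔼 y : ZMod M, ∑ l ∈ W.L,
      ‖𝔼 v ∈ W.V, Gq g l (y + W.h) (h' + v) * conj (P y l v)‖ ^ 2) :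
    ∃ Λ : Finset (ZMod M),
      (Λ.card : ℝ) ≤ 4 / (κ / 640) ^ 2 * log (1280 * M / (κ * η * (BM M W.Θ W.δ).card)) ∧
      ∀ (V' : Finset ℤ) (r : ℝ), V' ⊆ BM M W.Θ W.δ → V'.Nonempty → Λ.card * r ≤ 1 / 40 →
        (∀ w ∈ V', ∀ a ∈ Λ, ‖w • ch a‖ ≤ r) → H4 g Ls V' (κ ^ 2 / 819200 - ζ - 7 * ε) := by
  have hM : (0 : ℝ) < M := Nat.cast_pos.2 (Nat.pos_of_ne_zero (NeZero.ne M))
  have hWδ : 0 < W.δ := (exp_pos _).trans_le hW.δ_ge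
  have h0 : (0 : ℤ) ∈ BM M W.Θ W.δ := Bohr_zero_mem hWδ.le (by positivity)
  have hV₂ : (0 : ℝ) < (BM M W.Θ W.δ).card := Nat.cast_pos.2 (card_pos.2 ⟨0, h0⟩)
  obtain ⟨v₁, hv₁, u₁, hu₁, S'', hS'', hcard, hform⟩ := lcorr_piece (V₂ := BM M W.Θ W.δ) hW.reg₁ hζ
    hW.reg.1 (fun v hv => hW.V₂_sub (Bohr_neg hv)) hW.S_sub hS' hκ hW.dens hc
  have hpos : 0 < κ * η * (BM M W.Θ W.δ).card := by positivity
  have hSpos : (0 : ℝ) < S''.card := lt_of_lt_of_le (by positivity) hcard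
  have hSne : S''.Nonempty := card_pos.1 (Nat.cast_pos.1 hSpos)
  obtain ⟨Λ, hΛ, hSp⟩ := chang_int (M := M) hSne (fun p hp =>
    lcorr_small (by linarith) (hW.V₁_sub (hW.S_sub (hS' (hS'' hp))))) (η := κ / 640) (by positivity)
  refine ⟨Λ, hΛ.trans (mul_le_mul_of_nonneg_left (log_le_log (by positivity) ?_) (by positivity)),
    fun V' r hV' hV'ne hr hsmall => ?_⟩
  · rw [div_le_div_iff₀ hSpos hpos]
    nlinarith
  have hsub : BM M W.Θ W.δ ⊆ BM M W.Θ (2 * W.δ) := BM_mono subset_rfl (by linarith)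
  obtain ⟨Q, hQ, hQc⟩ := (hW.reg.mono hsub le_rfl).sumset (v₁ + u₁)
  have hh₁ : v₁ + u₁ ∈ BM M Θ₀ (δ₀ + δ₀) := BM_add (hW.V₁_sub hv₁) (hW.V_sub hu₁)
  have hQM : ∀ p ∈ Q, 2 * |p| < M := fun p hp => by
    obtain ⟨v, hv, u, hu, rfl⟩ := (hQ p).1 hp
    exact lcorr_small (by linarith)
      (BM_add (BM_add hh₁ (hW.V_sub hv)) (hW.V_sub (hW.V₂_sub hu)))
  have hVc : (0 : ℝ) ≤ W.V.card := Nat.cast_nonneg _
  obtain ⟨lab, χ, hlab, hmass⟩ := large_all (M := M) (S := S'') (V := W.V) (P := Q) hSne hW.reg.1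
    (fun p hp => lcorr_small (by linarith) (hW.V_sub hp)) hQM
    (fun h' hh' v hv => by
      obtain ⟨u, hu, rfl⟩ := hform h' hh'
      exact (hQ _).2 ⟨v, hv, u, hu, by ring⟩)
    (hQc.trans (mul_le_mul_of_nonneg_right (by linarith) hVc)) W.L
    (fun y l => Gq g l (y + W.h)) P (fun y l z => norm_Gq_le hg _ _ _) (Sp Λ 1) hκ hSp hP
    fun h' hh' => h h' (hS'' hh')
  have hloc1 := fun y : ZMod M => local_one (M := M) hW.reg h0 hV'ne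
    (fun u hu w hw => by
      rw [two_mul]
      exact BM_sub hu (hV' hw))
    (hV'.trans hsub) hQ hQM (Gq g (lab y) (y + W.h)) (fun z => norm_Gq_le hg _ _ _) (Sp Λ 1)
    (fun ξ hξ w hw => lcorr_sp hr (hsmall w hw) hξ) (χ y)
  have h1 : κ ^ 2 / 819200 - ζ ≤ 𝔼 z ∈ W.V, 𝔼 y : ZMod M,
      ‖𝔼 w ∈ V', Gq g (lab y) (y + W.h) (v₁ + u₁ + z + w) * e (-(w • ch (χ y)))‖ ^ 2 := by
    rw [← expect_comm]
    refine le_trans ?_ (expect_le_expect fun y _ => hloc1 y)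
    rw [expect_sub_distrib, expect_const univ_nonempty, ← expect_div]
    linarith
  obtain ⟨z, hz, h2⟩ := exists_ge_expect hW.reg.1 _ h1
  have hz' : v₁ + u₁ + z ∈ BM M Θ₀ (4 * δ₀) :=
    BM_mono subset_rfl (by linarith) (BM_add hh₁ (hW.V_sub hz))
  have hV'B : V' ⊆ BM M Θ₀ (4 * δ₀) :=
    (hV'.trans (hW.V₂_sub.trans hW.V_sub)).trans (BM_mono subset_rfl (by linarith))
  refine lcorr_end lab (fun y => ch (χ y) + (2 : ℤ) • lab y (v₁ + u₁ + z))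
    (W.h + ((v₁ + u₁ + z : ℤ) : ZMod M)) (fun y => hW.L_sub (hlab y)) ?_
  rw [sub_le_iff_le_add, ← expect_const (univ_nonempty (α := ZMod M)) (7 * ε),
    ← expect_add_distrib]
  refine h2.trans (expect_le_expect fun y _ => ?_)
  have h3 := local_quad hg hε (hloc _ (hW.L_sub (hlab y))) hV'B hz' (y + W.h) (ch (χ y))
  rw [add_assoc y] at h3
  refine le_trans ?_ h3
  refine pow_le_of_le_one (norm_nonneg _) (norm_expect_le' _ _ zero_le_one fun w _ => ?_)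
    two_ne_zero
  rw [norm_mul, norm_e, mul_one]
  exact norm_Gq_le hg _ _ _

end Pool.Agent.TR
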