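import Pool.Agent.Lib.MP_cc859a_an.TR.Bsg
import Pool.Agent.Lib.MP_cc859a_an.TR.Frei
import Pool.Agent.Lib.MP_cc859a_an.TR.Bogo

open Finset Real
open scoped BigOperators ComplexConjugate

namespace Pool.Agent.TR

open scoped Pointwise in
theorem piece_frei {X : ℝ} (hX : 2 ≤ X) {M : ℕ} [NeZero M] (S : Finset (ZMod M))
    (ξ : ZMod M → ZMod M) (h : exp (-X) * (M : ℝ) ^ 3 ≤ nquad S ξ) :
    ∃ A ⊆ S, exp (-X ^ 14) * M ≤ A.card ∧
      ∀ a b : Fin 6 → ZMod M, (∀ i, a i ∈ A) → (∀ i, b i ∈ A) → ∑ i, a i = ∑ i, b i →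
        ∑ i, ξ (a i) = ∑ i, ξ (b i) := by
  have hM : (0 : ℝ) < M := Nat.cast_pos.2 (NeZero.pos M)
  have hK : 1 ≤ exp X := one_le_exp (by linarith)
  have hc : ((S.image fun a => (a, ξ a)).card : ℝ) ≤ M := by
    exact_mod_cast card_image_le.trans ((card_le_univ S).trans_eq (ZMod.card M))
  obtain ⟨Z, hZ, h1, h2⟩ := bsg (S.image fun a => (a, ξ a)) hM (exp_pos X) hc (by
    rw [exp_neg, inv_mul_le_iff₀ (exp_pos X)] at h
    refine h.trans (mul_le_mul_of_nonneg_left (Nat.cast_le.2 ?_) (exp_pos X).le)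
    refine card_le_card_of_injOn (fun z => (((z.1.1, ξ z.1.1), (z.1.2, ξ z.1.2)),
      ((z.2.1, ξ z.2.1), (z.2.2, ξ z.2.2)))) (fun z hz => ?_) fun z _ w _ e => ?_
    · simp only [coe_filter, mem_product, Set.mem_ofPred_eq] at hz ⊢
      exact ⟨⟨⟨mem_image_of_mem _ hz.1.1.1, mem_image_of_mem _ hz.1.1.2⟩,
        mem_image_of_mem _ hz.1.2.1, mem_image_of_mem _ hz.1.2.2⟩, Prod.ext hz.2.1 hz.2.2⟩
    · simp only [Prod.mk.injEq] at e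
      exact Prod.ext (Prod.ext e.1.1.1 e.1.2.1) (Prod.ext e.2.1.1 e.2.2.1))
  obtain ⟨A, hA, rfl⟩ := subset_image_iff.1 hZ
  rw [card_image_of_injective _ fun a b e => congrArg Prod.fst e] at h1
  obtain ⟨A', hA', h3, h4⟩ := frei A ξ (K := 16384 * exp X ^ 4)
    (by nlinarith [one_le_pow₀ (n := 4) hK]) (h2.trans (by
      calc 4096 * exp X ^ 3 * M ≤ 4096 * exp X ^ 3 * (4 * exp X * A.card) := by gcongr
        _ = _ := by ring))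
  refine ⟨A', hA'.trans hA, ?_, h4⟩
  have h5 : (2 : ℝ) ≤ exp X := by linarith [add_one_le_exp X]
  have h6 : 16384 * exp X ^ 4 ≤ exp X ^ 18 := by
    calc 16384 * exp X ^ 4 = 2 ^ 14 * exp X ^ 4 := by norm_num
      _ ≤ exp X ^ 14 * exp X ^ 4 := by gcongr
      _ = _ := by ring
  have h7 : (800 : ℝ) ≤ exp X ^ 10 := by
    calc (800 : ℝ) ≤ 2 ^ 10 := by norm_num
      _ ≤ _ := by gcongr
  have h8 : exp X ^ 5411 ≤ exp (X ^ 14) := by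
    rw [← exp_nat_mul, exp_le_exp, pow_succ]
    refine mul_le_mul_of_nonneg_right ?_ (by linarith)
    calc ((5411 : ℕ) : ℝ) ≤ 2 ^ 13 := by norm_num
      _ ≤ _ := by gcongr
  rw [exp_neg, inv_mul_le_iff₀ (exp_pos _)]
  generalize exp X = K at *
  have h9 : (16384 * K ^ 4) ^ 300 ≤ K ^ 5400 := by
    rw [show 5400 = 18 * 300 from rfl, pow_mul]
    exact pow_le_pow_left₀ (by positivity) h6 300
  generalize (16384 * K ^ 4) ^ 300 = L at h3 h9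
  rw [show 5411 = 10 + 1 + 5400 from rfl, pow_add, pow_succ] at h8
  generalize K ^ 5400 = L' at h8 h9
  calc (M : ℝ) ≤ 4 * K * (200 * L' * A'.card) :=
        h1.trans (mul_le_mul_of_nonneg_left (h3.trans (by gcongr)) (by positivity))
    _ = 800 * K * L' * A'.card := by ring
    _ ≤ K ^ 10 * K * L' * A'.card := by
      have : 0 ≤ L' := by
        by_contra h0
        have : 200 * L * (A'.card : ℝ) ≤ 200 * L' * A'.card := by gcongr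
        have : 200 * L' * (A'.card : ℝ) ≤ 0 :=
          mul_nonpos_of_nonpos_of_nonneg (by linarith) (Nat.cast_nonneg _)
        nlinarith
      gcongr
    _ ≤ _ := by gcongr

theorem piece_lin {G H : Type*} [CommRing G] [CommRing H] (A : Finset G) (ξ : G → H)
    (h : ∀ a b : Fin 6 → G, (∀ i, a i ∈ A) → (∀ i, b i ∈ A) → ∑ i, a i = ∑ i, b i →
      ∑ i, ξ (a i) = ∑ i, ξ (b i)) :
    ∃ l : G → H, ∀ a₁ ∈ A, ∀ a₂ ∈ A, ∀ a₃ ∈ A, ∀ a₄ ∈ A,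
      l (a₁ + a₂ - a₃ - a₄) = ξ a₁ + ξ a₂ - ξ a₃ - ξ a₄ := by
  have h1 : ∀ v : G, ∃ y : H, ∀ a₁ ∈ A, ∀ a₂ ∈ A, ∀ a₃ ∈ A, ∀ a₄ ∈ A,
      v = a₁ + a₂ - a₃ - a₄ → y = ξ a₁ + ξ a₂ - ξ a₃ - ξ a₄ := fun v => by
    by_cases hv : ∃ b₁ ∈ A, ∃ b₂ ∈ A, ∃ b₃ ∈ A, ∃ b₄ ∈ A, v = b₁ + b₂ - b₃ - b₄
    · obtain ⟨b₁, m₁, b₂, m₂, b₃, m₃, b₄, m₄, rfl⟩ := hv
      refine ⟨ξ b₁ + ξ b₂ - ξ b₃ - ξ b₄, fun a₁ n₁ a₂ n₂ a₃ n₃ a₄ n₄ e => ?_⟩
      have := h ![b₁, b₂, a₃, a₄, b₁, b₁] ![a₁, a₂, b₃, b₄, b₁, b₁]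
        (fun i => by fin_cases i <;> assumption) (fun i => by fin_cases i <;> assumption) (by
          simp only [Fin.sum_univ_six, Matrix.cons_val]
          linear_combination e)
      simp only [Fin.sum_univ_six, Matrix.cons_val] at this
      linear_combination this
    · exact ⟨0, fun a₁ n₁ a₂ n₂ a₃ n₃ a₄ n₄ e => (hv ⟨a₁, n₁, a₂, n₂, a₃, n₃, a₄, n₄, e⟩).elim⟩
  choose l hl using h1
  exact ⟨l, fun a₁ n₁ a₂ n₂ a₃ n₃ a₄ n₄ => hl _ a₁ n₁ a₂ n₂ a₃ n₃ a₄ n₄ rfl⟩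

/-- `bsg` for the graph of `ξ` over `S` with `D = M`, `K = exp X`; `frei` with
`K' = 16384 K ^ 4`; `bogo` for `A'`. Choose `l (a₁ + a₂ - a₃ - a₄) = ξ a₁ + ξ a₂ - ξ a₃ - ξ a₄`
(any choice; pad shorter relations with equal points on both sides). With `δ` half the
radius of `bogo`, `l` is additive on `ZB Λ δ`. `pigeon` for `h ↦ ch (l * h)` on `A'` with radius
`δ / 2` gives `S'`; take `a ∈ S'`, `c = ξ a`. -/
theorem piece : ∃ C : ℕ, ∀ X : ℝ, 2 ≤ X → ∀ (M : ℕ) [NeZero M] (S : Finset (ZMod M))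
    (ξ : ZMod M → ZMod M), exp (-X) * (M : ℝ) ^ 3 ≤ nquad S ξ →
    ∃ (Λ : Finset (ZMod M)) (δ : ℝ) (l : ZMod M → ZMod M) (a c : ZMod M) (S' : Finset (ZMod M)),
      (Λ.card : ℝ) ≤ X ^ C ∧ exp (-X ^ C) ≤ δ ∧ δ ≤ 1 ∧
      (∀ v ∈ ZB Λ δ, ∀ w ∈ ZB Λ δ, l (v + w) = l v + l w) ∧
      S' ⊆ S ∧ exp (-X ^ C) * M ≤ S'.card ∧
      ∀ h ∈ S', h - a ∈ ZB Λ (δ / 2) ∧ ξ h = c + l (h - a) := by
  obtain ⟨C, hC⟩ := bogo
  refine ⟨2 * (14 * (C + 1)) + 2, fun X hX M _ S ξ h => ?_⟩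
  have hM : (0 : ℝ) < M := Nat.cast_pos.2 (NeZero.pos M)
  have hX1 : 1 ≤ X := by linarith
  obtain ⟨A, hA, h1, hF⟩ := piece_frei hX S ξ h
  obtain ⟨l, hl⟩ := piece_lin A ξ hF
  have h2 : 2 ≤ X ^ 14 := hX.trans (le_self_pow₀ hX1 (by norm_num))
  obtain ⟨Λ, h3, h4⟩ := hC _ h2 M A h1
  obtain ⟨U, hU, u1, u2⟩ : ∃ U : ℝ, 4 * U ^ 2 ≤ X ^ (2 * (14 * (C + 1)) + 2) ∧
      (X ^ 14) ^ C ≤ U ∧ X ^ 14 ≤ U := by
    refine ⟨(X ^ 14) ^ (C + 1), ?_, pow_le_pow_right₀ (by linarith) C.le_succ,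
      le_self_pow₀ (by linarith) C.succ_ne_zero⟩
    rw [← pow_mul, ← pow_mul, pow_add, mul_comm, ← mul_assoc, mul_comm 2]
    exact mul_le_mul_of_nonneg_left (by nlinarith) (by positivity)
  have u3 : 2 ≤ U := h2.trans u2
  have e1 : exp (-U) ≤ 1 := exp_le_one_iff.2 (by linarith)
  have e2 : exp (-(U + 3)) ≤ exp (-U) / 8 := by
    rw [neg_add, exp_add, exp_neg 3, ← div_eq_mul_inv]
    refine div_le_div_of_nonneg_left (exp_pos _).le (by norm_num) ?_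
    rw [show (3 : ℝ) = (3 : ℕ) * 1 by norm_num, exp_nat_mul]
    calc (8 : ℝ) = 2 ^ 3 := by norm_num
      _ ≤ _ := pow_le_pow_left₀ (by norm_num) (by linarith [add_one_le_exp (1 : ℝ)]) 3
  have h5 : ∀ v ∈ ZB Λ (exp (-U)), ∃ a₁ ∈ A, ∃ a₂ ∈ A, ∃ a₃ ∈ A, ∃ a₄ ∈ A,
      v = a₁ + a₂ - a₃ - a₄ := fun v hv =>
    h4 v (ZB_mono Subset.rfl (exp_le_exp.2 (neg_le_neg u1)) hv)
  have e0 := exp_pos (-U)
  obtain ⟨S', hS, h6, h7⟩ := pigeon (δ := exp (-U) / 2 / 2) A Λ (fun l x => ch (l * x))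
    (by positivity) (by linarith)
  have h8 : exp (-X ^ (2 * (14 * (C + 1)) + 2)) * M ≤ S'.card := by
    refine le_trans ?_ h6
    calc _ ≤ exp (Λ.card * -(U + 3)) * exp (-X ^ 14) * M := by
          rw [← exp_add]
          gcongr
          nlinarith [mul_le_mul_of_nonneg_right (h3.trans u1) (show 0 ≤ U + 3 by linarith)]
      _ ≤ _ := by
          rw [mul_assoc, exp_nat_mul]
          gcongr
          linarith
  obtain ⟨a, ha⟩ : S'.Nonempty := by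
    rw [← card_pos, ← Nat.cast_pos (α := ℝ)]
    exact lt_of_lt_of_le (by positivity) h8
  refine ⟨Λ, exp (-U) / 2, l, a, ξ a, S', by nlinarith, ?_, by linarith, fun v hv w hw => ?_,
    hS.trans hA, h8, fun x hx => ⟨mem_ZB.2 fun t ht => ?_, ?_⟩⟩
  · have : exp (-X ^ (2 * (14 * (C + 1)) + 2)) ≤ exp (-(U + 3)) := exp_le_exp.2 (by nlinarith)
    linarith
  · have hvw := ZB_add hv hw
    rw [add_halves] at hvw
    obtain ⟨a₁, m₁, a₂, m₂, a₃, m₃, a₄, m₄, rfl⟩ := h5 v (ZB_mono Subset.rfl (by linarith) hv)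
    obtain ⟨b₁, n₁, b₂, n₂, b₃, n₃, b₄, n₄, rfl⟩ := h5 w (ZB_mono Subset.rfl (by linarith) hw)
    obtain ⟨c₁, k₁, c₂, k₂, c₃, k₃, c₄, k₄, e⟩ := h5 _ hvw
    have := hF ![a₁, a₂, b₁, b₂, c₃, c₄] ![a₃, a₄, b₃, b₄, c₁, c₂]
      (fun i => by fin_cases i <;> assumption) (fun i => by fin_cases i <;> assumption) (by
        simp only [Fin.sum_univ_six, Matrix.cons_val]
        linear_combination e)
    simp only [Fin.sum_univ_six, Matrix.cons_val] at this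
    rw [e, hl _ m₁ _ m₂ _ m₃ _ m₄, hl _ n₁ _ n₂ _ n₃ _ n₄, hl _ k₁ _ k₂ _ k₃ _ k₄]
    linear_combination -this
  · rw [mul_sub, ch_sub]
    exact h7 x hx a ha t ht
  · have := hl x (hS hx) a (hS ha) a (hS ha) a (hS ha)
    rw [add_sub_cancel_right] at this
    linear_combination -this

end Pool.Agent.TR
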