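import Pool.Agent.Lib.MP_cc859a_an.TR.Four

open Finset Real
open scoped BigOperators ComplexConjugate

namespace Pool.Agent.TR

variable {M : ℕ} [NeZero M]

theorem quad_ac (f : ZMod M → ℂ) (χ : ZMod M) :
    ((‖ft f χ‖ ^ 2 : ℝ) : ℂ) = ft (fun v => 𝔼 z, f (v + z) * conj (f z)) χ := by
  rw [ft, norm_expect_sq, expect_comm, ft]
  simp only [expect_mul]
  rw [expect_comm (f := fun v z => f (v + z) * conj (f z) * e (-ch (χ * v)))]
  refine expect_congr rfl fun z _ => Fintype.expect_equiv (Equiv.subRight z) _ _ fun v => ?_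
  rw [Equiv.subRight_apply, sub_add_cancel, mul_sub, ch_sub, neg_sub, sub_eq_add_neg, e_add,
    map_mul, ← e_neg (-ch (χ * z)), neg_neg]
  ring

theorem quad_T (a F : ZMod M → ℂ) (ha : ∀ x, ‖a x‖ ≤ 1) :
    ‖𝔼 h, F h * 𝔼 z, a (h + z) * conj (a z)‖ ^ 4 ≤ ∑ χ, ‖ft F χ‖ ^ 4 := by
  obtain ⟨χ₀, h0⟩ := Finite.exists_max fun χ => ‖ft F χ‖
  have e1 : 𝔼 h, F h * 𝔼 z, a (h + z) * conj (a z) =
      ∑ χ, ft a χ * conj (ft a χ) * ft F (-χ) := by
    simp only [ft_corr, mul_sum]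
    rw [expect_sum_comm]
    refine sum_congr rfl fun χ _ => ?_
    rw [ft.eq_1 F, mul_expect]
    refine expect_congr rfl fun h _ => ?_
    rw [neg_mul, ch_neg, neg_neg]
    ring
  have e2 : ∑ χ, ‖ft a χ‖ ^ 2 ≤ 1 := by
    rw [← parseval]
    exact expect_le univ_nonempty fun x _ => pow_le_one₀ (norm_nonneg _) (ha x)
  have e3 : ‖𝔼 h, F h * 𝔼 z, a (h + z) * conj (a z)‖ ≤ ‖ft F χ₀‖ := by
    rw [e1]
    refine (norm_sum_le _ _).trans (le_trans ?_ (mul_le_of_le_one_left (norm_nonneg _) e2))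
    rw [sum_mul]
    refine sum_le_sum fun χ _ => ?_
    rw [norm_mul, norm_mul, RCLike.norm_conj, ← sq]
    exact mul_le_mul_of_nonneg_left (h0 _) (sq_nonneg _)
  exact (pow_le_pow_left₀ (norm_nonneg _) e3 4).trans
    (single_le_sum (f := fun χ => ‖ft F χ‖ ^ 4) (fun _ _ => by positivity) (mem_univ χ₀))

theorem quad_four (F : ZMod M → ℂ) : ((∑ χ, ‖ft F χ‖ ^ 4 : ℝ) : ℂ) =
    𝔼 k, 𝔼 z, 𝔼 w, F (k + z) * conj (F z) * conj (F (k + w) * conj (F w)) := by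
  have e1 : ∑ χ, ‖ft F χ‖ ^ 4 = 𝔼 k, ‖𝔼 z, F (k + z) * conj (F z)‖ ^ 2 := by
    rw [parseval]
    refine sum_congr rfl fun χ _ => ?_
    rw [← quad_ac, Complex.norm_real, Real.norm_of_nonneg (sq_nonneg _), ← pow_mul]
  rw [e1, Complex.ofReal_expect]
  exact expect_congr rfl fun k _ => norm_expect_sq _ _

/-- The functions to which `quad_T` is applied. -/
noncomputable def quad_F (S : Finset (ZMod M)) (ξ : ZMod M → ZMod M) (v h : ZMod M) : ℂ :=
  if h ∈ S then e (-ch (ξ h * v)) else 0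

theorem quad_count (S : Finset (ZMod M)) (ξ : ZMod M → ZMod M) :
    (𝔼 v, ∑ χ, ‖ft (quad_F S ξ v) χ‖ ^ 4) * (M : ℝ) ^ 3 ≤ nquad S ξ := by
  let P : ZMod M × ZMod M × ZMod M → Prop := fun t => (t.1 + t.2.1 ∈ S ∧ t.2.1 ∈ S) ∧
    (t.1 + t.2.2 ∈ S ∧ t.2.2 ∈ S) ∧ ξ (t.1 + t.2.1) - ξ t.2.1 = ξ (t.1 + t.2.2) - ξ t.2.2
  have e1 : ∀ k z w, 𝔼 v, quad_F S ξ v (k + z) * conj (quad_F S ξ v z) *
      conj (quad_F S ξ v (k + w) * conj (quad_F S ξ v w)) = if P (k, z, w) then 1 else 0 := by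
    intro k z w
    by_cases h : (k + z ∈ S ∧ z ∈ S) ∧ (k + w ∈ S ∧ w ∈ S)
    · have e2 : P (k, z, w) ↔ ξ (k + w) - ξ w - (ξ (k + z) - ξ z) = 0 := by
        simp only [P, h, true_and, sub_eq_zero]
        exact eq_comm
      rw [if_congr e2 rfl rfl, ← orth]
      refine expect_congr rfl fun v _ => ?_
      simp only [quad_F, h, if_true, ← e_neg, neg_neg, ← e_add, sub_mul, ch_sub]
      congr 1
      abel
    · rw [if_neg fun h' => h ⟨h'.1, h'.2.1⟩]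
      refine expect_eq_zero fun v _ => ?_
      simp only [not_and_or] at h
      rcases h with (h | h) | h | h <;> simp [quad_F, h]
  have hM : (M : ℂ) ≠ 0 := Nat.cast_ne_zero.2 (NeZero.ne M)
  have e3 : (𝔼 v, ∑ χ, ‖ft (quad_F S ξ v) χ‖ ^ 4) * (M : ℝ) ^ 3 = (univ.filter P).card := by
    apply Complex.ofReal_injective
    rw [Complex.ofReal_mul, Complex.ofReal_expect]
    simp only [quad_four]
    rw [expect_comm]
    simp only [expect_comm (s := univ) (t := univ) (f := fun v z : ZMod M => 𝔼 w : ZMod M,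
      quad_F S ξ v (_ + z) * conj (quad_F S ξ v z) *
        conj (quad_F S ξ v (_ + w) * conj (quad_F S ξ v w)))]
    simp only [expect_comm (s := univ) (t := univ) (f := fun v w : ZMod M =>
      quad_F S ξ v (_ + _) * conj (quad_F S ξ v _) *
        conj (quad_F S ξ v (_ + w) * conj (quad_F S ξ v w))), e1]
    simp only [Fintype.expect_eq_sum_div_card, ZMod.card, ← sum_div, card_filter,
      Fintype.sum_prod_type, Nat.cast_sum, Nat.cast_ite, Nat.cast_one, Nat.cast_zero,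
      Complex.ofReal_sum, apply_ite Complex.ofReal]
    push_cast
    field_simp
  rw [e3, Nat.cast_le]
  refine card_le_card_of_injOn (fun t => ((t.1 + t.2.1, t.2.1), (t.1 + t.2.2, t.2.2)))
    (fun t ht => ?_) fun t _ t' _ h => ?_
  · have h := (mem_filter.1 ht).2
    exact mem_filter.2 ⟨mem_product.2 ⟨mem_product.2 h.1, mem_product.2 h.2.1⟩, by simp, h.2.2⟩
  · simp only [Prod.mk.injEq] at h
    exact Prod.ext (add_right_cancel (h.1.2 ▸ h.1.1)) (Prod.ext h.1.2 h.2.2)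

/-- Gowers' lemma. `η ≤ 𝔼 h u v, 1_S h g (u+h) conj g u conj g (u+v+h) g (u+v) e (ξ h v)`. For
fixed `v` this is `𝔼 h, F h 𝔼 u, a (h+u) conj (a u)` with `F h = 1_S h e (ξ h v)`, `|a| ≤ 1`, hence
at most `max |ft F| ≤ (∑ |ft F| ^ 4) ^ (1/4)` (`ft_corr`, `parseval`). The mean over `v` of
`∑ |ft F| ^ 4` is `nquad / M ^ 3`. -/
theorem quads (g : ZMod M → ℂ) (hg : ∀ x, ‖g x‖ ≤ 1) (S : Finset (ZMod M))
    (ξ : ZMod M → ZMod M) {η : ℝ} (hη : 0 ≤ η)
    (h : η * M ≤ ∑ h ∈ S, ‖ft (dd h g) (ξ h)‖ ^ 2) : η ^ 4 * (M : ℝ) ^ 3 ≤ nquad S ξ := by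
  have hM : (0 : ℝ) < M := Nat.cast_pos.2 (NeZero.pos M)
  let A : ZMod M → ℂ := fun v => 𝔼 h, quad_F S ξ v h * 𝔼 z, dd v g (h + z) * conj (dd v g z)
  have e1 : (((∑ h ∈ S, ‖ft (dd h g) (ξ h)‖ ^ 2) / M : ℝ) : ℂ) = 𝔼 v, A v := by
    rw [expect_comm, Fintype.expect_eq_sum_div_card, ZMod.card, Complex.ofReal_div,
      Complex.ofReal_natCast, Complex.ofReal_sum, ← sum_subset (subset_univ S) fun h _ hh => by
        simp [quad_F, hh]]
    refine congrArg (· / (M : ℂ)) (sum_congr rfl fun h hh => ?_)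
    rw [quad_ac, ft]
    refine expect_congr rfl fun v _ => ?_
    rw [quad_F, if_pos hh, mul_comm]
    refine congrArg _ (expect_congr rfl fun z _ => ?_)
    simp only [dd, map_mul, Complex.conj_conj]
    rw [show v + z + h = h + z + v by ring, add_comm v z, add_comm z h]
    ring
  have e2 : η ≤ 𝔼 v, ‖A v‖ := by
    refine le_trans ?_ (norm_expect_le_expect _ _)
    rw [← e1, Complex.norm_real]
    exact ((le_div_iff₀ hM).2 h).trans (le_abs_self _)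
  have e3 : η ^ 4 ≤ 𝔼 v, ∑ χ, ‖ft (quad_F S ξ v) χ‖ ^ 4 :=
    calc η ^ 4 = (η ^ 2) ^ 2 := by ring
      _ ≤ (𝔼 v, ‖A v‖ ^ 2) ^ 2 := pow_le_pow_left₀ (sq_nonneg _)
          ((pow_le_pow_left₀ hη e2 2).trans (expect_sq_le _ _)) 2
      _ ≤ 𝔼 v, (‖A v‖ ^ 2) ^ 2 := expect_sq_le _ _
      _ ≤ _ := expect_le_expect fun v _ => by
          rw [← pow_mul]
          refine quad_T _ _ fun x => ?_
          rw [dd, norm_mul, RCLike.norm_conj]
          exact mul_le_one₀ (hg _) (norm_nonneg _) (hg _)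
  exact (mul_le_mul_of_nonneg_right e3 (by positivity)).trans (quad_count S ξ)

end Pool.Agent.TR
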