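import Pool.Agent.Lib.MP_cc859a_an.TR.LBas
import Pool.Agent.Lib.MP_cc859a_an.TR.LAbs
import Pool.Agent.Lib.MP_cc859a_an.TR.Piece
import Pool.Agent.Lib.MP_cc859a_an.TR.Quad
import Pool.Agent.Lib.MP_cc859a_an.TR.Num

open Finset Real
open scoped BigOperators ComplexConjugate

namespace Pool.Agent.TR

theorem lcover_card {A : Type*} [AddCommGroup A] {F : Finset A} {X : ℝ} (h : (F.card : ℝ) ≤ X) :
    ((Sp F 1).card : ℝ) ≤ exp (2 * X) := by
  have h1 : ((Sp F 1).card : ℝ) ≤ 3 ^ F.card := by exact_mod_cast card_Sp_le (F := F) (k := 1)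
  have h2 : (3 : ℝ) ^ F.card ≤ exp 2 ^ F.card :=
    pow_le_pow_left₀ (by norm_num) (by linarith [add_one_le_exp (2 : ℝ)]) _
  rw [← exp_nat_mul] at h2
  exact h1.trans (h2.trans (exp_le_exp.2 (by linarith)))

theorem lcover_mass {β : Type*} {s : Finset β} {f : β → ℝ} {κ θ : ℝ} (h : κ ≤ ∑ x ∈ s, f x)
    (h0 : 0 ≤ θ) (hc : s.card * θ ≤ κ / 2) : κ / 2 ≤ ∑ x ∈ s.filter fun x => θ ≤ f x, f x := by
  have h1 := sum_filter_add_sum_filter_not s (fun x => θ ≤ f x) f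
  have h2 : ∑ x ∈ s.filter fun x => ¬ θ ≤ f x, f x ≤ (s.filter fun x => ¬ θ ≤ f x).card • θ :=
    sum_le_card_nsmul _ _ _ fun x hx => (not_le.1 (mem_filter.1 hx).2).le
  have h3 : ((s.filter fun x => ¬ θ ≤ f x).card : ℝ) ≤ s.card := by
    exact_mod_cast card_filter_le _ _
  rw [nsmul_eq_mul] at h2
  nlinarith [mul_le_mul_of_nonneg_right h3 h0]

/-- Paper D2. `θ = κ exp (-2 X) / 2 ≥ exp (-4 X)`, `W h = {ξ ∈ Sp (Λ h) 1 | θ ≤ muh g h ξ}`;
`card_Sp_le` gives `|Sp (Λ h) 1| ≤ 3 ^ |Λ h| ≤ exp (2 X)`, so `W h` has mass `≥ κ / 2`. `greedy` with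
`m = exp (-(24 X) ^ C₀) M`: for `S'` with at least half of `S`, `quads` with `η = exp (-6 X)` and
`piece` at `24 X` give the piece. `∑ |W h| ≤ M exp (2 X)`. -/
theorem cover : ∃ C : ℕ, 1 ≤ C ∧ ∀ X κ : ℝ, 2 ≤ X → 1 / X ≤ κ → ∀ (M : ℕ) [NeZero M]
    (g : ZMod M → ℂ), (∀ x, ‖g x‖ ≤ 1) → H1 g κ X → Cov g κ (X ^ C) := by
  obtain ⟨C₀, hC⟩ := piece
  refine ⟨6 * C₀ + 3, by omega, fun X κ hX hκ M _ g hg ⟨S, hS, hΛ⟩ => ?_⟩
  choose! Λ hΛ1 hΛ2 using hΛ
  have hM : (0 : ℝ) < M := Nat.cast_pos.2 (NeZero.pos M)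
  have hX0 : 0 < X := by linarith
  have hκ0 : 0 < κ := lt_of_lt_of_le (by positivity) hκ
  have hY : (24 * X) ^ C₀ ≤ X ^ (6 * C₀) := by
    rw [pow_mul]
    refine pow_le_pow_left₀ (by positivity) ?_ _
    have := num_two_pow hX 5
    rw [pow_succ]
    exact mul_le_mul_of_nonneg_right (by linarith) hX0.le
  have h2X : 2 * X ≤ X ^ 2 := by nlinarith
  have h4X : 4 * X ≤ X ^ (6 * C₀ + 3) := by
    have : X ^ 3 ≤ X ^ (6 * C₀ + 3) := num_mono hX (by omega)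
    nlinarith
  have hsum : 2 * X + (24 * X) ^ C₀ ≤ X ^ (6 * C₀ + 3) :=
    num_add hX (h2X.trans (num_mono hX (by omega))) (hY.trans (num_mono hX (by omega)))
  have hYC : (24 * X) ^ C₀ ≤ X ^ (6 * C₀ + 3) := by linarith
  have hhalf : exp (-X) ≤ 1 / 2 := by
    rw [exp_neg, one_div]
    exact inv_anti₀ two_pos (by linarith [add_one_le_exp X])
  have hκX : exp (-X) ≤ κ := by
    refine le_trans ?_ hκ
    rw [exp_neg, one_div]
    exact inv_anti₀ hX0 (by linarith [add_one_le_exp X])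
  have hθ : exp (-(4 * X)) ≤ κ * exp (-(2 * X)) / 2 := by
    rw [show -(4 * X) = -X + -(2 * X) + -X by ring, exp_add, exp_add, div_eq_mul_one_div]
    gcongr
  have hS2 : ∀ S' : Finset (ZMod M), S.card ≤ 2 * S'.card → exp (-(2 * X)) * M ≤ S'.card := by
    intro S' h
    have h1 : (S.card : ℝ) ≤ 2 * S'.card := by exact_mod_cast h
    rw [show -(2 * X) = -X + -X by ring, exp_add, mul_assoc]
    calc exp (-X) * (exp (-X) * M) ≤ 1 / 2 * S.card := by gcongr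
      _ ≤ S'.card := by linarith
  obtain ⟨P, S₀, hP, hok, hsub, hcard, hcov⟩ := greedy S
    (fun h => (Sp (Λ h) 1).filter fun ξ => κ * exp (-(2 * X)) / 2 ≤ muh g h ξ)
    (Pz.dom (M := M)) Pz.val (fun p => p.OK (X ^ (6 * C₀ + 3)))
    (m := exp (-(24 * X) ^ C₀) * M) (by positivity) fun S' _ hc _ ξ hξ => by
      have h1 : exp (-(6 * X)) * M ≤ ∑ h ∈ S', ‖ft (dd h g) (ξ h)‖ ^ 2 := by
        have h2 := card_nsmul_le_sum S' (fun h => ‖ft (dd h g) (ξ h)‖ ^ 2) (exp (-(4 * X)))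
          fun h hh => hθ.trans (mem_filter.1 (hξ h hh)).2
        rw [nsmul_eq_mul] at h2
        refine le_trans ?_ h2
        rw [show -(6 * X) = -(2 * X) + -(4 * X) by ring, exp_add, mul_right_comm]
        exact mul_le_mul_of_nonneg_right (hS2 S' hc) (exp_pos _).le
      have h2 := quads g hg S' ξ (exp_pos _).le h1
      rw [← exp_nat_mul, show ((4 : ℕ) : ℝ) * -(6 * X) = -(24 * X) by push_cast; ring] at h2
      obtain ⟨L, δ, l, a, c, S'', a1, a2, -, a4, a5, a6, a7⟩ := hC (24 * X) (by linarith) M S' ξ h2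
      exact ⟨⟨L, δ, l, a, c⟩, ⟨a1.trans hYC, (exp_le_exp.2 (neg_le_neg hYC)).trans a2, a4⟩, S'',
        a5, a6, fun x hx => ⟨(a7 x hx).1, (a7 x hx).2.symm⟩⟩
  refine ⟨P, S₀, ?_, hok, ?_, fun h hh => ⟨Λ h, _, ?_, filter_subset _ _,
    lcover_mass (θ := κ * exp (-(2 * X)) / 2) (hΛ2 h (hsub hh)) (by positivity) ?_, fun ξ hξ =>
      ⟨(exp_le_exp.2 (neg_le_neg h4X)).trans (hθ.trans (mem_filter.1 hξ).2), hcov h hh ξ hξ⟩⟩⟩
  · have h1 := sum_le_card_nsmul S (fun h => ((((Sp (Λ h) 1).filter fun ξ =>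
        κ * exp (-(2 * X)) / 2 ≤ muh g h ξ).card : ℕ) : ℝ)) (exp (2 * X)) fun h hh =>
      le_trans (by exact_mod_cast card_filter_le _ _) (lcover_card (hΛ1 h hh))
    have h2 : (S.card : ℝ) ≤ M := by exact_mod_cast (card_le_univ S).trans_eq (ZMod.card M)
    rw [nsmul_eq_mul] at h1
    have h3 : exp (-(24 * X) ^ C₀) * M * P.card ≤ M * exp (2 * X) :=
      hP.trans (h1.trans (mul_le_mul_of_nonneg_right h2 (exp_pos _).le))
    have h4 : exp (-(24 * X) ^ C₀) * P.card ≤ exp (2 * X) :=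
      le_of_mul_le_mul_left (by linarith) hM
    rw [exp_neg, inv_mul_le_iff₀ (exp_pos _), ← exp_add] at h4
    exact h4.trans (exp_le_exp.2 (by linarith))
  · exact le_trans (mul_le_mul_of_nonneg_right (exp_le_exp.2 (by linarith)) hM.le) (hS2 S₀ hcard)
  · exact (hΛ1 h (hsub hh)).trans (by linarith)
  · have h1 := lcover_card (hΛ1 h (hsub hh))
    calc _ ≤ exp (2 * X) * (κ * exp (-(2 * X)) / 2) := by gcongr
      _ = κ / 2 := by
        rw [exp_neg]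
        field_simp

end Pool.Agent.TR
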