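import Pool.Agent.Lib.MP_cc859a_an.TR.LBas

open Finset Real
open scoped BigOperators ComplexConjugate

namespace Pool.Agent.TR

variable {M : ℕ} [NeZero M]

theorem lcs_aff {β : Type*} [AddCommMonoid β] [Module ℚ≥0 β] (f : ZMod M → β) (c : ZMod M)
    {u : ZMod M} (hu : IsUnit u) : 𝔼 n, f (c + u * n) = 𝔼 z, f z := by
  obtain ⟨v, rfl⟩ := hu
  exact Fintype.expect_equiv ((Units.mulLeft v).trans (Equiv.addLeft c)) _ _ fun n => rfl

theorem lcs_shift (f : ZMod M → ℂ) (c : ZMod M) : 𝔼 x, f (x + c) = 𝔼 z, f z :=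
  Fintype.expect_equiv (Equiv.addRight c) _ _ fun _ => rfl

/-- The weight of the phases. -/
theorem lcs_phase (F : ZMod M → ℂ) (E : Finset (ZMod M)) {ε : ℝ} (h : ∀ x ∈ E, ε ≤ ‖F x‖) :
    ∃ φ : ZMod M → ℂ, (∀ x, ‖φ x‖ ≤ 1) ∧ (∀ x ∉ E, φ x = 0) ∧
      ε * (E.card / M) ≤ ‖𝔼 x, φ x * F x‖ := by
  choose ω hω1 hω using fun x => exists_phase (F x)
  refine ⟨fun x => if x ∈ E then conj (ω x) else 0, fun x => ?_, fun x hx => if_neg hx, ?_⟩
  · by_cases hx : x ∈ E
    · simp [hx, hω1 x]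
    · simp [hx]
  · have h1 : (𝔼 x, (if x ∈ E then conj (ω x) else 0) * F x) =
        ((𝔼 x, (if x ∈ E then ‖F x‖ else 0) : ℝ) : ℂ) := by
      rw [Complex.ofReal_expect]
      refine expect_congr rfl fun x _ => ?_
      by_cases hx : x ∈ E
      · rw [if_pos hx, if_pos hx, mul_comm, hω x]
      · simp [hx]
    have h2 : ε * (E.card / M) = 𝔼 x, (if x ∈ E then ε else 0) := by
      rw [Fintype.expect_eq_sum_div_card, ZMod.card, ← sum_filter, filter_mem_eq_inter, univ_inter,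
        sum_const, nsmul_eq_mul]
      ring
    rw [h1, Complex.norm_real, h2]
    refine le_trans (expect_le_expect fun x _ => ?_) (le_abs_self _)
    by_cases hx : x ∈ E
    · rw [if_pos hx, if_pos hx]
      exact h x hx
    · rw [if_neg hx, if_neg hx]

/-- Cauchy-Schwarz removes the bounded factor. -/
theorem lcs_cs (A : ZMod M → ℂ) (hA : ∀ x, ‖A x‖ ≤ 1) (W : ZMod M → ZMod M → ℂ) :
    ‖𝔼 y, A y * 𝔼 n, W y n‖ ^ 2 ≤ 𝔼 k, ‖𝔼 y, 𝔼 n, W y (n + k) * conj (W y n)‖ := by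
  have h1 : 𝔼 y, ‖A y‖ ^ 2 ≤ (1 : ℝ) :=
    expect_le univ_nonempty fun y _ => pow_le_one₀ (norm_nonneg _) (hA y)
  have h2 : (0 : ℝ) ≤ 𝔼 y, ‖𝔼 n, W y n‖ ^ 2 := expect_nonneg fun y _ => sq_nonneg _
  have h3 : ((𝔼 y, ‖𝔼 n, W y n‖ ^ 2 : ℝ) : ℂ) = 𝔼 k, 𝔼 y, 𝔼 n, W y (n + k) * conj (W y n) := by
    rw [Complex.ofReal_expect, expect_comm]
    refine expect_congr rfl fun y _ => ?_
    rw [norm_expect_sq, expect_comm, expect_comm univ univ fun k n => W y (n + k) * conj (W y n)]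
    refine expect_congr rfl fun n _ => ?_
    rw [← lcs_shift (fun v => W y v * conj (W y n)) n]
    exact expect_congr rfl fun k _ => by rw [add_comm]
  refine (expect_cs univ _ _).trans ((mul_le_of_le_one_left h2 h1).trans ?_)
  refine le_trans ?_ (norm_expect_le_expect univ _)
  rw [← h3, Complex.norm_real]
  exact le_abs_self _

/-- Paper D1, Cauchy-Schwarz. `φ` is the conjugate phase on `E` and `0` off `E`, so
`ε σ ≤ |𝔼 x n, φ x A (x + a n) g (x + s n) R (x + r n)|`, `σ = |E| / M`. Put `x = y - a n`,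
Cauchy-Schwarz in `y` removes `A`; write the second copy of `n` as `n + k`; the map
`(y, n) ↦ (x, z) = (y - a n, y + (s - a) n)` is a bijection (`s` is a unit) and the third point is
`y + (r - a) n = (r / s) (z + th x)` with `th = (s - r) / r`. Finally `h = (s - a) k`,
`lam = -a / (s - a)`, `b h w = dd ((r - a) k) R ((r / s) w)`. -/
theorem cs_gen {a s r : ZMod M} (ha : IsUnit a) (hs : IsUnit s) (hr : IsUnit r)
    (hsa : IsUnit (s - a)) (hsr : IsUnit (s - r)) (A g R : ZMod M → ℂ) (hA : ∀ x, ‖A x‖ ≤ 1)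
    (hR : ∀ x, ‖R x‖ ≤ 1) (E : Finset (ZMod M)) {ε : ℝ} (hε : 0 ≤ ε)
    (h : ∀ x ∈ E, ε ≤ ‖𝔼 n, A (x + a * n) * g (x + s * n) * R (x + r * n)‖) :
    ∃ (φ : ZMod M → ℂ) (lam th : ZMod M) (b : ZMod M → ZMod M → ℂ), (∀ x, ‖φ x‖ ≤ 1) ∧
      (∀ x ∉ E, φ x = 0) ∧ IsUnit lam ∧ IsUnit th ∧ (∀ h w, ‖b h w‖ ≤ 1) ∧
      (ε * (E.card / M)) ^ 2 ≤
        𝔼 h, ‖𝔼 x, 𝔼 z, dd (lam * h) φ x * dd h g z * b h (z + th * x)‖ := by
  obtain ⟨φ, hφ1, hφ0, hφ⟩ :=
    lcs_phase (fun x => 𝔼 n, A (x + a * n) * g (x + s * n) * R (x + r * n)) E h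
  obtain ⟨u, hu⟩ := hsa.exists_right_inv
  obtain ⟨si, hsi⟩ := hs.exists_right_inv
  obtain ⟨ri, hri⟩ := hr.exists_right_inv
  have huu : IsUnit u := IsUnit.of_mul_eq_one_right _ hu
  have hriu : IsUnit ri := IsUnit.of_mul_eq_one_right _ hri
  refine ⟨φ, -a * u, (s - r) * ri, fun h w => dd ((r - a) * (u * h)) R (r * si * w), hφ1, hφ0,
    ha.neg.mul huu, hsr.mul hriu, fun h w => norm_dd_le hR _ _, ?_⟩
  have h0 : 0 ≤ ε * (E.card / M) := by positivity
  have h1 : (𝔼 x, φ x * 𝔼 n, A (x + a * n) * g (x + s * n) * R (x + r * n)) =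
      𝔼 y, A y * 𝔼 n, φ (y - a * n) * g (y + (s - a) * n) * R (y + (r - a) * n) := by
    simp only [mul_expect]
    rw [expect_comm, expect_comm univ univ fun y n =>
      A y * (φ (y - a * n) * g (y + (s - a) * n) * R (y + (r - a) * n))]
    refine expect_congr rfl fun n _ => ?_
    rw [← lcs_shift (fun y => A y * (φ (y - a * n) * g (y + (s - a) * n) * R (y + (r - a) * n)))
      (a * n)]
    refine expect_congr rfl fun x _ => ?_
    rw [show x + a * n - a * n = x by ring, show x + a * n + (s - a) * n = x + s * n by ring,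
      show x + a * n + (r - a) * n = x + r * n by ring]
    ring
  have h2 := lcs_cs A hA fun y n => φ (y - a * n) * g (y + (s - a) * n) * R (y + (r - a) * n)
  rw [← h1] at h2
  refine ((pow_le_pow_left₀ h0 hφ 2).trans h2).trans (le_of_eq ?_)
  rw [← lcs_aff _ 0 huu]
  refine expect_congr rfl fun k _ => ?_
  congr 1
  have h3 : ∀ x : ZMod M, (𝔼 z, dd (-a * u * k) φ x * dd k g z *
      dd ((r - a) * (u * k)) R (r * si * (z + (s - r) * ri * x))) =
      𝔼 n, dd (-a * u * k) φ x * dd k g (x + s * n) * dd ((r - a) * (u * k)) R (x + r * n) := by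
    intro x
    rw [← lcs_aff _ x hs]
    refine expect_congr rfl fun n _ => ?_
    rw [show r * si * (x + s * n + (s - r) * ri * x) = x + r * n by
      linear_combination (r * n + x) * hsi + si * (s - r) * x * hri]
  simp only [h3]
  rw [expect_comm, expect_comm univ univ fun x n =>
    dd (-a * u * k) φ x * dd k g (x + s * n) * dd ((r - a) * (u * k)) R (x + r * n)]
  refine expect_congr rfl fun n _ => ?_
  rw [← lcs_shift _ (a * n)]
  refine expect_congr rfl fun x _ => ?_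
  simp only [dd, map_mul]
  rw [show x + a * n - a * (n + (0 + u * k)) = x + -a * u * k by ring,
    show x + a * n + (s - a) * (n + (0 + u * k)) = x + s * n + k by linear_combination k * hu,
    show x + a * n + (r - a) * (n + (0 + u * k)) = x + r * n + (r - a) * (u * k) by ring,
    show x + a * n - a * n = x by ring, show x + a * n + (s - a) * n = x + s * n by ring,
    show x + a * n + (r - a) * n = x + r * n by ring]
  ring

/-- The three slots: `(a, s, r) = (2, 1, 3), (1, 2, 3), (1, 3, 2)`. -/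
theorem cs_slot (h2 : IsUnit (2 : ZMod M)) (h3 : IsUnit (3 : ZMod M)) (U : Fin 3 → ZMod M → ℂ)
    (hU : ∀ σ y, ‖U σ y‖ ≤ 1) (s : Fin 3) (E : Finset (ZMod M)) {ε : ℝ} (hε : 0 ≤ ε)
    (h : ∀ x ∈ E, ε ≤ ‖𝔼 n, U 0 (x + n) * U 1 (x + 2 * n) * U 2 (x + 3 * n)‖) :
    ∃ (φ : ZMod M → ℂ) (lam th : ZMod M) (b : ZMod M → ZMod M → ℂ), (∀ x, ‖φ x‖ ≤ 1) ∧
      (∀ x ∉ E, φ x = 0) ∧ IsUnit lam ∧ IsUnit th ∧ (∀ h w, ‖b h w‖ ≤ 1) ∧
      (ε * (E.card / M)) ^ 2 ≤
        𝔼 h, ‖𝔼 x, 𝔼 z, dd (lam * h) φ x * dd h (U s) z * b h (z + th * x)‖ := by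
  have h1 : IsUnit (1 : ZMod M) := isUnit_one
  fin_cases s
  · refine cs_gen (a := 2) (s := 1) (r := 3) h2 h1 h3 ?_ ?_ (U 1) (U 0) (U 2) (hU 1) (hU 2) E hε
      fun x hx => ?_
    · rw [show (1 : ZMod M) - 2 = -1 by ring]
      exact h1.neg
    · rw [show (1 : ZMod M) - 3 = -2 by ring]
      exact h2.neg
    · refine (h x hx).trans (le_of_eq ?_)
      congr 1
      exact expect_congr rfl fun n _ => by rw [one_mul]; ring
  · refine cs_gen (a := 1) (s := 2) (r := 3) h1 h2 h3 ?_ ?_ (U 0) (U 1) (U 2) (hU 0) (hU 2) E hε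
      fun x hx => ?_
    · rw [show (2 : ZMod M) - 1 = 1 by ring]
      exact h1
    · rw [show (2 : ZMod M) - 3 = -1 by ring]
      exact h1.neg
    · refine (h x hx).trans (le_of_eq ?_)
      congr 1
      exact expect_congr rfl fun n _ => by rw [one_mul]
  · refine cs_gen (a := 1) (s := 3) (r := 2) h1 h3 h2 ?_ ?_ (U 0) (U 2) (U 1) (hU 0) (hU 1) E hε
      fun x hx => ?_
    · rw [show (3 : ZMod M) - 1 = 2 by ring]
      exact h2
    · rw [show (3 : ZMod M) - 2 = 1 by ring]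
      exact h1
    · refine (h x hx).trans (le_of_eq ?_)
      congr 1
      exact expect_congr rfl fun n _ => by rw [one_mul]; ring

end Pool.Agent.TR
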