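import Pool.Agent.Lib.MP_cc859a_an.TR.LBas

open Finset Real
open scoped BigOperators ComplexConjugate

namespace Pool.Agent.TR

variable {M : ℕ} [NeZero M]

/-- `local_parseval` for each `l`; for `ξ ∈ W` and its `l`, `‖mu V (ch ξ - θ l) - 1‖ ≤ 7 / 100`. -/
theorem end_pars {ι : Type*} (f : ZMod M → ℂ) (W : Finset (ZMod M)) (L : Finset ι) (θ : ι → T)
    {V : Finset ℤ} (hV : V.Nonempty)
    (h : ∀ ξ ∈ W, ∃ l ∈ L, ∀ w ∈ V, ‖w • (ch ξ - θ l)‖ ≤ 1 / 100) :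
    (∑ ξ ∈ W, ‖ft f ξ‖ ^ 2) / 2 ≤ ∑ l ∈ L, 𝔼 y : ZMod M,
      ‖𝔼 v ∈ V, f (y + ((v : ℤ) : ZMod M)) * e (-(v • θ l))‖ ^ 2 := by
  simp only [local_parseval]
  rw [sum_comm, sum_div]
  refine le_trans (sum_le_sum fun ξ hξ => ?_) (sum_le_sum_of_subset_of_nonneg (subset_univ W)
    fun ξ _ _ => sum_nonneg fun l _ => by positivity)
  obtain ⟨l, hl, h⟩ := h ξ hξ
  refine le_trans ?_ (single_le_sum (f := fun l => ‖ft f ξ‖ ^ 2 * ‖mu V (ch ξ - θ l)‖ ^ 2)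
    (fun l _ => by positivity) hl)
  have h1 := norm_mu_sub_one hV h
  have h2 := norm_sub_norm_le (1 : ℂ) (mu V (ch ξ - θ l))
  rw [norm_one, norm_sub_rev] at h2
  have h3 : 1 / 2 ≤ ‖mu V (ch ξ - θ l)‖ ^ 2 := by nlinarith
  rw [div_eq_mul_one_div]
  exact mul_le_mul_of_nonneg_left h3 (by positivity)

/-- Evaluation of a form, as an additive map. -/
def lend_ev (w x : ℤ) : (ℤ → T) →+ T where
  toFun l := w • (2 : ℤ) • l x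
  map_zero' := by simp
  map_add' a b := by simp only [Pi.add_apply, smul_add]

/-- Multiplication by an integer, as an additive map. -/
def lend_sm (w : ℤ) : T →+ T where
  toFun c := w • c
  map_zero' := by simp
  map_add' a b := smul_add w a b

/-- Paper D6, last step. For `ξ ∈ W`: `ch ξ = c + 2 • l (v₀ + h') = c + 2 • l v₀ + 2 • l h'`
(`Q.add` passes to `Sp`), `l - l' ∈ Sp D 1` with `l' ∈ L`, and each of `w • c`, `w • 2 • l v₀`,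
`w • 2 • (l - l') h'` is at most `1 / 300` by `Sp_norm_le`. Then `end_pars`. -/
theorem end_mass {Q : Qd M} {g : ZMod M → ℂ} {κ X R ε r₁ r₂ : ℝ} (hQ : Q.OK g κ X R ε)
    {D L : Finset (ℤ → T)} {V : Finset ℤ} (hV : V.Nonempty) {v₀ h' : ℤ} (hv₀ : v₀ ∈ Q.Ω)
    (hh : h' ∈ BM M Q.Θ Q.δ) (hS : v₀ + h' ∈ Q.S)
    (hL : ∀ l ∈ Sp Q.F Q.t, ∃ l' ∈ L, l - l' ∈ Sp D 1)
    (hD : ∀ m ∈ D, ∀ w ∈ V, ‖w • (2 : ℤ) • m h'‖ ≤ r₁) (h₁ : D.card * r₁ ≤ 1 / 300)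
    (hC : ∀ c ∈ Q.Cs, ∀ w ∈ V, ‖w • c‖ ≤ r₂)
    (hF : ∀ l ∈ Q.F, ∀ w ∈ V, ‖w • (2 : ℤ) • l v₀‖ ≤ r₂) (hr : 0 ≤ r₂)
    (h₂ : X ^ 2 * r₂ ≤ 1 / 300) :
    κ / 4 ≤ ∑ l ∈ L, 𝔼 y : ZMod M,
      ‖𝔼 v ∈ V, dd (Q.h + ((v₀ : ℤ) : ZMod M) + ((h' : ℤ) : ZMod M)) g (y + ((v : ℤ) : ZMod M)) *
        e (-(v • (2 : ℤ) • l h'))‖ ^ 2 := by
  obtain ⟨W, hW, hc⟩ := hQ.cover _ hS
  refine le_trans ?_ (end_pars _ W L (fun l => (2 : ℤ) • l h') hV fun ξ hξ => ?_)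
  · rw [Int.cast_add, ← add_assoc] at hW
    unfold muh at hW
    linarith
  obtain ⟨c, hc, l, hl, e⟩ := hc ξ hξ
  obtain ⟨l', hl', hd⟩ := hL l hl
  refine ⟨l', hl', fun w hw => ?_⟩
  have ha : l (v₀ + h') = l v₀ + l h' := by
    obtain ⟨a, -, rfl⟩ := mem_Sp.1 hl
    simp only [Finset.sum_apply, Pi.smul_apply, ← sum_add_distrib, ← smul_add]
    exact sum_congr rfl fun m hm => by rw [hQ.add m hm v₀ hv₀ h' hh]
  have hX : 0 ≤ X := (Nat.cast_nonneg _).trans hQ.t_le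
  have b : ∀ n : ℕ, (n : ℝ) ≤ X → (Q.t : ℝ) * n * r₂ ≤ 1 / 300 := fun n hn =>
    (mul_le_mul_of_nonneg_right ((mul_le_mul hQ.t_le hn (Nat.cast_nonneg _) hX).trans_eq
      (sq X).symm) hr).trans h₂
  have e1 : ‖w • c‖ ≤ 1 / 300 :=
    (Sp_norm_le (lend_sm w) (fun a ha => hC a ha w hw) hc).trans (b _ hQ.card_Cs)
  have e2 : ‖w • (2 : ℤ) • l v₀‖ ≤ 1 / 300 :=
    (Sp_norm_le (lend_ev w v₀) (fun a ha => hF a ha w hw) hl).trans (b _ hQ.card_F)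
  have e3 : ‖w • (2 : ℤ) • (l - l') h'‖ ≤ 1 / 300 :=
    (Sp_norm_le (lend_ev w h') (fun a ha => hD a ha w hw) hd).trans (by simpa using h₁)
  have : w • (ch ξ - (2 : ℤ) • l' h') =
      w • c + w • (2 : ℤ) • l v₀ + w • (2 : ℤ) • (l - l') h' := by
    rw [e, ha, ← smul_add, ← smul_add, Pi.sub_apply, smul_add (2 : ℤ), smul_sub (2 : ℤ)]
    congr 1
    abel
  rw [this]
  linarith [norm_add₃_le (a := w • c) (b := w • (2 : ℤ) • l v₀) (c := w • (2 : ℤ) • (l - l') h')]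

end Pool.Agent.TR
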