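import Pool.Agent.Lib.MP_cc859a_an.TR.LSplit
import Pool.Agent.Lib.MP_cc859a_an.TR.LCorr
import Pool.Agent.Lib.MP_cc859a_an.TR.Num

open Finset Real
open scoped BigOperators ComplexConjugate

namespace Pool.Agent.TR

theorem lh4_two_pow (n : ℕ) : (2 : ℝ) ^ n ≤ exp n := by
  rw [← mul_one (n : ℝ), exp_nat_mul]
  exact pow_le_pow_left₀ zero_le_two (by linarith [add_one_le_exp (1 : ℝ)]) n

theorem lh4_const {c a b : ℝ} (n : ℕ) (hc : c ≤ 2 ^ n) (h : a + n ≤ b) : c * exp a ≤ exp b := by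
  refine (mul_le_mul_of_nonneg_right (hc.trans (lh4_two_pow n)) (exp_pos a).le).trans ?_
  rw [← exp_add]
  exact exp_le_exp.2 (by linarith)

theorem lh4_card {A : Type*} [AddCommGroup A] (F : Finset A) (t : ℕ) {X : ℝ}
    (hF : (F.card : ℝ) ≤ X) (ht : (t : ℝ) ≤ X) : ((Sp F t).card : ℝ) ≤ exp (2 * X ^ 2) := by
  have hX : 0 ≤ X := (Nat.cast_nonneg _).trans hF
  have h1 : ((Sp F t).card : ℝ) ≤ (2 * t + 1) ^ F.card := by exact_mod_cast card_Sp_le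
  have h2 : (2 * (t : ℝ) + 1) ^ F.card ≤ exp (2 * X) ^ F.card :=
    pow_le_pow_left₀ (by positivity) (by linarith [add_one_le_exp (2 * X)]) _
  rw [← exp_nat_mul] at h2
  exact h1.trans (h2.trans (exp_le_exp.2 (by nlinarith)))

theorem lh4_log {X R κ m b : ℝ} (hX : 2 ≤ X) (hXR : X ≤ R) (hR : 40 ≤ R) (hκ : 1 / X ≤ κ)
    (hκ' : exp (-X) ≤ κ) (hm : 0 < m) (hb : exp (-(R + 1) ^ 2) * m ≤ b) :
    4 / (κ / 640) ^ 2 * log (1280 * m / (κ * (exp (-X) / 2) * b)) ≤ R ^ 9 := by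
  have hκ0 : 0 < κ := (exp_pos _).trans_le hκ'
  have hb0 : 0 < b := lt_of_lt_of_le (by positivity) hb
  have h1 : 1280 * m / (κ * (exp (-X) / 2) * b) ≤ exp (R ^ 3) := by
    have h2 : 2560 * exp (2 * X + (R + 1) ^ 2) ≤ exp (R ^ 3) :=
      lh4_const 12 (by norm_num) (by push_cast; nlinarith)
    refine le_trans ?_ h2
    calc _ ≤ 1280 * m / (exp (-X) * (exp (-X) / 2) * (exp (-(R + 1) ^ 2) * m)) := by gcongr
      _ = _ := by
        rw [exp_add, two_mul X, exp_add, exp_neg, exp_neg]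
        field_simp
        norm_num
  have h3 : log (1280 * m / (κ * (exp (-X) / 2) * b)) ≤ R ^ 3 :=
    (log_le_iff_le_exp (by positivity)).2 h1
  have h4 : 4 / (κ / 640) ^ 2 ≤ R ^ 6 := by
    have h5 : 1 ≤ κ * R := by
      rw [div_le_iff₀ (by linarith)] at hκ
      nlinarith
    have h6 : (40 : ℝ) ^ 4 ≤ R ^ 4 := pow_le_pow_left₀ (by norm_num) hR 4
    have h7 : 1 ≤ (κ * R) ^ 2 := one_le_pow₀ h5
    rw [div_le_iff₀ (by positivity)]
    nlinarith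
  calc _ ≤ 4 / (κ / 640) ^ 2 * R ^ 3 := mul_le_mul_of_nonneg_left h3 (by positivity)
    _ ≤ R ^ 6 * R ^ 3 := mul_le_mul_of_nonneg_right h4 (by positivity)
    _ = R ^ 9 := by ring

/-- Paper D7 and D8 with numbers. `Ls = Sp Q.F Q.t`, `K = exp (2 X ^ 2) ≥ (2 t + 1) ^ |F|`
(`card_Sp_le`), `η = exp (-X) / 2`, `τ = √(κ η / (200 K))`, `ε' = t |F| ε ≤ exp (-2 E)` (`Loc.sp`).
`split`, then `corr`; `card_BM_ge` bounds the logarithm by a power of `R`, so `|Λ| ≤ R ^ c`.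
`Θ' = W.Θ ∪ image ch Λ`, `E' = R ^ (c + 4) ≥ 10`, `δ' = exp (-E')` is below `W.δ` and
`|Λ| δ' ≤ 1 / 40`; `exists_reg'` for `(Θ', δ', δ' M, E')` gives `V' = BM M Θ' (t' δ')`, regular
for `BM M Θ' (exp (-5 E') δ')`, which is the Bohr set of `Out`; `B = BM M Q.Θ (4 Q.δ)`. -/
theorem h4 : ∃ C : ℕ, 1 ≤ C ∧ ∀ X E R κ ε : ℝ, 2 ≤ X → 10 * X ^ 2 ≤ E → E ≤ R → 1 / X ≤ κ →
    0 ≤ ε → 2 * X ^ 2 * ε ≤ exp (-2 * E) → ∀ (M : ℕ) [NeZero M], exp (R ^ C) ≤ M →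
    ∀ g : ZMod M → ℂ, (∀ x, ‖g x‖ ≤ 1) → ∀ (Q : Qd M) (R₀ : ℝ), Q.OK g κ X R₀ ε →
    ∀ W : Win M, W.OK g (Sp Q.F Q.t) (BM M Q.Θ Q.δ) κ (exp (-X) / 2) (exp (-E))
      (exp (-2 * E)) R → Out g (κ ^ 2 / 10 ^ 6) X (R ^ C) := by
  classical
  refine ⟨11, by norm_num, fun X E R κ ε hX hE hER hκ hε hε' M _ hM g hg Q R₀ hQ W hW => ?_⟩
  have hX2 : 2 * X ≤ X ^ 2 := by nlinarith
  have hR : 40 ≤ R := by linarith
  have hXR : X ≤ R := by linarith
  have hR2 : 2 ≤ R := by linarith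
  have hM0 : (0 : ℝ) < M := (exp_pos _).trans_le hM
  have hκ' : exp (-X) ≤ κ := by
    refine le_trans ?_ hκ
    rw [exp_neg, one_div]
    exact inv_anti₀ (by linarith) (by linarith [add_one_le_exp X])
  have hκ0 : 0 < κ := (exp_pos _).trans_le hκ'
  have hδ0 : 0 < Q.δ := (exp_pos _).trans_le hQ.δ_ge
  have he0 : 0 ≤ (Q.t : ℝ) * Q.F.card * ε := by positivity
  have he1 : (Q.t : ℝ) * Q.F.card * ε ≤ exp (-2 * E) := by
    have h1 : (Q.t : ℝ) * Q.F.card ≤ X * X :=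
      mul_le_mul hQ.t_le hQ.card_F (Nat.cast_nonneg _) (by linarith)
    nlinarith [mul_le_mul_of_nonneg_right h1 hε, mul_nonneg (sq_nonneg X) hε]
  have hB : BM M Q.Θ Q.δ ⊆ BM M Q.Θ (4 * Q.δ) := BM_mono Subset.rfl (by linarith)
  have hloc : ∀ l ∈ Sp Q.F Q.t, Loc l (BM M Q.Θ (4 * Q.δ)) (Q.t * Q.F.card * ε) :=
    fun l hl => Loc.sp hQ.loc hl
  have hsm : ∀ p ∈ BM M Q.Θ Q.δ, 100 * |p| ≤ M := fun p hp => by
    have h1 := (mem_Bohr.1 hp).1
    have h2 := mul_le_mul_of_nonneg_right hQ.δ_le hM0.le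
    have h3 : 100 * |(p : ℝ)| ≤ M := by linarith
    exact_mod_cast h3
  have hM1 : (0 : ℤ) < M := by exact_mod_cast hM0
  have hζ : exp (-2 * E) ≤ 1 := exp_le_one_iff.2 (by linarith)
  obtain ⟨P, S', hS', hc, hP, hmass⟩ := split (τ := exp (-3 * X ^ 2)) hg hW hB he0 hloc
    (fun p hp => by have := hsm p hp; have := abs_nonneg p; omega) hζ
    (lh4_card Q.F Q.t hQ.card_F hQ.t_le) hκ0 (exp_pos _).le (exp_pos _)
    (by
      have h1 : 400 * exp (2 * X ^ 2 + (2 : ℕ) * (-3 * X ^ 2)) ≤ exp (-X + -X) :=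
        lh4_const 9 (by norm_num) (by push_cast; linarith)
      rw [exp_add, exp_add, exp_nat_mul] at h1
      nlinarith [mul_le_mul_of_nonneg_right hκ' (exp_pos (-X)).le])
    (by
      rw [← exp_nat_mul, ← exp_nat_mul, ← exp_add]
      exact exp_le_exp.2 (by push_cast; linarith))
    (by
      have h1 : 4900 * exp (2 * X ^ 2 + (2 : ℕ) * (-2 * E)) ≤ exp (-X) :=
        lh4_const 13 (by norm_num) (by push_cast; linarith)
      rw [exp_add, exp_nat_mul] at h1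
      have h2 := mul_le_mul_of_nonneg_left (pow_le_pow_left₀ he0 he1 2) (exp_pos (2 * X ^ 2)).le
      linarith)
  obtain ⟨Λ, hΛ, hcorr⟩ := corr hg hW hδ0.le hQ.δ_le he0 hloc hζ hκ0 (by positivity) P hS' hc
    hP hmass
  replace hΛ := hΛ.trans
    (lh4_log hX hXR hR hκ hκ' hM0 (card_BM_ge hW.card_Θ hW.δ_ge hW.δ_le))
  have p9 : R ≤ R ^ 9 := num_le_pow hR2 (by norm_num)
  have p10 : 40 * R ^ 9 ≤ R ^ 10 := by
    rw [pow_succ' R 9]
    exact mul_le_mul_of_nonneg_right hR (by positivity)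
  have p11 : 40 * R ^ 10 ≤ R ^ 11 := by
    rw [pow_succ' R 10]
    exact mul_le_mul_of_nonneg_right hR (by positivity)
  have px := add_one_le_exp (R ^ 10)
  have hΘ : ((W.Θ ∪ Λ.image ch).card : ℝ) ≤ R ^ 10 := by
    have h1 : ((W.Θ ∪ Λ.image ch).card : ℝ) ≤ W.Θ.card + Λ.card := by
      exact_mod_cast (card_union_le _ _).trans (Nat.add_le_add_left card_image_le _)
    linarith [hW.card_Θ]
  have hd0 := exp_pos (-R ^ 10)
  have hd1 : exp (-R ^ 10) ≤ 1 := exp_le_one_iff.2 (by linarith)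
  have hdW : exp (-R ^ 10) ≤ W.δ := (exp_le_exp.2 (by linarith)).trans hW.δ_ge
  obtain ⟨t, ht0, ht1, hreg⟩ := exists_reg' (W.Θ ∪ Λ.image ch) (δ := exp (-R ^ 10))
    (N := exp (-R ^ 10) * M) (E := R ^ 10) (by linarith) (by linarith)
    (exp_le_exp.2 (by linarith)) hd1 (by
      rw [exp_neg, ← div_eq_inv_mul, one_le_div (exp_pos _)]
      exact (exp_le_exp.2 (by linarith)).trans hM)
  rw [← mul_assoc, ← mul_assoc] at hreg
  have hsub : ∀ s : ℝ, s ≤ 1 →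
      BM M (W.Θ ∪ Λ.image ch) (s * exp (-R ^ 10)) ⊆ BM M W.Θ W.δ := fun s hs =>
    BM_mono subset_union_left ((mul_le_of_le_one_left hd0.le hs).trans hdW)
  have hs5 : exp (-5 * R ^ 10) ≤ 1 := exp_le_one_iff.2 (by linarith)
  have hWB : BM M W.Θ W.δ ⊆ BM M Q.Θ Q.δ := hW.V₂_sub.trans hW.V_sub
  obtain ⟨lab, ξ, hlab, hcor⟩ := hcorr _ (exp (-R ^ 10)) (hsub t ht1) hreg.1
    (by
      rw [exp_neg, ← div_eq_mul_inv, div_le_div_iff₀ (exp_pos _) (by norm_num)]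
      linarith)
    fun w hw a ha => ((mem_Bohr.1 hw).2 _ (mem_union_right _ (mem_image_of_mem _ ha))).trans
      (mul_le_of_le_one_left hd0.le ht1)
  have h7 : 8 * exp (-2 * E) ≤ exp (-X) := lh4_const 3 (by norm_num) (by push_cast; linarith)
  have h8 := exp_pos (-2 * E)
  refine ⟨W.Θ ∪ Λ.image ch, Q.F, Q.t, exp (-5 * R ^ 10) * exp (-R ^ 10), ε, _,
    BM M Q.Θ (4 * Q.δ), by linarith, by linarith [hQ.card_F], by linarith [hQ.t_le], ?_,
    mul_le_one₀ hs5 hd0.le hd1, hε, by nlinarith, by linarith,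
    hreg.mono Subset.rfl (exp_le_exp.2 (by linarith)), ((hsub t ht1).trans hWB).trans hB,
    ((hsub _ hs5).trans hWB).trans hB, hQ.loc, fun w hw => ?_, lab, ξ, hlab, le_trans ?_ hcor⟩
  · rw [← exp_add]
    exact exp_le_exp.2 (by linarith)
  · have := hsm w (hWB (hsub t ht1 hw))
    have := abs_nonneg w
    omega
  · have h1 : 40000000 * exp (-2 * E) ≤ exp ((2 : ℕ) * -X) :=
      lh4_const 26 (by norm_num) (by push_cast; linarith)
    rw [exp_nat_mul] at h1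
    have h2 := pow_le_pow_left₀ (exp_pos _).le hκ' 2
    have h3 := sq_nonneg κ
    linarith

end Pool.Agent.TR
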