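import Pool.Agent.Lib.MP_cc859a_an.TR.LEnd
import Pool.Agent.Lib.MP_cc859a_an.TR.LAbs
import Pool.Agent.Lib.MP_cc859a_an.TR.Dich
import Pool.Agent.Lib.MP_cc859a_an.TR.Num

open Finset Real
open scoped BigOperators ComplexConjugate

namespace Pool.Agent.TR

variable {M : ℕ} [NeZero M]

theorem lstep_N {δ N a b R : ℝ} (h : exp (-a) ≤ δ) (hN : exp R ≤ N) (hb : a + b ≤ R) :
    exp b ≤ δ * N := by
  refine le_trans ?_ (mul_le_mul h hN (exp_pos _).le ((exp_pos _).le.trans h))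
  rw [← exp_add]
  exact exp_le_exp.2 (by linarith)

theorem lstep_half {δ a E : ℝ} (hE : 10 ≤ E) (h : exp (-a) ≤ δ) :
    exp (-(a + 6 * E)) ≤ exp (-5 * E) * δ / 2 := by
  rw [show -(a + 6 * E) = -5 * E + (-a + -E) by ring, exp_add, exp_add, mul_div_assoc,
    div_eq_mul_one_div]
  exact mul_le_mul_of_nonneg_left (mul_le_mul h ((dich_y hE).1.trans (by norm_num)) (exp_pos _).le
    ((exp_pos _).le.trans h)) (exp_pos _).le

omit [NeZero M] in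
theorem lstep_reg (Θ : Finset T) {δ E R a : ℝ} (hE : 10 ≤ E) (hR : R ≤ exp E) (hM : exp R ≤ M)
    (hΘ : (Θ.card : ℝ) ≤ R) (hδ : exp (-a) ≤ δ) (ha : a ≤ R) (hδ1 : δ ≤ 1) :
    ∃ t : ℝ, 1 / 2 ≤ t ∧ t ≤ 1 ∧
      Reg (BM M Θ (t * δ)) (BM M Θ (exp (-5 * E) * δ)) (exp (-2 * E)) := by
  simpa only [← mul_assoc] using exists_reg' Θ (N := δ * M) hE (hΘ.trans hR)
    ((exp_le_exp.2 (by linarith)).trans hδ) hδ1
    (exp_zero.ge.trans (lstep_N hδ hM (by linarith)))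

/-- Paper D6, one step. Let `(Θ, δ)` be given by the state, `R' = R + 1500 E X ^ 2`.
`exists_reg'` gives `V₁ = BM M Θ (t₁ δ)`, regular for `BM M Θ (exp (-5 E) δ)`. `dens_shift` for
`Q.S`, `V₁`, `Q.Ω` gives `v₀` and `S = {h' ∈ V₁ | v₀ + h' ∈ Q.S}` of relative density
`exp (-X) / 2`. `Θ₂ = Θ ∪ Q.Cs ∪ image (fun l => 2 • l v₀) Q.F`, `δ₂ = exp (-5 E) δ / 2`, and
`exists_reg'` gives `V = BM M Θ₂ (t δ₂)`, regular for `BM M Θ₂ (exp (-5 E) δ₂)`.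
If some `m ∈ Sp Q.F (2 t)` outside `Sp D 1` has a Gauss sum above `exp (-E)` on `V`, `gauss_bohr`
(`Loc.sp`: `2 t |F| ε ≤ exp (-2 E)`) gives `Θ'`; the new state is `(Θ', exp (-72 E) δ)`.
Otherwise take `L` from `maxsep`, `W.Θ = Θ₂`, `W.δ = exp (-5 E) δ₂ / 2`, `W.h = Q.h + v₀`, and
`end_mass` with `r₁ = exp (-E)`, `r₂ = δ₂`. -/
theorem step {Q : Qd M} {g : ZMod M → ℂ} {κ X R ε E : ℝ} (hQ : Q.OK g κ X R ε) (hX : 2 ≤ X)
    (hXE : X ≤ E) (hE : 10 ≤ E) (hε0 : 0 ≤ ε) (hε : 2 * X ^ 2 * ε ≤ exp (-2 * E))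
    (hR : R + 1500 * E * X ^ 2 ≤ exp E) (hM : exp (R + 1500 * E * X ^ 2) ≤ M)
    {D : Finset (ℤ → T)} (hD : (D.card : ℝ) ≤ 20 * X ^ 2) (hSt : StL Q E R D) :
    (∃ W : Win M, W.OK g (Sp Q.F Q.t) (BM M Q.Θ Q.δ) κ (exp (-X) / 2) (exp (-E)) (exp (-2 * E))
      (R + 1500 * E * X ^ 2)) ∨
    ∃ m ∈ Sp Q.F (2 * Q.t), m ∉ Sp D 1 ∧ ∃ hm : m ∉ D, StL Q E R (cons m D hm) := by
  classical
  obtain ⟨Θ, δ, a1, a2, a3, a4, a5⟩ := hSt
  have hR0 : 0 ≤ R := (Nat.cast_nonneg _).trans hQ.card_Θ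
  have hn : E * D.card ≤ E * (20 * X ^ 2) := mul_le_mul_of_nonneg_left hD (by linarith)
  have hn0 : 0 ≤ E * D.card := mul_nonneg (by linarith) (Nat.cast_nonneg _)
  have hx : E * 4 ≤ E * X ^ 2 := mul_le_mul_of_nonneg_left (by nlinarith) (by linarith)
  have hy : X ^ 2 * exp (-E) ≤ 1 / 15000 := by
    rw [exp_neg, ← div_eq_mul_inv, div_le_div_iff₀ (exp_pos _) (by norm_num)]
    nlinarith [sq_nonneg X]
  have h5 : exp (-5 * E) ≤ exp (-E) := exp_le_exp.2 (by linarith)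
  have h6 : exp (-E) ≤ 1 := exp_le_one_iff.2 (by linarith)
  have hδ0 : 0 < δ := (exp_pos _).trans_le a2
  have hδ1 : δ ≤ 1 := a3.trans (hQ.δ_le.trans (by norm_num))
  obtain ⟨t₁, -, ht₁, r₁⟩ := lstep_reg Θ hE hR hM (by linarith) a2 (by linarith) hδ1
  have s₁ : BM M Θ (t₁ * δ) ⊆ BM M Θ δ := BM_mono Subset.rfl (mul_le_of_le_one_left hδ0.le ht₁)
  have hM0 : (0 : ℝ) < M := (exp_pos _).trans_le hM
  obtain ⟨x₀, hx₀⟩ : Q.S.Nonempty :=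
    card_pos.1 (Nat.cast_pos.1 ((mul_pos (exp_pos _) hM0).trans_le hQ.card_S))
  obtain ⟨v₀, hv₀, hd⟩ := dens_shift Q.S (BM M Θ (t₁ * δ)) Q.Ω
    ⟨_, hQ.sub x₀ hx₀ 0 (a4 (Bohr_zero_mem hδ0.le (by positivity)))⟩
    fun x hx v hv => hQ.sub x hx v (a4 (s₁ hv))
  obtain ⟨Θ₂, b1, b2, b3, b4⟩ : ∃ Θ₂ : Finset T, Θ ⊆ Θ₂ ∧ Q.Cs ⊆ Θ₂ ∧
      (∀ l ∈ Q.F, (2 : ℤ) • l v₀ ∈ Θ₂) ∧ (Θ₂.card : ℝ) ≤ R + 17 * E * D.card + 2 * E := by
    refine ⟨Θ ∪ Q.Cs ∪ Q.F.image fun l => (2 : ℤ) • l v₀, subset_union_left.trans subset_union_left,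
      subset_union_right.trans subset_union_left,
      fun l hl => mem_union_right _ (mem_image_of_mem _ hl), ?_⟩
    have h1 := Nat.cast_le (α := ℝ).2 ((card_union_le (Θ ∪ Q.Cs) (Q.F.image fun l =>
      (2 : ℤ) • l v₀)).trans (Nat.add_le_add (card_union_le _ _) card_image_le))
    push_cast at h1
    linarith [hQ.card_F, hQ.card_Cs]
  have c2 := lstep_half hE a2
  have c3 : 2 * (exp (-5 * E) * δ / 2) = exp (-5 * E) * δ := by ring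
  have c4 : exp (-5 * E) * δ ≤ δ := mul_le_of_le_one_left hδ0.le (h5.trans h6)
  have c5 : exp (-5 * E) * δ ≤ exp (-E) := (mul_le_of_le_one_right (exp_pos _).le hδ1).trans h5
  generalize exp (-5 * E) * δ / 2 = δ₂ at c2 c3
  rw [← c3] at r₁ c4 c5
  have c0 : 0 < δ₂ := (exp_pos _).trans_le c2
  obtain ⟨t, ht', ht, r₂⟩ := lstep_reg Θ₂ hE hR hM (by linarith) c2 (by linarith) (by linarith)
  have s₂ : BM M Θ₂ (t * δ₂) ⊆ BM M Θ₂ δ₂ := BM_mono Subset.rfl (mul_le_of_le_one_left c0.le ht)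
  have s₃ : BM M Θ₂ δ₂ ⊆ BM M Θ (2 * δ₂) := BM_mono b1 (by linarith)
  have s₄ : BM M Θ (2 * δ₂) ⊆ BM M Θ δ := BM_mono Subset.rfl c4
  by_cases hc : ∃ m ∈ Sp Q.F (2 * Q.t), m ∉ Sp D 1 ∧ ∃ ξ : T,
      exp (-E) < ‖𝔼 v ∈ BM M Θ₂ (t * δ₂), e (v • m v + v • ξ)‖
  · obtain ⟨m, hm, hm', ξ, hξ⟩ := hc
    have h7 : ((2 * Q.t : ℕ) : ℝ) * Q.F.card * ε ≤ exp (-2 * E) := by
      refine le_trans (mul_le_mul_of_nonneg_right ?_ hε0) hε
      push_cast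
      nlinarith [mul_le_mul hQ.t_le hQ.card_F (Nat.cast_nonneg _) (by linarith)]
    have h8 : 2 * exp (5 * E) ≤ δ₂ * M := by
      refine le_trans ?_ (lstep_N (b := E + 5 * E) c2 hM (by linarith))
      rw [exp_add]
      exact mul_le_mul_of_nonneg_right (by linarith [add_one_le_exp E]) (exp_pos _).le
    obtain ⟨Θ', d1, d2, d3⟩ := gauss_bohr Θ₂ (δ := δ₂) (N := δ₂ * M) (l := m) (ξ := ξ) hE
      (by linarith) ((exp_le_exp.2 (by linarith)).trans c2) (by linarith) h8 ht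
      (by simpa only [← mul_assoc] using r₂) ((Loc.sp hQ.loc hm).mono (by
        rw [← mul_assoc]
        exact (BM_mono b1 c4).trans (a4.trans (BM_mono Subset.rfl (by linarith)))) h7)
      (by simpa only [← mul_assoc] using hξ)
    rw [← mul_assoc] at d2 d3
    have d4 := d2.trans (s₃.trans s₄)
    refine Or.inr ⟨m, hm, hm', fun h => hm' (Sp_self h), Θ', exp (-66 * E) * δ₂, ?_, ?_, ?_,
      d4.trans a4, fun m' h v hv w hw => ?_⟩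
    · rw [card_cons, Nat.cast_succ]
      linarith
    · refine le_trans (le_of_eq ?_) (mul_le_mul_of_nonneg_left c2 (exp_pos _).le)
      rw [← exp_add, card_cons, Nat.cast_succ]
      congr 1
      ring
    · linarith [mul_le_of_le_one_left c0.le (exp_le_one_iff.2 (by linarith : -66 * E ≤ 0))]
    · rcases mem_cons.1 h with rfl | h
      exacts [d3 v hv w hw, a5 m' h v (d4 hv) w (d4 hw)]
  · obtain ⟨L, e1, e2, e3⟩ := maxsep (Sp Q.F Q.t) D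
    have e4 := mul_le_of_le_one_left c0.le (h5.trans h6)
    refine Or.inl ⟨⟨BM M Θ (t₁ * δ), BM M Θ₂ (t * δ₂), (BM M Θ (t₁ * δ)).filter fun v =>
      v₀ + v ∈ Q.S, Θ₂, exp (-5 * E) * δ₂ / 2, Q.h + v₀, L⟩, s₁.trans a4, s₂.trans (s₃.trans (s₄.trans a4)),
      BM_mono Subset.rfl (by nlinarith), filter_subset _ _, ?_, r₁.mono (s₂.trans s₃) le_rfl,
      r₂.mono (BM_mono Subset.rfl (le_of_eq (by ring))) le_rfl, by simp only; linarith,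
      (exp_le_exp.2 (by linarith)).trans (lstep_half hE c2), by simp only; linarith, e1,
      fun l hl l' hl' hne ξ => not_lt.1 fun h => hc ⟨_, two_mul Q.t ▸ Sp_sub (e1 hl) (e1 hl'),
        e2 l hl l' hl' hne, ξ, h⟩, fun h' hh => ?_⟩
    · refine le_of_mul_le_mul_left ?_ (mul_pos two_pos hM0)
      refine le_trans (le_of_eq (by ring)) (((mul_le_mul_of_nonneg_right hQ.card_S
        (Nat.cast_nonneg _)).trans hd).trans (mul_le_mul_of_nonneg_right hQ.card_Ω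
        (Nat.cast_nonneg _)))
    · obtain ⟨h7, h8⟩ := mem_filter.1 hh
      exact end_mass hQ r₂.1 hv₀ (a4 (s₁ h7)) h8 e3
        (fun m hm w hw => a5 m hm h' (s₁ h7) w (s₄ (s₃ (s₂ hw))))
        (by linarith [mul_le_mul_of_nonneg_right hD (exp_pos (-E)).le])
        (fun c hc w hw => (mem_Bohr.1 (s₂ hw)).2 c (b2 hc))
        (fun l hl w hw => (mem_Bohr.1 (s₂ hw)).2 _ (b3 l hl)) c0.le
        (by linarith [mul_le_mul_of_nonneg_left (show δ₂ ≤ exp (-E) by linarith) (sq_nonneg X)])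

/-- `chain_ind` with `k = 2 t`, `T₀ = 20 X ^ 2` (`log (4 t + 1) ≤ 4 t`); the first state is
`(Q.Θ, Q.δ)`. -/
theorem h3 {Q : Qd M} {g : ZMod M → ℂ} {κ X R ε E : ℝ} (hQ : Q.OK g κ X R ε) (hX : 2 ≤ X)
    (hXE : X ≤ E) (hE : 10 ≤ E) (hε0 : 0 ≤ ε) (hε : 2 * X ^ 2 * ε ≤ exp (-2 * E))
    (hR : R + 1500 * E * X ^ 2 ≤ exp E) (hM : exp (R + 1500 * E * X ^ 2) ≤ M) :
    ∃ W : Win M, W.OK g (Sp Q.F Q.t) (BM M Q.Θ Q.δ) κ (exp (-X) / 2) (exp (-E)) (exp (-2 * E))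
      (R + 1500 * E * X ^ 2) := by
  refine chain_ind Q.F (2 * Q.t) (StL Q E R) _ (T₀ := 20 * X ^ 2) ?_
    ⟨Q.Θ, Q.δ, by simpa using hQ.card_Θ, by simpa using hQ.δ_ge, le_rfl, Subset.rfl, by simp⟩
    fun D hD hS => step hQ hX hXE hE hε0 hε hR hM hD hS
  have h0 : (0 : ℝ) ≤ Q.t := Nat.cast_nonneg _
  have h1 := log_le_sub_one_of_pos (x := 2 * (2 * Q.t) + 1) (by linarith)
  have h2 : (0 : ℝ) ≤ Q.F.card := Nat.cast_nonneg _
  push_cast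
  nlinarith [mul_le_mul_of_nonneg_left h1 h2, mul_le_mul hQ.card_F hQ.t_le h0 (by linarith),
    mul_le_mul hQ.card_F hQ.card_F h2 (by linarith)]

end Pool.Agent.TR
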