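import Pool.Agent.Lib.MP_cc859a_an.TR.LSym

open Finset Real
open scoped BigOperators ComplexConjugate

namespace Pool.Agent.TR

theorem lsymall_sp {A : Type*} [AddCommGroup A] {F : Finset A} {s : ℕ} {a : Fin s → ℤ}
    (ha : ∀ j, |a j| ≤ 1) {x : Fin s → A} (hx : ∀ j, x j ∈ F) : ∑ j, a j • x j ∈ Sp F s := by
  have h := Sp_sum (F := F) (k := 1) univ (fun j => a j • x j) fun j _ =>
    Sp_mono subset_rfl (by have := ha j; rw [Int.abs_eq_natAbs] at this; omega)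
      (Sp_zsmul (Sp_self (hx j)) (a j))
  simpa using h

/-- `sym` for every `j`. `F` is the image of `j ↦ fun v => ch (hf * l j v)`, `Cs` the image of
`j ↦ ch (c j)`, `t = s`, `Q.Θ` the union of `Θ` and all `Θ'`, `Q.δ = exp (-Y ^ C)` with
`4 Q.δ ≤ exp (-Y ^ C₀)`, `Q.δ ≤ δ / 4`, `Ω = BM M Θ (δ / 2)`. `Sp_sum` with `Sp_zsmul`, `Sp_self`
puts `∑ a j • (·)` in `Sp · s`; `2 • ch (hf * x) = ch x`. -/
theorem symall : ∃ C : ℕ, 1 ≤ C ∧ ∀ X Y κ : ℝ, 2 ≤ X → X ≤ Y → ∀ (M : ℕ) [NeZero M],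
    exp (Y ^ C) ≤ M → IsUnit (2 : ZMod M) → ∀ g : ZMod M → ℂ, (∀ x, ‖g x‖ ≤ 1) → H2 g κ X →
    ∃ Q : Qd M, Q.OK g κ X (Y ^ C) (exp (-Y)) := by
  classical
  obtain ⟨C₀, hC₀, hsym⟩ := sym
  refine ⟨C₀ + 6, by omega, fun X Y κ hX hXY M _ hM h2 g hg hH => ?_⟩
  obtain ⟨s, Θ, δ, h₀, c, l, S, hs, hΘ, hδ, hδ1, hl, hS, hSc, hcov⟩ := hH
  have hY : 2 ≤ Y := hX.trans hXY
  obtain ⟨hf, hhf⟩ := h2.exists_right_inv
  have hexp : exp (-Y) ≤ exp (-X) := exp_le_exp.2 (neg_le_neg hXY)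
  have hM0 : (0 : ℝ) ≤ M := Nat.cast_nonneg M
  choose Θ' hΘ' hloc using fun j : Fin s => hsym Y hY M
    ((exp_le_exp.2 (num_mono hY (by omega))).trans hM) hf hhf g hg Θ δ (l j) h₀ (c j) S
    (hΘ.trans hXY) (hexp.trans hδ) hδ1 (hl j) hS
    ((mul_le_mul_of_nonneg_right hexp hM0).trans hSc) fun v hv => hexp.trans ((hcov v hv).1 j)
  have hZ := num_two_le hY hC₀
  have h100 : 100 * exp (-Y ^ (C₀ + 6)) ≤ exp (-Y ^ C₀) := by
    have h1 : Y ^ C₀ + 126 ≤ Y ^ (C₀ + 6) := by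
      have h3 := mul_le_mul_of_nonneg_left (num_two_pow hY 6) (show 0 ≤ Y ^ C₀ by linarith)
      rw [pow_add]
      linarith
    calc 100 * exp (-Y ^ (C₀ + 6)) ≤ exp 126 * exp (-Y ^ (C₀ + 6)) :=
          mul_le_mul_of_nonneg_right (by linarith [add_one_le_exp (126 : ℝ)]) (exp_pos _).le
      _ ≤ _ := by
          rw [← exp_add]
          exact exp_le_exp.2 (by linarith)
  have hd : exp (-Y ^ C₀) ≤ δ :=
    ((exp_le_exp.2 (neg_le_neg (num_le_pow hY hC₀))).trans hexp).trans hδ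
  have hp := exp_pos (-Y ^ (C₀ + 6))
  have hcard : ∀ {β : Type} [DecidableEq β] (f : Fin s → β), ((univ.image f).card : ℝ) ≤ X :=
    fun f => le_trans (Nat.cast_le.2 (card_image_le.trans (by simp))) hs
  refine ⟨⟨univ.image fun j => fun v => ch (hf * l j v), univ.image fun j => ch (c j), s,
    Θ ∪ univ.biUnion Θ', exp (-Y ^ (C₀ + 6)), h₀, S, BM M Θ (δ / 2)⟩, hcard _, hcard _, hs, ?_,
    le_rfl, ?_, ?_, ?_, ?_, card_BM_le Θ (by linarith) (by linarith), hSc, ?_⟩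
  · have h1 : ((Θ ∪ univ.biUnion Θ').card : ℝ) ≤ Θ.card + ∑ j, ((Θ' j).card : ℝ) := by
      exact_mod_cast (card_union_le _ _).trans (Nat.add_le_add_left card_biUnion_le _)
    have h3 : ∑ j, ((Θ' j).card : ℝ) ≤ s * Y ^ C₀ := by
      simpa using sum_le_card_nsmul univ _ _ fun j _ => hΘ' j
    have h4 : (s : ℝ) * Y ^ C₀ ≤ Y ^ (1 + C₀) :=
      num_mul hY (by simpa using hs.trans hXY) le_rfl (by linarith)
    exact h1.trans ((num_add hY ((hΘ.trans hXY).trans (num_le_pow hY (by omega)))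
      (h3.trans h4)).trans (num_mono hY (by omega)))
  · change exp _ ≤ _
    linarith
  · intro m hm
    obtain ⟨j, -, rfl⟩ := mem_image.1 hm
    refine (hloc j).mono (BM_mono ((subset_biUnion_of_mem Θ' (mem_univ j)).trans
      subset_union_right) ?_) le_rfl
    change 4 * exp _ ≤ _
    linarith
  · intro m hm x hx v hv
    obtain ⟨j, -, rfl⟩ := mem_image.1 hm
    have hv' : v ∈ BM M Θ δ := BM_mono subset_union_left (by change exp _ ≤ _; linarith) hv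
    change ch _ = ch _ + ch _
    rw [hl j x (BM_mono subset_rfl (by linarith) hx) v hv', mul_add, ch_add]
  · intro x hx v hv
    have hv' : v ∈ BM M Θ (δ / 4) :=
      BM_mono subset_union_left (by change exp _ ≤ _; linarith) hv
    have h1 := BM_sub (hS hx) hv'
    rwa [show δ / 4 + δ / 4 = δ / 2 by ring] at h1
  · intro v hv
    obtain ⟨W, hW, hW'⟩ := (hcov v hv).2
    refine ⟨W, hW, fun ξ hξ => ?_⟩
    obtain ⟨a, ha, rfl⟩ := hW' ξ hξ
    refine ⟨_, lsymall_sp ha fun j => mem_image_of_mem _ (mem_univ j), _,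
      lsymall_sp ha fun j => mem_image_of_mem _ (mem_univ j), ?_⟩
    rw [Finset.sum_apply, smul_sum, ← sum_add_distrib]
    refine (map_sum ZMod.toAddCircle _ _).trans (sum_congr rfl fun j _ => ?_)
    change ch _ = _ + (2 : ℤ) • a j • ch _
    rw [ch_zsmul, ch_add, smul_add, smul_comm (2 : ℤ), ← ch_int_mul 2, ← mul_assoc,
      Int.cast_ofNat, hhf, one_mul]

end Pool.Agent.TR
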