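import Pool.Agent.Lib.MP_cc859a_an.TR.LAff
import Pool.Agent.Lib.MP_cc859a_an.TR.LSymAll
import Pool.Agent.Lib.MP_cc859a_an.TR.LStep
import Pool.Agent.Lib.MP_cc859a_an.TR.LH4

open Finset Real
open scoped BigOperators ComplexConjugate

namespace Pool.Agent.TR

/-- The inverse theorem on `Z / M`. `h2` gives level `X₂ = X ^ C₁`. `E = X₂ ^ c` with `c` so large
that `10 X₂ ^ 2 ≤ E` and `E ≥ E₀` of `num_eventually`; `Y = 3 E`, so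
`2 X₂ ^ 2 exp (-Y) ≤ exp (-2 E)`. `symall` gives `R = Y ^ C₂`, and
`R' = R + 1500 E X₂ ^ 2 ≤ E ^ n ≤ exp E`. `h3`, `h4`, `Out.mono`. -/
theorem litg : ∃ C : ℕ, 1 ≤ C ∧ ∀ X κ : ℝ, 2 ≤ X → 1 / X ≤ κ → ∀ (M : ℕ) [NeZero M],
    exp (X ^ C) ≤ M → IsUnit (2 : ZMod M) → ∀ g : ZMod M → ℂ, (∀ x, ‖g x‖ ≤ 1) → H1 g κ X →
    Out g (κ ^ 2 / 10 ^ 6) X (X ^ C) := by
  obtain ⟨C₁, hC₁, A2⟩ := h2
  obtain ⟨C₂, hC₂, AS⟩ := symall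
  obtain ⟨C₄, hC₄, A4⟩ := h4
  obtain ⟨E₀, hE₀⟩ := num_eventually (3 * C₂ + 10 + 1) one_pos
  obtain ⟨c₀, hc₀⟩ := num_const E₀
  refine ⟨C₁ * (c₀ + 6) * (3 * C₂ + 10 + 1) * C₄, Nat.succ_le_of_lt (by positivity),
    fun X κ hX hκ M _ hM h2u g hg hH => ?_⟩
  have k2 := A2 X κ hX hκ M g hg hH
  have hX₂ : 2 ≤ X ^ C₁ := num_two_le hX hC₁
  have hXX : X ≤ X ^ C₁ := num_le_pow hX hC₁
  rw [pow_mul, pow_mul, pow_mul] at hM ⊢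
  generalize X ^ C₁ = X₂ at *
  have hκ₂ : 1 / X₂ ≤ κ := (one_div_le_one_div_of_le (by linarith) hXX).trans hκ
  have hE2 : 2 ≤ X₂ ^ (c₀ + 6) := num_two_le hX₂ (by omega)
  have hEE : E₀ ≤ X₂ ^ (c₀ + 6) := (hc₀ X₂ hX₂).trans (num_mono hX₂ (by omega))
  have hE10 : 10 * X₂ ^ 2 ≤ X₂ ^ (c₀ + 6) :=
    (num_mul hX₂ (le_trans (by norm_num) (num_two_pow hX₂ 4)) le_rfl (by positivity)).trans
      (num_mono hX₂ (by omega))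
  generalize X₂ ^ (c₀ + 6) = E at *
  have hsq : 4 ≤ X₂ ^ 2 := by nlinarith
  have hXE : X₂ ≤ E := by nlinarith
  have hE : 10 ≤ E := by linarith
  have hε : 2 * X₂ ^ 2 * exp (-(3 * E)) ≤ exp (-2 * E) := by
    have a1 : 2 * X₂ ^ 2 ≤ exp E := by linarith [add_one_le_exp E]
    calc 2 * X₂ ^ 2 * exp (-(3 * E)) ≤ exp E * exp (-(3 * E)) :=
          mul_le_mul_of_nonneg_right a1 (exp_pos _).le
      _ = exp (-2 * E) := by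
          rw [← exp_add]
          ring_nf
  have hY0 : 0 ≤ (3 * E) ^ C₂ := by positivity
  have b1 : (3 * E) ^ C₂ ≤ E ^ (3 * C₂ + 10) := by
    have a0 : 3 ≤ E ^ 2 := by nlinarith
    have a1 : 3 * E ≤ E ^ 3 := by
      rw [pow_succ]
      exact mul_le_mul_of_nonneg_right a0 (by linarith)
    calc (3 * E) ^ C₂ ≤ (E ^ 3) ^ C₂ := pow_le_pow_left₀ (by linarith) a1 _
      _ = E ^ (3 * C₂) := (pow_mul _ _ _).symm
      _ ≤ _ := num_mono hE2 (by omega)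
  have b2 : 1500 * E * X₂ ^ 2 ≤ E ^ (3 * C₂ + 10) := by
    have a1 : 1500 * E * X₂ ^ 2 ≤ 150 * E ^ 2 := by nlinarith
    have a2 : 150 * E ^ 2 ≤ E ^ (8 + 2) :=
      num_mul hE2 (le_trans (by norm_num) (num_two_pow hE2 8)) le_rfl (by positivity)
    exact (a1.trans a2).trans (num_mono hE2 (by omega))
  have b3 := num_add hE2 b1 b2
  have b4 : E ≤ 1500 * E * X₂ ^ 2 := by nlinarith
  have b5 : (3 * E) ^ C₂ + 1500 * E * X₂ ^ 2 ≤ exp E := by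
    have := hE₀ E hEE
    rw [one_mul] at this
    exact b3.trans this
  have b6 : ((3 * E) ^ C₂ + 1500 * E * X₂ ^ 2) ^ C₄ ≤ (E ^ (3 * C₂ + 10 + 1)) ^ C₄ :=
    pow_le_pow_left₀ (by linarith) b3 _
  have b7 : (3 * E) ^ C₂ + 1500 * E * X₂ ^ 2 ≤ ((3 * E) ^ C₂ + 1500 * E * X₂ ^ 2) ^ C₄ :=
    num_le_pow (by linarith) hC₄
  have m1 : exp (((3 * E) ^ C₂ + 1500 * E * X₂ ^ 2) ^ C₄) ≤ M := (exp_le_exp.2 b6).trans hM
  have m2 : exp ((3 * E) ^ C₂ + 1500 * E * X₂ ^ 2) ≤ M := (exp_le_exp.2 b7).trans m1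
  obtain ⟨Q, hQ⟩ := AS X₂ (3 * E) κ hX₂ (by linarith) M
    ((exp_le_exp.2 (by linarith)).trans m2) h2u g hg k2
  obtain ⟨W, hW⟩ := h3 hQ hX₂ hXE hE (exp_pos _).le hε b5 m2
  exact (A4 X₂ E _ κ _ hX₂ hE10 (by linarith) hκ₂ (exp_pos _).le hε M m1 g hg Q _ hQ W hW).mono
    hXX b6

end Pool.Agent.TR
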