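import Pool.Agent.Lib.MP_cc859a_an.TR.LCs
import Pool.Agent.Lib.MP_cc859a_an.TR.LOne
import Pool.Agent.Lib.MP_cc859a_an.TR.Num

open Finset Real
open scoped BigOperators ComplexConjugate

namespace Pool.Agent.TR

/-- Paper D1. `E h = {x ∈ E | x + lam h ∈ E}` has density `w h ≤ σ` with mean `σ ^ 2`, and
`‖Λ h‖ ≤ w h` for the double average `Λ h`. `S = {h | ε ^ 2 w h / 2 ≤ ‖Λ h‖ ∧ ε ^ 2 σ ^ 2 / 4 ≤ w h}`;
off `S` we have `‖Λ h‖ ≤ ε ^ 2 w h / 2 + ε ^ 2 σ ^ 2 / 4`. `one_mass` with `η = ε ^ 2 / 4`. -/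
theorem h1_raw {M : ℕ} [NeZero M] (g φ : ZMod M → ℂ) (hg : ∀ x, ‖g x‖ ≤ 1) (hφ : ∀ x, ‖φ x‖ ≤ 1)
    {E : Finset (ZMod M)} (hE : E.Nonempty) (hφ0 : ∀ x ∉ E, φ x = 0) {lam th : ZMod M}
    (hlam : IsUnit lam) (hth : IsUnit th) (b : ZMod M → ZMod M → ℂ) (hb : ∀ h w, ‖b h w‖ ≤ 1)
    {ε σ : ℝ} (hε : 0 < ε) (hσ : σ = E.card / M)
    (h : (ε * σ) ^ 2 ≤ 𝔼 h, ‖𝔼 x, 𝔼 z, dd (lam * h) φ x * dd h g z * b h (z + th * x)‖) :
    ∃ S : Finset (ZMod M), ε ^ 2 * σ / 4 * M ≤ S.card ∧ ∀ h ∈ S, ∃ Λ : Finset (ZMod M),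
      (Λ.card : ℝ) ≤ 64 / ε ^ 4 * log (16 / (ε ^ 2 * σ ^ 2)) ∧
      ε ^ 4 / 16 ≤ ∑ ξ ∈ Sp Λ 1, muh g h ξ := by
  classical
  have hM : (0 : ℝ) < M := Nat.cast_pos.2 (NeZero.pos M)
  have hσ0 : 0 < σ := by
    rw [hσ]
    exact div_pos (Nat.cast_pos.2 hE.card_pos) hM
  obtain ⟨F, hF⟩ : ∃ F : ZMod M → Finset (ZMod M),
      ∀ h, F h = E.filter fun x => x + lam * h ∈ E := ⟨_, fun _ => rfl⟩
  obtain ⟨L, hL⟩ : ∃ L : ZMod M → ℝ,
      ∀ h, L h = ‖𝔼 x, 𝔼 z, dd (lam * h) φ x * dd h g z * b h (z + th * x)‖ := ⟨_, fun _ => rfl⟩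
  simp only [← hL] at h
  have h0 : ∀ h, ∀ x ∉ F h, dd (lam * h) φ x = 0 := by
    intro h x hx
    rw [hF, mem_filter, not_and_or] at hx
    rcases hx with hx | hx <;> simp [dd, hφ0 _ hx]
  have h1 : ∀ h, L h ≤ (F h).card / M := by
    intro h
    rw [hL]
    refine (norm_expect_le_expect _ _).trans ?_
    have h2 : ∀ x, ‖𝔼 z, dd (lam * h) φ x * dd h g z * b h (z + th * x)‖ ≤
        if x ∈ F h then 1 else 0 := by
      intro x
      split_ifs with hx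
      · refine norm_expect_le' _ _ zero_le_one fun z _ => ?_
        rw [norm_mul, norm_mul]
        exact mul_le_one₀ (mul_le_one₀ (norm_dd_le hφ _ _) (norm_nonneg _) (norm_dd_le hg _ _))
          (norm_nonneg _) (hb _ _)
      · simp [h0 h x hx]
    refine (expect_le_expect fun x _ => h2 x).trans_eq ?_
    simp [expect_eq_sum_div_card]
  have h3 : ∀ h, ((F h).card : ℝ) / M ≤ σ := by
    intro h
    rw [hσ, hF]
    gcongr
    exact filter_subset _ _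
  have h4 : ∑ h, ((F h).card : ℝ) = E.card * E.card := by
    have h5 : ∀ x, ∑ h, (if x + lam * h ∈ E then (1 : ℝ) else 0) = E.card := by
      intro x
      have h6 : Function.Bijective fun h => x + lam * h :=
        Finite.injective_iff_bijective.1 fun a b hab => hlam.mul_left_cancel (add_left_cancel hab)
      rw [h6.sum_comp fun y => if y ∈ E then (1 : ℝ) else 0]
      simp
    simp only [hF, card_filter, Nat.cast_sum, Nat.cast_ite, Nat.cast_one, Nat.cast_zero]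
    rw [sum_comm]
    simp only [h5, sum_const, nsmul_eq_mul]
  obtain ⟨S, hS⟩ : ∃ S : Finset (ZMod M), ∀ h, h ∈ S ↔
      ε ^ 2 * ((F h).card / M) / 2 ≤ L h ∧ ε ^ 2 * σ ^ 2 / 4 ≤ (F h).card / M :=
    ⟨univ.filter fun h => ε ^ 2 * ((F h).card / M) / 2 ≤ L h ∧ ε ^ 2 * σ ^ 2 / 4 ≤ (F h).card / M,
      fun h => by simp only [mem_filter, mem_univ, true_and]⟩
  refine ⟨S, ?_, fun h hh => ?_⟩
  · have h7 : ∀ h, L h ≤ (if h ∈ S then σ else 0) + ε ^ 2 / (2 * M) * (F h).card +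
        ε ^ 2 * σ ^ 2 / 4 := by
      intro h
      have h8 : 0 ≤ ε ^ 2 / (2 * M) * (F h).card := by positivity
      have h9 : 0 ≤ ε ^ 2 * σ ^ 2 / 4 := by positivity
      have h10 : ε ^ 2 * (((F h).card : ℝ) / M) / 2 = ε ^ 2 / (2 * M) * (F h).card := by
        field_simp
      split_ifs with hh
      · linarith [h1 h, h3 h]
      · rw [hS, not_and_or, not_le, not_le] at hh
        rcases hh with hh | hh <;> linarith [h1 h]
    have h11 := sum_le_sum fun h (_ : h ∈ univ) => h7 h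
    rw [sum_add_distrib, sum_add_distrib, ← mul_sum, h4] at h11
    simp only [sum_ite_mem, univ_inter, sum_const, nsmul_eq_mul, card_univ, ZMod.card] at h11
    rw [expect_eq_sum_div_card, card_univ, ZMod.card, le_div_iff₀ hM] at h
    have h12 : (E.card : ℝ) = σ * M := by rw [hσ, div_mul_cancel₀ _ hM.ne']
    have h13 : ε ^ 2 / (2 * M) * (σ * M * (σ * M)) = ε ^ 2 * σ ^ 2 * M / 2 := by field_simp
    rw [h12, h13] at h11
    refine le_of_mul_le_mul_right ?_ hσ0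
    nlinarith
  · obtain ⟨h14, h15⟩ := (hS h).1 hh
    have h16 : 0 < ε ^ 2 * σ ^ 2 := by positivity
    have h17 : (0 : ℝ) < (F h).card := by
      have h18 : (0 : ℝ) < (F h).card / M := by linarith
      exact (div_pos_iff_of_pos_right hM).1 h18
    obtain ⟨Λ, h19, h20⟩ := one_mass (dd (lam * h) φ) (dd h g) (b h) (norm_dd_le hφ _)
      (norm_dd_le hg _) (hb h) (card_pos.1 (Nat.cast_pos.1 h17)) (h0 h) hth
      (η := ε ^ 2 / 4) (by positivity) (by rw [← hL]; linarith)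
    refine ⟨Λ, h19.trans ?_, le_trans (le_of_eq (by ring)) h20⟩
    rw [show 4 / (ε ^ 2 / 4) ^ 2 = 64 / ε ^ 4 by field_simp; norm_num]
    refine mul_le_mul_of_nonneg_left (log_le_log (by positivity) ?_) (by positivity)
    rw [le_div_iff₀ hM] at h15
    rw [div_le_div_iff₀ h17 h16]
    linarith

/-- `cs_slot` and `h1_raw`. -/
theorem h1 : ∃ C : ℕ, 1 ≤ C ∧ ∀ X ε : ℝ, 2 ≤ X → 1 / X ≤ ε → ∀ (M : ℕ) [NeZero M],
    IsUnit (2 : ZMod M) → IsUnit (3 : ZMod M) → ∀ U : Fin 3 → ZMod M → ℂ,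
    (∀ σ y, ‖U σ y‖ ≤ 1) → ∀ (s : Fin 3) (E : Finset (ZMod M)), exp (-X) * M ≤ E.card →
    (∀ x ∈ E, ε ≤ ‖𝔼 n, U 0 (x + n) * U 1 (x + 2 * n) * U 2 (x + 3 * n)‖) →
    H1 (U s) (ε ^ 4 / 16) (X ^ C) := by
  refine ⟨14, by norm_num, fun X ε hX hε M _ h2 h3 U hU s E hE h => ?_⟩
  have hM : (0 : ℝ) < M := Nat.cast_pos.2 (NeZero.pos M)
  have hX0 : 0 < X := by linarith
  have hε0 : 0 < ε := lt_of_lt_of_le (by positivity) hε
  have hE0 : (0 : ℝ) < E.card := lt_of_lt_of_le (by positivity) hE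
  obtain ⟨φ, lam, th, b, h4, h5, h6, h7, h8, h9⟩ := cs_slot h2 h3 U hU s E hε0.le h
  obtain ⟨S, h10, h11⟩ := h1_raw (U s) φ (hU s) h4 (card_pos.1 (Nat.cast_pos.1 hE0)) h5 h6 h7 b h8
    hε0 rfl h9
  rw [← le_div_iff₀ hM] at hE
  generalize (E.card : ℝ) / M = σ at hE h10 h11
  have hσ : 0 < σ := (exp_pos _).trans_le hE
  have h12 : (1 / X) ^ 2 ≤ ε ^ 2 := by gcongr
  have h13 : (2 : ℝ) ^ 2 ≤ X ^ 2 := num_two_pow hX 2
  refine ⟨S, le_trans (mul_le_mul_of_nonneg_right ?_ hM.le) h10, fun h hh => ?_⟩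
  · have h14 : 5 * X ≤ X ^ 14 := by
      have := num_two_pow hX 3
      calc 5 * X ≤ X ^ 3 * X := by gcongr; linarith
        _ = X ^ 4 := by ring
        _ ≤ _ := num_mono hX (by norm_num)
    have h15 : 4 * X ^ 2 ≤ exp (4 * X) :=
      calc 4 * X ^ 2 ≤ X ^ 2 * X ^ 2 := by gcongr; linarith
        _ = X ^ 4 := by ring
        _ ≤ _ := by exact_mod_cast num_pow_le_exp hX0.le 4
    calc exp (-X ^ 14) ≤ exp (-X - 4 * X) := exp_le_exp.2 (by linarith)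
      _ = exp (-X) / exp (4 * X) := exp_sub _ _
      _ ≤ σ / (4 * X ^ 2) := by gcongr
      _ = (1 / X) ^ 2 * σ / 4 := by field_simp
      _ ≤ _ := by gcongr
  · obtain ⟨Λ, h16, h17⟩ := h11 h hh
    refine ⟨Λ, h16.trans ?_, h17⟩
    have h18 : 16 / (ε ^ 2 * σ ^ 2) ≤ exp (8 * X) := by
      have h19 : 16 * X ^ 2 ≤ exp (6 * X) :=
        calc 16 * X ^ 2 ≤ X ^ 4 * X ^ 2 := by
              gcongr
              linarith [num_two_pow hX 4]
          _ = X ^ 6 := by ring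
          _ ≤ _ := by exact_mod_cast num_pow_le_exp hX0.le 6
      calc 16 / (ε ^ 2 * σ ^ 2) ≤ 16 / ((1 / X) ^ 2 * exp (-X) ^ 2) := by gcongr
        _ = 16 * X ^ 2 * exp (2 * X) := by
          rw [exp_neg, two_mul X, exp_add]
          field_simp
        _ ≤ exp (6 * X) * exp (2 * X) := by gcongr
        _ = _ := by rw [← exp_add]; ring_nf
    have h20 : log (16 / (ε ^ 2 * σ ^ 2)) ≤ 8 * X := (log_le_iff_le_exp (by positivity)).2 h18
    calc 64 / ε ^ 4 * log (16 / (ε ^ 2 * σ ^ 2)) ≤ 64 / ε ^ 4 * (8 * X) := by gcongr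
      _ ≤ 64 / (1 / X) ^ 4 * (8 * X) := by gcongr
      _ = 2 ^ 9 * X ^ 5 := by field_simp; norm_num
      _ ≤ X ^ 9 * X ^ 5 := by gcongr
      _ = _ := by ring

end Pool.Agent.TR
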