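import Pool.Agent.Lib.MP_cc859a_an.TR.LBas

open Finset Real
open scoped BigOperators ComplexConjugate

namespace Pool.Agent.TR

variable {M : ℕ} [NeZero M]

/-- The mean square of a trigonometric polynomial over `S`. -/
theorem llarge_mean (S : Finset ℤ) (c : ZMod M → ℂ) :
    𝔼 h' ∈ S, ‖∑ χ, c χ * e (ch (χ * ((h' : ℤ) : ZMod M)))‖ ^ 2 ≤
      ∑ χ', ‖c χ'‖ * ∑ ξ, ‖c (χ' + ξ)‖ * ‖mu S (ch ξ)‖ := by
  have h1 : ((𝔼 h' ∈ S, ‖∑ χ, c χ * e (ch (χ * ((h' : ℤ) : ZMod M)))‖ ^ 2 : ℝ) : ℂ) =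
      ∑ χ', conj (c χ') * ∑ ξ, c (χ' + ξ) * mu S (ch ξ) := by
    simp only [mu, mul_expect, mul_sum, ← expect_sum_comm, Complex.ofReal_expect]
    refine expect_congr rfl fun h' _ => ?_
    rw [Complex.ofReal_pow, ← Complex.conj_mul', map_sum, sum_mul]
    refine sum_congr rfl fun χ' _ => ?_
    rw [mul_sum, ← Equiv.sum_comp (Equiv.addLeft χ')]
    refine sum_congr rfl fun ξ _ => ?_
    have h2 : conj (e (ch (χ' * (h' : ZMod M)))) * e (ch (χ' * (h' : ZMod M))) = 1 := by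
      rw [← e_neg, ← e_add, neg_add_cancel, e_zero]
    rw [Equiv.coe_addLeft, add_mul, ch_add, e_add, map_mul, mul_comm ξ, ch_int_mul]
    linear_combination conj (c χ') * c (χ' + ξ) * e (h' • ch ξ) * h2
  refine (le_abs_self _).trans ?_
  rw [← Real.norm_eq_abs, ← Complex.norm_real, h1]
  refine norm_sum_le_of_le _ fun χ' _ => ?_
  rw [norm_mul, Complex.norm_conj]
  exact mul_le_mul_of_nonneg_left (norm_sum_le_of_le _ fun ξ _ => (norm_mul _ _).le)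
    (norm_nonneg _)

/-- Paper D8 for one pair `(y, l)`. `A = push P a`; by `corr_push` the inner average is
`∑ c χ e (ch (χ h'))`, `‖c χ‖ = ‖ft A χ‖ π χ`, `π χ = M / |V| * ‖ft (push V p) χ‖`,
`∑ π χ ^ 2 = M / |V| * b` (`parseval`, `push_sq`), `∑ ‖ft A χ‖ ^ 2 ≤ 2 |V| / M`, so
`(∑ ‖c χ‖) ^ 2 ≤ 2 b`. The mean over `h' ∈ S` is `∑ χ χ', c χ conj (c χ') mu S (ch (χ - χ'))`.
Pairs with `χ - χ' ∉ Spec` give at most `2 η b`; for fixed `χ'` the others give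
`∑ ξ ∈ Spec, ‖c (χ' + ξ)‖ ≤ α √b` by Cauchy-Schwarz, and `√(2 b) α √b ≤ 2 b α`. -/
theorem large_one {S V P : Finset ℤ} (hS : S.Nonempty) (hV : V.Nonempty)
    (hVM : ∀ p ∈ V, 2 * |p| < M) (hP : ∀ p ∈ P, 2 * |p| < M)
    (hs : ∀ h' ∈ S, ∀ v ∈ V, h' + v ∈ P) (hc : (P.card : ℝ) ≤ 2 * V.card) (a p : ℤ → ℂ)
    (ha : ∀ z, ‖a z‖ ≤ 1) (Spec : Finset (ZMod M)) {η α : ℝ} (hη : 0 ≤ η) (hα : 0 ≤ α)
    (hSp : ∀ ξ ∉ Spec, ‖mu S (ch ξ)‖ ≤ η)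
    (h : ∀ χ : ZMod M, (M : ℝ) / V.card * ∑ ξ ∈ Spec, ‖ft (push P a) (χ + ξ)‖ ^ 2 ≤ α ^ 2) :
    𝔼 h' ∈ S, ‖𝔼 v ∈ V, a (h' + v) * conj (p v)‖ ^ 2 ≤
      (2 * η + 2 * α) * 𝔼 v ∈ V, ‖p v‖ ^ 2 := by
  have hV0 : (0 : ℝ) < V.card := Nat.cast_pos.2 hV.card_pos
  have hM : (0 : ℝ) < M := Nat.cast_pos.2 (NeZero.pos M)
  obtain ⟨m, hm⟩ : ∃ m : ℝ, m = M / V.card := ⟨_, rfl⟩
  have hm0 : 0 < m := hm ▸ div_pos hM hV0
  obtain ⟨r, hr0, hr⟩ : ∃ r : ℝ, 0 ≤ r ∧ r ^ 2 = 𝔼 v ∈ V, ‖p v‖ ^ 2 :=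
    ⟨_, sqrt_nonneg _, sq_sqrt (expect_nonneg fun _ _ => by positivity)⟩
  let c : ZMod M → ℂ := fun χ => (M : ℂ) / V.card * (ft (push P a) χ * conj (ft (push V p) χ))
  have hc1 : ∀ χ, ‖c χ‖ = ‖ft (push P a) χ‖ * (m * ‖ft (push V p) χ‖) := fun χ => by
    simp only [c, norm_mul, norm_div, Complex.norm_natCast, Complex.norm_conj, hm]
    ring
  have h1 : ∑ χ : ZMod M, (m * ‖ft (push V p) χ‖) ^ 2 = m * r ^ 2 := by
    simp only [mul_pow, ← mul_sum]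
    rw [← parseval, push_sq hVM, hr, expect_eq_sum_div_card, hm]
    field_simp
  have h2 : m * ∑ χ : ZMod M, ‖ft (push P a) χ‖ ^ 2 ≤ 2 := by
    have h3 : ∑ z ∈ P, ‖a z‖ ^ 2 ≤ P.card := by
      simpa using sum_le_card_nsmul P _ 1 fun z _ => pow_le_one₀ (norm_nonneg _) (ha z) (n := 2)
    rw [← parseval, push_sq hP, hm, div_mul_div_cancel₀' hM.ne', div_le_iff₀ hV0]
    exact h3.trans hc
  have h3 : (∑ χ, ‖c χ‖) ^ 2 ≤ 2 * r ^ 2 := by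
    simp only [hc1]
    refine (sum_mul_sq_le_sq_mul_sq _ _ _).trans ?_
    rw [h1, ← mul_assoc, mul_comm _ m]
    exact mul_le_mul_of_nonneg_right h2 (sq_nonneg r)
  have h4 : ∀ χ, ∑ ξ ∈ Spec, ‖c (χ + ξ)‖ ≤ α * r := fun χ => by
    refine le_of_sq_le_sq ?_ (mul_nonneg hα hr0)
    simp only [hc1]
    refine (sum_mul_sq_le_sq_mul_sq _ _ _).trans ?_
    have h5 : ∑ ξ ∈ Spec, (m * ‖ft (push V p) (χ + ξ)‖) ^ 2 ≤ m * r ^ 2 := by
      rw [← h1, ← Equiv.sum_comp (Equiv.addLeft χ)]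
      exact sum_le_univ_sum_of_nonneg fun _ => sq_nonneg _
    refine (mul_le_mul_of_nonneg_left h5 (sum_nonneg fun _ _ => sq_nonneg _)).trans ?_
    rw [← mul_assoc, mul_comm _ m, mul_pow, hm]
    exact mul_le_mul_of_nonneg_right (h χ) (sq_nonneg r)
  have h5 : ∀ χ, ∑ ξ, ‖c (χ + ξ)‖ * ‖mu S (ch ξ)‖ ≤ α * r + η * ∑ χ, ‖c χ‖ := fun χ => by
    rw [← sum_add_sum_compl Spec, ← Equiv.sum_comp (Equiv.addLeft χ), mul_sum]
    refine add_le_add ((sum_le_sum fun ξ _ =>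
      mul_le_of_le_one_right (norm_nonneg _) (norm_mu_le _ _)).trans (h4 χ))
      ((sum_le_sum fun ξ hξ => ?_).trans
        (sum_le_univ_sum_of_nonneg fun _ => mul_nonneg hη (norm_nonneg _)))
    rw [mul_comm]
    exact mul_le_mul_of_nonneg_right (hSp ξ (mem_compl.1 hξ)) (norm_nonneg _)
  have h6 : ∑ χ, ‖c χ‖ ≤ 2 * r := le_of_sq_le_sq (by nlinarith [sq_nonneg r]) (by positivity)
  rw [expect_congr rfl (g := fun h' : ℤ => ‖∑ χ, c χ * e (ch (χ * (h' : ZMod M)))‖ ^ 2)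
    fun h' hh => by
      rw [← corr_push _ hV]
      exact congrArg (‖·‖ ^ 2) (expect_congr rfl fun v hv => by
        rw [← Int.cast_add, push_apply hP a (hs h' hh v hv)]), ← hr]
  refine (llarge_mean S c).trans ((sum_le_sum fun χ _ =>
    mul_le_mul_of_nonneg_left (h5 χ) (norm_nonneg _)).trans ?_)
  rw [← sum_mul]
  nlinarith [mul_le_mul_of_nonneg_left h3 hη, mul_le_mul_of_nonneg_left h6 (mul_nonneg hα hr0)]

/-- For each `y` let `(lab y, χ y)` maximise the spectral mass over `L ×ˢ univ` (`L` is nonempty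
because `κ > 0`) and let `α y` be the square root of the maximum. `large_one` gives
`κ / 32 ≤ 𝔼 y, (κ / 320 + 2 α y) * 5`, so `𝔼 α ≥ κ / 640`; `expect_sq_le`. -/
theorem large_all {S V P : Finset ℤ} (hS : S.Nonempty) (hV : V.Nonempty)
    (hVM : ∀ p ∈ V, 2 * |p| < M) (hP : ∀ p ∈ P, 2 * |p| < M)
    (hs : ∀ h' ∈ S, ∀ v ∈ V, h' + v ∈ P) (hc : (P.card : ℝ) ≤ 2 * V.card) {ι : Type*}
    (L : Finset ι) (a p : ZMod M → ι → ℤ → ℂ) (ha : ∀ y l z, ‖a y l z‖ ≤ 1)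
    (Spec : Finset (ZMod M)) {κ : ℝ} (hκ : 0 < κ) (hSp : ∀ ξ ∉ Spec, ‖mu S (ch ξ)‖ ≤ κ / 640)
    (hp : ∀ y, ∑ l ∈ L, 𝔼 v ∈ V, ‖p y l v‖ ^ 2 ≤ 5)
    (h : ∀ h' ∈ S, κ / 32 ≤ 𝔼 y : ZMod M, ∑ l ∈ L,
      ‖𝔼 v ∈ V, a y l (h' + v) * conj (p y l v)‖ ^ 2) :
    ∃ (lab : ZMod M → ι) (χ : ZMod M → ZMod M), (∀ y, lab y ∈ L) ∧
      κ ^ 2 / 409600 ≤ 𝔼 y : ZMod M,
        (M : ℝ) / V.card * ∑ ξ ∈ Spec, ‖ft (push P (a y (lab y))) (χ y + ξ)‖ ^ 2 := by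
  obtain ⟨h0, hh0⟩ := id hS
  have hL : L.Nonempty := by
    rcases L.eq_empty_or_nonempty with rfl | hL
    · have := h h0 hh0
      simp only [sum_empty, expect_const_zero] at this
      linarith
    · exact hL
  choose z hz1 hz2 using fun y => exists_max_image (L ×ˢ (univ : Finset (ZMod M)))
    (fun z => (M : ℝ) / V.card * ∑ ξ ∈ Spec, ‖ft (push P (a y z.1)) (z.2 + ξ)‖ ^ 2)
    (hL.product univ_nonempty)
  choose α hα0 hα using fun y => (⟨_, sqrt_nonneg _, sq_sqrt (by positivity)⟩ : ∃ r : ℝ, 0 ≤ r ∧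
    r ^ 2 = (M : ℝ) / V.card * ∑ ξ ∈ Spec, ‖ft (push P (a y (z y).1)) ((z y).2 + ξ)‖ ^ 2)
  refine ⟨fun y => (z y).1, fun y => (z y).2, fun y => (mem_product.1 (hz1 y)).1, ?_⟩
  have h1 : κ / 32 ≤ 𝔼 y, (κ / 64 + 10 * α y) := by
    refine (le_expect hS h).trans ?_
    rw [expect_comm]
    refine expect_le_expect fun y _ => ?_
    rw [expect_sum_comm]
    refine (sum_le_sum fun l hl => large_one hS hV hVM hP hs hc _ _ (ha y l) Spec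
      (by positivity) (hα0 y) hSp fun χ => (hα y).symm ▸
        hz2 y (l, χ) (mem_product.2 ⟨hl, mem_univ _⟩)).trans ?_
    rw [← mul_sum]
    have := hα0 y
    exact (mul_le_mul_of_nonneg_left (hp y) (by positivity)).trans_eq (by ring)
  rw [expect_add_distrib, expect_const univ_nonempty, ← mul_expect] at h1
  simp only [← hα]
  refine le_trans ?_ (expect_sq_le _ _)
  nlinarith

end Pool.Agent.TR
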