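import Pool.Agent.Lib.MP_cc859a_an.TR.LBas

open Finset Real
open scoped BigOperators ComplexConjugate

namespace Pool.Agent.TR

variable {M : ℕ} [NeZero M]

/-- Removing one coefficient lowers the energy by its square. -/
theorem lpurs_step {V : Finset ℤ} (hV : V.Nonempty) (f : ℤ → ℂ) (θ : T) {c : ℂ}
    (hc : c = 𝔼 v ∈ V, f v * e (-(v • θ))) :
    𝔼 v ∈ V, ‖f v - c * e (v • θ)‖ ^ 2 = 𝔼 v ∈ V, ‖f v‖ ^ 2 - ‖c‖ ^ 2 := by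
  have h1 : ∀ v : ℤ, ‖f v - c * e (v • θ)‖ ^ 2 =
      ‖f v‖ ^ 2 + ‖c‖ ^ 2 - 2 * (f v * e (-(v • θ)) * conj c).re := fun v => by
    rw [← Complex.normSq_eq_norm_sq, Complex.normSq_sub, Complex.normSq_eq_norm_sq,
      Complex.normSq_eq_norm_sq, norm_mul, norm_e, mul_one, map_mul, e_neg, mul_assoc,
      mul_comm (conj c)]
  have h2 : 𝔼 v ∈ V, (f v * e (-(v • θ)) * conj c).re = ‖c‖ ^ 2 := by
    rw [← Complex.re_expect, ← expect_mul, ← hc, Complex.mul_conj, Complex.ofReal_re,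
      Complex.normSq_eq_norm_sq]
  rw [expect_congr rfl fun v _ => h1 v, expect_sub_distrib, expect_add_distrib, ← mul_expect, h2,
    expect_const hV]
  ring

/-- The pursuit stops after at most `n` steps. -/
theorem lpurs_ind {V : Finset ℤ} (hV : V.Nonempty) {τ : ℝ} (hτ : 0 < τ) (n : ℕ) :
    ∀ f : ℤ → ℂ, 𝔼 v ∈ V, ‖f v‖ ^ 2 < n * τ ^ 2 → ∃ a : ZMod M → ℂ,
      τ * ∑ ξ, ‖a ξ‖ ≤ 𝔼 v ∈ V, ‖f v‖ ^ 2 - 𝔼 v ∈ V, ‖f v - ∑ ξ, a ξ * e (v • ch ξ)‖ ^ 2 ∧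
      ∀ χ : ZMod M, ‖𝔼 v ∈ V, (f v - ∑ ξ, a ξ * e (v • ch ξ)) * e (-(v • ch χ))‖ ≤ τ := by
  induction n with
  | zero =>
    intro f hf
    have : 0 ≤ 𝔼 v ∈ V, ‖f v‖ ^ 2 := expect_nonneg fun _ _ => by positivity
    rw [Nat.cast_zero, zero_mul] at hf
    linarith
  | succ n ih =>
    intro f hf
    by_cases h : ∀ χ : ZMod M, ‖𝔼 v ∈ V, f v * e (-(v • ch χ))‖ ≤ τ
    · exact ⟨0, by simp, fun χ => by simpa using h χ⟩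
    obtain ⟨ξ₀, h0⟩ := not_forall.1 h
    obtain ⟨c, hc⟩ : ∃ c, c = 𝔼 v ∈ V, f v * e (-(v • ch ξ₀)) := ⟨_, rfl⟩
    rw [← hc, not_le] at h0
    have h1 := lpurs_step hV f (ch ξ₀) hc
    obtain ⟨a, h2, h3⟩ := ih (fun v => f v - c * e (v • ch ξ₀)) (by
      rw [h1]
      push_cast at hf
      nlinarith)
    have h4 : ∀ v : ℤ, f v - ∑ ξ, (a + Pi.single ξ₀ c : ZMod M → ℂ) ξ * e (v • ch ξ) =
        f v - c * e (v • ch ξ₀) - ∑ ξ, a ξ * e (v • ch ξ) := fun v => by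
      simp only [Pi.add_apply, add_mul, sum_add_distrib, Pi.single_apply, ite_mul, zero_mul,
        sum_ite_eq', mem_univ, if_true]
      ring
    have h5 : ∑ ξ, ‖(a + Pi.single ξ₀ c : ZMod M → ℂ) ξ‖ ≤ ∑ ξ, ‖a ξ‖ + ‖c‖ := by
      refine (sum_le_sum fun ξ _ => norm_add_le _ _).trans (le_of_eq ?_)
      rw [sum_add_distrib, add_right_inj, sum_eq_single ξ₀ (fun ξ _ hξ => by simp [hξ])
        (by simp), Pi.single_eq_same]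
    refine ⟨a + Pi.single ξ₀ c, ?_, fun χ => ?_⟩
    · simp only [h4]
      rw [h1] at h2
      nlinarith [mul_le_mul_of_nonneg_left h5 hτ.le, norm_nonneg c]
    · simp only [h4]
      exact h3 χ

/-- Paper D7, greedy pursuit. Prove by induction on `n`, for all `f` with
`𝔼 ‖f‖ ^ 2 ≤ n τ ^ 2`, the stronger claim `τ ∑ ‖a ξ‖ ≤ 𝔼 ‖f‖ ^ 2 - 𝔼 ‖f - P‖ ^ 2`. If all
coefficients of `f` are at most `τ` take `a = 0`. Else, with `c = 𝔼 f e (-(v • ch ξ₀))`, `‖c‖ > τ`,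
the function `f₁ = f - c e (v • ch ξ₀)` has `𝔼 ‖f₁‖ ^ 2 = 𝔼 ‖f‖ ^ 2 - ‖c‖ ^ 2`; add `c` at `ξ₀`. -/
theorem pursuit {V : Finset ℤ} (hV : V.Nonempty) (f : ℤ → ℂ) (hf : ∀ v, ‖f v‖ ≤ 1) {τ : ℝ}
    (hτ : 0 < τ) : ∃ a : ZMod M → ℂ, τ * ∑ ξ, ‖a ξ‖ ≤ 1 ∧
      (∀ χ : ZMod M, ‖𝔼 v ∈ V, (f v - ∑ ξ, a ξ * e (v • ch ξ)) * e (-(v • ch χ))‖ ≤ τ) ∧
      𝔼 v ∈ V, ‖f v - ∑ ξ, a ξ * e (v • ch ξ)‖ ^ 2 ≤ 𝔼 v ∈ V, ‖f v‖ ^ 2 := by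
  obtain ⟨n, hn⟩ := exists_nat_gt (1 / τ ^ 2)
  rw [div_lt_iff₀ (by positivity)] at hn
  have h1 : 𝔼 v ∈ V, ‖f v‖ ^ 2 ≤ 1 :=
    expect_le hV fun v _ => pow_le_one₀ (norm_nonneg _) (hf v)
  obtain ⟨a, h2, h3⟩ := lpurs_ind (M := M) hV hτ n f (h1.trans_lt hn)
  have h4 : 0 ≤ 𝔼 v ∈ V, ‖f v - ∑ ξ, a ξ * e (v • ch ξ)‖ ^ 2 :=
    expect_nonneg fun _ _ => by positivity
  have h5 : 0 ≤ τ * ∑ ξ, ‖a ξ‖ := by positivity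
  exact ⟨a, by linarith, h3, by linarith⟩

end Pool.Agent.TR
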