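import Pool.Agent.Lib.MP_cc859a_an.TR.LWrap

open Finset Real
open scoped BigOperators ComplexConjugate

namespace Pool.Agent.TR

/-- Pigeonhole: `Ico 0 L` is covered by at most `L / l + 1` intervals of length `l`. -/
theorem red_interval {L l : ℕ} (hl : 0 < l) (A : Finset ℤ) (hA : A ⊆ Ico (0 : ℤ) L) :
    ∃ x₀ : ℤ, (A.card : ℝ) ≤ ((L : ℝ) / l + 1) * (A.filter (· ∈ Ico x₀ (x₀ + l))).card := by
  have hl' : (0 : ℤ) < l := by exact_mod_cast hl
  obtain ⟨k, -, hk⟩ := exists_max_image (range (L / l + 1))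
    (fun k : ℕ => (A.filter (· ∈ Ico ((k : ℤ) * l) (k * l + l))).card) ⟨0, by simp⟩
  refine ⟨k * l, ?_⟩
  have hsub : A ⊆ (range (L / l + 1)).biUnion
      fun k : ℕ => A.filter (· ∈ Ico ((k : ℤ) * l) (k * l + l)) := by
    intro x hx
    have hx' := mem_Ico.1 (hA hx)
    obtain ⟨m, rfl⟩ := Int.eq_ofNat_of_zero_le hx'.1
    have hm : m < L := by exact_mod_cast hx'.2
    refine mem_biUnion.2 ⟨m / l, mem_range.2 (Nat.lt_succ_of_le (Nat.div_le_div_right hm.le)),
      mem_filter.2 ⟨hx, mem_Ico.2 ⟨?_, ?_⟩⟩⟩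
    · exact_mod_cast Nat.div_mul_le_self m l
    · exact_mod_cast Nat.lt_div_mul_add hl
  have h1 : A.card ≤ (L / l + 1) * (A.filter (· ∈ Ico ((k : ℤ) * l) (k * l + l))).card := by
    refine (card_le_card hsub).trans (card_biUnion_le.trans ?_)
    refine (sum_le_card_nsmul _ _ _ hk).trans ?_
    simp
  have h2 : ((L / l + 1 : ℕ) : ℝ) ≤ (L : ℝ) / l + 1 := by
    push_cast
    linarith [Nat.cast_div_le (α := ℝ) (m := L) (n := l)]
  calc (A.card : ℝ) ≤ ((L / l + 1 : ℕ) : ℝ) *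
        (A.filter (· ∈ Ico ((k : ℤ) * l) (k * l + l))).card := by exact_mod_cast h1
    _ ≤ _ := by gcongr

theorem lred_term (u : Fin 3 → ℤ → ℂ) (a : Fin 3) (p : ℤ → Prop) [DecidablePred p] (x n : ℤ) :
    (Function.update u a fun y => if p y then u a y else 0) 0 (x + n) *
      (Function.update u a fun y => if p y then u a y else 0) 1 (x + 2 * n) *
      (Function.update u a fun y => if p y then u a y else 0) 2 (x + 3 * n) =
      if p (x + ((a : ℕ) + 1 : ℤ) * n) then u 0 (x + n) * u 1 (x + 2 * n) * u 2 (x + 3 * n)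
      else 0 := by
  fin_cases a
  · simp
  · have : ((1 : ℤ) + 1) = 2 := by norm_num
    simp [this]
  · have : ((2 : ℤ) + 1) = 3 := by norm_num
    simp [this]

theorem lred_norm {u : Fin 3 → ℤ → ℂ} (hu : ∀ σ y, ‖u σ y‖ ≤ 1) (x y z : ℤ) :
    ‖u 0 x * u 1 y * u 2 z‖ ≤ 1 := by
  rw [norm_mul, norm_mul]
  exact mul_le_one₀ (mul_le_one₀ (hu _ _) (norm_nonneg _) (hu _ _)) (norm_nonneg _) (hu _ _)

/-- Cutting the slot `a` to the window `Ioc (x₀ + l - 1) (x₀ + (a + 1) N)` removes at most `l - 1`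
terms: those with `(a + 1) n ≤ x₀ + l - 1 - x` and those with `(a + 1) (N - n) < x - x₀`. -/
theorem red_cut {N l : ℕ} (hN : 0 < N) (u : Fin 3 → ℤ → ℂ) (hu : ∀ σ y, ‖u σ y‖ ≤ 1) (a : Fin 3)
    {x₀ x : ℤ} (hx : x ∈ Ico x₀ (x₀ + l)) :
    ‖Av N u x - Av N (Function.update u a fun y =>
      if y ∈ Ioc (x₀ + l - 1) (x₀ + ((a : ℕ) + 1 : ℤ) * N) then u a y else 0) x‖ ≤
        ((l : ℝ) - 1) / N := by
  have hx' := mem_Ico.1 hx
  have hN' : (0 : ℝ) < N := by exact_mod_cast hN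
  unfold Av
  simp only [lred_term u a (fun y => y ∈ Ioc (x₀ + l - 1) (x₀ + ((a : ℕ) + 1 : ℤ) * N))]
  rw [← expect_sub_distrib]
  refine (norm_expect_le_expect _ _).trans ?_
  rw [expect_eq_sum_div_card]
  have hc : ((Icc (1 : ℤ) N).card : ℝ) = N := by simp
  rw [hc]
  gcongr
  set B : Finset ℤ := Icc 1 (x₀ + l - 1 - x) ∪ Ioc (N - (x - x₀)) N with hB
  have hBc : (B.card : ℝ) ≤ (l : ℝ) - 1 := by
    have h1 : (B.card : ℤ) ≤ l - 1 := by
      have := card_union_le (Icc 1 (x₀ + l - 1 - x)) (Ioc (N - (x - x₀)) (N : ℤ))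
      rw [Int.card_Icc, Int.card_Ioc, ← hB] at this
      omega
    exact_mod_cast h1
  calc _ ≤ ∑ n ∈ Icc (1 : ℤ) N, (if n ∈ B then (1 : ℝ) else 0) := by
        refine sum_le_sum fun n hn => ?_
        have hn' := mem_Icc.1 hn
        split_ifs with h1 h2 h2
        · simp
        · simp
        · simpa using lred_norm hu _ _ _
        · exfalso
          apply h1
          simp only [hB, mem_union, mem_Icc, mem_Ioc, not_or, not_and, not_le] at h2
          have ha : (0 : ℤ) ≤ (a : ℕ) := Int.natCast_nonneg _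
          have h3 := h2.1 hn'.1
          have h4 : n ≤ N - (x - x₀) := by
            by_contra h5
            exact absurd (h2.2 (not_le.1 h5)) (not_lt.2 hn'.2)
          refine mem_Ioc.2 ⟨?_, ?_⟩ <;> nlinarith
    _ = ((Icc (1 : ℤ) N).filter (· ∈ B)).card := by rw [sum_boole]
    _ ≤ B.card := by
        exact_mod_cast card_le_card fun n hn => (mem_filter.1 hn).2
    _ ≤ _ := hBc

/-- Paper D0. `l = ⌊N / (2 Z)⌋₊ + 1`, so `L / l + 1 ≤ 2 Z + 1 ≤ 3 Z` and `(l - 1) / N ≤ 1 / (2 Z)`;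
`a = 1` if `s = 0` and `a = 0` otherwise; `U σ` is `push` of the cut functions, `E` the image of
the points of `A` in the short interval; `wrap` and `N / (30 L + 1) ≥ 1 / 31`. -/
theorem reduce {Z : ℝ} (hZ : 2 ≤ Z) {L N : ℕ} (hL : 0 < L) (hLN : L ≤ N) (hN : N ≤ 2 * L)
    (u : Fin 3 → ℤ → ℂ) (hu : ∀ σ y, ‖u σ y‖ ≤ 1) (s : Fin 3) (A : Finset ℤ)
    (hA : A ⊆ Ico (0 : ℤ) L) (h : ∀ x ∈ A, 1 / Z ≤ ‖Av N u x‖) :
    ∃ (U : Fin 3 → ZMod (30 * L + 1) → ℂ) (E : Finset (ZMod (30 * L + 1))),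
      (∀ σ y, ‖U σ y‖ ≤ 1) ∧ U s = push (Ico (0 : ℤ) (7 * L)) (u s) ∧
      (A.card : ℝ) ≤ 3 * Z * E.card ∧
      ∀ x ∈ E, 1 / (62 * Z) ≤ ‖𝔼 n, U 0 (x + n) * U 1 (x + 2 * n) * U 2 (x + 3 * n)‖ := by
  have hN0 : 0 < N := hL.trans_le hLN
  have hN' : (0 : ℝ) < N := by exact_mod_cast hN0
  have hL' : (1 : ℝ) ≤ L := by exact_mod_cast hL
  have hLN' : (L : ℝ) ≤ N := by exact_mod_cast hLN
  have hZ0 : 0 < Z := by linarith
  set l : ℕ := ⌊(N : ℝ) / (2 * Z)⌋₊ + 1 with hl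
  have hl0 : 0 < l := Nat.succ_pos _
  have hl0' : (0 : ℝ) < l := by exact_mod_cast hl0
  have hl1 : (N : ℝ) / (2 * Z) < l := by
    rw [hl]; push_cast; exact Nat.lt_floor_add_one _
  have hl2 : (l : ℝ) - 1 ≤ (N : ℝ) / (2 * Z) := by
    rw [hl]; push_cast
    linarith [Nat.floor_le (a := (N : ℝ) / (2 * Z)) (by positivity)]
  obtain ⟨a, has, ha2⟩ : ∃ a : Fin 3, s ≠ a ∧ a ≠ 2 := by
    by_cases hs : s = 0
    · exact ⟨1, by simp [hs], by simp⟩
    · exact ⟨0, hs, by simp⟩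
  obtain ⟨x₀, hx₀⟩ := red_interval hl0 A hA
  set u' := Function.update u a fun y =>
    if y ∈ Ioc (x₀ + l - 1) (x₀ + ((a : ℕ) + 1 : ℤ) * N) then u a y else 0 with hu'
  have hu1 : ∀ σ y, ‖u' σ y‖ ≤ 1 := by
    intro σ y
    by_cases hσ : σ = a
    · subst hσ
      simp only [hu', Function.update_self]
      split_ifs
      · exact hu _ _
      · simp
    · simp only [hu', Function.update_of_ne hσ]
      exact hu _ _
  refine ⟨fun σ => push (Ico (0 : ℤ) (7 * L)) (u' σ),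
    (A.filter (· ∈ Ico x₀ (x₀ + l))).image fun p : ℤ => (p : ZMod (30 * L + 1)), ?_, ?_, ?_, ?_⟩
  · intro σ y
    refine norm_push_le (fun p hp => ?_) (fun p _ => hu1 σ p) y
    have := mem_Ico.1 hp
    rw [abs_of_nonneg this.1]
    push_cast
    omega
  · simp only [hu', Function.update_of_ne has]
  · rw [card_image_cast]
    · refine hx₀.trans ?_
      gcongr
      have : (L : ℝ) / l ≤ 2 * Z := by
        rw [div_le_iff₀ hl0']
        rw [div_lt_iff₀ (by positivity)] at hl1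
        linarith
      linarith
    · intro p hp
      have := mem_Ico.1 (hA (mem_filter.1 hp).1)
      rw [abs_of_nonneg this.1]
      push_cast
      omega
  · intro x hx
    obtain ⟨y, hy, rfl⟩ := mem_image.1 hx
    obtain ⟨hyA, hyI⟩ := mem_filter.1 hy
    have hyI' := mem_Ico.1 hyI
    have hw := wrap hL hN hN0 u' (hA hyA) a ha2 (by
      intro n hn
      simp only [hu', Function.update_self] at hn
      have h1 : y + ((a : ℕ) + 1 : ℤ) * n ∈ Ioc (x₀ + l - 1) (x₀ + ((a : ℕ) + 1 : ℤ) * N) := by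
        by_contra h2
        exact hn (if_neg h2)
      have h2 := mem_Ioc.1 h1
      have ha : (0 : ℤ) ≤ (a : ℕ) := Int.natCast_nonneg _
      refine mem_Icc.2 ⟨?_, ?_⟩
      · by_contra h3
        have : n ≤ 0 := by omega
        nlinarith
      · by_contra h3
        have : (N : ℤ) + 1 ≤ n := by omega
        nlinarith)
    simp only []
    rw [hw, norm_mul, norm_div]
    have hc := red_cut hN0 u hu a hyI
    have h1 : 1 / (2 * Z) ≤ ‖Av N u' y‖ := by
      have h2 := h y hyA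
      have h3 : ((l : ℝ) - 1) / N ≤ 1 / (2 * Z) := by
        rw [div_le_iff₀ hN']
        refine hl2.trans (le_of_eq ?_)
        ring
      have h4 := norm_sub_norm_le (Av N u y) (Av N u' y)
      have h5 : 1 / Z = 1 / (2 * Z) + 1 / (2 * Z) := by field_simp; norm_num
      linarith
    have h2 : (1 : ℝ) / 31 ≤ ‖(N : ℂ)‖ / ‖(30 * L + 1 : ℂ)‖ := by
      have : (30 * L + 1 : ℂ) = ((30 * L + 1 : ℕ) : ℂ) := by push_cast; ring
      rw [this, Complex.norm_natCast, Complex.norm_natCast, div_le_div_iff₀ (by norm_num)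
        (by positivity)]
      push_cast
      linarith
    calc 1 / (62 * Z) = 1 / 31 * (1 / (2 * Z)) := by field_simp; norm_num
      _ ≤ _ := by gcongr

/-- The case of short lengths: the Bohr set is `{0}` and the phase of `u s` is an atom
(`exists_phase`, labels `0`). One point `x` gives `∑ n ∈ Icc 1 N, ‖u s (x + (s + 1) n)‖ ≥ N / Z`,
and these points are different points of `star L i`. -/
theorem lit_small {Z : ℝ} (hZ : 2 ≤ Z) {L N : ℕ} (i : ℤ) (hL : 0 < L) (hLN : L ≤ N)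
    (hN : N ≤ 2 * L) (u : Fin 3 → ℤ → ℂ) (hu : ∀ σ y, ‖u σ y‖ ≤ 1) (s : Fin 3) {x : ℤ}
    (hx : x ∈ node L i) (h : 1 / Z ≤ ‖Av N u x‖) {δ n η : ℝ} (hn : n < 1) (hη : 0 ≤ η) :
    ∃ a : Atom, IsAtom ⟨∅, ∅, δ, n, 0, ∅⟩ 0 η a ∧ (∀ y ∉ star L i, a.γ y = 0) ∧
      (L : ℝ) / Z ≤ ∑ y ∈ star L i, (u s y * conj (a.γ y)).re := by
  have hN0 : 0 < N := hL.trans_le hLN
  have hN' : (0 : ℝ) < N := by exact_mod_cast hN0
  have hLN' : (L : ℝ) ≤ N := by exact_mod_cast hLN
  have hZ0 : 0 < Z := by linarith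
  choose ω hω1 hω2 using exists_phase
  refine ⟨⟨fun y => if y ∈ star L i then ω (u s y) else 0, fun _ => 0, fun _ => 0⟩,
    ⟨?_, fun _ => Sp_zero_mem, fun _ _ _ _ => rfl, fun _ _ _ _ => by simp, ?_⟩, ?_, ?_⟩
  · intro y
    dsimp only
    split_ifs
    · exact (hω1 _).le
    · simp
  · intro y _ w hw
    have h1 : |(w : ℝ)| ≤ n := (mem_Bohr.1 hw).1
    have h2 : |w| < 1 := by exact_mod_cast h1.trans_lt hn
    have h3 : w = 0 := Int.abs_lt_one_iff.1 h2
    subst h3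
    simpa [e_zero] using hη
  · intro y hy
    exact if_neg hy
  · have h1 : ∑ y ∈ star L i, (u s y * conj (if y ∈ star L i then ω (u s y) else 0)).re =
        ∑ y ∈ star L i, ‖u s y‖ := by
      refine sum_congr rfl fun y hy => ?_
      rw [if_pos hy, hω2, Complex.ofReal_re]
    dsimp only
    rw [h1]
    have hs0 : (0 : ℤ) ≤ (s : ℕ) := Int.natCast_nonneg _
    have hs2 : ((s : ℕ) : ℤ) ≤ 2 := by have := s.2; omega
    have h2 : ∑ m ∈ Icc (1 : ℤ) N, ‖u s (x + ((s : ℕ) + 1 : ℤ) * m)‖ ≤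
        ∑ y ∈ star L i, ‖u s y‖ := by
      rw [← sum_image (s := Icc (1 : ℤ) N) (g := fun m => x + ((s : ℕ) + 1 : ℤ) * m)
        (f := fun y => ‖u s y‖)]
      · refine sum_le_sum_of_subset_of_nonneg (fun y hy => ?_) fun _ _ _ => norm_nonneg _
        obtain ⟨m, hm, rfl⟩ := mem_image.1 hy
        have hm' := mem_Icc.1 hm
        have hx' := mem_Ico.1 hx
        have hN2 : (N : ℤ) ≤ 2 * L := by exact_mod_cast hN
        refine mem_Ico.2 ⟨?_, ?_⟩ <;> nlinarith
      · intro m _ m' _ hmm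
        have h3 : ((s : ℕ) + 1 : ℤ) * m = ((s : ℕ) + 1 : ℤ) * m' := by simpa using hmm
        exact mul_left_cancel₀ (by omega) h3
    have h3 : ‖Av N u x‖ ≤ (∑ m ∈ Icc (1 : ℤ) N, ‖u s (x + ((s : ℕ) + 1 : ℤ) * m)‖) / N := by
      unfold Av
      refine (norm_expect_le_expect _ _).trans ?_
      rw [expect_eq_sum_div_card]
      have hc : ((Icc (1 : ℤ) N).card : ℝ) = N := by simp
      rw [hc]
      gcongr with m hm
      rw [norm_mul, norm_mul]
      have a0 := hu 0 (x + m)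
      have a1 := hu 1 (x + 2 * m)
      have a2 := hu 2 (x + 3 * m)
      have b0 := norm_nonneg (u 0 (x + m))
      have b1 := norm_nonneg (u 1 (x + 2 * m))
      have b2 := norm_nonneg (u 2 (x + 3 * m))
      fin_cases s
      · have : x + (((0 : ℕ) : ℤ) + 1) * m = x + m := by simp
        simp only [Fin.zero_eta, this]
        exact (mul_le_of_le_one_right (mul_nonneg b0 b1) a2).trans (mul_le_of_le_one_right b0 a1)
      · have : x + (((1 : ℕ) : ℤ) + 1) * m = x + 2 * m := by push_cast; ring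
        simp only [Fin.mk_one, this]
        nlinarith [mul_nonneg b0 b1]
      · have : x + (((2 : ℕ) : ℤ) + 1) * m = x + 3 * m := by push_cast; ring
        simp only [Fin.reduceFinMk, this]
        nlinarith [mul_le_one₀ a0 b1 a1]
    have h4 : (N : ℝ) / Z ≤ ∑ m ∈ Icc (1 : ℤ) N, ‖u s (x + ((s : ℕ) + 1 : ℤ) * m)‖ := by
      have h5 := h.trans h3
      rw [le_div_iff₀ hN'] at h5
      refine le_trans (le_of_eq ?_) h5
      ring
    calc (L : ℝ) / Z ≤ N / Z := by gcongr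
      _ ≤ _ := h4.trans h2

end Pool.Agent.TR
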