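import Pool.Agent.Lib.MP_cc859a_an.TR.LBas

open Finset Real
open scoped BigOperators ComplexConjugate

namespace Pool.Agent.TR

variable {M : ℕ} [NeZero M]

/-- Paper D7, small part. `A = push P a` has `A (h' + v) = a (h' + v)`. `corr_push` writes the
inner average as a trigonometric polynomial in `h'` with coefficients at most `τ ‖ft A χ‖`
(`ft_push`); `sum_cast_le`, `parseval_poly`, `parseval`, `push_sq`. -/
theorem small {V₁ V P : Finset ℤ} (hV : V.Nonempty) (h₁ : ∀ p ∈ V₁, 2 * |p| < M)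
    (hP : ∀ p ∈ P, 2 * |p| < M) (hs : ∀ h' ∈ V₁, ∀ v ∈ V, h' + v ∈ P) (a R : ℤ → ℂ)
    (ha : ∀ z, ‖a z‖ ≤ 1) {τ : ℝ} (hR : ∀ χ : ZMod M, ‖𝔼 v ∈ V, R v * e (-(v • ch χ))‖ ≤ τ) :
    ∑ h' ∈ V₁, ‖𝔼 v ∈ V, a (h' + v) * conj (R v)‖ ^ 2 ≤ τ ^ 2 * P.card := by
  have hM : (0 : ℝ) < M := Nat.cast_pos.2 (NeZero.pos M)
  have hM' : (M : ℂ) ≠ 0 := Nat.cast_ne_zero.2 (NeZero.ne M)
  have h1 := sum_cast_le h₁
    (fun r => ‖𝔼 v ∈ V, push P a (r + ((v : ℤ) : ZMod M)) * conj (R v)‖ ^ 2) fun _ => sq_nonneg _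
  have h2 : ∀ χ : ZMod M, ‖(M : ℂ) / V.card * (ft (push P a) χ * conj (ft (push V R) χ))‖ ^ 2 ≤
      τ ^ 2 * ‖ft (push P a) χ‖ ^ 2 := fun χ => by
    have e : (M : ℂ) / V.card * (ft (push P a) χ * conj (ft (push V R) χ)) =
        conj (𝔼 v ∈ V, R v * e (-(v • ch χ))) * ft (push P a) χ := by
      rw [ft_push V, expect_eq_sum_div_card, map_div₀, map_div₀, map_natCast, map_natCast]
      field_simp
    rw [e, norm_mul, RCLike.norm_conj, mul_pow]
    gcongr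
    exact hR χ
  have h3 := (parseval_poly _).trans_le (sum_le_sum fun χ _ => h2 χ)
  simp only [← corr_push _ hV] at h3
  rw [← mul_sum, ← parseval, push_sq hP, four_exp', ← mul_div_assoc,
    div_le_div_iff_of_pos_right hM] at h3
  refine (sum_congr rfl fun h' hh => ?_).trans_le (h1.trans (h3.trans
    (mul_le_mul_of_nonneg_left ((sum_le_card_nsmul _ _ 1 fun p _ =>
      pow_le_one₀ (norm_nonneg _) (ha p)).trans (by simp)) (sq_nonneg _))))
  rw [expect_congr rfl fun v hv => by rw [← push_apply hP a (hs h' hh v hv), Int.cast_add]]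

/-- `Loc.quad` for `(h', v)`: the two averages differ by the unimodular factor `e (h' • l h')`
up to `7 ε` (`norm_e_sub_e`). -/
theorem small_quad {g : ZMod M → ℂ} (hg : ∀ x, ‖g x‖ ≤ 1) {l : ℤ → T} {B V : Finset ℤ} {ε : ℝ}
    (hε : 0 ≤ ε) (hl : Loc l B ε) (hV : V ⊆ B) {h' : ℤ} (hh : h' ∈ B) (h y : ZMod M) :
    ‖𝔼 v ∈ V, dd (h + ((h' : ℤ) : ZMod M)) g (y + ((v : ℤ) : ZMod M)) *
        e (-(v • (2 : ℤ) • l h'))‖ ≤
      ‖𝔼 v ∈ V, Gq g l (y + h) (h' + v) * conj (Gq g l y v)‖ + 7 * ε := by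
  refine (norm_le_norm_add_norm_sub' _ (e (h' • l h') *
    𝔼 v ∈ V, Gq g l (y + h) (h' + v) * conj (Gq g l y v))).trans (add_le_add ?_ ?_)
  · rw [norm_mul, norm_e, one_mul]
  rw [mul_expect, ← expect_sub_distrib]
  refine norm_expect_le' _ _ (by positivity) fun v hv => ?_
  have e1 : e (h' • l h') * (Gq g l (y + h) (h' + v) * conj (Gq g l y v)) =
      dd (h + (h' : ZMod M)) g (y + v) * e (h' • l h' + -((h' + v) • l (h' + v)) + v • l v) := by
    rw [Gq, Gq, dd, map_mul, ← e_neg, neg_neg, e_add, e_add, Int.cast_add,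
      show y + h + (h' + v) = y + v + (h + h') by ring]
    ring
  rw [e1, ← mul_sub, norm_mul]
  refine (mul_le_of_le_one_left (norm_nonneg _) (norm_dd_le hg _ _)).trans
    ((norm_e_sub_e _ _).trans (mul_le_mul_of_nonneg_left
      (le_of_eq_of_le (congrArg _ ?_) (hl.quad hh (hV hv))) (by norm_num)))
  abel

end Pool.Agent.TR
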