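import Pool.Agent.Lib.MP_cc859a_an.TR.LPurs
import Pool.Agent.Lib.MP_cc859a_an.TR.LBess
import Pool.Agent.Lib.MP_cc859a_an.TR.LSmall

open Finset Real
open scoped BigOperators ComplexConjugate

namespace Pool.Agent.TR

variable {M : ℕ} [NeZero M]

/-- Paper D7. For each `y, l`, `pursuit` for `Gq g l y` gives `P y l`, and `bessel` the bound `5`.
With `R = Gq g l y - P y l`: `‖c‖ ≤ ‖cL‖ + ‖cS‖ + 7 ε` (`small_quad`), so
`‖c‖ ^ 2 ≤ 3 (‖cL‖ ^ 2 + ‖cS‖ ^ 2 + 49 ε ^ 2)`. By `small` with the set of `Reg.sumset` (at most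
`2 |V₁|` points), `∑ h' ∈ S, ∑ l, 𝔼 y, ‖cS‖ ^ 2 ≤ 2 K τ ^ 2 |V₁| ≤ κ |S| / 100`. So
`Φ h' = 𝔼 y, ∑ l, ‖cL‖ ^ 2 ≤ 5` (`expect_cs`) has mean at least `κ / 12 - 2 κ / 100 ≥ κ / 16` on
`S`; `popular`. -/
theorem split {W : Win M} {g : ZMod M → ℂ} (hg : ∀ x, ‖g x‖ ≤ 1) {Ls : Finset (ℤ → T)}
    {B₀ B : Finset ℤ} {κ η γ ζ R ε τ K : ℝ} (hW : W.OK g Ls B₀ κ η γ ζ R) (hB : B₀ ⊆ B)
    (hε : 0 ≤ ε) (hloc : ∀ l ∈ Ls, Loc l B ε) (hsm : ∀ p ∈ B₀, 4 * |p| < M) (hζ : ζ ≤ 1)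
    (hK : (Ls.card : ℝ) ≤ K) (hκ : 0 < κ) (hγ : 0 ≤ γ) (hτ : 0 < τ)
    (h₁ : 200 * K * τ ^ 2 ≤ κ * η) (h₂ : K ^ 2 * γ ≤ τ ^ 2) (h₃ : 4900 * K * ε ^ 2 ≤ κ) :
    ∃ (P : ZMod M → (ℤ → T) → ℤ → ℂ) (S' : Finset ℤ), S' ⊆ W.S ∧
      κ / 160 * W.S.card ≤ S'.card ∧ (∀ y, ∑ l ∈ W.L, 𝔼 v ∈ W.V, ‖P y l v‖ ^ 2 ≤ 5) ∧
      ∀ h' ∈ S', κ / 32 ≤ 𝔼 y : ZMod M, ∑ l ∈ W.L,
        ‖𝔼 v ∈ W.V, Gq g l (y + W.h) (h' + v) * conj (P y l v)‖ ^ 2 := by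
  have hV : W.V.Nonempty := hW.reg.1
  have hL : (W.L.card : ℝ) ≤ K := (Nat.cast_le.2 (card_le_card hW.L_sub)).trans hK
  have hL0 : (0 : ℝ) ≤ W.L.card := Nat.cast_nonneg _
  choose a a1 a2 a3 using fun (y : ZMod M) (l : ℤ → T) =>
    pursuit (M := M) hV (Gq g l y) (norm_Gq_le hg l y) hτ
  obtain ⟨P, hP⟩ : ∃ P : ZMod M → (ℤ → T) → ℤ → ℂ,
      ∀ y l v, ∑ ξ, a y l ξ * e (v • ch ξ) = P y l v := ⟨_, fun _ _ _ => rfl⟩
  have hb : ∀ y, ∑ l ∈ W.L, 𝔼 v ∈ W.V, ‖P y l v‖ ^ 2 ≤ 5 := fun y => by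
    have := bessel (V := W.V) (fun v => g (y + v)) (fun v => hg _) W.L (a y) hτ hγ
      (fun l _ => a1 y l) (fun l _ => a3 y l) hW.gauss
      ((mul_le_mul_of_nonneg_right (pow_le_pow_left₀ hL0 hL 2) hγ).trans h₂)
    simpa only [hP] using this
  simp only [hP] at a2
  obtain ⟨cL, hcL⟩ : ∃ cL : ZMod M → (ℤ → T) → ℤ → ℂ, ∀ y l h',
      𝔼 v ∈ W.V, Gq g l (y + W.h) (h' + v) * conj (P y l v) = cL y l h' := ⟨_, fun _ _ _ => rfl⟩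
  obtain ⟨cS, hcS⟩ : ∃ cS : ZMod M → (ℤ → T) → ℤ → ℂ, ∀ y l h',
      𝔼 v ∈ W.V, Gq g l (y + W.h) (h' + v) * conj (Gq g l y v - P y l v) = cS y l h' :=
    ⟨_, fun _ _ _ => rfl⟩
  have hsum : ∀ y l h', 𝔼 v ∈ W.V, Gq g l (y + W.h) (h' + v) * conj (Gq g l y v) =
      cL y l h' + cS y l h' := fun y l h' => by
    rw [← hcL, ← hcS, ← expect_add_distrib]
    exact expect_congr rfl fun v _ => by rw [map_sub]; ring
  have hΦ : ∀ h' ∈ W.S, 𝔼 y : ZMod M, ∑ l ∈ W.L, ‖cL y l h'‖ ^ 2 ≤ 5 := fun h' _ => by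
    refine expect_le univ_nonempty fun y _ => le_trans (sum_le_sum fun l _ => ?_) (hb y)
    rw [← hcL]
    refine (expect_cs _ _ _).trans ?_
    simp only [Complex.norm_conj]
    exact mul_le_of_le_one_left (expect_nonneg fun _ _ => sq_nonneg _)
      (expect_le hV fun v _ => pow_le_one₀ (norm_nonneg _) (norm_Gq_le hg _ _ _))
  have hlow : ∀ h' ∈ W.S, κ / 12 - κ / 100 - 𝔼 y : ZMod M, ∑ l ∈ W.L, ‖cS y l h'‖ ^ 2 ≤
      𝔼 y : ZMod M, ∑ l ∈ W.L, ‖cL y l h'‖ ^ 2 := fun h' hh => by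
    have h1 : κ / 4 ≤ ∑ l ∈ W.L, 𝔼 y : ZMod M,
        (3 * ‖cL y l h'‖ ^ 2 + 3 * ‖cS y l h'‖ ^ 2 + 147 * ε ^ 2) := by
      refine (hW.mass h' hh).trans (sum_le_sum fun l hl => expect_le_expect fun y _ => ?_)
      have h2 := small_quad hg hε (hloc l (hW.L_sub hl)) (hW.V_sub.trans hB)
        (hB (hW.V₁_sub (hW.S_sub hh))) W.h y
      rw [hsum] at h2
      refine (pow_le_pow_left₀ (norm_nonneg _)
        (h2.trans (add_le_add_left (norm_add_le _ _) _)) 2).trans ?_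
      nlinarith [sq_nonneg (‖cL y l h'‖ - ‖cS y l h'‖), sq_nonneg (‖cL y l h'‖ - 7 * ε),
        sq_nonneg (‖cS y l h'‖ - 7 * ε)]
    simp only [expect_add_distrib, ← mul_expect, Fintype.expect_const, sum_add_distrib, ← mul_sum,
      sum_const, nsmul_eq_mul] at h1
    rw [expect_sum_comm, expect_sum_comm]
    nlinarith [mul_le_mul_of_nonneg_right hL (sq_nonneg ε)]
  obtain ⟨Q, hQ, hQc⟩ := hW.reg₁.sumset 0
  have hsmall : ∀ y l, ∑ h' ∈ W.S, ‖cS y l h'‖ ^ 2 ≤ τ ^ 2 * (2 * W.V₁.card) := fun y l => by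
    refine (sum_le_sum_of_subset_of_nonneg hW.S_sub fun _ _ _ => sq_nonneg _).trans ?_
    simp only [← hcS]
    refine (small (M := M) (P := Q) hV (fun p hp => ?_) (fun p hp => ?_)
      (fun h' hh v hv => (hQ _).2 ⟨h', hh, v, hv, by rw [zero_add]⟩) _ _ (norm_Gq_le hg _ _)
      (a2 y l)).trans ?_
    · have := hsm p (hW.V₁_sub hp)
      have := abs_nonneg p
      omega
    · obtain ⟨v, hv, u, hu, rfl⟩ := (hQ p).1 hp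
      have := hsm v (hW.V₁_sub hv)
      have := hsm u (hW.V_sub hu)
      have := abs_add_le v u
      rw [zero_add]
      omega
    · refine mul_le_mul_of_nonneg_left (hQc.trans ?_) (sq_nonneg _)
      exact mul_le_mul_of_nonneg_right (by linarith) (Nat.cast_nonneg _)
  have hΨ : ∑ h' ∈ W.S, 𝔼 y : ZMod M, ∑ l ∈ W.L, ‖cS y l h'‖ ^ 2 ≤ κ / 100 * W.S.card := by
    rw [← expect_sum_comm]
    refine expect_le univ_nonempty fun y _ => ?_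
    rw [sum_comm]
    refine (sum_le_card_nsmul _ _ _ fun l _ => hsmall y l).trans ?_
    have h0 : (0 : ℝ) ≤ W.V₁.card := Nat.cast_nonneg _
    have h1 := mul_le_mul_of_nonneg_right hL (mul_nonneg (sq_nonneg τ) h0)
    have h2 := mul_le_mul_of_nonneg_right h₁ h0
    have h3 := mul_le_mul_of_nonneg_left hW.dens hκ.le
    rw [nsmul_eq_mul]
    nlinarith
  have hmean : κ / 16 * W.S.card ≤ ∑ h' ∈ W.S, 𝔼 y : ZMod M, ∑ l ∈ W.L, ‖cL y l h'‖ ^ 2 := by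
    refine le_trans ?_ (sum_le_sum hlow)
    rw [sum_sub_distrib, sum_const, nsmul_eq_mul]
    nlinarith [mul_nonneg hκ.le (Nat.cast_nonneg (α := ℝ) W.S.card)]
  obtain ⟨S', h1, h2, h3⟩ := popular W.S _ (by positivity) (by norm_num) hΦ hmean
  refine ⟨P, S', h1, by linarith, hb, fun h' hh => ?_⟩
  simp only [hcL]
  linarith [h3 h' hh]

end Pool.Agent.TR
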