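import Pool.Agent.Lib.MP_cc859a_an.TR.LBas

open Finset Real
open scoped BigOperators ComplexConjugate

namespace Pool.Agent.TR

/-- Paper D4, second Cauchy-Schwarz. With `D v v' = v' • m v - v • m v'`, Cauchy-Schwarz in `v'`
gives `η ^ 2 ≤ 𝔼 v₂, 𝔼 v, ‖K v₂ v‖`, `K v₂ v = 𝔼 v', e (D v v' - D v₂ v')`. Take the best `v₂` and
`A = {v | η ^ 2 / 2 ≤ ‖K v₂ v‖}` (`popular` with `B = 1`). `D v (v' + w) = D v v' + D v w`, so
`Reg.small` applies. -/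
theorem sym_cs2 {m : ℤ → T} {B V W : Finset ℤ} {ζ η : ℝ} (hm : LAdd m B) (hV : V ⊆ B)
    (hW : W ⊆ B) (hR : Reg V W ζ) (hη : 0 < η) (G₁ G₂ : ℤ → ℂ) (h₁ : ∀ v, ‖G₁ v‖ ≤ 1)
    (h₂ : ∀ v, ‖G₂ v‖ ≤ 1)
    (h : η ≤ ‖𝔼 v ∈ V, 𝔼 v' ∈ V, G₁ v * G₂ v' * e (v' • m v - v • m v')‖) :
    ∃ (v₂ : ℤ) (A : Finset ℤ), A ⊆ V ∧ η ^ 2 / 2 * V.card ≤ A.card ∧
      ∀ v ∈ A, ∀ w ∈ W, ‖(w • m v - v • m w) - (w • m v₂ - v₂ • m w)‖ ≤ ζ / η ^ 2 := by
  set D : ℤ → ℤ → T := fun v v' => v' • m v - v • m v' with hD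
  have h1 : 𝔼 v ∈ V, 𝔼 v' ∈ V, G₁ v * G₂ v' * e (v' • m v - v • m v') =
      𝔼 v' ∈ V, G₂ v' * 𝔼 v ∈ V, G₁ v * e (D v v') := by
    simp only [mul_expect]
    rw [expect_comm]
    exact expect_congr rfl fun v' _ => expect_congr rfl fun v _ => by rw [hD]; ring
  have h2 : η ^ 2 ≤ 𝔼 v' ∈ V, ‖𝔼 v ∈ V, G₁ v * e (D v v')‖ ^ 2 := by
    rw [h1] at h
    exact (pow_le_pow_left₀ hη.le h 2).trans ((expect_cs V _ _).trans
      (mul_le_of_le_one_left (expect_nonneg fun _ _ => sq_nonneg _) (regl_one V h₂)))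
  have h3 : ((𝔼 v' ∈ V, ‖𝔼 v ∈ V, G₁ v * e (D v v')‖ ^ 2 : ℝ) : ℂ) =
      𝔼 v₂ ∈ V, 𝔼 v ∈ V, G₁ v * conj (G₁ v₂) * 𝔼 v' ∈ V, e (D v v' - D v₂ v') := by
    rw [Complex.ofReal_expect]
    simp only [norm_expect_sq, mul_expect]
    refine (expect_comm _ _ _).trans ((expect_congr rfl fun v _ => expect_comm _ _ _).trans
      ((expect_comm _ _ _).trans ?_))
    refine expect_congr rfl fun v₂ _ => expect_congr rfl fun v _ => expect_congr rfl fun v' _ => ?_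
    rw [sub_eq_add_neg (D v v'), e_add, e_neg, map_mul]
    ring
  have h4 : η ^ 2 ≤ 𝔼 v₂ ∈ V, 𝔼 v ∈ V, ‖𝔼 v' ∈ V, e (D v v' - D v₂ v')‖ := by
    refine h2.trans ((le_abs_self _).trans ?_)
    rw [← Real.norm_eq_abs, ← Complex.norm_real, h3]
    refine (norm_expect_le_expect _ _).trans (expect_le_expect fun v₂ _ =>
      (norm_expect_le_expect _ _).trans (expect_le_expect fun v _ => ?_))
    rw [norm_mul, norm_mul, Complex.norm_conj]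
    exact mul_le_of_le_one_left (norm_nonneg _) (mul_le_one₀ (h₁ v) (norm_nonneg _) (h₁ v₂))
  obtain ⟨v₂, -, h5⟩ := exists_ge_expect hR.1 _ h4
  have hc : (0 : ℝ) < V.card := Nat.cast_pos.2 hR.1.card_pos
  rw [expect_eq_sum_div_card, le_div_iff₀ hc] at h5
  obtain ⟨A, hA, h6, h7⟩ := popular V _ (sq_nonneg η) one_pos
    (fun v _ => norm_expect_le' V _ zero_le_one fun _ _ => (norm_e _).le) h5
  refine ⟨v₂, A, hA, by simpa using h6, fun v hv w hw => ?_⟩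
  have h8 := hR.small hw (fun v' => e (D v v' - D v₂ v')) (fun _ => (norm_e _).le)
    (θ := D v w - D v₂ w) fun v' hv' => by
      rw [← e_add]
      simp only [hD, hm v' (hV hv') w (hW hw), add_smul, smul_add]
      congr 1
      abel
  rw [le_div_iff₀ (pow_pos hη 2)]
  nlinarith [mul_le_mul_of_nonneg_right (h7 v hv) (norm_nonneg (D v w - D v₂ w))]

end Pool.Agent.TR
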