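import Pool.Agent.Lib.MP_cc859a_an.TR.LBas

open Finset Real
open scoped BigOperators ComplexConjugate

namespace Pool.Agent.TR

variable {M : ℕ} [NeZero M]

theorem lsymc_ch (a : ZMod M) (v : ℤ) : ch (a * (v : ZMod M)) = v • ch a := by
  rw [ch, ch, ← map_zsmul, zsmul_eq_mul, mul_comm]

/-- `(v : ZMod M) ∈ ZB Λ ρ`, so `v ≡ a₁ + a₂ - a₃ - a₄` with `a i ∈ A`; the difference of the two
sides is at most `3 δ M / 4 < M` in absolute value, so they are equal. From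
`v + (a₃ + a₄) = a₁ + a₂` and additivity, `m v = m a₁ + m a₂ - m a₃ - m a₄`; the four copies of
`φ w` cancel. -/
theorem sym_four {m : ℤ → T} {Θ : Finset T} {δ ρ r : ℝ} (hδ : 0 ≤ δ) (hδ1 : δ ≤ 1)
    (hm : LAdd m (BM M Θ δ)) {A W : Finset ℤ} (hA : A ⊆ BM M Θ (δ / 8)) (φ : ℤ → T)
    (h : ∀ v ∈ A, ∀ w ∈ W, ‖(w • m v - v • m w) - φ w‖ ≤ r) {Λ : Finset (ZMod M)}
    (hΛ : ∀ x ∈ ZB Λ ρ, ∃ a₁ ∈ A, ∃ a₂ ∈ A, ∃ a₃ ∈ A, ∃ a₄ ∈ A,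
      x = ((a₁ : ℤ) : ZMod M) + ((a₂ : ℤ) : ZMod M) - ((a₃ : ℤ) : ZMod M) - ((a₄ : ℤ) : ZMod M))
    {v : ℤ} (hv : v ∈ BM M Θ (δ / 4)) (hv' : ∀ a ∈ Λ, ‖v • ch a‖ ≤ ρ) {w : ℤ} (hw : w ∈ W) :
    ‖w • m v - v • m w‖ ≤ 4 * r := by
  obtain ⟨a₁, h₁, a₂, h₂, a₃, h₃, a₄, h₄, e⟩ := hΛ (v : ZMod M)
    (mem_filter.2 ⟨mem_univ _, fun a ha => by rw [lsymc_ch]; exact hv' a ha⟩)
  have hM : (0 : ℝ) < M := by exact_mod_cast Nat.pos_of_ne_zero (NeZero.ne M)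
  have e1 : v + (a₃ + a₄) = a₁ + a₂ := by
    have h5 : ((v + (a₃ + a₄) - (a₁ + a₂) : ℤ) : ZMod M) = 0 := by
      push_cast
      linear_combination e
    refine sub_eq_zero.1 (Int.eq_zero_of_abs_lt_dvd
      ((ZMod.intCast_zmod_eq_zero_iff_dvd _ _).1 h5) ?_)
    have b0 := abs_le.1 (mem_Bohr.1 hv).1
    have b1 := abs_le.1 (mem_Bohr.1 (hA h₁)).1
    have b2 := abs_le.1 (mem_Bohr.1 (hA h₂)).1
    have b3 := abs_le.1 (mem_Bohr.1 (hA h₃)).1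
    have b4 := abs_le.1 (mem_Bohr.1 (hA h₄)).1
    have b5 := mul_le_mul_of_nonneg_right hδ1 hM.le
    have h6 : |((v + (a₃ + a₄) - (a₁ + a₂) : ℤ) : ℝ)| < M := by
      push_cast
      rw [abs_lt]
      constructor <;> linarith [b0.1, b0.2, b1.1, b1.2, b2.1, b2.2, b3.1, b3.2, b4.1, b4.2]
    exact_mod_cast h6
  have s8 : ∀ {a}, a ∈ A → a ∈ BM M Θ δ := fun ha => BM_mono Subset.rfl (by linarith) (hA ha)
  have e2 : m v + (m a₃ + m a₄) = m a₁ + m a₂ := by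
    rw [← hm _ (s8 h₁) _ (s8 h₂), ← hm _ (s8 h₃) _ (s8 h₄), ← e1,
      hm _ (BM_mono Subset.rfl (by linarith) hv) _
        (BM_mono Subset.rfl (by linarith) (BM_add (hA h₃) (hA h₄)))]
  have e3 : w • m v - v • m w = (w • m a₁ - a₁ • m w - φ w) + (w • m a₂ - a₂ • m w - φ w) -
      (w • m a₃ - a₃ • m w - φ w) - (w • m a₄ - a₄ • m w - φ w) := by
    rw [eq_sub_of_add_eq e2]
    conv_lhs => rw [eq_sub_of_add_eq e1]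
    module
  rw [e3]
  have n1 := norm_sub_le ((w • m a₁ - a₁ • m w - φ w) + (w • m a₂ - a₂ • m w - φ w) -
      (w • m a₃ - a₃ • m w - φ w)) (w • m a₄ - a₄ • m w - φ w)
  have n2 := norm_sub_le ((w • m a₁ - a₁ • m w - φ w) + (w • m a₂ - a₂ • m w - φ w))
      (w • m a₃ - a₃ • m w - φ w)
  have n3 := norm_add_le (w • m a₁ - a₁ • m w - φ w) (w • m a₂ - a₂ • m w - φ w)
  linarith [h _ h₁ w hw, h _ h₂ w hw, h _ h₃ w hw, h _ h₄ w hw]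

/-- Halving. `exists_halving` for `Θ₁`; `v = 2 v₁` with `v₁ ∈ BM M Θ₁ δ'`, so `v ∈ BM M Θ δ` and
`hf * l v = hf * (l v₁ + l v₁) = l v₁`; then
`w • ch (hf * l v) - v • ch (hf * l w) = 2 • (w₁ • ch (l v₁) - v₁ • ch (l w₁))`. -/
theorem sym_half {hf : ZMod M} (hhf : 2 * hf = 1) {l : ℤ → ZMod M} {Θ Θ₁ : Finset T}
    {δ δ' r : ℝ} (hΘ : Θ ⊆ Θ₁) (hδ0 : 0 ≤ δ') (hδ : 2 * δ' ≤ δ) (hδ' : δ' < 1 / 2)
    (hl : LAdd l (BM M Θ δ))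
    (h : ∀ v ∈ BM M Θ₁ δ', ∀ w ∈ BM M Θ₁ δ', ‖w • ch (l v) - v • ch (l w)‖ ≤ r) :
    ∃ Θ' : Finset T, Θ'.card ≤ Θ₁.card + 1 ∧
      Loc (fun v => ch (hf * l v)) (BM M Θ' δ') (2 * r) := by
  obtain ⟨Θ', h1, h2⟩ := exists_halving Θ₁
  have hN : 0 ≤ δ' * M := mul_nonneg hδ0 (Nat.cast_nonneg M)
  have key : ∀ v ∈ BM M Θ' δ', v ∈ BM M Θ δ ∧
      ∃ v₁ ∈ BM M Θ₁ δ', v = 2 * v₁ ∧ hf * l v = l v₁ := by
    intro v hv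
    obtain ⟨v₁, h3, rfl⟩ := h2 δ' _ hδ' v hv
    have h4 : v₁ ∈ BM M Θ₁ δ' := Bohr_mono Subset.rfl le_rfl (by linarith) h3
    have h5 : v₁ ∈ BM M Θ δ := BM_mono hΘ (by linarith) h4
    refine ⟨?_, v₁, h4, rfl, ?_⟩
    · rw [two_mul]
      exact BM_mono hΘ (by linarith) (BM_add h4 h4)
    · rw [two_mul, hl _ h5 _ h5]
      linear_combination l v₁ * hhf
  refine ⟨Θ', h1, fun v hv w hw => ?_, fun v hv w hw => ?_⟩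
  · simp only [hl _ (key v hv).1 _ (key w hw).1, mul_add, ch, map_add]
  · obtain ⟨-, v₁, a1, rfl, a2⟩ := key v hv
    obtain ⟨-, w₁, b1, rfl, b2⟩ := key w hw
    have e : (2 * w₁) • ch (l v₁) - (2 * v₁) • ch (l w₁) =
        (w₁ • ch (l v₁) - v₁ • ch (l w₁)) + (w₁ • ch (l v₁) - v₁ • ch (l w₁)) := by module
    simp only [a2, b2]
    rw [e]
    linarith [norm_add_le (w₁ • ch (l v₁) - v₁ • ch (l w₁)) (w₁ • ch (l v₁) - v₁ • ch (l w₁)),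
      h _ a1 _ b1]

end Pool.Agent.TR
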