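import Pool.Agent.Lib.MP_cc859a_an.TR.LSymA
import Pool.Agent.Lib.MP_cc859a_an.TR.LSymB
import Pool.Agent.Lib.MP_cc859a_an.TR.LSymC
import Pool.Agent.Lib.MP_cc859a_an.TR.Bogo
import Pool.Agent.Lib.MP_cc859a_an.TR.Num

open Finset Real
open scoped BigOperators ComplexConjugate

namespace Pool.Agent.TR

theorem lsym_exp (k : ℕ) : (2 : ℝ) ^ k ≤ exp k := by
  rw [← mul_one (k : ℝ), exp_nat_mul]
  exact pow_le_pow_left₀ (by norm_num) (by linarith [add_one_le_exp (1 : ℝ)]) k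

theorem lsym_div (x y c : ℝ) (k : ℕ) (hy : y = x + k) (hc : c = 2 ^ k) :
    exp (-y) ≤ exp (-x) / c := by
  rw [hy, hc, neg_add, exp_add, exp_neg (k : ℝ), div_eq_mul_inv]
  exact mul_le_mul_of_nonneg_left (inv_anti₀ (by positivity) (lsym_exp k)) (exp_pos _).le

theorem lsym_err {Y : ℝ} (hY : 2 ≤ Y) :
    2 * (4 * (exp (-2 * (5 * Y + 10)) / ((exp (-Y) * exp (-Y) / 2) ^ 2) ^ 2)) ≤ exp (-Y) := by
  have h1 : exp (-2 * (5 * Y + 10)) = exp (-Y) ^ 8 * exp (-(2 * Y + 20)) := by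
    rw [← exp_nat_mul, ← exp_add]
    congr 1
    push_cast
    ring
  have h2 := lsym_div (2 * Y + 13) (2 * Y + 20) 128 7 (by push_cast; ring) (by norm_num)
  have h3 : exp (-(2 * Y + 13)) ≤ exp (-Y) := exp_le_exp.2 (by linarith)
  have h4 := exp_pos (-Y)
  have h5 : exp (-2 * (5 * Y + 10)) / ((exp (-Y) * exp (-Y) / 2) ^ 2) ^ 2 =
      16 * exp (-(2 * Y + 20)) := by
    rw [h1]
    field_simp
    norm_num
  rw [h5]
  linarith

theorem lsym_dens {Y : ℝ} (hY : 2 ≤ Y) :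
    exp (-Y ^ 7) ≤ ((exp (-Y) * exp (-Y) / 2) ^ 2) ^ 2 / 2 * exp (-(Y + 4 + 1) ^ 2) := by
  have h1 : ((exp (-Y) * exp (-Y) / 2) ^ 2) ^ 2 / 2 = exp (-(8 * Y)) / 32 := by
    rw [show -(8 * Y) = (8 : ℕ) * -Y by push_cast; ring, exp_nat_mul]
    ring
  rw [h1]
  refine le_trans ?_ (mul_le_mul_of_nonneg_right
    (lsym_div _ (8 * Y + 5) _ 5 (by norm_num) (by norm_num)) (exp_pos _).le)
  rw [← exp_add, exp_le_exp]
  have h2 := num_two_pow hY 5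
  have h3 : Y ^ 7 = Y ^ 5 * Y ^ 2 := by ring
  nlinarith

theorem lsym_rad {Y δ : ℝ} (hY : 2 ≤ Y) (hδ : exp (-Y) ≤ δ) :
    exp (-Y ^ 7) ≤ exp (-5 * (5 * Y + 10)) * (δ / 8) := by
  have h1 := lsym_div Y (Y + 3) 8 3 (by norm_num) (by norm_num)
  have h2 : exp (-(Y + 3)) ≤ δ / 8 := by linarith
  refine le_trans ?_ (mul_le_mul_of_nonneg_left h2 (exp_pos _).le)
  rw [← exp_add, exp_le_exp]
  have h2 := num_two_pow hY 6
  have h3 : Y ^ 7 = Y ^ 6 * Y := by ring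
  nlinarith

/-- Paper D4 for one map. `E = 5 Y + 10`. `exists_reg'` for `(Θ, δ / 8, δ / 8 * M)` gives
`V = BM M Θ (t δ / 8)`, regular for `W = BM M Θ (exp (-5 E) δ / 8)` with `ζ = exp (-2 E)`.
`sym_dens`: `θ = exp (-2 Y) / 2`; `sym_cs1`: `η = θ ^ 2 = exp (-4 Y) / 4`; `sym_cs2` for
`m = ch ∘ l`: `r = ζ / η ^ 2 = 16 exp (8 Y - 2 E)`, `8 r ≤ exp (-Y)`, and
`|A| ≥ exp (-8 Y) / 32 * |V| ≥ exp (-Y ^ c) M` (`card_BM_ge`). `bogo` for the image of `A`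
(`card_image_cast`), `sym_four`, then `sym_half` with `Θ₁ = Θ ∪ image ch Λ` and
`δ' = exp (-Y ^ C)` below the radius of `bogo`, `exp (-5 E) δ / 8` and `1 / 2`. -/
theorem sym : ∃ C : ℕ, 1 ≤ C ∧ ∀ Y : ℝ, 2 ≤ Y → ∀ (M : ℕ) [NeZero M], exp (Y ^ C) ≤ M →
    ∀ hf : ZMod M, 2 * hf = 1 → ∀ g : ZMod M → ℂ, (∀ x, ‖g x‖ ≤ 1) →
    ∀ (Θ : Finset T) (δ : ℝ) (l : ℤ → ZMod M) (h₀ c : ZMod M) (S : Finset ℤ),
    (Θ.card : ℝ) ≤ Y → exp (-Y) ≤ δ → δ ≤ 1 → LAdd l (BM M Θ δ) → S ⊆ BM M Θ (δ / 4) →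
    exp (-Y) * M ≤ S.card → (∀ v ∈ S, exp (-Y) ≤ muh g (h₀ + ((v : ℤ) : ZMod M)) (c + l v)) →
    ∃ Θ' : Finset T, (Θ'.card : ℝ) ≤ Y ^ C ∧
      Loc (fun v => ch (hf * l v)) (BM M Θ' (exp (-Y ^ C))) (exp (-Y)) := by
  obtain ⟨b, hb⟩ := bogo
  refine ⟨7 * b + 7, by omega,
    fun Y hY M _ hM hf hhf g hg Θ δ l h₀ c S hΘ hδ hδ1 hl hS hSc hbig => ?_⟩
  have hδ0 : 0 < δ := (exp_pos _).trans_le hδ
  have hM0 : (0 : ℝ) < M := (exp_pos _).trans_le hM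
  have r1 := lsym_rad hY hδ
  have r2 : exp (-5 * (5 * Y + 10)) ≤ 1 := exp_le_one_iff.2 (by linarith)
  have r3 : exp (-Y ^ (7 * b + 7)) ≤ exp (-Y ^ 7) :=
    exp_le_exp.2 (neg_le_neg (num_mono hY (by omega)))
  have r4 : exp (-Y ^ (7 * b + 7)) ≤ exp (-(Y ^ 7) ^ b) :=
    exp_le_exp.2 (neg_le_neg (by rw [← pow_mul]; exact num_mono hY (by omega)))
  have r5 : exp (-5 * (5 * Y + 10)) * (δ / 8) ≤ δ / 8 := by nlinarith
  have r6 : 1 ≤ δ / 8 * M := by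
    have h1 : exp (-Y ^ (7 * b + 7)) * exp (Y ^ (7 * b + 7)) = 1 := by rw [← exp_add]; simp
    rw [← h1]
    exact mul_le_mul (by linarith) hM (exp_pos _).le (by linarith)
  have r7 := add_one_le_exp (5 * Y + 10)
  have r8 := lsym_div Y (Y + 4) 16 4 (by norm_num) (by norm_num)
  have r9 : exp (-exp (5 * Y + 10)) ≤ exp (-(Y + 4)) := exp_le_exp.2 (by linarith)
  obtain ⟨t, t1, t2, hR⟩ := exists_reg' Θ (δ := δ / 8) (N := δ / 8 * M) (E := 5 * Y + 10)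
    (by linarith) (by linarith) (by linarith) (by linarith) r6
  rw [← mul_assoc t, ← mul_assoc (exp _)] at hR
  have t3 : t * (δ / 8) ≤ δ / 8 := by nlinarith
  have t4 : δ / 16 ≤ t * (δ / 8) := by nlinarith
  obtain ⟨h, c', h1⟩ := sym_dens g hg h₀ c l hδ0.le hδ1 (exp_pos _).le (exp_pos _).le hl hS
    (BM_mono subset_rfl (by linarith)) hR.1 hSc hbig
  obtain ⟨G₁, G₂, g1, g2, h2⟩ := sym_cs1 g hg h c' l _ (by positivity) h1
  have hm : LAdd (fun v => ch (l v)) (BM M Θ δ) := fun v hv w hw => by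
    simp only [hl v hv w hw, ch_add]
  obtain ⟨v₂, A, a1, a2, a3⟩ := sym_cs2 hm (BM_mono subset_rfl (by linarith))
    (BM_mono subset_rfl (by linarith)) hR (by positivity) G₁ G₂ g1 g2 h2
  have a4 : A ⊆ BM M Θ (δ / 8) := a1.trans (BM_mono subset_rfl t3)
  have a5 : ∀ p ∈ A, 2 * |p| < M := by
    intro p hp
    have h3 := (mem_Bohr.1 (a4 hp)).1
    have h4 : (2 : ℝ) * |(p : ℝ)| < M := by nlinarith
    exact_mod_cast h4
  have a6 := card_BM_ge (M := M) (Θ := Θ) (δ := t * (δ / 8)) (R := Y + 4) (by linarith)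
    (by linarith) (by linarith)
  obtain ⟨Λ, l1, l2⟩ := hb (Y ^ 7) (num_two_le hY (by omega)) M
    (A.image fun p : ℤ => (p : ZMod M)) (by
      rw [card_image_cast a5]
      refine le_trans ?_ (le_trans (mul_le_mul_of_nonneg_left a6 (by positivity)) a2)
      rw [← mul_assoc]
      exact mul_le_mul_of_nonneg_right (lsym_dens hY) hM0.le)
  classical
  obtain ⟨Θ', p1, p2⟩ := sym_half hhf (Θ₁ := Θ ∪ Λ.image ch) (δ' := exp (-Y ^ (7 * b + 7)))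
    subset_union_left (exp_pos _).le (by linarith) (by linarith) hl fun v hv w hw =>
      sym_four hδ0.le hδ1 hm a4 _ a3 (Λ := Λ) (ρ := exp (-(Y ^ 7) ^ b)) (fun x hx => by
        obtain ⟨_, b1, _, b2, _, b3, _, b4, e⟩ := l2 x hx
        obtain ⟨a₁, c1, rfl⟩ := mem_image.1 b1
        obtain ⟨a₂, c2, rfl⟩ := mem_image.1 b2
        obtain ⟨a₃, c3, rfl⟩ := mem_image.1 b3
        obtain ⟨a₄, c4, rfl⟩ := mem_image.1 b4
        exact ⟨a₁, c1, a₂, c2, a₃, c3, a₄, c4, e⟩)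
      (BM_mono subset_union_left (by linarith) hv)
      (fun a ha => ((mem_Bohr.1 hv).2 _ (mem_union_right _ (mem_image_of_mem _ ha))).trans r4)
      (BM_mono subset_union_left (by linarith) hw)
  refine ⟨Θ', ?_, p2.mono subset_rfl (lsym_err hY)⟩
  have p3 : (Θ'.card : ℝ) ≤ Θ.card + Λ.card + 1 := by
    exact_mod_cast p1.trans (Nat.add_le_add_right
      ((card_union_le _ _).trans (Nat.add_le_add_left card_image_le _)) 1)
  rw [← pow_mul] at l1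
  have p4 := num_add hY (hΘ.trans (num_le_pow hY (n := 7 * b + 1) (by omega)))
    (l1.trans (num_mono hY (Nat.le_succ _)))
  exact p3.trans ((num_add hY p4 (num_one_le hY _)).trans (num_mono hY (by omega)))

end Pool.Agent.TR
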