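import Pool.Agent.Lib.MP_cc859a_an.TR.LBas

open Finset Real
open scoped BigOperators ComplexConjugate

namespace Pool.Agent.TR

variable {M : ℕ} [NeZero M]

/-- Paper D4, first Cauchy-Schwarz, on the whole group. With unimodular `b v` (`exists_phase`),
`θ ≤ |𝔼 y, conj (g y) e (-ch (c y)) 𝔼 v, b v g (y + h + v) e (-ch (l v * y))|`. Cauchy-Schwarz in
`y`, expand the square, substitute `y = z - v - v'` (a bijection of the group for fixed `v, v'`).
The phase is `-ch ((l v - l v') (z - v - v'))`, that is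
`(-ch (l v * z) + v • ch (l v)) + (ch (l v' * z) - v' • ch (l v')) + (v' • ch (l v) - v • ch (l v'))`,
and `g (z + h - v')`, `g (z + h - v)` depend on one variable. Take the best `z`. -/
theorem sym_cs1 (g : ZMod M → ℂ) (hg : ∀ x, ‖g x‖ ≤ 1) (h c : ZMod M) (l : ℤ → ZMod M)
    (B : Finset ℤ) {θ : ℝ} (hθ : 0 ≤ θ)
    (hB : θ ≤ 𝔼 v ∈ B, ‖ft (dd (h + ((v : ℤ) : ZMod M)) g) (c + l v)‖) :
    ∃ G₁ G₂ : ℤ → ℂ, (∀ v, ‖G₁ v‖ ≤ 1) ∧ (∀ v, ‖G₂ v‖ ≤ 1) ∧
      θ ^ 2 ≤ ‖𝔼 v ∈ B, 𝔼 v' ∈ B, G₁ v * G₂ v' * e (v' • ch (l v) - v • ch (l v'))‖ := by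
  choose ω hω1 hω2 using fun v : ℤ =>
    exists_phase (ft (dd (h + ((v : ℤ) : ZMod M)) g) (c + l v))
  set u : ℤ → ZMod M → ℂ := fun v y => conj (ω v) * g (y + (h + v)) * e (-ch (l v * y)) with hu
  set G₁ : ZMod M → ℤ → ℂ := fun z v =>
    conj (ω v) * conj (g (z + h - v)) * e (-ch (l v * z) + v • ch (l v)) with hG₁
  set G₂ : ZMod M → ℤ → ℂ := fun z v =>
    ω v * g (z + h - v) * e (ch (l v * z) - v • ch (l v)) with hG₂
  have h1 : ((𝔼 v ∈ B, ‖ft (dd (h + ((v : ℤ) : ZMod M)) g) (c + l v)‖ : ℝ) : ℂ) =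
      𝔼 y : ZMod M, (conj (g y) * e (-ch (c * y))) * 𝔼 v ∈ B, u v y := by
    simp only [mul_expect]
    rw [Complex.ofReal_expect, expect_comm]
    refine expect_congr rfl fun v _ => ?_
    rw [← hω2, ft, expect_mul]
    refine expect_congr rfl fun y _ => ?_
    rw [hu, dd, add_mul, ch_add, neg_add, e_add]
    ring
  have h2 : θ ^ 2 ≤ 𝔼 y : ZMod M, ‖𝔼 v ∈ B, u v y‖ ^ 2 := by
    have h3 := expect_cs univ (fun y : ZMod M => conj (g y) * e (-ch (c * y)))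
      fun y => 𝔼 v ∈ B, u v y
    rw [← h1, Complex.norm_real, Real.norm_eq_abs, sq_abs] at h3
    refine (pow_le_pow_left₀ hθ hB 2).trans (h3.trans (mul_le_of_le_one_left
      (expect_nonneg fun _ _ => by positivity) (expect_le univ_nonempty fun y _ => ?_)))
    rw [norm_mul, norm_e, mul_one, Complex.norm_conj]
    exact pow_le_one₀ (norm_nonneg _) (hg y)
  have h4 : ((𝔼 y : ZMod M, ‖𝔼 v ∈ B, u v y‖ ^ 2 : ℝ) : ℂ) = 𝔼 z : ZMod M,
      𝔼 v ∈ B, 𝔼 v' ∈ B, G₁ z v * G₂ z v' * e (v' • ch (l v) - v • ch (l v')) := by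
    rw [Complex.ofReal_expect]
    simp only [norm_expect_sq]
    rw [expect_comm, expect_comm univ]
    refine expect_congr rfl fun v _ => ?_
    rw [expect_comm, expect_comm univ]
    refine expect_congr rfl fun v' _ => ?_
    symm
    refine Fintype.expect_equiv (Equiv.subRight ((v : ZMod M) + (v' : ZMod M))) _ _ fun z => ?_
    have h5 : ∀ w : ℤ, -ch (l w * (z - ((v : ZMod M) + (v' : ZMod M)))) =
        -ch (l w * z) + v • ch (l w) + v' • ch (l w) := fun w => by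
      rw [mul_sub, mul_add, ch_sub, ch_add, mul_comm _ (v : ZMod M), mul_comm _ (v' : ZMod M),
        ch_int_mul, ch_int_mul]
      abel
    simp only [hu, hG₁, hG₂, Equiv.subRight_apply, h5, map_mul, Complex.conj_conj, ← e_neg]
    rw [show z - ((v : ZMod M) + (v' : ZMod M)) + (h + (v : ZMod M)) = z + h - (v' : ZMod M) by ring,
      show z - ((v : ZMod M) + (v' : ZMod M)) + (h + (v' : ZMod M)) = z + h - (v : ZMod M) by ring]
    have h6 : e (-ch (l v * z) + v • ch (l v)) * e (ch (l v' * z) - v' • ch (l v')) *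
        e (v' • ch (l v) - v • ch (l v')) = e (-ch (l v * z) + v • ch (l v) + v' • ch (l v)) *
        e (-(-ch (l v' * z) + v • ch (l v') + v' • ch (l v'))) := by
      simp only [← e_add]
      congr 1
      abel
    linear_combination conj (ω v) * conj (g (z + h - (v : ZMod M))) * ω v' *
      g (z + h - (v' : ZMod M)) * h6
  have h7 : θ ^ 2 ≤ 𝔼 z : ZMod M,
      ‖𝔼 v ∈ B, 𝔼 v' ∈ B, G₁ z v * G₂ z v' * e (v' • ch (l v) - v • ch (l v'))‖ := by
    refine h2.trans (le_trans ?_ (norm_expect_le_expect _ _))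
    rw [← h4, Complex.norm_real, Real.norm_eq_abs]
    exact le_abs_self _
  obtain ⟨z, -, hz⟩ := exists_ge_expect univ_nonempty _ h7
  refine ⟨G₁ z, G₂ z, fun v => ?_, fun v => ?_, hz⟩
  · simp only [hG₁, norm_mul, norm_e, Complex.norm_conj, hω1, mul_one, one_mul]
    exact hg _
  · simp only [hG₂, norm_mul, norm_e, hω1, mul_one, one_mul]
    exact hg _

/-- Moving to a translate of a smaller set: `dens_shift` with `Ω = BM M Θ (δ / 2)`,
`|Ω| ≤ 2 M`; `l (h₁ + v) = l h₁ + l v`; `‖ft ·‖ ≥ ‖ft ·‖ ^ 2` by `norm_ft_le`. -/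
theorem sym_dens (g : ZMod M → ℂ) (hg : ∀ x, ‖g x‖ ≤ 1) (h₀ c : ZMod M) (l : ℤ → ZMod M)
    {Θ : Finset T} {δ η θ : ℝ} (hδ : 0 ≤ δ) (hδ1 : δ ≤ 1) (hη : 0 ≤ η) (hθ : 0 ≤ θ)
    (hl : LAdd l (BM M Θ δ)) {S B : Finset ℤ} (hS : S ⊆ BM M Θ (δ / 4)) (hB : B ⊆ BM M Θ (δ / 4))
    (hBne : B.Nonempty) (hcard : η * M ≤ S.card)
    (hbig : ∀ v ∈ S, θ ≤ muh g (h₀ + ((v : ℤ) : ZMod M)) (c + l v)) :
    ∃ h c' : ZMod M, η * θ / 2 ≤ 𝔼 v ∈ B, ‖ft (dd (h + ((v : ℤ) : ZMod M)) g) (c' + l v)‖ := by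
  have hM : (0 : ℝ) < M := Nat.cast_pos.mpr (NeZero.pos M)
  have hb : (0 : ℝ) < B.card := Nat.cast_pos.mpr hBne.card_pos
  obtain ⟨h₁, hh₁, h1⟩ := dens_shift S B (BM M Θ (δ / 2))
    (hBne.mono (hB.trans (BM_mono subset_rfl (by linarith)))) fun x hx v hv => by
      have h2 := BM_sub (hS hx) (hB hv)
      rwa [show δ / 4 + δ / 4 = δ / 2 by ring] at h2
  have h3 : η * B.card ≤ 2 * (B.filter fun v => h₁ + v ∈ S).card := by
    have h4 := (mul_le_mul_of_nonneg_right hcard hb.le).trans (h1.trans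
      (mul_le_mul_of_nonneg_right (card_BM_le Θ (by linarith) (by linarith)) (Nat.cast_nonneg _)))
    refine le_of_mul_le_mul_left (le_trans (le_of_eq ?_) (h4.trans (le_of_eq ?_))) hM <;> ring
  refine ⟨h₀ + h₁, c + l h₁, ?_⟩
  have h5 : ∀ v ∈ B.filter fun v => h₁ + v ∈ S,
      θ ≤ ‖ft (dd (h₀ + (h₁ : ZMod M) + ((v : ℤ) : ZMod M)) g) (c + l h₁ + l v)‖ := fun v hv => by
    have h6 := hbig _ (mem_filter.1 hv).2
    rw [hl h₁ (BM_mono subset_rfl (by linarith) hh₁) v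
      (BM_mono subset_rfl (by linarith) (hB (mem_filter.1 hv).1)), Int.cast_add, ← add_assoc,
      ← add_assoc, muh, sq] at h6
    exact h6.trans (mul_le_of_le_one_left (norm_nonneg _) (norm_ft_le (norm_dd_le hg _) _))
  have h7 := (card_nsmul_le_sum _ _ _ h5).trans
    (sum_le_sum_of_subset_of_nonneg (filter_subset _ _) fun _ _ _ => norm_nonneg _)
  rw [nsmul_eq_mul] at h7
  rw [expect_eq_sum_div_card, le_div_iff₀ hb]
  nlinarith [mul_le_mul_of_nonneg_right h3 hθ]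

end Pool.Agent.TR
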