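import Pool.Agent.Lib.MP_cc859a_an.TR.LBas

open Finset Real
open scoped BigOperators ComplexConjugate

namespace Pool.Agent.TR

theorem lwrap_inj {M : ℕ} {p q : ℤ} (h : |p - q| < M) (e : (p : ZMod M) = (q : ZMod M)) : p = q :=
  sub_eq_zero.1 (Int.eq_zero_of_abs_lt_dvd ((ZMod.intCast_eq_intCast_iff_dvd_sub q p M).1 e.symm) h)

theorem lwrap_push {M : ℕ} [NeZero M] {P : Finset ℤ} (a : ℤ → ℂ) {q : ℤ}
    (h : ∀ p ∈ P, |p - q| < M) : push P a (q : ZMod M) = if q ∈ P then a q else 0 := by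
  rw [push, filter_congr (q := fun p => p = q) fun p hp =>
    ⟨lwrap_inj (h p hp), fun e => by rw [e]⟩, sum_filter, sum_ite_eq']

/-- No wrap around. `M = 30 L + 1`, `0 ≤ x < L`. Suppose that `u σ (x + (σ + 1) n) ≠ 0` for the slot
`σ = a ∈ {0, 1}` forces `1 ≤ n ≤ N`. The map `n ↦ (n : ZMod M)` is injective on `Icc 1 N` and there
the three points lie in `Ico 0 (7 L)` (`push_apply`). If the term of a residue `r` is not zero, the
first factor gives an integer `n ≡ r` with `x + n ∈ Ico 0 (7 L)`; then `x + (a + 1) n` lies in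
`(-2 L, 15 L)` and is congruent to a point `p` of `Ico 0 (7 L)` with `u a p ≠ 0`, so it equals `p`
and `n ∈ Icc 1 N`. -/
theorem wrap {L N : ℕ} (hL : 0 < L) (hN : N ≤ 2 * L) (hN0 : 0 < N) (u : Fin 3 → ℤ → ℂ) {x : ℤ}
    (hx : x ∈ Ico (0 : ℤ) L) (a : Fin 3) (ha : a ≠ 2)
    (hu : ∀ n : ℤ, u a (x + ((a : ℕ) + 1 : ℤ) * n) ≠ 0 → n ∈ Icc (1 : ℤ) N) :
    𝔼 n : ZMod (30 * L + 1), push (Ico (0 : ℤ) (7 * L)) (u 0) ((x : ZMod (30 * L + 1)) + n) *
        push (Ico (0 : ℤ) (7 * L)) (u 1) ((x : ZMod (30 * L + 1)) + 2 * n) *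
        push (Ico (0 : ℤ) (7 * L)) (u 2) ((x : ZMod (30 * L + 1)) + 3 * n) =
      (N : ℂ) / (30 * L + 1) * Av N u x := by
  have _ := hL
  have hN' : (N : ℂ) ≠ 0 := Nat.cast_ne_zero.2 hN0.ne'
  obtain ⟨x0, x1⟩ := mem_Ico.1 hx
  have hp : ∀ (v : ℤ → ℂ) (q : ℤ), -(20 * L) < q → q < 20 * L →
      push (Ico (0 : ℤ) (7 * L)) v (q : ZMod (30 * L + 1)) =
        if q ∈ Ico (0 : ℤ) (7 * L) then v q else 0 := fun v q h1 h2 =>
    lwrap_push v fun p hp => by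
      obtain ⟨h3, h4⟩ := mem_Ico.1 hp
      rw [abs_lt]
      omega
  have c1 : ∀ n : ℤ, (x : ZMod (30 * L + 1)) + n = ((x + n : ℤ) : ZMod (30 * L + 1)) := fun n => by
    push_cast; rfl
  have c2 : ∀ n : ℤ, (x : ZMod (30 * L + 1)) + 2 * n = ((x + 2 * n : ℤ) : ZMod (30 * L + 1)) :=
    fun n => by push_cast; rfl
  have c3 : ∀ n : ℤ, (x : ZMod (30 * L + 1)) + 3 * n = ((x + 3 * n : ℤ) : ZMod (30 * L + 1)) :=
    fun n => by push_cast; rfl
  rw [four_exp, Av, expect_eq_sum_div_card, Int.card_Icc, add_sub_cancel_right, Int.toNat_natCast,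
    div_mul_div_comm, mul_comm (N : ℂ), mul_div_mul_right _ _ hN']
  push_cast
  congr 1
  refine (sum_of_injOn (fun n : ℤ => (n : ZMod (30 * L + 1))) (fun p hp q hq e => ?_)
    (fun _ _ => mem_coe.2 (mem_univ _)) (fun r _ hr => ?_) fun n hn => ?_).symm
  · obtain ⟨h1, h2⟩ := mem_Icc.1 (mem_coe.1 hp)
    obtain ⟨h3, h4⟩ := mem_Icc.1 (mem_coe.1 hq)
    refine lwrap_inj ?_ e
    rw [abs_lt]
    omega
  · by_contra h0
    have h1 := left_ne_zero_of_mul (left_ne_zero_of_mul h0)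
    have h2 := right_ne_zero_of_mul (left_ne_zero_of_mul h0)
    obtain ⟨p, hpP, e⟩ : ∃ p ∈ Ico (0 : ℤ) (7 * L), (p : ZMod (30 * L + 1)) = x + r := by
      by_contra hc
      push Not at hc
      exact h1 (push_eq_zero _ hc)
    obtain ⟨n, rfl⟩ : ∃ n, p = x + n := ⟨p - x, by ring⟩
    obtain rfl : (n : ZMod (30 * L + 1)) = r := add_left_cancel ((c1 n).trans e)
    obtain ⟨h3, h4⟩ := mem_Ico.1 hpP
    rw [c1, hp _ _ (by omega) (by omega), if_pos hpP] at h1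
    rw [c2, hp _ _ (by omega) (by omega)] at h2
    refine hr ⟨n, mem_coe.2 (hu n ?_), rfl⟩
    fin_cases a
    · simpa using h1
    · have h5 : u 1 (x + 2 * n) ≠ 0 := fun h => h2 (by rw [h, ite_self])
      exact h5
    · exact (ha rfl).elim
  · obtain ⟨h1, h2⟩ := mem_Icc.1 hn
    rw [c1, c2, c3, hp _ _ (by omega) (by omega), hp _ _ (by omega) (by omega),
      hp _ _ (by omega) (by omega), if_pos (mem_Ico.2 ⟨by omega, by omega⟩),
      if_pos (mem_Ico.2 ⟨by omega, by omega⟩), if_pos (mem_Ico.2 ⟨by omega, by omega⟩)]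

/-- Transfer of the local correlation to the integers. Every residue `Y'` is `(y : ZMod M)` for
exactly one `y ∈ Icc (-15 L) (15 L)`; take `lab (b + y) = lab' y`. For `|w| ≤ 3 L` the value of
`push` at `y + w` is `f (b + y + w)` if `0 ≤ y + w < 7 L` and `0` otherwise. -/
theorem transfer {L : ℕ} (b : ℤ) (f : ℤ → ℂ) {Ls : Finset (ℤ → T)} {V : Finset ℤ} {c : ℝ}
    (hV : ∀ w ∈ V, 10 * |w| ≤ ((30 * L + 1 : ℕ) : ℤ))
    (h : H4 (push (M := 30 * L + 1) (Ico (0 : ℤ) (7 * L)) fun p => f (b + p)) Ls V c) :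
    ∃ (lab : ℤ → ℤ → T) (ξ : ℤ → T), (∀ Y, lab Y ∈ Ls) ∧
      c * (30 * L + 1) ≤ ∑ Y ∈ Icc (b - 15 * L) (b + 15 * L),
        ‖𝔼 w ∈ V, (if Y + w ∈ Ico b (b + 7 * L) then f (Y + w) else 0) *
          e (-(w • lab Y w + w • ξ Y))‖ := by
  obtain ⟨lab, ξ, h1, h2⟩ := h
  refine ⟨fun Y => lab ((Y - b : ℤ) : ZMod (30 * L + 1)),
    fun Y => ξ ((Y - b : ℤ) : ZMod (30 * L + 1)), fun Y => h1 _, ?_⟩
  rw [four_exp', le_div_iff₀ (by positivity)] at h2
  push_cast at h2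
  refine h2.trans_eq (sum_of_injOn (fun Y : ℤ => ((Y - b : ℤ) : ZMod (30 * L + 1)))
    (fun p hp q hq e => ?_) (fun _ _ => mem_coe.2 (mem_univ _)) (fun r _ hr => (hr ?_).elim)
    fun Y hY => ?_).symm
  · obtain ⟨h3, h4⟩ := mem_Icc.1 (mem_coe.1 hp)
    obtain ⟨h5, h6⟩ := mem_Icc.1 (mem_coe.1 hq)
    have h7 : p - b = q - b := lwrap_inj (by rw [abs_lt]; omega) e
    omega
  · have h3 := r.natAbs_valMinAbs_le
    refine ⟨b + r.valMinAbs, mem_coe.2 (mem_Icc.2 ⟨by omega, by omega⟩), ?_⟩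
    show ((b + r.valMinAbs - b : ℤ) : ZMod (30 * L + 1)) = r
    rw [add_sub_cancel_left, r.coe_valMinAbs]
  · obtain ⟨h3, h4⟩ := mem_Icc.1 hY
    refine congrArg norm (expect_congr rfl fun w hw => ?_)
    have h5 := hV w hw
    have h6 := le_abs_self w
    have h7 := neg_abs_le w
    rw [← Int.cast_add, lwrap_push _ fun p hp => by
      obtain ⟨h8, h9⟩ := mem_Ico.1 hp
      rw [abs_lt]
      omega, show b + (Y - b + w) = Y + w by ring]
    congr 1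
    refine if_congr ?_ rfl rfl
    rw [mem_Ico, mem_Ico]
    omega

end Pool.Agent.TR
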