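import Pool.Agent.Lib.MP_cc859a_an.TR.AtomL
import Pool.Agent.Lib.MP_cc859a_an.TR.Defs3

open Finset Real
open scoped BigOperators ComplexConjugate

namespace Pool.Agent.TR

variable {ι : Type} [Fintype ι] {q K j j' : ℕ} {p : ι → Pc} {x y : ℤ} {X Y : ℝ}

theorem mem_Lst {r : ι} : r ∈ Lst q p j x ↔ j ≤ (p r).j ∧ |(p r).i - x / LL q (p r).j| ≤ 6 := by
  exact mem_filter.trans (and_iff_right (mem_univ _))

theorem Lst_congr (hq : 1 ≤ q) (h : x / LL q j = y / LL q j) : Lst q p j x = Lst q p j y := by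
  ext r
  rw [mem_Lst, mem_Lst]
  exact and_congr_right fun hj => by rw [div_eq_of_div_eq hq hj h]

theorem Lst_anti (h : j ≤ j') : Lst q p j' x ⊆ Lst q p j x := by
  exact fun r hr => mem_Lst.2 ⟨h.trans (mem_Lst.1 hr).1, (mem_Lst.1 hr).2⟩

/-- A piece is in the list of at most `13 L` points. -/
theorem sum_card_Lst (hq : 1 ≤ q) (I : Finset ℤ) :
    ∑ x ∈ I, (Lst q p 0 x).card ≤ 13 * ∑ r, LL q (p r).j := by
  simp only [Lst, card_filter]
  rw [sum_comm, mul_sum]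
  refine sum_le_sum fun r _ => ?_
  have h0 : (0 : ℤ) < LL q (p r).j := by exact_mod_cast LL_pos hq
  rw [← card_filter]
  refine (card_le_card (t := Ico (((p r).i - 6) * LL q (p r).j) (((p r).i + 7) * LL q (p r).j))
    fun x hx => ?_).trans (le_of_eq ?_)
  · have h1 := abs_le.1 (mem_filter.1 hx).2.2
    rw [mem_Ico, ← Int.le_ediv_iff_mul_le h0, ← Int.ediv_lt_iff_lt_mul h0]
    omega
  · rw [Int.card_Ico, show ((p r).i + 7) * LL q (p r).j - ((p r).i - 6) * LL q (p r).j =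
      (13 * LL q (p r).j : ℕ) by push_cast; ring, Int.toNat_natCast]

/-- A piece of scale `≥ j` that does not vanish at `y` has `y` in its own enlarged interval and in
the enlarged interval of `x` at that scale (`star_subset`). -/
theorem sfun_Lst (hq : 1 ≤ q) (hp : ∀ r, ∀ y ∉ star (LL q (p r).j) (p r).i, (p r).a.γ y = 0)
    (c : ℝ) (σ : Fin 3) (hy : y ∈ star (LL q j) (x / LL q j)) :
    sfun c p (univ.filter fun r => j ≤ (p r).j) σ y = sfun c p (Lst q p j x) σ y := by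
  unfold sfun
  refine congrArg _ (sum_subset (filter_subset_filter _ fun r hr =>
    mem_filter.2 ⟨mem_univ _, (mem_Lst.1 hr).1⟩) fun r hr hr' => ?_).symm
  obtain ⟨h1, h2⟩ := mem_filter.1 hr
  rw [hp r y fun h3 => hr' (mem_filter.2 ⟨mem_Lst.2 ⟨(mem_filter.1 h1).2, ?_⟩, h2⟩),
    Complex.zero_re]
  have h4 := mem_Ico.1 (star_subset hq (mem_filter.1 h1).2 x hy)
  have h5 := mem_Ico.1 h3
  have h6 := lt_of_mul_lt_mul_right (h4.1.trans_lt h5.2) (Int.natCast_nonneg _)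
  have h7 := lt_of_mul_lt_mul_right (h5.1.trans_lt h4.2) (Int.natCast_nonneg _)
  rw [abs_le]
  omega

theorem Lst_toLeft {ι' : Type} [Fintype ι'] (p' : ι' → Pc) :
    (Lst q (Sum.elim p p') j x).toLeft = Lst q p j x := by
  ext r
  exact mem_toLeft.trans (mem_Lst.trans (mem_Lst (p := p)).symm)

theorem Lst_toRight {ι' : Type} [Fintype ι'] (p' : ι' → Pc) :
    (Lst q (Sum.elim p p') j x).toRight = Lst q p' j x := by
  ext r
  exact mem_toRight.trans (mem_Lst.trans (mem_Lst (p := p')).symm)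

theorem PcOK.mono {P : Pc} {X' Y' : ℝ} (h : PcOK q K X Y P) (hX : X' ≤ X) (hY : Y ≤ Y') :
    PcOK q K X' Y' P := by
  have h1 : exp (-X) ≤ exp (-X') := exp_le_exp.2 (neg_le_neg hX)
  have h2 : exp (-Y') ≤ exp (-Y) := exp_le_exp.2 (neg_le_neg hY)
  exact ⟨h.j_le, h.ok, h.Θ_le.trans hY, h.F_le.trans hY, h.k_le.trans hY, h2.trans h.δ_ge,
    (mul_le_mul_of_nonneg_right h2 (Nat.cast_nonneg _)).trans h.N_ge, h.ε_le.trans h1,
    h.bad_le.trans (mul_le_mul_of_nonneg_right h1 (Nat.cast_nonneg _)),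
    h.atom.mono subset_rfl subset_rfl subset_rfl le_rfl h1, h.supp⟩

theorem card_allBad_le (hp : ∀ r, PcOK q K X Y (p r)) :
    ((allBad p).card : ℝ) ≤ exp (-X) * ∑ r, (LL q (p r).j : ℝ) := by
  rw [mul_sum]
  refine (Nat.cast_le.2 card_biUnion_le).trans ?_
  rw [Nat.cast_sum]
  exact sum_le_sum fun r _ => (hp r).bad_le

/-- Markov's inequality with `sum_card_Lst` and `sum_le`. -/
theorem Sys.card_big {f : Fin 3 → ℤ → ℝ} {Z W : ℝ} (hq : 1 ≤ q) (hZ : 0 < Z)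
    (S : Sys q K f Z X Y W) :
    (((node (LL q K) 0).filter fun x => S.m < (Lst q S.p 0 x).card).card : ℝ) ≤ LL q K / Z := by
  have h1 := (card_nsmul_le_sum ((node (LL q K) 0).filter fun x => S.m < (Lst q S.p 0 x).card)
    (fun x => (Lst q S.p 0 x).card) S.m fun x hx => (mem_filter.1 hx).2.le).trans
    (sum_card_Lst hq _)
  have h2 : (((node (LL q K) 0).filter fun x => S.m < (Lst q S.p 0 x).card).card : ℝ) * S.m ≤
      13 * ∑ r, (LL q (S.p r).j : ℝ) := by exact_mod_cast h1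
  have h3 : (0 : ℝ) < S.m := Nat.cast_pos.2 S.m_pos
  rw [le_div_iff₀ hZ]
  refine le_of_mul_le_mul_left ?_ h3
  linarith [S.sum_le, mul_le_mul_of_nonneg_left h2 hZ.le]

open Classical in
/-- Unions of the frequency sets and of the form sets; `j₀` is the least scale in `S` (or `K`),
`D.N = exp (-Y) * NN q j₀`. -/
theorem merge (hq : 1 ≤ q) (hY : 0 ≤ Y) (hp : ∀ r, PcOK q K X Y (p r)) (S : Finset ι) :
    ∃ (D : Data) (j₀ : ℕ), D.OK ∧ (D.Θ.card : ℝ) ≤ S.card * Y ∧ (D.F.card : ℝ) ≤ S.card * Y ∧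
      D.δ = exp (-Y) ∧ D.δ * NN q j₀ ≤ D.N ∧ D.ε = exp (-X) ∧ D.Bad = allBad p ∧
      (∀ r ∈ S, IsAtom D ⌊Y⌋₊ (exp (-X)) (p r).a) ∧
      ∀ b ≤ K, (∀ r ∈ S, b ≤ (p r).j) → b ≤ j₀ := by
  have h0 : ∀ r ∈ S, Nat.findGreatest (fun b => ∀ r ∈ S, b ≤ (p r).j) K ≤ (p r).j :=
    Nat.findGreatest_spec (P := fun b => ∀ r ∈ S, b ≤ (p r).j) K.zero_le fun _ _ => Nat.zero_le _
  have h1 : ∀ b ≤ K, (∀ r ∈ S, b ≤ (p r).j) →
      b ≤ Nat.findGreatest (fun b => ∀ r ∈ S, b ≤ (p r).j) K := fun b hb h =>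
    Nat.le_findGreatest hb h
  generalize Nat.findGreatest (fun b => ∀ r ∈ S, b ≤ (p r).j) K = j₀ at h0 h1
  have hB : ∀ r ∈ S, Bohr (S.biUnion fun r => (p r).D.Θ) (exp (-Y)) (exp (-Y) * NN q j₀) ⊆
      (p r).D.B := fun r hr =>
    Bohr_mono (subset_biUnion_of_mem (fun r => (p r).D.Θ) hr) (hp r).δ_ge
      ((mul_le_mul_of_nonneg_left (Nat.cast_le.2 (NN_mono hq (h0 r hr))) (exp_pos _).le).trans
        (hp r).N_ge)
  have hc : ∀ {α : Type} [DecidableEq α] (u : ι → Finset α),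
      (∀ r, ((u r).card : ℝ) ≤ Y) → ((S.biUnion u).card : ℝ) ≤ S.card * Y := fun u hu => by
    refine (Nat.cast_le.2 card_biUnion_le).trans ?_
    rw [Nat.cast_sum, ← nsmul_eq_mul]
    exact sum_le_card_nsmul _ _ _ fun r _ => hu r
  refine ⟨⟨S.biUnion fun r => (p r).D.Θ, S.biUnion fun r => (p r).D.F, exp (-Y),
    exp (-Y) * NN q j₀, exp (-X), allBad p⟩, j₀,
    ⟨(exp_pos _).le, by positivity, (exp_pos _).le, fun l hl => ?_⟩,
    hc _ fun r => (hp r).Θ_le, hc _ fun r => (hp r).F_le, rfl, le_rfl, rfl, rfl,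
    fun r hr => (hp r).atom.mono (subset_biUnion_of_mem (fun r => (p r).D.F) hr) (hB r hr)
      (subset_biUnion_of_mem (fun r => (p r).D.Bad) (mem_univ r)) (Nat.le_floor (hp r).k_le) le_rfl,
    h1⟩
  obtain ⟨r, hr, hl⟩ := mem_biUnion.1 hl
  exact ((hp r).ok.2.2.2 l hl).mono (hB r hr) (hp r).ε_le

end Pool.Agent.TR
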