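import Pool.Agent.Lib.MP_cc859a_an.TR.Piece
import Pool.Agent.Lib.MP_cc859a_an.TR.Quad
import Pool.Agent.Lib.MP_cc859a_an.TR.Dich
import Pool.Agent.Lib.MP_cc859a_an.TR.Scale
import Pool.Agent.Lib.MP_cc859a_an.TR.Num
import Pool.Agent.Lib.MP_cc859a_an.TR.LRed
import Pool.Agent.Lib.MP_cc859a_an.TR.LH1
import Pool.Agent.Lib.MP_cc859a_an.TR.LGrp
import Pool.Agent.Lib.MP_cc859a_an.TR.LAtom

open Finset Real
open scoped BigOperators ComplexConjugate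

namespace Pool.Agent.TR

theorem lit_units (L : ℕ) : IsUnit (2 : ZMod (30 * L + 1)) ∧ IsUnit (3 : ZMod (30 * L + 1)) := by
  have h : (30 * (L : ZMod (30 * L + 1)) + 1) = 0 := by
    have := ZMod.natCast_self (30 * L + 1)
    push_cast at this
    exact this
  constructor
  · exact IsUnit.of_mul_eq_one (15 * (L : ZMod (30 * L + 1)) + 1) (by linear_combination h)
  · exact IsUnit.of_mul_eq_one (20 * (L : ZMod (30 * L + 1)) + 1) (by linear_combination 2 * h)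

theorem lit_shift (N : ℕ) (u : Fin 3 → ℤ → ℂ) (b x : ℤ) :
    Av N (fun σ p => u σ (b + p)) x = Av N u (b + x) := by
  simp only [Av, add_assoc]

theorem lit_kappa {Z : ℝ} (hZ : 2 ≤ Z) : 1 / Z ^ 32 ≤ (1 / (62 * Z)) ^ 4 / 16 := by
  have h0 : 0 < Z := by linarith
  have h1 : (2 : ℝ) ^ 28 ≤ Z ^ 28 := num_two_pow hZ 28
  have h2 : (1 / (62 * Z)) ^ 4 / 16 = 1 / (16 * 62 ^ 4 * Z ^ 4) := by
    field_simp
  rw [h2]
  apply one_div_le_one_div_of_le (by positivity)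
  have h3 : Z ^ 32 = Z ^ 28 * Z ^ 4 := by ring
  rw [h3]
  have h4 : (0 : ℝ) < Z ^ 4 := by positivity
  nlinarith

theorem lit_c {Z κ : ℝ} (hZ : 2 ≤ Z) (h : 1 / Z ^ 32 ≤ κ) : 1 / Z ^ 84 ≤ κ ^ 2 / 10 ^ 6 := by
  have h0 : 0 < Z := by linarith
  have h1 : (2 : ℝ) ^ 20 ≤ Z ^ 20 := num_two_pow hZ 20
  have h2 : (1 / Z ^ 32) ^ 2 ≤ κ ^ 2 := pow_le_pow_left₀ (by positivity) h 2
  have h3 : 1 / Z ^ 84 ≤ (1 / Z ^ 32) ^ 2 / 10 ^ 6 := by
    have h5 : (1 / Z ^ 32) ^ 2 / 10 ^ 6 = 1 / (10 ^ 6 * Z ^ 64) := by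
      field_simp
    rw [h5]
    apply one_div_le_one_div_of_le (by positivity)
    have h3 : Z ^ 84 = Z ^ 20 * Z ^ 64 := by ring
    rw [h3]
    have h4 : (0 : ℝ) < Z ^ 64 := by positivity
    nlinarith
  refine h3.trans ?_
  gcongr

theorem lit_dens {Z X : ℝ} (hZ : 2 ≤ Z) (hX : Z ≤ X) {L : ℕ} (hL : 0 < L) {a b : ℝ}
    (ha : exp (-X) * L ≤ a) (hb : a ≤ 3 * Z * b) :
    exp (-X ^ 8) * ((30 * L + 1 : ℕ) : ℝ) ≤ b := by
  have hX2 : 2 ≤ X := hZ.trans hX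
  have h1 : (2 : ℝ) ^ 7 ≤ X ^ 7 := num_two_pow hX2 7
  have h2 : 128 * X ≤ X ^ 8 := by
    have : X ^ 8 = X ^ 7 * X := by ring
    rw [this]
    nlinarith
  have h3 : 93 * Z ≤ exp (X ^ 8 - X) := by
    have := add_one_le_exp (X ^ 8 - X)
    linarith
  have h4 : exp (-X) = exp (-X ^ 8) * exp (X ^ 8 - X) := by
    rw [← exp_add]
    congr 1
    ring
  have hL1 : (1 : ℝ) ≤ L := by exact_mod_cast hL
  have h5 : ((30 * L + 1 : ℕ) : ℝ) ≤ 31 * L := by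
    push_cast
    linarith
  have h6 := exp_pos (-X ^ 8)
  have h7 : 3 * Z * (exp (-X ^ 8) * (31 * L)) ≤ 3 * Z * b := by
    calc 3 * Z * (exp (-X ^ 8) * (31 * L)) = exp (-X ^ 8) * (93 * Z) * L := by ring
      _ ≤ exp (-X ^ 8) * exp (X ^ 8 - X) * L := by gcongr
      _ ≤ 3 * Z * b := by rw [← h4]; linarith
  have h8 := le_of_mul_le_mul_left h7 (by linarith)
  exact (mul_le_mul_of_nonneg_left h5 h6.le).trans h8

open Classical in
/-- The local inverse theorem (paper, section 3). -/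
theorem lit : ∃ C : ℕ, ∀ Z X : ℝ, 2 ≤ Z → Z ≤ X → ∀ (L N : ℕ) (i : ℤ), 0 < L → L ≤ N →
    N ≤ 2 * L → ∀ u : Fin 3 → ℤ → ℂ, (∀ σ y, ‖u σ y‖ ≤ 1) → ∀ s : Fin 3,
    exp (-X) * L ≤ ((node L i).filter fun x => 1 / Z ≤ ‖Av N u x‖).card →
    ∃ (D : Data) (k : ℕ) (a : Atom), D.OK ∧ (D.Θ.card : ℝ) ≤ X ^ C ∧ (D.F.card : ℝ) ≤ X ^ C ∧
      (k : ℝ) ≤ X ^ C ∧ exp (-X ^ C) ≤ D.δ ∧ exp (-X ^ C) * N ≤ D.N ∧ D.ε ≤ exp (-X) ∧
      (D.Bad.card : ℝ) ≤ exp (-X) * L ∧ IsAtom D k (exp (-X)) a ∧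
      (∀ y ∉ star L i, a.γ y = 0) ∧
      (L : ℝ) / Z ^ C ≤ ∑ y ∈ star L i, (u s y * conj (a.γ y)).re := by
  obtain ⟨C₁, hC₁, H₁⟩ := h1
  obtain ⟨C₂, hC₂, H₂⟩ := litg
  obtain ⟨C₃, hC₃, H₃⟩ := patch
  set n : ℕ := 8 * C₁ + 84 with hn
  have hnC : n * C₂ ≤ n * C₂ * C₃ := Nat.le_mul_of_pos_right _ hC₃
  have hnn : n ≤ n * C₂ := Nat.le_mul_of_pos_right _ hC₂
  refine ⟨n * C₂ * C₃, fun Z X hZ hZX L N i hL hLN hN u hu s h => ?_⟩
  have hX : 2 ≤ X := hZ.trans hZX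
  have hZ0 : 0 < Z := by linarith
  have hL0 : (0 : ℝ) < L := by exact_mod_cast hL
  have hpos : (0 : ℝ) ≤ X ^ (n * C₂ * C₃) := by positivity
  have hZC : (L : ℝ) / Z ^ (n * C₂ * C₃) ≤ L / Z ^ 84 :=
    div_le_div_of_nonneg_left hL0.le (by positivity) (num_mono hZ (by omega))
  have hstar : star L i = Ico (i * L) (i * L + 7 * L) := by
    unfold star
    congr 1
    ring
  by_cases hM : exp ((X ^ n) ^ C₂) ≤ ((30 * L + 1 : ℕ) : ℝ)
  swap
  · have hne : ((node L i).filter fun x => 1 / Z ≤ ‖Av N u x‖).Nonempty := by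
      rw [← card_pos]
      have := lt_of_lt_of_le (mul_pos (exp_pos (-X)) hL0) h
      exact_mod_cast this
    obtain ⟨x, hx⟩ := hne
    rw [mem_filter] at hx
    have hlt : exp (-X ^ (n * C₂ * C₃)) * N < 1 := by
      have h1 : (N : ℝ) < exp (X ^ (n * C₂ * C₃)) := by
        have h2 : (N : ℝ) ≤ ((30 * L + 1 : ℕ) : ℝ) := by exact_mod_cast (by omega)
        refine lt_of_lt_of_le (lt_of_le_of_lt h2 (not_le.1 hM)) (exp_le_exp.2 ?_)
        rw [← pow_mul]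
        exact num_mono hX hnC
      rw [exp_neg, inv_mul_lt_iff₀ (exp_pos _), mul_one]
      exact h1
    obtain ⟨a, ha, ha0, hc⟩ := lit_small hZ i hL hLN hN u hu s hx.1 hx.2
      (δ := exp (-X ^ (n * C₂ * C₃))) hlt (exp_pos (-X)).le
    refine ⟨_, 0, a, ⟨(exp_pos _).le, by positivity, le_rfl, by simp⟩, by simpa using hpos,
      by simpa using hpos, by simpa using hpos, le_rfl, le_rfl, (exp_pos _).le,
      by simp only [card_empty, Nat.cast_zero]; positivity, ha, ha0, ?_⟩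
    refine (hZC.trans ?_).trans hc
    exact div_le_div_of_nonneg_left hL0.le hZ0 (num_le_pow hZ (by norm_num))
  set A := ((node L i).filter fun x => 1 / Z ≤ ‖Av N u x‖).image (· - i * L) with hA
  have hAc : A.card = ((node L i).filter fun x => 1 / Z ≤ ‖Av N u x‖).card :=
    card_image_of_injective _ (sub_left_injective)
  obtain ⟨U, E, hU, hUs, hE, hbig⟩ := reduce hZ hL hLN hN (fun σ p => u σ (i * L + p))
    (fun σ y => hu σ _) s A
    (by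
      intro x hx
      obtain ⟨y, hy, rfl⟩ := mem_image.1 hx
      have := (mem_filter.1 hy).1
      simp only [node, mem_Ico] at this ⊢
      constructor <;> nlinarith [this.1, this.2])
    (by
      intro x hx
      obtain ⟨y, hy, rfl⟩ := mem_image.1 hx
      rw [lit_shift, add_sub_cancel]
      exact (mem_filter.1 hy).2)
  have hX8 : 2 ≤ X ^ 8 := num_two_le hX (by norm_num)
  have hε : 1 / X ^ 8 ≤ 1 / (62 * Z) := by
    apply one_div_le_one_div_of_le (by positivity)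
    have h1 : (2 : ℝ) ^ 7 ≤ X ^ 7 := num_two_pow hX 7
    have : X ^ 8 = X ^ 7 * X := by ring
    rw [this]
    nlinarith
  have hH1 := H₁ (X ^ 8) _ hX8 hε (30 * L + 1) (lit_units L).1 (lit_units L).2 U hU s E
    (lit_dens hZ hZX hL h (by rw [← hAc]; exact hE)) hbig
  have hXn : 2 ≤ X ^ n := num_two_le hX (by omega)
  have hZn : ∀ m, m ≤ n → 1 / X ^ n ≤ 1 / Z ^ m := fun m hm =>
    one_div_le_one_div_of_le (by positivity)
      ((pow_le_pow_left₀ hZ0.le hZX m).trans (num_mono hX hm))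
  have hκ := lit_kappa hZ
  have hc := lit_c hZ hκ
  set c := ((1 / (62 * Z)) ^ 4 / 16) ^ 2 / 10 ^ 6 with hcdef
  obtain ⟨Θ, F, t, δ, ε, V, B, hΘ, hF, ht, hδ, hδ1, hε0, hε1, hε2, hR, hV, hB, hloc, hw, hH4⟩ :=
    H₂ (X ^ n) _ hXn ((hZn 32 (by omega)).trans hκ) (30 * L + 1) hM (lit_units L).1 (U s) (hU s)
      (hH1.mono (by rw [← pow_mul]; exact num_mono hX (by omega)))
  rw [hUs] at hH4
  obtain ⟨lab, ξ, hlab, hsum⟩ := transfer (i * L) (u s) hw hH4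
  have hc0 : 0 ≤ c := by positivity
  have hXR : X ≤ (X ^ n) ^ C₂ := by
    rw [← pow_mul]
    exact num_le_pow hX (by omega)
  have hXX : exp (-X ^ n) ≤ exp (-X) := exp_le_exp.2 (neg_le_neg (num_le_pow hX (by omega)))
  obtain ⟨Bad, a, hBad, hsub, ha, ha0, hcor⟩ := H₃ X _ hX hXR L N (30 * L + 1) (i * L) hL hN
    (by omega) (fun y => if y ∈ Ico (i * L) (i * L + 7 * L) then u s y else 0)
    (fun y => by
      split_ifs
      · exact hu s y
      · simp)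
    (fun y hy => if_neg hy) Θ F t δ ε _ _ V B _ lab ξ hΘ hδ hδ1 hε0 hR hV hB hloc hlab
    (by positivity) hsum
  have hpw : ((X ^ n) ^ C₂) ^ C₃ = X ^ (n * C₂ * C₃) := by rw [← pow_mul, ← pow_mul, mul_assoc]
  have hRle : (X ^ n) ^ C₂ ≤ X ^ (n * C₂ * C₃) := by
    rw [← pow_mul]
    exact num_mono hX hnC
  rw [hpw] at hsub ha
  refine ⟨⟨Θ, F, exp (-X ^ (n * C₂ * C₃)), exp (-X ^ (n * C₂ * C₃)) * N, ε, Bad⟩, t, a,
    ⟨(exp_pos _).le, by positivity, hε0, fun l hl => (hloc l hl).mono hsub le_rfl⟩,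
    hΘ.trans hRle, hF.trans hRle, ht.trans hRle, le_rfl, le_rfl, hε1.trans hXX, hBad,
    ⟨ha.norm_le, ha.mem, ha.lab, ha.lin,
      fun y hy v hv => (ha.val y hy v hv).trans (hε2.trans hXX)⟩, by rwa [hstar], ?_⟩
  rw [hstar]
  have hsame : ∑ y ∈ Ico (i * L) (i * L + 7 * L), (u s y * conj (a.γ y)).re =
      ∑ y ∈ Ico (i * L) (i * L + 7 * L),
        ((if y ∈ Ico (i * L) (i * L + 7 * L) then u s y else 0) * conj (a.γ y)).re :=
    sum_congr rfl fun y hy => by rw [if_pos hy]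
  rw [hsame]
  refine hZC.trans (le_trans ?_ hcor)
  have hζ : exp (-X ^ n) ≤ c := by
    refine le_trans ?_ ((hZn 84 (by omega)).trans hc)
    rw [exp_neg, one_div]
    apply inv_anti₀ (by positivity)
    linarith [add_one_le_exp (X ^ n)]
  have h1 : (L : ℝ) / Z ^ 84 ≤ c * L := by
    rw [div_eq_mul_one_div, mul_comm]
    exact mul_le_mul_of_nonneg_right hc hL0.le
  nlinarith [mul_le_mul_of_nonneg_right hζ hL0.le, mul_nonneg hc0 hL0.le]

end Pool.Agent.TR
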