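import Pool.Agent.Lib.MP_cc859a_an.TR.Trans
import Pool.Agent.Lib.MP_cc859a_an.TR.Cauchy

open Finset MeasureTheory Filter Topology
open scoped BigOperators

namespace Pool.Agent.TR

variable {X : Type*} [MeasurableSpace X] (μ : Measure X) [IsProbabilityMeasure μ] {S : X → X}

/-- `ae_jumps` for all `q` (`ae_all_iff`), then `tendsto_of_jumps`. -/
theorem main_real (hS : MeasurePreserving S μ μ) (g : Fin 3 → X → ℝ)
    (hg : ∀ σ, Measurable (g σ)) (hg1 : ∀ σ x, |g σ x| ≤ 1) :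
    ∀ᵐ x ∂μ, ∃ l : ℂ, Tendsto (fun N : ℕ => (1 / (N : ℂ)) * ∑ n ∈ Icc 1 N,
      (g 0 (S^[n] x) : ℂ) * g 1 (S^[2 * n] x) * g 2 (S^[3 * n] x)) atTop (𝓝 l) := by
  have h : ∀ᵐ x ∂μ, ∀ q : ℕ, 1 ≤ q → ∃ N : ℕ, ∀ K : ℕ, ¬ JumpsIn
      (fun j => (1 / (NN q j : ℂ)) * ∑ n ∈ Icc 1 (NN q j),
        (g 0 (S^[n] x) : ℂ) * g 1 (S^[2 * n] x) * g 2 (S^[3 * n] x)) 0 K N (1 / q) := by
    refine ae_all_iff.2 fun q => ?_
    by_cases hq : 1 ≤ q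
    · exact (ae_jumps μ hS g hg hg1 q hq (one_div_pos.2 (Nat.cast_pos.2 hq))).mono fun x hx _ => hx
    · exact .of_forall fun x h => absurd h hq
  refine h.mono fun x hx => tendsto_of_jumps _ (fun n => ?_) hx
  simp only [norm_mul, Complex.norm_real, Real.norm_eq_abs]
  exact mul_le_one₀ (mul_le_one₀ (hg1 _ _) (abs_nonneg _) (hg1 _ _)) (abs_nonneg _) (hg1 _ _)

/-- A function in `L^∞` agrees almost everywhere with `c (u + i v)`, `u, v` real, measurable and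
bounded by one everywhere. -/
theorem main_split {f : X → ℂ} (hf : MemLp f ⊤ μ) : ∃ (c : ℝ) (u v : X → ℝ), Measurable u ∧
    Measurable v ∧ (∀ x, |u x| ≤ 1) ∧ (∀ x, |v x| ≤ 1) ∧
    f =ᵐ[μ] fun x => (c : ℂ) * (u x + v x * Complex.I) := by
  have hm : Measurable (hf.1.mk f) := hf.1.stronglyMeasurable_mk.measurable
  have hc : ∀ s : ℝ, |max (-1) (min 1 s)| ≤ 1 := fun s =>
    abs_le.2 ⟨le_max_left _ _, max_le (by norm_num) (min_le_left _ _)⟩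
  obtain ⟨c, hc0, h1⟩ : ∃ c : ℝ, 0 < c ∧ ∀ᵐ x ∂μ, ‖f x‖ ≤ c := by
    refine ⟨(eLpNormEssSup f μ).toReal + 1, by positivity,
      (ae_le_eLpNormEssSup (f := f) (μ := μ)).mono fun x hx => ?_⟩
    have h1 := ENNReal.toReal_mono (eLpNorm_exponent_top (f := f) (μ := μ) ▸ hf.2.ne) hx
    rw [toReal_enorm] at h1
    linarith
  have h2 : ∀ s : ℝ, |s| ≤ c → c * max (-1) (min 1 (s / c)) = s := fun s hs => by
    obtain ⟨h2, h3⟩ := abs_le.1 hs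
    rw [min_eq_right ((div_le_one hc0).2 h3), max_eq_right ((le_div_iff₀ hc0).2 (by linarith)),
      mul_div_cancel₀ _ hc0.ne']
  refine ⟨c, fun x => max (-1) (min 1 ((hf.1.mk f x).re / c)),
    fun x => max (-1) (min 1 ((hf.1.mk f x).im / c)), by fun_prop, by fun_prop,
    fun x => hc _, fun x => hc _, ?_⟩
  filter_upwards [h1, hf.1.ae_eq_mk] with x h3 h4
  rw [← h4, mul_add, ← mul_assoc, ← Complex.ofReal_mul, ← Complex.ofReal_mul,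
    h2 _ ((Complex.abs_re_le_norm _).trans h3), h2 _ ((Complex.abs_im_le_norm _).trans h3),
    Complex.re_add_im]

/-- The averages converge. -/
def main_Cv (z : ℕ → ℂ) : Prop :=
  ∃ l : ℂ, Tendsto (fun N : ℕ => (1 / (N : ℂ)) * ∑ n ∈ Icc 1 N, z n) atTop (𝓝 l)

theorem main_Cv.add {z z' : ℕ → ℂ} (h : main_Cv z) (h' : main_Cv z') :
    main_Cv fun n => z n + z' n := by
  obtain ⟨l, h⟩ := h
  obtain ⟨l', h'⟩ := h'
  exact ⟨l + l', by simpa only [sum_add_distrib, mul_add] using h.add h'⟩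

theorem main_Cv.mul {z : ℕ → ℂ} (h : main_Cv z) (c : ℂ) : main_Cv fun n => c * z n := by
  obtain ⟨l, h⟩ := h
  exact ⟨c * l, by simpa only [← mul_sum, mul_left_comm c] using h.const_mul c⟩

theorem main_three (hS : MeasurePreserving S μ μ) {a b c : X → ℝ} (ha : Measurable a)
    (hb : Measurable b) (hc : Measurable c) (ha1 : ∀ x, |a x| ≤ 1) (hb1 : ∀ x, |b x| ≤ 1)
    (hc1 : ∀ x, |c x| ≤ 1) :
    ∀ᵐ x ∂μ, main_Cv fun n => (a (S^[n] x) : ℂ) * b (S^[2 * n] x) * c (S^[3 * n] x) :=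
  main_real μ hS ![a, b, c] (fun σ => by fin_cases σ <;> assumption)
    fun σ => by fin_cases σ <;> assumption

omit [IsProbabilityMeasure μ] in
theorem main_orbit (hS : MeasurePreserving S μ μ) {f g : X → ℂ} (h : f =ᵐ[μ] g) :
    ∀ᵐ x ∂μ, ∀ n : ℕ, f (S^[n] x) = g (S^[n] x) :=
  ae_all_iff.2 fun n => (hS.iterate n).quasiMeasurePreserving.ae_eq_comp h

/-- The equalities hold along almost every orbit (`MeasurePreserving.iterate`,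
`quasiMeasurePreserving.ae_eq_comp`, `ae_all_iff`); expand the product into eight terms. -/
theorem main (hS : MeasurePreserving S μ μ) {f₁ f₂ f₃ : X → ℂ} (h₁ : MemLp f₁ ⊤ μ)
    (h₂ : MemLp f₂ ⊤ μ) (h₃ : MemLp f₃ ⊤ μ) :
    ∀ᵐ x ∂μ, ∃ l : ℂ, Tendsto (fun N : ℕ => (1 / (N : ℂ)) * ∑ n ∈ Icc 1 N,
      f₁ (S^[n] x) * f₂ (S^[2 * n] x) * f₃ (S^[3 * n] x)) atTop (𝓝 l) := by
  obtain ⟨c₁, u₁, v₁, a₁, b₁, d₁, e₁, g₁⟩ := main_split μ h₁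
  obtain ⟨c₂, u₂, v₂, a₂, b₂, d₂, e₂, g₂⟩ := main_split μ h₂
  obtain ⟨c₃, u₃, v₃, a₃, b₃, d₃, e₃, g₃⟩ := main_split μ h₃
  filter_upwards [main_orbit μ hS g₁, main_orbit μ hS g₂, main_orbit μ hS g₃,
    main_three μ hS a₁ a₂ a₃ d₁ d₂ d₃, main_three μ hS a₁ a₂ b₃ d₁ d₂ e₃,
    main_three μ hS a₁ b₂ a₃ d₁ e₂ d₃, main_three μ hS a₁ b₂ b₃ d₁ e₂ e₃,
    main_three μ hS b₁ a₂ a₃ e₁ d₂ d₃, main_three μ hS b₁ a₂ b₃ e₁ d₂ e₃,
    main_three μ hS b₁ b₂ a₃ e₁ e₂ d₃, main_three μ hS b₁ b₂ b₃ e₁ e₂ e₃]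
    with x k₁ k₂ k₃ t₀ t₁ t₂ t₃ t₄ t₅ t₆ t₇
  obtain ⟨l, hl⟩ := (((t₀.add (t₁.mul Complex.I)).add
    ((t₂.add (t₃.mul Complex.I)).mul Complex.I)).add (((t₄.add (t₅.mul Complex.I)).add
      ((t₆.add (t₇.mul Complex.I)).mul Complex.I)).mul Complex.I)).mul (c₁ * c₂ * c₃)
  refine ⟨l, hl.congr fun N => congrArg _ (sum_congr rfl fun n _ => ?_)⟩
  rw [k₁, k₂, k₃]
  ring

end Pool.Agent.TR
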