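import Pool.Agent.Lib.MP_cc859a_an.TR.Lit
import Pool.Agent.Lib.MP_cc859a_an.TR.Bern

open Finset Real
open scoped BigOperators ComplexConjugate

namespace Pool.Agent.TR

theorem pota_hub (t : ℝ) : hub t = clip t * t - clip t ^ 2 / 2 := by
  unfold hub clip
  split_ifs with h
  · rw [min_eq_right (abs_le.1 h).2, max_eq_right (abs_le.1 h).1]
    ring
  · rcases lt_abs.1 (not_le.1 h) with h1 | h1
    · rw [min_eq_left h1.le, max_eq_right (by norm_num), abs_of_pos (by linarith)]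
      ring
    · rw [min_eq_right (by linarith), max_eq_left (by linarith), abs_of_neg (by linarith)]
      ring

theorem pota_proj {a : ℝ} (ha : |a| ≤ 1) (s : ℝ) : (a - clip s) * (s - clip s) ≤ 0 := by
  obtain ⟨h1, h2⟩ := abs_le.1 ha
  unfold clip
  rcases le_total 1 s with h | h
  · rw [min_eq_left h, max_eq_right (by norm_num)]
    nlinarith
  · rw [min_eq_right h]
    rcases le_total (-1) s with h' | h'
    · rw [max_eq_right h', sub_self, mul_zero]
    · rw [max_eq_left h']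
      nlinarith

theorem hub_add (s d : ℝ) : hub (s + d) ≤ hub s + clip s * d + d ^ 2 / 2 := by
  rw [pota_hub, pota_hub]
  nlinarith [pota_proj (abs_clip_le (s + d)) s, sq_nonneg (clip (s + d) - clip s - d)]

theorem hub_lower {f : ℝ} (hf : |f| ≤ 1) (s : ℝ) : -(1 / 2) ≤ hub s - f * s := by
  rw [pota_hub]
  nlinarith [pota_proj hf s, sq_nonneg (clip s - f), (sq_le_one_iff_abs_le_one f).2 hf]

theorem Pot_zero (L : ℕ) (f : Fin 3 → ℤ → ℝ) : Pot L f (fun _ _ => 0) = 0 := by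
  simp [Pot, hub]

theorem Pot_lower (L : ℕ) {f : Fin 3 → ℤ → ℝ} (hf : ∀ σ y, |f σ y| ≤ 1) (s : Fin 3 → ℤ → ℝ) :
    -(11 * (L : ℝ)) ≤ Pot L f s := by
  refine le_trans ?_ (sum_le_sum fun σ _ => sum_le_sum fun y _ => hub_lower (hf σ y) (s σ y))
  simp only [sum_const, card_star, card_univ, Fintype.card_fin, nsmul_eq_mul]
  push_cast
  linarith [Nat.cast_nonneg (α := ℝ) L]

theorem pota_upd (L : ℕ) (f s : Fin 3 → ℤ → ℝ) (τ : Fin 3) (d : ℤ → ℝ) :
    Pot L f (fun σ y => s σ y + if τ = σ then d y else 0) ≤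
      Pot L f s + ∑ y ∈ star L 0, ((clip (s τ y) - f τ y) * d y + d y ^ 2 / 2) := by
  rw [← Fintype.sum_ite_eq τ fun σ => ∑ y ∈ star L 0, ((clip (s σ y) - f σ y) * d y + d y ^ 2 / 2),
    Pot, Pot, ← sum_add_distrib]
  refine sum_le_sum fun σ _ => ?_
  split_ifs
  · rw [← sum_add_distrib]
    exact sum_le_sum fun y _ => by linarith [hub_add (s σ y) (d y)]
  · simp

/-- The three terms of the telescoping sum. -/
noncomputable def pota_w (f g : Fin 3 → ℤ → ℝ) (τ σ : Fin 3) (y : ℤ) : ℝ :=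
  if σ = τ then (f σ y - g σ y) / 2 else if σ < τ then g σ y else f σ y

theorem pota_diag (f g : Fin 3 → ℤ → ℝ) (τ : Fin 3) (y : ℤ) :
    pota_w f g τ τ y = (f τ y - g τ y) / 2 := if_pos rfl

theorem pota_le {f g : Fin 3 → ℤ → ℝ} (hf : ∀ σ y, |f σ y| ≤ 1) (hg : ∀ σ y, |g σ y| ≤ 1)
    (τ σ : Fin 3) (y : ℤ) : ‖cx (pota_w f g τ) σ y‖ ≤ 1 := by
  rw [cx, Complex.norm_real, norm_eq_abs, pota_w]
  split_ifs
  · rw [abs_div, abs_two]
    linarith [abs_sub (f σ y) (g σ y), hf σ y, hg σ y]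
  exacts [hg σ y, hf σ y]

theorem pota_split (N : ℕ) (f g : Fin 3 → ℤ → ℝ) (x : ℤ) :
    Av N (cx f) x - Av N (cx g) x = 2 * ∑ τ, Av N (cx (pota_w f g τ)) x := by
  simp only [Av, Fin.sum_univ_three, ← expect_sub_distrib, ← expect_add_distrib, mul_expect]
  refine expect_congr rfl fun n _ => ?_
  simp [cx, pota_w]
  ring

open Classical in
/-- With `g = clip s`: `Av f - Av g = Av (f₀ - g₀, f₁, f₂) + Av (g₀, f₁ - g₁, f₂) + Av (g₀, g₁, f₂ - g₂)`,
so one term exceeds `1 / Z` on `exp (-X) L` points. Apply `lit` with `2 Z`, `2 X` and the slot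
divided by two: `∑ (f - g) Re γ ≥ 2 L / (2 Z) ^ C₀ ≥ 2 κ L`, `κ = 1 / Z ^ C`, `C = 2 C₀`. By `hub_add`
the potential drops by `c 2 κ L - c ^ 2 7 L / 2` with `c = κ / 4`; `star_subset`. -/
theorem pot_step : ∃ C : ℕ, ∀ Z X : ℝ, 2 ≤ Z → Z ≤ X → ∀ (q K : ℕ) (f s : Fin 3 → ℤ → ℝ), 1 ≤ q →
    (∀ σ y, |f σ y| ≤ 1) → ∀ j ≤ K, ∀ x₀ ∈ node (LL q K) 0,
    3 * exp (-X) * LL q j < ((node (LL q j) (x₀ / LL q j)).filter fun x =>
      3 / Z < ‖Av (NN q j) (cx f) x - Av (NN q j) (cx fun σ y => clip (s σ y)) x‖).card →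
    ∃ P : Pc, P.j = j ∧ PcOK q K X (X ^ C) P ∧
      Pot (LL q K) f (fun σ y => s σ y + if P.σ = σ then 1 / (4 * Z ^ C) * (P.a.γ y).re else 0) ≤
        Pot (LL q K) f s - LL q j / (4 * Z ^ (2 * C)) := by
  obtain ⟨C, hC⟩ := lit
  refine ⟨2 * C, fun Z X hZ hZX q K f s hq hf j hj x₀ hx hc => ?_⟩
  have hX : 2 ≤ X := hZ.trans hZX
  have hL : (0 : ℝ) ≤ LL q j := Nat.cast_nonneg _
  have he : exp (-(2 * X)) ≤ exp (-X) := exp_le_exp.2 (by linarith)
  have hp : ∀ Y : ℝ, 2 ≤ Y → (2 * Y) ^ C ≤ Y ^ (2 * C) := fun Y hY => by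
    rw [pow_mul]
    exact pow_le_pow_left₀ (by linarith) (by nlinarith) C
  obtain ⟨τ, hτ⟩ : ∃ τ, exp (-(2 * X)) * LL q j ≤ ((node (LL q j) (x₀ / LL q j)).filter fun x =>
      1 / (2 * Z) ≤ ‖Av (NN q j) (cx (pota_w f (fun σ y => clip (s σ y)) τ)) x‖).card := by
    by_contra hn
    push Not at hn
    refine hc.not_ge (le_trans (b := ∑ τ, (((node (LL q j) (x₀ / LL q j)).filter fun x =>
      1 / (2 * Z) ≤ ‖Av (NN q j) (cx (pota_w f (fun σ y => clip (s σ y)) τ)) x‖).card : ℝ)) ?_ ?_)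
    · rw [← Nat.cast_sum, Nat.cast_le]
      refine (card_le_card fun x hx => ?_).trans card_biUnion_le
      obtain ⟨h1, h2⟩ := mem_filter.1 hx
      by_contra h3
      simp only [mem_biUnion, mem_univ, mem_filter, h1, true_and, not_exists, not_le] at h3
      rw [pota_split, norm_mul, Complex.norm_two] at h2
      have h4 := norm_sum_le_of_le univ fun τ _ => (h3 τ).le
      rw [sum_const, card_univ, Fintype.card_fin, nsmul_eq_mul] at h4
      refine h2.not_ge ((mul_le_mul_of_nonneg_left h4 zero_le_two).trans (le_of_eq ?_))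
      push_cast
      ring
    · refine (sum_le_sum fun τ _ => (hn τ).le.trans (mul_le_mul_of_nonneg_right he hL)).trans ?_
      simp [mul_assoc]
  obtain ⟨D, k, a, h1, h2, h3, h4, h5, h6, h7, h8, h9, h10, h11⟩ := hC (2 * Z) (2 * X) (by linarith)
    (by linarith) _ _ _ (LL_pos hq) LL_le_NN (NN_le hq) _
    (pota_le hf (fun σ y => abs_clip_le (s σ y)) τ) τ hτ
  have he' : exp (-X ^ (2 * C)) ≤ exp (-(2 * X) ^ C) := exp_le_exp.2 (neg_le_neg (hp X hX))
  refine ⟨⟨τ, j, x₀ / LL q j, D, k, a⟩, rfl, ⟨hj, h1, h2.trans (hp X hX), h3.trans (hp X hX),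
    h4.trans (hp X hX), he'.trans h5, (mul_le_mul_of_nonneg_right he' (Nat.cast_nonneg _)).trans h6,
    h7.trans he, h8.trans (mul_le_mul_of_nonneg_right he hL),
    h9.mono Subset.rfl Subset.rfl Subset.rfl le_rfl he, h10⟩, (pota_upd _ f s τ _).trans ?_⟩
  have hs := star_subset hq hj x₀
  rw [(mem_node (LL_pos hq)).1 hx] at hs
  have hk : 0 < Z ^ (2 * C) := by positivity
  have h12 := (div_le_div_of_nonneg_left hL (by positivity) (hp Z hZ)).trans h11
  rw [← sum_subset hs fun y _ hy => by simp [h10 y hy], sub_eq_add_neg, add_le_add_iff_left,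
    mul_comm 2 (2 * C), pow_mul _ _ 2]
  generalize Z ^ (2 * C) = w at hk h12
  refine (sum_le_sum (g := fun y => -(1 / (2 * w)) * (cx (pota_w f (fun σ y => clip (s σ y)) τ) τ y *
    conj (a.γ y)).re + (1 / (4 * w)) ^ 2 / 2) fun y _ => ?_).trans ?_
  · have h13 : (a.γ y).re ^ 2 ≤ 1 :=
      (sq_le_one_iff_abs_le_one _).2 ((Complex.abs_re_le_norm _).trans (h9.norm_le y))
    rw [cx, pota_diag, Complex.re_ofReal_mul, Complex.conj_re, mul_pow]
    refine add_le_add (le_of_eq (by ring)) ?_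
    exact div_le_div_of_nonneg_right (mul_le_of_le_one_right (sq_nonneg _) h13) zero_le_two
  · rw [sum_add_distrib, ← mul_sum, sum_const, card_star, nsmul_eq_mul]
    have h13 := mul_le_mul_of_nonneg_left h12 (show 0 ≤ 1 / (2 * w) by positivity)
    have h14 : 0 ≤ (LL q j : ℝ) / w ^ 2 := by positivity
    push_cast
    have e1 : 1 / (2 * w) * (LL q j / w) = LL q j / w ^ 2 / 2 := by ring
    have e2 : 7 * (LL q j : ℝ) * ((1 / (4 * w)) ^ 2 / 2) = 7 / 32 * (LL q j / w ^ 2) := by ring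
    have e3 : (LL q j : ℝ) / (4 * w ^ 2) = LL q j / w ^ 2 / 4 := by ring
    linarith

end Pool.Agent.TR
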