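import Pool.Agent.Lib.MP_cc859a_an.TR.PotA
import Pool.Agent.Lib.MP_cc859a_an.TR.Lists

open Finset Real
open scoped BigOperators ComplexConjugate

namespace Pool.Agent.TR

open Classical in
/-- The conclusion at the scale `j`. -/
def potb_claim (q K : ℕ) (f : Fin 3 → ℤ → ℝ) (Z X c : ℝ) {ι : Type} [Fintype ι] (p : ι → Pc)
    (j : ℕ) : Prop :=
  ∀ x₀ ∈ node (LL q K) 0,
    (((node (LL q j) (x₀ / LL q j)).filter fun x => 3 / Z < ‖Av (NN q j) (cx f) x -
      Av (NN q j) (cx fun σ y =>
        clip (sfun c p (univ.filter fun r => j ≤ (p r).j) σ y)) x‖).card : ℝ) ≤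
      3 * exp (-X) * LL q j

/-- Families with pieces of scale at least `j`, a low potential and the conclusion at the scales
from `n` on. -/
def potb_valid (q K C : ℕ) (f : Fin 3 → ℤ → ℝ) (Z X : ℝ) {ι : Type} [Fintype ι] (p : ι → Pc)
    (j n : ℕ) : Prop :=
  (∀ r, PcOK q K X (X ^ C) (p r)) ∧ (∀ r, j ≤ (p r).j) ∧
    Pot (LL q K) f (sfun (1 / (4 * Z ^ C)) p univ) ≤
      -((∑ r, (LL q (p r).j : ℝ)) / (4 * Z ^ (2 * C))) ∧
    ∀ j', n ≤ j' → j' ≤ K → potb_claim q K f Z X (1 / (4 * Z ^ C)) p j'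

theorem potb_sfun_univ {ι : Type} [Fintype ι] (c : ℝ) (p : ι → Pc) (P : Pc) :
    sfun c (fun r : Option ι => r.elim P p) univ =
      fun σ y => sfun c p univ σ y + if P.σ = σ then c * (P.a.γ y).re else 0 := by
  funext σ y
  simp only [sfun, sum_filter, Fintype.sum_option, Option.elim_none, Option.elim_some]
  split_ifs <;> ring

theorem potb_sfun_gt {ι : Type} [Fintype ι] (c : ℝ) (p : ι → Pc) (P : Pc) {j : ℕ}
    (h : P.j < j) :
    sfun c (fun r : Option ι => r.elim P p)
        (univ.filter fun r : Option ι => j ≤ (r.elim P p).j) =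
      sfun c p (univ.filter fun r => j ≤ (p r).j) := by
  funext σ y
  simp only [sfun, sum_filter, Fintype.sum_option, Option.elim_none, Option.elim_some,
    if_neg (not_le.2 h), zero_add]

theorem potb_bound {q K C : ℕ} {f : Fin 3 → ℤ → ℝ} {Z X : ℝ} (hZ : 2 ≤ Z)
    (hf : ∀ σ y, |f σ y| ≤ 1) {ι : Type} [Fintype ι] {p : ι → Pc} {j n : ℕ}
    (h : potb_valid q K C f Z X p j n) :
    ∑ r, (LL q (p r).j : ℝ) ≤ 44 * Z ^ (2 * C) * LL q K := by
  have h1 := (Pot_lower (LL q K) hf _).trans h.2.2.1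
  have h2 : (0 : ℝ) < 4 * Z ^ (2 * C) := by positivity
  rw [neg_le_neg_iff, div_le_iff₀ h2] at h1
  linarith

theorem potb_one_le {q : ℕ} (hq : 1 ≤ q) (j : ℕ) : (1 : ℝ) ≤ LL q j := by
  have : 1 ≤ LL q j := Nat.mul_pos hq (Nat.pow_pos (by norm_num))
  exact_mod_cast this

open Classical in
/-- `c = 1 / (4 Z ^ C₀)`. Call a family valid at `j` if all pieces have scale `≥ j`,
`Pot (sfun c p univ) ≤ - ∑ L / (4 Z ^ (2 C₀))`, and the claim holds for all scales `> j` (these do
not see pieces of scale `j`). By `Pot_lower` the natural number `∑ L` is at most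
`44 Z ^ (2 C₀) L_K`. A family valid at `j` with the largest `∑ L` satisfies the claim at `j` too
(else add the piece of `pot_step`, index type `Option ι`), so it is valid at `j - 1`. Start with the
empty family; downward induction on `j` (it is convenient to index by `n = j + 1`). -/
theorem pot_exists : ∃ C : ℕ, ∀ Z X : ℝ, 2 ≤ Z → Z ≤ X → ∀ (q K : ℕ) (f : Fin 3 → ℤ → ℝ), 1 ≤ q →
    (∀ σ y, |f σ y| ≤ 1) → ∃ (ι : Type) (_ : Fintype ι) (p : ι → Pc) (c : ℝ), 0 ≤ c ∧ c ≤ 1 ∧
      (∀ r, PcOK q K X (X ^ C) (p r)) ∧ ∑ r, (LL q (p r).j : ℝ) ≤ Z ^ C * LL q K ∧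
      ∀ j ≤ K, ∀ x₀ ∈ node (LL q K) 0,
        (((node (LL q j) (x₀ / LL q j)).filter fun x => 3 / Z < ‖Av (NN q j) (cx f) x -
          Av (NN q j) (cx fun σ y =>
            clip (sfun c p (univ.filter fun r => j ≤ (p r).j) σ y)) x‖).card : ℝ) ≤
          3 * exp (-X) * LL q j := by
  obtain ⟨C, hC⟩ := pot_step
  refine ⟨2 * C + 6, fun Z X hZ hZX q K f hq hf => ?_⟩
  have hX : 2 ≤ X := hZ.trans hZX
  have step : ∀ j ≤ K, ∀ (t : ℕ) (ι : Type) (_ : Fintype ι) (p : ι → Pc),
      potb_valid q K C f Z X p j (j + 1) →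
      44 * Z ^ (2 * C) * LL q K < ∑ r, (LL q (p r).j : ℝ) + t →
      ∃ (ι : Type) (_ : Fintype ι) (p : ι → Pc), potb_valid q K C f Z X p j j := by
    intro j hj t
    induction t with
    | zero =>
      intro ι _ p hv ht
      have := potb_bound hZ hf hv
      simp only [Nat.cast_zero, add_zero] at ht
      linarith
    | succ t ih =>
      intro ι _ p hv ht
      by_cases hc : potb_claim q K f Z X (1 / (4 * Z ^ C)) p j
      · refine ⟨ι, inferInstance, p, hv.1, hv.2.1, hv.2.2.1, fun j' h1 h2 => ?_⟩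
        rcases h1.eq_or_lt with rfl | h1
        · exact hc
        · exact hv.2.2.2 j' h1 h2
      · simp only [potb_claim, not_forall, not_le] at hc
        obtain ⟨x₀, hx₀, hc⟩ := hc
        rw [filter_true_of_mem (s := univ) fun r _ => hv.2.1 r] at hc
        obtain ⟨P, hPj, hP, hpot⟩ :=
          hC Z X hZ hZX q K f (sfun (1 / (4 * Z ^ C)) p univ) hq hf j hj x₀ hx₀ hc
        have hsum : ∑ r : Option ι, (LL q (r.elim P p).j : ℝ) =
            LL q j + ∑ r, (LL q (p r).j : ℝ) := by
          rw [Fintype.sum_option]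
          simp only [Option.elim_none, Option.elim_some, hPj]
        refine ih (Option ι) inferInstance (fun r => r.elim P p) ⟨?_, ?_, ?_, ?_⟩ ?_
        · rintro (_ | r)
          · exact hP
          · exact hv.1 r
        · rintro (_ | r)
          · exact hPj.ge
          · exact hv.2.1 r
        · rw [potb_sfun_univ, hsum, add_div]
          have := hv.2.2.1
          linarith
        · intro j' h1 h2 x hx
          rw [potb_sfun_gt _ p P (by omega)]
          exact hv.2.2.2 j' h1 h2 x hx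
        · have := potb_one_le hq j
          rw [hsum]
          push_cast at ht
          linarith
  have down : ∀ m n : ℕ, n + m = K + 1 →
      ∃ (ι : Type) (_ : Fintype ι) (p : ι → Pc), potb_valid q K C f Z X p n n := by
    intro m
    induction m with
    | zero =>
      intro n hn
      refine ⟨Empty, inferInstance, Empty.elim, fun r => r.elim, fun r => r.elim, ?_,
        fun j' h1 h2 => by omega⟩
      have h0 : sfun (1 / (4 * Z ^ C)) (Empty.elim : Empty → Pc) univ = fun _ _ => 0 := by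
        funext σ y
        simp [sfun]
      rw [h0, Pot_zero]
      simp
    | succ m ih =>
      intro n hn
      obtain ⟨ι, _, p, hv⟩ := ih (n + 1) (by omega)
      obtain ⟨t, ht⟩ := exists_nat_gt (44 * Z ^ (2 * C) * LL q K)
      refine step n (by omega) t ι inferInstance p
        ⟨hv.1, fun r => (Nat.le_succ n).trans (hv.2.1 r), hv.2.2.1, hv.2.2.2⟩ ?_
      have : (0 : ℝ) ≤ ∑ r, (LL q (p r).j : ℝ) := sum_nonneg fun r _ => Nat.cast_nonneg _
      linarith
  obtain ⟨ι, _, p, hv⟩ := down (K + 1) 0 (zero_add _)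
  have h1 := num_one_le hZ C
  refine ⟨ι, inferInstance, p, 1 / (4 * Z ^ C), by positivity, ?_,
    fun r => (hv.1 r).mono le_rfl (num_mono hX (by omega)), (potb_bound hZ hf hv).trans ?_,
    fun j hj => hv.2.2.2 j (Nat.zero_le j) hj⟩
  · rw [div_le_one (by positivity)]
    linarith
  · refine mul_le_mul_of_nonneg_right ?_ (Nat.cast_nonneg _)
    have h2 := num_two_pow hZ 6
    have h3 : (0 : ℝ) ≤ Z ^ (2 * C) := by positivity
    rw [pow_add]
    nlinarith

end Pool.Agent.TR
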