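import Pool.Agent.Lib.MP_cc859a_an.TR.DefsR

open Finset Real
open scoped BigOperators ComplexConjugate

namespace Pool.Agent.TR

theorem mem_sides {H : ℕ} {h : Fin 3 × Bool → ℤ} : h ∈ sides H ↔ ∀ p, h p ∈ Icc (1 : ℤ) H := by
  simp only [sides, Fintype.mem_piFinset]

theorem card_sides (H : ℕ) : (sides H).card = H ^ 6 := by
  simp [sides, Fintype.card_piFinset]

/-- Resampling one side. The map `(h, y) ↦ (update h p y, h p)` is an involution. -/
theorem sum_sides_update (H : ℕ) (p : Fin 3 × Bool) (F : (Fin 3 × Bool → ℤ) → ℝ) :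
    ∑ h ∈ sides H, ∑ y ∈ Icc (1 : ℤ) H, F (Function.update h p y) = H * ∑ h ∈ sides H, F h := by
  have e1 : (H : ℝ) * ∑ h ∈ sides H, F h = ∑ h ∈ sides H, ∑ _y ∈ Icc (1 : ℤ) H, F h := by
    rw [mul_sum]
    refine sum_congr rfl fun h _ => ?_
    simp
  rw [e1, ← sum_product', ← sum_product' (f := fun h (_ : ℤ) => F h)]
  have hm : ∀ c ∈ sides H ×ˢ Icc (1 : ℤ) H,
      (Function.update c.1 p c.2, c.1 p) ∈ sides H ×ˢ Icc (1 : ℤ) H := by
    intro c hc
    rw [mem_product] at hc ⊢
    refine ⟨mem_sides.2 fun r => ?_, mem_sides.1 hc.1 p⟩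
    by_cases hr : r = p
    · subst hr
      simpa using hc.2
    · simpa [Function.update_of_ne hr] using mem_sides.1 hc.1 r
  refine sum_nbij' (fun c => (Function.update c.1 p c.2, c.1 p))
    (fun c => (Function.update c.1 p c.2, c.1 p)) hm hm ?_ ?_ ?_
  · intro c _
    simp
  · intro c _
    simp
  · intro c _
    rfl

/-- One Cauchy-Schwarz step. `G z h` does not depend on `h (i, true)`. Put
`Φ z h = ∑ y, G z (update h (i, false) y)`. By `sum_sides_update` the sum of `Φ` is `H` times the sum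
of `G`; `Φ ^ 2 = ∑ y, ∑ y', K z (update (update h (i, false) y) (i, true) y')` where `K` is the
summand on the right, so the sum of `Φ ^ 2` is `H ^ 2` times the sum of `K`;
`sq_sum_le_card_mul_sum_sq` on `Z ×ˢ sides H`. -/
theorem box_step {H : ℕ} (hH : 0 < H) (Z : Finset (ℤ × ℤ)) (i : Fin 3)
    (G : ℤ × ℤ → (Fin 3 × Bool → ℤ) → ℝ)
    (hG : ∀ z h y, G z (Function.update h (i, true) y) = G z h) :
    (∑ z ∈ Z, ∑ h ∈ sides H, G z h) ^ 2 ≤ Z.card * H ^ 6 *
      ∑ z ∈ Z, ∑ h ∈ sides H, G z h * G z (Function.update h (i, false) (h (i, true))) := by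
  have hH' : (0 : ℝ) < H := by exact_mod_cast hH
  set Φ : ℤ × ℤ → (Fin 3 × Bool → ℤ) → ℝ :=
    fun z h => ∑ y ∈ Icc (1 : ℤ) H, G z (Function.update h (i, false) y) with hΦ
  set K : ℤ × ℤ → (Fin 3 × Bool → ℤ) → ℝ :=
    fun z h => G z h * G z (Function.update h (i, false) (h (i, true))) with hK
  have hne : ((i, false) : Fin 3 × Bool) ≠ (i, true) := by simp
  have e1 : ∑ z ∈ Z, ∑ h ∈ sides H, Φ z h = H * ∑ z ∈ Z, ∑ h ∈ sides H, G z h := by
    rw [mul_sum]
    exact sum_congr rfl fun z _ => sum_sides_update H (i, false) (G z)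
  have e2 : ∑ z ∈ Z, ∑ h ∈ sides H, Φ z h ^ 2 = H * (H * ∑ z ∈ Z, ∑ h ∈ sides H, K z h) := by
    rw [mul_sum, mul_sum]
    refine sum_congr rfl fun z _ => ?_
    rw [← sum_sides_update H (i, true) (K z), ← sum_sides_update H (i, false)
      fun h => ∑ y ∈ Icc (1 : ℤ) H, K z (Function.update h (i, true) y)]
    refine sum_congr rfl fun h _ => ?_
    rw [sq, sum_mul_sum]
    refine sum_congr rfl fun y _ => sum_congr rfl fun y' _ => ?_
    simp only [hK]
    rw [hG, Function.update_self, Function.update_comm hne.symm, hG, Function.update_idem]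
  have e3 := sq_sum_le_card_mul_sum_sq (s := Z ×ˢ sides H) (f := fun c => Φ c.1 c.2)
  rw [sum_product' (f := Φ), sum_product' (f := fun z h => Φ z h ^ 2), e1, e2, card_product,
    card_sides] at e3
  push_cast at e3
  have e4 : (H : ℝ) ^ 2 * (∑ z ∈ Z, ∑ h ∈ sides H, G z h) ^ 2 ≤
      (H : ℝ) ^ 2 * (Z.card * H ^ 6 * ∑ z ∈ Z, ∑ h ∈ sides H, K z h) := by
    calc _ = (H * ∑ z ∈ Z, ∑ h ∈ sides H, G z h) ^ 2 := by ring
      _ ≤ _ := e3
      _ = _ := by ring
  exact le_of_mul_le_mul_left e4 (by positivity)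

theorem rbox_true (z : ℤ × ℤ) (h : Fin 3 × Bool → ℤ) (y : ℤ) {i : Fin 3} (ω : Fin 3 → Bool)
    (hω : ω i = false) : vert z (Function.update h (i, true) y) ω = vert z h ω := by
  have : ∀ j, Function.update h (i, true) y (j, ω j) = h (j, ω j) := fun j =>
    Function.update_of_ne (fun e => by
      obtain ⟨rfl, e2⟩ := Prod.mk.inj e
      simp [hω] at e2) _ _
  simp only [vert, this]

theorem rbox_false (z : ℤ × ℤ) (h : Fin 3 × Bool → ℤ) {i : Fin 3} (ω : Fin 3 → Bool)
    (hω : ω i = false) : vert z (Function.update h (i, false) (h (i, true))) ω =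
      vert z h (Function.update ω i true) := by
  have : ∀ j, Function.update h (i, false) (h (i, true)) (j, ω j) =
      h (j, Function.update ω i true j) := fun j => by
    by_cases e : j = i
    · subst e
      simp [hω]
    · rw [Function.update_of_ne e, Function.update_of_ne fun e' => e (Prod.mk.inj e').1]
  simp only [vert, this]

theorem rbox_sum (Z Ω : Finset (ℤ × ℤ)) (h : Fin 3 × Bool → ℤ) (ω : Fin 3 → Bool)
    (hZ : ∀ z, vert z h ω ∈ Ω → z ∈ Z) :
    ∑ z ∈ Z, (if vert z h ω ∈ Ω then (1 : ℝ) else 0) = Ω.card := by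
  rw [sum_boole]
  congr 1
  refine card_nbij' (fun z => vert z h ω) (fun p =>
    (p.1 - ∑ i : Fin 3, (((i : ℕ) : ℤ) + 1) * h (i, ω i), p.2 + ∑ i : Fin 3, h (i, ω i))) ?_ ?_ ?_ ?_
  · intro z hz
    exact (mem_filter.1 hz).2
  · intro p hp
    have : vert (p.1 - ∑ i : Fin 3, (((i : ℕ) : ℤ) + 1) * h (i, ω i),
        p.2 + ∑ i : Fin 3, h (i, ω i)) h ω = p := by simp [vert]
    exact mem_filter.2 ⟨hZ _ (this.symm ▸ hp), this.symm ▸ hp⟩
  · intro z _
    simp [vert]
  · intro p _
    simp [vert]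

/-- `f` is the indicator of `Ω`. `G₀ z h = f (vert z h 000)` has sum `card Ω * H ^ 6` (for fixed `h`
the map `z ↦ vert z h 000` is a translation, use `hZ`). Three times `box_step`; `G₃` is the product
over all eight vertices (`vert` at `update h (i, false) (h (i, true))` is `vert` at the vertex with
the bit `i` set). -/
theorem box {H : ℕ} (hH : 0 < H) (Z Ω : Finset (ℤ × ℤ))
    (hZ : ∀ z, ∀ h ∈ sides H, ∀ ω, vert z h ω ∈ Ω → z ∈ Z) :
    (Ω.card : ℝ) ^ 8 * H ^ 6 ≤ (Z.card : ℝ) ^ 7 * (cubes Z Ω H).card := by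
  have hH' : (0 : ℝ) < H := by exact_mod_cast hH
  set f : ℤ × ℤ → ℝ := fun p => if p ∈ Ω then 1 else 0 with hf
  have hf0 : ∀ p, 0 ≤ f p := fun p => by
    simp only [hf]
    split_ifs <;> norm_num
  have b0 := box_step hH Z 0 (fun z h => f (vert z h ![false, false, false])) fun z h y => by
    rw [rbox_true _ _ _ _ rfl]
  have b1 := box_step hH Z 1 (fun z h => ∏ b : Bool, f (vert z h ![b, false, false]))
    fun z h y => prod_congr rfl fun b _ => by rw [rbox_true _ _ _ _ rfl]
  have b2 := box_step hH Z 2 (fun z h => ∏ b : Bool, ∏ c : Bool, f (vert z h ![b, c, false]))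
    fun z h y => prod_congr rfl fun b _ => prod_congr rfl fun c _ => by rw [rbox_true _ _ _ _ rfl]
  have u0 : Function.update ![false, false, false] (0 : Fin 3) true = ![true, false, false] := by
    decide
  have u1 : ∀ b : Bool, Function.update ![b, false, false] (1 : Fin 3) true = ![b, true, false] := by
    decide
  have u2 : ∀ b c : Bool, Function.update ![b, c, false] (2 : Fin 3) true = ![b, c, true] := by
    decide
  have c0 : ∀ z h, f (vert z h ![false, false, false]) *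
      f (vert z (Function.update h (0, false) (h (0, true))) ![false, false, false]) =
      ∏ b : Bool, f (vert z h ![b, false, false]) := by
    intro z h
    rw [rbox_false _ _ _ rfl, u0, Fintype.prod_bool, mul_comm]
  have c1 : ∀ z h, (∏ b : Bool, f (vert z h ![b, false, false])) *
      (∏ b : Bool, f (vert z (Function.update h (1, false) (h (1, true))) ![b, false, false])) =
      ∏ b : Bool, ∏ c : Bool, f (vert z h ![b, c, false]) := by
    intro z h
    rw [← prod_mul_distrib]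
    refine prod_congr rfl fun b _ => ?_
    rw [rbox_false _ _ _ rfl, u1, Fintype.prod_bool, mul_comm]
  have c2 : ∀ z, ∀ h, (∏ b : Bool, ∏ c : Bool, f (vert z h ![b, c, false])) *
      (∏ b : Bool, ∏ c : Bool,
        f (vert z (Function.update h (2, false) (h (2, true))) ![b, c, false])) ≤
      if ∀ ω, vert z h ω ∈ Ω then 1 else 0 := by
    intro z h
    have : ∀ b c : Bool, vert z (Function.update h (2, false) (h (2, true))) ![b, c, false] =
        vert z h ![b, c, true] := fun b c => by rw [rbox_false _ _ _ rfl, u2]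
    simp only [this]
    split_ifs with hω
    · simp [hf, hω]
    · obtain ⟨ω, hω⟩ := not_forall.1 hω
      have e : ω = ![ω 0, ω 1, ω 2] := by
        ext j
        fin_cases j <;> rfl
      have z0 : f (vert z h ![ω 0, ω 1, ω 2]) = 0 := by
        rw [← e]
        simp [hf, hω]
      refine le_of_eq (mul_eq_zero.2 ?_)
      cases h2 : ω 2
      · rw [h2] at z0
        exact Or.inl (prod_eq_zero (mem_univ (ω 0)) (prod_eq_zero (mem_univ (ω 1)) z0))
      · rw [h2] at z0
        exact Or.inr (prod_eq_zero (mem_univ (ω 0)) (prod_eq_zero (mem_univ (ω 1)) z0))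
  simp only [c0] at b0
  simp only [c1] at b1
  have b3 := b2.trans (mul_le_mul_of_nonneg_left
    (sum_le_sum fun z _ => sum_le_sum fun h _ => c2 z h) (by positivity))
  have s3 : ∑ z ∈ Z, ∑ h ∈ sides H, (if ∀ ω, vert z h ω ∈ Ω then (1 : ℝ) else 0) =
      (cubes Z Ω H).card := by
    rw [cubes, card_filter, ← sum_product' (f := fun z h => if ∀ ω, vert z h ω ∈ Ω then (1 : ℝ) else 0)]
    push_cast
    rfl
  have s0 : ∑ z ∈ Z, ∑ h ∈ sides H, f (vert z h ![false, false, false]) = Ω.card * H ^ 6 := by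
    rw [sum_comm, sum_congr rfl fun h hh => rbox_sum Z Ω h _ fun z => hZ z h hh _, sum_const,
      card_sides]
    simp [mul_comm]
  rw [s3] at b3
  rw [s0] at b0
  set S1 := ∑ z ∈ Z, ∑ h ∈ sides H, ∏ b : Bool, f (vert z h ![b, false, false])
  set S2 := ∑ z ∈ Z, ∑ h ∈ sides H, ∏ b : Bool, ∏ c : Bool, f (vert z h ![b, c, false])
  set c : ℝ := Z.card * H ^ 6 with hc
  have hc0 : 0 ≤ c := by positivity
  have k1 : (((Ω.card : ℝ) * H ^ 6) ^ 2) ^ 4 ≤ (c * S1) ^ 4 := pow_le_pow_left₀ (sq_nonneg _) b0 4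
  have k2 : (S1 ^ 2) ^ 2 ≤ (c * S2) ^ 2 := pow_le_pow_left₀ (sq_nonneg _) b1 2
  have k3 : (H : ℝ) ^ 42 * ((Ω.card : ℝ) ^ 8 * H ^ 6) ≤
      (H : ℝ) ^ 42 * ((Z.card : ℝ) ^ 7 * (cubes Z Ω H).card) := by
    calc _ = (((Ω.card : ℝ) * H ^ 6) ^ 2) ^ 4 := by ring
      _ ≤ (c * S1) ^ 4 := k1
      _ = c ^ 4 * (S1 ^ 2) ^ 2 := by ring
      _ ≤ c ^ 4 * (c * S2) ^ 2 := mul_le_mul_of_nonneg_left k2 (by positivity)
      _ = c ^ 6 * S2 ^ 2 := by ring
      _ ≤ c ^ 6 * (c * (cubes Z Ω H).card) := mul_le_mul_of_nonneg_left b3 (by positivity)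
      _ = _ := by rw [hc]; ring
  exact le_of_mul_le_mul_left k3 (by positivity)

end Pool.Agent.TR
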