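import Pool.Agent.Lib.MP_cc859a_an.TR.RKb

open Finset Real
open scoped BigOperators ComplexConjugate

namespace Pool.Agent.TR

namespace Rng

variable {D : Data} {k : ℕ} {s : ℝ} {g Na Nb : ℕ} (R : Rng D k s g Na Nb)

/-- `exists_eq_ciInf_of_finite`. -/
theorem exists_ep (ξ : T) : ∃ i, R.ep ξ = ‖ξ + R.φ i‖ := by
  have : Nonempty (Fin R.n) := ⟨⟨0, R.n_pos⟩⟩
  obtain ⟨i, hi⟩ := exists_eq_ciInf_of_finite (f := fun i => ‖ξ + R.φ i‖)
  exact ⟨i, hi.symm⟩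

theorem ep_le (ξ : T) (i : Fin R.n) : R.ep ξ ≤ ‖ξ + R.φ i‖ := by
  exact ciInf_le (Finite.bddBelow_range fun i => ‖ξ + R.φ i‖) i

theorem ep_nonneg (ξ : T) : 0 ≤ R.ep ξ := by
  obtain ⟨i, hi⟩ := R.exists_ep ξ
  rw [hi]
  exact norm_nonneg _

include R in
theorem rkc_two : (2 : ℝ) ≤ 2 ^ g := by
  have h := mul_le_mul_of_nonneg_left R.s_le (by positivity : (0 : ℝ) ≤ 2 ^ g)
  linarith [R.gap_s]

theorem rkc_small {x c : ℝ} (hx : 0 ≤ x) (h : 2 ^ g * x ≤ c) : 100 * x ≤ c * (s * R.sg) := by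
  have h1 := mul_le_mul_of_nonneg_right R.gap_sg hx
  have h2 := mul_le_mul_of_nonneg_right h (mul_pos R.s_pos R.sg_pos).le
  linarith

theorem rkc_mu {N : ℕ} {θ : T} (h : 2 ^ g ≤ N * ‖θ‖) :
    ‖mu (Icc (1 : ℤ) N) θ‖ ≤ s * R.sg / 200 := by
  have h1 := R.rkc_small (norm_nonneg _)
    ((mul_le_mul_of_nonneg_right h (norm_nonneg _)).trans (norm_mu_Icc N θ))
  linarith

theorem rkc_div {z : ℂ} (h : ‖z‖ ≤ s * R.sg) : ‖((R.sg : ℂ))⁻¹ * z‖ ≤ s := by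
  rw [norm_mul, norm_inv, Complex.norm_real, Real.norm_of_nonneg R.sg_pos.le,
    inv_mul_le_iff₀ R.sg_pos, mul_comm]
  exact h

/-- `Wh_eq`, every term is at most `1 / (2 G)` (`norm_mu_Icc`), `gap_sg`. -/
theorem Wh_high {N : ℕ} {ξ : T} (h : 2 ^ g < N * R.ep ξ) : ‖R.Wh N ξ‖ ≤ s := by
  have hN : N ≠ 0 := by
    rintro rfl
    rw [Nat.cast_zero, zero_mul] at h
    exact h.not_ge (by positivity)
  have h0 := mul_pos R.s_pos R.sg_pos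
  rw [R.Wh_eq hN]
  refine R.rkc_div (norm_expect_le' _ _ h0.le fun i _ => (R.rkc_mu ?_).trans (by linarith))
  exact h.le.trans (mul_le_mul_of_nonneg_left (R.ep_le ξ i) (Nat.cast_nonneg _))

/-- With the minimiser `i₀` let `P i` say that `φ i - φ i₀` is tiny, `c = (ncard P / n) / sg`.
`expect_split` with `1`: for `P i` we have `N ‖ξ + φ i‖ ≤ 1 / G + 1 / G ^ 2`, else (`dich_two`)
`N ‖ξ + φ i‖ ≥ G ^ 3 - 1 / G ≥ G`. -/
theorem Wh_low (ξ : T) : ∃ c : ℂ, ∀ N : ℕ, Na ≤ N → N ≤ Nb → 2 ^ g * (N * R.ep ξ) < 1 →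
    ‖R.Wh N ξ - c‖ ≤ s := by
  obtain ⟨i₀, h₀⟩ := R.exists_ep ξ
  refine ⟨((R.sg : ℂ))⁻¹ * (((({i | ‖R.φ i - R.φ i₀‖ * Nb * (2 ^ g) ^ 2 ≤ 1}.ncard : ℝ) / R.n : ℝ) :
    ℂ) * 1), fun N ha hb h => ?_⟩
  have hG := R.rkc_two
  have ha' : (Na : ℝ) ≤ N := Nat.cast_le.2 ha
  have hb' : (N : ℝ) ≤ Nb := Nat.cast_le.2 hb
  have hN : 0 < N := by
    have : (0 : ℝ) < (2 ^ g) ^ 3 := by positivity
    exact Nat.cast_pos.1 (this.trans_le (R.big.trans ha'))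
  have hN0 : (0 : ℝ) ≤ N := Nat.cast_nonneg _
  have h0 := mul_pos R.s_pos R.sg_pos
  rw [h₀] at h
  rw [R.Wh_eq hN.ne', ← mul_sub]
  refine R.rkc_div ((R.expect_split _ _ 1 (a := 7 * (s * R.sg / 50)) (b := s * R.sg / 200)
    (by positivity) (fun i hi => ?_) fun i hi => ?_).trans ?_)
  · have h1 : ‖ξ + R.φ i‖ ≤ ‖ξ + R.φ i₀‖ + ‖R.φ i - R.φ i₀‖ := by
      rw [show ξ + R.φ i = ξ + R.φ i₀ + (R.φ i - R.φ i₀) by abel]
      exact norm_add_le _ _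
    have h2 : 2 ^ g * (N * ‖R.φ i - R.φ i₀‖) ≤ 1 := by
      refine le_trans ?_ hi
      rw [mul_comm, mul_comm (N : ℝ)]
      exact mul_le_mul (mul_le_mul_of_nonneg_left hb' (norm_nonneg _))
        (le_self_pow₀ (one_le_two.trans hG) two_ne_zero) (by positivity) (by positivity)
    have h3 := mul_le_mul_of_nonneg_left (mul_le_mul_of_nonneg_left h1 hN0)
      (by positivity : (0 : ℝ) ≤ 2 ^ g)
    have h4 := R.rkc_small (x := N * ‖ξ + R.φ i‖) (c := 2) (by positivity) (by linarith)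
    refine norm_mu_sub_one ⟨1, mem_Icc.2 ⟨le_rfl, by exact_mod_cast hN⟩⟩ fun v hv => ?_
    obtain ⟨v1, v2⟩ := mem_Icc.1 hv
    have h5 : |(v : ℝ)| ≤ N := by
      rw [abs_of_nonneg (by exact_mod_cast zero_le_one.trans v1)]
      exact_mod_cast v2
    exact (norm_zsmul_le' _ _).trans ((mul_le_mul_of_nonneg_right h5 (norm_nonneg _)).trans
      (by linarith))
  · have h1 : ‖R.φ i - R.φ i₀‖ ≤ ‖ξ + R.φ i‖ + ‖ξ + R.φ i₀‖ := by
      rw [show R.φ i - R.φ i₀ = ξ + R.φ i - (ξ + R.φ i₀) by abel]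
      exact norm_sub_le _ _
    have h2 := ((R.dich_two i i₀).resolve_left hi).trans
      (mul_le_mul h1 ha' (Nat.cast_nonneg _) (by positivity))
    have h3 := mul_le_mul_of_nonneg_right hG (by positivity : 0 ≤ N * ‖ξ + R.φ i₀‖)
    have h4 : (2 : ℝ) ^ g * (2 * 2) ≤ 2 ^ g * (2 ^ g * 2 ^ g) := by gcongr
    exact R.rkc_mu (by linarith)
  · have h1 : (({i | ‖R.φ i - R.φ i₀‖ * Nb * (2 ^ g) ^ 2 ≤ 1}.ncard : ℝ) / R.n) ≤ 1 := by
      refine div_le_one_of_le₀ (Nat.cast_le.2 ((Set.ncard_le_card _).trans ?_)) (Nat.cast_nonneg _)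
      rw [Nat.card_eq_fintype_card, Fintype.card_fin]
    have h2 := mul_le_mul_of_nonneg_right h1 (by positivity : 0 ≤ 7 * (s * R.sg / 50))
    linarith

/-- By `Wh_high` `Na ep ≤ G`; for `u ∈ V`, `‖u • ξ‖ ≤ ‖u • (ξ + φ i₀)‖ + ‖u • φ i₀‖ ≤ 1 / 50`;
`norm_mu_sub_one`. -/
theorem mu_V {N : ℕ} (hN : Na ≤ N) {ξ : T} (h : s < ‖R.Wh N ξ‖) : 1 / 2 ≤ ‖mu R.V ξ‖ := by
  have h1 : (Na : ℝ) * R.ep ξ ≤ 2 ^ g :=
    (mul_le_mul_of_nonneg_right (Nat.cast_le.2 hN) (R.ep_nonneg ξ)).trans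
      (not_lt.1 fun h' => (R.Wh_high h').not_gt h)
  obtain ⟨i, hi⟩ := R.exists_ep ξ
  rw [hi] at h1
  have h2 : ‖mu R.V ξ - 1‖ ≤ 7 * (1 / 50) := norm_mu_sub_one R.V_ne fun u hu => by
    obtain ⟨-, h3, h4⟩ := R.V_sm u hu
    have h5 := (mul_le_mul_of_nonneg_right h3 (norm_nonneg _)).trans h1
    have h6 : |(u : ℝ)| * ‖ξ + R.φ i‖ ≤ 1 / 100 :=
      le_of_mul_le_mul_left (by linarith) (by positivity : (0 : ℝ) < 2 ^ g)
    rw [show u • ξ = u • (ξ + R.φ i) - u • R.φ i by rw [smul_add, add_sub_cancel_right]]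
    linarith [norm_sub_le (u • (ξ + R.φ i)) (u • R.φ i), norm_zsmul_le' u (ξ + R.φ i), h4 i]
  have h3 := norm_sub_norm_le (1 : ℂ) (mu R.V ξ)
  rw [norm_one, norm_sub_rev] at h3
  linarith

/-- If `NN q j * ep > G` both values are small (`Wh_high`, `NN_mono`). Otherwise induction on `m`:
`G (NN q m * ep) < 1` for all `j ≤ m ≤ j'` (`NN_succ_le_two`, `2 / G ≤ G`); `Wh_low`. -/
theorem Wh_sub {q j j' : ℕ} (hq : 1 ≤ q) (hj : j ≤ j') (ha : Na ≤ NN q j) (hb : NN q j' ≤ Nb)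
    {ξ : T} (h : ∀ m, j ≤ m → m ≤ j' → ¬ R.Crit (NN q m) ξ) :
    ‖R.Wh (NN q j) ξ - R.Wh (NN q j') ξ‖ ≤ 2 * s := by
  have h0 := R.ep_nonneg ξ
  have hG := R.rkc_two
  by_cases h1 : 2 ^ g < NN q j * R.ep ξ
  · have h2 := R.Wh_high (h1.trans_le
      (mul_le_mul_of_nonneg_right (Nat.cast_le.2 (NN_mono hq hj)) h0))
    linarith [norm_sub_le (R.Wh (NN q j) ξ) (R.Wh (NN q j') ξ), R.Wh_high h1]
  · have h2 : ∀ m, j ≤ m → m ≤ j' → 2 ^ g * (NN q m * R.ep ξ) < 1 := by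
      intro m hm
      induction m, hm using Nat.le_induction with
      | base => exact fun hm' => not_le.1 fun h3 => h j le_rfl hm' ⟨h3, not_lt.1 h1⟩
      | succ m hm ih =>
        intro hm'
        refine not_le.1 fun h3 => h (m + 1) (hm.trans m.le_succ) hm' ⟨h3, ?_⟩
        have h4 := ih (m.le_succ.trans hm')
        have h5 : (NN q (m + 1) : ℝ) ≤ 2 * NN q m := by exact_mod_cast NN_succ_le_two hq
        have h6 := mul_le_mul_of_nonneg_right h5 h0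
        have h7 := mul_le_mul_of_nonneg_right hG (by positivity : 0 ≤ NN q m * R.ep ξ)
        linarith
    obtain ⟨c, hc⟩ := R.Wh_low ξ
    have h3 := hc _ ha ((NN_mono hq hj).trans hb) (h2 j le_rfl hj)
    have h4 := hc _ (ha.trans (NN_mono hq hj)) hb (h2 j' hj le_rfl)
    have h5 := norm_sub_le (R.Wh (NN q j) ξ - c) (R.Wh (NN q j') ξ - c)
    rw [sub_sub_sub_cancel_right] at h5
    linarith

/-- `NN_add_mul`, `NN_mono`. -/
theorem crit_close {q m m' : ℕ} (hq : 1 ≤ q) {ξ : T} (h : R.Crit (NN q m) ξ)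
    (h' : R.Crit (NN q m') ξ) : m' < m + q * (2 * g + 1) := by
  refine not_le.1 fun h1 => ?_
  have h2 := NN_mono hq h1
  rw [NN_add_mul hq] at h2
  have h3 : (2 : ℝ) ^ (2 * g + 1) * NN q m ≤ NN q m' := by exact_mod_cast h2
  have h4 := (mul_le_mul_of_nonneg_right h3 (R.ep_nonneg ξ)).trans h'.2
  have h5 := mul_le_mul_of_nonneg_left h.1 (by positivity : (0 : ℝ) ≤ 2 ^ g)
  rw [pow_succ, two_mul, pow_add] at h4
  linarith [R.rkc_two]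

/-- `S` lies in `Ico (min S) (min S + q (2 g + 1))`. -/
theorem card_crit {q : ℕ} (hq : 1 ≤ q) {ξ : T} {S : Finset ℕ}
    (h : ∀ m ∈ S, R.Crit (NN q m) ξ) : S.card ≤ q * (2 * g + 1) := by
  rcases S.eq_empty_or_nonempty with rfl | hS
  · exact Nat.zero_le _
  · have h1 : S ⊆ Ico (S.min' hS) (S.min' hS + q * (2 * g + 1)) := fun m hm =>
      mem_Ico.2 ⟨S.min'_le m hm, R.crit_close hq (h _ (S.min'_mem hS)) (h m hm)⟩
    simpa using card_le_card h1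

end Rng

end Pool.Agent.TR
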