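import Pool.Agent.Lib.MP_cc859a_an.TR.RRepB
import Pool.Agent.Lib.MP_cc859a_an.TR.RKc

open Finset Real
open scoped BigOperators ComplexConjugate

namespace Pool.Agent.TR

namespace Rng

variable {D : Data} {k : ℕ} {s : ℝ} {g Na Nb : ℕ} (R : Rng D k s g Na Nb) {τ : Fin 3 → Atom}

/-- If `bm τ (x + v) n` is not trivial then `‖mu V Xi‖ < 1 / 2`, both values are at most `s` (`mu_V`).
Otherwise `bm_shift`, `Xi_shift`, `r2`, `triv`, `Wh_pert` twice and `Wh_sub`. -/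
theorem change_pt (h : Adm D k s τ) {q j j' : ℕ} (hq : 1 ≤ q) (hj : j ≤ j') (ha : Na ≤ NN q j)
    (hb : NN q j' ≤ Nb) {x v n : ℤ} (hv : v ∈ R.U) (hv' : |v| ≤ Nb) (hn : n ∈ Icc (1 : ℤ) R.N1)
    (hg : Good D x n) (hg' : Good D (x + v) n) (hf : n ∉ R.far τ (x + v))
    (hh : n ∉ R.hit q τ x j j') :
    ‖R.Wh (NN q j) (Xi τ (x + v) n) - R.Wh (NN q j') (Xi τ (x + v) n)‖ ≤ 34 * s := by
  have hm := NN_mono hq hj
  have hs := R.s_pos
  by_cases ht : R.Triv (bm τ (x + v) n)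
  · have hB : v ∈ D.B := Sm_subset h.ok (R.r2 v hv hv')
    rw [h.bm_shift hg hB] at ht
    rw [h.Xi_shift hg hB]
    have h1 := R.Wh_pert (R.N1_le_Na.trans ha) (hm.trans hb) (Xi τ x n)
      fun w hw hw' => (R.triv _ ht v hv w hw hv' hw').1
    have h2 := R.Wh_pert (R.N1_le_Na.trans (ha.trans hm)) hb (Xi τ x n)
      fun w hw hw' => (R.triv _ ht v hv w hw hv' hw').1
    have h3 := R.Wh_sub hq hj ha hb (ξ := Xi τ x n) fun m h1 h2 h3 =>
      hh (R.mem_hit.2 ⟨hn, m, h1, h2, h3⟩)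
    rw [norm_sub_rev] at h2
    have h4 := norm_sub_le_norm_sub_add_norm_sub
      (R.Wh (NN q j) (Xi τ x n + (2 : ℤ) • bm τ x n v)) (R.Wh (NN q j) (Xi τ x n))
      (R.Wh (NN q j') (Xi τ x n + (2 : ℤ) • bm τ x n v))
    have h5 := norm_sub_le_norm_sub_add_norm_sub (R.Wh (NN q j) (Xi τ x n))
      (R.Wh (NN q j') (Xi τ x n)) (R.Wh (NN q j') (Xi τ x n + (2 : ℤ) • bm τ x n v))
    linarith
  · have h1 : ∀ N, Na ≤ N → ‖R.Wh N (Xi τ (x + v) n)‖ ≤ s := fun N hN => by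
      by_contra hc
      exact hf (R.mem_far.2 ⟨hn, hg', ht, R.mu_V hN (not_le.1 hc)⟩)
    have h2 := norm_sub_le (R.Wh (NN q j) (Xi τ (x + v) n)) (R.Wh (NN q j') (Xi τ (x + v) n))
    linarith [h1 _ ha, h1 _ (ha.trans hm)]

/-- Paper: Change. `rep` twice, then `norm_expect_exc` with `a = 34 s`, `b = 4`, the exceptional set
is the union of `badN D x`, `badN D (x + v)`, `far` and `hit`, `c = 3 s + card hit / N1`. -/
theorem change (h : Adm D k s τ) {q j j' : ℕ} (hq : 1 ≤ q) (hj : j ≤ j') (ha : Na ≤ NN q j)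
    (hb : NN q j' ≤ Nb) {x v : ℤ} (hx : NZ D.Bad s x) (hxv : NZ D.Bad s (x + v)) (hv : v ∈ R.U)
    (hv' : |v| ≤ Nb) (hf : ((R.far τ (x + v)).card : ℝ) ≤ s * R.N1) :
    ‖At (NN q j) τ (x + v) - At (NN q j') τ (x + v)‖ ≤
      150 * s + 4 * (R.hit q τ x j j').card / R.N1 := by
  have hm := NN_mono hq hj
  have hs := R.s_pos
  have hN : (0 : ℝ) < R.N1 := Nat.cast_pos.2 R.N1_pos
  have h1 := R.rep h hxv ha (hm.trans hb)
  have h2 := R.rep h hxv (ha.trans hm) hb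
  have h3 := norm_expect_exc (S := Icc (1 : ℤ) R.N1)
    (E := badN D x R.N1 ∪ badN D (x + v) R.N1 ∪ R.far τ (x + v) ∪ R.hit q τ x j j')
    (fun n => R.Pt τ (x + v) n * R.Wh (NN q j) (Xi τ (x + v) n) -
      R.Pt τ (x + v) n * R.Wh (NN q j') (Xi τ (x + v) n)) (a := 34 * s) (b := 4)
    (c := 3 * s + (R.hit q τ x j j').card / R.N1) (by positivity) (by norm_num) (by positivity)
    (by
      have c1 := card_badN hx R.N1
      have c2 := card_badN hxv R.N1
      have c3 : ((badN D x R.N1 ∪ badN D (x + v) R.N1 ∪ R.far τ (x + v) ∪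
          R.hit q τ x j j').card : ℝ) ≤ (badN D x R.N1).card + (badN D (x + v) R.N1).card +
          (R.far τ (x + v)).card + (R.hit q τ x j j').card := by
        exact_mod_cast (card_union_le _ _).trans (Nat.add_le_add_right ((card_union_le _ _).trans
          (Nat.add_le_add_right (card_union_le _ _) _)) _)
      rw [Int.card_Icc, add_sub_cancel_right, Int.toNat_natCast, add_mul,
        div_mul_cancel₀ _ hN.ne']
      linarith)
    (fun n hn hE => by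
      simp only [mem_union, not_or, mem_badN, not_and, not_not] at hE
      rw [← mul_sub, norm_mul]
      exact (mul_le_of_le_one_left (norm_nonneg _) (R.norm_Pt h _ _)).trans
        (R.change_pt h hq hj ha hb hv hv' hn (hE.1.1.1 hn) (hE.1.1.2 hn) hE.1.2 hE.2))
    (fun n _ => by
      rw [← mul_sub, norm_mul]
      refine (mul_le_of_le_one_left (norm_nonneg _) (R.norm_Pt h _ _)).trans
        ((norm_sub_le _ _).trans ?_)
      linarith [R.norm_Wh_le (R.N1_le_Na.trans ha) (hm.trans hb) (Xi τ (x + v) n),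
        R.norm_Wh_le (R.N1_le_Na.trans (ha.trans hm)) hb (Xi τ (x + v) n)])
  rw [expect_sub_distrib] at h3
  rw [norm_sub_rev] at h2
  have h4 := norm_sub_le_norm_sub_add_norm_sub (At (NN q j) τ (x + v))
    (𝔼 n ∈ Icc (1 : ℤ) R.N1, R.Pt τ (x + v) n * R.Wh (NN q j) (Xi τ (x + v) n))
    (At (NN q j') τ (x + v))
  have h5 := norm_sub_le_norm_sub_add_norm_sub
    (𝔼 n ∈ Icc (1 : ℤ) R.N1, R.Pt τ (x + v) n * R.Wh (NN q j) (Xi τ (x + v) n))
    (𝔼 n ∈ Icc (1 : ℤ) R.N1, R.Pt τ (x + v) n * R.Wh (NN q j') (Xi τ (x + v) n))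
    (At (NN q j') τ (x + v))
  rw [mul_div_assoc]
  linarith

end Rng

end Pool.Agent.TR
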