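import Pool.Agent.Lib.MP_cc859a_an.TR.DefsR

open Finset Real
open scoped BigOperators ComplexConjugate

namespace Pool.Agent.TR

/-- Collision probability. -/
theorem ker_collide {α β : Type*} [Fintype α] [DecidableEq β] (f : α → β) (S : Finset β)
    (h : ∀ x, f x ∈ S) :
    Fintype.card α ^ 2 ≤ S.card * (univ.filter fun z : α × α => f z.1 = f z.2).card := by
  have e1 : Fintype.card α = ∑ b ∈ S, (univ.filter fun x => f x = b).card :=
    card_eq_sum_card_fiberwise (s := univ) (f := f) fun x _ => h x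
  have e2 : (univ.filter fun z : α × α => f z.1 = f z.2).card =
      ∑ b ∈ S, (univ.filter fun x => f x = b).card ^ 2 := by
    rw [card_eq_sum_card_fiberwise (f := fun z : α × α => f z.1) (t := S) fun z _ => h z.1]
    refine sum_congr rfl fun b _ => ?_
    rw [sq, ← card_product]
    congr 1
    ext z
    simp only [mem_filter, mem_univ, true_and, mem_product]
    exact ⟨fun ⟨a, b⟩ => ⟨b, a ▸ b⟩, fun ⟨a, b⟩ => ⟨a.trans b.symm, a⟩⟩
  rw [e1, e2]
  exact sq_sum_le_card_mul_sum_sq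

theorem rker_sum (Q : ℕ) (g : ℤ → ℂ) :
    ∑ v ∈ Icc (1 : ℤ) Q, g v = ∑ i : Fin Q, g (((i : ℕ) : ℤ) + 1) := by
  rw [Fin.sum_univ_eq_sum_range (fun i => g ((i : ℤ) + 1))]
  refine (sum_nbij' (fun i : ℕ => (i : ℤ) + 1) (fun v => (v - 1).toNat) ?_ ?_ ?_ ?_ ?_).symm
  · intro i hi
    simp only [mem_range, mem_Icc] at hi ⊢
    omega
  · intro v hv
    simp only [mem_range, mem_Icc] at hv ⊢
    omega
  · intro i _
    simp
  · intro v hv
    simp only [mem_Icc] at hv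
    omega
  · intro i _
    rfl

/-- The average over a product is the product of the averages (`Finset.prod_univ_sum`, `e_sum`). -/
theorem ker_prod (Θ : Finset T) (Q p : ℕ) (w : ℤ) :
    (𝔼 x : Θ × Fin p → Fin Q, e (w • ∑ a : Θ × Fin p, (((x a : ℕ) : ℤ) + 1) • (a.1 : T))) =
      ∏ a : Θ × Fin p, mu (Icc (1 : ℤ) Q) (w • (a.1 : T)) := by
  have e1 : ∀ a : Θ × Fin p, mu (Icc (1 : ℤ) Q) (w • (a.1 : T)) =
      (∑ i : Fin Q, e (w • ((((i : ℕ) : ℤ) + 1) • (a.1 : T)))) / Q := by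
    intro a
    rw [mu, expect_eq_sum_div_card, rker_sum]
    simp only [smul_comm w]
    simp
  simp only [e1]
  rw [prod_div_distrib, prod_univ_sum, Fintype.piFinset_univ, expect_eq_sum_div_card]
  simp only [smul_sum, e_sum]
  simp

/-- `α = Θ × Fin p → Fin Q`, `ψ x = ∑ a, (x a + 1) • a.1`, sample space `α × α ≃ Fin n`
(`Fintype.equivFin`), `φ (x, x') = ψ x - ψ x'`, `χ w = ‖𝔼 x, e (w • ψ x)‖ ^ 2` (`norm_expect_sq`).
`ψ x = ∑ θ, c x θ • θ` with `c x θ = ∑ i, (x (θ, i) + 1) ∈ Icc 0 (Q p)`; `ker_collide` for `c`.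
If `1 ≤ Q ‖w • θ‖` the `p` factors at `θ` have norm at most `1 / 2` (`norm_mu_Icc`). -/
theorem exists_kernel (Θ : Finset T) {Q : ℕ} (hQ : 0 < Q) (p : ℕ) :
    ∃ (n : ℕ) (φ : Fin n → T) (χ : ℤ → ℝ), 0 < n ∧ (∀ w, (χ w : ℂ) = 𝔼 i, e (w • φ i)) ∧
      (∀ w, 0 ≤ χ w) ∧ (∀ i, φ i ∈ Sp Θ (Q * p)) ∧
      (n : ℝ) ≤ (Q * p + 1) ^ Θ.card * {i | φ i = 0}.ncard ∧
      ∀ w : ℤ, ∀ θ ∈ Θ, 1 ≤ Q * ‖w • θ‖ → χ w ≤ (1 / 4) ^ p := by
  classical
  have : NeZero Q := ⟨hQ.ne'⟩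
  let α := Θ × Fin p → Fin Q
  let ψ : α → T := fun x => ∑ a : Θ × Fin p, (((x a : ℕ) : ℤ) + 1) • (a.1 : T)
  let c : α → Θ → ℤ := fun x θ => ∑ i : Fin p, (((x (θ, i) : ℕ) : ℤ) + 1)
  have hψ : ∀ x, ψ x = ∑ θ : Θ, c x θ • (θ : T) := fun x => by
    simp only [ψ, c, Fintype.sum_prod_type, sum_smul]
  have hc : ∀ x θ, c x θ ∈ Icc (0 : ℤ) ((Q * p : ℕ) : ℤ) := fun x θ => by
    refine mem_Icc.2 ⟨sum_nonneg fun i _ => by positivity, ?_⟩
    have : ∀ i ∈ (univ : Finset (Fin p)), (((x (θ, i) : ℕ) : ℤ) + 1) ≤ Q := fun i _ => by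
      have := (x (θ, i)).2
      omega
    refine (sum_le_card_nsmul _ _ _ this).trans (le_of_eq ?_)
    simp [mul_comm]
  let E : α × α ≃ Fin (Fintype.card (α × α)) := Fintype.equivFin _
  refine ⟨Fintype.card (α × α), fun i => ψ (E.symm i).1 - ψ (E.symm i).2,
    fun w => ‖𝔼 x : α, e (w • ψ x)‖ ^ 2, Fintype.card_pos, fun w => ?_, fun w => sq_nonneg _,
    fun i => ?_, ?_, fun w θ hθ hw => ?_⟩
  · rw [norm_expect_sq, ← expect_product', univ_product_univ]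
    refine (Fintype.expect_equiv E.symm _ _ fun i => ?_).symm
    rw [smul_sub, sub_eq_add_neg, e_add, e_neg]
  · refine mem_Sp.2 ⟨fun a => if ha : a ∈ Θ then c (E.symm i).1 ⟨a, ha⟩ - c (E.symm i).2 ⟨a, ha⟩
      else 0, fun a => ?_, ?_⟩
    · beta_reduce
      split_ifs with ha
      · have h1 := mem_Icc.1 (hc (E.symm i).1 ⟨a, ha⟩)
        have h2 := mem_Icc.1 (hc (E.symm i).2 ⟨a, ha⟩)
        rw [abs_le]
        constructor <;> linarith [h1.1, h1.2, h2.1, h2.2]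
      · simp only [abs_zero]
        positivity
    · beta_reduce
      rw [hψ, hψ, ← sum_sub_distrib, ← sum_coe_sort Θ]
      refine sum_congr rfl fun a _ => ?_
      rw [dif_pos a.2, sub_smul]
  · have h1 := ker_collide c (Fintype.piFinset fun _ : Θ => Icc (0 : ℤ) ((Q * p : ℕ) : ℤ))
      fun x => Fintype.mem_piFinset.2 (hc x)
    have h2 : (univ.filter fun z : α × α => c z.1 = c z.2).card ≤
        {i | ψ (E.symm i).1 - ψ (E.symm i).2 = 0}.ncard := by
      rw [← Set.ncard_coe_finset]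
      refine Set.ncard_le_ncard_of_injOn E (fun z hz => ?_) E.injective.injOn
      have hz' : c z.1 = c z.2 := (mem_filter.1 hz).2
      simp only [Set.mem_ofPred_eq, Equiv.symm_apply_apply, hψ, hz', sub_self]
    have h3 : (Fintype.piFinset fun _ : Θ => Icc (0 : ℤ) ((Q * p : ℕ) : ℤ)).card =
        (Q * p + 1) ^ Θ.card := by
      rw [Fintype.card_piFinset, prod_const, Int.card_Icc, card_univ, Fintype.card_coe]
      congr 1
    rw [h3] at h1
    have h4 := h1.trans (Nat.mul_le_mul_left _ h2)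
    rw [sq, ← Fintype.card_prod] at h4
    exact_mod_cast h4
  · have h1 : ‖mu (Icc (1 : ℤ) Q) (w • θ)‖ ≤ 1 / 2 := by
      have := norm_mu_Icc Q (w • θ)
      nlinarith [norm_nonneg (mu (Icc (1 : ℤ) Q) (w • θ))]
    have h2 : ‖𝔼 x : α, e (w • ψ x)‖ ≤ (1 / 2) ^ p := by
      rw [ker_prod, norm_prod, Fintype.prod_prod_type,
        ← mul_prod_erase univ _ (mem_univ (⟨θ, hθ⟩ : Θ))]
      refine (mul_le_of_le_one_right (prod_nonneg fun _ _ => norm_nonneg _)
        (prod_le_one (fun _ _ => prod_nonneg fun _ _ => norm_nonneg _) fun _ _ =>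
          prod_le_one (fun _ _ => norm_nonneg _) fun _ _ => norm_mu_le _ _)).trans ?_
      simp only [prod_const, card_univ, Fintype.card_fin]
      exact pow_le_pow_left₀ (norm_nonneg _) h1 p
    calc _ ≤ ((1 / 2 : ℝ) ^ p) ^ 2 := pow_le_pow_left₀ (norm_nonneg _) h2 2
      _ = _ := by rw [← pow_mul, mul_comm, pow_mul]; norm_num

end Pool.Agent.TR
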