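import Pool.Agent.Lib.MP_cc859a_an.TR.RVal
import Pool.Agent.Lib.MP_cc859a_an.TR.RKer

open Finset Real
open scoped BigOperators ComplexConjugate

namespace Pool.Agent.TR

variable {c : Pm} {D : Data} {k : ℕ} {σ : St} {Na Nb : ℕ} {s : ℝ}

/-- `Sp_norm_le` with the identity, `DΘ_tiny`, `card_DΘ`. -/
theorem Valid.tiny (h : Valid c D k σ Nb) (hc : c.OK) (hD : Fit c D k) {ψ : T}
    (hψ : ψ ∈ Sp σ.DΘ 1) : ‖ψ‖ * Nb * (2 ^ c.g) ^ 2 ≤ 1 := by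
  have hT : 0 < c.T₁ := one_pos.trans_le hc.one_le_T₁
  rcases Nat.eq_zero_or_pos Nb with rfl | hN
  · simp
  have hA : (0 : ℝ) < Nb * (2 ^ c.g) ^ 2 := by positivity
  have h1 := Sp_norm_le (AddMonoidHom.id T) (r := 1 / (Nb * (2 ^ c.g) ^ 2 * c.T₁))
    (fun a ha => (le_div_iff₀ (by positivity)).2 (by
      simpa only [mul_assoc, AddMonoidHom.id_apply] using h.DΘ_tiny a ha)) hψ
  rw [mul_assoc, ← le_div_iff₀ hA]
  refine h1.trans ?_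
  rw [Nat.cast_one, one_mul]
  refine (mul_le_mul_of_nonneg_right (h.card_DΘ hc hD) (by positivity)).trans (le_of_eq ?_)
  field_simp

/-- `Sp_norm_le` for the homomorphisms `l ↦ w • 2 • l v`, `l ↦ w • l w`; `card_Dl`, `h3`. -/
theorem Valid.triv (h : Valid c D k σ Nb) (hc : c.OK) (hD : Fit c D k) {l : ℤ → T}
    (hl : l ∈ Sp σ.Dl 1) {v w : ℤ} (hv : v ∈ Bohr σ.Θ σ.δ Nb) (hw : w ∈ Bohr σ.Θ σ.δ Nb) :
    ‖w • (2 : ℤ) • l v‖ ≤ exp (-c.X) ∧ ‖w • l w‖ ≤ exp (-c.X) := by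
  have h1 : ((1 : ℕ) : ℝ) * σ.Dl.card * exp (-c.E) ≤ exp (-c.X) := by
    rw [Nat.cast_one, one_mul, show -c.X = c.E - c.X + -c.E by ring, exp_add]
    exact mul_le_mul_of_nonneg_right ((h.card_Dl hc hD).trans hc.h3) (exp_pos _).le
  exact ⟨(Sp_norm_le (w • (2 : ℤ) • Pi.evalAddMonoidHom (fun _ : ℤ => T) v)
    (fun a ha => (h.Dl_triv a ha v hv w hw).1) hl).trans h1,
    (Sp_norm_le (w • Pi.evalAddMonoidHom (fun _ : ℤ => T) w)
    (fun a ha => (h.Dl_triv a ha v hv w hw).2) hl).trans h1⟩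

/-- `Sp_norm_le` for `θ ↦ u • θ`; `M_mul_le`, `card_le_r`, `h1`. -/
theorem Valid.test (h : Valid c D k σ Nb) (hc : c.OK) (hD : Fit c D k) {u : ℤ} {N : ℝ}
    (hu : u ∈ Bohr σ.Θ (exp (-c.E) * σ.δ) N) {ψ : T} (hψ : ψ ∈ Sp σ.Θ (σ.M c)) :
    ‖u • ψ‖ ≤ 1 / 100 := by
  refine (Sp_norm_le (u • AddMonoidHom.id T) (fun a ha => (mem_Bohr.1 hu).2 a ha) hψ).trans ?_
  have h1 := mul_le_mul h.M_mul_le (h.card_le_r hc hD) (Nat.cast_nonneg _) (by positivity)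
  have h2 := mul_le_mul_of_nonneg_right hc.h1 (exp_pos (-c.E)).le
  rw [← exp_add, add_neg_cancel, exp_zero] at h2
  linarith [mul_le_mul_of_nonneg_right h1 (exp_pos (-c.E)).le]

/-- `M + 1 ≤ (2 p + 1) exp Ld`, `hP`. -/
theorem Valid.pow_le (h : Valid c D k σ Nb) (hc : c.OK) (hD : Fit c D k) :
    ((σ.M c : ℝ) + 1) ^ σ.Θ.card ≤ exp c.P := by
  have h0 : 0 ≤ c.Ld := neg_nonpos.1 (exp_le_one_iff.1 ((h.exp_Ld_le hc hD).trans h.δ_le))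
  have h1 : (σ.M c : ℝ) + 1 ≤ exp (c.Ld + log (2 * c.p + 1)) := by
    rw [exp_add, exp_log (by positivity)]
    linarith [h.M_le hc hD, one_le_exp h0]
  refine (pow_le_pow_left₀ (by positivity) h1 _).trans ?_
  rw [← exp_nat_mul]
  refine exp_le_exp.2 ((mul_le_mul_of_nonneg_right (h.card_le_r hc hD) (add_nonneg h0
    (log_nonneg ?_))).trans hc.hP)
  exact le_add_of_nonneg_left (by positivity)

/-- `exists_kernel` with `Q = ⌈1 / δ⌉₊`; `U = {w | ∀ θ ∈ Θ, ‖w • θ‖ ≤ δ}`, `Triv l = l ∈ Sp Dl 1`,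
`p₀ = exp (-P)`, `V` from `Full`. `(1 / 4) ^ p ≤ exp (-p) ≤ exp (-X) exp (-P)`. For `r1` use `Sp_sum`,
`Sp_sub`. -/
theorem Valid.rng (h : Valid c D k σ Nb) (hc : c.OK) (hD : Fit c D k) (hf : Full c D k σ Na)
    (hab : Na ≤ Nb) (hw : 2 ^ c.w ≤ Na) (hs : exp (-c.X) ≤ s) (hs' : s ≤ 1 / 200) :
    Nonempty (Rng D k s c.g Na Nb) := by
  have hδ := h.δ_pos
  have hs0 : 0 < s := (exp_pos _).trans_le hs
  obtain ⟨n, φ, χ, hn, h1, h2, h3, h4, h5⟩ :=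
    exists_kernel σ.Θ (Q := ⌈1 / σ.δ⌉₊) (Nat.ceil_pos.2 (by positivity)) c.p
  obtain ⟨hf1, V, hV, hne, hV'⟩ := hf
  have hB : ∀ w : ℤ, (∀ θ ∈ σ.Θ, ‖w • θ‖ ≤ σ.δ) → |w| ≤ Nb → w ∈ Bohr σ.Θ σ.δ Nb :=
    fun w hw hw' => mem_Bohr.2 ⟨by exact_mod_cast hw', hw⟩
  have hS : ∀ i : Fin 4 → Fin n, ∑ a, φ (i a) ∈ Sp σ.Θ (4 * σ.M c) := fun i => by
    simpa only [card_univ, Fintype.card_fin, St.M] using
      Sp_sum univ (fun a => φ (i a)) fun a _ => h3 _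
  refine ⟨⟨n, φ, χ, {w | ∀ θ ∈ σ.Θ, ‖w • θ‖ ≤ σ.δ}, V, fun l => l ∈ Sp σ.Dl 1, exp (-c.P), hn, hs0,
    hs', hab, h1, h2, fun w hw => ?_, ?_, ?_, hc.cube_le.trans (by exact_mod_cast hw),
    fun θ _ => by simpa using hδ.le, fun i j => ?_, fun w hw hw' => h.sub (hB w hw hw'),
    fun l hl v hv w hw hv' hw' => (h.triv hc hD hl (hB v hv hv') (hB w hw hw')).imp
      (·.trans hs) (·.trans hs), fun l hl => or_iff_not_imp_left.2 fun hl' => ?_, hne,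
    fun u hu => ⟨h.sub (Bohr_mono subset_rfl ?_ ?_ (hV hu)), ?_,
      fun i => h.test hc hD (hV hu) (h3 i)⟩⟩⟩
  · obtain ⟨θ, hθ, h6⟩ : ∃ θ ∈ σ.Θ, σ.δ < ‖w • θ‖ := by simpa using hw
    refine (h5 w θ hθ (((div_le_iff₀ hδ).1 (Nat.le_ceil _)).trans
      (mul_le_mul_of_nonneg_left h6.le (Nat.cast_nonneg _)))).trans ?_
    have h7 : (1 / 4 : ℝ) ≤ exp (-1) := by
      rw [exp_neg, one_div]
      exact inv_anti₀ (exp_pos _) (by linarith [exp_one_lt_d9])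
    refine (pow_le_pow_left₀ (by norm_num) h7 _).trans (le_trans ?_
      (mul_le_mul_of_nonneg_right hs (exp_pos _).le))
    rw [← exp_nat_mul, ← exp_add]
    exact exp_le_exp.2 (by linarith [hc.hpP])
  · have h6 := h.pow_le hc hD
    rw [St.M, Nat.cast_mul] at h6
    rw [exp_neg, inv_mul_le_iff₀ (exp_pos _)]
    exact h4.trans (mul_le_mul_of_nonneg_right h6 (Nat.cast_nonneg _))
  · refine le_trans (le_of_eq ?_) (mul_le_mul_of_nonneg_right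
      (mul_le_mul hc.hg hs (exp_pos _).le (by positivity)) (exp_pos _).le)
    rw [mul_assoc, mul_assoc, ← exp_add, ← exp_add, show c.X + c.P + (-c.X + -c.P) = 0 by ring,
      exp_zero, mul_one]
  · exact or_iff_not_imp_left.2 fun h6 => hf1 _
      (Sp_mono subset_rfl (by omega) (Sp_sub (hS i) (hS j))) fun h7 => h6 (h.tiny hc hD h7)
  · refine (hV' l hl hl').trans (le_trans ?_ (pow_le_pow_left₀ (exp_pos _).le hs 4))
    rw [← exp_nat_mul]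
    exact exp_le_exp.2 (by push_cast; linarith [hc.hXE])
  · exact mul_le_of_le_one_left hδ.le (exp_le_one_iff.2 (by linarith [hc.hE]))
  · exact (div_le_self (Nat.cast_nonneg _) (one_le_mul_of_one_le_of_one_le (by norm_num)
      (one_le_pow₀ one_le_two))).trans (Nat.cast_le.2 hab)
  · exact (le_div_iff₀' (by positivity)).1 (mem_Bohr.1 (hV hu)).1

end Pool.Agent.TR
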