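import Pool.Agent.Lib.MP_cc859a_an.TR.DefsR

open Finset Real
open scoped BigOperators ComplexConjugate

namespace Pool.Agent.TR

theorem rpar_exp_le (p : ℕ) : exp (p : ℝ) ≤ 4 ^ p := by
  have h : exp (1 : ℝ) ≤ 4 := by linarith [exp_one_lt_d9]
  calc exp (p : ℝ) = exp 1 ^ p := by rw [← exp_nat_mul, mul_one]
    _ ≤ 4 ^ p := pow_le_pow_left₀ (exp_pos _).le h p

theorem rpar_core {X E : ℝ} (hX : 2 ≤ X) (hE : X ^ 9 ≤ E) (h9 : E ^ 9 ≤ exp E)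
    (h1 : E ≤ exp (1 / 2 * E)) : ∃ c : Pm, c.OK ∧ c.X = X ∧ c.T₀ ≤ E ^ 6 ∧
    c.T₁ ≤ E ^ 6 ∧ (c.g : ℝ) ≤ E ^ 6 ∧ (c.w : ℝ) ≤ E ^ 6 := by
  have hX0 : 0 < X := by linarith
  have h512 : 512 ≤ E := le_trans (le_trans (by norm_num) (num_two_pow hX 9)) hE
  have hE0 : 0 < E := by linarith
  have hE2 : 2 ≤ E := by linarith
  have hX2 : 128 * X ^ 2 ≤ E := by
    have h7 : (128 : ℝ) ≤ X ^ 7 := le_trans (by norm_num) (num_two_pow hX 7)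
    calc 128 * X ^ 2 ≤ X ^ 7 * X ^ 2 := by gcongr
      _ = X ^ 9 := by ring
      _ ≤ E := hE
  have hXE : 4 * X ≤ E := by nlinarith
  obtain ⟨p, hp⟩ : ∃ p : ℕ, p = ⌈E ^ 5⌉₊ := ⟨_, rfl⟩
  have hp1 : E ^ 5 ≤ p := by rw [hp]; exact Nat.le_ceil _
  have hE5 : 1 ≤ E ^ 5 := num_one_le hE2 5
  have hp2 : (p : ℝ) ≤ 2 * E ^ 5 := by
    have := Nat.ceil_lt_add_one (a := E ^ 5) (by positivity)
    rw [hp]
    linarith
  have hstep : ∀ n : ℕ, 512 * E ^ n ≤ E ^ (n + 1) := fun n => by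
    rw [pow_succ, mul_comm]
    exact mul_le_mul_of_nonneg_left h512 (by positivity)
  have s1 := hstep 1
  have s2 := hstep 2
  have s3 := hstep 3
  have s4 := hstep 4
  have s5 := hstep 5
  have s6 := hstep 6
  have s7 := hstep 7
  have s8 := hstep 8
  norm_num at s1 s2 s3 s4 s5 s6 s7 s8
  have hlog : log (32 * p + 1) ≤ E := by
    rw [log_le_iff_le_exp (by positivity)]
    linarith
  have hlog2 : log (2 * p + 1) ≤ E :=
    (log_le_log (by positivity) (by have : (0 : ℝ) ≤ p := Nat.cast_nonneg p; linarith)).trans hlog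
  have hG : (2 : ℝ) ^ (2 * p + 7) = 128 * 4 ^ p := by
    rw [pow_add, pow_mul]
    norm_num [mul_comm]
  have hexp := rpar_exp_le p
  have hP : X + 64 * E ^ 4 ≤ p := by linarith
  have hG1 : 100 * exp (12 * E) ≤ (2 : ℝ) ^ (2 * p + 7) := by
    have : exp (12 * E) ≤ exp p := exp_le_exp.2 (by linarith)
    have h0 := exp_pos (p : ℝ)
    rw [hG]
    linarith
  have hG2 : 320 * E ^ 4 ≤ (2 : ℝ) ^ (2 * p + 7) := by
    have := add_one_le_exp (p : ℝ)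
    have h0 := exp_pos (p : ℝ)
    rw [hG]
    linarith
  have hG3 : (1 : ℝ) ≤ 2 ^ (2 * p + 7) := one_le_pow₀ (by norm_num)
  have hW : (2 : ℝ) ^ (6 * (2 * p + 7)) = (2 ^ (2 * p + 7)) ^ 6 := by rw [mul_comm, pow_mul]
  refine ⟨⟨X, E, E, 320 * E ^ 4, 4 * E ^ 2, 15 * E ^ 2, 64 * E ^ 4, p, 2 * p + 7,
    6 * (2 * p + 7)⟩, ⟨hX, by dsimp only; linarith, hXE, ?_, ?_, ?_, ?_, ?_, ?_, ?_, ?_, ?_, hP,
      ?_, ?_, ?_⟩, rfl, ?_, ?_, ?_, ?_⟩ <;> dsimp only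
  · exact_mod_cast hE5.trans hp1
  · have h2 : log (28 * X + 1) ≤ 28 * X := by
      have := log_le_sub_one_of_pos (x := 28 * X + 1) (by positivity)
      linarith
    nlinarith
  · nlinarith
  · nlinarith
  · calc 200 * (4 * E ^ 2) * p ≤ 200 * (4 * E ^ 2) * (2 * E ^ 5) := by gcongr
      _ = 1600 * E ^ 7 := by ring
      _ ≤ exp E := by linarith
  · linarith
  · exact h1.trans (exp_le_exp.2 (by linarith))
  · calc _ ≤ 8 * (4 * E ^ 2) ^ 2 + 3 * (4 * E ^ 2) * (15 * E ^ 2 + E ^ 2) := by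
          gcongr
          linarith
      _ = _ := by ring
  · calc _ ≤ 4 * E ^ 2 * (15 * E ^ 2 + E ^ 2) := by
          gcongr
          linarith
      _ = _ := by ring
  · have : exp (X + 64 * E ^ 4) ≤ exp p := exp_le_exp.2 hP
    have h0 := exp_pos (p : ℝ)
    rw [hG]
    linarith
  · rw [hW]
    calc 100 * 2 ^ (2 * p + 7) * exp (12 * E) = 2 ^ (2 * p + 7) * (100 * exp (12 * E)) := by ring
      _ ≤ 2 ^ (2 * p + 7) * 2 ^ (2 * p + 7) := by gcongr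
      _ = (2 ^ (2 * p + 7)) ^ 2 := by rw [sq]
      _ ≤ _ := pow_le_pow_right₀ hG3 (by norm_num)
  · rw [hW, pow_succ _ 5]
    gcongr
  · linarith
  · linarith
  · push_cast
    linarith
  · push_cast
    linarith

/-- `E = X ^ C₀` with `2 ^ C₀` above the thresholds of `num_eventually` and `C₀ ≥ 9`;
`T₀ = E`, `r = 4 E ^ 2`, `Ld = 15 E ^ 2`, `p = ⌈E ^ 5⌉₊`, `P = 64 E ^ 4`, `T₁ = 320 E ^ 4`,
`g = 2 p + 7`, `w = 6 g`. Use `log (32 p + 1) ≤ E`, `exp (X + P) ≤ exp p ≤ 4 ^ p`. -/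
theorem exists_par : ∃ C : ℕ, ∀ X : ℝ, 2 ≤ X → ∃ c : Pm, c.OK ∧ c.X = X ∧ c.T₀ ≤ X ^ C ∧
    c.T₁ ≤ X ^ C ∧ (c.g : ℝ) ≤ X ^ C ∧ (c.w : ℝ) ≤ X ^ C := by
  obtain ⟨E₁, h₁⟩ := num_eventually 9 (c := 1) one_pos
  obtain ⟨E₂, h₂⟩ := num_eventually 1 (c := 1 / 2) (by norm_num)
  obtain ⟨n₁, g₁⟩ := num_const E₁
  obtain ⟨n₂, g₂⟩ := num_const E₂
  refine ⟨(n₁ + n₂ + 9) * 6, fun X hX => ?_⟩
  rw [pow_mul]
  refine rpar_core hX (num_mono hX (by omega)) ?_ ?_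
  · simpa using h₁ _ ((g₁ X hX).trans (num_mono hX (by omega)))
  · simpa using h₂ _ ((g₂ X hX).trans (num_mono hX (by omega)))

end Pool.Agent.TR
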