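import Pool.Agent.Lib.MP_cc859a_an.TR.DefsR

open Finset Real
open scoped BigOperators ComplexConjugate

namespace Pool.Agent.TR

/-- Induction on `n`, for all `σ, j` with `Va σ j` and `B - rk σ ≤ n`. Let `i` be the largest index
in `[j₁, j]` where `Fu σ` fails (if there is none take `J = ∅`); add `Icc (i - w) i` to the set that
the induction gives for the new state at `i - w`. An interval `[a, b]` that avoids `Icc (i - w) i`
has `i < a` or `b < i - w`. -/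
theorem scan {S : Type} (rk : S → ℕ) (Va Fu : S → ℕ → Prop) (B w j₁ : ℕ)
    (hB : ∀ σ j, Va σ j → rk σ ≤ B) (hm : ∀ σ i j, i ≤ j → Va σ j → Va σ i)
    (hs : ∀ σ j, j₁ ≤ j → Va σ j → ¬ Fu σ j → ∃ σ', rk σ < rk σ' ∧ Va σ' (j - w))
    (σ : S) (j : ℕ) (h : Va σ j) : ∃ J : Finset ℕ, J.card ≤ (B - rk σ) * (w + 1) ∧
      ∀ a b, j₁ ≤ a → a ≤ b → b ≤ j → (∀ i ∈ J, i < a ∨ b < i) → ∃ σ', Va σ' b ∧ Fu σ' a := by
  classical
  obtain ⟨n, hn⟩ : ∃ n, B - rk σ = n := ⟨_, rfl⟩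
  induction n using Nat.strong_induction_on generalizing σ j with
  | _ n ih =>
  by_cases hF : ((Icc j₁ j).filter fun i => ¬ Fu σ i).Nonempty
  · obtain ⟨i, hi, hmax⟩ := exists_max_image _ id hF
    rw [mem_filter, mem_Icc] at hi
    obtain ⟨σ', h1, h2⟩ := hs σ i hi.1.1 (hm σ i j hi.1.2 h) hi.2
    have h3 := hB _ _ h2
    obtain ⟨J, h4, h5⟩ := ih (B - rk σ') (by omega) σ' (i - w) h2 rfl
    refine ⟨J ∪ Icc (i - w) i, (card_union_le _ _).trans ?_, fun a b ha hab hb hJ => ?_⟩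
    · have h6 : (B - rk σ' + 1) * (w + 1) ≤ (B - rk σ) * (w + 1) :=
        Nat.mul_le_mul_right _ (by omega)
      rw [add_mul] at h6
      rw [Nat.card_Icc]
      omega
    · by_cases h7 : i < a
      · refine ⟨σ, hm σ b j hb h, ?_⟩
        by_contra h8
        exact absurd (hmax a (mem_filter.2 ⟨mem_Icc.2 ⟨ha, hab.trans hb⟩, h8⟩)) h7.not_ge
      · have h9 := hJ (max a (i - w)) (mem_union_right _ (mem_Icc.2 (by omega)))
        exact h5 a b ha hab (by omega) fun i hi => hJ i (mem_union_left _ hi)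
  · refine ⟨∅, Nat.zero_le _, fun a b ha hab hb _ => ⟨σ, hm σ b j hb h, ?_⟩⟩
    by_contra h8
    exact hF ⟨a, mem_filter.2 ⟨mem_Icc.2 ⟨ha, hab.trans hb⟩, h8⟩⟩

end Pool.Agent.TR
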