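import Pool.Agent.Lib.MP_cc859a_an.TR.RStep
import Pool.Agent.Lib.MP_cc859a_an.TR.RFin
import Pool.Agent.Lib.MP_cc859a_an.TR.RScan
import Pool.Agent.Lib.MP_cc859a_an.TR.RPar

open Finset Real
open scoped BigOperators ComplexConjugate

namespace Pool.Agent.TR

theorem rcl_num {X Y W B T₀ T₁ : ℝ} (hX : 2 ≤ X) (hY : 1 ≤ Y) (hW0 : 0 ≤ W) (hW : W ≤ X * Y)
    (h0 : T₀ ≤ Y) (h1 : T₁ ≤ Y) (h1' : 0 ≤ T₁) (hB : B ≤ T₀ * (T₁ + 1) + T₁) :
    W + W + B * (W + 1) ≤ X ^ 4 * Y ^ 3 := by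
  have k1 : T₀ * (T₁ + 1) ≤ Y * (2 * Y) := mul_le_mul h0 (by linarith) (by linarith) (by linarith)
  have k2 : Y ≤ Y * Y := le_mul_of_one_le_right (by linarith) hY
  have k3 : 1 ≤ X * Y := one_le_mul_of_one_le_of_one_le (by linarith) hY
  have k4 : B * (W + 1) ≤ 3 * (Y * Y) * (2 * (X * Y)) :=
    mul_le_mul (by linarith) (by linarith) (by linarith) (by positivity)
  have k5 : X * Y ≤ Y * Y * (X * Y) := le_mul_of_one_le_left (by linarith) (by linarith)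
  have k6 : 2 ^ 3 * (Y * Y * (X * Y)) ≤ X ^ 3 * (Y * Y * (X * Y)) :=
    mul_le_mul_of_nonneg_right (num_two_pow hX 3) (by positivity)
  calc _ ≤ 2 ^ 3 * (Y * Y * (X * Y)) := by linarith
    _ ≤ _ := k6
    _ = _ := by ring

/-- Paper: CL. `c` from `exists_par`, `W = q * c.w`. If `j₀ < W` take `J = range W`. Otherwise
`scan` with `Va σ j = Valid c D k σ (NN q j)`, `Fu σ j = Full c D k σ (NN q j)`, `j₁ = W`
(`NN_add_mul`, `two_pow_le_NN`, `Valid.step`), the initial state at `j₀ - W` (`valid_init`,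
`ten_le`), and add `range W` and `Ioc (j₀ - W) j₀` to `J`; `Valid.rng`. -/
theorem cl : ∃ C : ℕ, ∀ X : ℝ, 2 ≤ X → ∀ (q k j₀ : ℕ) (D : Data) (s : ℝ), 1 ≤ q → (q : ℝ) ≤ X →
    D.OK → (D.Θ.card : ℝ) ≤ X → (D.F.card : ℝ) ≤ X → (k : ℝ) ≤ X → exp (-X) ≤ D.δ → D.δ ≤ 1 →
    D.δ * NN q j₀ ≤ D.N → exp (-X) ≤ s → s ≤ 1 / 200 →
    ∃ (g : ℕ) (J : Finset ℕ), (g : ℝ) ≤ X ^ C ∧ (J.card : ℝ) ≤ X ^ C ∧ ∀ a b : ℕ, a ≤ b → b ≤ j₀ →
      (∀ j ∈ J, j < a ∨ b < j) → Nonempty (Rng D k s g (NN q a) (NN q b)) := by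
  obtain ⟨C, hC⟩ := exists_par
  refine ⟨4 + C * 3, fun X hX q k j₀ D s hq hqX hD hΘ hF hk hδ hδ1 hN hs hs' => ?_⟩
  obtain ⟨c, hc, rfl, h0, h1, hg, hw⟩ := hC X hX
  have hf : Fit c D k := ⟨hD, hΘ, hF, hk, hδ, hδ1⟩
  have hY := num_one_le hX C
  have key : ∃ J : Finset ℕ, J.card ≤ (⌊c.T₀⌋₊ * (⌊c.T₁⌋₊ + 1) + ⌊c.T₁⌋₊) * (q * c.w + 1) ∧
      ∀ a b, q * c.w ≤ a → a ≤ b → b + q * c.w ≤ j₀ → (∀ i ∈ J, i < a ∨ b < i) →
        ∃ σ, Valid c D k σ (NN q b) ∧ Full c D k σ (NN q a) := by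
    by_cases hj : j₀ < q * c.w
    · exact ⟨∅, Nat.zero_le _, fun a b _ _ h _ => absurd h (by omega)⟩
    have e : ∀ j, q * c.w ≤ j → 2 ^ c.w * NN q (j - q * c.w) = NN q j := fun j h => by
      rw [← NN_add_mul hq, Nat.sub_add_cancel h]
    have hi : (NN q (j₀ - q * c.w) : ℝ) ≤ D.N / 10 := by
      rw [← e j₀ (not_lt.1 hj)] at hN
      push_cast at hN
      have h2 : exp (-c.X) * (10 * exp c.X) ≤ D.δ * 2 ^ c.w :=
        mul_le_mul hδ hc.ten_le (by positivity) hD.1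
      rw [mul_left_comm, ← exp_add, neg_add_cancel, exp_zero, mul_one] at h2
      have h3 := mul_le_mul_of_nonneg_right h2 (Nat.cast_nonneg (α := ℝ) (NN q (j₀ - q * c.w)))
      rw [mul_assoc] at h3
      linarith
    obtain ⟨J, h2, h3⟩ := scan (fun σ : St => σ.rank c) (fun σ j => Valid c D k σ (NN q j))
      (fun σ j => Full c D k σ (NN q j)) _ (q * c.w) (q * c.w) (fun σ j h => h.rank_le hc hf)
      (fun σ i j hij h => h.mono hc (NN_mono hq hij))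
      (fun σ j h hv hn => hv.step hc hf (two_pow_le_NN hq h) (e j h).le hn) _ _
      (valid_init hc hf hi)
    exact ⟨J, h2.trans (Nat.mul_le_mul_right _ (Nat.sub_le _ _)),
      fun a b h4 h5 h6 => h3 a b h4 h5 (by omega)⟩
  obtain ⟨J, h2, h3⟩ := key
  refine ⟨c.g, range (q * c.w) ∪ Ioc (j₀ - q * c.w) j₀ ∪ J, hg.trans (num_mono hX (by omega)), ?_,
    fun a b hab hb hJ => ?_⟩
  · have h4 : (range (q * c.w) ∪ Ioc (j₀ - q * c.w) j₀ ∪ J).card ≤ q * c.w + q * c.w +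
        (⌊c.T₀⌋₊ * (⌊c.T₁⌋₊ + 1) + ⌊c.T₁⌋₊) * (q * c.w + 1) := by
      refine (card_union_le _ _).trans (add_le_add ((card_union_le _ _).trans ?_) h2)
      rw [card_range, Nat.card_Ioc]
      omega
    have h5 : ∀ t : ℝ, t ≤ c.X ^ C → (⌊t⌋₊ : ℝ) ≤ c.X ^ C := fun t ht =>
      (Nat.cast_le.2 (Nat.floor_mono ht)).trans (Nat.floor_le (by linarith))
    refine (Nat.cast_le.2 h4).trans ?_
    rw [pow_add, pow_mul]
    push_cast
    exact rcl_num hX hY (by positivity) (mul_le_mul hqX hw (by positivity) (by linarith))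
      (h5 _ h0) (h5 _ h1) (by positivity) le_rfl
  · have h4 : q * c.w ≤ a := by
      by_contra h
      have := hJ a (mem_union_left _ (mem_union_left _ (mem_range.2 (not_le.1 h))))
      omega
    have h5 : b + q * c.w ≤ j₀ := by
      by_contra h
      have := hJ b (mem_union_left _ (mem_union_right _ (mem_Ioc.2 ⟨by omega, hb⟩)))
      omega
    obtain ⟨σ, h6, h7⟩ := h3 a b h4 hab h5 fun i hi => hJ i (mem_union_right _ hi)
    exact h6.rng hc hf h7 (NN_mono hq hab) (two_pow_le_NN hq h4) hs hs'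

end Pool.Agent.TR
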