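import Pool.Agent.Lib.MP_cc859a_an.TR.RBox
import Pool.Agent.Lib.MP_cc859a_an.TR.RKc

open Finset Real
open scoped BigOperators ComplexConjugate

namespace Pool.Agent.TR

theorem rcubea_vert (z : ℤ × ℤ) (h : Fin 3 × Bool → ℤ) (ω : Fin 3 → Bool) :
    (vert z h ω).1 + (vert z h ω).2 = z.1 + z.2 + h (1, ω 1) + 2 * h (2, ω 2) ∧
      (vert z h ω).1 + 2 * (vert z h ω).2 = z.1 + 2 * z.2 - h (0, ω 0) + h (2, ω 2) ∧
      (vert z h ω).1 + 3 * (vert z h ω).2 = z.1 + 3 * z.2 - 2 * h (0, ω 0) - h (1, ω 1) := by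
  simp only [vert, Fin.sum_univ_three, Fin.val_zero, Fin.val_one, Fin.val_two]
  refine ⟨?_, ?_, ?_⟩ <;> push_cast <;> ring

/-- Each of the three terms of `Xi` takes the same values on the even and on the odd vertices.
Unfold, `Fin.sum_univ_four`, `Fin.sum_univ_three`, `ring_nf` on the arguments, `abel`. -/
theorem cube_alt (τ : Fin 3 → Atom) (z : ℤ × ℤ) (h : Fin 3 × Bool → ℤ) :
    ∑ a, Xi τ (vert z h (ev a)).1 (vert z h (ev a)).2 =
      ∑ a, Xi τ (vert z h (od a)).1 (vert z h (od a)).2 := by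
  simp only [Xi, (rcubea_vert z h _).1, (rcubea_vert z h _).2.1, (rcubea_vert z h _).2.2,
    Fin.sum_univ_four, ev, od, Matrix.cons_val_zero, Matrix.cons_val_one, Matrix.cons_val]
  abel

theorem ev_or_od (ω : Fin 3 → Bool) : (∃ a, ω = ev a) ∨ ∃ a, ω = od a := by
  revert ω
  decide

theorem ev_inj : Function.Injective ev := by
  decide

theorem od_inj : Function.Injective od := by
  decide

theorem ev_ne_od (a b : Fin 4) : ev a ≠ od b := by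
  revert a b
  decide

theorem rcubea_dom (f f' : Fin 4 → T) (a₀ : Fin 4) {c : ℝ} (h : ∀ a, a ≠ a₀ → ‖f a‖ ≤ c)
    (h' : ∀ a, ‖f' a‖ ≤ c) : |‖∑ a, f a - ∑ a, f' a‖ - ‖f a₀‖| ≤ 7 * c := by
  refine (abs_norm_sub_norm_le _ _).trans ?_
  have h1 : ‖∑ a ∈ univ.erase a₀, f a‖ ≤ 3 * c := by
    refine (norm_sum_le _ _).trans
      ((sum_le_card_nsmul _ _ c fun a ha => h a (ne_of_mem_erase ha)).trans_eq ?_)
    simp
  have h2 : ‖∑ a, f' a‖ ≤ 4 * c := by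
    refine (norm_sum_le _ _).trans ((sum_le_card_nsmul _ _ c fun a _ => h' a).trans_eq ?_)
    simp
  have h3 : ∑ a, f a - ∑ a, f' a - f a₀ = ∑ a ∈ univ.erase a₀, f a - ∑ a, f' a := by
    rw [← add_sum_erase _ f (mem_univ a₀)]
    abel
  rw [h3]
  linarith [norm_sub_le (∑ a ∈ univ.erase a₀, f a) (∑ a, f' a)]

/-- One term dominates an alternating sum. -/
theorem cube_dom (ε : (Fin 3 → Bool) → T) (ω₀ : Fin 3 → Bool) {c : ℝ}
    (h : ∀ ω, ω ≠ ω₀ → ‖ε ω‖ ≤ c) :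
    |‖∑ a, ε (ev a) - ∑ a, ε (od a)‖ - ‖ε ω₀‖| ≤ 7 * c := by
  rcases ev_or_od ω₀ with ⟨a₀, rfl⟩ | ⟨a₀, rfl⟩
  · exact rcubea_dom (fun a => ε (ev a)) (fun a => ε (od a)) a₀
      (fun a ha => h _ (ev_inj.ne ha)) fun a => h _ (ev_ne_od a₀ a).symm
  · rw [norm_sub_rev]
    exact rcubea_dom (fun a => ε (od a)) (fun a => ε (ev a)) a₀
      (fun a ha => h _ (od_inj.ne ha)) fun a => h _ (ev_ne_od a a₀)

/-- Let `i ω` be the minimisers (`exists_ep`), `ε ω = ξ ω + φ (i ω)`, `ω₀` the vertex of least scale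
`m₀`. The other scales are at least `m₀ + q (2 g + 5)`, so `‖ε ω‖ * NN q m₀ ≤ 1 / (32 G)`. With
`ψ = ∑ φ (i (ev a)) - ∑ φ (i (od a)) = ∑ ε (ev a) - ∑ ε (od a)` we get
`1 / (2 G) ≤ ‖ψ‖ * NN q m₀ ≤ 2 G` (`cube_dom`), against `r1` (`G ≥ 20000`). -/
theorem Rng.cube_sep {D : Data} {k : ℕ} {s : ℝ} {g Na Nb : ℕ} (R : Rng D k s g Na Nb) {q : ℕ}
    (hq : 1 ≤ q) (ξ : (Fin 3 → Bool) → T) (m : (Fin 3 → Bool) → ℕ)
    (hξ : ∑ a, ξ (ev a) = ∑ a, ξ (od a)) (hm : ∀ ω, Na ≤ NN q (m ω) ∧ NN q (m ω) ≤ Nb)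
    (hc : ∀ ω, R.Crit (NN q (m ω)) (ξ ω)) :
    ∃ ω ω', ω ≠ ω' ∧ m ω ≤ m ω' + q * (2 * g + 5) ∧ m ω' ≤ m ω + q * (2 * g + 5) := by
  by_contra hcon
  choose i hi using fun ω => R.exists_ep (ξ ω)
  obtain ⟨ω₀, -, h₀⟩ := exists_min_image univ m univ_nonempty
  have hG : (20000 : ℝ) ≤ 2 ^ g := by
    have h1 := R.gap_s
    have h2 := mul_le_mul_of_nonneg_left R.s_le (by positivity : (0 : ℝ) ≤ 2 ^ g)
    linarith
  have hN : (0 : ℝ) < NN q (m ω₀) := by exact_mod_cast (LL_pos hq).trans_le LL_le_NN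
  have hsm : ∀ ω, ω ≠ ω₀ → ‖ξ ω + R.φ (i ω)‖ ≤ 1 / (32 * 2 ^ g * NN q (m ω₀)) := fun ω hω => by
    have h1 := h₀ ω (mem_univ ω)
    have h2 : m ω₀ + q * (2 * g + 5) ≤ m ω := by
      by_contra h3
      exact hcon ⟨ω, ω₀, hω, by omega, by omega⟩
    have h3 := NN_mono hq h2
    rw [NN_add_mul hq] at h3
    have h4 : (2 : ℝ) ^ (2 * g + 5) * NN q (m ω₀) ≤ NN q (m ω) := by exact_mod_cast h3
    have h5 := (mul_le_mul_of_nonneg_right h4 (R.ep_nonneg (ξ ω))).trans (hc ω).2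
    rw [← hi, le_div_iff₀ (by positivity)]
    refine le_of_mul_le_mul_right (a := (2 : ℝ) ^ g) (le_trans (le_of_eq ?_) (h5.trans_eq
      (one_mul _).symm)) (by positivity)
    ring
  have hd := abs_le.1 (cube_dom (fun ω => ξ ω + R.φ (i ω)) ω₀ hsm)
  have he : ∑ a, (ξ (ev a) + R.φ (i (ev a))) - ∑ a, (ξ (od a) + R.φ (i (od a))) =
      ∑ a, R.φ (i (ev a)) - ∑ a, R.φ (i (od a)) := by
    rw [sum_add_distrib, sum_add_distrib, hξ]
    abel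
  have hr := R.r1 (fun a => i (ev a)) fun a => i (od a)
  obtain ⟨c1, c2⟩ := hc ω₀
  have ha : (Na : ℝ) ≤ NN q (m ω₀) := by exact_mod_cast (hm ω₀).1
  have hb : (NN q (m ω₀) : ℝ) ≤ Nb := by exact_mod_cast (hm ω₀).2
  rw [he, ← hi] at hd
  have hp := norm_nonneg (∑ a, R.φ (i (ev a)) - ∑ a, R.φ (i (od a)))
  generalize ‖∑ a, R.φ (i (ev a)) - ∑ a, R.φ (i (od a))‖ = p at hd hr hp
  generalize (2 : ℝ) ^ g = G at hG hd hr c1 c2
  generalize (NN q (m ω₀) : ℝ) = N at hN hd c1 c2 ha hb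
  have hG0 : 0 < G := by linarith
  have hc' : 1 / (32 * G * N) * (G * N) = 1 / 32 := by field_simp
  have hGN := mul_pos hG0 hN
  have l1 := mul_le_mul_of_nonneg_right hd.1 hGN.le
  have l2 := mul_le_mul_of_nonneg_right hd.2 hGN.le
  rcases hr with hr | hr
  · have h1 : 1 / 2 ≤ p * (G * N) := by linarith
    have h2 : p * N * G ^ 2 ≤ p * Nb * G ^ 2 := by gcongr
    nlinarith [mul_le_mul_of_nonneg_right h1 hG0.le]
  · have h1 := mul_le_mul_of_nonneg_left c2 hG0.le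
    have h2 : p * (G * N) ≤ G * G + 1 := by linarith
    have h3 := mul_le_mul_of_nonneg_left (hr.trans (mul_le_mul_of_nonneg_left ha hp)) hG0.le
    have h4 : 2 ≤ G * G := by nlinarith
    nlinarith [mul_le_mul_of_nonneg_right h4 (mul_pos hG0 hG0).le]

end Pool.Agent.TR
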