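import Pool.Agent.Lib.MP_cc859a_an.TR.RCubeA

open Finset Real
open scoped BigOperators ComplexConjugate

namespace Pool.Agent.TR

theorem rcubeb_same (z : ℤ × ℤ) (h : Fin 3 × Bool → ℤ) {ω : Fin 3 → Bool} {i : Fin 3} {b : Bool}
    (hb : ω i ≠ b) (y : ℤ) : vert z (Function.update h (i, b) y) ω = vert z h ω := by
  have e : ∀ j, Function.update h (i, b) y (j, ω j) = h (j, ω j) := fun j =>
    Function.update_of_ne (fun e => hb (by
      obtain ⟨rfl, e2⟩ := Prod.mk.inj e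
      exact e2)) _ _
  simp only [vert, e]

theorem rcubeb_fst (z : ℤ × ℤ) (h : Fin 3 × Bool → ℤ) (ω : Fin 3 → Bool) (i : Fin 3) (y : ℤ) :
    (vert z (Function.update h (i, ω i) y) ω).1 =
      (vert z (Function.update h (i, ω i) 0) ω).1 + (((i : ℕ) : ℤ) + 1) * y := by
  have e : ∀ j, Function.update h (i, ω i) y (j, ω j) =
      Function.update h (i, ω i) 0 (j, ω j) + if j = i then y else 0 := fun j => by
    by_cases hj : j = i
    · rw [hj, Function.update_self, Function.update_self, if_pos rfl, zero_add]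
    · have hp : (j, ω j) ≠ (i, ω i) := fun e => hj (Prod.mk.inj e).1
      rw [Function.update_of_ne hp, Function.update_of_ne hp, if_neg hj, add_zero]
  simp only [vert, e, mul_add, sum_add_distrib, mul_ite, mul_zero, sum_ite_eq', mem_univ, if_true,
    add_assoc]

theorem rcubeb_base (Z Ω : Finset (ℤ × ℤ)) (h : Fin 3 × Bool → ℤ) (ω : Fin 3 → Bool) :
    (Z.filter fun z => vert z h ω ∈ Ω).card ≤ Ω.card :=
  card_le_card_of_injOn (fun z => vert z h ω) (fun _ hz => (mem_filter.1 hz).2) fun _ _ _ _ e =>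
    Prod.ext (add_right_cancel (Prod.mk.inj e).1) (sub_left_injective (Prod.mk.inj e).2)

theorem rcubeb_line {H : ℕ} (Q : ℕ → Finset ℤ) {ρ : ℝ} (h0 : 0 ≤ ρ) (x₁ i : ℤ)
    (hr : ∀ m : ℕ, (((Icc (1 : ℤ) H).filter fun y => x₁ + i * y ∈ Q m).card : ℝ) ≤ ρ) (a w : ℕ) :
    (((Icc (1 : ℤ) H).filter fun y => ∃ m ∈ Icc (a - w) (a + w), x₁ + i * y ∈ Q m).card : ℝ) ≤
      (2 * w + 1) * ρ := by
  have h1 : ((Icc (1 : ℤ) H).filter fun y => ∃ m ∈ Icc (a - w) (a + w), x₁ + i * y ∈ Q m).card ≤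
      ∑ m ∈ Icc (a - w) (a + w), ((Icc (1 : ℤ) H).filter fun y => x₁ + i * y ∈ Q m).card := by
    refine (card_le_card fun y hy => ?_).trans card_biUnion_le
    obtain ⟨h2, m, h3, h4⟩ := mem_filter.1 hy
    exact mem_biUnion.2 ⟨m, h3, mem_filter.2 ⟨h2, h4⟩⟩
  have h2 : ((Icc (a - w) (a + w)).card : ℝ) ≤ 2 * w + 1 := by
    rw [Nat.card_Icc]
    exact_mod_cast (by omega : a + w + 1 - (a - w) ≤ 2 * w + 1)
  refine (Nat.cast_le.2 h1).trans ?_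
  rw [Nat.cast_sum]
  refine (sum_le_card_nsmul _ _ ρ fun m _ => hr m).trans ?_
  rw [nsmul_eq_mul]
  exact mul_le_mul_of_nonneg_right h2 h0

theorem rcubeb_num {δ ρ A B O Z N : ℝ} (hδ : 0 ≤ δ) (hρ : 0 ≤ ρ) (hA : 0 < A) (hB : 0 < B)
    (hZ : 0 ≤ Z) (h1 : δ * A ≤ O) (h2 : O ≤ A) (h3 : Z ≤ 8 * A) (h4 : O ^ 8 * B ≤ Z ^ 7 * N)
    (h5 : N ≤ 64 * (O * B * ρ)) : δ ^ 8 ≤ 8 ^ 7 * 64 * ρ := by
  have h0 : 0 ≤ O := (mul_nonneg hδ hA.le).trans h1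
  refine le_of_mul_le_mul_right ?_ (by positivity : 0 < A ^ 8 * B)
  calc δ ^ 8 * (A ^ 8 * B) = (δ * A) ^ 8 * B := by ring
    _ ≤ O ^ 8 * B := by gcongr
    _ ≤ Z ^ 7 * (64 * (O * B * ρ)) := h4.trans (mul_le_mul_of_nonneg_left h5 (pow_nonneg hZ 7))
    _ ≤ (8 * A) ^ 7 * (64 * (A * B * ρ)) := by gcongr
    _ = _ := by ring

/-- Take `i` with `ω i ≠ ω' i`, `p = (i, ω' i)`. Bound the indicator of the set by
`F z h` = indicator of [`vert z h ω ∈ Ω` and `(vert z h ω').1 ∈ Q m` for some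
`m ∈ Icc (κ (vert z h ω) - w) (κ (vert z h ω) + w)`]. `sum_sides_update` at `p`: `vert z h ω` does not
change and `(vert z h ω').1 = x₁ + (i + 1) y`. For fixed `h` at most `card Ω` points `z` have
`vert z h ω ∈ Ω`. -/
theorem cube_pair {H : ℕ} (hH : 0 < H) (Z Ω : Finset (ℤ × ℤ)) (κ : ℤ × ℤ → ℕ) (Q : ℕ → Finset ℤ)
    (hQ : ∀ p ∈ Ω, p.1 ∈ Q (κ p)) {r : ℝ} (hr : ∀ (m : ℕ) (x₁ i : ℤ), 1 ≤ i → i ≤ 3 →
      (((Icc (1 : ℤ) H).filter fun y => x₁ + i * y ∈ Q m).card : ℝ) ≤ r * H)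
    (w : ℕ) {ω ω' : Fin 3 → Bool} (hω : ω ≠ ω') :
    (((cubes Z Ω H).filter fun c => κ (vert c.1 c.2 ω) ≤ κ (vert c.1 c.2 ω') + w ∧
      κ (vert c.1 c.2 ω') ≤ κ (vert c.1 c.2 ω) + w).card : ℝ) ≤
      Ω.card * H ^ 6 * ((2 * w + 1) * r) := by
  obtain ⟨i, hi⟩ := Function.ne_iff.1 hω
  have hH' : (0 : ℝ) < H := Nat.cast_pos.2 hH
  have h0 : 0 ≤ r * H := (Nat.cast_nonneg _).trans (hr 0 0 1 le_rfl (by norm_num))
  have h0' : 0 ≤ (2 * w + 1) * (r * H) := by positivity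
  obtain ⟨P, hP⟩ : ∃ P : ℤ × ℤ → (Fin 3 × Bool → ℤ) → Prop, ∀ z h, P z h ↔ vert z h ω ∈ Ω ∧
      ∃ m ∈ Icc (κ (vert z h ω) - w) (κ (vert z h ω) + w), (vert z h ω').1 ∈ Q m :=
    ⟨_, fun _ _ => Iff.rfl⟩
  classical
  have h1 : ∀ z h, ∑ y ∈ Icc (1 : ℤ) H, (if P z (Function.update h (i, ω' i) y) then (1 : ℝ) else 0) ≤
      (if vert z h ω ∈ Ω then 1 else 0) * ((2 * w + 1) * (r * H)) := fun z h => by
    rw [sum_boole]
    split_ifs with hz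
    · rw [one_mul]
      refine le_trans (Nat.cast_le.2 (card_le_card fun y hy => ?_))
        (rcubeb_line Q h0 (vert z (Function.update h (i, ω' i) 0) ω').1 (((i : ℕ) : ℤ) + 1)
          (fun m => hr m _ _ (by omega) (by omega)) (κ (vert z h ω)) w)
      obtain ⟨h2, h3⟩ := mem_filter.1 hy
      have h4 := ((hP _ _).1 h3).2
      rw [rcubeb_same z h hi, rcubeb_fst] at h4
      exact mem_filter.2 ⟨h2, h4⟩
    · rw [zero_mul, filter_false_of_mem fun y _ h3 => hz ?_, card_empty, Nat.cast_zero]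
      have h4 := ((hP _ _).1 h3).1
      rwa [rcubeb_same z h hi] at h4
  have h2 : (((cubes Z Ω H).filter fun c => κ (vert c.1 c.2 ω) ≤ κ (vert c.1 c.2 ω') + w ∧
      κ (vert c.1 c.2 ω') ≤ κ (vert c.1 c.2 ω) + w).card : ℝ) ≤
      ∑ z ∈ Z, ∑ h ∈ sides H, if P z h then (1 : ℝ) else 0 := by
    rw [← sum_product', sum_boole]
    refine Nat.cast_le.2 (card_le_card fun c hc => ?_)
    obtain ⟨h3, h4, h5⟩ := mem_filter.1 hc
    obtain ⟨h6, h7⟩ := mem_filter.1 h3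
    exact mem_filter.2 ⟨h6, (hP _ _).2 ⟨h7 ω, _, mem_Icc.2 ⟨by omega, h5⟩, hQ _ (h7 ω')⟩⟩
  refine h2.trans (le_of_mul_le_mul_left ?_ hH')
  calc _ = ∑ z ∈ Z, ∑ h ∈ sides H, ∑ y ∈ Icc (1 : ℤ) H,
        (if P z (Function.update h (i, ω' i) y) then (1 : ℝ) else 0) := by
        rw [mul_sum]
        exact sum_congr rfl fun z _ =>
          (sum_sides_update H (i, ω' i) fun h => if P z h then (1 : ℝ) else 0).symm
    _ ≤ ∑ z ∈ Z, ∑ h ∈ sides H, (if vert z h ω ∈ Ω then 1 else 0) * ((2 * w + 1) * (r * H)) :=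
        sum_le_sum fun z _ => sum_le_sum fun h _ => h1 z h
    _ ≤ ∑ _h ∈ sides H, Ω.card * ((2 * w + 1) * (r * H)) := by
        rw [sum_comm]
        refine sum_le_sum fun h _ => ?_
        rw [← sum_mul, sum_boole]
        exact mul_le_mul_of_nonneg_right (Nat.cast_le.2 (rcubeb_base Z Ω h ω)) h0'
    _ = _ := by
        rw [sum_const, card_sides, nsmul_eq_mul, Nat.cast_pow]
        ring

/-- Paper: Cube. `H = N1`, `Z = Ico (x₀ - 6 H) (x₀ + L) ×ˢ Icc 1 (4 H)` has at most `8 L H` points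
(`6 H ≤ 6 s Na ≤ L`). By `cube_alt` and `cube_sep` every cube has a close pair, so the number of
cubes is at most `64` times the bound of `cube_pair`; `box`; `card Ω ≤ L H`. -/
theorem Rng.cube {D : Data} {k : ℕ} {s : ℝ} {g Na Nb : ℕ} (R : Rng D k s g Na Nb) {q : ℕ}
    (hq : 1 ≤ q) (τ : Fin 3 → Atom) (x₀ : ℤ) {L : ℕ} (hL : Na ≤ 2 * L) (Ω : Finset (ℤ × ℤ))
    (hΩ : Ω ⊆ Ico x₀ (x₀ + L) ×ˢ Icc (1 : ℤ) R.N1) {δ : ℝ} (hδ : 0 ≤ δ)
    (hc : δ * (L * R.N1) ≤ Ω.card) (κ : ℤ × ℤ → ℕ)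
    (hκ : ∀ p ∈ Ω, Na ≤ NN q (κ p) ∧ NN q (κ p) ≤ Nb ∧ R.Crit (NN q (κ p)) (Xi τ p.1 p.2))
    (Q : ℕ → Finset ℤ) (hQ : ∀ p ∈ Ω, p.1 ∈ Q (κ p)) {r : ℝ} (hr0 : 0 ≤ r)
    (hr : ∀ (m : ℕ) (x₁ i : ℤ), 1 ≤ i → i ≤ 3 →
      (((Icc (1 : ℤ) R.N1).filter fun y => x₁ + i * y ∈ Q m).card : ℝ) ≤ r * R.N1) :
    δ ^ 8 ≤ 8 ^ 7 * 64 * ((2 * (q * (2 * g + 5) : ℕ) + 1) * r) := by
  have hH := R.N1_pos
  have h1 : 6 * R.N1 ≤ L := by
    have h2 := R.N1_le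
    have h3 := mul_le_mul_of_nonneg_right R.s_le (Nat.cast_nonneg (α := ℝ) Na)
    have h4 : (Na : ℝ) ≤ 2 * L := by exact_mod_cast hL
    have h5 : (0 : ℝ) ≤ L := Nat.cast_nonneg L
    exact_mod_cast (by linarith : (6 : ℝ) * R.N1 ≤ L)
  generalize R.N1 = H at *
  have hb := box hH (Ico (x₀ - 6 * H) (x₀ + L) ×ˢ Icc (1 : ℤ) (4 * H)) Ω fun z h hh ω hz => by
    have h2 := mem_product.1 (hΩ hz)
    have h3 := mem_Icc.1 (mem_sides.1 hh (0, ω 0))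
    have h4 := mem_Icc.1 (mem_sides.1 hh (1, ω 1))
    have h5 := mem_Icc.1 (mem_sides.1 hh (2, ω 2))
    simp only [vert, Fin.sum_univ_three, mem_Ico, mem_Icc, Fin.val_zero, Fin.val_one, Fin.val_two,
      Nat.cast_zero, Nat.cast_one, Nat.cast_ofNat] at h2
    rw [mem_product, mem_Ico, mem_Icc]
    omega
  have hZ : ((Ico (x₀ - 6 * H) (x₀ + L) ×ˢ Icc (1 : ℤ) (4 * H)).card : ℝ) ≤ 8 * (L * H) := by
    have h2 : (Ico (x₀ - 6 * H) (x₀ + L)).card ≤ 2 * L := by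
      rw [Int.card_Ico]
      omega
    have h3 : (Icc (1 : ℤ) (4 * H)).card ≤ 4 * H := by
      rw [Int.card_Icc]
      omega
    rw [card_product]
    exact_mod_cast (Nat.mul_le_mul h2 h3).trans_eq (by ring)
  have hO : (Ω.card : ℝ) ≤ L * H := by
    have h2 : (Ico x₀ (x₀ + L)).card = L := by
      rw [Int.card_Ico]
      omega
    have h3 : (Icc (1 : ℤ) H).card = H := by
      rw [Int.card_Icc]
      omega
    have h4 := card_le_card hΩ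
    rw [card_product, h2, h3] at h4
    exact_mod_cast h4
  generalize Ico (x₀ - 6 * H) (x₀ + L) ×ˢ Icc (1 : ℤ) (4 * H) = Z at hb hZ
  have hρ : 0 ≤ (2 * (q * (2 * g + 5) : ℕ) + 1) * r := by positivity
  have h2 : ((cubes Z Ω H).card : ℝ) ≤
      64 * (Ω.card * H ^ 6 * ((2 * (q * (2 * g + 5) : ℕ) + 1) * r)) := by
    have h3 : (cubes Z Ω H).card ≤ ∑ p ∈ (univ : Finset (Fin 3 → Bool)).offDiag,
        ((cubes Z Ω H).filter fun c => κ (vert c.1 c.2 p.1) ≤ κ (vert c.1 c.2 p.2) + q * (2 * g + 5) ∧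
          κ (vert c.1 c.2 p.2) ≤ κ (vert c.1 c.2 p.1) + q * (2 * g + 5)).card := by
      refine (card_le_card fun c hc => ?_).trans card_biUnion_le
      have h4 := fun ω => hκ _ ((mem_filter.1 hc).2 ω)
      obtain ⟨ω, ω', h5, h6⟩ := R.cube_sep hq
        (fun ω => Xi τ (vert c.1 c.2 ω).1 (vert c.1 c.2 ω).2) (fun ω => κ (vert c.1 c.2 ω))
        (cube_alt τ c.1 c.2) (fun ω => ⟨(h4 ω).1, (h4 ω).2.1⟩) fun ω => (h4 ω).2.2
      exact mem_biUnion.2 ⟨(ω, ω'), mem_offDiag.2 ⟨mem_univ _, mem_univ _, h5⟩, mem_filter.2 ⟨hc, h6⟩⟩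
    have h4 : (((univ : Finset (Fin 3 → Bool)).offDiag).card : ℝ) ≤ 64 := by
      rw [offDiag_card, card_univ, Fintype.card_fun, Fintype.card_bool, Fintype.card_fin]
      norm_num
    refine (Nat.cast_le.2 h3).trans ?_
    rw [Nat.cast_sum]
    refine (sum_le_card_nsmul _ _ _ fun p hp =>
      cube_pair hH Z Ω κ Q hQ hr _ (mem_offDiag.1 hp).2.2).trans ?_
    rw [nsmul_eq_mul]
    exact mul_le_mul_of_nonneg_right h4
      (mul_nonneg (mul_nonneg (Nat.cast_nonneg _) (pow_nonneg (Nat.cast_nonneg _) 6)) hρ)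
  have hH' : (0 : ℝ) < H := Nat.cast_pos.2 hH
  exact rcubeb_num hδ hρ (mul_pos (Nat.cast_pos.2 (by omega)) hH') (pow_pos hH' 6)
    (Nat.cast_nonneg _) hc hO hZ hb h2

end Pool.Agent.TR
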