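import Pool.Agent.Lib.MP_cc859a_an.TR.RKb

open Finset Real
open scoped BigOperators ComplexConjugate

namespace Pool.Agent.TR

theorem requi_shift {M N : ℕ} {n : ℤ} (hn : n ∈ Icc (1 : ℤ) M) (W : ℤ → ℝ) (hW : ∀ w, 0 ≤ W w)
    (F : ℤ → ℂ) (hF : ∀ z, ‖F z‖ ≤ 1) :
    ‖∑ w ∈ Icc (1 : ℤ) N, (W w : ℂ) * F (n + w) - ∑ z ∈ Ioc (M : ℤ) N, (W (z - n) : ℂ) * F z‖ ≤
      ∑ w ∈ Icc (1 : ℤ) N, W w - ∑ z ∈ Ioc (M : ℤ) N, W (z - n) := by
  rw [mem_Icc] at hn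
  have hsub : (Ioc (M : ℤ) N).image (fun z => z - n) ⊆ Icc (1 : ℤ) N := by
    intro w hw
    obtain ⟨z, hz, rfl⟩ := mem_image.1 hw
    rw [mem_Ioc] at hz
    rw [mem_Icc]
    omega
  have hinj : Set.InjOn (fun z : ℤ => z - n) (Ioc (M : ℤ) N : Finset ℤ) := by
    intro a _ b _ h
    simpa using h
  have e1 : ∑ z ∈ Ioc (M : ℤ) N, (W (z - n) : ℂ) * F z =
      ∑ w ∈ (Ioc (M : ℤ) N).image (fun z => z - n), (W w : ℂ) * F (n + w) := by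
    rw [sum_image hinj]
    refine sum_congr rfl fun z _ => ?_
    rw [add_sub_cancel]
  have e2 : ∑ z ∈ Ioc (M : ℤ) N, W (z - n) =
      ∑ w ∈ (Ioc (M : ℤ) N).image (fun z => z - n), W w := by
    rw [sum_image hinj]
  rw [e1, e2, ← sum_sdiff_eq_sub hsub, ← sum_sdiff_eq_sub hsub]
  refine (norm_sum_le _ _).trans (sum_le_sum fun w _ => ?_)
  rw [norm_mul, Complex.norm_real, Real.norm_of_nonneg (hW w)]
  exact mul_le_of_le_one_right (hW w) (hF _)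

theorem requi_abs {M N : ℕ} {s : ℝ} (hM : 0 < M) (hMN : M ≤ N) (hs0 : 0 ≤ s) (hs1 : s ≤ 1)
    (hs : (M : ℝ) ≤ s * N) (W : ℤ → ℝ) (hW : ∀ w, 0 ≤ W w)
    (hmass : ∑ w ∈ Icc (1 : ℤ) N, W w ≤ 1 + s)
    (hloc : ∀ z ∈ Ioc (M : ℤ) N, |∑ n ∈ Icc (1 : ℤ) M, W (z - n) - M / N| ≤ s * (M / N))
    (F : ℤ → ℂ) (hF : ∀ z, ‖F z‖ ≤ 1) :
    ‖(𝔼 n ∈ Icc (1 : ℤ) M, ∑ w ∈ Icc (1 : ℤ) N, (W w : ℂ) * F (n + w)) -
      𝔼 z ∈ Icc (1 : ℤ) N, F z‖ ≤ 5 * s := by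
  have hM' : (0 : ℝ) < M := by exact_mod_cast hM
  have hMN' : (M : ℝ) ≤ N := by exact_mod_cast hMN
  have hN' : (0 : ℝ) < N := hM'.trans_le hMN'
  have cM : (Icc (1 : ℤ) M).card = M := by simp
  have cN : (Icc (1 : ℤ) N).card = N := by simp
  have cI : (((Ioc (M : ℤ) N).card : ℕ) : ℝ) = N - M := by
    rw [Int.card_Ioc]
    have : ((N : ℤ) - M).toNat = N - M := by omega
    rw [this, Nat.cast_sub hMN]
  set a : ℤ → ℂ := fun n => ∑ w ∈ Icc (1 : ℤ) N, (W w : ℂ) * F (n + w) with ha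
  set b : ℤ → ℂ := fun n => ∑ z ∈ Ioc (M : ℤ) N, (W (z - n) : ℂ) * F z with hb
  set ω : ℤ → ℝ := fun z => ∑ n ∈ Icc (1 : ℤ) M, W (z - n) with hω
  have hsplit : ∑ z ∈ Icc (1 : ℤ) N, F z =
      ∑ z ∈ Icc (1 : ℤ) M, F z + ∑ z ∈ Ioc (M : ℤ) N, F z := by
    rw [← sum_union]
    · refine sum_congr ?_ fun _ _ => rfl
      ext z
      simp only [mem_Icc, mem_union, mem_Ioc]
      omega
    · rw [disjoint_left]
      intro z h1 h2
      simp only [mem_Icc, mem_Ioc] at h1 h2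
      omega
  have hbs : ∑ n ∈ Icc (1 : ℤ) M, b n = ∑ z ∈ Ioc (M : ℤ) N, (ω z : ℂ) * F z := by
    simp only [hb, hω]
    rw [sum_comm]
    refine sum_congr rfl fun z _ => ?_
    rw [Complex.ofReal_sum, sum_mul]
  have h1 : ‖∑ n ∈ Icc (1 : ℤ) M, (a n - b n)‖ ≤ 3 * s * M := by
    have h2 : ‖∑ n ∈ Icc (1 : ℤ) M, (a n - b n)‖ ≤
        ∑ n ∈ Icc (1 : ℤ) M, ((1 + s) - ∑ z ∈ Ioc (M : ℤ) N, W (z - n)) := by
      refine (norm_sum_le _ _).trans (sum_le_sum fun n hn => ?_)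
      exact (requi_shift hn W hW F hF).trans (by linarith)
    have h7 : ∑ n ∈ Icc (1 : ℤ) M, ((1 + s) - ∑ z ∈ Ioc (M : ℤ) N, W (z - n)) =
        M * (1 + s) - ∑ z ∈ Ioc (M : ℤ) N, ∑ n ∈ Icc (1 : ℤ) M, W (z - n) := by
      rw [sum_sub_distrib, sum_const, cM, nsmul_eq_mul, sum_comm]
    rw [h7] at h2
    have h3 : ∑ z ∈ Ioc (M : ℤ) N, (1 - s) * ((M : ℝ) / N) ≤
        ∑ z ∈ Ioc (M : ℤ) N, ∑ n ∈ Icc (1 : ℤ) M, W (z - n) := by
      refine sum_le_sum fun z hz => ?_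
      have := (abs_le.1 (hloc z hz)).1
      linarith
    rw [sum_const, nsmul_eq_mul, cI] at h3
    have h4 : (1 - s) * ((1 - s) * M) ≤ ((N : ℝ) - M) * ((1 - s) * (M / N)) := by
      have h5 : ((N : ℝ) - M) * ((1 - s) * (M / N)) = (((N : ℝ) - M) / N) * ((1 - s) * M) := by
        field_simp
      rw [h5]
      refine mul_le_mul_of_nonneg_right ?_ (mul_nonneg (by linarith) hM'.le)
      rw [le_div_iff₀ hN']
      linarith
    have h6 : 0 ≤ s * s * M := by positivity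
    nlinarith
  have h2 : ‖∑ z ∈ Ioc (M : ℤ) N, ((ω z - M / N : ℝ) : ℂ) * F z‖ ≤ s * M := by
    have h3 : ‖∑ z ∈ Ioc (M : ℤ) N, ((ω z - M / N : ℝ) : ℂ) * F z‖ ≤
        ∑ z ∈ Ioc (M : ℤ) N, s * ((M : ℝ) / N) := by
      refine (norm_sum_le _ _).trans (sum_le_sum fun z hz => ?_)
      rw [norm_mul, Complex.norm_real, Real.norm_eq_abs]
      exact (mul_le_of_le_one_right (abs_nonneg _) (hF z)).trans (hloc z hz)
    rw [sum_const, nsmul_eq_mul, cI] at h3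
    refine h3.trans ?_
    have h5 : ((N : ℝ) - M) * (s * (M / N)) = (((N : ℝ) - M) / N) * (s * M) := by
      field_simp
    rw [h5]
    refine mul_le_of_le_one_left (by positivity) ?_
    rw [div_le_one hN']
    linarith
  have h3 : ‖∑ z ∈ Icc (1 : ℤ) M, F z‖ ≤ s * N := by
    refine (norm_sum_le _ _).trans ((sum_le_sum fun z _ => hF z).trans ?_)
    rw [sum_const, cM, nsmul_eq_mul, mul_one]
    exact hs
  have hMc : (M : ℂ) ≠ 0 := by exact_mod_cast hM.ne'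
  have hNc : (N : ℂ) ≠ 0 := by exact_mod_cast (hM.trans_le hMN).ne'
  have key : (𝔼 n ∈ Icc (1 : ℤ) M, a n) - 𝔼 z ∈ Icc (1 : ℤ) N, F z =
      (∑ n ∈ Icc (1 : ℤ) M, (a n - b n)) / M +
        (∑ z ∈ Ioc (M : ℤ) N, ((ω z - M / N : ℝ) : ℂ) * F z) / M -
          (∑ z ∈ Icc (1 : ℤ) M, F z) / N := by
    rw [expect_eq_sum_div_card, expect_eq_sum_div_card, cM, cN, hsplit, sum_sub_distrib, hbs]
    have : ∑ z ∈ Ioc (M : ℤ) N, ((ω z - M / N : ℝ) : ℂ) * F z =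
        ∑ z ∈ Ioc (M : ℤ) N, (ω z : ℂ) * F z - (M : ℂ) / N * ∑ z ∈ Ioc (M : ℤ) N, F z := by
      rw [mul_sum, ← sum_sub_distrib]
      refine sum_congr rfl fun z _ => ?_
      push_cast
      ring
    rw [this]
    field_simp
    ring
  rw [key]
  refine (norm_sub_le _ _).trans ((add_le_add (norm_add_le _ _) le_rfl).trans ?_)
  rw [norm_div, norm_div, norm_div, Complex.norm_natCast, Complex.norm_natCast]
  have q1 := (div_le_iff₀ hM').2 h1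
  have q2 := (div_le_iff₀ hM').2 h2
  have q3 := (div_le_iff₀ hN').2 h3
  linarith

namespace Rng

variable {D : Data} {k : ℕ} {s : ℝ} {g Na Nb : ℕ} (R : Rng D k s g Na Nb)

/-- Put `ω z = N1⁻¹ ∑ n ∈ Icc 1 N1, if z - n ∈ Icc 1 N then W N (z - n) else 0` on
`Z = Icc 1 (N + N1)`; the first average is `∑ z ∈ Z, ω z * F z` and `∑ ω` is the mass. On
`Ioc N1 N`, `|ω z - 1 / N| ≤ s / N` (`equi_loc`). So the rest of `Z` has weight at most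
`1 + s - (1 - s) (1 - N1 / N) ≤ 3 s` (`mass`, `N1 ≤ s N`), and `Icc 1 N1` has uniform weight at most
`s`. -/
theorem equi {N : ℕ} (h₁ : Na ≤ N) (h₂ : N ≤ Nb) (F : ℤ → ℂ) (hF : ∀ z, ‖F z‖ ≤ 1) :
    ‖(𝔼 n ∈ Icc (1 : ℤ) R.N1, ∑ w ∈ Icc (1 : ℤ) N, (R.W N w : ℂ) * F (n + w)) -
      𝔼 z ∈ Icc (1 : ℤ) N, F z‖ ≤ 5 * s := by
  have hle : R.N1 ≤ N := R.N1_le_Na.trans h₁
  have hs0 := R.s_pos
  have hs1 := R.s_le
  have hN : (0 : ℝ) < N := by exact_mod_cast R.N1_pos.trans_le hle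
  have hsg := R.sg_pos
  refine requi_abs R.N1_pos hle hs0.le (by linarith) ?_ (R.W N) (R.W_nonneg N) ?_ ?_ F hF
  · exact R.N1_le.trans (mul_le_mul_of_nonneg_left (by exact_mod_cast h₁) hs0.le)
  · have := (abs_le.1 (R.mass hle h₂)).2
    linarith
  · intro z hz
    rw [mem_Ioc] at hz
    have h := R.equi_loc hz.1 (hz.2.trans (by exact_mod_cast h₂))
    have e1 : ∑ n ∈ Icc (1 : ℤ) R.N1, R.W N (z - n) - (R.N1 : ℝ) / N =
        (∑ n ∈ Icc (1 : ℤ) R.N1, R.χ (z - n) - R.sg * R.N1) / (R.sg * N) := by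
      simp only [W]
      rw [← sum_div]
      field_simp
    rw [e1, abs_div, abs_of_pos (mul_pos hsg hN), div_le_iff₀ (mul_pos hsg hN)]
    refine h.trans (le_of_eq ?_)
    field_simp

end Rng

end Pool.Agent.TR
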