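import Pool.Agent.Lib.MP_cc859a_an.TR.DefsR

open Finset Real
open scoped BigOperators ComplexConjugate

namespace Pool.Agent.TR

variable {D : Data} {k : ℕ} {s : ℝ} {τ : Fin 3 → Atom} {x n : ℤ}

theorem Sm_subset (hD : D.OK) : D.Sm ⊆ D.B := by
  exact Bohr_mono Subset.rfl (by linarith [hD.1]) (by linarith [hD.2.1])

theorem Sm_add (hD : D.OK) {u v : ℤ} (hu : u ∈ D.Sm) (hv : v ∈ D.Sm) :
    u + v ∈ Bohr D.Θ (D.δ / 5) (D.N / 5) := by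
  exact Bohr_mono Subset.rfl (by linarith) (by linarith) (Bohr_add hu hv)

theorem Sm_sub (hD : D.OK) {u v : ℤ} (hu : u ∈ D.Sm) (hv : v ∈ D.Sm) : u - v ∈ D.B := by
  exact Bohr_mono Subset.rfl (by linarith [hD.1]) (by linarith [hD.2.1]) (Bohr_sub hu hv)

theorem Sm_subset_five (hD : D.OK) : D.Sm ⊆ Bohr D.Θ (D.δ / 5) (D.N / 5) := by
  exact Bohr_mono Subset.rfl (by linarith [hD.1]) (by linarith [hD.2.1])

theorem Adm.bb_mem (h : Adm D k s τ) (x n : ℤ) : bb τ x n ∈ Sp D.F (14 * k) := by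
  refine Sp_mono Subset.rfl ?_ (Sp_add (Sp_add ((h.atom 0).mem _) (Sp_zsmul ((h.atom 1).mem _) 4))
    (Sp_zsmul ((h.atom 2).mem _) 9))
  show k + 4 * k + 9 * k ≤ _
  omega

theorem Adm.bm_mem (h : Adm D k s τ) (x n : ℤ) : bm τ x n ∈ Sp D.F (14 * k) := by
  refine Sp_mono Subset.rfl ?_ (Sp_add (Sp_add ((h.atom 0).mem _) (Sp_zsmul ((h.atom 1).mem _) 2))
    (Sp_zsmul ((h.atom 2).mem _) 3))
  show k + 2 * k + 3 * k ≤ _
  omega

/-- `Loc.sp`, `Loc.mono`. -/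
theorem Adm.loc (h : Adm D k s τ) {l : ℤ → T} (hl : l ∈ Sp D.F (14 * k)) : Loc l D.B s := by
  exact (Loc.sp h.ok.2.2.2 hl).mono Subset.rfl (by push_cast; exact h.eps)

theorem Adm.norm_Pr (h : Adm D k s τ) (x n : ℤ) : ‖Pr τ x n‖ ≤ 1 := by
  rw [Pr, norm_mul, norm_mul]
  exact mul_le_one₀ (mul_le_one₀ ((h.atom 0).norm_le _) (norm_nonneg _) ((h.atom 1).norm_le _))
    (norm_nonneg _) ((h.atom 2).norm_le _)

theorem At_eq (N : ℕ) (τ : Fin 3 → Atom) (x : ℤ) :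
    At N τ x = 𝔼 n ∈ Icc (1 : ℤ) N, Pr τ x n := rfl

theorem rtrip_mem (hD : D.OK) {w : ℤ} (hw : w ∈ Bohr D.Θ (D.δ / 5) (D.N / 5)) :
    w ∈ D.B ∧ 2 * w ∈ D.B ∧ 3 * w ∈ D.B :=
  ⟨Bohr_mono Subset.rfl (by linarith [hD.1]) (by linarith [hD.2.1]) hw,
    Bohr_mono Subset.rfl (by push_cast; linarith [hD.1]) (by push_cast; linarith [hD.2.1])
      (Bohr_nsmul hw 2),
    Bohr_mono Subset.rfl (by push_cast; linarith [hD.1]) (by push_cast; linarith [hD.2.1])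
      (Bohr_nsmul hw 3)⟩

theorem rtrip_three {a b c a' b' c' : ℂ} (hb : ‖b‖ ≤ 1) (hc : ‖c‖ ≤ 1) (ha' : ‖a'‖ ≤ 1)
    (hb' : ‖b'‖ ≤ 1) (h1 : ‖a - a'‖ ≤ s) (h2 : ‖b - b'‖ ≤ s) (h3 : ‖c - c'‖ ≤ s) :
    ‖a * b * c - a' * b' * c'‖ ≤ 3 * s := by
  have g : ∀ x y z : ℂ, ‖x‖ ≤ s → ‖y‖ ≤ 1 → ‖z‖ ≤ 1 → ‖x * (y * z)‖ ≤ s := fun x y z hx hy hz => by
    rw [norm_mul, norm_mul]
    exact (mul_le_of_le_one_right (norm_nonneg _) (mul_le_one₀ hy (norm_nonneg _) hz)).trans hx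
  rw [show a * b * c - a' * b' * c' =
    (a - a') * (b * c) + (b - b') * (a' * c) + (c - c') * (a' * b') by ring]
  refine (norm_add₃_le).trans ?_
  linarith [g _ _ _ h1 hb hc, g _ _ _ h2 ha' hc, g _ _ _ h3 ha' hb']

theorem rtrip_card {Bad : Finset ℤ} (hx : NZ Bad s x) (N i : ℕ) (hi : 0 < i) :
    (((Icc (1 : ℤ) N).filter fun n => x + i * n ∈ Bad).card : ℝ) ≤ s / 6 * (i * N : ℕ) := by
  refine le_trans (Nat.cast_le.2 ?_) (hx (i * N))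
  have h0 : (0 : ℤ) < i := Nat.cast_pos.2 hi
  refine card_le_card_of_injOn (fun n => x + i * n) (fun n hn => ?_) fun n _ m _ h => ?_
  · simp only [coe_filter, mem_Icc, mem_Ioc, Set.mem_ofPred_eq] at hn ⊢
    refine ⟨⟨by nlinarith [hn.1.1], ?_⟩, hn.2⟩
    push_cast
    nlinarith [hn.1.2]
  · exact mul_left_cancel₀ h0.ne' (add_left_cancel h)

/-- `w`, `2 w`, `3 w` lie in `D.B`; `IsAtom.lab`. -/
theorem Adm.bb_shift (h : Adm D k s τ) (hg : Good D x n) {w : ℤ}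
    (hw : w ∈ Bohr D.Θ (D.δ / 5) (D.N / 5)) : bb τ x (n + w) = bb τ x n := by
  obtain ⟨h1, h2, h3⟩ := rtrip_mem h.ok hw
  rw [bb, bb, ← (h.atom 0).lab _ hg.1 _ h1, ← (h.atom 1).lab _ hg.2.1 _ h2,
    ← (h.atom 2).lab _ hg.2.2 _ h3, ← add_assoc, mul_add, mul_add, ← add_assoc, ← add_assoc]

/-- `IsAtom.val` at `x + i n` with the shift `i w`; `Λ (i w) = i Λ w` by additivity
(`LAdd.sp`); a product of three factors of norm at most one. -/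
theorem Adm.Pr_shift (h : Adm D k s τ) (hg : Good D x n) {w : ℤ}
    (hw : w ∈ Bohr D.Θ (D.δ / 5) (D.N / 5)) :
    ‖Pr τ x (n + w) - Pr τ x n * e (w • Xi τ x n + w • bb τ x n w)‖ ≤ 3 * s := by
  obtain ⟨h1, h2, h3⟩ := rtrip_mem h.ok hw
  have a1 := LAdd.sp (fun l hl => (h.ok.2.2.2 l hl).add) ((h.atom 1).mem (x + 2 * n))
  have a2 := LAdd.sp (fun l hl => (h.ok.2.2.2 l hl).add) ((h.atom 2).mem (x + 3 * n))
  have b1 : (τ 1).Λ (x + 2 * n) (2 * w) = (τ 1).Λ (x + 2 * n) w + (τ 1).Λ (x + 2 * n) w := by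
    rw [two_mul w, a1 w h1 w h1]
  have b2 : (τ 2).Λ (x + 3 * n) (3 * w) =
      (τ 2).Λ (x + 3 * n) w + (τ 2).Λ (x + 3 * n) w + (τ 2).Λ (x + 3 * n) w := by
    rw [show 3 * w = 2 * w + w by ring, a2 _ h2 w h1, two_mul w, a2 w h1 w h1]
  have c : w • Xi τ x n + w • bb τ x n w =
      (w • (τ 0).t (x + n) + w • (τ 0).Λ (x + n) w) +
        ((2 * w) • (τ 1).t (x + 2 * n) + (2 * w) • (τ 1).Λ (x + 2 * n) (2 * w)) +
        ((3 * w) • (τ 2).t (x + 3 * n) + (3 * w) • (τ 2).Λ (x + 3 * n) (3 * w)) := by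
    rw [b1, b2]
    simp only [Xi, bb, Pi.add_apply, Pi.smul_apply]
    module
  have n1 : ∀ (σ : Fin 3) (y : ℤ) (t : T), ‖(τ σ).γ y * e t‖ ≤ 1 := fun σ y t => by
    rw [norm_mul, norm_e, mul_one]
    exact (h.atom σ).norm_le y
  have d := rtrip_three ((h.atom 1).norm_le _) ((h.atom 2).norm_le _) (n1 0 _ _) (n1 1 _ _)
    ((h.atom 0).val _ hg.1 _ h1) ((h.atom 1).val _ hg.2.1 _ h2) ((h.atom 2).val _ hg.2.2 _ h3)
  rw [c, e_add, e_add, Pr, Pr, ← add_assoc, mul_add, mul_add, ← add_assoc, ← add_assoc]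
  refine le_of_eq_of_le (congrArg _ ?_) d
  ring

theorem Adm.bm_shift (h : Adm D k s τ) (hg : Good D x n) {v : ℤ} (hv : v ∈ D.B) :
    bm τ (x + v) n = bm τ x n := by
  rw [bm, bm, add_right_comm x v, add_right_comm x v, add_right_comm x v, (h.atom 0).lab _ hg.1 _ hv,
    (h.atom 1).lab _ hg.2.1 _ hv, (h.atom 2).lab _ hg.2.2 _ hv]

theorem Adm.Xi_shift (h : Adm D k s τ) (hg : Good D x n) {v : ℤ} (hv : v ∈ D.B) :
    Xi τ (x + v) n = Xi τ x n + (2 : ℤ) • bm τ x n v := by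
  rw [Xi, Xi, bm, add_right_comm x v, add_right_comm x v, add_right_comm x v,
    (h.atom 0).lin _ hg.1 _ hv, (h.atom 1).lin _ hg.2.1 _ hv, (h.atom 2).lin _ hg.2.2 _ hv]
  simp only [Pi.add_apply, Pi.smul_apply]
  module

/-- `n ↦ x + i n` injects the `n` with `x + i n ∈ Bad` in `Bad ∩ Ioc x (x + i N)`;
`s / 6 * (N + 2 N + 3 N) = s N`. -/
theorem card_badN (hx : NZ D.Bad s x) (N : ℕ) : ((badN D x N).card : ℝ) ≤ s * N := by
  have h1 := rtrip_card hx N 1 one_pos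
  have h2 := rtrip_card hx N 2 two_pos
  have h3 := rtrip_card hx N 3 three_pos
  have h4 : badN D x N ⊆ ((Icc (1 : ℤ) N).filter fun n => x + (1 : ℕ) * n ∈ D.Bad) ∪
      ((Icc (1 : ℤ) N).filter fun n => x + (2 : ℕ) * n ∈ D.Bad) ∪
      ((Icc (1 : ℤ) N).filter fun n => x + (3 : ℕ) * n ∈ D.Bad) := fun n hn => by
    obtain ⟨g1, g2⟩ := mem_badN.1 hn
    simp only [mem_union, mem_filter, g1, true_and, Nat.cast_one, one_mul, Nat.cast_ofNat]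
    unfold Good at g2
    tauto
  have h5 := (card_le_card h4).trans ((card_union_le _ _).trans
    (Nat.add_le_add_right (card_union_le _ _) _))
  have h6 := (Nat.cast_le (α := ℝ)).2 h5
  push_cast at h1 h2 h3 h6
  linarith

/-- An average with a small exceptional set. -/
theorem norm_expect_exc {S E : Finset ℤ} (f : ℤ → ℂ) {a b c : ℝ} (ha : 0 ≤ a) (hb : 0 ≤ b)
    (hc : 0 ≤ c) (hE : (E.card : ℝ) ≤ c * S.card) (h₁ : ∀ n ∈ S, n ∉ E → ‖f n‖ ≤ a)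
    (h₂ : ∀ n ∈ S, ‖f n‖ ≤ b) : ‖𝔼 n ∈ S, f n‖ ≤ a + b * c := by
  rcases S.eq_empty_or_nonempty with rfl | hS
  · simpa using add_nonneg ha (mul_nonneg hb hc)
  have h0 : (0 : ℝ) < S.card := Nat.cast_pos.2 hS.card_pos
  have h1 : ∑ n ∈ S, ‖f n‖ ≤ ∑ n ∈ S, (a + if n ∈ E then b else 0) := sum_le_sum fun n hn => by
    split_ifs with h
    · linarith [h₂ n hn]
    · linarith [h₁ n hn h]
  rw [sum_add_distrib, sum_const, sum_ite_mem, sum_const, nsmul_eq_mul, nsmul_eq_mul] at h1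
  have h2 : ((S ∩ E).card : ℝ) ≤ c * S.card :=
    (Nat.cast_le.2 (card_le_card inter_subset_right)).trans hE
  refine (norm_expect_le_expect S f).trans ?_
  rw [expect_eq_sum_div_card, div_le_iff₀ h0]
  nlinarith [mul_le_mul_of_nonneg_left h2 hb]

/-- Shifting an interval. -/
theorem expect_Icc_shift (N : ℕ) (F : ℤ → ℂ) (hF : ∀ z, ‖F z‖ ≤ 1) (r : ℤ) :
    N * ‖(𝔼 z ∈ Icc (1 : ℤ) N, F (z + r)) - 𝔼 z ∈ Icc (1 : ℤ) N, F z‖ ≤ 2 * |(r : ℝ)| := by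
  have h1 : ∀ G : ℤ → ℂ, (N : ℂ) * 𝔼 z ∈ Icc (1 : ℤ) N, G z = ∑ z ∈ Icc (1 : ℤ) N, G z := fun G => by
    rw [← card_mul_expect]
    simp
  have h2 : ∑ z ∈ Icc (1 : ℤ) N, F (z + r) = ∑ z ∈ Icc (1 + r) (N + r), F z := by
    rw [← map_add_right_Icc, sum_map]
    rfl
  have h3 : ∀ A B C : Finset ℤ, A ⊆ B ∪ C → (B.card : ℤ) + C.card = |r| →
      ‖∑ z ∈ A, F z‖ ≤ |(r : ℝ)| := fun A B C h h' => by
    have g1 : (A.card : ℤ) ≤ |r| := by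
      have := (card_le_card h).trans (card_union_le _ _)
      omega
    have g2 : (A.card : ℝ) ≤ |(r : ℝ)| := by exact_mod_cast g1
    refine (norm_sum_le _ _).trans ((sum_le_card_nsmul _ _ _ fun z _ => hF z).trans ?_)
    rwa [nsmul_eq_mul, mul_one]
  rw [← Complex.norm_natCast, ← norm_mul, mul_sub, h1, h1, h2, ← sum_sdiff_sub_sum_sdiff, two_mul]
  refine (norm_sub_le _ _).trans (add_le_add (h3 _ (Ioc (N : ℤ) (N + r)) (Ico (1 + r) 1) ?_ ?_)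
    (h3 _ (Ioc (N + r) (N : ℤ)) (Ico 1 (1 + r)) ?_ ?_))
  · intro z
    simp only [mem_sdiff, mem_union, mem_Icc, mem_Ioc, mem_Ico]
    omega
  · rw [Int.card_Ioc, Int.card_Ico, Int.abs_eq_natAbs]
    omega
  · intro z
    simp only [mem_sdiff, mem_union, mem_Icc, mem_Ioc, mem_Ico]
    omega
  · rw [Int.card_Ioc, Int.card_Ico, Int.abs_eq_natAbs]
    omega

end Pool.Agent.TR
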