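import Pool.Agent.Lib.MP_cc859a_an.TR.RKa
import Pool.Agent.Lib.MP_cc859a_an.TR.RTrip

open Finset Real
open scoped BigOperators ComplexConjugate

namespace Pool.Agent.TR

namespace Rng

variable {D : Data} {k : ℕ} {s : ℝ} {g Na Nb : ℕ} (R : Rng D k s g Na Nb) {τ : Fin 3 → Atom}

/-- If the set is not empty take `u₀` in it, `l = bm τ (y + u₀) n`. For every `u ∈ V`,
`Xi (y + u) n = ξ + 2 • l u` with `ξ = Xi (y + u₀) n - 2 • l u₀` (`Xi_shift` with `u - u₀`, `Sm_sub`,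
`LAdd.sub`). `bias V l ≤ s ^ 4` (`r3`), `bias_b2`, and the indicator is at most `4 ‖mu‖ ^ 2`. -/
theorem far_loc (h : Adm D k s τ) (y n : ℤ) :
    ((R.V.filter fun u => n ∈ R.far τ (y + u)).card : ℝ) ≤ 4 * s ^ 2 * R.V.card := by
  have hs := R.s_pos
  rcases (R.V.filter fun u => n ∈ R.far τ (y + u)).eq_empty_or_nonempty with h0 | ⟨u₀, hu₀⟩
  · rw [h0, card_empty, Nat.cast_zero]
    positivity
  obtain ⟨a0, a1⟩ := mem_filter.1 hu₀
  obtain ⟨-, a2, a3, -⟩ := R.mem_far.1 a1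
  have hm := h.bm_mem (y + u₀) n
  have hb := (R.r3 _ hm).resolve_left a3
  have hadd : LAdd (bm τ (y + u₀) n) (Bohr D.Θ D.δ D.N) := (h.loc hm).add
  set l := bm τ (y + u₀) n with hl
  set ξ := Xi τ (y + u₀) n - (2 : ℤ) • l u₀ with hξ
  have hX : ∀ u ∈ R.V, Xi τ (y + u) n = ξ + (2 : ℤ) • l u := by
    intro u hu
    have b1 := (R.V_sm u hu).1
    have b0 := (R.V_sm u₀ a0).1
    have e := h.Xi_shift a2 (Sm_sub h.ok b1 b0)
    rw [show y + u₀ + (u - u₀) = y + u by ring, ← hl,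
      hadd.sub (Sm_subset h.ok b1) (Sm_subset h.ok b0)] at e
    rw [e, hξ, smul_sub]
    abel
  have h1 : (𝔼 u ∈ R.V, ‖mu R.V (ξ + (2 : ℤ) • l u)‖ ^ 2) ^ 2 ≤ (s ^ 2) ^ 2 :=
    ((bias_b2 R.V l ξ).trans hb).trans (le_of_eq (by ring))
  have h2 := (pow_le_pow_iff_left₀ (expect_nonneg fun _ _ => by positivity) (by positivity)
    two_ne_zero).1 h1
  have hV : (0 : ℝ) < R.V.card := by exact_mod_cast R.V_ne.card_pos
  rw [expect_eq_sum_div_card, div_le_iff₀ hV] at h2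
  have h3 : ((R.V.filter fun u => n ∈ R.far τ (y + u)).card : ℝ) ≤
      ∑ u ∈ R.V, 4 * ‖mu R.V (ξ + (2 : ℤ) • l u)‖ ^ 2 := by
    rw [card_filter]
    push_cast
    refine sum_le_sum fun u hu => ?_
    split_ifs with c
    · have := (R.mem_far.1 c).2.2.2
      rw [hX u hu] at this
      nlinarith
    · positivity
  rw [← mul_sum] at h3
  linarith

/-- Count the triples `(y, u, n)` with `u ∈ V`, `y + u ∈ I`, `n ∈ far (y + u)`: `y` lies in
`Ico (x₀ - m) (x₀ + L + m)`, `m = L / 2` (`|u| ≤ Na / 100`), which has at most `2 L` points. -/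
theorem far_sum (h : Adm D k s τ) (x₀ : ℤ) {L : ℕ} (hL : Na ≤ 2 * L) :
    ∑ x ∈ Ico x₀ (x₀ + L), ((R.far τ x).card : ℝ) ≤ 8 * s ^ 2 * L * R.N1 := by
  have hV : (0 : ℝ) < R.V.card := by exact_mod_cast R.V_ne.card_pos
  have hs := R.s_pos
  set J := Ico (x₀ - (L / 2 : ℕ)) (x₀ + L + (L / 2 : ℕ)) with hJ
  have hJc : (J.card : ℝ) ≤ 2 * L := by
    have : J.card ≤ 2 * L := by
      rw [hJ, Int.card_Ico]
      omega
    exact_mod_cast this
  have hc : ∀ x, ((R.far τ x).card : ℝ) =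
      ∑ n ∈ Icc (1 : ℤ) R.N1, if n ∈ R.far τ x then 1 else 0 := by
    intro x
    rw [sum_boole, filter_mem_eq_inter, inter_eq_right.2 fun n hn => (R.mem_far.1 hn).1]
  have h1 : ∀ u ∈ R.V, ∑ x ∈ Ico x₀ (x₀ + L), ((R.far τ x).card : ℝ) ≤
      ∑ y ∈ J, ((R.far τ (y + u)).card : ℝ) := by
    intro u hu
    have a := (R.V_sm u hu).2.1
    have b : (1 : ℝ) ≤ 2 ^ g := one_le_pow₀ one_le_two
    have c : (Na : ℝ) ≤ 2 * L := by exact_mod_cast hL
    have d : 100 * |(u : ℝ)| ≤ 2 * L := by nlinarith [abs_nonneg (u : ℝ)]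
    have d' : 100 * |u| ≤ 2 * (L : ℤ) := by exact_mod_cast d
    have e1 := le_abs_self u
    have e2 := neg_abs_le u
    have e3 := sum_image (s := Ico x₀ (x₀ + L)) (g := fun x => x - u)
      (f := fun y => ((R.far τ (y + u)).card : ℝ)) fun x _ y _ e => by simpa using e
    simp only [sub_add_cancel] at e3
    rw [← e3]
    refine sum_le_sum_of_subset_of_nonneg ?_ fun _ _ _ => Nat.cast_nonneg _
    intro z hz
    obtain ⟨x, hx, rfl⟩ := mem_image.1 hz
    rw [mem_Ico] at hx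
    rw [hJ, mem_Ico]
    omega
  have h2 := sum_le_sum h1
  rw [sum_const, nsmul_eq_mul, sum_comm] at h2
  have h3 : ∀ y ∈ J, ∑ u ∈ R.V, ((R.far τ (y + u)).card : ℝ) ≤
      R.N1 * (4 * s ^ 2 * R.V.card) := by
    intro y _
    simp only [hc]
    rw [sum_comm]
    refine (sum_le_sum (g := fun _ => 4 * s ^ 2 * R.V.card) fun n _ => ?_).trans ?_
    · rw [sum_boole]
      exact R.far_loc h y n
    · simp
  have h4 := h2.trans (sum_le_sum h3)
  rw [sum_const, nsmul_eq_mul] at h4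
  have h5 := h4.trans (mul_le_mul_of_nonneg_right hJc (by positivity))
  refine le_of_mul_le_mul_left (h5.trans (le_of_eq ?_)) hV
  ring

theorem far_card (h : Adm D k s τ) (x₀ : ℤ) {L : ℕ} (hL : Na ≤ 2 * L) :
    (((Ico x₀ (x₀ + L)).filter fun x => s * R.N1 < (R.far τ x).card).card : ℝ) ≤ 8 * s * L := by
  have hN : (0 : ℝ) < R.N1 := by exact_mod_cast R.N1_pos
  have hs := R.s_pos
  have h1 := R.far_sum h x₀ hL
  have h2 := sum_le_sum_of_subset_of_nonneg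
    (filter_subset (fun x => s * R.N1 < (R.far τ x).card) (Ico x₀ (x₀ + L)))
    (f := fun x => ((R.far τ x).card : ℝ)) fun _ _ _ => Nat.cast_nonneg _
  have h3 := sum_le_sum (s := (Ico x₀ (x₀ + L)).filter fun x => s * R.N1 < (R.far τ x).card)
    (f := fun _ => s * R.N1) fun x hx => (mem_filter.1 hx).2.le
  rw [sum_const, nsmul_eq_mul] at h3
  refine le_of_mul_le_mul_right (((h3.trans h2).trans h1).trans (le_of_eq ?_)) (mul_pos hs hN)
  ring

end Rng

end Pool.Agent.TR
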