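import Pool.Agent.Lib.MP_cc859a_an.TR.RRngD

open Finset Real
open scoped BigOperators ComplexConjugate

namespace Pool.Agent.TR

theorem rjump_mono {J : ℕ} {j : ℕ → ℕ} (hj : ∀ i < J, j i < j (i + 1)) {i i' : ℕ} (h : i ≤ i')
    (h' : i' ≤ J) : j i ≤ j i' := by
  induction i', h using Nat.le_induction with
  | base => exact le_rfl
  | succ n _ ih => exact (ih (by omega)).trans (hj n (by omega)).le

theorem rjump_card {J : ℕ} (S : Finset ℕ) (r : ℕ → ℕ → Prop) [DecidableRel r]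
    (h : ∀ i i' m, i < i' → i' < J → r i m → r i' m → False) :
    ((range J).filter fun i => ∃ m ∈ S, r i m).card ≤ S.card := by
  refine card_le_card_of_forall_subsingleton r (fun i hi => (mem_filter.1 hi).2) ?_
  intro m _ i hi i' hi'
  have h1 := mem_range.1 (mem_filter.1 hi.1).1
  have h2 := mem_range.1 (mem_filter.1 hi'.1).1
  rcases lt_trichotomy i i' with c | c | c
  · exact (h i i' m c h2 hi.2 hi'.2).elim
  · exact c
  · exact (h i' i m c h1 hi'.2 hi.2).elim

/-- Map `i` to a point `m i ∈ S` of its interval; a point lies in at most two intervals. Or: the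
half open intervals `[j i, j (i + 1))` are disjoint, and so are the `(j i, j (i + 1)]`. -/
theorem jump_count {J : ℕ} {j : ℕ → ℕ} (hj : ∀ i < J, j i < j (i + 1)) (S : Finset ℕ) :
    ((range J).filter fun i => ∃ m ∈ S, j i ≤ m ∧ m ≤ j (i + 1)).card ≤ 2 * S.card := by
  have h1 := rjump_card (J := J) S (fun i m => j i ≤ m ∧ m < j (i + 1)) fun i i' m c c' a a' => by
    have := rjump_mono hj (Nat.succ_le_of_lt c) c'.le
    simp only [Nat.succ_eq_add_one] at this
    omega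
  have h2 := rjump_card (J := J) S (fun i m => m = j (i + 1)) fun i i' m c c' a a' => by
    have := rjump_mono hj (Nat.succ_le_of_lt c) c'.le
    have := hj i' c'
    simp only [Nat.succ_eq_add_one] at *
    omega
  refine le_trans (card_le_card ?_) ((card_union_le _ _).trans ((add_le_add h1 h2).trans
    (two_mul _).ge))
  intro i hi
  obtain ⟨hi, m, hm, a, b⟩ := mem_filter.1 hi
  rcases b.lt_or_eq with c | c
  · exact mem_union_left _ (mem_filter.2 ⟨hi, m, hm, a, c⟩)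
  · exact mem_union_right _ (mem_filter.2 ⟨hi, m, hm, c⟩)

variable {D : Data} {k : ℕ} {s : ℝ} {g q a b : ℕ}

/-- Double counting; for fixed `n` take `S` = the critical `m ∈ Icc (j 0) (j J)` (`card_crit`). -/
theorem Rng.sum_hit {Na Nb : ℕ} (R : Rng D k s g Na Nb) (hq : 1 ≤ q) (τ : Fin 3 → Atom) (x : ℤ)
    {J : ℕ} {j : ℕ → ℕ} (hj : ∀ i < J, j i < j (i + 1)) :
    ∑ i ∈ range J, ((R.hit q τ x (j i) (j (i + 1))).card : ℝ) ≤
      2 * (q * (2 * g + 1) : ℕ) * R.N1 := by
  classical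
  have key : ∑ i ∈ range J, (R.hit q τ x (j i) (j (i + 1))).card ≤
      ∑ _n ∈ Icc (1 : ℤ) R.N1, 2 * (q * (2 * g + 1)) := by
    simp only [Rng.hit, card_filter]
    rw [sum_comm]
    refine sum_le_sum fun n _ => ?_
    rw [← card_filter]
    have h1 := jump_count hj ((range (j J + 1)).filter fun m => R.Crit (NN q m) (Xi τ x n))
    have h2 := R.card_crit hq (ξ := Xi τ x n)
      (S := (range (j J + 1)).filter fun m => R.Crit (NN q m) (Xi τ x n))
      fun m hm => (mem_filter.1 hm).2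
    refine le_trans (card_le_card ?_) (h1.trans (Nat.mul_le_mul_left 2 h2))
    intro i hi
    obtain ⟨hi, m, a, b, c⟩ := mem_filter.1 hi
    have := rjump_mono hj (Nat.succ_le_of_lt (mem_range.1 hi)) le_rfl
    exact mem_filter.2 ⟨hi, m, mem_filter.2 ⟨mem_range.2 (Nat.lt_succ_of_le (b.trans this)), c⟩,
      a, b⟩
  rw [sum_const, Int.card_Icc, smul_eq_mul, add_sub_cancel_right, Int.toNat_natCast,
    mul_comm] at key
  exact_mod_cast key

/-- `change` with `v = 0` (`zero_mem`): `J / K ≤ J K 150 s + 8 K q (2 g + 1)`. -/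
theorem Rng.jump_pt (R : Rng D k s g (NN q a) (NN q b)) (hq : 1 ≤ q) {ι : Type} [Fintype ι]
    {τ : ι → Fin 3 → Atom} (h : ∀ i, Adm D k s (τ i)) {K : ℝ} (hK : 1 ≤ K)
    (hι : (Fintype.card ι : ℝ) ≤ K) (hs : 200 * K ^ 2 * s ≤ 1) {x : ℤ} (hx : NZ D.Bad s x)
    (hf : ∀ i, ((R.far (τ i) x).card : ℝ) ≤ s * R.N1) {J : ℕ} {h' : ℝ} (hh : 1 / K ≤ h')
    (hJ : JumpsIn (fun j => ∑ i, At (NN q j) (τ i) x) a b J h') :
    (J : ℝ) ≤ 32 * K ^ 2 * (q * (2 * g + 1) : ℕ) := by
  obtain ⟨j, ha, hb, hj⟩ := hJ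
  have hj' : ∀ i < J, j i < j (i + 1) := fun i hi => (hj i hi).1
  have hN : (0 : ℝ) < R.N1 := Nat.cast_pos.2 R.N1_pos
  have hs0 := R.s_pos
  have hK0 : 0 < K := by linarith
  have h1 : ∀ i ∈ range J, 1 / K ≤
      ∑ t, (150 * s + 4 * ((R.hit q (τ t) x (j i) (j (i + 1))).card : ℝ) / R.N1) := by
    intro i hi
    have hi := mem_range.1 hi
    refine hh.trans ((hj i hi).2.trans ?_)
    rw [← sum_sub_distrib]
    refine (norm_sum_le _ _).trans (sum_le_sum fun t _ => ?_)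
    have := R.change (h t) hq (hj' i hi).le
      (NN_mono hq (ha.trans (rjump_mono hj' (Nat.zero_le i) hi.le)))
      (NN_mono hq ((rjump_mono hj' (Nat.succ_le_of_lt hi) le_rfl).trans hb)) (x := x) (v := 0) hx
      (by rwa [add_zero]) R.zero_mem (by simp) (by rw [add_zero]; exact hf t)
    rw [add_zero] at this
    rwa [norm_sub_rev]
  have h2 := sum_le_sum h1
  rw [sum_comm, sum_const, card_range, nsmul_eq_mul] at h2
  have h3 : ∀ t ∈ (univ : Finset ι), ∑ i ∈ range J,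
      (150 * s + 4 * ((R.hit q (τ t) x (j i) (j (i + 1))).card : ℝ) / R.N1) ≤
      J * (150 * s) + 8 * (q * (2 * g + 1) : ℕ) := by
    intro t _
    rw [sum_add_distrib, sum_const, card_range, nsmul_eq_mul, ← sum_div, ← mul_sum]
    have := R.sum_hit hq (τ t) x hj'
    refine add_le_add le_rfl ?_
    rw [div_le_iff₀ hN]
    linarith
  have h4 := h2.trans (sum_le_sum h3)
  rw [sum_const, card_univ, nsmul_eq_mul] at h4
  have hQ : (0 : ℝ) ≤ (q * (2 * g + 1) : ℕ) := Nat.cast_nonneg _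
  generalize ((q * (2 * g + 1) : ℕ) : ℝ) = Q at *
  have hJ0 : (0 : ℝ) ≤ J := Nat.cast_nonneg _
  have h5 := h4.trans (mul_le_mul_of_nonneg_right hι (by positivity))
  rw [mul_one_div, div_le_iff₀ hK0] at h5
  have h6 := mul_le_mul_of_nonneg_left hs hJ0
  linarith

/-- Paper: JUMP. `Z ⊆ Fr` (`exists_far`, `jump_pt`). -/
theorem Rng.jump {K : ℝ} (R : Rng D k (1 / (1200 * K ^ 2)) g (NN q a) (NN q b)) (hq : 1 ≤ q)
    (hab : a ≤ b) (hK : 2 ≤ K) {ι : Type} [Fintype ι] {τ : ι → Fin 3 → Atom}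
    (h : ∀ i, Adm D k (1 / (1200 * K ^ 2)) (τ i)) (hι : (Fintype.card ι : ℝ) ≤ K) {h' : ℝ}
    (hh : 1 / K ≤ h') {n : ℕ} (hn : K ^ 2 * (33 * (q * (2 * g + 1) : ℕ)) ≤ n) :
    JumpP D.Bad q a b n K h' fun j x => ∑ i, At (NN q j) (τ i) x := by
  intro i Z hZ hz
  obtain ⟨Fr, h1, h2⟩ := R.exists_far hq hab h hι (i * LL q b)
  have hK0 : 0 < K := by linarith
  have hs : 200 * K ^ 2 * (1 / (1200 * K ^ 2)) ≤ 1 := by
    rw [mul_one_div, div_le_one (by positivity)]
    nlinarith [sq_nonneg K]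
  have hQ : (0 : ℝ) < (q * (2 * g + 1) : ℕ) := Nat.cast_pos.2 (by positivity)
  have h3 : Z ⊆ Fr := by
    intro x hx
    by_contra hc
    have hx' : x ∈ Ico (i * LL q b) (i * LL q b + LL q b) := by
      have := hZ hx
      rwa [node, add_mul, one_mul] at this
    have := R.jump_pt hq h (by linarith) hι hs (hz x hx).1 (h2 x hx' hc) hh (hz x hx).2
    have h4 : 0 < K ^ 2 * (q * (2 * g + 1) : ℕ) := by positivity
    linarith
  refine (Nat.cast_le.2 (card_le_card h3)).trans (h1.trans ?_)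
  have e : 8 * (1 / (1200 * K ^ 2)) * K * (LL q b : ℝ) = LL q b / K / 150 := by
    field_simp
    ring
  have : 0 ≤ (LL q b : ℝ) / K := by positivity
  rw [e]
  linarith

end Pool.Agent.TR
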