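import Pool.Agent.Lib.MP_cc859a_an.TR.DefsR

open Finset Real
open scoped BigOperators ComplexConjugate

namespace Pool.Agent.TR

namespace Rng

variable {D : Data} {k : ℕ} {s : ℝ} {g Na Nb : ℕ} (R : Rng D k s g Na Nb)

theorem rka_one_le (g : ℕ) : (1 : ℝ) ≤ 2 ^ g := one_le_pow₀ one_le_two

theorem p₀_pos : 0 < R.p₀ := by
  have h := R.gap
  have h1 : (0 : ℝ) < 2 ^ g * s := mul_pos (by positivity) R.s_pos
  exact (mul_pos_iff_of_pos_left h1).1 (by linarith)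

/-- `φ i = 0` is tiny (`Set.ncard_le_ncard`). -/
theorem p₀_le_sg : R.p₀ ≤ R.sg := by
  have hn : (0 : ℝ) < R.n := by exact_mod_cast R.n_pos
  rw [sg, le_div_iff₀ hn]
  refine R.p₀_le.trans (Nat.cast_le.2 (Set.ncard_le_ncard (fun i hi => ?_) (Set.toFinite _)))
  have h : R.φ i = 0 := hi
  simp [h]

theorem sg_le_one : R.sg ≤ 1 := by
  have hn : (0 : ℝ) < R.n := by exact_mod_cast R.n_pos
  rw [sg, div_le_one hn, Nat.cast_le]
  simpa using Set.ncard_le_card {i | ‖R.φ i‖ * Nb * (2 ^ g) ^ 2 ≤ 1}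

theorem sg_pos : 0 < R.sg := R.p₀_pos.trans_le R.p₀_le_sg

theorem gap_sg : 100 ≤ 2 ^ g * s * R.sg :=
  R.gap.trans (mul_le_mul_of_nonneg_left R.p₀_le_sg (mul_pos (by positivity) R.s_pos).le)

include R in
theorem gap_s : 100 ≤ 2 ^ g * s :=
  R.gap_sg.trans (mul_le_of_le_one_right (mul_pos (by positivity) R.s_pos).le R.sg_le_one)

theorem N1_le : (R.N1 : ℝ) ≤ s * Na :=
  Nat.floor_le (mul_nonneg R.s_pos.le (Nat.cast_nonneg _))

include R in
theorem rka_big : 100 ≤ s * Na := by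
  have h1 : (2 : ℝ) ^ g ≤ (2 ^ g) ^ 3 := le_self_pow₀ (rka_one_le g) three_ne_zero
  have h2 := mul_le_mul_of_nonneg_left (h1.trans R.big) R.s_pos.le
  linarith [R.gap_s]

/-- `s Na ≥ s G ^ 3 ≥ 2`. -/
theorem le_N1 : s * Na ≤ 2 * R.N1 := by
  have h : s * Na < R.N1 + 1 := Nat.lt_floor_add_one _
  linarith [R.rka_big]

theorem N1_pos : 0 < R.N1 :=
  Nat.floor_pos.2 (by linarith [R.rka_big])

include R in
theorem rka_ab : s * Na ≤ s * Nb :=
  mul_le_mul_of_nonneg_left (Nat.cast_le.2 R.ab) R.s_pos.le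

theorem N1_le_N2 : R.N1 ≤ R.N2 :=
  Nat.floor_le_floor R.rka_ab

theorem N2_le : (R.N2 : ℝ) ≤ s * Nb :=
  Nat.floor_le (mul_nonneg R.s_pos.le (Nat.cast_nonneg _))

theorem le_N2 : s * Nb ≤ 2 * R.N2 := by
  have h : s * Nb < R.N2 + 1 := Nat.lt_floor_add_one _
  linarith [R.rka_big, R.rka_ab]

theorem N1_le_Na : R.N1 ≤ Na := by
  have h : s * Na ≤ Na := mul_le_of_le_one_left (Nat.cast_nonneg _) (by linarith [R.s_le])
  exact_mod_cast R.N1_le.trans h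

theorem N2_le_Nb : R.N2 ≤ Nb := by
  have h : s * Nb ≤ Nb := mul_le_of_le_one_left (Nat.cast_nonneg _) (by linarith [R.s_le])
  exact_mod_cast R.N2_le.trans h

theorem exists_zero : ∃ i, R.φ i = 0 := by
  have hn : (0 : ℝ) < R.n := by exact_mod_cast R.n_pos
  have h : 0 < {i | R.φ i = 0}.ncard := by
    exact_mod_cast (mul_pos R.p₀_pos hn).trans_le R.p₀_le
  exact Set.nonempty_of_ncard_ne_zero h.ne'

/-- `r1` with `![i, z, z, z]` and `![j, z, z, z]`. -/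
theorem dich_two (i j : Fin R.n) : ‖R.φ i - R.φ j‖ * Nb * (2 ^ g) ^ 2 ≤ 1 ∨
    (2 ^ g) ^ 3 ≤ ‖R.φ i - R.φ j‖ * Na := by
  obtain ⟨z, hz⟩ := R.exists_zero
  simpa [Fin.sum_univ_four, hz] using R.r1 ![i, z, z, z] ![j, z, z, z]

theorem dich_one (i : Fin R.n) :
    ‖R.φ i‖ * Nb * (2 ^ g) ^ 2 ≤ 1 ∨ (2 ^ g) ^ 3 ≤ ‖R.φ i‖ * Na := by
  obtain ⟨z, hz⟩ := R.exists_zero
  simpa [hz] using R.dich_two i z

/-- `norm_mu_Icc`: the norm is at most `Na / (2 N1 G ^ 3) ≤ 1 / (s G ^ 3)`, and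
`1 / (G s) ≤ sg / 100`, `1 / G ≤ s / 100`. -/
theorem mu_big {H : ℕ} (hH : R.N1 ≤ H) {ψ : T} (h : (2 ^ g) ^ 3 ≤ ‖ψ‖ * Na) :
    ‖mu (Icc (1 : ℤ) H) ψ‖ ≤ s * R.sg / 10000 := by
  have h1 := norm_mu_Icc H ψ
  have hs := R.s_pos
  have hσ := R.sg_pos
  have hm := norm_nonneg (mu (Icc (1 : ℤ) H) ψ)
  have h2 : s * Na ≤ 2 * H := R.le_N1.trans (by
    have : (R.N1 : ℝ) ≤ H := Nat.cast_le.2 hH
    linarith)
  have h3 : s * (2 ^ g) ^ 3 ≤ 2 * H * ‖ψ‖ := by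
    have h4 := mul_le_mul_of_nonneg_left h hs.le
    have h5 := mul_le_mul_of_nonneg_right h2 (norm_nonneg ψ)
    linarith
  have h4 : s * (2 ^ g) ^ 3 * ‖mu (Icc (1 : ℤ) H) ψ‖ ≤ 1 := by
    have h5 := mul_le_mul_of_nonneg_right h3 hm
    linarith
  have h5 : 100 * 100 * 1 ≤ 2 ^ g * s * R.sg * (2 ^ g * s) * 2 ^ g := by
    gcongr
    · exact R.gap_sg
    · exact R.gap_s
    · exact rka_one_le g
  have h6 := mul_le_mul_of_nonneg_right h5 hm
  have h7 := mul_le_mul_of_nonneg_left h4 (mul_pos hs hσ).le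
  rw [le_div_iff₀ (by norm_num)]
  linarith

theorem χ_le_one (w : ℤ) : R.χ w ≤ 1 := by
  have h : ‖(R.χ w : ℂ)‖ ≤ 1 := by
    rw [R.χ_eq]
    exact norm_expect_le' _ _ zero_le_one fun i _ => (norm_e _).le
  rw [Complex.norm_real] at h
  exact (le_abs_self _).trans h

/-- An average splits into the part near `c` and a small part. -/
theorem expect_split (f : Fin R.n → ℂ) (P : Fin R.n → Prop) (c : ℂ) {a b : ℝ} (hb : 0 ≤ b)
    (h₁ : ∀ i, P i → ‖f i - c‖ ≤ a) (h₂ : ∀ i, ¬ P i → ‖f i‖ ≤ b) :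
    ‖(𝔼 i, f i) - ((({i | P i}.ncard : ℝ) / R.n : ℝ) : ℂ) * c‖ ≤
      ({i | P i}.ncard : ℝ) / R.n * a + b := by
  classical
  have : Nonempty (Fin R.n) := ⟨⟨0, R.n_pos⟩⟩
  have hc : {i | P i}.ncard = (univ.filter P).card := by
    rw [← Set.ncard_coe_finset]
    congr 1
    ext i
    simp
  have e1 : ((({i | P i}.ncard : ℝ) / R.n : ℝ) : ℂ) * c = 𝔼 i, if P i then c else 0 := by
    rw [hc, expect_eq_sum_div_card, ← sum_filter, sum_const, nsmul_eq_mul, card_univ,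
      Fintype.card_fin]
    push_cast
    ring
  have e2 : ({i | P i}.ncard : ℝ) / R.n * a + b = 𝔼 i, ((if P i then a else 0) + b) := by
    rw [hc, expect_add_distrib, expect_const univ_nonempty, expect_eq_sum_div_card, ← sum_filter,
      sum_const, nsmul_eq_mul, card_univ, Fintype.card_fin]
    ring
  rw [e1, e2, ← expect_sub_distrib]
  refine (norm_expect_le_expect _ _).trans (expect_le_expect fun i _ => ?_)
  split_ifs with h
  · linarith [h₁ i h]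
  · simpa using h₂ i h

end Rng

end Pool.Agent.TR
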