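import Pool.Agent.Lib.MP_cc859a_an.TR.RKa

open Finset Real
open scoped BigOperators ComplexConjugate

namespace Pool.Agent.TR

namespace Rng

variable {D : Data} {k : ℕ} {s : ℝ} {g Na Nb : ℕ} (R : Rng D k s g Na Nb)

theorem W_nonneg (N : ℕ) (w : ℤ) : 0 ≤ R.W N w := by
  exact div_nonneg (R.χ_nonneg w) (mul_nonneg R.sg_pos.le (Nat.cast_nonneg N))

theorem rkb_card (N : ℕ) : (Icc (1 : ℤ) N).card = N := by simp

include R in
theorem rkb_a : 7 * (1 / ((2 : ℝ) ^ g) ^ 2) ≤ s / 2 := by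
  have h1 := R.gap_s
  have h2 := R.s_le
  have h3 := R.s_pos
  have h4 : (0 : ℝ) < 2 ^ g := by positivity
  generalize (2 : ℝ) ^ g = G at h1 h4 ⊢
  have h5 : 1 ≤ G := by nlinarith
  rw [mul_one_div, div_le_iff₀ (by positivity)]
  nlinarith

theorem rkb_tiny {i : Fin R.n} (h : ‖R.φ i‖ * Nb * (2 ^ g) ^ 2 ≤ 1) {v : ℤ} (h₁ : 0 ≤ v)
    (h₂ : v ≤ Nb) : ‖v • R.φ i‖ ≤ 1 / ((2 : ℝ) ^ g) ^ 2 := by
  refine (norm_zsmul_le' v _).trans ?_
  have : |(v : ℝ)| ≤ Nb := by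
    rw [abs_of_nonneg (by exact_mod_cast h₁)]
    exact_mod_cast h₂
  rw [le_div_iff₀ (by positivity), mul_comm |(v : ℝ)|]
  refine le_trans ?_ h
  gcongr

theorem rkb_split (f : Fin R.n → ℂ) (c : ℂ) {a : ℝ}
    (h₁ : ∀ i, ‖R.φ i‖ * Nb * (2 ^ g) ^ 2 ≤ 1 → ‖f i - c‖ ≤ a)
    (h₂ : ∀ i, (2 ^ g) ^ 3 ≤ ‖R.φ i‖ * Na → ‖f i‖ ≤ s * R.sg / 10000) :
    ‖(𝔼 i, f i) - (R.sg : ℂ) * c‖ ≤ R.sg * a + s * R.sg / 10000 :=
  R.expect_split f _ c (by have := R.s_pos; have := R.sg_pos; positivity) h₁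
    fun i hi => h₂ i ((R.dich_one i).resolve_left hi)

theorem rkb_sum {H : ℕ} (hH : H ≠ 0) (c : ℤ) : ((∑ h ∈ Icc (1 : ℤ) H, R.χ (c - h) : ℝ) : ℂ) =
    (𝔼 i, 𝔼 h ∈ Icc (1 : ℤ) H, e ((c - h) • R.φ i)) * H := by
  have h2 : (H : ℂ) ≠ 0 := Nat.cast_ne_zero.2 hH
  rw [expect_comm, expect_eq_sum_div_card, rkb_card, div_mul_cancel₀ _ h2, Complex.ofReal_sum]
  exact sum_congr rfl fun h _ => R.χ_eq _

theorem rkb_norm (V : Finset ℤ) (c : ℤ) (ψ : T) : ‖𝔼 h ∈ V, e ((c - h) • ψ)‖ = ‖mu V ψ‖ := by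
  simp only [sub_eq_add_neg, add_smul, e_add, neg_smul, ← smul_neg]
  rw [← mul_expect, norm_mul, norm_e, one_mul]
  change ‖mu V (-ψ)‖ = _
  rw [mu_neg, Complex.norm_conj]

/-- `χ_eq`, `e_add`, exchange the sum and the average. -/
theorem Wh_eq {N : ℕ} (hN : N ≠ 0) (ξ : T) :
    R.Wh N ξ = ((R.sg : ℂ))⁻¹ * 𝔼 i, mu (Icc (1 : ℤ) N) (ξ + R.φ i) := by
  have h1 : (R.sg : ℂ) ≠ 0 := Complex.ofReal_ne_zero.2 R.sg_pos.ne'
  have h2 : (N : ℂ) ≠ 0 := Nat.cast_ne_zero.2 hN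
  unfold Wh W mu
  rw [expect_comm, expect_eq_sum_div_card, rkb_card, sum_div, mul_sum]
  refine sum_congr rfl fun w _ => ?_
  simp only [smul_add, e_add]
  rw [← mul_expect, ← R.χ_eq]
  push_cast
  field_simp

/-- The mass is `Wh N 0`. `expect_split` with `c = 1`, `P` = tiny, `a = 7 / G ^ 2`
(`norm_mu_sub_one`), `b = s sg / 10000` (`dich_one`, `mu_big`). -/
theorem mass {N : ℕ} (h₁ : R.N1 ≤ N) (h₂ : N ≤ Nb) :
    |∑ w ∈ Icc (1 : ℤ) N, R.W N w - 1| ≤ s := by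
  have hN : N ≠ 0 := (R.N1_pos.trans_le h₁).ne'
  have hs := R.sg_pos
  have h1 : (R.sg : ℂ) ≠ 0 := Complex.ofReal_ne_zero.2 hs.ne'
  have e1 : ((∑ w ∈ Icc (1 : ℤ) N, R.W N w - 1 : ℝ) : ℂ) = R.Wh N 0 - 1 := by
    simp only [Wh, smul_zero, e_zero, mul_one]
    push_cast
    rfl
  have key := R.rkb_split (fun i => mu (Icc (1 : ℤ) N) (R.φ i)) 1
    (fun i hi => norm_mu_sub_one (nonempty_Icc.2 (by omega)) fun v hv =>
      R.rkb_tiny hi (by linarith [(mem_Icc.1 hv).1]) ((mem_Icc.1 hv).2.trans (by exact_mod_cast h₂)))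
    fun i hi => R.mu_big h₁ hi
  rw [← Real.norm_eq_abs, ← Complex.norm_real, e1, R.Wh_eq hN]
  simp only [zero_add]
  rw [← inv_mul_cancel₀ h1, ← mul_sub, norm_mul, norm_inv, Complex.norm_real, Real.norm_eq_abs,
    abs_of_pos hs, inv_mul_le_iff₀ hs]
  rw [mul_one] at key
  have := mul_le_mul_of_nonneg_left R.rkb_a hs.le
  have := mul_pos R.s_pos hs
  linarith

open Classical in
theorem mass_off (N : ℕ) : ∑ w ∈ (Icc (1 : ℤ) N).filter (· ∉ R.U), R.W N w ≤ s := by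
  rcases Nat.eq_zero_or_pos N with rfl | hN
  · simpa using R.s_pos.le
  have hN' : (0 : ℝ) < N := by exact_mod_cast hN
  have hs := R.s_pos
  have hg := R.sg_pos
  refine (sum_le_card_nsmul _ _ (s / N) fun w hw => ?_).trans ?_
  · rw [W, div_le_div_iff₀ (by positivity) hN', ← mul_assoc]
    exact mul_le_mul_of_nonneg_right ((R.χ_off w (mem_filter.1 hw).2).trans
      (mul_le_mul_of_nonneg_left R.p₀_le_sg hs.le)) hN'.le
  · have h : (((Icc (1 : ℤ) N).filter (· ∉ R.U)).card : ℝ) ≤ N := by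
      exact_mod_cast (card_filter_le _ _).trans (rkb_card N).le
    rw [nsmul_eq_mul]
    refine (mul_le_mul_of_nonneg_right h (by positivity)).trans_eq ?_
    field_simp

theorem norm_Wh_le {N : ℕ} (h₁ : R.N1 ≤ N) (h₂ : N ≤ Nb) (ξ : T) : ‖R.Wh N ξ‖ ≤ 2 := by
  refine (norm_sum_le _ _).trans ?_
  simp only [norm_mul, norm_e, mul_one, Complex.norm_real, Real.norm_eq_abs,
    abs_of_nonneg (R.W_nonneg _ _)]
  linarith [(abs_le.1 (R.mass h₁ h₂)).2, R.s_le]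

/-- On `U` each term moves by `7 s W`, off `U` by `2 W`. -/
theorem Wh_pert {N : ℕ} (h₁ : R.N1 ≤ N) (h₂ : N ≤ Nb) (ξ : T) {θ : T}
    (h : ∀ w ∈ R.U, |w| ≤ Nb → ‖w • θ‖ ≤ s) : ‖R.Wh N (ξ + θ) - R.Wh N ξ‖ ≤ 16 * s := by
  classical
  have hs := R.s_pos
  have key : ∀ w ∈ Icc (1 : ℤ) N, ‖(R.W N w : ℂ) * e (w • (ξ + θ)) - (R.W N w : ℂ) * e (w • ξ)‖ ≤
      7 * s * R.W N w + 2 * if w ∉ R.U then R.W N w else 0 := by
    intro w hw
    have h0 := R.W_nonneg N w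
    rw [← mul_sub, norm_mul, Complex.norm_real, Real.norm_eq_abs, abs_of_nonneg h0]
    by_cases hU : w ∈ R.U
    · have h1 := norm_e_sub_e (w • (ξ + θ)) (w • ξ)
      have h2 := h w hU (by
        have := mem_Icc.1 hw
        rw [abs_of_nonneg (by omega)]
        omega)
      rw [smul_add, add_sub_cancel_left, ← smul_add] at h1
      rw [if_neg (not_not.2 hU)]
      nlinarith
    · have h1 := norm_sub_le (e (w • (ξ + θ))) (e (w • ξ))
      rw [norm_e, norm_e] at h1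
      rw [if_pos hU]
      nlinarith [mul_nonneg hs.le h0]
  rw [Wh, Wh, ← sum_sub_distrib]
  refine ((norm_sum_le _ _).trans (sum_le_sum key)).trans ?_
  rw [sum_add_distrib, ← mul_sum, ← mul_sum, ← sum_filter]
  have h3 := R.mass_off N
  have h4 := (abs_le.1 (R.mass h₁ h₂)).2
  have h5 := R.s_le
  nlinarith

/-- The average of `χ (c - h)` is `𝔼 i, e (c • φ i) * mu (Icc 1 H) (-φ i)`; `expect_split` with
`c = 0`, `a = 1`. -/
theorem equi_two {H : ℕ} (hH : R.N1 ≤ H) (c : ℤ) :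
    ∑ h ∈ Icc (1 : ℤ) H, R.χ (c - h) ≤ 2 * R.sg * H := by
  have hN : H ≠ 0 := (R.N1_pos.trans_le hH).ne'
  have hs := R.sg_pos
  have key := R.rkb_split (fun i => 𝔼 h ∈ Icc (1 : ℤ) H, e ((c - h) • R.φ i)) 0 (a := 1)
    (fun i _ => by rw [sub_zero, rkb_norm]; exact norm_mu_le _ _)
    fun i hi => by rw [rkb_norm]; exact R.mu_big hH hi
  refine (le_abs_self _).trans ?_
  rw [← Real.norm_eq_abs, ← Complex.norm_real, R.rkb_sum hN, norm_mul, Complex.norm_natCast]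
  rw [mul_zero, sub_zero] at key
  refine mul_le_mul_of_nonneg_right (key.trans ?_) (Nat.cast_nonneg _)
  nlinarith [R.s_le]

/-- `χ ≥ 0` and `h ↦ m h` is an injection of `Icc 1 H` in `Icc 1 (3 H)`. -/
theorem equi_three {H : ℕ} (hH : R.N1 ≤ H) (c : ℤ) {m : ℤ} (h₁ : 1 ≤ m) (h₃ : m ≤ 3) :
    ∑ h ∈ Icc (1 : ℤ) H, R.χ (c - m * h) ≤ 6 * R.sg * H := by
  have h := R.equi_two (H := 3 * H) (by omega) c
  rw [← sum_image (g := fun h => m * h) (f := fun h => R.χ (c - h))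
    fun a _ b _ hab => mul_left_cancel₀ (by omega) hab]
  refine (sum_le_sum_of_subset_of_nonneg (fun x hx => ?_) fun _ _ _ => R.χ_nonneg _).trans
    (h.trans_eq (by push_cast; ring))
  obtain ⟨a, ha, rfl⟩ := mem_image.1 hx
  obtain ⟨h1, h2⟩ := mem_Icc.1 ha
  rw [mem_Icc]
  push_cast
  constructor <;> nlinarith

/-- `expect_split` with `c = 1` for `f i = 𝔼 n, e ((z - n) • φ i)`; `0 < z - n ≤ Nb`. -/
theorem equi_loc {z : ℤ} (h₁ : (R.N1 : ℤ) < z) (h₂ : z ≤ Nb) :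
    |∑ n ∈ Icc (1 : ℤ) R.N1, R.χ (z - n) - R.sg * R.N1| ≤ s * (R.sg * R.N1) := by
  have hN : R.N1 ≠ 0 := R.N1_pos.ne'
  have hs := R.sg_pos
  have hne : (Icc (1 : ℤ) R.N1).Nonempty := nonempty_Icc.2 (by omega)
  have key := R.rkb_split (fun i => 𝔼 h ∈ Icc (1 : ℤ) R.N1, e ((z - h) • R.φ i)) 1
    (a := 7 * (1 / ((2 : ℝ) ^ g) ^ 2)) (fun i hi => by
      rw [← expect_const hne (1 : ℂ), ← expect_sub_distrib]
      refine norm_expect_le' _ _ (by positivity) fun v hv => (norm_e_sub_one_le _).trans ?_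
      have := mem_Icc.1 hv
      exact mul_le_mul_of_nonneg_left (R.rkb_tiny hi (by omega) (by omega)) (by norm_num))
    fun i hi => by rw [rkb_norm]; exact R.mu_big le_rfl hi
  rw [← Real.norm_eq_abs, ← Complex.norm_real, Complex.ofReal_sub, R.rkb_sum hN,
    Complex.ofReal_mul, Complex.ofReal_natCast, ← sub_mul, norm_mul, Complex.norm_natCast,
    ← mul_assoc]
  rw [mul_one] at key
  refine mul_le_mul_of_nonneg_right (key.trans ?_) (Nat.cast_nonneg _)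
  have := mul_le_mul_of_nonneg_left R.rkb_a hs.le
  have := mul_pos R.s_pos hs
  linarith

theorem wt_nonneg (P : ℤ → Prop) : 0 ≤ R.wt P := by
  exact sum_nonneg fun _ _ => R.W_nonneg _ _

theorem wt_mono {P Q : ℤ → Prop} (h : ∀ v ∈ Icc (1 : ℤ) R.N2, P v → Q v) : R.wt P ≤ R.wt Q := by
  classical
  refine sum_le_sum_of_subset_of_nonneg (fun v hv => ?_) fun _ _ _ => R.W_nonneg _ _
  rw [mem_filter] at hv ⊢
  exact ⟨hv.1, h v hv.1 hv.2⟩

theorem wt_le (P : ℤ → Prop) : R.wt P ≤ 1 + s := by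
  classical
  refine (sum_le_sum_of_subset_of_nonneg (filter_subset _ _) fun _ _ _ => R.W_nonneg _ _).trans ?_
  linarith [(abs_le.1 (R.mass R.N1_le_N2 R.N2_le_Nb)).2]

theorem le_wt_U : 1 - 2 * s ≤ R.wt (· ∈ R.U) := by
  classical
  have h1 := (abs_le.1 (R.mass R.N1_le_N2 R.N2_le_Nb)).1
  have h2 := R.mass_off R.N2
  rw [← sum_filter_add_sum_filter_not _ (· ∈ R.U)] at h1
  unfold wt
  linarith

/-- Subadditivity. -/
theorem wt_exists_le {α : Type} (S : Finset α) (P : α → ℤ → Prop) :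
    R.wt (fun v => ∃ a ∈ S, P a v) ≤ ∑ a ∈ S, R.wt (P a) := by
  classical
  unfold wt
  simp only [sum_filter]
  rw [sum_comm]
  refine sum_le_sum fun v _ => ?_
  have h0 : ∀ a ∈ S, 0 ≤ if P a v then R.W R.N2 v else 0 := fun a _ => by
    split_ifs
    exacts [R.W_nonneg _ _, le_rfl]
  split_ifs with h
  · obtain ⟨a, ha, h⟩ := h
    exact le_trans (if_pos h).ge (single_le_sum h0 ha)
  · exact sum_nonneg h0

theorem wt_or_le (P Q : ℤ → Prop) : R.wt (fun v => P v ∨ Q v) ≤ R.wt P + R.wt Q := by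
  classical
  unfold wt
  simp only [sum_filter]
  rw [← sum_add_distrib]
  refine sum_le_sum fun v _ => ?_
  have := R.W_nonneg R.N2 v
  by_cases h1 : P v <;> by_cases h2 : Q v <;> simp [h1, h2, this]

end Rng

end Pool.Agent.TR
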