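import Pool.Agent.Lib.MP_cc859a_an.TR.RKa
import Pool.Agent.Lib.MP_cc859a_an.TR.RTrip

open Finset Real
open scoped BigOperators ComplexConjugate

namespace Pool.Agent.TR

namespace Rng

variable {D : Data} {k : ℕ} {s : ℝ} {g Na Nb : ℕ} (R : Rng D k s g Na Nb) {τ : Fin 3 → Atom}

theorem norm_Pt (h : Adm D k s τ) (x n : ℤ) : ‖R.Pt τ x n‖ ≤ 1 := by
  unfold Pt
  split_ifs
  · exact h.norm_Pr x n
  · simp

theorem norm_Pr_sub_Pt (h : Adm D k s τ) (x n : ℤ) : ‖Pr τ x n - R.Pt τ x n‖ ≤ 1 := by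
  unfold Pt
  split_ifs
  · simp
  · simpa using h.norm_Pr x n

/-- With `F = Pr - Pt`, `l = bb τ x z`. If `l` is trivial all terms vanish (`bb_shift`, `Sm_add`).
Otherwise `F (z + (u + u')) = Pr z * e ((u + u') • Xi + (u + u') • l (u + u'))` up to `3 s`
(`Pr_shift`), and by `Loc.quad` (`Adm.loc`) up to `7 s` more the phase is
`e (u • Xi + u • l u) * e (u' • Xi + u' • l u') * e (u • 2 • l u')`; `bias_b1`, `r3`. -/
theorem rep_loc (h : Adm D k s τ) {x z : ℤ} (hg : Good D x z) :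
    ‖𝔼 u ∈ R.V, 𝔼 u' ∈ R.V, (Pr τ x (z + (u + u')) - R.Pt τ x (z + (u + u')))‖ ≤ 11 * s := by
  have hs := R.s_pos
  have hw : ∀ u ∈ R.V, ∀ u' ∈ R.V, u + u' ∈ Bohr D.Θ (D.δ / 5) (D.N / 5) := fun u hu u' hu' =>
    Sm_add h.ok (R.V_sm u hu).1 (R.V_sm u' hu').1
  by_cases ht : R.Triv (bb τ x z)
  · refine norm_expect_le' _ _ (by positivity) fun u hu =>
      norm_expect_le' _ _ (by positivity) fun u' hu' => ?_
    rw [Pt, h.bb_shift hg (hw u hu u' hu'), if_pos ht, sub_self, norm_zero]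
    positivity
  have h1 := (bias_b1 R.V (bb τ x z) (fun u => Pr τ x z * e (u • Xi τ x z + u • bb τ x z u))
    (fun u => e (u • Xi τ x z + u • bb τ x z u))
    (fun u => by rw [norm_mul, norm_e, mul_one]; exact h.norm_Pr x z)
    fun u => (norm_e _).le).trans ((R.r3 _ (h.bb_mem x z)).resolve_left ht)
  refine (norm_le_norm_add_norm_sub' _ _).trans ((add_le_add
    (le_of_pow_le_pow_left₀ four_ne_zero hs.le h1) (?_ : _ ≤ 10 * s)).trans_eq (by ring))
  rw [← expect_sub_distrib]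
  refine norm_expect_le' _ _ (by positivity) fun u hu => ?_
  rw [← expect_sub_distrib]
  refine norm_expect_le' _ _ (by positivity) fun u' hu' => ?_
  have h2 := (h.loc (h.bb_mem x z)).quad (Sm_subset h.ok (R.V_sm u' hu').1)
    (Sm_subset h.ok (R.V_sm u hu).1)
  rw [Pt, h.bb_shift hg (hw u hu u' hu'), if_neg ht, sub_zero, mul_assoc, mul_assoc, ← e_add,
    ← e_add]
  refine (norm_sub_le_norm_sub_add_norm_sub _ _ _).trans ((add_le_add
    (h.Pr_shift hg (hw u hu u' hu')) (?_ : _ ≤ 7 * s)).trans_eq (by ring))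
  rw [← mul_sub, norm_mul]
  refine (mul_le_of_le_one_left (norm_nonneg _) (h.norm_Pr x z)).trans ((norm_e_sub_e _ _).trans
    (mul_le_mul_of_nonneg_left (le_of_eq_of_le (congrArg _ ?_) h2) (by norm_num)))
  rw [add_comm u' u]
  module

/-- Shift `z` by `u + u'` (`expect_Icc_shift`: `2 |u + u'| / N ≤ 4 / (100 G) ≤ s`, `gap_s`), average
over `u, u' ∈ V`, exchange the averages; `norm_expect_exc` with `badN`, `card_badN`, `rep_loc`. -/
theorem rep_non (h : Adm D k s τ) {x : ℤ} (hx : NZ D.Bad s x) {N : ℕ} (hN : Na ≤ N) :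
    ‖𝔼 z ∈ Icc (1 : ℤ) N, (Pr τ x z - R.Pt τ x z)‖ ≤ 13 * s := by
  have hs := R.s_pos
  have hG : (1 : ℝ) ≤ 2 ^ g := one_le_pow₀ one_le_two
  have hN' : (Na : ℝ) ≤ N := Nat.cast_le.2 hN
  have hN0 : (0 : ℝ) < N := one_pos.trans_le ((one_le_pow₀ hG).trans (R.big.trans hN'))
  have h1 : ‖𝔼 u ∈ R.V, 𝔼 u' ∈ R.V, 𝔼 z ∈ Icc (1 : ℤ) N,
      (Pr τ x (z + (u + u')) - R.Pt τ x (z + (u + u')))‖ ≤ 11 * s + 1 * s := by
    simp only [expect_comm R.V (Icc (1 : ℤ) N)]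
    exact norm_expect_exc (E := badN D x N) _ (by positivity) one_pos.le hs.le
      (by simpa using card_badN hx N)
      (fun z hz hb => R.rep_loc h (not_not.1 fun hg => hb (mem_badN.2 ⟨hz, hg⟩)))
      fun z _ => norm_expect_le' _ _ one_pos.le fun u _ => norm_expect_le' _ _ one_pos.le
        fun u' _ => R.norm_Pr_sub_Pt h x _
  refine (norm_le_norm_add_norm_sub _ _).trans ((add_le_add h1 (?_ : _ ≤ s)).trans_eq (by ring))
  rw [← expect_const R.V_ne (𝔼 z ∈ Icc (1 : ℤ) N, (Pr τ x z - R.Pt τ x z)), ← expect_sub_distrib]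
  refine norm_expect_le' _ _ hs.le fun u hu => ?_
  rw [← expect_const R.V_ne (𝔼 z ∈ Icc (1 : ℤ) N, (Pr τ x z - R.Pt τ x z)), ← expect_sub_distrib]
  refine norm_expect_le' _ _ hs.le fun u' hu' => le_of_mul_le_mul_left
    ((expect_Icc_shift N _ (R.norm_Pr_sub_Pt h x) (u + u')).trans ?_) hN0
  have h2 := (R.V_sm u hu).2.1
  have h3 := (R.V_sm u' hu').2.1
  have h4 := abs_add_le (u : ℝ) u'
  have h5 := mul_le_mul_of_nonneg_right R.gap_s (add_nonneg (abs_nonneg (u : ℝ))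
    (abs_nonneg (u' : ℝ)))
  push_cast
  nlinarith [mul_le_mul_of_nonneg_left (add_le_add (h2.trans hN') (h3.trans hN')) hs.le,
    abs_nonneg (u : ℝ), abs_nonneg (u' : ℝ), mul_pos hN0 hs]

end Rng

end Pool.Agent.TR
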