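import Pool.Agent.Lib.MP_cc859a_an.TR.RRepA
import Pool.Agent.Lib.MP_cc859a_an.TR.REqui

open Finset Real
open scoped BigOperators ComplexConjugate

namespace Pool.Agent.TR

namespace Rng

variable {D : Data} {k : ℕ} {s : ℝ} {g Na Nb : ℕ} (R : Rng D k s g Na Nb) {τ : Fin 3 → Atom}

theorem rrepb_on (h : Adm D k s τ) {x n : ℤ} (hg : Good D x n) {w : ℤ} (hw : w ∈ R.U)
    (hw' : |w| ≤ Nb) : ‖R.Pt τ x (n + w) - R.Pt τ x n * e (w • Xi τ x n)‖ ≤ 10 * s := by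
  have h1 := Sm_subset_five h.ok (R.r2 w hw hw')
  have hs := R.s_pos
  unfold Pt
  rw [h.bb_shift hg h1]
  split_ifs with ht
  · have h2 := h.Pr_shift hg h1
    have h3 := (R.triv _ ht w hw w hw hw' hw').2
    have h4 := norm_e_sub_e (w • Xi τ x n + w • bb τ x n w) (w • Xi τ x n)
    rw [add_sub_cancel_left] at h4
    have h5 : ‖Pr τ x n * e (w • Xi τ x n + w • bb τ x n w) - Pr τ x n * e (w • Xi τ x n)‖ ≤
        7 * s := by
      rw [← mul_sub, norm_mul]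
      exact (mul_le_of_le_one_left (norm_nonneg _) (h.norm_Pr x n)).trans (by linarith)
    exact (norm_sub_le_norm_sub_add_norm_sub _ _ _).trans ((add_le_add h2 h5).trans (by linarith))
  · rw [zero_mul, sub_zero, norm_zero]
    linarith

theorem rrepb_sum {N : ℕ} (f : ℤ → ℂ) (c : ℤ → ℝ) (hf : ∀ w ∈ Icc (1 : ℤ) N, ‖f w‖ ≤ c w) :
    ‖∑ w ∈ Icc (1 : ℤ) N, (R.W N w : ℂ) * f w‖ ≤ ∑ w ∈ Icc (1 : ℤ) N, R.W N w * c w := by
  refine norm_sum_le_of_le _ fun w hw => ?_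
  rw [norm_mul, Complex.norm_real, Real.norm_of_nonneg (R.W_nonneg N w)]
  exact mul_le_mul_of_nonneg_left (hf w hw) (R.W_nonneg N w)

/-- For `w ∈ U`: `r2`, `bb_shift`, `Pr_shift`, `triv` give
`‖Pt (n + w) - Pt n * e (w • Xi)‖ ≤ 10 s`; off `U` the bound is `2`. `mass`, `mass_off`. -/
theorem rep_pt (h : Adm D k s τ) {x n : ℤ} (hg : Good D x n) {N : ℕ} (h₁ : Na ≤ N) (h₂ : N ≤ Nb) :
    ‖∑ w ∈ Icc (1 : ℤ) N, (R.W N w : ℂ) * R.Pt τ x (n + w) -
      R.Pt τ x n * R.Wh N (Xi τ x n)‖ ≤ 22 * s := by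
  classical
  have hs := R.s_pos
  have hs' := R.s_le
  have h1 := (abs_le.1 (R.mass (R.N1_le_Na.trans h₁) h₂)).2
  have h2 := R.mass_off N
  rw [Wh, mul_sum, ← sum_sub_distrib]
  simp only [mul_left_comm (R.Pt τ x n), ← mul_sub]
  refine (R.rrepb_sum _ (fun w => 10 * s + if w ∉ R.U then 2 else 0) fun w hw => ?_).trans ?_
  · split_ifs with hU
    · rw [add_zero]
      rw [mem_Icc] at hw
      exact R.rrepb_on h hg hU (abs_le.2 ⟨by omega, by omega⟩)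
    · refine (norm_sub_le _ _).trans ?_
      rw [norm_mul, norm_e, mul_one]
      linarith [R.norm_Pt h x (n + w), R.norm_Pt h x n]
  · simp only [mul_add, sum_add_distrib, mul_ite, mul_zero]
    rw [← sum_filter, ← sum_mul, ← sum_mul]
    nlinarith

/-- `equi` for `F = Pt τ x`; `norm_expect_exc` with `a = 22 s`, `b = 4`, `c = s`. -/
theorem rep_triv (h : Adm D k s τ) {x : ℤ} (hx : NZ D.Bad s x) {N : ℕ} (h₁ : Na ≤ N)
    (h₂ : N ≤ Nb) : ‖(𝔼 z ∈ Icc (1 : ℤ) N, R.Pt τ x z) -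
      𝔼 n ∈ Icc (1 : ℤ) R.N1, R.Pt τ x n * R.Wh N (Xi τ x n)‖ ≤ 31 * s := by
  have hs := R.s_pos
  have hs' := R.s_le
  have h1 := R.equi h₁ h₂ (R.Pt τ x) (R.norm_Pt h x)
  have h2 := (abs_le.1 (R.mass (R.N1_le_Na.trans h₁) h₂)).2
  have h3 := norm_expect_exc (S := Icc (1 : ℤ) R.N1) (E := badN D x R.N1)
    (fun n => ∑ w ∈ Icc (1 : ℤ) N, (R.W N w : ℂ) * R.Pt τ x (n + w) -
      R.Pt τ x n * R.Wh N (Xi τ x n)) (a := 22 * s) (b := 4) (c := s) (by linarith) (by norm_num)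
    hs.le (by simpa using card_badN hx R.N1)
    (fun n hn hb => R.rep_pt h (by_contra fun t => hb (mem_badN.2 ⟨hn, t⟩)) h₁ h₂) fun n _ => by
      have h4 := R.rrepb_sum (N := N) (fun w => R.Pt τ x (n + w)) (fun _ => 1)
        fun w _ => R.norm_Pt h x _
      have h5 := mul_le_mul (R.norm_Pt h x n)
        (R.norm_Wh_le (R.N1_le_Na.trans h₁) h₂ (Xi τ x n)) (norm_nonneg _) zero_le_one
      simp only [mul_one] at h4
      refine (norm_sub_le _ _).trans ?_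
      rw [norm_mul]
      linarith
  rw [expect_sub_distrib] at h3
  rw [norm_sub_rev] at h1
  exact (norm_sub_le_norm_sub_add_norm_sub _ _ _).trans ((add_le_add h1 h3).trans (by linarith))

/-- Paper: Rep. -/
theorem rep (h : Adm D k s τ) {x : ℤ} (hx : NZ D.Bad s x) {N : ℕ} (h₁ : Na ≤ N) (h₂ : N ≤ Nb) :
    ‖At N τ x - 𝔼 n ∈ Icc (1 : ℤ) R.N1, R.Pt τ x n * R.Wh N (Xi τ x n)‖ ≤ 44 * s := by
  have h1 := R.rep_non h hx h₁
  have h2 := R.rep_triv h hx h₁ h₂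
  rw [expect_sub_distrib] at h1
  rw [At_eq]
  exact (norm_sub_le_norm_sub_add_norm_sub _ _ _).trans ((add_le_add h1 h2).trans (by linarith))

end Rng

end Pool.Agent.TR
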