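import Pool.Agent.Lib.MP_cc859a_an.TR.RCubeB
import Pool.Agent.Lib.MP_cc859a_an.TR.RKb

open Finset Real
open scoped BigOperators ComplexConjugate

namespace Pool.Agent.TR

namespace Rng

variable {D : Data} {k : ℕ} {s : ℝ} {g Na Nb : ℕ} (R : Rng D k s g Na Nb)

theorem rrnga_one (B : Finset ℤ) (c : ℤ) :
    R.wt (fun v => c + v ∈ B) ≤ ∑ y ∈ B, R.W R.N2 (y - c) := by
  classical
  unfold wt
  have h1 : ∀ S : Finset ℤ, (∀ v ∈ S, c + v ∈ B) →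
      ∑ v ∈ S, R.W R.N2 v ≤ ∑ y ∈ B, R.W R.N2 (y - c) := by
    intro S hS
    have h2 : ∑ y ∈ S.image (fun v => c + v), R.W R.N2 (y - c) = ∑ v ∈ S, R.W R.N2 v := by
      rw [sum_image fun a _ b _ h => add_left_cancel h]
      exact sum_congr rfl fun v _ => by rw [add_sub_cancel_left]
    rw [← h2]
    refine sum_le_sum_of_subset_of_nonneg (fun y hy => ?_) fun y _ _ => R.W_nonneg _ _
    obtain ⟨v, hv, rfl⟩ := mem_image.1 hy
    exact hS v hv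
  refine h1 _ fun v hv => ?_
  simp only [mem_filter] at hv
  exact hv.2

theorem rrnga_N2 : (0 : ℝ) < R.N2 := by
  exact_mod_cast R.N1_pos.trans_le R.N1_le_N2

/-- Exchange the sums: for each `y ∈ B` at most one `v` has `x₁ + i h + v = y`, so the left side is
at most `∑ y ∈ B, ∑ h, χ (y - x₁ - i h) / (sg N2) ≤ card B * 6 N1 / N2` (`equi_three`); `le_N2`. -/
theorem sum_wt_le (B : Finset ℤ) (x₁ : ℤ) {i : ℤ} (h₁ : 1 ≤ i) (h₃ : i ≤ 3) :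
    s * Nb * ∑ h ∈ Icc (1 : ℤ) R.N1, R.wt (fun v => x₁ + i * h + v ∈ B) ≤ 12 * B.card * R.N1 := by
  have hN := R.rrnga_N2
  have hs := R.sg_pos
  have h1 : ∑ h ∈ Icc (1 : ℤ) R.N1, R.wt (fun v => x₁ + i * h + v ∈ B) ≤
      B.card * (6 * R.N1 / R.N2) := by
    refine (sum_le_sum fun h _ => R.rrnga_one B (x₁ + i * h)).trans ?_
    rw [sum_comm, ← nsmul_eq_mul]
    refine sum_le_card_nsmul _ _ _ fun y _ => ?_
    have h2 := R.equi_three le_rfl (y - x₁) h₁ h₃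
    have h3 : ∑ h ∈ Icc (1 : ℤ) R.N1, R.W R.N2 (y - (x₁ + i * h)) =
        (∑ h ∈ Icc (1 : ℤ) R.N1, R.χ (y - x₁ - i * h)) / (R.sg * R.N2) := by
      rw [sum_div]
      exact sum_congr rfl fun h _ => by rw [W, sub_add_eq_sub_sub]
    rw [h3, div_le_div_iff₀ (by positivity) hN]
    calc _ ≤ 6 * R.sg * R.N1 * R.N2 := mul_le_mul_of_nonneg_right h2 hN.le
      _ = _ := by ring
  have h0 : 0 ≤ ∑ h ∈ Icc (1 : ℤ) R.N1, R.wt (fun v => x₁ + i * h + v ∈ B) :=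
    sum_nonneg fun h _ => R.wt_nonneg _
  refine (mul_le_mul R.le_N2 h1 h0 (by positivity)).trans (le_of_eq ?_)
  field_simp
  ring

/-- Markov. -/
theorem card_wt_le (B : Finset ℤ) (x₁ : ℤ) {i : ℤ} (h₁ : 1 ≤ i) (h₃ : i ≤ 3) {θ β : ℝ}
    (hθ : 0 < θ) (hB : (B.card : ℝ) ≤ β * Nb) :
    (((Icc (1 : ℤ) R.N1).filter fun h => θ ≤ R.wt fun v => x₁ + i * h + v ∈ B).card : ℝ) ≤
      12 * β / (s * θ) * R.N1 := by
  have hN : (0 : ℝ) < Nb := R.rrnga_N2.trans_le (by exact_mod_cast R.N2_le_Nb)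
  have hs := R.s_pos
  have h1 : (((Icc (1 : ℤ) R.N1).filter fun h =>
      θ ≤ R.wt fun v => x₁ + i * h + v ∈ B).card : ℝ) * θ ≤
      ∑ h ∈ Icc (1 : ℤ) R.N1, R.wt (fun v => x₁ + i * h + v ∈ B) := by
    rw [← nsmul_eq_mul]
    refine (card_nsmul_le_sum _ _ _ fun h hh => (mem_filter.1 hh).2).trans ?_
    exact sum_le_sum_of_subset_of_nonneg (filter_subset _ _) fun h _ _ => R.wt_nonneg _
  have h2 := R.sum_wt_le B x₁ h₁ h₃
  have h3 := mul_le_mul_of_nonneg_left h1 (mul_pos hs hN).le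
  have h4 : 12 * (B.card : ℝ) * R.N1 ≤ 12 * (β * Nb) * R.N1 := by gcongr
  rw [div_mul_eq_mul_div, le_div_iff₀ (mul_pos hs hθ)]
  refine le_of_mul_le_mul_left ?_ hN
  nlinarith

theorem Y_nonneg (q a b : ℕ) (B : ℕ → Finset ℤ) (τ : Fin 3 → Atom) (x n : ℤ) :
    0 ≤ R.Y q a b B τ x n := by
  exact R.wt_nonneg _

theorem Y_le_two (q a b : ℕ) (B : ℕ → Finset ℤ) (τ : Fin 3 → Atom) (x n : ℤ) :
    R.Y q a b B τ x n ≤ 2 := by
  have h := R.s_le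
  exact (R.wt_le _).trans (by linarith)

/-- `S` = the critical `m ∈ Icc a b`; `wt_exists_le`, `card_crit`, pigeonhole
(`exists_le_of_sum_le`); `S` is not empty since `δ > 0`. -/
theorem exists_scale {q a b : ℕ} (hq : 1 ≤ q) (B : ℕ → Finset ℤ) (τ : Fin 3 → Atom) {x n : ℤ}
    {δ : ℝ} (hδ : 0 < δ) (h : δ ≤ R.Y q a b B τ x n) : ∃ m, a ≤ m ∧ m ≤ b ∧
      R.Crit (NN q m) (Xi τ x n) ∧
      δ / (q * (2 * g + 1) : ℕ) ≤ R.wt fun v => x + v ∈ B m ∪ B (m - 1) := by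
  classical
  set S := (Icc a b).filter fun m => R.Crit (NN q m) (Xi τ x n) with hS
  have h1 : δ ≤ ∑ m ∈ S, R.wt fun v => x + v ∈ B m ∪ B (m - 1) := by
    refine h.trans (le_trans (R.wt_mono fun v _ hv => ?_)
      (R.wt_exists_le S fun m v => x + v ∈ B m ∪ B (m - 1)))
    obtain ⟨m, ha, hb, hc, hm⟩ := hv
    exact ⟨m, mem_filter.2 ⟨mem_Icc.2 ⟨ha, hb⟩, hc⟩, mem_union.2 hm⟩
  have h2 : S.Nonempty := by
    rw [nonempty_iff_ne_empty]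
    intro h0
    rw [h0, sum_empty] at h1
    exact absurd h1 (not_le.2 hδ)
  have h3 : S.card ≤ q * (2 * g + 1) := R.card_crit hq fun m hm => (mem_filter.1 hm).2
  have h4 : (0 : ℝ) < (q * (2 * g + 1) : ℕ) := by
    exact_mod_cast h2.card_pos.trans_le h3
  have h5 : ∑ _m ∈ S, δ / (q * (2 * g + 1) : ℕ) ≤ δ := by
    rw [sum_const, nsmul_eq_mul, ← mul_div_assoc, div_le_iff₀ h4, mul_comm]
    exact mul_le_mul_of_nonneg_left (by exact_mod_cast h3) hδ.le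
  obtain ⟨m, hm, hle⟩ := exists_le_of_sum_le h2 (h5.trans h1)
  obtain ⟨hm1, hm2⟩ := mem_filter.1 hm
  exact ⟨m, (mem_Icc.1 hm1).1, (mem_Icc.1 hm1).2, hm2, hle⟩

end Rng

end Pool.Agent.TR
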