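import Pool.Agent.Lib.MP_cc859a_an.TR.RRngA

open Finset Real
open scoped BigOperators ComplexConjugate

namespace Pool.Agent.TR

theorem rrngb_num {δ s ρ u w : ℝ} (hδ : 0 < δ) (hs : 0 < s) (hρ : 0 ≤ ρ) (hu : 0 < u) (huw : u ≤ w)
    (hw : 1 ≤ w) (h : δ ^ 8 ≤ 8 ^ 7 * 64 * ((2 * w + 1) * (12 * (2 * ρ) / (s * (δ / u))))) :
    δ ^ 9 * s ≤ 2 ^ 34 * w ^ 2 * ρ := by
  have h8 : δ ^ 9 * s ≤ 8 ^ 7 * 64 * 24 * ((2 * w + 1) * u * ρ) := by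
    refine le_trans (le_of_eq ?_) ((mul_le_mul_of_nonneg_right h (mul_pos hδ hs).le).trans
      (le_of_eq ?_))
    · ring
    · field_simp
      ring
  have h9 : (2 * w + 1) * u * ρ ≤ 3 * w * w * ρ :=
    mul_le_mul_of_nonneg_right (mul_le_mul (by linarith) huw hu.le (by linarith)) hρ
  have h10 : 0 ≤ w * w * ρ := by positivity
  nlinarith

open Classical in
theorem rrngb_sum {α : Type*} (Z : Finset α) (Y : α → ℝ) {δ c : ℝ} (hδ : 0 ≤ δ)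
    (h2 : ∀ p, Y p ≤ 2) (hZ : (Z.card : ℝ) = c)
    (hc : ((Z.filter fun p => δ ≤ Y p).card : ℝ) ≤ δ * c) : ∑ p ∈ Z, Y p ≤ 3 * δ * c := by
  rw [← sum_filter_add_sum_filter_not Z fun p => δ ≤ Y p]
  have h1 := sum_le_card_nsmul (Z.filter fun p => δ ≤ Y p) Y 2 fun p _ => h2 p
  have h3 := sum_le_card_nsmul (Z.filter fun p => ¬ δ ≤ Y p) Y δ
    fun p hp => (not_le.1 (mem_filter.1 hp).2).le
  have h4 : ((Z.filter fun p => ¬ δ ≤ Y p).card : ℝ) ≤ c :=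
    le_of_le_of_eq (Nat.cast_le.2 (card_filter_le _ _)) hZ
  rw [nsmul_eq_mul] at h1 h3
  nlinarith [mul_le_mul_of_nonneg_right h4 hδ]

/-- Let `Ω` be the set of pairs with `δ ≤ Y`. If `card Ω < δ L N1` the sum is at most
`δ L N1 + 2 δ L N1`. Otherwise choose `κ` by `exists_scale`, `θ = δ / (q (2 g + 1))`,
`Q m` = the `x ∈ Ico x₀ (x₀ + L)` with `θ ≤ wt (x + v ∈ B m ∪ B (m - 1))`, `r = 12 (2 ρ) / (s θ)`
(`card_wt_le`, `L ≤ NN q b`). `Rng.cube` gives `δ ^ 9 s ≤ 2 ^ 27 * 24 * (2 w + 1) w ρ` with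
`w = q (2 g + 5)`, and `2 w + 1 ≤ 3 w`, `2 ^ 27 * 72 < 2 ^ 34`, against `hρ` (if `ρ ≤ 0` the right
side is not positive). -/
theorem Rng.rng_upper {D : Data} {k : ℕ} {s : ℝ} {g q a b : ℕ} (R : Rng D k s g (NN q a) (NN q b))
    (hq : 1 ≤ q) (hab : a ≤ b) (τ : Fin 3 → Atom) (x₀ : ℤ) (B : ℕ → Finset ℤ) {ρ δ : ℝ}
    (hB : ∀ j, ((B j).card : ℝ) ≤ ρ * LL q b) (hδ : 0 < δ)
    (hρ : 2 ^ 34 * ((q * (2 * g + 5) : ℕ) : ℝ) ^ 2 * ρ < δ ^ 9 * s) :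
    ∑ x ∈ Ico x₀ (x₀ + LL q b), ∑ n ∈ Icc (1 : ℤ) R.N1, R.Y q a b B τ x n ≤
      3 * δ * (LL q b * R.N1) := by
  classical
  have hL : (0 : ℝ) < LL q b := Nat.cast_pos.2 (LL_pos hq)
  have hρ0 : 0 ≤ ρ := nonneg_of_mul_nonneg_left ((Nat.cast_nonneg _).trans (hB 0)) hL
  rw [← sum_product' (f := fun x n => R.Y q a b B τ x n)]
  refine rrngb_sum _ (fun p : ℤ × ℤ => R.Y q a b B τ p.1 p.2) hδ.le
    (fun p => R.Y_le_two q a b B τ p.1 p.2) (by simp) ?_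
  generalize hΩ : ((Ico x₀ (x₀ + LL q b) ×ˢ Icc (1 : ℤ) R.N1).filter
    fun p : ℤ × ℤ => δ ≤ R.Y q a b B τ p.1 p.2) = Ω
  have hs : Ω ⊆ Ico x₀ (x₀ + LL q b) ×ˢ Icc (1 : ℤ) R.N1 := hΩ.symm.subset.trans (filter_subset _ _)
  have hY : ∀ p ∈ Ω, δ ≤ R.Y q a b B τ p.1 p.2 := fun p hp =>
    (mem_filter.1 (hΩ.symm.subset hp)).2
  by_contra hc
  choose! κ h1 h2 h3 h4 using fun (p : ℤ × ℤ) (hp : p ∈ Ω) => R.exists_scale hq B τ hδ (hY p hp)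
  have hw : (0 : ℝ) < (q * (2 * g + 1) : ℕ) := Nat.cast_pos.2 (Nat.mul_pos hq (by omega))
  refine hρ.not_ge (rrngb_num hδ R.s_pos hρ0 hw (Nat.cast_le.2 (Nat.mul_le_mul_left _ (by omega)))
    (Nat.one_le_cast.2 (Nat.mul_pos hq (by omega))) ?_)
  refine R.cube hq τ x₀ ((NN_mono hq hab).trans (NN_le hq)) Ω hs hδ.le
    (not_le.1 hc).le κ (fun p hp => ⟨NN_mono hq (h1 p hp), NN_mono hq (h2 p hp), h3 p hp⟩)
    (fun m => (Ico x₀ (x₀ + LL q b)).filter fun x =>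
      δ / (q * (2 * g + 1) : ℕ) ≤ R.wt fun v => x + v ∈ B m ∪ B (m - 1))
    (fun p hp => mem_filter.2 ⟨(mem_product.1 (hs hp)).1, h4 p hp⟩)
    (div_nonneg (by positivity) (mul_pos R.s_pos (div_pos hδ hw)).le) fun m x₁ i hi1 hi3 => ?_
  refine le_trans (Nat.cast_le.2 (card_le_card fun y hy =>
    mem_filter.2 ⟨(mem_filter.1 hy).1, (mem_filter.1 (mem_filter.1 hy).2).2⟩))
    (R.card_wt_le (B m ∪ B (m - 1)) x₁ hi1 hi3 (div_pos hδ hw) ?_)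
  have h6 : ((B m ∪ B (m - 1)).card : ℝ) ≤ (B m).card + (B (m - 1)).card := by
    exact_mod_cast card_union_le _ _
  have h7 : ρ * LL q b ≤ ρ * NN q b := mul_le_mul_of_nonneg_left (Nat.cast_le.2 LL_le_NN) hρ0
  linarith [hB m, hB (m - 1)]

end Pool.Agent.TR
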