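import Pool.Agent.Lib.MP_cc859a_an.TR.RChange
import Pool.Agent.Lib.MP_cc859a_an.TR.RRngA

open Finset Real
open scoped BigOperators ComplexConjugate

namespace Pool.Agent.TR

namespace Rng

variable {D : Data} {k : ℕ} {s : ℝ} {g Na Nb : ℕ} (R : Rng D k s g Na Nb)

open Classical in
/-- Exchange of the two sums. -/
theorem rrngc_sum {α : Type} (S : Finset α) (Q : α → ℤ → Prop) : ∑ t ∈ S, R.wt (Q t) =
    ∑ v ∈ Icc (1 : ℤ) R.N2, ((S.filter fun t => Q t v).card : ℝ) * R.W R.N2 v := by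
  simp only [wt, sum_filter]
  rw [sum_comm]
  refine sum_congr rfl fun v _ => ?_
  rw [← sum_filter, sum_const, nsmul_eq_mul]

/-- For `X ∈ Z`, `wt (v ∈ U) ≤ wt (v ∈ U ∧ X - v ∉ Y) + wt (X - v ∈ Y)`; the sum over `X` of the last
term is at most `∑ y ∈ Y, ∑ v, W N2 v ≤ (1 + s) card Y`. -/
theorem rng_weight (Z Y : Finset ℤ) :
    (1 - 2 * s) * Z.card - (1 + s) * Y.card ≤ ∑ X ∈ Z, R.wt fun v => v ∈ R.U ∧ X - v ∉ Y := by
  classical
  have h1 : ∑ X ∈ Z, R.wt (fun v => X - v ∈ Y) ≤ (1 + s) * Y.card := by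
    have h2 := R.wt_le fun _ => True
    simp only [wt, filter_true] at h2
    rw [R.rrngc_sum Z fun X v => X - v ∈ Y, mul_comm]
    refine le_trans ?_ (mul_le_mul_of_nonneg_left h2 Y.card.cast_nonneg)
    rw [mul_sum]
    refine sum_le_sum fun v _ => mul_le_mul_of_nonneg_right (Nat.cast_le.2 ?_) (R.W_nonneg _ _)
    refine card_le_card_of_injOn (· - v) (fun X hX => ?_) fun _ _ _ _ h => sub_left_injective h
    simp only [coe_filter, Set.mem_ofPred_eq] at hX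
    exact hX.2
  have h2 : ∑ _X ∈ Z, (1 - 2 * s) ≤ ∑ X ∈ Z, (R.wt (fun v => v ∈ R.U ∧ X - v ∉ Y) +
      R.wt fun v => X - v ∈ Y) := sum_le_sum fun X _ => R.le_wt_U.trans
    ((R.wt_mono fun v _ hv => (em (X - v ∈ Y)).elim Or.inr fun h => Or.inl ⟨hv, h⟩).trans
      (R.wt_or_le _ _))
  rw [sum_const, nsmul_eq_mul, sum_add_distrib] at h2
  linarith

/-- Reindex `x = X - v`. -/
theorem rng_swap (Z I : Finset ℤ) (hZ : ∀ X ∈ Z, ∀ v ∈ Icc (1 : ℤ) R.N2, X - v ∈ I)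
    (P : ℤ → ℤ → Prop) :
    ∑ X ∈ Z, R.wt (fun v => P (X - v) v) ≤ ∑ x ∈ I, R.wt (P x) := by
  rw [R.rrngc_sum Z fun X v => P (X - v) v, R.rrngc_sum I P]
  refine sum_le_sum fun v hv => mul_le_mul_of_nonneg_right (Nat.cast_le.2 ?_) (R.W_nonneg _ _)
  refine card_le_card_of_injOn (· - v) (fun X hX => ?_) fun _ _ _ _ h => sub_left_injective h
  simp only [coe_filter, Set.mem_ofPred_eq] at hX ⊢
  exact ⟨hZ X hX.1 v hv, hX.2⟩

/-- If every `v` with `P v` has `c ≤ card {t ∈ S | Q t v}` then `c * wt P ≤ ∑ t ∈ S, wt (Q t)`. -/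
theorem rng_count {α : Type} (S : Finset α) (P : ℤ → Prop) (Q : α → ℤ → Prop) {c : ℝ}
    (h : ∀ v ∈ Icc (1 : ℤ) R.N2, P v → ∃ S' ⊆ S, c ≤ S'.card ∧ ∀ t ∈ S', Q t v) :
    c * R.wt P ≤ ∑ t ∈ S, R.wt (Q t) := by
  rw [R.rrngc_sum S Q, wt, sum_filter, mul_sum]
  refine sum_le_sum fun v hv => ?_
  split_ifs with hP
  · obtain ⟨S', h1, h2, h3⟩ := h v hv hP
    refine mul_le_mul_of_nonneg_right (h2.trans (Nat.cast_le.2 (card_le_card fun t ht => ?_)))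
      (R.W_nonneg _ _)
    simp only [mem_filter]
    exact ⟨h1 ht, h3 t ht⟩
  · rw [mul_zero]
    exact mul_nonneg (Nat.cast_nonneg _) (R.W_nonneg _ _)

/-- `change` for every triple: `2 / K ≤ ∑ i, (150 s + 4 card (hit) / N1)`, `150 s K ≤ 1 / K`. Take
`S' = {(i, n) | n ∈ hit q (τ i) x j j'}` (`card_sigma` or `card_eq_sum_card_fiberwise`). A critical
`m ∈ [j, j']` has `m < j'` or `m - 1 ∈ [j, j')`. -/
theorem rng_pair {ι : Type} [Fintype ι] {τ : ι → Fin 3 → Atom} (h : ∀ i, Adm D k s (τ i)) {K : ℝ}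
    (hK : 1 ≤ K) (hι : (Fintype.card ι : ℝ) ≤ K) (hs : 200 * K ^ 2 * s ≤ 1) {q a b j j' : ℕ}
    (hq : 1 ≤ q) (ha : Na ≤ NN q a) (hb : NN q b ≤ Nb) (haj : a ≤ j) (hj : j < j') (hjb : j' ≤ b)
    (B : ℕ → Finset ℤ) {x v : ℤ} (hx : NZ D.Bad s x) (hxv : NZ D.Bad s (x + v)) (hv : v ∈ R.U)
    (hv' : |v| ≤ Nb) (hf : ∀ i, ((R.far (τ i) (x + v)).card : ℝ) ≤ s * R.N1)
    (hΔ : 2 / K ≤ ‖∑ i, At (NN q j) (τ i) (x + v) - ∑ i, At (NN q j') (τ i) (x + v)‖)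
    (hB : ∀ m, j ≤ m → m < j' → x + v ∈ B m) :
    ∃ S' ⊆ (univ : Finset ι) ×ˢ Icc (1 : ℤ) R.N1, R.N1 / (4 * K) ≤ (S'.card : ℝ) ∧
      ∀ t ∈ S', ∃ m, a ≤ m ∧ m ≤ b ∧ R.Crit (NN q m) (Xi (τ t.1) x t.2) ∧
        (x + v ∈ B m ∨ x + v ∈ B (m - 1)) := by
  classical
  have hK0 : 0 < K := one_pos.trans_le hK
  have hN : (0 : ℝ) < R.N1 := Nat.cast_pos.2 R.N1_pos
  have hs0 := R.s_pos
  have h1 : 2 / K ≤ ∑ i, (150 * s + 4 * (R.hit q (τ i) x j j').card / R.N1 : ℝ) := by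
    refine hΔ.trans ?_
    rw [← sum_sub_distrib]
    exact (norm_sum_le _ _).trans (sum_le_sum fun i _ => R.change (h i) hq hj.le
      (ha.trans (NN_mono hq haj)) ((NN_mono hq hjb).trans hb) hx hxv hv hv' (hf i))
  rw [sum_add_distrib, sum_const, card_univ, nsmul_eq_mul, ← sum_div, ← mul_sum,
    ← Nat.cast_sum] at h1
  refine ⟨(univ ×ˢ Icc (1 : ℤ) R.N1).filter fun t => t.2 ∈ R.hit q (τ t.1) x j j',
    filter_subset _ _, ?_, fun t ht => ?_⟩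
  · have h2 : ((univ ×ˢ Icc (1 : ℤ) R.N1).filter fun t : ι × ℤ =>
        t.2 ∈ R.hit q (τ t.1) x j j').card = ∑ i, (R.hit q (τ i) x j j').card := by
      rw [card_filter, sum_product]
      refine sum_congr rfl fun i _ => ?_
      rw [← card_filter]
      exact congrArg card (Finset.ext fun n => mem_filter.trans
        (and_iff_right_of_imp fun h => (R.mem_hit.1 h).1))
    rw [h2, div_le_iff₀ (by positivity)]
    have h3 : (Fintype.card ι : ℝ) * (150 * s) ≤ 1 / K := by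
      rw [le_div_iff₀ hK0]
      have h4 := mul_le_mul_of_nonneg_right hι (by positivity : 0 ≤ 150 * s * K)
      have h5 : 0 ≤ K ^ 2 * s := by positivity
      nlinarith
    have h4 : 1 / K ≤ 4 * ((∑ i, (R.hit q (τ i) x j j').card : ℕ) : ℝ) / R.N1 := by
      have : 2 / K = 1 / K + 1 / K := by ring
      linarith
    rw [div_le_div_iff₀ hK0 hN] at h4
    linarith
  · obtain ⟨-, m, h2, h3, h4⟩ := R.mem_hit.1 (mem_filter.1 ht).2
    refine ⟨m, haj.trans h2, h3.trans hjb, h4, ?_⟩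
    rcases h3.lt_or_eq with h5 | h5
    · exact Or.inl (hB m h2 h5)
    · exact Or.inr (hB _ (by omega) (by omega))

end Rng

end Pool.Agent.TR
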