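import Pool.Agent.Lib.MP_cc859a_an.TR.RRngB
import Pool.Agent.Lib.MP_cc859a_an.TR.RRngC
import Pool.Agent.Lib.MP_cc859a_an.TR.RFar

open Finset Real
open scoped BigOperators ComplexConjugate

namespace Pool.Agent.TR

variable {D : Data} {k : ℕ} {s : ℝ} {g q a b : ℕ}

/-- The points of the interval with many far `n` for some triple (`far_card`, `NN_le`, `NN_mono`). -/
theorem Rng.exists_far (R : Rng D k s g (NN q a) (NN q b)) (hq : 1 ≤ q) (hab : a ≤ b) {ι : Type}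
    [Fintype ι] {τ : ι → Fin 3 → Atom} (h : ∀ i, Adm D k s (τ i)) {K : ℝ}
    (hι : (Fintype.card ι : ℝ) ≤ K) (x₀ : ℤ) : ∃ Fr : Finset ℤ, (Fr.card : ℝ) ≤ 8 * s * K * LL q b ∧
      ∀ x ∈ Ico x₀ (x₀ + LL q b), x ∉ Fr → ∀ i, ((R.far (τ i) x).card : ℝ) ≤ s * R.N1 := by
  classical
  have hL : NN q a ≤ 2 * LL q b := (NN_mono hq hab).trans (NN_le hq)
  have hs := R.s_pos
  refine ⟨univ.biUnion fun i => (Ico x₀ (x₀ + LL q b)).filter fun x =>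
    s * R.N1 < (R.far (τ i) x).card, ?_, fun x hx hn i => ?_⟩
  · calc _ ≤ ∑ i, (((Ico x₀ (x₀ + LL q b)).filter fun x =>
          s * R.N1 < (R.far (τ i) x).card).card : ℝ) := by exact_mod_cast card_biUnion_le
      _ ≤ ∑ _i : ι, 8 * s * LL q b := sum_le_sum fun i _ => R.far_card (h i) x₀ hL
      _ = Fintype.card ι * (8 * s * LL q b) := by simp
      _ ≤ K * (8 * s * LL q b) := mul_le_mul_of_nonneg_right hι (by positivity)
      _ = _ := by ring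
  · by_contra hc
    exact hn (mem_biUnion.2 ⟨i, mem_univ _, mem_filter.2 ⟨hx, not_le.1 hc⟩⟩)

/-- `Z' = Z` without `Y`, `Fr` (`exists_far`) and `Ico x₀ (x₀ + N2)`; `N2 ≤ 2 s L`, so
`card Z' ≥ 9 L / (10 K) + 2 card Y` and by `rng_weight` the weight of the pairs is at least
`L / (2 K)`. For `X ∈ Z'` use `rng_count` with `P v = (v ∈ U ∧ X - v ∉ Y)`, `S = univ ×ˢ Icc 1 N1`,
`Q t v` = the predicate of `Y` at `x = X - v`, and `rng_pair`; sum over `X`, exchange the sums,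
`rng_swap` for each `t`. -/
theorem Rng.rng_lower (R : Rng D k s g (NN q a) (NN q b)) (hq : 1 ≤ q) (hab : a ≤ b) {ι : Type}
    [Fintype ι] {τ : ι → Fin 3 → Atom} (h : ∀ i, Adm D k s (τ i)) {K : ℝ} (hK : 1 ≤ K)
    (hι : (Fintype.card ι : ℝ) ≤ K) (hs : 200 * K ^ 2 * s ≤ 1) (x₀ : ℤ) (B : ℕ → Finset ℤ)
    (Z Y : Finset ℤ) (hZ : Z ⊆ Ico x₀ (x₀ + LL q b))
    (hY : ∀ x ∈ Ico x₀ (x₀ + LL q b), x ∉ Y → NZ D.Bad s x)
    (hΔ : ∀ x ∈ Z, ∃ j j', a ≤ j ∧ j < j' ∧ j' ≤ b ∧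
      2 / K ≤ ‖∑ i, At (NN q j) (τ i) x - ∑ i, At (NN q j') (τ i) x‖ ∧
      ∀ m, j ≤ m → m < j' → x ∈ B m)
    (hc : LL q b / K + 3 * Y.card ≤ (Z.card : ℝ)) :
    LL q b * R.N1 / (8 * K ^ 2) ≤
      ∑ i, ∑ x ∈ Ico x₀ (x₀ + LL q b), ∑ n ∈ Icc (1 : ℤ) R.N1, R.Y q a b B (τ i) x n := by
  classical
  obtain ⟨Fr, hFr, hFr'⟩ := R.exists_far hq hab h hι x₀
  obtain ⟨Z', hZ'⟩ : ∃ Z', Z' = Z \ (Y ∪ Fr ∪ Ico x₀ (x₀ + R.N2)) := ⟨_, rfl⟩
  have hs0 := R.s_pos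
  have hs1 := R.s_le
  have hK0 : 0 < K := by linarith
  have hcard : (Z.card : ℝ) ≤ Z'.card + (Y.card + Fr.card + R.N2) := by
    have h1 : Z.card ≤ Z'.card + (Y ∪ Fr ∪ Ico x₀ (x₀ + R.N2)).card := by
      rw [hZ']
      exact card_le_card_sdiff_add_card
    have h2 := card_union_le (Y ∪ Fr) (Ico x₀ (x₀ + R.N2))
    have h3 := card_union_le Y Fr
    have h4 : (Ico x₀ (x₀ + R.N2)).card = R.N2 := by simp
    have h5 : Z.card ≤ Z'.card + (Y.card + Fr.card + R.N2) := by omega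
    exact_mod_cast h5
  have hN2 : (R.N2 : ℝ) ≤ 2 * (s * LL q b) := by
    have h1 : (NN q b : ℝ) ≤ 2 * LL q b := by exact_mod_cast NN_le (j := b) hq
    have h2 := R.N2_le
    nlinarith
  have hw : LL q b / (2 * K) ≤ ∑ X ∈ Z', R.wt fun v => v ∈ R.U ∧ X - v ∉ Y := by
    refine le_trans ?_ (R.rng_weight Z' Y)
    obtain ⟨u, hu⟩ : ∃ u : ℝ, u = LL q b / K := ⟨_, rfl⟩
    have hu0 : 0 ≤ u := by rw [hu]; positivity
    have hL : (LL q b : ℝ) = u * K := by rw [hu]; field_simp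
    have h1 : s * K * LL q b ≤ u / 200 := by rw [hL]; nlinarith
    have h2 : s * LL q b ≤ s * K * LL q b := by
      have : 0 ≤ s * LL q b := by positivity
      nlinarith
    have h3 : (LL q b : ℝ) / (2 * K) = u / 2 := by rw [hu]; field_simp
    have h4 : (0 : ℝ) ≤ Z'.card := Nat.cast_nonneg _
    have h5 : (0 : ℝ) ≤ Y.card := Nat.cast_nonneg _
    rw [h3]
    rw [← hu] at hc
    nlinarith
  have hmem : ∀ X ∈ Z', ∀ v ∈ Icc (1 : ℤ) R.N2, X - v ∈ Ico x₀ (x₀ + LL q b) := by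
    intro X hX v hv
    rw [hZ', mem_sdiff] at hX
    have h1 := mem_Ico.1 (hZ hX.1)
    have h2 : X ∉ Ico x₀ (x₀ + R.N2) := fun h => hX.2 (mem_union_right _ h)
    rw [mem_Ico] at h2 ⊢
    rw [mem_Icc] at hv
    omega
  have key : ∀ X ∈ Z', R.N1 / (4 * K) * R.wt (fun v => v ∈ R.U ∧ X - v ∉ Y) ≤
      ∑ t ∈ (univ : Finset ι) ×ˢ Icc (1 : ℤ) R.N1, R.wt fun v => ∃ m, a ≤ m ∧ m ≤ b ∧
        R.Crit (NN q m) (Xi (τ t.1) (X - v) t.2) ∧
          (X - v + v ∈ B m ∨ X - v + v ∈ B (m - 1)) := by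
    intro X hX
    refine R.rng_count _ _ _ fun v hv hP => ?_
    have hx := hmem X hX v hv
    rw [hZ', mem_sdiff] at hX
    obtain ⟨j, j', haj, hj, hjb, hd, hB⟩ := hΔ X hX.1
    have e : X - v + v = X := sub_add_cancel X v
    have hXY : X ∉ Y := fun h => hX.2 (mem_union_left _ (mem_union_left _ h))
    have hXF : X ∉ Fr := fun h => hX.2 (mem_union_left _ (mem_union_right _ h))
    have hv' : |v| ≤ NN q b := by
      have h1 := R.N2_le_Nb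
      rw [mem_Icc] at hv
      rw [abs_le]
      omega
    exact R.rng_pair h hK hι hs hq le_rfl le_rfl haj hj hjb B (x := X - v) (v := v)
      (hY _ hx hP.2) (by rw [e]; exact hY X (hZ hX.1) hXY) hP.1 hv'
      (by rw [e]; exact hFr' X (hZ hX.1) hXF) (by rw [e]; exact hd) (by rw [e]; exact hB)
  calc _ = R.N1 / (4 * K) * (LL q b / (2 * K)) := by field_simp; ring
    _ ≤ R.N1 / (4 * K) * ∑ X ∈ Z', R.wt fun v => v ∈ R.U ∧ X - v ∉ Y :=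
        mul_le_mul_of_nonneg_left hw (by positivity)
    _ ≤ ∑ t ∈ (univ : Finset ι) ×ˢ Icc (1 : ℤ) R.N1, ∑ x ∈ Ico x₀ (x₀ + LL q b),
          R.Y q a b B (τ t.1) x t.2 := by
        rw [mul_sum]
        refine (sum_le_sum key).trans ?_
        rw [sum_comm]
        exact sum_le_sum fun t _ => R.rng_swap Z' _ hmem fun x v => ∃ m, a ≤ m ∧ m ≤ b ∧
          R.Crit (NN q m) (Xi (τ t.1) x t.2) ∧ (x + v ∈ B m ∨ x + v ∈ B (m - 1))
    _ = _ := by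
        rw [sum_product]
        exact sum_congr rfl fun i _ => sum_comm

/-- Paper: RANGE. By contradiction; `node L i = Ico (i L) (i L + L)`; `rng_lower` against
`rng_upper` with `δ = 1 / (48 K ^ 3)` (`48 ^ 9 < 2 ^ 51`, `1200 < 2 ^ 11`). -/
theorem Rng.rangeP {K : ℝ} (R : Rng D k (1 / (1200 * K ^ 2)) g (NN q a) (NN q b)) (hq : 1 ≤ q)
    (hab : a ≤ b) (hK : 2 ≤ K) {ι : Type} [Fintype ι] {τ : ι → Fin 3 → Atom}
    (h : ∀ i, Adm D k (1 / (1200 * K ^ 2)) (τ i)) (hι : (Fintype.card ι : ℝ) ≤ K) {h' ρ : ℝ}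
    (hh : 1 / K ≤ h') (hρ : ρ * K ^ 30 * (2 ^ 96 * ((q * (2 * g + 5) : ℕ) : ℝ) ^ 2) ≤ 1) :
    RangeP D.Bad q a b K h' ρ fun j x => ∑ i, At (NN q j) (τ i) x := by
  intro i B hB Z hZ hΔ
  by_contra hc
  have hK0 : 0 < K := by linarith
  have hnode : node (LL q b) i = Ico (i * LL q b) (i * LL q b + LL q b) := by
    rw [node, add_mul, one_mul]
  have h1 : LL q b * R.N1 / (8 * K ^ 2) ≤ ∑ t, ∑ x ∈ Ico (i * LL q b) (i * LL q b + LL q b),
      ∑ n ∈ Icc (1 : ℤ) R.N1, R.Y q a b B (τ t) x n := by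
    refine R.rng_lower hq hab h (by linarith) hι ?_ (i * LL q b) B Z _ (hnode ▸ hZ) ?_ ?_
      (not_le.1 hc).le
    · have : 200 * K ^ 2 * (1 / (1200 * K ^ 2)) = 1 / 6 := by field_simp; norm_num
      rw [this]
      norm_num
    · intro x hx hn
      by_contra hc'
      exact hn (by simp only [mem_filter, hnode]; exact ⟨hx, hc'⟩)
    · intro x hx
      obtain ⟨j, j', h₁, h₂, h₃, h₄, h₅⟩ := hΔ x hx
      refine ⟨j, j', h₁, h₂, h₃, le_trans ?_ h₄, h₅⟩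
      have : 2 / K = 2 * (1 / K) := by ring
      linarith
  have hρ' : 2 ^ 34 * ((q * (2 * g + 5) : ℕ) : ℝ) ^ 2 * ρ <
      (1 / (48 * K ^ 3)) ^ 9 * (1 / (1200 * K ^ 2)) := by
    have e : (1 / (48 * K ^ 3)) ^ 9 * (1 / (1200 * K ^ 2)) = K / (48 ^ 9 * 1200 * K ^ 30) := by
      field_simp
    rw [e, lt_div_iff₀ (by positivity)]
    obtain ⟨y, hy⟩ : ∃ y : ℝ, y = ρ * K ^ 30 * ((q * (2 * g + 5) : ℕ) : ℝ) ^ 2 := ⟨_, rfl⟩
    have e1 : 2 ^ 34 * ((q * (2 * g + 5) : ℕ) : ℝ) ^ 2 * ρ * (48 ^ 9 * 1200 * K ^ 30) =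
        2 ^ 34 * 48 ^ 9 * 1200 * y := by rw [hy]; ring
    have e2 : 2 ^ 96 * y ≤ 1 := by rw [hy]; linarith
    rw [e1]
    norm_num at e2 ⊢
    linarith
  have h2 : ∑ t, ∑ x ∈ Ico (i * LL q b) (i * LL q b + LL q b),
      ∑ n ∈ Icc (1 : ℤ) R.N1, R.Y q a b B (τ t) x n ≤
      K * (3 * (1 / (48 * K ^ 3)) * (LL q b * R.N1)) :=
    calc _ ≤ ∑ _t : ι, 3 * (1 / (48 * K ^ 3)) * ((LL q b : ℝ) * R.N1) :=
          sum_le_sum fun t _ => R.rng_upper hq hab (τ t) _ B hB (by positivity) hρ'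
      _ = Fintype.card ι * (3 * (1 / (48 * K ^ 3)) * ((LL q b : ℝ) * R.N1)) := by simp
      _ ≤ _ := mul_le_mul_of_nonneg_right hι (by positivity)
  have h3 : (0 : ℝ) < LL q b * R.N1 / (8 * K ^ 2) := by
    have h4 : (0 : ℝ) < LL q b := by exact_mod_cast LL_pos (j := b) hq
    have h5 : (0 : ℝ) < R.N1 := by exact_mod_cast R.N1_pos
    positivity
  have h4 : K * (3 * (1 / (48 * K ^ 3)) * (LL q b * R.N1)) =
      LL q b * R.N1 / (8 * K ^ 2) / 2 := by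
    field_simp
    ring
  linarith

end Pool.Agent.TR
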