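import Pool.Agent.Lib.MP_cc859a_an.TR.RVal
import Pool.Agent.Lib.MP_cc859a_an.TR.RTrip

open Finset Real
open scoped BigOperators ComplexConjugate

namespace Pool.Agent.TR

variable {c : Pm} {D : Data} {k : ℕ} {σ : St} {N N' : ℕ}

/-- Insert `ψ` (`dissoc_insert`, `hw₂`, `Valid.mono`). -/
theorem Valid.step_freq (h : Valid c D k σ N) (hc : c.OK) (hN : 2 ^ c.w * N' ≤ N) {ψ : T}
    (h₁ : ψ ∈ Sp σ.Θ (8 * σ.M c)) (h₂ : ψ ∉ Sp σ.DΘ 1) (h₃ : ‖ψ‖ * N < (2 ^ c.g) ^ 3) :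
    ∃ σ' : St, σ.rank c < σ'.rank c ∧ Valid c D k σ' N' := by
  classical
  have h2w : 1 ≤ 2 ^ c.w := Nat.one_le_two_pow
  have hv := h.mono hc (show N' ≤ N by nlinarith)
  obtain ⟨hd, hn⟩ := dissoc_insert h.DΘ_dis h₂
  refine ⟨⟨σ.Θ, σ.δ, σ.Dl, insert ψ σ.DΘ⟩, ?_, hv.δ_le, hv.δ_ge, hv.card_Θ, hv.sub, hv.Dl_sub,
    hv.Dl_dis, hv.Dl_triv, insert_subset h₁ hv.DΘ_sub, hd, fun x hx => ?_⟩
  · simp only [St.rank, card_insert_of_notMem hn]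
    omega
  · rcases mem_insert.1 hx with rfl | hx
    · have hN' : (2 : ℝ) ^ c.w * N' ≤ N := by exact_mod_cast hN
      have hG : (0 : ℝ) < (2 ^ c.g) ^ 3 := by positivity
      have a := mul_le_mul_of_nonneg_left hN' (norm_nonneg x)
      have b := mul_le_mul_of_nonneg_left hc.hw₂
        (mul_nonneg (norm_nonneg x) (Nat.cast_nonneg (α := ℝ) N'))
      refine le_of_mul_le_mul_right ?_ hG
      nlinarith
    · exact hv.DΘ_tiny x hx

open Classical in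
/-- The new state is `⟨Θ', exp (-12 E) * (exp (-E) * δ), insert l Dl, ∅⟩`; its Bohr set at `N'` lies in
the one of `hΘ` (`hw₁`), which lies in `Bohr σ.Θ σ.δ N`. The rank grows by `card_DΘ`. -/
theorem Valid.step_form (h : Valid c D k σ N) (hc : c.OK) (hD : Fit c D k)
    (hN : 2 ^ c.w * N' ≤ N) {l : ℤ → T} (h₁ : l ∈ Sp D.F (14 * k)) (h₂ : l ∉ Sp σ.Dl 1)
    {Θ' : Finset T} (hΘ : (Θ'.card : ℝ) ≤ σ.Θ.card + 3 * c.E) {B : Finset ℤ}
    (hB : B = Bohr Θ' (exp (-12 * c.E) * (exp (-c.E) * σ.δ))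
      (exp (-12 * c.E) * (N / (100 * 2 ^ c.g))))
    (hs : B ⊆ Bohr σ.Θ (exp (-c.E) * σ.δ) (N / (100 * 2 ^ c.g)))
    (ht : ∀ v ∈ B, ∀ w ∈ B, ‖w • (2 : ℤ) • l v‖ ≤ exp (-c.E) ∧ ‖w • l w‖ ≤ exp (-c.E)) :
    ∃ σ' : St, σ.rank c < σ'.rank c ∧ Valid c D k σ' N' := by
  obtain ⟨hd, hn⟩ := dissoc_insert h.Dl_dis h₂
  have hδ := h.δ_pos
  have hE := hc.hE
  have e1 : exp (-c.E) ≤ 1 := exp_le_one_iff.2 (by linarith)
  have e2 : exp (-12 * c.E) ≤ 1 := exp_le_one_iff.2 (by linarith)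
  have e3 : exp (-c.E) * σ.δ ≤ σ.δ := mul_le_of_le_one_left hδ.le e1
  have hG : (1 : ℝ) ≤ 2 ^ c.g := one_le_pow₀ one_le_two
  have hN' : (2 : ℝ) ^ c.w * N' ≤ N := by exact_mod_cast hN
  have s1 : Bohr Θ' (exp (-12 * c.E) * (exp (-c.E) * σ.δ)) N' ⊆ B := by
    rw [hB]
    refine Bohr_mono Subset.rfl le_rfl ?_
    rw [← mul_div_assoc, le_div_iff₀ (by positivity), neg_mul, exp_neg, ← div_eq_inv_mul,
      le_div_iff₀ (exp_pos _)]
    have a := mul_le_mul_of_nonneg_right hc.hw₁ (Nat.cast_nonneg (α := ℝ) N')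
    linarith
  have s2 : B ⊆ Bohr σ.Θ σ.δ N :=
    hs.trans (Bohr_mono Subset.rfl e3 (div_le_self (Nat.cast_nonneg N) (by linarith)))
  refine ⟨⟨Θ', exp (-12 * c.E) * (exp (-c.E) * σ.δ), insert l σ.Dl, ∅⟩, ?_, ?_, ?_, ?_,
    s1.trans (s2.trans h.sub), insert_subset h₁ h.Dl_sub, hd, fun a ha v hv w hw => ?_,
    empty_subset _, by simp, fun x hx => absurd hx (notMem_empty x)⟩
  · have a : σ.DΘ.card ≤ ⌊c.T₁⌋₊ := Nat.le_floor (h.card_DΘ hc hD)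
    simp only [St.rank, card_insert_of_notMem hn, card_empty, add_mul]
    omega
  · exact (mul_le_of_le_one_left (by positivity) e2).trans (e3.trans h.δ_le)
  · simp only [card_insert_of_notMem hn]
    refine le_trans (le_of_eq ?_) (mul_le_mul_of_nonneg_left
      (mul_le_mul_of_nonneg_left h.δ_ge (exp_pos _).le) (exp_pos _).le)
    rw [← exp_add, ← exp_add]
    congr 1
    push_cast
    ring
  · simp only [card_insert_of_notMem hn]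
    push_cast
    linarith [h.card_Θ]
  · rcases mem_insert.1 ha with rfl | ha
    · exact ht v (s1 hv) w (s1 hw)
    · exact h.Dl_triv a ha v (s2 (s1 hv)) w (s2 (s1 hw))

/-- If the first half of `Full` fails use `step_freq`. Otherwise take the set `V` of `dich_bohr` for
`(σ.Θ, exp (-E) δ, N / (100 G), E)` (`card_le_r`, `h1`, `exp_Ld_le`, `h2`, `hw₁`); some `l` has a
large bias on it, it is additive (`LAdd.sp`, `sub`, `Sm_subset`); `step_form`. -/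
theorem Valid.step (h : Valid c D k σ N) (hc : c.OK) (hD : Fit c D k) (hw : 2 ^ c.w ≤ N)
    (hN : 2 ^ c.w * N' ≤ N) (hf : ¬ Full c D k σ N) :
    ∃ σ' : St, σ.rank c < σ'.rank c ∧ Valid c D k σ' N' := by
  by_cases h1 : ∀ ψ ∈ Sp σ.Θ (8 * σ.M c), ψ ∉ Sp σ.DΘ 1 → (2 ^ c.g) ^ 3 ≤ ‖ψ‖ * N
  swap
  · push Not at h1
    obtain ⟨ψ, a, b, d⟩ := h1
    exact h.step_freq hc hN a b d
  have hδ := h.δ_pos
  have hE := hc.hE
  have e1 : exp (-c.E) ≤ 1 := exp_le_one_iff.2 (by linarith)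
  have e3 : exp (-c.E) * σ.δ ≤ σ.δ := mul_le_of_le_one_left hδ.le e1
  have hG : (1 : ℝ) ≤ 2 ^ c.g := one_le_pow₀ one_le_two
  have hr := h.card_le_r hc hD
  have hp : (1 : ℝ) ≤ c.p := by exact_mod_cast hc.hp
  have hr0 : 0 ≤ c.r := (Nat.cast_nonneg _).trans hr
  have a1 : (σ.Θ.card : ℝ) ≤ exp c.E := by nlinarith [hc.h1]
  have a2 : exp (-exp c.E) ≤ exp (-c.E) * σ.δ := by
    refine le_trans ?_ (mul_le_mul_of_nonneg_left (h.exp_Ld_le hc hD) (exp_pos _).le)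
    rw [← exp_add]
    exact exp_le_exp.2 (by linarith [hc.h2])
  have a3 : (1 : ℝ) ≤ N / (100 * 2 ^ c.g) := by
    rw [le_div_iff₀ (by positivity), one_mul]
    have b1 : (2 : ℝ) ^ c.w ≤ N := by exact_mod_cast hw
    have b2 : 1 ≤ exp (12 * c.E) := one_le_exp (by linarith)
    nlinarith [hc.hw₁]
  obtain ⟨V, hV, hV0, hV1⟩ := dich_bohr σ.Θ hE a1 a2 (e3.trans h.δ_le) a3
  have h2 : ∃ l ∈ Sp D.F (14 * k), l ∉ Sp σ.Dl 1 ∧ exp (-c.E) < bias V l := by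
    by_contra hb
    push Not at hb
    exact hf ⟨h1, V, hV, hV0, hb⟩
  obtain ⟨l, b1, b2, b3⟩ := h2
  have s2 : Bohr σ.Θ (exp (-c.E) * σ.δ) (N / (100 * 2 ^ c.g)) ⊆ D.B :=
    (Bohr_mono Subset.rfl e3 (div_le_self (Nat.cast_nonneg N) (by linarith))).trans
      (h.sub.trans (Sm_subset hD.ok))
  obtain ⟨Θ', t1, t2, t3⟩ :=
    hV1 l ((LAdd.sp (fun a ha => (hD.ok.2.2.2 a ha).add) b1).mono s2) b3
  exact h.step_form hc hD hN b1 b2 t1 rfl t2 t3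

end Pool.Agent.TR
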