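import Pool.Agent.Lib.MP_cc859a_an.TR.DefsR

open Finset Real
open scoped BigOperators ComplexConjugate

namespace Pool.Agent.TR

variable {c : Pm} {D : Data} {k : ℕ} {σ : St} {N N' : ℕ}

theorem rval_ET (hc : c.OK) : 0 ≤ c.E * c.T₀ := by
  have hX := hc.hX
  have h1 : 0 ≤ log (28 * c.X + 1) := log_nonneg (by linarith)
  exact mul_nonneg (by linarith [hc.hE]) (le_trans (by positivity) hc.hT₀)

theorem rval_r (hc : c.OK) : 2 ≤ c.r := by
  linarith [hc.hX, hc.hr, rval_ET hc]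

theorem rval_Ld (hc : c.OK) : 0 ≤ c.Ld := by
  linarith [hc.hX, hc.hLd, rval_ET hc]

theorem rval_T (hc : c.OK) : 1 ≤ c.T₁ := by
  have h1 := rval_r hc
  have h2 : 0 ≤ log (32 * (c.p : ℝ) + 1) := log_nonneg (le_add_of_nonneg_left (by positivity))
  have h3 := mul_nonneg (show 0 ≤ 3 * c.r by linarith) (add_nonneg (rval_Ld hc) h2)
  nlinarith [hc.hT₁]

theorem Valid.mono (h : Valid c D k σ N) (hc : c.OK) (hN : N' ≤ N) : Valid c D k σ N' := by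
  have h1 : (N' : ℝ) ≤ N := Nat.cast_le.2 hN
  have h2 : Bohr σ.Θ σ.δ N' ⊆ Bohr σ.Θ σ.δ N := Bohr_mono subset_rfl le_rfl h1
  have h3 := zero_le_one.trans (rval_T hc)
  exact ⟨h.δ_le, h.δ_ge, h.card_Θ, h2.trans h.sub, h.Dl_sub, h.Dl_dis,
    fun l hl v hv w hw => h.Dl_triv l hl v (h2 hv) w (h2 hw), h.DΘ_sub, h.DΘ_dis,
    fun ψ hψ => le_trans (by gcongr) (h.DΘ_tiny ψ hψ)⟩

/-- `exp 3 ≥ 10`. -/
theorem valid_init (hc : c.OK) (hD : Fit c D k) (hN : (N : ℝ) ≤ D.N / 10) :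
    Valid c D k ⟨D.Θ, D.δ / 10, ∅, ∅⟩ N := by
  refine ⟨by linarith [hD.hδ1], ?_, by simpa using hD.hΘ, Bohr_mono subset_rfl le_rfl hN,
    empty_subset _, by simp, by simp, empty_subset _, by simp, by simp⟩
  have h1 : 10 ≤ exp 3 := le_trans (by norm_num [sum_range_succ, Nat.factorial])
    (sum_le_exp_of_nonneg (x := 3) (by norm_num) 4)
  show exp (-(c.X + 3 + 13 * c.E * ((0 : ℕ) : ℝ))) ≤ D.δ / 10
  rw [Nat.cast_zero, mul_zero, add_zero, neg_add', exp_sub]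
  exact div_le_div₀ hD.ok.1 hD.hδ (by norm_num) h1

theorem Valid.δ_pos (h : Valid c D k σ N) : 0 < σ.δ := by
  exact (exp_pos _).trans_le h.δ_ge

/-- `card_dissoc_le`. -/
theorem Valid.card_Dl (h : Valid c D k σ N) (hc : c.OK) (hD : Fit c D k) :
    (σ.Dl.card : ℝ) ≤ c.T₀ := by
  refine (card_dissoc_le h.Dl_dis h.Dl_sub).trans (le_trans ?_ hc.hT₀)
  have h1 := hD.hF
  have h2 := hc.hX
  have h3 : 0 ≤ log (2 * ((14 * k : ℕ) : ℝ) + 1) :=
    log_nonneg (le_add_of_nonneg_left (by positivity))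
  gcongr 8 * ?_ ^ 2 + 3 * ?_ * log ?_
  push_cast
  linarith [hD.hk]

theorem Valid.card_le_r (h : Valid c D k σ N) (hc : c.OK) (hD : Fit c D k) :
    (σ.Θ.card : ℝ) ≤ c.r := by
  linarith [h.card_Θ, hc.hr, mul_le_mul_of_nonneg_left (h.card_Dl hc hD)
    (show 0 ≤ c.E by linarith [hc.hE])]

theorem Valid.exp_Ld_le (h : Valid c D k σ N) (hc : c.OK) (hD : Fit c D k) :
    exp (-c.Ld) ≤ σ.δ := by
  refine (exp_le_exp.2 ?_).trans h.δ_ge
  linarith [hc.hLd, mul_le_mul_of_nonneg_left (h.card_Dl hc hD)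
    (show 0 ≤ c.E by linarith [hc.hE])]

/-- `⌈1 / δ⌉₊ ≤ 2 / δ`. -/
theorem Valid.M_mul_le (h : Valid c D k σ N) : (σ.M c : ℝ) * σ.δ ≤ 2 * c.p := by
  have h0 := h.δ_pos
  have h1 := mul_le_mul_of_nonneg_right (Nat.ceil_lt_add_one (a := 1 / σ.δ) (by positivity)).le
    h0.le
  rw [add_mul, one_div_mul_cancel h0.ne'] at h1
  rw [St.M, Nat.cast_mul, mul_right_comm]
  exact mul_le_mul_of_nonneg_right (by linarith [h.δ_le]) (Nat.cast_nonneg _)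

theorem Valid.M_le (h : Valid c D k σ N) (hc : c.OK) (hD : Fit c D k) :
    (σ.M c : ℝ) ≤ 2 * c.p * exp c.Ld := by
  rw [← div_le_iff₀ (exp_pos _), div_eq_mul_inv, ← exp_neg]
  exact (mul_le_mul_of_nonneg_left (h.exp_Ld_le hc hD) (Nat.cast_nonneg _)).trans h.M_mul_le

/-- `card_dissoc_le`, `16 M + 1 ≤ (32 p + 1) exp Ld`. -/
theorem Valid.card_DΘ (h : Valid c D k σ N) (hc : c.OK) (hD : Fit c D k) :
    (σ.DΘ.card : ℝ) ≤ c.T₁ := by
  refine (card_dissoc_le h.DΘ_dis h.DΘ_sub).trans (le_trans ?_ hc.hT₁)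
  have h1 := h.card_le_r hc hD
  have h2 := rval_r hc
  have h3 : 0 ≤ log (2 * ((8 * σ.M c : ℕ) : ℝ) + 1) :=
    log_nonneg (le_add_of_nonneg_left (by positivity))
  gcongr
  rw [log_le_iff_le_exp (by positivity), exp_add, exp_log (by positivity)]
  push_cast
  linarith [h.M_le hc hD, one_le_exp (rval_Ld hc)]

theorem Valid.rank_le (h : Valid c D k σ N) (hc : c.OK) (hD : Fit c D k) :
    σ.rank c ≤ ⌊c.T₀⌋₊ * (⌊c.T₁⌋₊ + 1) + ⌊c.T₁⌋₊ := by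
  exact Nat.add_le_add (Nat.mul_le_mul_right _ (Nat.le_floor (h.card_Dl hc hD)))
    (Nat.le_floor (h.card_DΘ hc hD))

theorem Pm.OK.one_le_T₁ (hc : c.OK) : 1 ≤ c.T₁ := by
  exact rval_T hc

theorem Pm.OK.cube_le (hc : c.OK) : ((2 : ℝ) ^ c.g) ^ 3 ≤ 2 ^ c.w := by
  exact ((pow_le_pow_right₀ (one_le_pow₀ one_le_two) (by norm_num)).trans
    (le_mul_of_one_le_right (by positivity) hc.one_le_T₁)).trans hc.hw₂

/-- From `hw₁` and `hXE`. -/
theorem Pm.OK.ten_le (hc : c.OK) : 10 * exp c.X ≤ 2 ^ c.w := by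
  refine le_trans (mul_le_mul ?_ (exp_le_exp.2 ?_) (exp_pos _).le (by positivity)) hc.hw₁
  · linarith [one_le_pow₀ (M₀ := ℝ) (n := c.g) one_le_two]
  · linarith [hc.hXE, hc.hX]

end Pool.Agent.TR
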