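import Pool.Agent.Lib.MP_cc859a_an.TR.RCl
import Pool.Agent.Lib.MP_cc859a_an.TR.RJump

open Finset Real
open scoped BigOperators ComplexConjugate

namespace Pool.Agent.TR

theorem ranges_atom {D : Data} {k : ℕ} {η s : ℝ} {a : Atom} (h : IsAtom D k η a) (hs : η ≤ s) :
    IsAtom D k s a :=
  ⟨h.norm_le, h.mem, h.lab, h.lin, fun y hy u hu => (h.val y hy u hu).trans hs⟩

theorem ranges_num {X : ℝ} (hX : 2 ≤ X) {q g C m : ℕ} (hq : (q : ℝ) ≤ X) (hg : (g : ℝ) ≤ X ^ C)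
    (hm : m ≤ 5) : ((q * (2 * g + m) : ℕ) : ℝ) ≤ X ^ (C + 4) := by
  have h1 := num_one_le hX C
  have h8 : (8 : ℝ) ≤ X ^ 3 := by
    have := num_two_pow hX 3
    norm_num at this
    exact this
  have hm' : (m : ℝ) ≤ 5 := by exact_mod_cast hm
  have h2 : (2 * g + m : ℝ) ≤ X ^ 3 * X ^ C := by nlinarith
  have h3 : X ^ (C + 4) = X * (X ^ 3 * X ^ C) := by ring
  rw [h3]
  push_cast
  exact mul_le_mul hq h2 (by positivity) (by linarith)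

/-- Paper, section 4: CL, RANGE and JUMP with `s = 1 / (1200 K ^ 2)`. -/
theorem ranges : ∃ C : ℕ, ∀ X : ℝ, 2 ≤ X → ∀ (q k j₀ : ℕ) (D : Data) (K η : ℝ), 1 ≤ q →
    (q : ℝ) ≤ X → D.OK → (D.Θ.card : ℝ) ≤ X → (D.F.card : ℝ) ≤ X → (k : ℝ) ≤ X →
    exp (-X) ≤ D.δ → D.δ ≤ 1 → D.δ * NN q j₀ ≤ D.N → 2 ≤ K → 1200 * K ^ 2 ≤ exp X →
    1200 * K ^ 2 * η ≤ 1 → 1200 * K ^ 2 * (14 * k * D.F.card * D.ε) ≤ 1 →
    ∃ J : Finset ℕ, (J.card : ℝ) ≤ X ^ C ∧ ∀ a b : ℕ, a ≤ b → b ≤ j₀ →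
      (∀ j ∈ J, j < a ∨ b < j) → ∀ Δ : ℕ → ℤ → ℂ, IsTri D k η K q Δ → ∀ h : ℝ, 1 / K ≤ h →
        (∀ ρ : ℝ, ρ * K ^ 30 * X ^ C ≤ 1 → RangeP D.Bad q a b K h ρ Δ) ∧
        ∀ n : ℕ, K ^ 2 * X ^ C ≤ n → JumpP D.Bad q a b n K h Δ := by
  obtain ⟨C, hC⟩ := cl
  refine ⟨2 * C + 104, fun X hX q k j₀ D K η hq hqX hD hΘ hF hk hδ hδ1 hN hK hKX hη hε => ?_⟩
  have hK0 : 0 < 1200 * K ^ 2 := by positivity
  have hs1 : exp (-X) ≤ 1 / (1200 * K ^ 2) := by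
    rw [exp_neg, one_div]
    exact inv_anti₀ hK0 hKX
  have hs2 : 1 / (1200 * K ^ 2) ≤ 1 / 200 :=
    one_div_le_one_div_of_le (by norm_num) (by nlinarith)
  obtain ⟨g, J, hg, hJ, hR⟩ := hC X hX q k j₀ D _ hq hqX hD hΘ hF hk hδ hδ1 hN hs1 hs2
  refine ⟨J, hJ.trans (num_mono hX (by omega)), fun a b hab hb hJ' Δ hΔ h hh => ?_⟩
  obtain ⟨R⟩ := hR a b hab hb hJ'
  obtain ⟨ι, _, τ, hι, hτ, hΔ⟩ := hΔ
  have hA : ∀ i, Adm D k (1 / (1200 * K ^ 2)) (τ i) := fun i =>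
    ⟨hD, by rw [le_div_iff₀ hK0]; linarith, fun σ => ranges_atom (hτ i σ)
      (by rw [le_div_iff₀ hK0]; linarith)⟩
  obtain rfl : Δ = fun j x => ∑ i, At (NN q j) (τ i) x := by
    funext j x
    exact hΔ j x
  have hX0 : 0 < X := by linarith
  refine ⟨fun ρ hρ => R.rangeP hq hab hK hA hι hh ?_, fun n hn => R.jump hq hab hK hA hι hh ?_⟩
  · have h1 := ranges_num hX hqX hg (le_refl 5)
    have h2 : (2 : ℝ) ^ 96 * ((q * (2 * g + 5) : ℕ) : ℝ) ^ 2 ≤ X ^ (2 * C + 104) := by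
      have h3 : X ^ (2 * C + 104) = X ^ 96 * (X ^ (C + 4)) ^ 2 := by ring
      rw [h3]
      exact mul_le_mul (num_two_pow hX 96) (pow_le_pow_left₀ (by positivity) h1 2)
        (by positivity) (by positivity)
    rcases le_total ρ 0 with h0 | h0
    · have : ρ * K ^ 30 * (2 ^ 96 * ((q * (2 * g + 5) : ℕ) : ℝ) ^ 2) ≤ 0 :=
        mul_nonpos_of_nonpos_of_nonneg (mul_nonpos_of_nonpos_of_nonneg h0 (by positivity))
          (by positivity)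
      linarith
    · exact (mul_le_mul_of_nonneg_left h2 (by positivity)).trans hρ
  · have h1 := ranges_num hX hqX hg (m := 1) (by norm_num)
    have h2 : (33 : ℝ) * ((q * (2 * g + 1) : ℕ) : ℝ) ≤ X ^ (2 * C + 104) := by
      have h3 : (33 : ℝ) ≤ X ^ 6 := le_trans (by norm_num) (num_two_pow hX 6)
      exact (num_mul hX h3 h1 (by positivity)).trans (num_mono hX (by omega))
    exact (mul_le_mul_of_nonneg_left h2 (by positivity)).trans hn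

end Pool.Agent.TR
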