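import Pool.Agent.Lib.MP_cc859a_an.TR.PotB
import Pool.Agent.Lib.MP_cc859a_an.TR.Lists

open Finset Real
open scoped BigOperators ComplexConjugate

namespace Pool.Agent.TR

theorem syse_num {Z : ℝ} (hZ : 2 ≤ Z) (n : ℕ) : ∃ m d : ℕ, 1 ≤ m ∧ 1 ≤ d ∧ 13 * Z ^ n ≤ m ∧
    (m : ℝ) / √d ≤ 1 / Z ∧ (4 * m + 2 : ℝ) * d ≤ Z ^ (3 * n + 18) := by
  have h1 : 1 ≤ Z ^ n := one_le_pow₀ (by linarith)
  have h2 := Nat.le_ceil (13 * Z ^ n)
  have h3 := (Nat.ceil_lt_add_one (show 0 ≤ 13 * Z ^ n by positivity)).le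
  generalize ⌈13 * Z ^ n⌉₊ = m at h2 h3
  have h4 := Nat.le_ceil ((m * Z) ^ 2)
  have h5 := (Nat.ceil_lt_add_one (show 0 ≤ (m * Z) ^ 2 by positivity)).le
  generalize ⌈(m * Z) ^ 2⌉₊ = d at h4 h5
  have h6 : (1 : ℝ) ≤ m := by linarith
  have h7 : 1 ≤ (m * Z) ^ 2 := one_le_pow₀ (by nlinarith)
  refine ⟨m, d, by exact_mod_cast h6, by exact_mod_cast h7.trans h4, h2, ?_, ?_⟩
  · rw [div_le_div_iff₀ (sqrt_pos.2 (by linarith)) (by linarith), one_mul]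
    exact le_sqrt_of_sq_le h4
  · calc (4 * m + 2 : ℝ) * d ≤ 6 * m * (2 * (m * Z) ^ 2) := by gcongr <;> linarith
      _ ≤ 6 * (14 * Z ^ n) * (2 * (14 * Z ^ n * Z) ^ 2) := by gcongr <;> linarith
      _ = 32928 * Z ^ (3 * n + 2) := by ring
      _ ≤ 2 ^ 16 * Z ^ (3 * n + 2) := by gcongr; norm_num
      _ ≤ Z ^ 16 * Z ^ (3 * n + 2) := by gcongr
      _ = _ := by ring

/-- `m = ⌈13 Z ^ (C₀ + 1)⌉`, `d = ⌈(m Z) ^ 2⌉`, `G S σ y = bern m d (sfun c p S σ y)`; on the enlarged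
interval `|G - clip| ≤ m / √d ≤ 1 / Z` (`sfun_Lst`, `abs_sfun_le`, `bern_approx`), so the averages
differ by `3 / Z` (`Av_sub_le`); `(4 m + 2) ^ d ≤ exp ((4 m + 2) d)`. -/
theorem sys_exists : ∃ B C : ℕ, 1 ≤ B ∧ 1 ≤ C ∧ ∀ Z X : ℝ, 2 ≤ Z → Z ≤ X →
    ∀ (q K : ℕ) (f : Fin 3 → ℤ → ℝ), 1 ≤ q → (∀ σ y, |f σ y| ≤ 1) →
      Nonempty (Sys q K f Z X (X ^ C) (Z ^ B)) := by
  obtain ⟨C, hC⟩ := pot_exists
  refine ⟨3 * (C + 1) + 18, C + 1, by omega, by omega, fun Z X hZ hX q K f hq hf => ?_⟩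
  obtain ⟨ι, _, p, c, c0, c1, hp, hs, ha⟩ := hC Z X hZ hX q K f hq hf
  obtain ⟨m, d, hm, hd, h1, h2, h3⟩ := syse_num hZ (C + 1)
  have hm' : (1 : ℝ) ≤ m := by exact_mod_cast hm
  have hd' : (1 : ℝ) ≤ d := by exact_mod_cast hd
  refine ⟨{
    ι := ι
    p := p
    m := m
    d := d
    G := fun S σ y => (bern m d (sfun c p S σ y) : ℂ)
    ok := fun r => (hp r).mono le_rfl (pow_le_pow_right₀ (by linarith) C.le_succ)
    sum_le := ?_
    m_pos := hm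
    m_le := by nlinarith
    d_le := by nlinarith
    approx := fun j hj x₀ hx hc => ?_
    isSum := fun S hS D k η hη h σ =>
      (bern_isSum c0 c1 hm hS d hη h σ).mono le_rfl le_rfl ?_ }⟩
  · calc 13 * Z * ∑ r, (LL q (p r).j : ℝ) ≤ 13 * Z * (Z ^ C * LL q K) := by gcongr
      _ = 13 * Z ^ (C + 1) * LL q K := by ring
      _ ≤ _ := by gcongr
  · refine le_trans (Nat.cast_le.2 (card_le_card fun x hx => ?_)) (ha j hj x₀ hx)
    rw [mem_filter] at hx ⊢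
    refine ⟨hx.1, ?_⟩
    have k1 : ∀ σ y, |sfun c p (Lst q p j x₀) σ y| ≤ m := fun σ y =>
      (abs_sfun_le c0 c1 (fun r _ => (hp r).atom.norm_le) σ y).trans (Nat.cast_le.2 hc)
    have k2 := Av_sub_le (NN_le hq) hx.1
      (u := cx fun σ y => clip (sfun c p (univ.filter fun r => j ≤ (p r).j) σ y))
      (u' := fun σ y => (bern m d (sfun c p (Lst q p j x₀) σ y) : ℂ))
      (fun σ y => by rw [cx, Complex.norm_real]; exact abs_clip_le _)
      (fun σ y => by rw [Complex.norm_real]; exact abs_bern_le hm (k1 σ y))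
      (c := 1 / Z) (by positivity) fun σ y hy => by
        rw [cx, ← Complex.ofReal_sub, Complex.norm_real, Real.norm_eq_abs, abs_sub_comm,
          sfun_Lst hq (fun r => (hp r).supp) c σ hy]
        exact (bern_approx hm hd (k1 σ y)).trans h2
    have k3 := hx.2.trans_le (norm_sub_le_norm_sub_add_norm_sub _ (Av (NN q j)
      (cx fun σ y => clip (sfun c p (univ.filter fun r => j ≤ (p r).j) σ y)) x) _)
    have k4 : 6 / Z = 3 / Z + 3 * (1 / Z) := by ring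
    linarith
  · refine le_trans ?_ (exp_le_exp.2 h3)
    rw [mul_comm _ (d : ℝ), exp_nat_mul]
    exact pow_le_pow_left₀ (by positivity) (by linarith [add_one_le_exp (4 * m + 2 : ℝ)]) d

end Pool.Agent.TR
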