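import Pool.Agent.Lib.MP_cc859a_an.TR.FT

open Finset MeasureTheory Filter Topology
open scoped BigOperators

namespace Pool.Agent.TR

theorem trans_iff (f : ℕ → ℂ) (K N : ℕ) (ε : ℝ) : JumpsIn f 0 K N ε ↔
    ∃ v : Fin (N + 1) → ℕ, v (Fin.last N) ≤ K ∧
      ∀ i : Fin N, v i.castSucc < v i.succ ∧ ε ≤ ‖f (v i.succ) - f (v i.castSucc)‖ := by
  constructor
  · rintro ⟨j, -, h1, h2⟩
    exact ⟨fun i => j i, h1, fun i => h2 i i.2⟩
  · rintro ⟨v, h1, h2⟩
    refine ⟨fun i => if h : i < N + 1 then v ⟨i, h⟩ else 0, Nat.zero_le _, ?_, fun i hi => ?_⟩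
    · simp only [dif_pos (Nat.lt_succ_self N)]
      exact h1
    · simp only [dif_pos (Nat.lt_succ_of_lt hi), dif_pos (Nat.succ_lt_succ hi)]
      exact h2 ⟨i, hi⟩

theorem trans_meas {X : Type*} [MeasurableSpace X] {F : X → ℕ → ℂ}
    (hF : ∀ j, Measurable fun x => F x j) (K N : ℕ) (ε : ℝ) :
    MeasurableSet {x | JumpsIn (F x) 0 K N ε} := by
  simp only [trans_iff]
  refine measurableSet_setOfPred.2 (Measurable.exists fun v => measurable_const.and
    (Measurable.forall fun i => measurable_const.and ?_))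
  exact measurableSet_setOfPred.1 (measurableSet_le measurable_const ((hF _).sub (hF _)).norm)

theorem trans_count {X : Type*} [MeasurableSpace X] (μ : Measure X) [IsProbabilityMeasure μ]
    {S : X → X} (hS : MeasurePreserving S μ μ) {A : Set X} (hA : MeasurableSet A) (I : Finset ℤ)
    {c : ℝ} [∀ x y, Decidable (S^[Int.toNat y] x ∈ A)]
    (h : ∀ x, ((I.filter fun y => S^[y.toNat] x ∈ A).card : ℝ) ≤ c) :
    I.card * μ.real A ≤ c := by
  have hm : ∀ y : ℤ, MeasurableSet (S^[y.toNat] ⁻¹' A) := fun y => (hS.iterate _).measurable hA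
  have hi : ∀ y ∈ I, Integrable ((S^[y.toNat] ⁻¹' A).indicator (1 : X → ℝ)) μ := fun y _ =>
    (integrable_const (1 : ℝ)).indicator (hm y)
  have h1 : ∫ x, ∑ y ∈ I, (S^[y.toNat] ⁻¹' A).indicator (1 : X → ℝ) x ∂μ = I.card * μ.real A := by
    rw [integral_finsetSum _ hi, Finset.sum_congr rfl fun y _ =>
      (integral_indicator_one (hm y)).trans
        ((hS.iterate y.toNat).measureReal_preimage hA.nullMeasurableSet),
      Finset.sum_const, nsmul_eq_mul]
  rw [← h1]
  refine (integral_mono (integrable_finsetSum _ hi) (integrable_const c) fun x => ?_).trans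
    (by simp)
  refine le_trans (le_of_eq ?_) (h x)
  rw [Finset.card_filter, Nat.cast_sum]
  refine Finset.sum_congr rfl fun y _ => ?_
  by_cases hy : S^[y.toNat] x ∈ A <;> simp [hy]

theorem trans_av {X : Type*} (S : X → X) (g : Fin 3 → X → ℝ) (x : X) (N : ℕ) {y : ℤ} (hy : 0 ≤ y) :
    Av N (cx fun σ z => g σ (S^[z.toNat] x)) y = (1 / (N : ℂ)) * ∑ n ∈ Icc 1 N,
      (g 0 (S^[n] (S^[y.toNat] x)) : ℂ) * g 1 (S^[2 * n] (S^[y.toNat] x)) *
        g 2 (S^[3 * n] (S^[y.toNat] x)) := by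
  rw [Av, Finset.expect_eq_sum_div_card, Int.card_Icc, one_div, ← div_eq_inv_mul]
  congr 1
  · symm
    refine Finset.sum_nbij' (fun n => (n : ℤ)) Int.toNat (fun n hn => ?_) (fun n hn => ?_)
      (fun n _ => ?_) (fun n hn => ?_) fun n _ => ?_
    · simp only [Finset.mem_Icc] at hn ⊢
      omega
    · simp only [Finset.mem_Icc] at hn ⊢
      omega
    · simp
    · simp only [Finset.mem_Icc] at hn
      omega
    · simp only [cx, ← Function.iterate_add_apply]
      rw [show (y + n).toNat = n + y.toNat by omega,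
        show (y + 2 * n).toNat = 2 * n + y.toNat by omega,
        show (y + 3 * n).toNat = 3 * n + y.toNat by omega]
  · simp

/-- Transference. The set `A N K` of `x` with `N` jumps below `K` is measurable (only the values of
`j` on `Fin (N + 1)` matter, a countable choice). With `f σ y = g σ (S^[y.toNat] x)`, `finite_thm`
says that at most `μ₀ L` of the points `S^[y] x`, `y < L`, lie in `A N K`; integrate:
`μ (A N K) ≤ μ₀`. The sets increase with `K`, so the union has measure `≤ μ₀`; let `μ₀ → 0`. -/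
theorem ae_jumps {X : Type*} [MeasurableSpace X] (μ : Measure X) [IsProbabilityMeasure μ]
    {S : X → X} (hS : MeasurePreserving S μ μ) (g : Fin 3 → X → ℝ) (hg : ∀ σ, Measurable (g σ))
    (hg1 : ∀ σ x, |g σ x| ≤ 1) (q : ℕ) (hq : 1 ≤ q) {ε : ℝ} (hε : 0 < ε) :
    ∀ᵐ x ∂μ, ∃ N : ℕ, ∀ K : ℕ, ¬ JumpsIn (fun j => (1 / (NN q j : ℂ)) * ∑ n ∈ Icc 1 (NN q j),
      (g 0 (S^[n] x) : ℂ) * g 1 (S^[2 * n] x) * g 2 (S^[3 * n] x)) 0 K N ε := by
  classical
  set F : X → ℕ → ℂ := fun x j => (1 / (NN q j : ℂ)) * ∑ n ∈ Icc 1 (NN q j),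
    (g 0 (S^[n] x) : ℂ) * g 1 (S^[2 * n] x) * g 2 (S^[3 * n] x) with hF
  have hm : ∀ σ n, Measurable fun x => (g σ (S^[n] x) : ℂ) := fun σ n =>
    Complex.measurable_ofReal.comp ((hg σ).comp (hS.iterate n).measurable)
  have hFm : ∀ j, Measurable fun x => F x j := fun j =>
    measurable_const.mul (Finset.measurable_sum _ fun n _ =>
      ((hm 0 n).mul (hm 1 (2 * n))).mul (hm 2 (3 * n)))
  change ∀ᵐ x ∂μ, ∃ N : ℕ, ∀ K : ℕ, ¬ JumpsIn (F x) 0 K N ε
  rw [ae_iff]
  refine le_antisymm (ENNReal.le_of_forall_pos_le_add fun m hm0 _ => ?_) zero_le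
  obtain ⟨N, hN⟩ := finite_thm q hq hε (μ := m) hm0
  have h1 : ∀ K, μ {x | JumpsIn (F x) 0 K N ε} ≤ m := fun K => by
    have hL : (0 : ℝ) < LL q K := by
      unfold LL
      positivity
    have h2 := trans_count μ hS (trans_meas hFm K N ε) (node (LL q K) 0) (c := m * LL q K)
      fun x => le_trans (le_of_eq (congrArg _ (congrArg _ (Finset.filter_congr fun y hy => by
        have h3 : 0 ≤ y := by simpa using (Finset.mem_Ico.1 hy).1
        simp only [trans_av S g x _ h3]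
        rfl)))) (hN K (fun σ z => g σ (S^[z.toNat] x)) fun σ z => hg1 σ _)
    have h4 : ((node (LL q K) 0).card : ℝ) = LL q K := by simp [node]
    rw [h4, mul_comm] at h2
    rw [← ENNReal.ofReal_coe_nnreal]
    exact (ENNReal.le_ofReal_iff_toReal_le (measure_ne_top μ _) m.2).2
      (le_of_mul_le_mul_right h2 hL)
  have h5 : Monotone fun K => {x | JumpsIn (F x) 0 K N ε} := fun K K' h x ⟨j, a, b, c⟩ =>
    ⟨j, a, b.trans h, c⟩
  rw [zero_add]
  refine (measure_mono (t := ⋃ K, {x | JumpsIn (F x) 0 K N ε}) fun x hx => ?_).trans ?_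
  · by_contra h6
    exact hx ⟨N, fun K h7 => h6 (Set.mem_iUnion.2 ⟨K, h7⟩)⟩
  · rw [h5.measure_iUnion]
    exact iSup_le h1

end Pool.Agent.TR
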