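import Pool.Agent.Lib.MP_cc859a_an.TR.TreeS
import Pool.Agent.Lib.MP_cc859a_an.TR.Marks

open Finset Real
open scoped BigOperators ComplexConjugate

namespace Pool.Agent.TR

open Classical in
/-- The points of a node with a bump at scale `j` and the list `S`. -/
noncomputable def treea_B {ι : Type} [Fintype ι] (q : ℕ) (p : ι → Pc) (h : ℝ)
    (Δ : Finset ι → ℕ → ℤ → ℂ) (S : Finset ι) (b : ℕ) (i : ℤ) (j : ℕ) : Finset ℤ :=
  (node (LL q b) i).filter fun x => j ≤ b ∧ Lst q p j x = S ∧ h < ‖Δ S j x‖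

open Classical in
/-- The points of a node with a bump at scales of their own. -/
noncomputable def treea_Z {ι : Type} [Fintype ι] (q : ℕ) (p : ι → Pc) (h : ℝ)
    (Δ : Finset ι → ℕ → ℤ → ℂ) (S : Finset ι) (J₀ : Finset ℕ) (b : ℕ) (i : ℤ) : Finset ℤ :=
  (node (LL q b) i).filter fun x => b ∉ J₀ ∧ ∃ k k', (∀ j ∈ J₀, j < k ∨ b < j) ∧ k < k' ∧
    k' ≤ b ∧ 2 * h ≤ ‖Δ S k x - Δ S k' x‖ ∧ ∀ j, k ≤ j → j < k' → x ∈ treea_B q p h Δ S b i j

theorem treea_mem_B {ι : Type} [Fintype ι] {q : ℕ} {p : ι → Pc} {h : ℝ}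
    {Δ : Finset ι → ℕ → ℤ → ℂ} {S : Finset ι} {b : ℕ} {i : ℤ} {j : ℕ} {x : ℤ} :
    x ∈ treea_B q p h Δ S b i j ↔
      x ∈ node (LL q b) i ∧ j ≤ b ∧ Lst q p j x = S ∧ h < ‖Δ S j x‖ := by
  classical
  exact mem_filter

theorem treea_rep {ι : Type} [Fintype ι] {q : ℕ} (hq : 1 ≤ q) (p : ι → Pc) (b : ℕ) (x : ℤ) :
    Lst q p b (x / LL q b * LL q b) = Lst q p b x := by
  refine Lst_congr hq (Int.mul_ediv_cancel _ ?_)
  exact_mod_cast (LL_pos (j := b) hq).ne'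

open Classical in
theorem treea_card_B {ι : Type} [Fintype ι] {q K m : ℕ} {p : ι → Pc} {h ρ : ℝ}
    {Δ : Finset ι → ℕ → ℤ → ℂ} (hq : 1 ≤ q) (hρ : 0 ≤ ρ)
    (hd : ∀ j ≤ K, ∀ x₀ ∈ node (LL q K) 0, (Lst q p j x₀).card ≤ m →
      (((node (LL q j) (x₀ / LL q j)).filter fun x => h < ‖Δ (Lst q p j x₀) j x‖).card : ℝ) ≤
        ρ * LL q j) {b : ℕ} (hb : b ≤ K) {x : ℤ} (hx : x ∈ node (LL q K) 0) {S : Finset ι}
    (hS : S.card ≤ m) (j : ℕ) :
    ((treea_B q p h Δ S b (x / LL q b) j).card : ℝ) ≤ ρ * LL q b := by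
  by_cases hj : j ≤ b
  · refine card_le_of_nodes hq hj (fun y hy => (treea_mem_B.1 hy).1) hρ fun y hy => ?_
    obtain ⟨h1, -, h2, -⟩ := treea_mem_B.1 hy
    have hy0 : y ∈ node (LL q K) 0 := by
      rw [mem_node (LL_pos hq)] at h1 hx ⊢
      rw [div_eq_of_div_eq hq hb h1, hx]
    refine le_trans ?_ (hd j (hj.trans hb) y hy0 (h2 ▸ hS))
    refine Nat.cast_le.2 (card_le_card fun z hz => ?_)
    rw [mem_inter] at hz
    rw [mem_filter, h2]
    exact ⟨hz.2, (treea_mem_B.1 hz.1).2.2.2⟩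
  · have : treea_B q p h Δ S b (x / LL q b) j = ∅ :=
      eq_empty_of_forall_notMem fun y hy => hj (treea_mem_B.1 hy).2.1
    rw [this, card_empty, Nat.cast_zero]
    positivity

open Classical in
theorem treea_card_Z {ι : Type} [Fintype ι] {q K m : ℕ} {p : ι → Pc} {R Kk h ρ : ℝ}
    {Δ : Finset ι → ℕ → ℤ → ℂ} {J : Finset ι → Finset ℕ} (hK : 2 ≤ Kk)
    (hJ : GoodJ q K p m R Kk Δ J) (hh : 1 / Kk ≤ h) (hρ' : ρ * Kk ^ 30 * R ≤ 1)
    {b : ℕ} (hb : b ≤ K) {i : ℤ} {S : Finset ι} (hS : S.card ≤ m) (hSb : ∀ r ∈ S, b ≤ (p r).j)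
    (hB : ∀ j, ((treea_B q p h Δ S b i j).card : ℝ) ≤ ρ * LL q b) :
    ((treea_Z q p h Δ S (J S) b i).card : ℝ) ≤ LL q b / Kk +
      3 * ((node (LL q b) i).filter fun x => ¬ NZ (allBad p) (1 / (1200 * Kk ^ 2)) x).card := by
  by_cases hbJ : b ∈ J S
  · have : treea_Z q p h Δ S (J S) b i = ∅ :=
      eq_empty_of_forall_notMem fun y hy => (mem_filter.1 hy).2.1 hbJ
    rw [this, card_empty, Nat.cast_zero]
    positivity
  obtain ⟨a, hab, ha, ha'⟩ := exists_bottom (J S) b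
  refine ((hJ S hS).2 a b hab hb hSb (ha hbJ) h hh).1 ρ hρ' i _ hB _ (filter_subset _ _)
    fun x hx => ?_
  obtain ⟨-, -, k, k', h1, h2, h3, h4, h5⟩ := mem_filter.1 hx
  exact ⟨k, k', ha' k (h2.le.trans h3) h1, h2, h3, h4, h5⟩

open Classical in
theorem treea_mem {ι : Type} [Fintype ι] {q : ℕ} {p : ι → Pc} {h : ℝ}
    {Δ : Finset ι → ℕ → ℤ → ℂ} (hq : 1 ≤ q) (hh : 0 < h) {J₀ : Finset ℕ} {k b : ℕ} {x : ℤ}
    (hkb : k ≤ b) (hl : ∀ j, k ≤ j → j ≤ b → Lst q p j x = Lst q p b x)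
    (hJ : k < b → ∀ j ∈ J₀, j < k ∨ b < j) (hx : 3 * h ≤ ‖Δ (Lst q p k x) k x‖) :
    x ∈ treea_B q p h Δ (Lst q p b x) b (x / LL q b) b ∪
      treea_Z q p h Δ (Lst q p b x) J₀ b (x / LL q b) := by
  have hn : x ∈ node (LL q b) (x / LL q b) := (mem_node (LL_pos hq)).2 rfl
  rw [hl k le_rfl hkb] at hx
  have hk : x ∈ treea_B q p h Δ (Lst q p b x) b (x / LL q b) k :=
    treea_mem_B.2 ⟨hn, hkb, hl k le_rfl hkb, by linarith⟩
  rw [mem_union]
  refine or_iff_not_imp_left.2 fun hb => ?_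
  have hlt : k < b := lt_of_le_of_ne hkb fun e => hb (e ▸ hk)
  have hex : ∃ j, k < j ∧ x ∉ treea_B q p h Δ (Lst q p b x) b (x / LL q b) j := ⟨b, hlt, hb⟩
  have h1 := Nat.find_spec hex
  have h2 : Nat.find hex ≤ b := Nat.find_min' hex ⟨hlt, hb⟩
  refine mem_filter.2 ⟨hn, fun hbJ => ?_, k, Nat.find hex, hJ hlt, h1.1, h2, ?_, fun j h3 h4 => ?_⟩
  · rcases hJ hlt b hbJ with h3 | h3 <;> omega
  · have h3 : ‖Δ (Lst q p b x) (Nat.find hex) x‖ ≤ h :=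
      not_lt.1 fun h4 => h1.2 (treea_mem_B.2 ⟨hn, h2, hl _ h1.1.le h2, h4⟩)
    have h4 := norm_sub_norm_le (Δ (Lst q p b x) k x) (Δ (Lst q p b x) (Nat.find hex) x)
    linarith
  · rcases h3.eq_or_lt with rfl | h5
    · exact hk
    · by_contra h6
      exact Nat.find_min hex h4 ⟨h5, h6⟩

open Classical in
/-- `sum_marked` with `Mk b x = (|Lst b x| ≤ m ∧ Marked K (Lst · x) J b)` (`Lst_congr`,
`div_eq_of_div_eq`, `card_marked`). For a marked node of scale `b` with list `S` let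
`B j = {x ∈ node | j ≤ b, Lst j x = S, h < ‖Δ S j x‖}` (`card_le_of_nodes` gives `|B j| ≤ ρ L_b`), `a`
from `exists_bottom (J S) b`, and `Exc = B b ∪ Z` with `Z` the set of `RangeP` (empty if `b ∈ J S`).
For `x` with `3 h ≤ ‖Δ (Lst k x) k x‖` take `b` from `exists_top`; if `x ∉ B b` then `k < b`, and
`k'` is the least scale in `(k, b]` with `x ∉ B k'`. -/
theorem treeA {ι : Type} [Fintype ι] {q K m : ℕ} {p : ι → Pc} {R Kk h ρ : ℝ}
    {Δ : Finset ι → ℕ → ℤ → ℂ} {J : Finset ι → Finset ℕ} (hq : 1 ≤ q) (hK : 2 ≤ Kk)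
    (hJ : GoodJ q K p m R Kk Δ J) (hh : 1 / Kk ≤ h) (hρ : 0 ≤ ρ) (hρ' : ρ * Kk ^ 30 * R ≤ 1)
    (hd : ∀ j ≤ K, ∀ x₀ ∈ node (LL q K) 0, (Lst q p j x₀).card ≤ m →
      (((node (LL q j) (x₀ / LL q j)).filter fun x => h < ‖Δ (Lst q p j x₀) j x‖).card : ℝ) ≤
        ρ * LL q j) :
    (((node (LL q K) 0).filter fun x => (Lst q p 0 x).card ≤ m ∧
      ∃ j ≤ K, 3 * h ≤ ‖Δ (Lst q p j x) j x‖).card : ℝ) ≤
      ((m + 1) * (2 * R + 1) + 1) *
        ((ρ + 1 / Kk) * LL q K + 21600 * Kk ^ 2 * (allBad p).card) := by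
  have hK0 : 0 < Kk := by linarith
  have hh0 : 0 < h := lt_of_lt_of_le (by positivity) hh
  have hR : 0 ≤ R := le_trans (Nat.cast_nonneg _) (hJ ∅ (Nat.zero_le _)).1
  have key := sum_marked (K := K) hq
    (fun b x => (Lst q p b x).card ≤ m ∧ Marked K (fun j => Lst q p j x) J b) ?_
    (n := (m + 1) * (2 * R + 1) + 1) (α := ρ + 1 / Kk) (β := 3) (by positivity) (by positivity) ?_
    (fun x => ¬ NZ (allBad p) (1 / (1200 * Kk ^ 2)) x)
    (fun b i => treea_B q p h Δ (Lst q p b (i * LL q b)) b i b ∪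
      treea_Z q p h Δ (Lst q p b (i * LL q b)) (J (Lst q p b (i * LL q b))) b i) ?_
    (Z := (node (LL q K) 0).filter fun x => (Lst q p 0 x).card ≤ m ∧
      ∃ j ≤ K, 3 * h ≤ ‖Δ (Lst q p j x) j x‖) (filter_subset _ _) ?_
  · refine key.trans (mul_le_mul_of_nonneg_left (add_le_add le_rfl ?_) (by positivity))
    have h1 := card_not_NZ (allBad p) (node (LL q K) 0) hK0
    rw [filter_congr_decidable] at h1 ⊢
    linarith
  · intro j x y hxy' hm
    have hxy : (x : ℤ) / LL q j = (y : ℤ) / LL q j := by exact_mod_cast hxy'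
    have h1 : Lst q p j x = Lst q p j y := Lst_congr hq hxy
    have h2 : Lst q p (j + 1) x = Lst q p (j + 1) y :=
      Lst_congr hq (div_eq_of_div_eq hq (Nat.le_succ j) hxy)
    unfold Marked at hm ⊢
    simp only [← h1, ← h2]
    exact hm
  · intro x _
    have h1 := card_marked (K := K) (l := fun j => Lst q p j x) (J := J)
      (fun j j' hj => Lst_anti hj) fun S hS => (hJ S hS).1
    rw [filter_congr_decidable] at h1 ⊢
    exact h1
  · intro b hb x hx hm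
    simp only [treea_rep hq]
    have h1 := treea_card_B hq hρ hd hb hx hm.1
    have h2 := treea_card_Z hK hJ hh hρ' hb hm.1 (fun r hr => (mem_Lst.1 hr).1) h1
    have h3 := (Nat.cast_le (α := ℝ)).2 (card_union_le
      (treea_B q p h Δ (Lst q p b x) b (x / LL q b) b)
      (treea_Z q p h Δ (Lst q p b x) (J (Lst q p b x)) b (x / LL q b)))
    have h4 := h1 b
    rw [filter_congr_decidable] at h2 ⊢
    rw [Nat.cast_add] at h3
    rw [add_mul, one_div_mul_eq_div]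
    linarith
  · intro x hx
    obtain ⟨-, h1, k, hk, h2⟩ := mem_filter.1 hx
    obtain ⟨b, h3, h4, h5, -, h6, h7⟩ := exists_top (l := fun j => Lst q p j x) (J := J) hk
    refine ⟨b, h4, ⟨(card_le_card (Lst_anti (Nat.zero_le b))).trans h1, h5⟩, ?_⟩
    simp only [treea_rep hq]
    exact treea_mem hq hh0 h3 h6 h7 h2

end Pool.Agent.TR
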