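import Pool.Agent.Lib.MP_cc859a_an.TR.Ranges
import Pool.Agent.Lib.MP_cc859a_an.TR.Lists

open Finset Real
open scoped BigOperators ComplexConjugate

namespace Pool.Agent.TR

/-- For each small `S` take `D, j₀` from `merge` and `J S` from `ranges` with degree `d ⌊Y⌋₊` and
error `d exp (-X)`; `choose`. -/
theorem tree_setup : ∃ C : ℕ, ∀ X₁ : ℝ, 2 ≤ X₁ → ∀ (ι : Type) [Fintype ι] (q K m d : ℕ)
    (p : ι → Pc) (X Y Kk : ℝ) (Δ : Finset ι → ℕ → ℤ → ℂ), 1 ≤ q → (q : ℝ) ≤ X₁ → 0 ≤ Y →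
    (∀ r, PcOK q K X Y (p r)) → Y ≤ X₁ → m * Y ≤ X₁ → d * Y ≤ X₁ → 2 ≤ Kk →
    1200 * Kk ^ 2 ≤ exp X₁ → 1200 * Kk ^ 2 * (d * exp (-X)) ≤ 1 →
    1200 * Kk ^ 2 * (14 * X₁ ^ 2 * exp (-X)) ≤ 1 →
    (∀ S : Finset ι, S.card ≤ m → ∀ (D : Data) (k : ℕ) (η : ℝ), 0 ≤ η →
      (∀ r ∈ S, IsAtom D k η (p r).a) → IsTri D (d * k) (d * η) Kk q (Δ S)) →
    ∃ J : Finset ι → Finset ℕ, GoodJ q K p m (X₁ ^ C) Kk Δ J := by
  obtain ⟨C, hC⟩ := ranges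
  refine ⟨C, fun X₁ hX ι _ q K m d p X Y Kk Δ hq hqX hY hp hYX hm hd hK h1 h2 h3 hΔ => ?_⟩
  have key : ∀ S : Finset ι, ∃ J : Finset ℕ, S.card ≤ m → (J.card : ℝ) ≤ X₁ ^ C ∧
      ∀ a b : ℕ, a ≤ b → b ≤ K → (∀ r ∈ S, b ≤ (p r).j) → (∀ j ∈ J, j < a ∨ b < j) →
        ∀ h : ℝ, 1 / Kk ≤ h →
          (∀ ρ : ℝ, ρ * Kk ^ 30 * X₁ ^ C ≤ 1 → RangeP (allBad p) q a b Kk h ρ (Δ S)) ∧
          ∀ n : ℕ, Kk ^ 2 * X₁ ^ C ≤ n → JumpP (allBad p) q a b n Kk h (Δ S) := by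
    intro S
    by_cases hS : S.card ≤ m
    swap
    · exact ⟨∅, fun h => absurd h hS⟩
    obtain ⟨D, j₀, hD, hΘ, hF, hδ, hN, hε, hB, hA, hj⟩ := merge hq hY hp S
    have hSm : (S.card : ℝ) * Y ≤ X₁ :=
      (mul_le_mul_of_nonneg_right (Nat.cast_le.2 hS) hY).trans hm
    have hk : ((d * ⌊Y⌋₊ : ℕ) : ℝ) ≤ X₁ := by
      rw [Nat.cast_mul]
      exact (mul_le_mul_of_nonneg_left (Nat.floor_le hY) (Nat.cast_nonneg d)).trans hd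
    obtain ⟨J, hJ, hJ'⟩ := hC X₁ hX q (d * ⌊Y⌋₊) j₀ D Kk (d * exp (-X)) hq hqX hD (hΘ.trans hSm)
      (hF.trans hSm) hk (by rw [hδ]; exact exp_le_exp.2 (neg_le_neg hYX))
      (by rw [hδ]; exact exp_le_one_iff.2 (neg_nonpos.2 hY)) hN hK h1 h2 (by
        refine le_trans (mul_le_mul_of_nonneg_left ?_ (by positivity)) h3
        rw [hε]
        refine mul_le_mul_of_nonneg_right ?_ (exp_pos _).le
        rw [mul_assoc, sq]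
        exact mul_le_mul_of_nonneg_left
          (mul_le_mul hk (hF.trans hSm) (Nat.cast_nonneg _) (by linarith)) (by norm_num))
    refine ⟨J, fun _ => ⟨hJ, fun a b hab hb hr hJa h hh => ?_⟩⟩
    rw [← hB]
    exact hJ' a b hab (hj b hb hr) hJa (Δ S) (hΔ S hS D _ _ (exp_pos _).le hA) h hh
  choose J hJ using key
  exact ⟨J, hJ⟩

open Classical in
/-- `maximal` with `c = 1 / (7200 K ^ 2)`. -/
theorem card_not_NZ (Bad I : Finset ℤ) {Kk : ℝ} (hK : 0 < Kk) :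
    ((I.filter fun x => ¬ NZ Bad (1 / (1200 * Kk ^ 2)) x).card : ℝ) ≤ 7200 * Kk ^ 2 * Bad.card := by
  have h := maximal Bad (I.filter fun x => ¬ NZ Bad (1 / (1200 * Kk ^ 2)) x)
    (c := 1 / (1200 * Kk ^ 2) / 6) (by positivity) fun x hx => by
      obtain ⟨n, hn⟩ := not_forall.1 (mem_filter.1 hx).2
      refine ⟨n, Nat.pos_of_ne_zero ?_, (not_le.1 hn).le⟩
      rintro rfl
      simp at hn
  rw [div_div, one_div, inv_mul_le_iff₀ (by positivity)] at h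
  exact h.trans_eq (by ring)

end Pool.Agent.TR
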